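import Pool.Agent.Lib.MP_b5021c_nt.IfaceB

/-!
# Board b5: statements of the rows of chapters D (cones), E (classes)
-/

namespace Pool.Agent.B5

open scoped LaurentPolynomial

/-! ## Chapter D: finite sets in a lattice -/

/-- (D2) GORDAN's alternative. -/
def D2S : Prop := ∀ (L : Type) [AddCommGroup L] [Module.Free ℤ L] [Module.Finite ℤ L]
  (S : Finset L) (K : Submodule ℤ L),
    (∃ lam : L →+ ℤ, (∀ k ∈ K, lam k = 0) ∧ ∀ a ∈ S, 0 < lam a) ∨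
    (∃ c : L → ℕ, (∃ a ∈ S, c a ≠ 0) ∧ ∑ a ∈ S, c a • a ∈ K)

/-- The exposed elements of a finite set. -/
def Expd {L : Type} [AddCommGroup L] (S : Finset L) : Set L :=
  {b | b ∈ S ∧ ∃ lam : L →+ ℤ, lam b = 0 ∧ ∀ a ∈ S, a ≠ b → 0 < lam a}

/-- (D1) a pointed thin finite set is in the cone of its exposed elements. -/
def D1S : Prop := ∀ (L : Type) [AddCommGroup L] [Module.Free ℤ L] [Module.Finite ℤ L]
  (S : Finset L), (∃ lam : L →+ ℤ, ∀ a ∈ S, 0 < lam a) → Thin (S : Set L) →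
    ∀ a ∈ S, ∃ n : ℕ, 0 < n ∧ n • a ∈ AddSubmonoid.closure (Expd S)

/-- (D1) for elements of the group algebra. -/
def RaySpanS : Prop := ∀ (O : Type) [CommRing O] [IsDomain O] [IsPrincipalIdealRing O] [Coef O]
  (L : Type) [AddCommGroup L] [Module.Free ℤ L] [Module.Finite ℤ L]
  (G : AO O L), (∃ lam : L →+ ℤ, Pos lam G) → Thin (supp G) →
    (∀ a ∈ supp G, a ≠ 0 → ∃ n : ℕ, 0 < n ∧ n • a ∈ AddSubmonoid.closure {b | Ray G b}) ∧
    rk {b | Ray G b} = rk (supp G) ∧ (Wdep G → ∃ b, Ray G b)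

/-- (D3) FACETS. -/
def D3S : Prop := ∀ (L : Type) [AddCommGroup L] [Module.Free ℤ L] [Module.Finite ℤ L]
  (S : Finset L) (e : L), (∃ lam : L →+ ℤ, ∀ a ∈ S, 0 < lam a) →
    rk (S : Set L) = Module.finrank ℤ L → e ≠ 0 →
      ∃ lam : L →+ ℤ, (∀ a ∈ S, 0 ≤ lam a) ∧ lam e ≠ 0 ∧
        rk {a | a ∈ S ∧ lam a = 0} + 1 = Module.finrank ℤ L

/-- Ranks: kernels, monotonicity, products, injective images, sums. -/
def RkS : Prop := ∀ (L L' : Type) [AddCommGroup L] [Module.Free ℤ L] [Module.Finite ℤ L]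
  [AddCommGroup L'] [Module.Free ℤ L'] [Module.Finite ℤ L'],
  (∀ k : L →+ ℤ, k ≠ 0 → Module.finrank ℤ (Ker k) + 1 = Module.finrank ℤ L) ∧
  (∀ S T : Set L, S ⊆ T → rk S ≤ rk T) ∧
  (∀ S : Set L, rk S ≤ Module.finrank ℤ L) ∧
  (∀ (f : L →+ L') (S : Set L), Function.Injective f → rk (f '' S) = rk S) ∧
  (∀ (f : L →+ L') (S : Set L), rk (f '' S) ≤ rk S) ∧
  (∀ S T : Set L, rk (S ∪ T) ≤ rk S + rk T) ∧
  (∀ b : L, b ≠ 0 → rk {b} = 1) ∧ (∀ S : Set L, rk (insert 0 S) = rk S) ∧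
  (∀ S T : Set L, (∀ a ∈ S, ∃ n : ℤ, n ≠ 0 ∧ n • a ∈ Submodule.span ℤ T) → rk S ≤ rk T) ∧
  Module.finrank ℤ (L × ℤ) = Module.finrank ℤ L + 1

/-- A generic functional: strictly positive where required and injective on a finite set. -/
def GenS : Prop := ∀ (L : Type) [AddCommGroup L] [Module.Free ℤ L] [Module.Finite ℤ L]
  (S T : Finset L) (K : Submodule ℤ L) (lam : L →+ ℤ), (∀ k ∈ K, lam k = 0) → Sat K →
    (∀ a ∈ S, 0 < lam a) → (∀ a ∈ T, ∀ b ∈ T, a - b ∈ K → a = b) →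
      ∃ mu : L →+ ℤ, (∀ k ∈ K, mu k = 0) ∧ (∀ a ∈ S, 0 < mu a) ∧
        ∀ a ∈ T, ∀ b ∈ T, mu a = mu b → a = b

/-! ## Chapter E: classes -/

/-- `M` of the classes. -/
def MVS : Prop := ∀ (O : Type) [CommRing O] [IsDomain O] [IsPrincipalIdealRing O] [Coef O],
  (∀ (N : ℝ) (Q : RO O), ClassV N Q → Q ≠ 0 ∧ M Q = N) ∧
  (∀ (θ : ℝ) (Q : RO O), ClassP θ Q → Q ≠ 0 ∧ M Q = θ)

/-- (E1) factors of elements of the classes. -/
def E1S : Prop := ∀ (O : Type) [CommRing O] [IsDomain O] [IsPrincipalIdealRing O] [Coef O],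
  (∀ (N : ℝ) (p q : RO O), ClassV N (p * q) →
    ∃ N₁ N₂ : ℝ, ClassV N₁ p ∧ ClassV N₂ q ∧ N = N₁ * N₂) ∧
  (∀ (θ : ℝ) (p q : RO O), ClassP θ (p * q) →
    (ClassP θ p ∧ ClassV 1 q) ∨ (ClassV 1 p ∧ ClassP θ q))

end Pool.Agent.B5
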