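import Mathlib

/-!
# Board b5: statements of the rows of PaperL.md, first part (complex polynomials, numbers)

These rows need Mathlib only.  The lemmas PCA and PCB of PaperL.md are theorems of helper40:
H40/Pca.lean, H40/Pcb.lean.
-/

namespace Pool.Agent.B5

open Polynomial

/-- (PCZ) zero count: if `q` has exactly one zero (with multiplicity) in the open disc and none on
the circle, and `|f| ≤ |q|` on the circle, then `q + f` has at most one zero in the open disc. -/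
def PCZS : Prop := ∀ (a : ℂ) (q f : ℂ[X]), q.roots.filter (fun w => ‖w‖ < 1) = {a} →
  (∀ z : ℂ, ‖z‖ = 1 → q.eval z ≠ 0) → (∀ z : ℂ, ‖z‖ = 1 → ‖f.eval z‖ ≤ ‖q.eval z‖) → q + f ≠ 0 →
  ((q + f).roots.filter (fun w => ‖w‖ < 1)).card ≤ 1

/-- (VZ) `q` zero-free in the closed disc, `|f| ≤ |q|` on the circle, not everywhere equal:
`|f| < |q|` in the open disc. -/
def VZS : Prop := ∀ (q f : ℂ[X]), (∀ z : ℂ, ‖z‖ ≤ 1 → q.eval z ≠ 0) →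
  (∀ z : ℂ, ‖z‖ = 1 → ‖f.eval z‖ ≤ ‖q.eval z‖) → (∃ z : ℂ, ‖z‖ = 1 ∧ ‖f.eval z‖ ≠ ‖q.eval z‖) →
  ∀ z : ℂ, ‖z‖ < 1 → ‖f.eval z‖ < ‖q.eval z‖

/-- (SPK) Schwarz-Pick for a zero-free multi-affine polynomial in `y_0, y_1, .., y_r`, given by its
coefficients `p I`. -/
def SPKS : Prop := ∀ (r : ℕ) (p : Finset (Fin (r + 1)) → ℂ),
  (∀ y : Fin (r + 1) → ℂ, (∀ i, ‖y i‖ < 1) → ∑ I : Finset (Fin (r + 1)), p I * ∏ i ∈ I, y i ≠ 0) →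
    ∑ i : Fin r, ‖p ∅ * p {0, i.succ} - p {0} * p {i.succ}‖ ≤ ‖p ∅‖ ^ 2 - ‖p {0}‖ ^ 2

/-! ## Numerical recursion -/

/-- The bound in class `V`. -/
noncomputable def bVL (x : ℝ) : ℝ := max 1 (24 * (x - 1))

/-- (JVN) numerical induction step, class `V`: light closing, heavy closing. -/
def JVNS : Prop := ∀ (N : ℝ) (m : ℕ) (N' : Fin m → ℝ) (l : ℕ), Real.sqrt 3 ≤ N →
  (∀ i, Real.sqrt 3 ≤ N' i) → (l : ℝ) * ∏ i, N' i ≤ 2 * N →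
    (∏ i, N' i ≤ N - 1 / 4 → 2 + (l : ℝ) + ∑ i, bVL (N' i) ≤ bVL N) ∧
    (∏ i, N' i ≤ 63 / 100 * N → 3 + N + (l : ℝ) + ∑ i, bVL (N' i) ≤ bVL N)

/-- (JPN) numerical induction step, class `P`: type II with a big factor, type II without big
factor, type I. -/
def JPNS : Prop := (∀ (θ θ' : ℝ) (l : ℕ), 1 < θ' → θ' ≤ θ - 1 / 400 → (l : ℝ) * θ' ≤ 2 * θ →
    2 + (l : ℝ) + 2400 * θ' ≤ 2400 * θ) ∧
  (∀ (θ : ℝ) (l : ℕ), 1 < θ → (l : ℝ) ≤ 2 * θ → 2 + (l : ℝ) ≤ 2400 * θ) ∧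
  (∀ (θ : ℝ) (m : ℕ) (N' : Fin m → ℝ) (l : ℕ), 1 < θ → (∀ i, Real.sqrt 3 ≤ N' i) →
    ∏ i, N' i ≤ 2 * θ + 1 → (l : ℝ) * ∏ i, N' i ≤ 2 * θ →
      3 + θ + (l : ℝ) + ∑ i, bVL (N' i) ≤ 2400 * θ)

end Pool.Agent.B5
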