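import Mathlib

/-!
# Eisenstein integers

`Eis = ℤ[ω]`, `ω^2 = -1 - ω`: a principal ideal domain with six units; every non-zero element has
absolute value at least one, every non-zero non-unit at least `√3`; best and second best unit.
-/

set_option autoImplicit false

namespace Pool.Agent.MP_b5021c_nt

noncomputable section

/-- The Eisenstein integers. -/
abbrev Eis : Type := QuadraticAlgebra ℤ (-1) (-1)

namespace Eis

/-- The primitive cube root of unity in `ℂ`. -/
def om : ℂ := ⟨-1 / 2, √3 / 2⟩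

theorem om_re : om.re = -1 / 2 := rfl

theorem om_im : om.im = √3 / 2 := rfl

theorem sqrt3_sq : √3 * √3 = (3 : ℝ) := Real.mul_self_sqrt (by norm_num)

theorem om_sq : om * om = -1 - om := by
  apply Complex.ext
  · simp only [Complex.mul_re, om_re, om_im, Complex.sub_re, Complex.neg_re, Complex.one_re]
    nlinarith [sqrt3_sq]
  · simp only [Complex.mul_im, om_re, om_im, Complex.sub_im, Complex.neg_im, Complex.one_im]
    ring

/-- The embedding into `ℂ`. -/
def emb : Eis →+* ℂ where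
  toFun x := (x.re : ℂ) + (x.im : ℂ) * om
  map_one' := by
    change (((1 : Eis).re : ℤ) : ℂ) + (((1 : Eis).im : ℤ) : ℂ) * om = 1
    rw [QuadraticAlgebra.re_one, QuadraticAlgebra.im_one]
    simp
  map_zero' := by
    change (((0 : Eis).re : ℤ) : ℂ) + (((0 : Eis).im : ℤ) : ℂ) * om = 0
    rw [QuadraticAlgebra.re_zero, QuadraticAlgebra.im_zero]
    simp
  map_add' x y := by
    change ((x + y).re : ℂ) + ((x + y).im : ℂ) * om =
      ((x.re : ℂ) + (x.im : ℂ) * om) + ((y.re : ℂ) + (y.im : ℂ) * om)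
    rw [QuadraticAlgebra.re_add, QuadraticAlgebra.im_add]
    push_cast
    ring
  map_mul' x y := by
    change ((x * y).re : ℂ) + ((x * y).im : ℂ) * om =
      ((x.re : ℂ) + (x.im : ℂ) * om) * ((y.re : ℂ) + (y.im : ℂ) * om)
    rw [QuadraticAlgebra.re_mul, QuadraticAlgebra.im_mul]
    push_cast
    linear_combination (-(x.im : ℂ) * (y.im : ℂ)) * om_sq

theorem emb_apply (x : Eis) : emb x = (x.re : ℂ) + (x.im : ℂ) * om := rfl

theorem emb_re (x : Eis) : (emb x).re = x.re - x.im / 2 := by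
  rw [emb_apply]
  simp [om_re, om_im]
  ring

theorem emb_im (x : Eis) : (emb x).im = x.im * (√3 / 2) := by
  rw [emb_apply]
  simp [om_re, om_im]

/-- The norm. -/
theorem norm_eq (x : Eis) : x.norm = x.re ^ 2 - x.re * x.im + x.im ^ 2 := by
  rw [QuadraticAlgebra.norm_def]
  ring

theorem normSq_emb (x : Eis) : ‖emb x‖ ^ 2 = (x.norm : ℝ) := by
  rw [← Complex.normSq_eq_norm_sq, Complex.normSq_apply, emb_re, emb_im, norm_eq]
  push_cast
  linear_combination ((x.im : ℝ) ^ 2 / 4) * sqrt3_sq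

theorem norm_nonneg (x : Eis) : 0 ≤ x.norm := by
  rw [norm_eq]
  nlinarith [sq_nonneg (x.re - x.im), sq_nonneg x.re, sq_nonneg x.im]

theorem norm_eq_zero {x : Eis} (h : x.norm = 0) : x = 0 := by
  rw [norm_eq] at h
  have h1 : x.re ^ 2 + x.im ^ 2 + (x.re - x.im) ^ 2 = 0 := by linear_combination 2 * h
  have h2 : x.re = 0 := by nlinarith [sq_nonneg (x.re - x.im), sq_nonneg x.re, sq_nonneg x.im]
  have h3 : x.im = 0 := by nlinarith [sq_nonneg (x.re - x.im), sq_nonneg x.re, sq_nonneg x.im]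
  ext
  · simpa using h2
  · simpa using h3

theorem norm_pos {x : Eis} (h : x ≠ 0) : 1 ≤ x.norm := by
  have h1 := norm_nonneg x
  rcases lt_or_eq_of_le h1 with h2 | h2
  · exact h2
  · exact absurd (norm_eq_zero h2.symm) h

theorem one_le {x : Eis} (h : x ≠ 0) : 1 ≤ ‖emb x‖ := by
  have h1 : (1 : ℝ) ≤ ‖emb x‖ ^ 2 := by
    rw [normSq_emb]; exact_mod_cast norm_pos h
  exact (one_le_sq_iff₀ (_root_.norm_nonneg _)).1 h1

theorem emb_injective : Function.Injective emb := by
  rw [injective_iff_map_eq_zero]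
  intro x hx
  by_contra h
  have := one_le h
  rw [hx, norm_zero] at this
  linarith

instance : IsDomain Eis := emb_injective.isDomain emb

/-- Complex conjugation. -/
def conj : Eis ≃+* Eis := starRingAut

theorem conj_apply (x : Eis) : conj x = star x := rfl

theorem om_conj : (starRingEnd ℂ) om = -1 - om := by
  apply Complex.ext
  · simp only [Complex.conj_re, om_re, Complex.sub_re, Complex.neg_re, Complex.one_re]; norm_num
  · simp only [Complex.conj_im, om_im, Complex.sub_im, Complex.neg_im, Complex.one_im]; ring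

theorem emb_conj (x : Eis) : emb (conj x) = (starRingEnd ℂ) (emb x) := by
  rw [conj_apply, emb_apply, emb_apply]
  simp only [QuadraticAlgebra.re_star, QuadraticAlgebra.im_star, map_add, map_mul, om_conj]
  simp
  ring

theorem conj_conj (x : Eis) : conj (conj x) = x := by
  simp [conj_apply]

/-! ### Euclidean division -/

/-- The rounded quotient. -/
def quo (x y : Eis) : Eis :=
  ⟨round (((x * star y).re : ℚ) / y.norm), round (((x * star y).im : ℚ) / y.norm)⟩

theorem mul_star_eq (y : Eis) : y * star y = ((y.norm : ℤ) : Eis) := by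
  have := QuadraticAlgebra.algebraMap_norm_eq_mul_star y
  rw [← this]
  rfl

theorem round_near {c n : ℤ} (hn : 0 < n) : |2 * (c - round ((c : ℚ) / n) * n)| ≤ n := by
  have h := abs_sub_round ((c : ℚ) / n)
  have hn' : (0 : ℚ) < n := by exact_mod_cast hn
  have h1 : |2 * ((c : ℚ) - round ((c : ℚ) / n) * n)| ≤ n := by
    have h2 : 2 * ((c : ℚ) - round ((c : ℚ) / n) * n) =
        2 * n * ((c : ℚ) / n - round ((c : ℚ) / n)) := by
      field_simp
    rw [h2, abs_mul, abs_of_pos (by positivity)]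
    calc 2 * (n : ℚ) * |(c : ℚ) / n - round ((c : ℚ) / n)| ≤ 2 * n * (1 / 2) := by gcongr
      _ = n := by ring
  exact_mod_cast h1

theorem rem_lt (x : Eis) {y : Eis} (hy : y ≠ 0) : (x - y * quo x y).norm < y.norm := by
  have hn : 0 < y.norm := by have := norm_pos hy; omega
  set z : Eis := x * star y - quo x y * ((y.norm : ℤ) : Eis) with hz
  have h1 : z = (x - y * quo x y) * star y := by
    rw [hz, ← mul_star_eq]; ring
  have h2 : z.norm = (x - y * quo x y).norm * y.norm := by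
    rw [h1, map_mul, QuadraticAlgebra.norm_star]
  have hre : |2 * z.re| ≤ y.norm := by
    have := round_near (c := (x * star y).re) hn
    rw [hz]
    simpa [quo] using this
  have him : |2 * z.im| ≤ y.norm := by
    have := round_near (c := (x * star y).im) hn
    rw [hz]
    simpa [quo] using this
  have h3 : 4 * z.norm ≤ 3 * y.norm ^ 2 := by
    rw [norm_eq z]
    have a1 := abs_le.1 hre
    have a2 := abs_le.1 him
    nlinarith [mul_nonneg (sub_nonneg.2 a1.2) (by linarith [a1.1] : 0 ≤ y.norm + 2 * z.re),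
      mul_nonneg (sub_nonneg.2 a2.2) (by linarith [a2.1] : 0 ≤ y.norm + 2 * z.im),
      mul_nonneg (by linarith [a1.1] : 0 ≤ y.norm + 2 * z.re)
        (by linarith [a2.1] : 0 ≤ y.norm + 2 * z.im),
      mul_nonneg (sub_nonneg.2 a1.2) (sub_nonneg.2 a2.2),
      sq_nonneg (z.re + z.im), sq_nonneg (z.re - z.im)]
  nlinarith [norm_nonneg (x - y * quo x y)]

/-- The Euclidean structure. -/
@[reducible] def euc : EuclideanDomain Eis :=
  { (inferInstance : CommRing Eis), (inferInstance : Nontrivial Eis) with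
    quotient := quo
    quotient_zero := by
      intro x
      ext <;> simp [quo]
    remainder := fun x y => x - y * quo x y
    quotient_mul_add_remainder_eq := by intro x y; ring
    r := fun x y => x.norm.natAbs < y.norm.natAbs
    r_wellFounded := (measure fun x : Eis => x.norm.natAbs).wf
    remainder_lt := by
      intro x y hy
      have := rem_lt x hy
      have h1 := norm_nonneg (x - y * quo x y)
      omega
    mul_left_not_lt := by
      intro x y hy h
      have h1 := norm_pos hy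
      have h2 := norm_nonneg x
      rw [map_mul, Int.natAbs_mul] at h
      have h3 : 1 ≤ y.norm.natAbs := by omega
      exact absurd h (not_lt.2 (Nat.le_mul_of_pos_right _ h3)) }

instance : IsPrincipalIdealRing Eis := @EuclideanDomain.to_principal_ideal_domain Eis euc

/-! ### Units -/

theorem isUnit_iff {x : Eis} : IsUnit x ↔ x.norm = 1 := by
  rw [QuadraticAlgebra.isUnit_iff_norm_isUnit, Int.isUnit_iff]
  have := norm_nonneg x
  constructor
  · rintro (h | h) <;> omega
  · exact fun h => Or.inl h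

theorem isUnit_iff_emb {x : Eis} : IsUnit x ↔ ‖emb x‖ = 1 := by
  rw [isUnit_iff]
  have h := normSq_emb x
  constructor
  · intro h1
    rw [h1, Int.cast_one] at h
    have h0 := _root_.norm_nonneg (emb x)
    exact (pow_eq_one_iff_of_nonneg h0 two_ne_zero).1 h
  · intro h1
    rw [h1] at h
    have h2 : ((x.norm : ℤ) : ℝ) = ((1 : ℤ) : ℝ) := by rw [← h]; norm_num
    exact_mod_cast h2

theorem norm_emb_unit {x : Eis} (h : IsUnit x) : ‖emb x‖ = 1 := isUnit_iff_emb.1 h

/-- The square of the absolute value is a natural number. -/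
theorem sq_nat (x : Eis) : ∃ n : ℕ, ‖emb x‖ ^ 2 = n := by
  refine ⟨x.norm.natAbs, ?_⟩
  rw [normSq_emb]
  have h := norm_nonneg x
  have h1 : ((x.norm.natAbs : ℕ) : ℤ) = x.norm := Int.natAbs_of_nonneg h
  have h2 : (((x.norm.natAbs : ℕ) : ℤ) : ℝ) = ((x.norm.natAbs : ℕ) : ℝ) := Int.cast_natCast _
  rw [← h2, h1]

/-- There is no element of norm two. -/
theorem norm_ne_two (x : Eis) : x.norm ≠ 2 := by
  rw [norm_eq]
  intro h
  have h1 : (x.re + x.im) ^ 2 % 3 = 2 := by
    have : (x.re + x.im) ^ 2 = 2 + 3 * (x.re * x.im) := by linear_combination h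
    rw [this]; omega
  have h2 : (x.re + x.im) % 3 = 0 ∨ (x.re + x.im) % 3 = 1 ∨ (x.re + x.im) % 3 = 2 := by omega
  rcases h2 with h2 | h2 | h2 <;> rw [pow_two, Int.mul_emod, h2] at h1 <;> norm_num at h1

/-- A non-zero non-unit has absolute value at least `√3`. -/
theorem sqrt3_le {x : Eis} (h0 : x ≠ 0) (h : ¬ IsUnit x) : √3 ≤ ‖emb x‖ := by
  have h1 := norm_pos h0
  have h2 := norm_ne_two x
  have h3 : x.norm ≠ 1 := fun h' => h (isUnit_iff.2 h')
  have h4 : 3 ≤ x.norm := by omega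
  rw [Real.sqrt_le_left (_root_.norm_nonneg _), normSq_emb]
  exact_mod_cast h4

theorem sqrt3_le_of_one_lt {x : Eis} (h : 1 < ‖emb x‖) : √3 ≤ ‖emb x‖ := by
  refine sqrt3_le ?_ ?_
  · rintro rfl
    rw [map_zero, norm_zero] at h
    linarith
  · intro hu
    rw [norm_emb_unit hu] at h
    exact lt_irrefl _ h

/-- The primitive sixth root of unity. -/
def g6 : Eis := ⟨1, 1⟩

theorem g6_pow : g6 ^ 6 = 1 := by decide

theorem g6_unit : IsUnit g6 := by
  rw [isUnit_iff, norm_eq]; decide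

theorem g6_re (z : ℂ) : (emb g6 * z).re = z.re / 2 - √3 / 2 * z.im := by
  rw [Complex.mul_re, emb_re, emb_im]
  simp only [g6]
  push_cast
  ring

theorem g6_inv_re (z : ℂ) : (emb (g6 ^ 5) * z).re = z.re / 2 + √3 / 2 * z.im := by
  have h : g6 ^ 5 = ⟨0, -1⟩ := by decide
  rw [h, Complex.mul_re, emb_re, emb_im]
  push_cast
  ring

/-- Best and second best unit for a direction. -/
theorem best (z : ℂ) : ∃ u v : Eis, IsUnit u ∧ IsUnit v ∧ u ≠ v ∧
    √3 / 2 * ‖z‖ ≤ (emb u * z).re ∧ 1 / 2 * ‖z‖ ≤ (emb v * z).re := by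
  obtain ⟨k, -, hk⟩ := Finset.exists_max_image (Finset.range 6)
    (fun k => (emb (g6 ^ k) * z).re) ⟨0, by simp⟩
  have hk' : ∀ n : ℕ, (emb (g6 ^ n) * z).re ≤ (emb (g6 ^ k) * z).re := by
    intro n
    have h1 : g6 ^ n = g6 ^ (n % 6) := by
      conv_lhs => rw [← Nat.div_add_mod n 6, pow_add, pow_mul, g6_pow, one_pow, one_mul]
    rw [h1]
    exact hk _ (Finset.mem_range.2 (Nat.mod_lt _ (by norm_num)))
  set y : ℂ := emb (g6 ^ k) * z with hy
  have hu : IsUnit (g6 ^ k) := g6_unit.pow k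
  have hny : ‖y‖ = ‖z‖ := by rw [hy, norm_mul, norm_emb_unit hu, one_mul]
  have e1 : emb (g6 ^ (k + 1)) * z = emb g6 * y := by
    rw [hy, pow_succ, map_mul]; ring
  have e2 : emb (g6 ^ (k + 5)) * z = emb (g6 ^ 5) * y := by
    rw [hy, pow_add, map_mul]; ring
  have h1 := hk' (k + 1)
  have h2 := hk' (k + 5)
  rw [e1, g6_re] at h1
  rw [e2, g6_inv_re] at h2
  have hs : 0 < √3 := Real.sqrt_pos.2 (by norm_num)
  have hs2 := sqrt3_sq
  have hre : 0 ≤ y.re := by linarith
  have hn : ‖y‖ ^ 2 = y.re ^ 2 + y.im ^ 2 := by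
    rw [← Complex.normSq_eq_norm_sq, Complex.normSq_apply]; ring
  have hb : 3 * y.im ^ 2 ≤ y.re ^ 2 := by
    have a1 : √3 * y.im ≤ y.re := by linarith
    have a2 : -(√3 * y.im) ≤ y.re := by linarith
    nlinarith
  have hbest : √3 / 2 * ‖y‖ ≤ y.re := by
    have h3 : (√3 / 2 * ‖y‖) ^ 2 ≤ y.re ^ 2 := by
      have : (√3 / 2 * ‖y‖) ^ 2 = 3 / 4 * ‖y‖ ^ 2 := by
        rw [mul_pow, div_pow, Real.sq_sqrt (by norm_num)]; norm_num
      rw [this, hn]; nlinarith
    exact (sq_le_sq₀ (by positivity) hre).1 h3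
  have hsn : ‖y‖ ≤ y.re + |y.im| := by
    have := Complex.norm_le_abs_re_add_abs_im y
    rwa [abs_of_nonneg hre] at this
  have h1s : 1 ≤ √3 := by rw [Real.one_le_sqrt]; norm_num
  have hne : ∀ j : ℕ, g6 ^ j ≠ 1 → g6 ^ k ≠ g6 ^ (k + j) := by
    intro j hj he
    rw [pow_add] at he
    exact hj (mul_left_cancel₀ hu.ne_zero (by rw [← he, mul_one]))
  rcases le_total 0 y.im with him | him
  · refine ⟨g6 ^ k, g6 ^ (k + 5), hu, g6_unit.pow _, hne 5 (by decide), ?_, ?_⟩
    · rw [← hy, ← hny]; exact hbest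
    · rw [e2, g6_inv_re, ← hny]
      rw [abs_of_nonneg him] at hsn
      nlinarith
  · refine ⟨g6 ^ k, g6 ^ (k + 1), hu, g6_unit.pow _, hne 1 (by decide), ?_, ?_⟩
    · rw [← hy, ← hny]; exact hbest
    · rw [e1, g6_re, ← hny]
      rw [abs_of_nonpos him] at hsn
      nlinarith

/-- Best and second best unit for `‖x + u y‖`. -/
theorem best_add (x y : ℂ) : ∃ u v : Eis, IsUnit u ∧ IsUnit v ∧ u ≠ v ∧
    ‖x + emb u * y‖ ^ 2 ≤ ‖x‖ ^ 2 + ‖y‖ ^ 2 - √3 * ‖x‖ * ‖y‖ ∧
    ‖x + emb v * y‖ ^ 2 ≤ ‖x‖ ^ 2 + ‖y‖ ^ 2 - ‖x‖ * ‖y‖ := by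
  obtain ⟨u, v, hu, hv, huv, h1, h2⟩ := best (-(y * (starRingEnd ℂ) x))
  have key : ∀ w : Eis, IsUnit w → ‖x + emb w * y‖ ^ 2 =
      ‖x‖ ^ 2 + ‖y‖ ^ 2 - 2 * (emb w * (-(y * (starRingEnd ℂ) x))).re := by
    intro w hw
    have hw1 := norm_emb_unit hw
    have h3 := Complex.normSq_add x (emb w * y)
    rw [Complex.normSq_eq_norm_sq, Complex.normSq_eq_norm_sq, Complex.normSq_eq_norm_sq,
      norm_mul, hw1, one_mul] at h3
    rw [h3]
    have h4 : (x * (starRingEnd ℂ) (emb w * y)).re = (emb w * (y * (starRingEnd ℂ) x)).re := by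
      rw [← Complex.conj_re (x * (starRingEnd ℂ) (emb w * y)), map_mul, Complex.conj_conj]
      congr 1; ring
    rw [h4, mul_neg, Complex.neg_re]
    ring
  have hn : ‖-(y * (starRingEnd ℂ) x)‖ = ‖x‖ * ‖y‖ := by
    rw [norm_neg, norm_mul, Complex.norm_conj, mul_comm]
  rw [hn] at h1 h2
  refine ⟨u, v, hu, hv, huv, ?_, ?_⟩
  · rw [key u hu]; linarith
  · rw [key v hv]; linarith

end Eis

end

end Pool.Agent.MP_b5021c_nt
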