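import Pool.Agent.Lib.MP_b5021c_nt.Defs
import Pool.Agent.Lib.MP_b5021c_nt.Eis

/-!
# The Eisenstein integers as a ring of coefficients
-/

namespace Pool.Agent.B5

open Pool.Agent.MP_b5021c_nt

noncomputable instance instCoefEis : Coef Eis where
  emb := Eis.emb
  conj := Eis.conj
  emb_conj := Eis.emb_conj
  one_le _ hx := Eis.one_le hx

example : IsDomain (AO Eis (Fin 2 → ℤ)) := inferInstance
example : UniqueFactorizationMonoid (RO Eis) := inferInstance

end Pool.Agent.B5
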