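import Pool.Agent.Lib.MP_b5021c_nt.IfaceJ
import Pool.Agent.Lib.MP_b5021c_nt.EisCoef
import Pool.Agent.Lib.MP_b5021c_nt.IfaceL1

/-!
# Board b5: statements of the rows of PaperL.md, second part (the linear bound)
-/

namespace Pool.Agent.B5

open scoped LaurentPolynomial
open Pool.Agent.MP_b5021c_nt (Eis)

/-! ## Loads over the Eisenstein integers (PaperL, L1, L2) -/

/-- (NVE) over the Eisenstein integers a class `V(N)` element has `N = 1` or `√3 ≤ N`. -/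
def NVES : Prop := ∀ (N : ℝ) (Q : RO Eis), ClassV N Q → N = 1 ∨ Real.sqrt 3 ≤ N

/-- (LOV) the loads in class `V`: two light loads or one heavy load. -/
def LOVS : Prop := ∀ (N : ℝ) (Q F : RO Eis), ClassV N Q → F ≠ 0 → (∀ z : Circle, evR z Q ≠ 0) →
  (∀ z : Circle, ‖evR z F‖ ≤ ‖evR z Q‖) → (∃ z : Circle, ‖evR z F‖ ≠ ‖evR z Q‖) →
    (∃ e₁ e₂ : (RO Eis)ˣ, e₁ ≠ e₂ ∧
      (∃ N' : ℝ, N' ≤ N - 1 / 4 ∧ ClassV N' (Q + (e₁ : RO Eis) * F)) ∧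
      (∃ N' : ℝ, N' ≤ N - 1 / 4 ∧ ClassV N' (Q + (e₂ : RO Eis) * F))) ∨
    (∃ (e₁ : (RO Eis)ˣ) (N' : ℝ), N' ≤ 63 / 100 * N ∧ ClassV N' (Q + (e₁ : RO Eis) * F))

/-- The good outcomes of a load in class `P(θ)`, type II. -/
def OutP (θ : ℝ) (V : RO Eis) : Prop := ClassV 1 V ∨ ∃ θ' : ℝ, θ' ≤ θ - 1 / 400 ∧ ClassP θ' V

/-- (LOP) the loads in class `P`: one load of type I, or two loads of type II. -/
def LOPS : Prop := ∀ (θ : ℝ) (Q F : RO Eis), ClassP θ Q → F ≠ 0 → (∀ z : Circle, evR z Q ≠ 0) →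
  (∀ z : Circle, ‖evR z F‖ ≤ ‖evR z Q‖) → (∃ z : Circle, ‖evR z F‖ ≠ ‖evR z Q‖) →
    (∃ (e₁ : (RO Eis)ˣ) (N' : ℝ), N' ≤ 2 * θ + 1 ∧ ClassV N' (Q + (e₁ : RO Eis) * F)) ∨
    (∃ e₁ e₂ : (RO Eis)ˣ, e₁ ≠ e₂ ∧ OutP θ (Q + (e₁ : RO Eis) * F) ∧
      OutP θ (Q + (e₂ : RO Eis) * F))

/-! ## The drop (PaperL, L3) -/

/-- (LMN) LEMMA N: mutually moved rays have drop zero at every other load. -/
def LMNS : Prop := ∀ (O : Type) [CommRing O] [IsDomain O] [IsPrincipalIdealRing O] [Coef O]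
  (P L : Type) [Fintype P] [DecidableEq P] [AddCommGroup L] [Module.Free ℤ L]
  [Module.Finite ℤ L] (phi : L →+ (P → ℤ)) (D : AO O L) (S S' : L) (e e' e'' : (RO O)ˣ),
    Function.Injective phi → (∀ a ∈ supp D, Bin phi a) → Ray D S → Ray D S' →
      S' ∉ US e S D → S ∉ US e' S' D → e'' ≠ e → ∀ a ∈ supp D, a ∈ US e'' S D

/-- (DRB) the drop bound, for a system of disjoint rays as in `F5S`. -/
def DRBS : Prop := ∀ (O : Type) [CommRing O] [IsDomain O] [IsPrincipalIdealRing O] [Coef O]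
  (P L : Type) [Fintype P] [DecidableEq P] [AddCommGroup L] [Module.Free ℤ L]
  [Module.Finite ℤ L] (phi : L →+ (P → ℤ)) (D : AO O L) (eta : L → (RO O)ˣ) (g : ℕ)
  (S : Fin (g + 1) → L), Function.Injective phi → (∀ a ∈ supp D, Bin phi a) → Stable D →
    (∀ z : Circle, evR z (D.coeff 0) ≠ 0) → (∀ i, Ray D (S i)) →
    (∀ i j, i ≠ j → ∀ p, phi (S i) p = 0 ∨ phi (S j) p = 0) →
    (∀ I : Finset (Fin (g + 1)), I.Nonempty →
      (∏ i ∈ I, (eta (S i) : RO O)) * D.coeff (∑ i ∈ I, S i) =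
        (-1) ^ (I.card + 1) * ((eta (S 0) : RO O) * D.coeff (S 0))) →
    D.coeff 0 + (eta (S 0) : RO O) * D.coeff (S 0) ≠ 0 →
      ((g : ℝ) - 1) * M (D.coeff (S 0)) ≤ M (D.coeff 0)

/-- (FL) the choice of the ray: drop `g` at the special load with `(g - 1) M(D_S) ≤ M(Q)`, and
drop zero at all other loads if `g ≥ 1`. -/
def FLS : Prop := ∀ (O : Type) [CommRing O] [IsDomain O] [IsPrincipalIdealRing O] [Coef O]
  (P L : Type) [Fintype P] [DecidableEq P] [AddCommGroup L] [Module.Free ℤ L]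
  [Module.Finite ℤ L] (phi : L →+ (P → ℤ)) (D : AO O L) (eta : L → (RO O)ˣ), DD phi D →
    2 ≤ Module.finrank ℤ L →
    (∀ S, Ray D S → D.coeff 0 + (eta S : RO O) * D.coeff S ≠ 0) →
      ∃ (S : L) (g : ℕ), Ray D S ∧
        (∀ (i0 : P) (h : co phi i0 S = 1),
          Module.finrank ℤ L = rk (supp (cl (co phi i0) S h (eta S) D)) + 1 + g) ∧
        ((g : ℝ) - 1) * M (D.coeff S) ≤ M (D.coeff 0) ∧
        (1 ≤ g → ∀ e : (RO O)ˣ, e ≠ eta S → ∀ (i0 : P) (h : co phi i0 S = 1),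
          Module.finrank ℤ L = rk (supp (cl (co phi i0) S h e D)) + 1)

/-! ## The recursion (PaperL, L4) -/

/-- (CLO) one closing: summary of chapters G, H, I, L2. -/
def CLOS : Prop := ∀ (O : Type) [CommRing O] [IsDomain O] [IsPrincipalIdealRing O] [Coef O]
  (P L : Type) [Fintype P] [DecidableEq P] [AddCommGroup L] [Module.Free ℤ L]
  [Module.Finite ℤ L] (phi : L →+ (P → ℤ)) (D : AO O L) (S : L) (i0 : P) (eta : (RO O)ˣ)
  (h : co phi i0 S = 1), CC phi D S i0 eta →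
    (∀ N : ℝ, ClassV N (D.coeff 0 + (eta : RO O) * D.coeff S) →
      ∀ B : ℝ → ℝ, Monotone B → (∀ x, 1 ≤ B x) → (∀ x, x ≤ N → BdV O x (B x)) →
        ∃ (m : ℕ) (N' : Fin m → ℝ) (l : ℕ),
          (∀ i, 1 < N' i ∧ ∃ Q' : RO O, ClassV (N' i) Q') ∧ ∏ i, N' i ≤ N ∧
          (l : ℝ) * ∏ i, N' i ≤ 2 * M (D.coeff 0) ∧
          (rk (supp (cl (co phi i0) S h eta D)) : ℝ) ≤ 1 + l + ∑ i, B (N' i)) ∧
    (∀ θ' : ℝ, ClassP θ' (D.coeff 0 + (eta : RO O) * D.coeff S) →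
      ∀ C : ℝ, 1 ≤ C → BdP O θ' C → ∃ l : ℕ,
        ((l : ℝ) ≤ 2 * M (D.coeff 0) ∧
          (rk (supp (cl (co phi i0) S h eta D)) : ℝ) ≤ 1 + l) ∨
        ((l : ℝ) * θ' ≤ 2 * M (D.coeff 0) ∧
          (rk (supp (cl (co phi i0) S h eta D)) : ℝ) ≤ 1 + l + C))

/-- (JVT) the induction step in class `V`. -/
def JVTS : Prop := ∀ (P L : Type) [Fintype P] [DecidableEq P] [AddCommGroup L] [Module.Free ℤ L]
  [Module.Finite ℤ L] (phi : L →+ (P → ℤ)) (D : AO Eis L) (N : ℝ), DD phi D →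
    ClassV N (D.coeff 0) → 2 ≤ Module.finrank ℤ L →
    (∀ x : ℝ, x ≤ N - 1 / 4 → BdV Eis x (bVL x)) → (Module.finrank ℤ L : ℝ) ≤ bVL N

/-- (JVL) class `V`. -/
def JVLS : Prop := ∀ N : ℝ, BdV Eis N (bVL N)

/-- (JPT) the induction step in class `P`. -/
def JPTS : Prop := ∀ (P L : Type) [Fintype P] [DecidableEq P] [AddCommGroup L] [Module.Free ℤ L]
  [Module.Finite ℤ L] (phi : L →+ (P → ℤ)) (D : AO Eis L) (θ : ℝ), DD phi D →
    ClassP θ (D.coeff 0) → 2 ≤ Module.finrank ℤ L → (∀ x : ℝ, BdV Eis x (bVL x)) →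
    (∀ x : ℝ, x ≤ θ - 1 / 400 → BdP Eis x (2400 * x)) → (Module.finrank ℤ L : ℝ) ≤ 2400 * θ

/-- (JPL) class `P`: CONCLUSION of chapters B - L. -/
def JPLS : Prop := ∀ θ : ℝ, BdP Eis θ (2400 * θ)

end Pool.Agent.B5
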