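import Mathlib

/-!
# MP_b5021c_nt, chapter K, first part (no group algebras)

Definitions and row statements: Pisot numbers, iterated derived sets, integer power series bounded by one
on the unit circle, theorems of Kronecker, Pisot and Salem, zero counting, the limit lemma.

Every row is a `def NameS : Prop`; the module file proves `theorem name (uses...) : NameS`.
-/

namespace Pool.Agent.MP_b5021c_nt

open Polynomial Filter Topology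

noncomputable section

/-! ## Definitions -/

/-- The set `S` of Pisot numbers. -/
def PS : Set ℝ := {θ | 1 < θ ∧ IsIntegral ℤ θ ∧
  ∀ γ : ℂ, aeval γ (minpoly ℤ θ) = 0 → γ ≠ (θ : ℂ) → ‖γ‖ < 1}

/-- The iterated derived sets `S^(k)`. -/
def PSk (k : ℕ) : Set ℝ := derivedSet^[k] PS

/-- Value of an integral polynomial at a complex number. -/
def pv (p : ℤ[X]) (z : ℂ) : ℂ := aeval z p

/-- `Q(0) = 1` and `Q` has exactly one zero in the closed unit disc, a simple zero at `1/θ`, `θ > 1`. -/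
def OneZero (Q : ℤ[X]) (θ : ℝ) : Prop :=
  1 < θ ∧ Q.coeff 0 = 1 ∧ ∃ g : ℂ[X], Q.map (Int.castRingHom ℂ) = (1 - C (θ : ℂ) * X) * g ∧
    ∀ z : ℂ, ‖z‖ ≤ 1 → g.eval z ≠ 0

/-- `a` is the coefficient sequence of the power series `Y / Q`. -/
def IsQuot (a : ℕ → ℤ) (Y Q : ℤ[X]) : Prop :=
  (PowerSeries.mk a) * (Q : PowerSeries ℤ) = (Y : PowerSeries ℤ)

/-- `a_j = c t^j + h_j` and `c^2/(t^2-1) + sum h_j^2 ≤ 1`. -/
def BP (a : ℕ → ℤ) (c t : ℝ) (h : ℕ → ℝ) : Prop :=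
  1 < t ∧ (∀ j, (a j : ℝ) = c * t ^ j + h j) ∧ Summable (fun j => h j ^ 2) ∧
    c ^ 2 / (t ^ 2 - 1) + ∑' j, h j ^ 2 ≤ 1

/-- The same with equality. -/
def BU (a : ℕ → ℤ) (c t : ℝ) (h : ℕ → ℝ) : Prop :=
  1 < t ∧ (∀ j, (a j : ℝ) = c * t ^ j + h j) ∧ Summable (fun j => h j ^ 2) ∧
    c ^ 2 / (t ^ 2 - 1) + ∑' j, h j ^ 2 = 1

/-- Hankel matrix `(a_{i+j})`, `0 ≤ i, j ≤ n`. -/
def hank (a : ℕ → ℤ) (n : ℕ) : Matrix (Fin (n + 1)) (Fin (n + 1)) ℤ :=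
  Matrix.of fun i j => a (i + j)

/-- The polynomial `q` annihilates the sequence `a` (as a recurrence): `sum_i q_i a_{n+i} = 0` for all `n`. -/
def Ann (q : ℤ[X]) (a : ℕ → ℤ) : Prop := ∀ n, q.sum (fun i c => c * a (n + i)) = 0

/-- Number of zeros (with multiplicity) of a complex polynomial in the open unit disc. -/
def nz (p : ℂ[X]) : ℕ := (p.roots.filter (fun z => ‖z‖ < 1)).card

/-- Value of the multi-affine polynomial `sum_S D_S(z) w^S`. -/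
def mv {ι : Type} [Fintype ι] [DecidableEq ι] (D : Finset ι → ℤ[X]) (z : ℂ) (w : ι → ℂ) : ℂ :=
  ∑ S : Finset ι, pv (D S) z * ∏ i ∈ S, w i

/-- The same as a polynomial in `z` for fixed `w`. -/
def mvp {ι : Type} [Fintype ι] [DecidableEq ι] (D : Finset ι → ℤ[X]) (w : ι → ℂ) : ℂ[X] :=
  ∑ S : Finset ι, C (∏ i ∈ S, w i) * (D S).map (Int.castRingHom ℂ)

/-- `D` has no zeros with `|z| = 1`, `|w_i| < 1`. -/
def PolyFree {ι : Type} [Fintype ι] [DecidableEq ι] (D : Finset ι → ℤ[X]) : Prop :=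
  ∀ (z : ℂ) (w : ι → ℂ), ‖z‖ = 1 → (∀ i, ‖w i‖ < 1) → mv D z w ≠ 0

/-! ## Rows: Pisot numbers -/

/-- PSQ. The reversed minimal polynomial of a Pisot number. -/
def PsqS : Prop := ∀ θ ∈ PS, OneZero (minpoly ℤ θ).reverse θ

/-- QPS. Conversely. -/
def QpsS : Prop := ∀ (θ : ℝ) (Q : ℤ[X]), OneZero Q θ → θ ∈ PS ∧ Q = (minpoly ℤ θ).reverse

/-- REC. Only finitely many Pisot numbers below a bound are conjugate to their inverse. -/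
def RecS : Prop := ∀ B : ℝ, {θ : ℝ | θ ∈ PS ∧ θ ≤ B ∧ pv (minpoly ℤ θ) ((θ : ℂ)⁻¹) = 0}.Finite

/-! ## Rows: integral power series bounded on the circle -/

/-- DEC. Partial fractions: `Y/Q = c/(1 - θ z) + h`. -/
def DecS : Prop := ∀ (Q Y : ℤ[X]) (θ : ℝ) (a : ℕ → ℤ), OneZero Q θ → IsQuot a Y Q →
  ∃ (c : ℝ) (h : ℕ → ℝ), (∀ j, (a j : ℝ) = c * θ ^ j + h j) ∧ Summable (fun j => |h j|) ∧
    ∀ z : ℂ, ‖z‖ = 1 → pv Y z = pv Q z * (c / (1 - θ * z) + ∑' j, (h j : ℂ) * z ^ j)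

/-- PAR. Parseval for `c/(1 - θ z) + h`. -/
def ParS : Prop := ∀ (c θ : ℝ) (h : ℕ → ℝ), 1 < θ → Summable (fun j => |h j|) →
  (2 * Real.pi)⁻¹ * ∫ x in (0 : ℝ)..(2 * Real.pi),
      ‖(c : ℂ) / (1 - θ * Complex.exp (x * Complex.I)) + ∑' j, (h j : ℂ) * Complex.exp (x * Complex.I) ^ j‖ ^ 2
    = c ^ 2 / (θ ^ 2 - 1) + ∑' j, h j ^ 2

/-- BPO. `|Y| ≤ |Q|` on the circle gives `BP`. -/
def BpoS : Prop := ∀ (Q Y : ℤ[X]) (θ : ℝ) (a : ℕ → ℤ), OneZero Q θ → IsQuot a Y Q →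
  (∀ z : ℂ, ‖z‖ = 1 → ‖pv Y z‖ ≤ ‖pv Q z‖) → ∃ c h, BP a c θ h

/-- BUO. `|Y| = |Q|` on the circle gives `BU`. -/
def BuoS : Prop := ∀ (Q Y : ℤ[X]) (θ : ℝ) (a : ℕ → ℤ), OneZero Q θ → IsQuot a Y Q →
  (∀ z : ℂ, ‖z‖ = 1 → ‖pv Y z‖ = ‖pv Q z‖) → ∃ c h, BU a c θ h

/-- BOU. Bounds for the coefficients. -/
def BouS : Prop := ∀ (a : ℕ → ℤ) (c t : ℝ) (h : ℕ → ℝ), BP a c t h → ∀ j, |(a j : ℝ)| ≤ t ^ (j + 1) + 1

/-- BPL. Limits of `BP` sequences, `t_n → t > 1`. -/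
def BplS : Prop := ∀ (a : ℕ → ℕ → ℤ) (c t : ℕ → ℝ) (h : ℕ → ℕ → ℝ) (b : ℕ → ℤ) (τ : ℝ),
  (∀ n, BP (a n) (c n) (t n) (h n)) → Tendsto t atTop (𝓝 τ) → 1 < τ →
  (∀ j, ∀ᶠ n in atTop, a n j = b j) → ∃ c' h', BP b c' τ h'

/-- BP1. Limits of `BP` sequences, `t_n → 1`: the limit is in `ℓ²`. -/
def Bp1S : Prop := ∀ (a : ℕ → ℕ → ℤ) (c t : ℕ → ℝ) (h : ℕ → ℕ → ℝ) (b : ℕ → ℤ),
  (∀ n, BP (a n) (c n) (t n) (h n)) → Tendsto t atTop (𝓝 1) →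
  (∀ j, ∀ᶠ n in atTop, a n j = b j) → Summable (fun j => (b j : ℝ) ^ 2) ∧ ∑' j, (b j : ℝ) ^ 2 ≤ 1

/-- ISO. Isolation (K4): a sequence of `BP` sequences with bounded `t` converging to a `BU` sequence is
eventually constant. -/
def IsoS : Prop := ∀ (a : ℕ → ℕ → ℤ) (c t : ℕ → ℝ) (h : ℕ → ℕ → ℝ) (b : ℕ → ℤ) (c' τ B : ℝ) (h' : ℕ → ℝ),
  (∀ n, BP (a n) (c n) (t n) (h n)) → (∀ n, t n ≤ B) → BU b c' τ h' →
  (∀ j, ∀ᶠ n in atTop, a n j = b j) → ∀ᶠ n in atTop, a n = b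

/-- SUB. Diagonal subsequence: families (indexed by a finite set `J`) of integer sequences with uniformly
bounded coefficients. -/
def SubS : Prop := ∀ (J : Type) [Finite J] (a : ℕ → J → ℕ → ℤ) (M : ℕ → ℕ), (∀ n i j, |a n i j| ≤ M j) →
  ∃ (φ : ℕ → ℕ) (b : J → ℕ → ℤ), StrictMono φ ∧ ∀ i j, ∀ᶠ n in atTop, a (φ n) i j = b i j

/-- POL. If `a` is a `BP` sequence with `t = θ` and `Q` has its only zero at `1/θ`, then `a Q` is a polynomial. -/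
def PolS : Prop := ∀ (Q : ℤ[X]) (θ : ℝ) (a : ℕ → ℤ) (c : ℝ) (h : ℕ → ℝ), OneZero Q θ → BP a c θ h →
  ∃ Y : ℤ[X], IsQuot a Y Q

/-! ## Rows: Pisot's and Salem's theorems -/

/-- HAN. The Hankel determinants tend to zero, so they vanish (Hadamard: `Orientation.abs_volumeForm_apply_le`). -/
def HanS : Prop := ∀ (a : ℕ → ℤ) (c t : ℝ) (h : ℕ → ℝ), 1 < t → (∀ j, (a j : ℝ) = c * t ^ j + h j) →
  Summable (fun j => h j ^ 2) → ∃ N, ∀ n, N ≤ n → (hank a n).det = 0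

/-- KRO. Kronecker: vanishing of the Hankel determinants gives a recurrence. -/
def KroS : Prop := ∀ a : ℕ → ℤ, (∃ N, ∀ n, N ≤ n → (hank a n).det = 0) → ∃ q : ℤ[X], q ≠ 0 ∧ Ann q a

/-- FAT. Fatou: a recurrent integer sequence satisfies a monic integral recurrence (finitely generated module
of shifts). -/
def FatS : Prop := ∀ (a : ℕ → ℤ) (q : ℤ[X]), q ≠ 0 → Ann q a → ∃ p : ℤ[X], p.Monic ∧ Ann p a

/-- PIS. Pisot's theorem. -/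
def PisS : Prop := ∀ (a : ℕ → ℤ) (c t : ℝ) (h : ℕ → ℝ), 1 < t → c ≠ 0 → (∀ j, (a j : ℝ) = c * t ^ j + h j) →
  Summable (fun j => h j ^ 2) → t ∈ PS

/-- SAL. Salem's theorem: `S' ⊆ S`. -/
def SalS : Prop := derivedSet PS ⊆ PS

/-! ## Rows: zeros of polynomials, the limit lemma -/

/-- ZCO. Zero counting: a continuous family of polynomials of bounded degree without zeros on the unit circle
has a constant number of zeros in the disc. -/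
def ZcoS : Prop := ∀ (p : ℝ → ℂ[X]) (N : ℕ), (∀ t ∈ Set.Icc (0 : ℝ) 1, (p t).natDegree ≤ N) →
  (∀ i, ContinuousOn (fun t => (p t).coeff i) (Set.Icc (0 : ℝ) 1)) →
  (∀ t ∈ Set.Icc (0 : ℝ) 1, ∀ z : ℂ, ‖z‖ = 1 → (p t).eval z ≠ 0) → nz (p 0) = nz (p 1)

/-- BLA. Blaschke factor: `E` without zeros on the circle and at most one zero in the disc, `|Q| ≤ C |E|` on the
circle. Then there are power series `G`, `b` with `G E = b Q`; the coefficients of `G` are bounded by `C` and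
`|G| ≤ C` in the disc; `b = (z - ζ)/(1 - conj ζ z)` or `b = 1`. -/
def BlaS : Prop := ∀ (E Q : ℂ[X]) (K : ℝ), nz E ≤ 1 → (∀ z : ℂ, ‖z‖ = 1 → E.eval z ≠ 0) →
  (∀ z : ℂ, ‖z‖ = 1 → ‖Q.eval z‖ ≤ K * ‖E.eval z‖) →
  ∃ (G b : PowerSeries ℂ), G * (E : PowerSeries ℂ) = b * (Q : PowerSeries ℂ) ∧
    (∀ j, ‖PowerSeries.coeff j G‖ ≤ K) ∧ (∀ z : ℂ, ‖z‖ < 1 → ‖∑' j, PowerSeries.coeff j G * z ^ j‖ ≤ K) ∧
    (b = 1 ∨ ∃ ζ : ℂ, ‖ζ‖ ≤ 1 ∧ b * (1 - PowerSeries.C (starRingEnd ℂ ζ) * PowerSeries.X)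
      = PowerSeries.X - PowerSeries.C ζ)

/-- LIM. The limit lemma. `E_n/Q_n → E/Q` coefficientwise. -/
def LimS : Prop := ∀ (E Q : ℕ → ℂ[X]) (E' Q' : ℂ[X]) (f : ℕ → PowerSeries ℂ) (f' : PowerSeries ℂ) (K : ℝ),
  (∀ n, (Q n).coeff 0 = 1) → Q'.coeff 0 = 1 → (∀ n, nz (E n) ≤ 1) →
  (∀ n (z : ℂ), ‖z‖ = 1 → (E n).eval z ≠ 0) →
  (∀ n (z : ℂ), ‖z‖ = 1 → ‖(Q n).eval z‖ ≤ K * ‖(E n).eval z‖) →
  (∀ n, f n * (Q n : PowerSeries ℂ) = (E n : PowerSeries ℂ)) → f' * (Q' : PowerSeries ℂ) = (E' : PowerSeries ℂ) →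
  (∀ j, Tendsto (fun n => PowerSeries.coeff j (f n)) atTop (𝓝 (PowerSeries.coeff j f'))) →
  ∀ z : ℂ, ‖z‖ = 1 → ‖Q'.eval z‖ ≤ K * ‖E'.eval z‖

/-! ## Rows: multi-affine polynomials -/

/-- LOW. A complex multi-affine polynomial without zeros in the open polydisc:
`|p(w)| ≥ |p(0)| ∏ (1 - |w_i|)`. -/
def LowS : Prop := ∀ (ι : Type) [Fintype ι] [DecidableEq ι] (p : Finset ι → ℂ),
  (∀ w : ι → ℂ, (∀ i, ‖w i‖ < 1) → ∑ S : Finset ι, p S * ∏ i ∈ S, w i ≠ 0) →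
  ∀ w : ι → ℂ, (∀ i, ‖w i‖ < 1) → ‖p ∅‖ * ∏ i, (1 - ‖w i‖) ≤ ‖∑ S : Finset ι, p S * ∏ i ∈ S, w i‖

/-- COE. In particular all coefficients are bounded by the constant term. -/
def CoeS : Prop := ∀ (ι : Type) [Fintype ι] [DecidableEq ι] (p : Finset ι → ℂ),
  (∀ w : ι → ℂ, (∀ i, ‖w i‖ < 1) → ∑ S : Finset ι, p S * ∏ i ∈ S, w i ≠ 0) → ∀ S, ‖p S‖ ≤ ‖p ∅‖

/-- STA. The reversed polynomial is smaller: `p*_S = conj p_{S^c}`. -/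
def StaS : Prop := ∀ (ι : Type) [Fintype ι] [DecidableEq ι] (p : Finset ι → ℂ),
  (∀ w : ι → ℂ, (∀ i, ‖w i‖ < 1) → ∑ S : Finset ι, p S * ∏ i ∈ S, w i ≠ 0) →
  ∀ w : ι → ℂ, (∀ i, ‖w i‖ ≤ 1) →
    ‖∑ S : Finset ι, starRingEnd ℂ (p Sᶜ) * ∏ i ∈ S, w i‖ ≤ ‖∑ S : Finset ι, p S * ∏ i ∈ S, w i‖

/-- ZPO. Number of zeros in `z` for fixed `w` in the polydisc. -/
def ZpoS : Prop := ∀ (ι : Type) [Fintype ι] [DecidableEq ι] (D : Finset ι → ℤ[X]) (θ : ℝ),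
  PolyFree D → OneZero (D ∅) θ → ∀ w : ι → ℂ, (∀ i, ‖w i‖ < 1) → nz (mvp D w) = 1

/-- LPF. A coefficientwise limit of polydisc-free multi-affine polynomials is polydisc-free. -/
def LpfS : Prop := ∀ (ι : Type) [Fintype ι] [DecidableEq ι] (D : ℕ → Finset ι → ℤ[X]) (D' : Finset ι → ℤ[X])
  (t : ℕ → ℝ) (τ : ℝ) (a : ℕ → Finset ι → ℕ → ℤ) (b : Finset ι → ℕ → ℤ),
  (∀ n, PolyFree (D n)) → (∀ n, OneZero (D n ∅) (t n)) → OneZero (D' ∅) τ →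
  (∀ n S, IsQuot (a n S) (D n S) (D n ∅)) → (∀ S, IsQuot (b S) (D' S) (D' ∅)) →
  (∀ S j, ∀ᶠ n in atTop, a n S j = b S j) → PolyFree D'

end

end Pool.Agent.MP_b5021c_nt
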