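import Pool.Agent.Lib.MP_b5021c_nt.Defs
import Pool.Agent.Lib.MP_b5021c_nt.IfaceK1

/-!
# MP_b5021c_nt, chapter K, second part (group algebras): the structure theorem

`D : Finset ι → ℤ[X]` is the multi-affine polynomial `sum_S D_S(z) w^S`; `toA D` is the same as an element of the
group algebra `A (ι → ℤ)`.
-/

namespace Pool.Agent.MP_b5021c_nt

open Polynomial Filter Topology Pool.Agent.B5

noncomputable section

/-! ## Definitions -/

/-- The exponent of `w^S`. -/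
def ind {ι : Type} [DecidableEq ι] (S : Finset ι) : ι → ℤ := fun i => if i ∈ S then 1 else 0

/-- `D` as an element of the group algebra. -/
def toA {ι : Type} [Fintype ι] [DecidableEq ι] (D : Finset ι → ℤ[X]) : A (ι → ℤ) :=
  ∑ S : Finset ι, AddMonoidAlgebra.single (ind S) (Polynomial.toLaurent (D S))

/-- Unitary: `D_{S^c} = ± z^N D_S(1/z)`. -/
def UniK {ι : Type} [Fintype ι] [DecidableEq ι] (D : Finset ι → ℤ[X]) : Prop :=
  ∃ (N : ℕ) (ε : ℤ), (ε = 1 ∨ ε = -1) ∧ (∀ S, (D S).natDegree ≤ N) ∧ ∀ S, D Sᶜ = C ε * (D S).reflect N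

/-- The Newton polytope of `D(0,w)` has full dimension. -/
def SpanK {ι : Type} [Fintype ι] [DecidableEq ι] (D : Finset ι → ℤ[X]) : Prop :=
  Submodule.span ℚ {v : ι → ℚ | ∃ S : Finset ι, (D S).coeff 0 ≠ 0 ∧ v = fun i => if i ∈ S then 1 else 0} = ⊤

/-- The polynomials of the structure theorem. -/
structure Good {ι : Type} [Fintype ι] [DecidableEq ι] (D : Finset ι → ℤ[X]) (θ : ℝ) : Prop where
  free : PolyFree D
  one : OneZero (D ∅) θ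
  irr : Irreducible (toA D)
  uni : UniK D
  spn : SpanK D

/-- `D + w_none E`. -/
def join {ι : Type} [DecidableEq ι] (D E : Finset ι → ℤ[X]) : Finset (Option ι) → ℤ[X] :=
  fun S => if none ∈ S then E (Finset.eraseNone S) else D (Finset.eraseNone S)

/-- `D^*_S = z^N D_{S^c}(1/z)`. -/
def rev {ι : Type} [Fintype ι] [DecidableEq ι] (N : ℕ) (D : Finset ι → ℤ[X]) : Finset ι → ℤ[X] :=
  fun S => (D Sᶜ).reflect N

/-- The degree of `D` in `z`. -/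
def degz {ι : Type} [Fintype ι] [DecidableEq ι] (D : Finset ι → ℤ[X]) : ℕ :=
  Finset.univ.sup fun S => (D S).natDegree

/-! ## Rows -/

/-- TCO. Coefficients of `toA D`. -/
def TcoS : Prop := ∀ (ι : Type) [Fintype ι] [DecidableEq ι] (D : Finset ι → ℤ[X]),
  (∀ S, (toA D).coeff (ind S) = Polynomial.toLaurent (D S)) ∧
  (∀ a : ι → ℤ, (toA D).coeff a ≠ 0 → ∃ S, a = ind S ∧ D S ≠ 0)

/-- QEX. Existence and uniqueness of the quotient sequence. -/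
def QexS : Prop := ∀ (Y Q : ℤ[X]), Q.coeff 0 = 1 → ∃! a : ℕ → ℤ, IsQuot a Y Q

/-- STK. `PolyFree` gives stability of `toA D` (with `lam = sum of the coordinates`). -/
def StkS : Prop := ∀ (ι : Type) [Fintype ι] [DecidableEq ι] (D : Finset ι → ℤ[X]) (θ : ℝ),
  PolyFree D → OneZero (D ∅) θ → Stable (toA D)

/-- UNK. -/
def UnkS : Prop := ∀ (ι : Type) [Fintype ι] [DecidableEq ι] (D : Finset ι → ℤ[X]), UniK D → Unitary (toA D)

/-- UNR. The converse, if all ports occur. -/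
def UnrS : Prop := ∀ (ι : Type) [Fintype ι] [DecidableEq ι] (D : Finset ι → ℤ[X]),
  D ∅ ≠ 0 → (∀ i, ∃ S, i ∈ S ∧ D S ≠ 0) → Unitary (toA D) → UniK D

/-- LIK. `D + w_none E` is irreducible if `D`, `E` have no common factor. -/
def LikS : Prop := ∀ (ι : Type) [Fintype ι] [DecidableEq ι] (D E : Finset ι → ℤ[X]),
  toA D ≠ 0 → toA E ≠ 0 → (∀ h, h ∣ toA D → h ∣ toA E → IsUnit h) → Irreducible (toA (join D E))

/-- HPF. `join D (rev N D)` is polydisc-free. -/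
def HpfS : Prop := ∀ (ι : Type) [Fintype ι] [DecidableEq ι] (D : Finset ι → ℤ[X]) (N : ℕ),
  PolyFree D → (∀ S, (D S).natDegree ≤ N) → PolyFree (join D (rev N D))

/-- HSP. The span goes up. -/
def HspS : Prop := ∀ (ι : Type) [Fintype ι] [DecidableEq ι] (D : Finset ι → ℤ[X]),
  (D ∅).coeff 0 = 1 → SpanK D → SpanK (join D (rev (degz D) D))

/-- HUN. The completion is unitary. -/
def HunS : Prop := ∀ (ι : Type) [Fintype ι] [DecidableEq ι] (D : Finset ι → ℤ[X]) (N : ℕ),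
  (∀ S, (D S).natDegree ≤ N) → UniK (join D (rev N D))

/-- HIR. The completion is irreducible. -/
def HirS : Prop := ∀ (ι : Type) [Fintype ι] [DecidableEq ι] (D : Finset ι → ℤ[X]),
  (D ∅).coeff 0 = 1 → SpanK D → Irreducible (toA D) → ¬ UniK D → Irreducible (toA (join D (rev (degz D) D)))

/-- HAT. Completion (K3). -/
def HatS : Prop := ∀ (ι : Type) [Fintype ι] [DecidableEq ι] (D : Finset ι → ℤ[X]) (θ : ℝ),
  PolyFree D → OneZero (D ∅) θ → Irreducible (toA D) → SpanK D → ¬ UniK D → Good (join D (rev (degz D) D)) θ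

/-- BAS. The base (K5): completion of the reversed minimal polynomial in zero ports. -/
def BasS : Prop := ∀ θ ∈ PS, pv (minpoly ℤ θ) ((θ : ℂ)⁻¹) ≠ 0 → ∃ D : Finset (Option Empty) → ℤ[X], Good D θ

/-- LID. The limit polynomial (K6 a). -/
def LidS : Prop := ∀ (ι : Type) [Fintype ι] [DecidableEq ι] (D : ℕ → Finset ι → ℤ[X]) (t : ℕ → ℝ) (θ : ℝ),
  (∀ n, PolyFree (D n)) → (∀ n, OneZero (D n ∅) (t n)) → Tendsto t atTop (𝓝 θ) → θ ∈ PS →
  ∃ (φ : ℕ → ℕ) (D' : Finset ι → ℤ[X]) (a : ℕ → Finset ι → ℕ → ℤ) (b : Finset ι → ℕ → ℤ),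
    StrictMono φ ∧ PolyFree D' ∧ OneZero (D' ∅) θ ∧
    (∀ n S, IsQuot (a n S) (D n S) (D n ∅)) ∧ (∀ S, IsQuot (b S) (D' S) (D' ∅)) ∧
    (∀ n S, ∃ c h, BP (a n S) c (t n) h) ∧ (∀ S j, ∀ᶠ n in atTop, a (φ n) S j = b S j)

/-- LSP. The limit has full span. -/
def LspS : Prop := ∀ (ι : Type) [Fintype ι] [DecidableEq ι] (D : ℕ → Finset ι → ℤ[X]) (D' : Finset ι → ℤ[X])
  (a : ℕ → Finset ι → ℕ → ℤ) (b : Finset ι → ℕ → ℤ),
  (∀ n, SpanK (D n)) → (∀ n, (D n ∅).coeff 0 = 1) → (D' ∅).coeff 0 = 1 →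
  (∀ n S, IsQuot (a n S) (D n S) (D n ∅)) → (∀ S, IsQuot (b S) (D' S) (D' ∅)) →
  (∀ S j, ∀ᶠ n in atTop, a n S j = b S j) → SpanK D'

/-- LNU. The limit is not unitary (K6 d). -/
def LnuS : Prop := ∀ (ι : Type) [Fintype ι] [DecidableEq ι] (D : ℕ → Finset ι → ℤ[X]) (D' : Finset ι → ℤ[X])
  (t : ℕ → ℝ) (θ : ℝ) (a : ℕ → Finset ι → ℕ → ℤ) (b : Finset ι → ℕ → ℤ),
  (∀ n, UniK (D n)) → (∀ n, OneZero (D n ∅) (t n)) → (∀ n, pv (D n ∅) (t n) ≠ 0) → OneZero (D' ∅) θ →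
  Tendsto t atTop (𝓝 θ) → (∀ n, t n ≠ θ) →
  (∀ n S, IsQuot (a n S) (D n S) (D n ∅)) → (∀ S, IsQuot (b S) (D' S) (D' ∅)) →
  (∀ n S, ∃ c h, BP (a n S) c (t n) h) → (∀ S j, ∀ᶠ n in atTop, a n S j = b S j) → ¬ UniK D'

/-- LRE. If `D_S = ± z^m D_∅` for some nonempty `S` then `D` is reducible, or `S` is everything (Hurwitz
principle C3 applied to the face `{T ⊆ S}`). -/
def LreS : Prop := ∀ (ι : Type) [Fintype ι] [DecidableEq ι] (D : Finset ι → ℤ[X]) (θ : ℝ) (S : Finset ι) (m : ℕ)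
  (ε : ℤ), PolyFree D → OneZero (D ∅) θ → Irreducible (toA D) → (∀ i, ∃ T, i ∈ T ∧ D T ≠ 0) → S ≠ ∅ →
  (ε = 1 ∨ ε = -1) → D S = C ε * X ^ m * D ∅ → S = Finset.univ

/-- LFA. A reducible `D` has `D_S = ± z^m D_∅` for some nonempty `S`. -/
def LfaS : Prop := ∀ (ι : Type) [Fintype ι] [DecidableEq ι] (D : Finset ι → ℤ[X]) (θ : ℝ), PolyFree D →
  OneZero (D ∅) θ → ¬ Irreducible (toA D) → ∃ (S : Finset ι) (m : ℕ) (ε : ℤ), S ≠ ∅ ∧
    (ε = 1 ∨ ε = -1) ∧ D S = C ε * X ^ m * D ∅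

/-- LIR. The limit is irreducible (K6 c). -/
def LirS : Prop := ∀ (ι : Type) [Fintype ι] [DecidableEq ι] (D : ℕ → Finset ι → ℤ[X]) (D' : Finset ι → ℤ[X])
  (t : ℕ → ℝ) (θ : ℝ) (a : ℕ → Finset ι → ℕ → ℤ) (b : Finset ι → ℕ → ℤ),
  (∀ n, Good (D n) (t n)) → (∀ n, pv (D n ∅) (t n) ≠ 0) → PolyFree D' → OneZero (D' ∅) θ →
  Tendsto t atTop (𝓝 θ) → (∀ n, t n ≠ θ) →
  (∀ n S, IsQuot (a n S) (D n S) (D n ∅)) → (∀ S, IsQuot (b S) (D' S) (D' ∅)) →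
  (∀ n S, ∃ c h, BP (a n S) c (t n) h) → (∀ S j, ∀ᶠ n in atTop, a n S j = b S j) → Irreducible (toA D')

/-- STP. The step (K6). -/
def StpS : Prop := ∀ (ι : Type) [Fintype ι] [DecidableEq ι] (D : ℕ → Finset ι → ℤ[X]) (t : ℕ → ℝ) (θ : ℝ),
  θ ∈ PS → Tendsto t atTop (𝓝 θ) → (∀ n, t n ≠ θ) → (∀ n, Good (D n) (t n)) → (∀ n, pv (D n ∅) (t n) ≠ 0) →
  ∃ D' : Finset (Option ι) → ℤ[X], Good D' θ

/-- TRA. Transport along a bijection of the ports. -/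
def TraS : Prop := ∀ (ι κ : Type) [Fintype ι] [DecidableEq ι] [Fintype κ] [DecidableEq κ] (_ : ι ≃ κ)
  (D : Finset ι → ℤ[X]) (θ : ℝ), Good D θ → ∃ D' : Finset κ → ℤ[X], Good D' θ

/-- THK. The structure theorem (with the non-reciprocal points of `S` for `k = 0`). -/
def ThkS : Prop := ∀ (k : ℕ) (θ : ℝ), θ ∈ PSk k → (k = 0 → pv (minpoly ℤ θ) ((θ : ℂ)⁻¹) ≠ 0) →
  ∃ D : Finset (Fin (k + 1)) → ℤ[X], Good D θ

end

end Pool.Agent.MP_b5021c_nt
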