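import Pool.Agent.Lib.MP_b5021c_nt.B.H03.B4c
import Pool.Agent.Lib.MP_b5021c_nt.B.H03.Una
import Pool.Agent.Lib.MP_b5021c_nt.B.H06.B2f
import Pool.Agent.Lib.MP_b5021c_nt.B.H07.Hcc
import Pool.Agent.Lib.MP_b5021c_nt.B.H07.Zfi
import Pool.Agent.Lib.MP_b5021c_nt.B.H09.Sha
import Pool.Agent.Lib.MP_b5021c_nt.B.H14.Pri
import Pool.Agent.Lib.MP_b5021c_nt.B.H15.Wwf
import Pool.Agent.Lib.MP_b5021c_nt.B.H16.C3c
import Pool.Agent.Lib.MP_b5021c_nt.B.H16.H2c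
import Pool.Agent.Lib.MP_b5021c_nt.B.H17.As1
import Pool.Agent.Lib.MP_b5021c_nt.B.H17.E1c
import Pool.Agent.Lib.MP_b5021c_nt.B.H17.F2c
import Pool.Agent.Lib.MP_b5021c_nt.B.H17.Ply
import Pool.Agent.Lib.MP_b5021c_nt.B.H17.Vco
import Pool.Agent.Lib.MP_b5021c_nt.B.H18.A5C
import Pool.Agent.Lib.MP_b5021c_nt.B.H18.STE
import Pool.Agent.Lib.MP_b5021c_nt.B.H18.STS
import Pool.Agent.Lib.MP_b5021c_nt.B.H18.UNE
import Pool.Agent.Lib.MP_b5021c_nt.B.H19.A2c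
import Pool.Agent.Lib.MP_b5021c_nt.B.H24.A6c
import Pool.Agent.Lib.MP_b5021c_nt.B.H24.B5u
import Pool.Agent.Lib.MP_b5021c_nt.B.H24.Mu1
import Pool.Agent.Lib.MP_b5021c_nt.B.H32.C1c
import Pool.Agent.Lib.MP_b5021c_nt.B.H35.H3b
import Pool.Agent.Lib.MP_b5021c_nt.B.H36.Evr
import Pool.Agent.Lib.MP_b5021c_nt.B.H36.H1c
import Pool.Agent.Lib.MP_b5021c_nt.B.H37.MIN
import Pool.Agent.Lib.MP_b5021c_nt.B.H38.B5c
import Pool.Agent.Lib.MP_b5021c_nt.B.H40.A4c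
import Pool.Agent.Lib.MP_b5021c_nt.B.H40.Jpl
import Pool.Agent.Lib.MP_b5021c_nt.B.H40.Lop
import Pool.Agent.Lib.MP_b5021c_nt.B.H40.Lov
import Pool.Agent.Lib.MP_b5021c_nt.B.H42.F1c
import Pool.Agent.Lib.MP_b5021c_nt.B.H42.G3c
import Pool.Agent.Lib.MP_b5021c_nt.B.H42.Lmn
import Pool.Agent.Lib.MP_b5021c_nt.B.H42.Sle
import Pool.Agent.Lib.MP_b5021c_nt.B.H43.C1a
import Pool.Agent.Lib.MP_b5021c_nt.B.H44.E2C
import Pool.Agent.Lib.MP_b5021c_nt.B.H45.Jvl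
import Pool.Agent.Lib.MP_b5021c_nt.B.H49.Drb
import Pool.Agent.Lib.MP_b5021c_nt.B.H49.Jpt
import Pool.Agent.Lib.MP_b5021c_nt.B.H50.G1c
import Pool.Agent.Lib.MP_b5021c_nt.B.H56.Gen
import Pool.Agent.Lib.MP_b5021c_nt.B.H58.L2c
import Pool.Agent.Lib.MP_b5021c_nt.B.H58.Rku
import Pool.Agent.Lib.MP_b5021c_nt.B.H59.Cst
import Pool.Agent.Lib.MP_b5021c_nt.B.H59.D1e
import Pool.Agent.Lib.MP_b5021c_nt.B.H59.Thi
import Pool.Agent.Lib.MP_b5021c_nt.B.H62.Ext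
import Pool.Agent.Lib.MP_b5021c_nt.B.H63.Asa
import Pool.Agent.Lib.MP_b5021c_nt.B.H63.F5c
import Pool.Agent.Lib.MP_b5021c_nt.B.H63.Mvc
import Pool.Agent.Lib.MP_b5021c_nt.B.H63.Rsp
import Pool.Agent.Lib.MP_b5021c_nt.B.H65.B5a
import Pool.Agent.Lib.MP_b5021c_nt.B.H69.I3C
import Pool.Agent.Lib.MP_b5021c_nt.B.H70.Mm
import Pool.Agent.Lib.MP_b5021c_nt.B.H71.I1c
import Pool.Agent.Lib.MP_b5021c_nt.B.H71.I2c
import Pool.Agent.Lib.MP_b5021c_nt.B.H78.Den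
import Pool.Agent.Lib.MP_b5021c_nt.B.H78.Fct
import Pool.Agent.Lib.MP_b5021c_nt.B.H79.C0D
import Pool.Agent.Lib.MP_b5021c_nt.B.H82.B3c
import Pool.Agent.Lib.MP_b5021c_nt.B.H82.Rst
import Pool.Agent.Lib.MP_b5021c_nt.B.H83.F3C
import Pool.Agent.Lib.MP_b5021c_nt.B.H83.I1A
import Pool.Agent.Lib.MP_b5021c_nt.B.H83.L2A
import Pool.Agent.Lib.MP_b5021c_nt.B.H87.Fll
import Pool.Agent.Lib.MP_b5021c_nt.B.H87.Jvt
import Pool.Agent.Lib.MP_b5021c_nt.B.H88.D2G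
import Pool.Agent.Lib.MP_b5021c_nt.B.H88.NVE
import Pool.Agent.Lib.MP_b5021c_nt.B.H91.A1r
import Pool.Agent.Lib.MP_b5021c_nt.B.H93.A2R
import Pool.Agent.Lib.MP_b5021c_nt.B.H94.Co0
import Pool.Agent.Lib.MP_b5021c_nt.H03.Kro
import Pool.Agent.Lib.MP_b5021c_nt.H05.G0c
import Pool.Agent.Lib.MP_b5021c_nt.H05.Rfa
import Pool.Agent.Lib.MP_b5021c_nt.H05.Rwd
import Pool.Agent.Lib.MP_b5021c_nt.H15.Qps
import Pool.Agent.Lib.MP_b5021c_nt.H16.Vz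
import Pool.Agent.Lib.MP_b5021c_nt.H20.C1b
import Pool.Agent.Lib.MP_b5021c_nt.H23.Mul
import Pool.Agent.Lib.MP_b5021c_nt.H41.D3f
import Pool.Agent.Lib.MP_b5021c_nt.H41.Rks
import Pool.Agent.Lib.MP_b5021c_nt.H45.Mmu
import Pool.Agent.Lib.MP_b5021c_nt.H50.B2c
import Pool.Agent.Lib.MP_b5021c_nt.H51.H3A
import Pool.Agent.Lib.MP_b5021c_nt.H57.Pcz
import Pool.Agent.Lib.MP_b5021c_nt.H57.Psq
import Pool.Agent.Lib.MP_b5021c_nt.H57.Tco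
import Pool.Agent.Lib.MP_b5021c_nt.H61.C2c
import Pool.Agent.Lib.MP_b5021c_nt.H61.Ful
import Pool.Agent.Lib.MP_b5021c_nt.H67.A7c
import Pool.Agent.Lib.MP_b5021c_nt.H67.Hun
import Pool.Agent.Lib.MP_b5021c_nt.H67.Zco
import Pool.Agent.Lib.MP_b5021c_nt.H74.Hur
import Pool.Agent.Lib.MP_b5021c_nt.H76.Iso
import Pool.Agent.Lib.MP_b5021c_nt.H76.Za
import Pool.Agent.Lib.MP_b5021c_nt.H84.Fac
import Pool.Agent.Lib.MP_b5021c_nt.H96.Fce2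
import Pool.Agent.Lib.MP_b5021c_nt.H96.Slm
import Pool.Agent.Lib.MP_b5021c_nt.K.H02.Par
import Pool.Agent.Lib.MP_b5021c_nt.K.H05.Dec
import Pool.Agent.Lib.MP_b5021c_nt.K.H05.Rec
import Pool.Agent.Lib.MP_b5021c_nt.K.H06.Sal
import Pool.Agent.Lib.MP_b5021c_nt.K.H07.Sub
import Pool.Agent.Lib.MP_b5021c_nt.K.H14.Lir
import Pool.Agent.Lib.MP_b5021c_nt.K.H17.Fat
import Pool.Agent.Lib.MP_b5021c_nt.K.H18.Thk
import Pool.Agent.Lib.MP_b5021c_nt.K.H19.Hpf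
import Pool.Agent.Lib.MP_b5021c_nt.K.H19.Tce
import Pool.Agent.Lib.MP_b5021c_nt.K.H22.Coe
import Pool.Agent.Lib.MP_b5021c_nt.K.H23.Low
import Pool.Agent.Lib.MP_b5021c_nt.K.H25.Glue
import Pool.Agent.Lib.MP_b5021c_nt.K.H25.Mae
import Pool.Agent.Lib.MP_b5021c_nt.K.H25.Sma
import Pool.Agent.Lib.MP_b5021c_nt.K.H29.Fdc
import Pool.Agent.Lib.MP_b5021c_nt.K.H29.G4c
import Pool.Agent.Lib.MP_b5021c_nt.K.H30.C4c
import Pool.Agent.Lib.MP_b5021c_nt.K.H30.Pol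
import Pool.Agent.Lib.MP_b5021c_nt.K.H31.Clo
import Pool.Agent.Lib.MP_b5021c_nt.K.H31.Kev
import Pool.Agent.Lib.MP_b5021c_nt.K.H31.Zpo
import Pool.Agent.Lib.MP_b5021c_nt.K.H32.Hir
import Pool.Agent.Lib.MP_b5021c_nt.K.H36.Hat
import Pool.Agent.Lib.MP_b5021c_nt.K.H37.BPO
import Pool.Agent.Lib.MP_b5021c_nt.K.H38.Bou
import Pool.Agent.Lib.MP_b5021c_nt.K.H40.Lpf
import Pool.Agent.Lib.MP_b5021c_nt.K.H42.Han
import Pool.Agent.Lib.MP_b5021c_nt.K.H45.Sta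
import Pool.Agent.Lib.MP_b5021c_nt.K.H47.Lnu
import Pool.Agent.Lib.MP_b5021c_nt.K.H47.Tra
import Pool.Agent.Lib.MP_b5021c_nt.K.H48.Lre
import Pool.Agent.Lib.MP_b5021c_nt.K.H50.Ire
import Pool.Agent.Lib.MP_b5021c_nt.K.H54.Gde
import Pool.Agent.Lib.MP_b5021c_nt.K.H61.Lim
import Pool.Agent.Lib.MP_b5021c_nt.K.H61.Pis
import Pool.Agent.Lib.MP_b5021c_nt.K.H62.Lid
import Pool.Agent.Lib.MP_b5021c_nt.K.H65.Stp
import Pool.Agent.Lib.MP_b5021c_nt.K.H70.Lfa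
import Pool.Agent.Lib.MP_b5021c_nt.K.H70.Qex
import Pool.Agent.Lib.MP_b5021c_nt.K.H70.Unr
import Pool.Agent.Lib.MP_b5021c_nt.K.H78.Buo
import Pool.Agent.Lib.MP_b5021c_nt.K.H79.Bpl
import Pool.Agent.Lib.MP_b5021c_nt.K.H79.Jpn
import Pool.Agent.Lib.MP_b5021c_nt.K.H79.Lik
import Pool.Agent.Lib.MP_b5021c_nt.K.H82.Lsp
import Pool.Agent.Lib.MP_b5021c_nt.K.H91.Bas
import Pool.Agent.Lib.MP_b5021c_nt.K.H91.Bla
import Pool.Agent.Lib.MP_b5021c_nt.K.H96.Hsp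
import Pool.Agent.Lib.MP_b5021c_nt.K.H97.Cir
import Pool.Agent.Lib.MP_b5021c_nt.K.H98.H2a
import Pool.Agent.Lib.MP_b5021c_nt.L.H32.Jvn

/-!
# MP_b5021c_nt: assembly of all rows of the board
-/

namespace Pool.Agent.MP_b5021c_nt.All

theorem r_PsqS : Pool.Agent.MP_b5021c_nt.PsqS :=
  @Pool.Agent.MP_b5021c_nt.psq

theorem r_CoeS : Pool.Agent.MP_b5021c_nt.CoeS :=
  @Pool.Agent.MP_b5021c_nt.H22.coe

theorem r_DecS : Pool.Agent.MP_b5021c_nt.DecS :=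
  @Pool.Agent.MP_b5021c_nt.H05.decS

theorem r_ParS : Pool.Agent.MP_b5021c_nt.ParS :=
  @Pool.Agent.MP_b5021c_nt.Par.par

theorem r_BpoS : Pool.Agent.MP_b5021c_nt.BpoS :=
  @Pool.Agent.MP_b5021c_nt.BPO.bpo r_DecS r_ParS

theorem r_BouS : Pool.Agent.MP_b5021c_nt.BouS :=
  @Pool.Agent.MP_b5021c_nt.H38.bou

theorem r_SubS : Pool.Agent.MP_b5021c_nt.SubS :=
  @Pool.Agent.MP_b5021c_nt.H07.sub

theorem r_BplS : Pool.Agent.MP_b5021c_nt.BplS :=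
  @Pool.Agent.MP_b5021c_nt.Bpl.bpl

theorem r_PolS : Pool.Agent.MP_b5021c_nt.PolS :=
  @Pool.Agent.MP_b5021c_nt.POL.pol

theorem r_LowS : Pool.Agent.MP_b5021c_nt.LowS :=
  @Pool.Agent.MP_b5021c_nt.K.H23.low

theorem r_ZcoS : Pool.Agent.MP_b5021c_nt.ZcoS :=
  @Pool.Agent.MP_b5021c_nt.H67.zco

theorem r_ZpoS : Pool.Agent.MP_b5021c_nt.ZpoS :=
  @Pool.Agent.MP_b5021c_nt.Zpo.zpo r_ZcoS

theorem r_BlaS : Pool.Agent.MP_b5021c_nt.BlaS :=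
  @Pool.Agent.MP_b5021c_nt.Bla.bla

theorem r_LimS : Pool.Agent.MP_b5021c_nt.LimS :=
  @Pool.Agent.MP_b5021c_nt.H61.lim r_BlaS

theorem r_LpfS : Pool.Agent.MP_b5021c_nt.LpfS :=
  @Pool.Agent.MP_b5021c_nt.Lpf.lpf r_LowS r_ZpoS r_LimS

theorem r_QexS : Pool.Agent.MP_b5021c_nt.QexS :=
  @Pool.Agent.MP_b5021c_nt.Qex.qex

theorem r_LidS : Pool.Agent.MP_b5021c_nt.LidS :=
  @Pool.Agent.MP_b5021c_nt.H62.lid r_PsqS r_CoeS r_BpoS r_BouS r_SubS r_BplS r_PolS r_LpfS r_QexS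

theorem r_LspS : Pool.Agent.MP_b5021c_nt.LspS :=
  @Pool.Agent.MP_b5021c_nt.K.H82.lsp

theorem r_BuoS : Pool.Agent.MP_b5021c_nt.BuoS :=
  @Pool.Agent.MP_b5021c_nt.H78.buo r_DecS r_ParS

theorem r_IsoS : Pool.Agent.MP_b5021c_nt.IsoS :=
  @Pool.Agent.MP_b5021c_nt.H76.iso

theorem r_LnuS : Pool.Agent.MP_b5021c_nt.LnuS :=
  @Pool.Agent.MP_b5021c_nt.H47.lnu r_BuoS r_IsoS

theorem r_TcoS : Pool.Agent.MP_b5021c_nt.TcoS :=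
  @Pool.Agent.MP_b5021c_nt.tco

theorem r_LfaS : Pool.Agent.MP_b5021c_nt.LfaS :=
  @Pool.Agent.MP_b5021c_nt.Lfa.lfa r_TcoS r_CoeS

theorem r_LreS : Pool.Agent.MP_b5021c_nt.LreS :=
  @Pool.Agent.MP_b5021c_nt.Lre.lre

theorem r_LirS : Pool.Agent.MP_b5021c_nt.LirS :=
  @Pool.Agent.MP_b5021c_nt.H14.lir r_LfaS r_LreS r_BuoS r_IsoS

theorem r_StaS : Pool.Agent.MP_b5021c_nt.StaS :=
  @Pool.Agent.MP_b5021c_nt.H45.sta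

theorem r_HpfS : Pool.Agent.MP_b5021c_nt.HpfS :=
  @Pool.Agent.MP_b5021c_nt.H19.hpf r_StaS

theorem r_LikS : Pool.Agent.MP_b5021c_nt.LikS :=
  @Pool.Agent.MP_b5021c_nt.Lik.lik r_TcoS

theorem r_UnrS : Pool.Agent.MP_b5021c_nt.UnrS :=
  @Pool.Agent.MP_b5021c_nt.Unr.unr r_TcoS

theorem r_HirS : Pool.Agent.MP_b5021c_nt.HirS :=
  @Pool.Agent.MP_b5021c_nt.H32.hir r_LikS r_UnrS

theorem r_HunS : Pool.Agent.MP_b5021c_nt.HunS :=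
  @Pool.Agent.MP_b5021c_nt.H67.hun

theorem r_HspS : Pool.Agent.MP_b5021c_nt.HspS :=
  @Pool.Agent.MP_b5021c_nt.H96.hsp

theorem r_HatS : Pool.Agent.MP_b5021c_nt.HatS :=
  @Pool.Agent.MP_b5021c_nt.H36.hat r_HpfS r_HirS r_HunS r_HspS

theorem r_StpS : Pool.Agent.MP_b5021c_nt.StpS :=
  @Pool.Agent.MP_b5021c_nt.H65.stp r_LidS r_LspS r_LnuS r_LirS r_HatS

theorem r_BasS : Pool.Agent.MP_b5021c_nt.BasS :=
  @Pool.Agent.MP_b5021c_nt.Bas.bas r_PsqS r_HatS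

theorem r_RecS : Pool.Agent.MP_b5021c_nt.RecS :=
  @Pool.Agent.MP_b5021c_nt.H05.recS

theorem r_Bp1S : Pool.Agent.MP_b5021c_nt.Bp1S :=
  @Pool.Agent.MP_b5021c_nt.H76.bp1

theorem r_HanS : Pool.Agent.MP_b5021c_nt.HanS :=
  @Pool.Agent.MP_b5021c_nt.Han.han

theorem r_KroS : Pool.Agent.MP_b5021c_nt.KroS :=
  @Pool.Agent.MP_b5021c_nt.H03.kro

theorem r_FatS : Pool.Agent.MP_b5021c_nt.FatS :=
  @Pool.Agent.MP_b5021c_nt.H17.fat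

theorem r_PisS : Pool.Agent.MP_b5021c_nt.PisS :=
  @Pool.Agent.MP_b5021c_nt.H61.pis r_HanS r_KroS r_FatS

theorem r_SalS : Pool.Agent.MP_b5021c_nt.SalS :=
  @Pool.Agent.MP_b5021c_nt.H06.sal r_PsqS r_RecS r_BuoS r_BouS r_BplS r_Bp1S r_IsoS r_SubS r_PisS

theorem r_QpsS : Pool.Agent.MP_b5021c_nt.QpsS :=
  @Pool.Agent.MP_b5021c_nt.H15.qps

theorem r_TraS : Pool.Agent.MP_b5021c_nt.TraS :=
  @Pool.Agent.MP_b5021c_nt.H47.tra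

theorem r_ThkS : Pool.Agent.MP_b5021c_nt.ThkS :=
  @Pool.Agent.MP_b5021c_nt.H18.thk r_StpS r_BasS r_SalS r_RecS r_QpsS r_TraS

theorem r_TceS : Pool.Agent.MP_b5021c_nt.TceS :=
  @Pool.Agent.MP_b5021c_nt.H19.tce

theorem r_SteS : Pool.Agent.MP_b5021c_nt.SteS :=
  @Pool.Agent.B5.H18.Ste.ste r_TceS

theorem r_UneS : Pool.Agent.MP_b5021c_nt.UneS :=
  @Pool.Agent.B5.H18.Une.une

theorem r_IreS : Pool.Agent.MP_b5021c_nt.IreS :=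
  @Pool.Agent.MP_b5021c_nt.Ire.ire r_TceS

theorem r_GdeS : Pool.Agent.MP_b5021c_nt.GdeS :=
  @Pool.Agent.MP_b5021c_nt.H54.gde r_TceS r_SteS r_UneS r_IreS

theorem r_HurS : Pool.Agent.B5.HurS :=
  @Pool.Agent.B5.H74.hur

theorem r_Multi1S : Pool.Agent.B5.Multi1S :=
  @Pool.Agent.B5.H24.mu1 r_HurS

theorem r_A3bS : Pool.Agent.B5.A3bS :=
  @Pool.Agent.MP_b5021c_nt.H76.a3b

theorem r_MultiS : Pool.Agent.B5.MultiS :=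
  @Pool.Agent.B5.H23.mul r_Multi1S r_A3bS

theorem r_A3aS : Pool.Agent.B5.A3aS :=
  @Pool.Agent.MP_b5021c_nt.H76.a3a

theorem r_StSpecS : Pool.Agent.B5.StSpecS :=
  @Pool.Agent.B5.H18.sts r_MultiS

theorem r_ZfinS : Pool.Agent.B5.ZfinS :=
  @Pool.Agent.B5.H07.zfi

theorem r_B2S : Pool.Agent.B5.B2S :=
  @Pool.Agent.B5.H06.b2f r_MultiS r_A3aS r_StSpecS r_ZfinS

theorem r_GenS : Pool.Agent.B5.GenS :=
  @Pool.Agent.B5.H56.gen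

theorem r_B2cS : Pool.Agent.B5.B2cS :=
  @Pool.Agent.B5.H50.b2c r_B2S r_MultiS r_GenS

theorem r_KerEvS : Pool.Agent.B5.KerEvS :=
  @Pool.Agent.B5.Kev.kev

theorem r_B3S : Pool.Agent.B5.B3S :=
  @Pool.Agent.B5.H82.b3c r_B2cS r_KerEvS

theorem r_C0S : Pool.Agent.B5.C0S :=
  @Pool.Agent.B5.H79.c0d

theorem r_DensS : Pool.Agent.B5.DensS :=
  @Pool.Agent.B5.H78.den

theorem r_C1aS : Pool.Agent.B5.C1aS :=
  @Pool.Agent.B5.H43.c1a r_DensS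

theorem r_C1bS : Pool.Agent.B5.C1bS :=
  @Pool.Agent.B5.H20.c1b

theorem r_SlEvalS : Pool.Agent.B5.SlEvalS :=
  @Pool.Agent.B5.H42.sle

theorem r_C1S : Pool.Agent.B5.C1S :=
  @Pool.Agent.B5.H32.c1c r_C0S r_C1aS r_C1bS r_SlEvalS r_ZfinS

theorem r_MinS : Pool.Agent.B5.MinS :=
  @Pool.Agent.B5.MIN.min

theorem r_B4S : Pool.Agent.B5.B4S :=
  @Pool.Agent.B5.H03.b4c r_MinS r_StSpecS

theorem r_UnitAS : Pool.Agent.B5.UnitAS :=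
  @Pool.Agent.B5.H03.una

theorem r_ExtS : Pool.Agent.B5.ExtS :=
  @Pool.Agent.B5.H62.ext

theorem r_FaceS : Pool.Agent.B5.FaceS :=
  @Pool.Agent.B5.H84.fac r_MultiS r_StSpecS r_ExtS

theorem r_C3S : Pool.Agent.B5.C3S :=
  @Pool.Agent.B5.H16.c3 r_B2S r_C1S r_B4S r_UnitAS r_FaceS

theorem r_PrimS : Pool.Agent.B5.PrimS :=
  @Pool.Agent.B5.H14.pri r_UnitAS

theorem r_D2S : Pool.Agent.B5.D2S :=
  @Pool.Agent.B5.H88.d2g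

theorem r_D1S : Pool.Agent.B5.D1S :=
  @Pool.Agent.B5.H59.d1e r_D2S

theorem r_RkS : Pool.Agent.B5.RkS :=
  @Pool.Agent.B5.H41.rks

theorem r_RaySpanS : Pool.Agent.B5.RaySpanS :=
  @Pool.Agent.B5.H63.rsp r_D1S r_RkS

theorem r_E2S : Pool.Agent.B5.E2S :=
  @Pool.Agent.B5.H44.e2c r_B2cS r_B3S r_C3S r_PrimS r_RaySpanS

theorem r_PCZS : Pool.Agent.B5.PCZS :=
  @Pool.Agent.B5.H57.pcz

theorem r_LOPS : Pool.Agent.B5.LOPS :=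
  @Pool.Agent.B5.H40.lop r_PCZS

theorem r_VcoS : Pool.Agent.B5.VcoS :=
  @Pool.Agent.B5.H17.vco

theorem r_F1S : Pool.Agent.B5.F1S :=
  @Pool.Agent.B5.H42.f1c r_VcoS

theorem r_F2S : Pool.Agent.B5.F2S :=
  @Pool.Agent.B5.H17.f2c r_F1S

theorem r_F3S : Pool.Agent.B5.F3S :=
  @Pool.Agent.B5.H83.f3c r_F1S r_F2S r_VcoS

theorem r_F5S : Pool.Agent.B5.F5S :=
  @Pool.Agent.B5.H63.f5c r_F1S r_F2S r_F3S r_RkS

theorem r_LMNS : Pool.Agent.B5.LMNS :=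
  @Pool.Agent.B5.H42.lmn r_F1S r_F2S r_VcoS

theorem r_A4S : Pool.Agent.B5.A4S :=
  @Pool.Agent.B5.H40.a4c

theorem r_SPKS : Pool.Agent.B5.SPKS :=
  @Pool.Agent.B5.H25.spk r_A4S

theorem r_Asano1S : Pool.Agent.B5.Asano1S :=
  @Pool.Agent.B5.H17.as1

theorem r_AsanoS : Pool.Agent.B5.AsanoS :=
  @Pool.Agent.B5.H63.asa r_Asano1S

theorem r_PolyS : Pool.Agent.B5.PolyS :=
  @Pool.Agent.B5.H17.ply r_MultiS r_StSpecS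

theorem r_EvRS : Pool.Agent.B5.EvRS :=
  @Pool.Agent.B5.H36.evrs

theorem r_MmonoS : Pool.Agent.B5.MmonoS :=
  @Pool.Agent.B5.H70.mmo

theorem r_DRBS : Pool.Agent.B5.DRBS :=
  @Pool.Agent.B5.H49.drb r_SPKS r_AsanoS r_PolyS r_EvRS r_ZfinS r_MmonoS

theorem r_RkUSS : Pool.Agent.B5.RkUSS :=
  @Pool.Agent.B5.H58.rku r_VcoS r_RkS

theorem r_FLS : Pool.Agent.B5.FLS :=
  @Pool.Agent.B5.H87.fll r_E2S r_F5S r_LMNS r_DRBS r_RkUSS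

theorem r_B5aS : Pool.Agent.B5.B5aS :=
  @Pool.Agent.B5.H65.b5a

theorem r_B5S : Pool.Agent.B5.B5S :=
  @Pool.Agent.B5.H38.b5c r_MultiS r_B5aS r_StSpecS

theorem r_B5uS : Pool.Agent.B5.B5uS :=
  @Pool.Agent.B5.H24.b5u

theorem r_G0S : Pool.Agent.B5.G0S :=
  @Pool.Agent.B5.H05.g0 r_B5S r_B5aS r_B5uS

theorem r_SharpS : Pool.Agent.B5.SharpS :=
  @Pool.Agent.B5.H09.sha

theorem r_C2S : Pool.Agent.B5.C2S :=
  @Pool.Agent.B5.H61.C2.c2c r_B4S r_C1S r_SharpS r_PrimS r_B2cS r_StSpecS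

theorem r_Coeff0S : Pool.Agent.B5.Coeff0S :=
  @Pool.Agent.B5.H94.co0

theorem r_FactS : Pool.Agent.B5.FactS :=
  @Pool.Agent.B5.H78.fct r_B4S r_C2S r_UnitAS r_Coeff0S

theorem r_WWfS : Pool.Agent.B5.WWfS :=
  @Pool.Agent.B5.H15.wwf r_MinS

theorem r_FDS : Pool.Agent.B5.FDS :=
  @Pool.Agent.B5.H29.fdc r_G0S r_FactS r_WWfS r_Coeff0S

theorem r_ThinS : Pool.Agent.B5.ThinS :=
  @Pool.Agent.B5.H59.thi

theorem r_RayFacS : Pool.Agent.B5.RayFacS :=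
  @Pool.Agent.B5.H05.rfa r_ThinS

theorem r_H1S : Pool.Agent.B5.H1S :=
  @Pool.Agent.B5.H36.h1c r_G0S r_MinS

theorem r_H3aS : Pool.Agent.B5.H3aS :=
  @Pool.Agent.B5.H51.h3a

theorem r_H3bS : Pool.Agent.B5.H3bS :=
  @Pool.Agent.B5.H35.h3b

theorem r_H2aS : Pool.Agent.B5.H2aS :=
  @Pool.Agent.MP_b5021c_nt.H98.h2a

theorem r_H2S : Pool.Agent.B5.H2S :=
  @Pool.Agent.B5.H16.h2 r_H3aS r_H3bS r_H2aS r_AsanoS r_PolyS r_ZfinS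

theorem r_MmulS : Pool.Agent.B5.MmulS :=
  @Pool.Agent.B5.H45.mmul

theorem r_A1S : Pool.Agent.B5.A1S :=
  @Pool.Agent.B5.H91.a1r

theorem r_M1S : Pool.Agent.B5.M1S :=
  @Pool.Agent.B5.H70.m1r

theorem r_C4S : Pool.Agent.B5.C4S :=
  @Pool.Agent.B5.C4C.c4 r_C3S r_B2cS r_B3S r_A1S r_M1S r_RaySpanS

theorem r_SmallS : Pool.Agent.B5.SmallS :=
  @Pool.Agent.B5.H25.sma r_MmulS r_C4S r_ThinS r_WWfS r_Coeff0S r_G0S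

theorem r_HS : Pool.Agent.B5.HS :=
  @Pool.Agent.B5.H07.hcc r_H1S r_H2S r_SmallS

theorem r_G1S : Pool.Agent.B5.G1S :=
  @Pool.Agent.B5.H50.G1c.g1c' r_RayFacS r_RaySpanS r_RkS r_HS r_SmallS r_G0S r_ThinS

theorem r_A2cS : Pool.Agent.B5.A2cS :=
  @Pool.Agent.B5.H19.a2c

theorem r_A6S : Pool.Agent.B5.A6S :=
  @Pool.Agent.B5.H24.a6c

theorem r_A7S : Pool.Agent.B5.A7S :=
  @Pool.Agent.B5.H67.a7c

theorem r_A5S : Pool.Agent.B5.A5S :=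
  @Pool.Agent.B5.H18.a5c

theorem r_I1aS : Pool.Agent.B5.I1aS :=
  @Pool.Agent.B5.H83.i1a r_A5S r_MultiS r_StSpecS r_B2cS r_G0S r_EvRS

theorem r_SlMulS : Pool.Agent.B5.SlMulS :=
  @Pool.Agent.B5.H96.slm

theorem r_FullS : Pool.Agent.B5.FullS :=
  @Pool.Agent.B5.H61.ful r_SlMulS r_Coeff0S

theorem r_I1S : Pool.Agent.B5.I1S :=
  @Pool.Agent.B5.H71.i1c r_I1aS r_C1S r_FullS r_PrimS r_EvRS r_ZfinS r_SlMulS r_UnitAS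

theorem r_I2S : Pool.Agent.B5.I2S :=
  @Pool.Agent.B5.H71.i2c r_MinS r_I1S r_FullS r_EvRS r_ZfinS r_UnitAS

theorem r_I3S : Pool.Agent.B5.I3S :=
  @Pool.Agent.B5.H69.i3c r_A4S r_A2cS r_A6S r_A7S r_I1S r_I2S r_GenS r_MultiS r_SmallS r_EvRS r_ZfinS r_StSpecS r_G0S

theorem r_A2S : Pool.Agent.B5.A2S :=
  @Pool.Agent.B5.H93.a2r r_A2cS r_EvRS

theorem r_G3S : Pool.Agent.B5.G3S :=
  @Pool.Agent.B5.H42.g3c r_I3S r_A2S r_MmulS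

theorem r_D3S : Pool.Agent.B5.D3S :=
  @Pool.Agent.B5.H41.d3f r_RkS

theorem r_MVS : Pool.Agent.B5.MVS :=
  @Pool.Agent.B5.H63.mvc

theorem r_E1S : Pool.Agent.B5.E1S :=
  @Pool.Agent.B5.H17.e1c

theorem r_FacetS : Pool.Agent.B5.FacetS :=
  @Pool.Agent.B5.H96.fce r_EvRS r_A1S r_M1S r_SlMulS r_SharpS r_ExtS r_StSpecS r_FaceS r_B2cS r_B3S r_Coeff0S r_B4S r_PrimS r_C2S r_C3S r_RaySpanS r_RkS r_MVS r_E1S r_ThinS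

theorem r_ComplIrrS : Pool.Agent.B5.ComplIrrS :=
  @Pool.Agent.B5.K.H97.cir

theorem r_ComplS : Pool.Agent.B5.ComplS :=
  @Pool.Agent.B5.H59.cst r_StSpecS r_SharpS

theorem r_L2stepS : Pool.Agent.B5.L2stepS :=
  @Pool.Agent.B5.H83.l2a r_D3S r_FacetS r_ComplIrrS r_ComplS r_RkS

theorem r_L2S : Pool.Agent.B5.L2S :=
  @Pool.Agent.B5.H58.l2c r_L2stepS

theorem r_ResWDS : Pool.Agent.B5.ResWDS :=
  @Pool.Agent.B5.H05.rwd r_UnitAS r_RkS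

theorem r_ResStS : Pool.Agent.B5.ResStS :=
  @Pool.Agent.B5.H82.rst r_StSpecS r_ExtS

theorem r_G4S : Pool.Agent.B5.G4S :=
  @Pool.Agent.B5.H29.g4c r_L2S r_ResWDS r_ResStS

theorem r_CLOS : Pool.Agent.B5.CLOS :=
  @Pool.Agent.B5.Clo.clo r_FDS r_G1S r_G3S r_G4S r_E1S r_MVS r_MmulS

theorem r_JPNS : Pool.Agent.B5.JPNS :=
  @Pool.Agent.B5.K.H79.jpn

theorem r_NVES : Pool.Agent.B5.NVES :=
  @Pool.Agent.B5.H88.nve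

theorem r_JPTS : Pool.Agent.B5.JPTS :=
  @Pool.Agent.B5.H49.jpt r_E2S r_LOPS r_FLS r_CLOS r_JPNS r_NVES r_MVS r_MmulS

theorem r_VZS : Pool.Agent.B5.VZS :=
  @Pool.Agent.B5.H16.vz

theorem r_LOVS : Pool.Agent.B5.LOVS :=
  @Pool.Agent.B5.H40.lov r_VZS

theorem r_JVNS : Pool.Agent.B5.JVNS :=
  @Pool.Agent.B5.H32.jvn

theorem r_JVTS : Pool.Agent.B5.JVTS :=
  @Pool.Agent.B5.H87.jvt r_E2S r_LOVS r_FLS r_CLOS r_JVNS r_NVES r_MVS r_MmulS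

theorem r_JVLS : Pool.Agent.B5.JVLS :=
  @Pool.Agent.B5.H45.jvl r_JVTS

theorem r_JPLS : Pool.Agent.B5.JPLS :=
  @Pool.Agent.B5.H40.jpl r_JPTS r_JVLS

theorem r_MaeS : Pool.Agent.MP_b5021c_nt.MaeS :=
  Pool.Agent.MP_b5021c_nt.mae r_ThkS r_GdeS r_JPLS

end Pool.Agent.MP_b5021c_nt.All
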