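import Pool.Agent.Lib.MP_b5021c_nt.IfaceL2
import Pool.Agent.Lib.MP_b5021c_nt.B.H71.Com

/-!
# Board b5, stage 2 (sharp theorem), first part: statements of the rows of PaperS1.md
(structure of the closings `w^S = eta`, `w^S = eta'` of one extreme ray)
-/

namespace Pool.Agent.B5

open scoped LaurentPolynomial

/-! ## Definitions -/

/-- Two loads which differ by a primitive sixth root of unity. -/
def Adj {O : Type} [CommRing O] [Coef O] (e₁ e₂ : (RO O)ˣ) : Prop :=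
  ∃ w : O, (e₁ : RO O) = LaurentPolynomial.C w * (e₂ : RO O) ∧ ‖(Coef.emb w : ℂ)‖ = 1 ∧
    (Coef.emb w : ℂ).re = 1 / 2

/-- The mean of `p / q` over the unit circle. -/
noncomputable def mn {O : Type} [CommRing O] [Coef O] (p q : RO O) : ℂ :=
  Real.circleAverage (fun z => evL z p / evL z q) 0 1

/-- A closed element is simple: exactly one big factor, content of measure one, large constant
coefficient. -/
def Simple {O : Type} [CommRing O] [Coef O] {L : Type} [AddCommGroup L] {k : L →+ ℤ} {n : ℕ}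
    (D0 V0 c : RO O) (G : Fin n → AO O (Ker k)) : Prop :=
  (big G).card = 1 ∧ M c = 1 ∧ M D0 ^ 2 < 2 * M V0 ^ 2

/-! ## The quotient `q` (chapter S1) -/

/-- (QST) the quotient of `X` on `x_l = 1`, its reciprocity and its ports. -/
def QstS : Prop := ∀ (O : Type) [CommRing O] [IsDomain O] [IsPrincipalIdealRing O] [Coef O]
  (P L : Type) [Fintype P] [DecidableEq P] [AddCommGroup L] [Module.Free ℤ L]
  [Module.Finite ℤ L] (phi : L →+ (P → ℤ)) (D : AO O L) (S : L) (i0 : P) (eta : (RO O)ˣ)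
  (h : co phi i0 S = 1) (c : RO O) (n : ℕ) (G : Fin n → AO O (Ker (co phi i0))),
    FD phi D S i0 eta h c n G → ∀ (l : Fin n) (b : Ker (co phi i0)) (j : P) (e : (RO O)ˣ),
      Spt phi S i0 G l b j e → ∀ hj : co (phK phi (co phi i0)) j b = 1,
        ∃ q : AO O (Ker (co (phK phi (co phi i0)) j)), q ≠ 0 ∧
          Xl phi D i0 b j hj e =
            q * ∏ i ∈ Finset.univ.erase l, res (Ker (co (phK phi (co phi i0)) j)) (G i) ∧
          q * cst (rsh (c * (G l).coeff 0)) = sharp q * cst (c * (G l).coeff 0) ∧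
          (∀ a ∈ supp q, -a ∈ supp q) ∧
          ∀ a ∈ supp q, ∀ j' ∈ OO phi S, phi (b : L) j' = 0 →
            phi ((a : Ker (co phi i0)) : L) j' = 0

/-- (QRA) the closed element of ANOTHER load, on `x_l = 1`. -/
def QraS : Prop := ∀ (O : Type) [CommRing O] [IsDomain O] [IsPrincipalIdealRing O] [Coef O]
  (P L : Type) [Fintype P] [DecidableEq P] [AddCommGroup L] [Module.Free ℤ L]
  [Module.Finite ℤ L] (phi : L →+ (P → ℤ)) (D : AO O L) (S : L) (i0 : P) (eta : (RO O)ˣ)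
  (h : co phi i0 S = 1) (c : RO O) (n : ℕ) (G : Fin n → AO O (Ker (co phi i0))),
    FD phi D S i0 eta h c n G → ∀ (l : Fin n) (b : Ker (co phi i0)) (j : P) (e : (RO O)ˣ),
      Spt phi S i0 G l b j e → ∀ (hj : co (phK phi (co phi i0)) j b = 1) (eta' : (RO O)ˣ),
        cl (co (phK phi (co phi i0)) j) b hj e (cl (co phi i0) S h eta' D) =
          cst (1 - (eta' : RO O) * ((eta⁻¹ : (RO O)ˣ) : RO O)) * Xl phi D i0 b j hj e

/-- (SPJ) the port of a small non-pure factor may be changed. -/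
def SpjS : Prop := ∀ (O : Type) [CommRing O] [IsDomain O] [IsPrincipalIdealRing O] [Coef O]
  (P L : Type) [Fintype P] [DecidableEq P] [AddCommGroup L] [Module.Free ℤ L]
  [Module.Finite ℤ L] (phi : L →+ (P → ℤ)) (D : AO O L) (S : L) (i0 : P) (eta : (RO O)ˣ)
  (h : co phi i0 S = 1) (c : RO O) (n : ℕ) (G : Fin n → AO O (Ker (co phi i0))),
    FD phi D S i0 eta h c n G → ∀ (l : Fin n) (b : Ker (co phi i0)) (j : P) (e : (RO O)ˣ),
      Spt phi S i0 G l b j e → ∀ j' ∈ OO phi S, phi (b : L) j' = 1 → Spt phi S i0 G l b j' e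

/-- (COM) the closed elements of two different loads have no common primitive factor which
depends on `w`. -/
def ComS : Prop := ∀ (O : Type) [CommRing O] [IsDomain O] [IsPrincipalIdealRing O] [Coef O]
  (P L : Type) [Fintype P] [DecidableEq P] [AddCommGroup L] [Module.Free ℤ L]
  [Module.Finite ℤ L] (phi : L →+ (P → ℤ)) (D : AO O L) (S : L) (i0 : P) (e₁ e₂ : (RO O)ˣ)
  (h : co phi i0 S = 1), DD phi D → Ray D S → e₁ ≠ e₂ → ∀ u : AO O (Ker (co phi i0)), Prim u →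
    u ∣ cl (co phi i0) S h e₁ D → u ∣ cl (co phi i0) S h e₂ D → ¬ Wdep u

/-! ## The number of small non-pure factors (chapter S2) -/

/-- (LSA) pointwise inequality in `z`. -/
def LsaS : Prop := ∀ (O : Type) [CommRing O] [IsDomain O] [IsPrincipalIdealRing O] [Coef O]
  (P L : Type) [Fintype P] [DecidableEq P] [AddCommGroup L] [Module.Free ℤ L]
  [Module.Finite ℤ L] (phi : L →+ (P → ℤ)) (D : AO O L) (S : L) (i0 : P) (eta : (RO O)ˣ)
  (h : co phi i0 S = 1) (c : RO O) (n : ℕ) (G : Fin n → AO O (Ker (co phi i0))),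
    FD phi D S i0 eta h c n G → ∃ q : Fin n → RO O, (∀ l, q l ≠ 0) ∧
      ∀ z : Circle, (∑ l ∈ snp phi S i0 G, ‖evR z (q l)‖ * ∏ i ∈ big G, ‖evR z ((G i).coeff 0)‖) *
        ‖evR z (D.coeff 0 + (eta : RO O) * D.coeff S)‖ ≤ ‖evR z (D.coeff 0)‖ ^ 2

/-- (LSM) number of small non-pure factors, second bound. -/
def LsmS : Prop := ∀ (O : Type) [CommRing O] [IsDomain O] [IsPrincipalIdealRing O] [Coef O]
  (P L : Type) [Fintype P] [DecidableEq P] [AddCommGroup L] [Module.Free ℤ L]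
  [Module.Finite ℤ L] (phi : L →+ (P → ℤ)) (D : AO O L) (S : L) (i0 : P) (eta : (RO O)ˣ)
  (h : co phi i0 S = 1) (c : RO O) (n : ℕ) (G : Fin n → AO O (Ker (co phi i0))),
    FD phi D S i0 eta h c n G →
      ((snp phi S i0 G).card : ℝ) * (∏ i ∈ big G, M ((G i).coeff 0)) *
        M (D.coeff 0 + (eta : RO O) * D.coeff S) ≤ M (D.coeff 0) ^ 2

/-- (LS1) a simple closed element has at most one small non-pure factor. -/
def Ls1S : Prop := ∀ (O : Type) [CommRing O] [IsDomain O] [IsPrincipalIdealRing O] [Coef O]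
  (P L : Type) [Fintype P] [DecidableEq P] [AddCommGroup L] [Module.Free ℤ L]
  [Module.Finite ℤ L] (phi : L →+ (P → ℤ)) (D : AO O L) (S : L) (i0 : P) (eta : (RO O)ˣ)
  (h : co phi i0 S = 1) (c : RO O) (n : ℕ) (G : Fin n → AO O (Ker (co phi i0))),
    FD phi D S i0 eta h c n G →
      Simple (D.coeff 0) (D.coeff 0 + (eta : RO O) * D.coeff S) c G →
        (snp phi S i0 G).card ≤ 1

/-! ## Pure factors (chapter S3) -/

/-- (PUR) a pure small factor on an extreme ray. -/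
def PurS : Prop := ∀ (O : Type) [CommRing O] [IsDomain O] [IsPrincipalIdealRing O] [Coef O]
  (P L : Type) [Fintype P] [DecidableEq P] [AddCommGroup L] [Module.Free ℤ L]
  [Module.Finite ℤ L] (phi : L →+ (P → ℤ)) (D : AO O L) (S : L) (i0 : P) (eta : (RO O)ˣ)
  (h : co phi i0 S = 1) (c : RO O) (n : ℕ) (G : Fin n → AO O (Ker (co phi i0))),
    FD phi D S i0 eta h c n G → ∀ (i : Fin n) (b : Ker (co phi i0)),
      ¬ 1 < M ((G i).coeff 0) → Pure phi S i0 (G i) → b ∈ supp (G i) →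
      Ray (cl (co phi i0) S h eta D) b → ∀ z : Circle,
        ‖evR z (D.coeff 0 + (eta : RO O) * D.coeff S)‖ + ‖evR z (D.coeff S)‖ =
          ‖evR z (D.coeff 0)‖

/-- (PUN) the gain in the case of a pure factor. -/
def PunS : Prop := ∀ (O : Type) [CommRing O] [IsDomain O] [IsPrincipalIdealRing O] [Coef O]
  (p q : RO O), (∀ z : Circle, evR z q ≠ 0) → q + p ≠ 0 →
    (∀ z : Circle, ‖evR z (q + p)‖ + ‖evR z p‖ = ‖evR z q‖) →
      M (q + p) ≤ M q * Real.exp (-‖mn p q‖)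

/-- (G1P) the rank of the support of the closed element, no pure extreme ray. -/
def G1pS : Prop := ∀ (O : Type) [CommRing O] [IsDomain O] [IsPrincipalIdealRing O] [Coef O]
  (P L : Type) [Fintype P] [DecidableEq P] [AddCommGroup L] [Module.Free ℤ L]
  [Module.Finite ℤ L] (phi : L →+ (P → ℤ)) (D : AO O L) (S : L) (i0 : P) (eta : (RO O)ˣ)
  (h : co phi i0 S = 1) (c : RO O) (n : ℕ) (G : Fin n → AO O (Ker (co phi i0))),
    FD phi D S i0 eta h c n G →
      (∀ (i : Fin n) (b : Ker (co phi i0)), ¬ 1 < M ((G i).coeff 0) → Pure phi S i0 (G i) →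
        b ∈ supp (G i) → ¬ Ray (cl (co phi i0) S h eta D) b) →
      rk (supp (cl (co phi i0) S h eta D)) ≤
        ∑ i ∈ big G, rk (supp (G i)) + (snp phi S i0 G).card

/-- (RKA) summary for a closed element without small non-pure factors. -/
def RkaS : Prop := ∀ (O : Type) [CommRing O] [IsDomain O] [IsPrincipalIdealRing O] [Coef O]
  (P L : Type) [Fintype P] [DecidableEq P] [AddCommGroup L] [Module.Free ℤ L]
  [Module.Finite ℤ L] (phi : L →+ (P → ℤ)) (D : AO O L) (S : L) (i0 : P) (eta : (RO O)ˣ)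
  (h : co phi i0 S = 1) (c : RO O) (n : ℕ) (G : Fin n → AO O (Ker (co phi i0))),
    FD phi D S i0 eta h c n G → snp phi S i0 G = ∅ →
      rk (supp (cl (co phi i0) S h eta D)) ≤ ∑ i ∈ big G, rk (supp (G i)) ∨
      (rk (supp (cl (co phi i0) S h eta D)) ≤ ∑ i ∈ big G, rk (supp (G i)) + 1 ∧
        M (D.coeff 0 + (eta : RO O) * D.coeff S) ≤
          M (D.coeff 0) * Real.exp (-‖mn ((eta : RO O) * D.coeff S) (D.coeff 0)‖))

/-! ## (A') a drop at one load and a small factor at another (chapter S4) -/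

/-- (KMU) a set of deficient rank is killed by a functional. -/
def KmuS : Prop := ∀ (L : Type) [AddCommGroup L] [Module.Free ℤ L] [Module.Finite ℤ L]
  (S : Set L), rk S < Module.finrank ℤ L → ∃ mu : L →+ ℤ, mu ≠ 0 ∧ ∀ a ∈ S, mu a = 0

/-- (APA) the algebraic part. -/
def ApaS : Prop := ∀ (O : Type) [CommRing O] [IsDomain O] [IsPrincipalIdealRing O] [Coef O]
  (P L : Type) [Fintype P] [DecidableEq P] [AddCommGroup L] [Module.Free ℤ L]
  [Module.Finite ℤ L] (phi : L →+ (P → ℤ)) (D : AO O L) (S : L) (i0 : P) (eta : (RO O)ˣ)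
  (h : co phi i0 S = 1) (c : RO O) (n : ℕ) (G : Fin n → AO O (Ker (co phi i0))),
    FD phi D S i0 eta h c n G → ∀ (l : Fin n) (b : Ker (co phi i0)) (j : P) (e : (RO O)ˣ),
      Spt phi S i0 G l b j e →
      rk (supp (cl (co phi i0) S h eta D)) = Module.finrank ℤ (Ker (co phi i0)) →
      ∀ eta' : (RO O)ˣ, eta' ≠ eta → D.coeff 0 + (eta' : RO O) * D.coeff S ≠ 0 →
      ∀ mu : Ker (co phi i0) →+ ℤ, mu ≠ 0 →
        (∀ a ∈ supp (cl (co phi i0) S h eta' D), mu a = 0) →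
        ∃ q0 U0 : RO O,
          D.coeff 0 + (eta' : RO O) * D.coeff S =
            (1 - (eta' : RO O) * ((eta⁻¹ : (RO O)ˣ) : RO O)) * (q0 * U0) ∧
          D.coeff 0 + (eta : RO O) * D.coeff S = c * (G l).coeff 0 * U0 ∧
          rsh (c * (G l).coeff 0) * q0 = c * (G l).coeff 0 * rsh q0

/-- (APF) the analytic part: the resulting equations are impossible for adjacent light loads. -/
def ApfS : Prop := ∀ (O : Type) [CommRing O] [IsDomain O] [IsPrincipalIdealRing O] [Coef O]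
  (D0 DS g q0 U0 : RO O) (e₁ e₂ : (RO O)ˣ), Adj e₁ e₂ → (∀ z : Circle, evR z D0 ≠ 0) →
    ‖mn ((e₂ : RO O) * DS) D0‖ ≤ 1 / 4 →
    D0 + (e₁ : RO O) * DS = (1 - (e₁ : RO O) * ((e₂⁻¹ : (RO O)ˣ) : RO O)) * (q0 * U0) →
    D0 + (e₂ : RO O) * DS = g * U0 → rsh g * q0 = g * rsh q0 → False

/-- (ADJ) adjacency is symmetric and does not change the modulus of the mean. -/
def AdjSyS : Prop := ∀ (O : Type) [CommRing O] [IsDomain O] [IsPrincipalIdealRing O] [Coef O]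
  (e₁ e₂ : (RO O)ˣ), Adj e₁ e₂ → Adj e₂ e₁ ∧ e₁ ≠ e₂ ∧
    ∀ p q : RO O, ‖mn ((e₁ : RO O) * p) q‖ = ‖mn ((e₂ : RO O) * p) q‖

/-- (APR) RESULT (A'): a drop at `eta'` and full rank at `eta`: no small non-pure factors at
`eta`. -/
def AprS : Prop := ∀ (O : Type) [CommRing O] [IsDomain O] [IsPrincipalIdealRing O] [Coef O]
  (P L : Type) [Fintype P] [DecidableEq P] [AddCommGroup L] [Module.Free ℤ L]
  [Module.Finite ℤ L] (phi : L →+ (P → ℤ)) (D : AO O L) (S : L) (i0 : P) (eta : (RO O)ˣ)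
  (h : co phi i0 S = 1) (c : RO O) (n : ℕ) (G : Fin n → AO O (Ker (co phi i0))),
    FD phi D S i0 eta h c n G →
      rk (supp (cl (co phi i0) S h eta D)) = Module.finrank ℤ (Ker (co phi i0)) →
      ∀ eta' : (RO O)ˣ, Adj eta' eta → D.coeff 0 + (eta' : RO O) * D.coeff S ≠ 0 →
        ‖mn ((eta : RO O) * D.coeff S) (D.coeff 0)‖ ≤ 1 / 4 →
        rk (supp (cl (co phi i0) S h eta' D)) < Module.finrank ℤ (Ker (co phi i0)) →
          snp phi S i0 G = ∅

/-! ## (B') small factors at both loads (chapter S5) -/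

/-- (BPD) different ports. -/
def BpdS : Prop := ∀ (O : Type) [CommRing O] [IsDomain O] [IsPrincipalIdealRing O] [Coef O]
  (P L : Type) [Fintype P] [DecidableEq P] [AddCommGroup L] [Module.Free ℤ L]
  [Module.Finite ℤ L] (phi : L →+ (P → ℤ)) (D : AO O L) (S : L) (i0 : P) (eta₁ eta₂ : (RO O)ˣ)
  (h : co phi i0 S = 1) (c₁ c₂ : RO O) (n₁ n₂ : ℕ) (G₁ : Fin n₁ → AO O (Ker (co phi i0)))
  (G₂ : Fin n₂ → AO O (Ker (co phi i0))),
    FD phi D S i0 eta₁ h c₁ n₁ G₁ → FD phi D S i0 eta₂ h c₂ n₂ G₂ → eta₁ ≠ eta₂ →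
    ∀ (l₁ : Fin n₁) (l₂ : Fin n₂) (b₁ b₂ : Ker (co phi i0)) (j₁ j₂ : P) (e₁ e₂ : (RO O)ˣ),
      Spt phi S i0 G₁ l₁ b₁ j₁ e₁ → Spt phi S i0 G₂ l₂ b₂ j₂ e₂ →
      (∃ j ∈ OO phi S, phi (b₂ : L) j = 1 ∧ phi (b₁ : L) j = 0) → 2 ≤ (snp phi S i0 G₁).card

/-- (BPE) a common port. -/
def BpeS : Prop := ∀ (O : Type) [CommRing O] [IsDomain O] [IsPrincipalIdealRing O] [Coef O]
  (P L : Type) [Fintype P] [DecidableEq P] [AddCommGroup L] [Module.Free ℤ L]
  [Module.Finite ℤ L] (phi : L →+ (P → ℤ)) (D : AO O L) (S : L) (i0 : P) (eta₁ eta₂ : (RO O)ˣ)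
  (h : co phi i0 S = 1) (c₁ c₂ : RO O) (n₁ n₂ : ℕ) (G₁ : Fin n₁ → AO O (Ker (co phi i0)))
  (G₂ : Fin n₂ → AO O (Ker (co phi i0))),
    FD phi D S i0 eta₁ h c₁ n₁ G₁ → FD phi D S i0 eta₂ h c₂ n₂ G₂ → eta₁ ≠ eta₂ →
    ∀ (l₁ : Fin n₁) (l₂ : Fin n₂) (b₁ b₂ : Ker (co phi i0)) (j : P) (e₁ e₂ : (RO O)ˣ),
      Spt phi S i0 G₁ l₁ b₁ j e₁ → Spt phi S i0 G₂ l₂ b₂ j e₂ →
      rk (supp (cl (co phi i0) S h eta₁ D)) ≤ 1 ∨ rk (supp (cl (co phi i0) S h eta₂ D)) ≤ 1

/-- (BPR) RESULT (B'): small non-pure factors at both loads are impossible. -/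
def BprS : Prop := ∀ (O : Type) [CommRing O] [IsDomain O] [IsPrincipalIdealRing O] [Coef O]
  (P L : Type) [Fintype P] [DecidableEq P] [AddCommGroup L] [Module.Free ℤ L]
  [Module.Finite ℤ L] (phi : L →+ (P → ℤ)) (D : AO O L) (S : L) (i0 : P) (eta₁ eta₂ : (RO O)ˣ)
  (h : co phi i0 S = 1) (c₁ c₂ : RO O) (n₁ n₂ : ℕ) (G₁ : Fin n₁ → AO O (Ker (co phi i0)))
  (G₂ : Fin n₂ → AO O (Ker (co phi i0))),
    FD phi D S i0 eta₁ h c₁ n₁ G₁ → FD phi D S i0 eta₂ h c₂ n₂ G₂ → eta₁ ≠ eta₂ →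
    3 ≤ Module.finrank ℤ L →
    rk (supp (cl (co phi i0) S h eta₁ D)) = Module.finrank ℤ (Ker (co phi i0)) →
    rk (supp (cl (co phi i0) S h eta₂ D)) = Module.finrank ℤ (Ker (co phi i0)) →
    (snp phi S i0 G₁).card ≤ 1 → (snp phi S i0 G₂).card ≤ 1 →
      snp phi S i0 G₁ = ∅ ∨ snp phi S i0 G₂ = ∅

/-! ## Selection (chapter S6) -/

/-- (SEL) SELECTION at one light ray with two adjacent loads. -/
def SelS : Prop := ∀ (O : Type) [CommRing O] [IsDomain O] [IsPrincipalIdealRing O] [Coef O]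
  (P L : Type) [Fintype P] [DecidableEq P] [AddCommGroup L] [Module.Free ℤ L]
  [Module.Finite ℤ L] (phi : L →+ (P → ℤ)) (D : AO O L) (S : L) (i0 : P) (e₁ e₂ : (RO O)ˣ)
  (h : co phi i0 S = 1), DD phi D → 3 ≤ Module.finrank ℤ L → Ray D S → Adj e₁ e₂ →
    D.coeff 0 + (e₁ : RO O) * D.coeff S ≠ 0 → D.coeff 0 + (e₂ : RO O) * D.coeff S ≠ 0 →
    ‖mn ((e₁ : RO O) * D.coeff S) (D.coeff 0)‖ ≤ 1 / 4 →
    (Module.finrank ℤ L = rk (supp (cl (co phi i0) S h e₁ D)) + 1 ∨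
      Module.finrank ℤ L = rk (supp (cl (co phi i0) S h e₂ D)) + 1) →
    ∃ e : (RO O)ˣ, (e = e₁ ∨ e = e₂) ∧
      Module.finrank ℤ L = rk (supp (cl (co phi i0) S h e D)) + 1 ∧
      ∃ (c : RO O) (n : ℕ) (G : Fin n → AO O (Ker (co phi i0))),
        FD phi D S i0 e h c n G ∧
        (snp phi S i0 G = ∅ ∨
          ¬ Simple (D.coeff 0) (D.coeff 0 + (e : RO O) * D.coeff S) c G)

/-- (CL2) ONE CLOSING of a light ray, summary (chapters G, H, I, S). -/
def Cl2S : Prop := ∀ (O : Type) [CommRing O] [IsDomain O] [IsPrincipalIdealRing O] [Coef O]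
  (P L : Type) [Fintype P] [DecidableEq P] [AddCommGroup L] [Module.Free ℤ L]
  [Module.Finite ℤ L] (phi : L →+ (P → ℤ)) (D : AO O L) (S : L) (i0 : P) (e₁ e₂ : (RO O)ˣ)
  (h : co phi i0 S = 1), DD phi D → 3 ≤ Module.finrank ℤ L → Ray D S → Adj e₁ e₂ →
    D.coeff 0 + (e₁ : RO O) * D.coeff S ≠ 0 → D.coeff 0 + (e₂ : RO O) * D.coeff S ≠ 0 →
    ‖mn ((e₁ : RO O) * D.coeff S) (D.coeff 0)‖ ≤ 1 / 4 →
    (Module.finrank ℤ L = rk (supp (cl (co phi i0) S h e₁ D)) + 1 ∨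
      Module.finrank ℤ L = rk (supp (cl (co phi i0) S h e₂ D)) + 1) →
    ∃ (e : (RO O)ˣ) (c : RO O) (n : ℕ) (G : Fin n → AO O (Ker (co phi i0))), (e = e₁ ∨ e = e₂) ∧
      FD phi D S i0 e h c n G ∧
      ( -- one big factor, no small non-pure factor, no pure extreme ray
        ((big G).card = 1 ∧ M c = 1 ∧
          Module.finrank ℤ L ≤ 1 + ∑ i ∈ big G, rk (supp (G i))) ∨
       -- one big factor, no small non-pure factor, a pure extreme ray: larger gain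
        ((big G).card = 1 ∧ M c = 1 ∧
          Module.finrank ℤ L ≤ 2 + ∑ i ∈ big G, rk (supp (G i)) ∧
          M (D.coeff 0 + (e : RO O) * D.coeff S) ≤
            M (D.coeff 0) * Real.exp (-‖mn ((e₁ : RO O) * D.coeff S) (D.coeff 0)‖)) ∨
       -- rich
        (((big G).card = 1 → M c = 1 →
            2 * M (D.coeff 0 + (e : RO O) * D.coeff S) ^ 2 ≤ M (D.coeff 0) ^ 2) ∧
          Module.finrank ℤ L ≤ 2 + (snp phi S i0 G).card + ∑ i ∈ big G, rk (supp (G i)) ∧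
          ((snp phi S i0 G).card : ℝ) * ∏ i ∈ big G, M ((G i).coeff 0) ≤ 2 * M (D.coeff 0)))

end Pool.Agent.B5
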