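import Pool.Agent.Lib.MP_b5021c_nt.Eis

/-!
# Board b5, stage 2 (sharp theorem), second part: numbers and complex polynomials (PaperS2.md)

These rows need Mathlib and `Eis.lean` only.
-/

namespace Pool.Agent.B5

open Polynomial
open Pool.Agent.MP_b5021c_nt (Eis)

/-! ## Complex polynomials -/

/-- (SWZ) Schwarz lemma for a quotient. -/
def SwzS : Prop := ∀ r s : ℂ[X], (∀ z : ℂ, ‖z‖ ≤ 1 → s.eval z ≠ 0) →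
  (∀ z : ℂ, ‖z‖ ≤ 1 → ‖r.eval z‖ ≤ 3 * ‖s.eval z‖) →
    ∀ b : ℂ, ‖b‖ < 1 → ‖r.eval b / s.eval b - r.eval 0 / s.eval 0‖ ≤ 7 * ‖b‖

/-- (MEV) mean over the circle, no pole. -/
def MevS : Prop := ∀ r s : ℂ[X], (∀ z : ℂ, ‖z‖ ≤ 1 → s.eval z ≠ 0) →
  Real.circleAverage (fun z => r.eval z / s.eval z) 0 1 = r.eval 0 / s.eval 0

/-- (MEP) mean over the circle, one pole and one factor `z`. -/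
def MepS : Prop := ∀ (r s : ℂ[X]) (T c : ℂ), 1 < ‖T‖ → (∀ z : ℂ, ‖z‖ ≤ 1 → s.eval z ≠ 0) →
  Real.circleAverage (fun z => z * (c / (1 - T * z) + r.eval z / s.eval z)) 0 1 = -(c / T)

/-- (PCH) second Taylor coefficient of the analytic part. -/
def PchS : Prop := ∀ (r s : ℂ[X]) (T c : ℂ), 1 < ‖T‖ → (∀ z : ℂ, ‖z‖ ≤ 1 → s.eval z ≠ 0) →
  (∀ z : ℂ, ‖z‖ = 1 →
    ‖(C c * s + (1 - C T * X) * r).eval z‖ ≤ ‖((1 - C T * X) * s).eval z‖) →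
    ‖(derivative r).eval 0 * s.eval 0 - r.eval 0 * (derivative s).eval 0‖ ≤ ‖s.eval 0‖ ^ 2

/-! ## Numbers -/

/-- (BST) best and second best unit for a direction; they are adjacent. -/
def BstS : Prop := ∀ y : ℂ, ∃ u v w : Eis, IsUnit u ∧ IsUnit v ∧ u = w * v ∧
  ‖Eis.emb w‖ = 1 ∧ (Eis.emb w).re = 1 / 2 ∧
    Real.sqrt 3 / 2 * ‖y‖ ≤ (Eis.emb u * y).re ∧ 1 / 2 * ‖y‖ ≤ (Eis.emb v * y).re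

/-- (REB) the zero after a load of type B. -/
def RebS : Prop := ∀ T T' c v h : ℂ, 100 ≤ ‖T‖ → 1 < ‖T'‖ → ‖v‖ = 1 → ‖h‖ ≤ 3 → 1 ≤ ‖c‖ →
  ‖c‖ ≤ ‖T‖ → (T - T') * (T' + v * h) = v * c * T' →
    (‖c‖ ≤ ‖T‖ / 4 → 1 / 2 * (‖c‖ * ‖T‖) ≤ (v * (c * (starRingEnd ℂ) T)).re →
      ‖T'‖ ≤ ‖T‖ - 1 / 2 + 8 / ‖T‖) ∧
    (‖T‖ / 4 ≤ ‖c‖ → Real.sqrt 3 / 2 * (‖c‖ * ‖T‖) ≤ (v * (c * (starRingEnd ℂ) T)).re →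
      ‖T'‖ ≤ 4 / 5 * ‖T‖ + 7)

/-- (REA) the zero after a load of type A2. -/
def ReaS : Prop := ∀ T T' c e h₀ h : ℂ, 100 ≤ ‖T‖ → 1 < ‖T'‖ → ‖e‖ = 1 →
  ‖1 + e * (c + h₀)‖ = 1 → ‖1 + e * h₀‖ ≤ 52 / 100 → ‖h - h₀‖ ≤ 7 / ‖T'‖ →
  (1 + e * h) * (T' - T) = -(e * c * T') → ‖T'‖ ≤ 4 / 5 * ‖T‖ + 7

/-- (A2U) the unit of the load of type A2. -/
def A2uS : Prop := ∀ (nu : Eis) (h₀ : ℂ), ‖Eis.emb nu‖ ^ 2 = 3 → ‖h₀‖ ≤ 1 →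
  ‖Eis.emb nu - h₀‖ ≤ 1 → ∃ e : Eisˣ, ‖1 + Eis.emb (e : Eis) * Eis.emb nu‖ = 1 ∧
    ‖1 + Eis.emb (e : Eis) * h₀‖ ≤ 52 / 100

/-- (SEC) powers `(1 - y)^n`. -/
def SecS : Prop := ∀ (n : ℕ) (w : ℂ), 6 ≤ n → w ≠ 0 → ‖w‖ < Real.sqrt 3 ^ n →
  ∃ y : ℂ, ‖y‖ < 1 ∧ (1 - y) ^ n = w

/-! ## The bounds of stage 2 and the numerical recursion -/

/-- The bound in class `V`. -/
noncomputable def bVS (x : ℝ) : ℝ := 2 * max 1 x + 100 * Real.log (max 1 x)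

/-- The bound in class `P`. -/
noncomputable def bPS (x : ℝ) : ℝ := 2 * x + 120 * Real.log x + 240000

/-- (SMP) sum and product. -/
def SmpS : Prop := ∀ (m : ℕ) (x : Fin m → ℝ), 2 ≤ m → (∀ i, Real.sqrt 3 ≤ x i) →
  ∑ i, x i ≤ (∏ i, x i) / Real.sqrt 3 + 22 / 10

/-- (NV1) numerical steps in class `V`: light closings with one big factor. -/
def Nv1S : Prop := ∀ N : ℝ, Real.sqrt 3 ≤ N →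
  (∀ N' : ℝ, Real.sqrt 3 ≤ N' → N' ^ 2 ≤ N ^ 2 - N + 1 → 1 + bVS N' ≤ bVS N) ∧
  (∀ N' r : ℝ, Real.sqrt 3 ≤ N' → 1 / N ≤ r → N' ≤ N * Real.exp (-r) → 2 + bVS N' ≤ bVS N)

/-- (NV2) numerical steps in class `V`: rich light closings, heavy closings. -/
def Nv2S : Prop := ∀ (N : ℝ) (m : ℕ) (N' : Fin m → ℝ) (l : ℕ), Real.sqrt 3 ≤ N →
  (∀ i, Real.sqrt 3 ≤ N' i) → (l : ℝ) * ∏ i, N' i ≤ 2 * N →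
    ((∏ i, N' i) ^ 2 ≤ N ^ 2 - N + 1 → (m = 1 → 2 * (∏ i, N' i) ^ 2 ≤ N ^ 2) →
      2 + (l : ℝ) + ∑ i, bVS (N' i) ≤ bVS N) ∧
    (∏ i, N' i ≤ 4 / 5 * N → 6 + (l : ℝ) + ∑ i, bVS (N' i) ≤ bVS N)

/-- (NP1) numerical steps in class `P`: one big factor of class `P`, or no big factor. -/
def Np1S : Prop := ∀ θ : ℝ, 100 ≤ θ →
  (∀ θ' : ℝ, 1 < θ' → θ' ≤ θ - 1 / 2 + 8 / θ → 1 + bPS θ' ≤ bPS θ) ∧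
  (∀ θ' r : ℝ, 1 < θ' → 1 / θ ≤ r → θ' ≤ θ * Real.exp (-r) → 2 + bPS θ' ≤ bPS θ) ∧
  (∀ (θ' : ℝ) (l g : ℕ), 1 < θ' → θ' ≤ 4 / 5 * θ + 7 → (l : ℝ) * θ' ≤ 2 * θ →
    (g ≤ 4 ∨ Real.sqrt 3 ^ (g + 1) ≤ θ') → 2 + (g : ℝ) + l + bPS θ' ≤ bPS θ) ∧
  (∀ l g : ℕ, (l : ℝ) ≤ 2 * θ → (g ≤ 4 ∨ Real.sqrt 3 ^ (g + 1) ≤ θ + 1) →
    2 + (g : ℝ) + l ≤ bPS θ)

/-- (NP2) numerical step in class `P`: loads of type A1. -/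
def Np2S : Prop := ∀ (θ : ℝ) (m : ℕ) (N' : Fin m → ℝ) (l g : ℕ), 100 ≤ θ →
  (∀ i, Real.sqrt 3 ≤ N' i) → ∏ i, N' i ≤ θ + 1 → (l : ℝ) * ∏ i, N' i ≤ 2 * θ →
  (g ≤ 4 ∨ Real.sqrt 3 ^ (g + 1) ≤ θ + 1) → 2 + (g : ℝ) + l + ∑ i, bVS (N' i) ≤ bPS θ

end Pool.Agent.B5
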