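import Pool.Agent.Lib.MP_b5021c_nt.IfaceS1
import Pool.Agent.Lib.MP_b5021c_nt.IfaceS2a

/-!
# Board b5, stage 2 (sharp theorem), second part: loads, drop, recursion (PaperS2.md)
-/

namespace Pool.Agent.B5

open scoped LaurentPolynomial
open Polynomial
open Pool.Agent.MP_b5021c_nt (Eis)

/-! ## Loads (chapters T1, T2) -/

/-- (LSV) the loads in class `V`: two adjacent loads (light) or one load (heavy). -/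
def LsvS : Prop := ∀ (N : ℝ) (Q F : RO Eis), ClassV N Q → F ≠ 0 → (∀ z : Circle, evR z Q ≠ 0) →
  (∀ z : Circle, ‖evR z F‖ ≤ ‖evR z Q‖) → (∃ z : Circle, ‖evR z F‖ ≠ ‖evR z Q‖) →
    (∃ e₁ e₂ : (RO Eis)ˣ, Adj e₁ e₂ ∧ 1 / N ≤ ‖mn ((e₁ : RO Eis) * F) Q‖ ∧
      ‖mn ((e₁ : RO Eis) * F) Q‖ ≤ 1 / 4 ∧
      ∀ e : (RO Eis)ˣ, (e = e₁ ∨ e = e₂) →
        ∃ N' : ℝ, N' ^ 2 ≤ N ^ 2 - N + 1 ∧ ClassV N' (Q + (e : RO Eis) * F)) ∨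
    (N / 4 < M F ∧
      ∃ (e₁ : (RO Eis)ˣ) (N' : ℝ), N' ≤ 4 / 5 * N ∧ ClassV N' (Q + (e₁ : RO Eis) * F))

/-- Data of a load problem in class `P(θ)`: `q = (1 - T z) s`, `f = c s + (1 - T z) r`. -/
structure PDat (θ : ℝ) (q f : Eis[X]) (s r : ℂ[X]) (T c : ℂ) : Prop where
  th : 1 < θ
  q0 : ‖Eis.emb (q.coeff 0)‖ = 1
  f0 : f.coeff 0 ≠ 0
  nz : ∀ z : ℂ, ‖z‖ = 1 → (q.map Eis.emb).eval z ≠ 0
  root : (q.map Eis.emb).roots.filter (fun x => ‖x‖ < 1) = {T⁻¹}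
  nT : ‖T‖ = θ
  le : ∀ z : ℂ, ‖z‖ = 1 → ‖(f.map Eis.emb).eval z‖ ≤ ‖(q.map Eis.emb).eval z‖
  ne : ∃ z : ℂ, ‖z‖ = 1 ∧ ‖(f.map Eis.emb).eval z‖ ≠ ‖(q.map Eis.emb).eval z‖
  qs : q.map Eis.emb = (1 - C T * X) * s
  fs : f.map Eis.emb = C c * s + (1 - C T * X) * r
  s0 : ∀ z : ℂ, ‖z‖ ≤ 1 → s.eval z ≠ 0
  r3 : ∀ z : ℂ, ‖z‖ ≤ 1 → ‖r.eval z‖ ≤ 3 * ‖s.eval z‖
  cT : ‖c‖ ≤ θ - 1 / θ
  h0 : ‖r.eval 0‖ ≤ ‖s.eval 0‖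
  h1 : ‖(derivative r).eval 0 * s.eval 0 - r.eval 0 * (derivative s).eval 0‖ ≤ ‖s.eval 0‖ ^ 2

/-- (PDA) existence of the data. -/
def PdaS : Prop := ∀ (θ : ℝ) (Q F : RO Eis), ClassP θ Q → F ≠ 0 → (∀ z : Circle, evR z Q ≠ 0) →
  (∀ z : Circle, ‖evR z F‖ ≤ ‖evR z Q‖) → (∃ z : Circle, ‖evR z F‖ ≠ ‖evR z Q‖) →
    ∃ (n m : ℤ) (q f : Eis[X]) (s r : ℂ[X]) (T c : ℂ),
      Q = LaurentPolynomial.T n * toLaurent q ∧ F = LaurentPolynomial.T m * toLaurent f ∧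
        PDat θ q f s r T c

/-- (LPB) loads of type B. -/
def LpbS : Prop := ∀ (θ : ℝ) (q f : Eis[X]) (s r : ℂ[X]) (T c : ℂ), 100 ≤ θ → PDat θ q f s r T c →
  1 ≤ ‖c‖ → ∀ v : Eisˣ,
    (‖c‖ ≤ θ / 4 → 1 / 2 * (‖c‖ * θ) ≤ (Eis.emb (v : Eis) * (c * (starRingEnd ℂ) T)).re →
      ClassV 1 (toLaurent (q + C (v : Eis) * X * f)) ∨
      ∃ θ' : ℝ, θ' ≤ θ - 1 / 2 + 8 / θ ∧ ClassP θ' (toLaurent (q + C (v : Eis) * X * f))) ∧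
    (θ / 4 ≤ ‖c‖ →
      Real.sqrt 3 / 2 * (‖c‖ * θ) ≤ (Eis.emb (v : Eis) * (c * (starRingEnd ℂ) T)).re →
      ClassV 1 (toLaurent (q + C (v : Eis) * X * f)) ∨
      ∃ θ' : ℝ, θ' ≤ 4 / 5 * θ + 7 ∧ ClassP θ' (toLaurent (q + C (v : Eis) * X * f)))

/-- (LPA) loads of type A: `A2` (the constant coefficient of `f` is not a unit), `A1` (unit). -/
def LpaS : Prop := ∀ (θ : ℝ) (q f : Eis[X]) (s r : ℂ[X]) (T c : ℂ), 100 ≤ θ → PDat θ q f s r T c →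
  ‖c‖ ≤ 1 →
    (¬ IsUnit (f.coeff 0) → ‖c‖ < 1 → ∃ v : Eisˣ, ClassV 1 (toLaurent (q + C (v : Eis) * f)) ∨
      ∃ θ' : ℝ, θ' ≤ 4 / 5 * θ + 7 ∧ ClassP θ' (toLaurent (q + C (v : Eis) * f))) ∧
    (IsUnit (f.coeff 0) → ∃ (v : Eisˣ) (N' : ℝ), N' ≤ θ + 1 ∧
      ClassV N' (toLaurent (q + C (v : Eis) * f)))

/-- (LSP) the loads in class `P(θ)`, `θ ≥ 100`: two adjacent loads (light), or one load. -/
def LspS : Prop := ∀ (θ : ℝ) (Q F : RO Eis), 100 ≤ θ → ClassP θ Q → F ≠ 0 →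
  (∀ z : Circle, evR z Q ≠ 0) →
  (∀ z : Circle, ‖evR z F‖ ≤ ‖evR z Q‖) → (∃ z : Circle, ‖evR z F‖ ≠ ‖evR z Q‖) →
    (∃ e₁ e₂ : (RO Eis)ˣ, Adj e₁ e₂ ∧ 1 / θ ≤ ‖mn ((e₁ : RO Eis) * F) Q‖ ∧
      ‖mn ((e₁ : RO Eis) * F) Q‖ ≤ 1 / 4 ∧
      ∀ e : (RO Eis)ˣ, (e = e₁ ∨ e = e₂) →
        ClassV 1 (Q + (e : RO Eis) * F) ∨
        ∃ θ' : ℝ, θ' ≤ θ - 1 / 2 + 8 / θ ∧ ClassP θ' (Q + (e : RO Eis) * F)) ∨
    (∃ e₁ : (RO Eis)ˣ, ClassV 1 (Q + (e₁ : RO Eis) * F) ∨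
      (∃ θ' : ℝ, θ' ≤ 4 / 5 * θ + 7 ∧ ClassP θ' (Q + (e₁ : RO Eis) * F)) ∨
      ∃ N' : ℝ, N' ≤ θ + 1 ∧ ClassV N' (Q + (e₁ : RO Eis) * F))

/-! ## The drop (chapter T3) -/

/-- (DR7) the drop bound with powers of `√3`, for a system of disjoint rays as in `F5S`. -/
def Dr7S : Prop := ∀ (O : Type) [CommRing O] [IsDomain O] [IsPrincipalIdealRing O] [Coef O]
  (P L : Type) [Fintype P] [DecidableEq P] [AddCommGroup L] [Module.Free ℤ L]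
  [Module.Finite ℤ L] (phi : L →+ (P → ℤ)) (D : AO O L) (eta : L → (RO O)ˣ) (g : ℕ)
  (S : Fin (g + 1) → L), Function.Injective phi → (∀ a ∈ supp D, Bin phi a) → Stable D →
    (∀ z : Circle, evR z (D.coeff 0) ≠ 0) → (∀ i, Ray D (S i)) →
    (∀ i j, i ≠ j → ∀ p, phi (S i) p = 0 ∨ phi (S j) p = 0) →
    (∀ I : Finset (Fin (g + 1)), I.Nonempty →
      (∏ i ∈ I, (eta (S i) : RO O)) * D.coeff (∑ i ∈ I, S i) =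
        (-1) ^ (I.card + 1) * ((eta (S 0) : RO O) * D.coeff (S 0))) →
    D.coeff 0 + (eta (S 0) : RO O) * D.coeff (S 0) ≠ 0 → 5 ≤ g →
      Real.sqrt 3 ^ (g + 1) ≤ M (D.coeff 0 + (eta (S 0) : RO O) * D.coeff (S 0))

/-- (FL2) the choice of the ray, both drop bounds. -/
def Fl2S : Prop := ∀ (O : Type) [CommRing O] [IsDomain O] [IsPrincipalIdealRing O] [Coef O]
  (P L : Type) [Fintype P] [DecidableEq P] [AddCommGroup L] [Module.Free ℤ L]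
  [Module.Finite ℤ L] (phi : L →+ (P → ℤ)) (D : AO O L) (eta : L → (RO O)ˣ), DD phi D →
    2 ≤ Module.finrank ℤ L →
    (∀ S, Ray D S → D.coeff 0 + (eta S : RO O) * D.coeff S ≠ 0) →
      ∃ (S : L) (g : ℕ), Ray D S ∧
        (∀ (i0 : P) (h : co phi i0 S = 1),
          Module.finrank ℤ L = rk (supp (cl (co phi i0) S h (eta S) D)) + 1 + g) ∧
        ((g : ℝ) - 1) * M (D.coeff S) ≤ M (D.coeff 0) ∧
        (g ≤ 4 ∨ Real.sqrt 3 ^ (g + 1) ≤ M (D.coeff 0 + (eta S : RO O) * D.coeff S)) ∧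
        (1 ≤ g → ∀ e : (RO O)ˣ, e ≠ eta S → ∀ (i0 : P) (h : co phi i0 S = 1),
          Module.finrank ℤ L = rk (supp (cl (co phi i0) S h e D)) + 1)

/-! ## The recursion (chapter T4) -/

/-- (CLL) one closing of a light ray: summary in terms of the classes (as `CLOS`). -/
def CllS : Prop := ∀ (O : Type) [CommRing O] [IsDomain O] [IsPrincipalIdealRing O] [Coef O]
  (P L : Type) [Fintype P] [DecidableEq P] [AddCommGroup L] [Module.Free ℤ L]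
  [Module.Finite ℤ L] (phi : L →+ (P → ℤ)) (D : AO O L) (S : L) (i0 : P) (e₁ e₂ : (RO O)ˣ)
  (h : co phi i0 S = 1), DD phi D → 3 ≤ Module.finrank ℤ L → Ray D S → Adj e₁ e₂ →
    D.coeff 0 + (e₁ : RO O) * D.coeff S ≠ 0 → D.coeff 0 + (e₂ : RO O) * D.coeff S ≠ 0 →
    ‖mn ((e₁ : RO O) * D.coeff S) (D.coeff 0)‖ ≤ 1 / 4 →
    (Module.finrank ℤ L = rk (supp (cl (co phi i0) S h e₁ D)) + 1 ∨
      Module.finrank ℤ L = rk (supp (cl (co phi i0) S h e₂ D)) + 1) →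
    ∃ e : (RO O)ˣ, (e = e₁ ∨ e = e₂) ∧
      (∀ N : ℝ, ClassV N (D.coeff 0 + (e : RO O) * D.coeff S) →
        ∀ B : ℝ → ℝ, Monotone B → (∀ x, 1 ≤ B x) → (∀ x, x ≤ N → BdV O x (B x)) →
          (1 < N ∧ (Module.finrank ℤ L : ℝ) ≤ 1 + B N) ∨
          (1 < N ∧
            N ≤ M (D.coeff 0) * Real.exp (-‖mn ((e₁ : RO O) * D.coeff S) (D.coeff 0)‖) ∧
            (Module.finrank ℤ L : ℝ) ≤ 2 + B N) ∨
          ∃ (m : ℕ) (N' : Fin m → ℝ) (N₀ : ℝ) (l : ℕ),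
            (∀ i, 1 < N' i ∧ ∃ Q' : RO O, ClassV (N' i) Q') ∧ (∃ Q' : RO O, ClassV N₀ Q') ∧
            N₀ * ∏ i, N' i = N ∧ (m = 1 → N₀ = 1 → 2 * N ^ 2 ≤ M (D.coeff 0) ^ 2) ∧
            (l : ℝ) * ∏ i, N' i ≤ 2 * M (D.coeff 0) ∧
            (Module.finrank ℤ L : ℝ) ≤ 2 + l + ∑ i, B (N' i)) ∧
      (∀ θ' : ℝ, ClassP θ' (D.coeff 0 + (e : RO O) * D.coeff S) → ∀ C : ℝ, 1 ≤ C → BdP O θ' C →
          (Module.finrank ℤ L : ℝ) ≤ 1 + C ∨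
          (θ' ≤ M (D.coeff 0) * Real.exp (-‖mn ((e₁ : RO O) * D.coeff S) (D.coeff 0)‖) ∧
            (Module.finrank ℤ L : ℝ) ≤ 2 + C) ∨
          ∃ l : ℕ, ((l : ℝ) ≤ 2 * M (D.coeff 0) ∧ (Module.finrank ℤ L : ℝ) ≤ 2 + l) ∨
            (2 * θ' ^ 2 ≤ M (D.coeff 0) ^ 2 ∧ (l : ℝ) * θ' ≤ 2 * M (D.coeff 0) ∧
              (Module.finrank ℤ L : ℝ) ≤ 2 + l + C))

/-- (JV2) the induction step in class `V`. -/
def Jv2S : Prop := ∀ (P L : Type) [Fintype P] [DecidableEq P] [AddCommGroup L] [Module.Free ℤ L]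
  [Module.Finite ℤ L] (phi : L →+ (P → ℤ)) (D : AO Eis L) (N : ℝ), DD phi D →
    ClassV N (D.coeff 0) → 3 ≤ Module.finrank ℤ L →
    (∀ x : ℝ, x ≤ N - 1 / 5 → BdV Eis x (bVS x)) → (Module.finrank ℤ L : ℝ) ≤ bVS N

/-- (JVE) class `V`. -/
def JveS : Prop := ∀ N : ℝ, BdV Eis N (bVS N)

/-- (JP2) the induction step in class `P`. -/
def Jp2S : Prop := ∀ (P L : Type) [Fintype P] [DecidableEq P] [AddCommGroup L] [Module.Free ℤ L]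
  [Module.Finite ℤ L] (phi : L →+ (P → ℤ)) (D : AO Eis L) (θ : ℝ), 100 ≤ θ → DD phi D →
    ClassP θ (D.coeff 0) → 3 ≤ Module.finrank ℤ L → (∀ x : ℝ, BdV Eis x (bVS x)) →
    (∀ x : ℝ, x ≤ θ - 1 / 4 → BdP Eis x (bPS x)) → (Module.finrank ℤ L : ℝ) ≤ bPS θ

/-- (JPE) class `P`: CONCLUSION of stage 2. -/
def JpeS : Prop := ∀ θ : ℝ, BdP Eis θ (bPS θ)

end Pool.Agent.B5
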