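import Pool.Agent.Lib.MP_b5021c_nt.Eis
import Pool.Agent.Lib.MP_b5021c_nt.IfaceL1

/-!
# Board b5, stage 2, FINAL FORM `k + 1 ≤ 2 θ + 480000`: numbers and complex polynomials
(PaperS4.md)

These rows need Mathlib, `Eis.lean` and `IfaceL1.lean` (the function `bVL`) only.
-/

namespace Pool.Agent.B5

open Polynomial
open Pool.Agent.MP_b5021c_nt (Eis)

/-! ## Complex polynomials and numbers -/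

/-- (BS2) best and second best unit for an Eisenstein integer; they are adjacent. -/
def Bs2S : Prop := ∀ t : Eis, t ≠ 0 → ∃ u v w : Eis, IsUnit u ∧ IsUnit v ∧ u = w * v ∧
  ‖Eis.emb w‖ = 1 ∧ (Eis.emb w).re = 1 / 2 ∧
    Real.sqrt 3 * ‖Eis.emb t‖ ≤ 2 * (Eis.emb (u * t)).re ∧
    (‖Eis.emb t‖ + 1 ≤ 2 * (Eis.emb (v * t)).re ∨
      (‖Eis.emb t‖ ≤ 2 * (Eis.emb (v * t)).re ∧ ∃ n : ℕ, ‖Eis.emb t‖ = n))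

/-- (RB2) the zero after a load of type B: light closing, window, heavy closing. -/
def Rb2S : Prop := ∀ T T' c v h : ℂ, 200 ≤ ‖T‖ → 1 < ‖T'‖ → ‖v‖ = 1 → ‖h‖ ≤ 3 →
  ‖c‖ ≤ ‖T‖ → (T - T') * (T' + v * h) = v * c * T' →
    (1 + 20 / ‖T‖ ≤ ‖c‖ → ‖c‖ ≤ ‖T‖ / 10 →
      1 / 2 * (‖c‖ * ‖T‖) ≤ (v * (c * (starRingEnd ℂ) T)).re → ‖T'‖ ≤ ‖T‖ - 1 / 2) ∧
    (72 / 100 ≤ ‖c‖ → ‖c‖ ≤ 1 + 20 / ‖T‖ →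
      Real.sqrt 3 / 2 * (‖c‖ * ‖T‖) ≤ (v * (c * (starRingEnd ℂ) T)).re →
        ‖T'‖ ≤ ‖T‖ - 1 / 2) ∧
    (‖T‖ / 10 ≤ ‖c‖ → Real.sqrt 3 / 2 * (‖c‖ * ‖T‖) ≤ (v * (c * (starRingEnd ℂ) T)).re →
      ‖T'‖ ≤ 23 / 25 * ‖T‖ + 7)

/-- (RA2) the zero after a load of type A2. -/
def Ra2S : Prop := ∀ T T' c e h₀ h : ℂ, 200 ≤ ‖T‖ → 1 < ‖T'‖ → ‖e‖ = 1 →
  ‖1 + e * (c + h₀)‖ = 1 → ‖1 + e * h₀‖ ≤ 6 / 10 → ‖h - h₀‖ ≤ 7 / ‖T'‖ →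
  (1 + e * h) * (T' - T) = -(e * c * T') → ‖T'‖ ≤ 6 / 10 * ‖T‖ + 21

/-- (AUV) the unit of the load of type A2. -/
def AuvS : Prop := ∀ (nu : Eis) (h₀ : ℂ), (‖Eis.emb nu‖ ^ 2 = 3 ∨ ‖Eis.emb nu‖ ^ 2 = 4) →
  ‖h₀‖ ≤ 1 → ‖Eis.emb nu - h₀‖ ≤ 11 / 10 →
    ∃ e : Eisˣ, ‖1 + Eis.emb (e : Eis) * Eis.emb nu‖ = 1 ∧
      ‖1 + Eis.emb (e : Eis) * h₀‖ ≤ 6 / 10

/-- (PUC) a pure factor at a load of type B forces a large residue. -/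
def PucS : Prop := ∀ (q f r s : ℂ[X]) (T c v : ℂ), 1 < ‖T‖ → ‖v‖ = 1 →
  (∀ z : ℂ, ‖z‖ ≤ 1 → s.eval z ≠ 0) → q = (1 - C T * X) * s → f = C c * s + (1 - C T * X) * r →
  (∀ z : ℂ, ‖z‖ = 1 → ‖(q + C v * X * f).eval z‖ + ‖f.eval z‖ = ‖q.eval z‖) →
    ‖f.eval 0‖ ≤ ‖c‖ * ‖q.eval 0‖

/-! ## The bounds and the numerical recursion -/

/-- The bound in class `V`. -/
noncomputable def bV3 (x : ℝ) : ℝ := min (bVL x) (2 * max 1 x + 4800)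

/-- The bound in class `P`. -/
noncomputable def bP3 (x : ℝ) : ℝ := min (2400 * x) (2 * x + 480000)

/-- (SU3) the bound in class `V` is superadditive for products. -/
def Su3S : Prop := ∀ (m : ℕ) (x : Fin m → ℝ), 1 ≤ m → (∀ i, Real.sqrt 3 ≤ x i) →
  ∑ i, bV3 (x i) + 4 * ((m : ℝ) - 1) ≤ bV3 (∏ i, x i)

/-- (NV3) numerical steps in class `V`: rich light closings, heavy closings. -/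
def Nv3S : Prop := ∀ (N : ℝ) (m : ℕ) (N' : Fin m → ℝ) (l : ℕ), 200 ≤ N →
  (∀ i, Real.sqrt 3 ≤ N' i) → (l : ℝ) * ∏ i, N' i ≤ 2 * N →
    (∏ i, N' i ≤ N → (m = 1 → 2 * (∏ i, N' i) ^ 2 ≤ N ^ 2) →
      2 + (l : ℝ) + ∑ i, bV3 (N' i) ≤ 2 * N + 4800) ∧
    (∏ i, N' i ≤ 23 / 25 * N → 12 + (l : ℝ) + ∑ i, bV3 (N' i) ≤ 2 * N + 4800)

/-- (NP3) numerical steps in class `P`, one big factor of class `P(θ')`: rich light closing,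
heavy closing, single load. -/
def Np3S : Prop := ∀ (θ θ' : ℝ) (l : ℕ), 200 ≤ θ → 1 < θ' → (l : ℝ) * θ' ≤ 2 * θ →
  (2 * θ' ^ 2 ≤ θ ^ 2 → 2 + (l : ℝ) + bP3 θ' ≤ 2 * θ + 480000) ∧
  (θ' ≤ 23 / 25 * θ + 7 → 13 + (l : ℝ) + bP3 θ' ≤ 2 * θ + 480000) ∧
  (∀ g : ℕ, θ' ≤ 6 / 10 * θ + 21 → (g ≤ 4 ∨ Real.sqrt 3 ^ (g + 1) ≤ θ') →
    2 + (g : ℝ) + l + bP3 θ' ≤ 2 * θ + 480000)

/-- (NQ3) numerical steps in class `P`: no big factor; loads of type A1 (in a pair, single). -/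
def Nq3S : Prop :=
  (∀ (θ x : ℝ) (l g : ℕ), 200 ≤ θ → 1 ≤ x → (l : ℝ) + x ≤ 2 * θ →
    (g ≤ 4 ∨ Real.sqrt 3 ^ (g + 1) ≤ x) → 2 + (g : ℝ) + l ≤ 2 * θ + 480000) ∧
  (∀ (θ : ℝ) (m : ℕ) (N' : Fin m → ℝ) (l : ℕ), 200 ≤ θ → (∀ i, Real.sqrt 3 ≤ N' i) →
    ∏ i, N' i ≤ θ + 21 → (l : ℝ) * ∏ i, N' i ≤ 2 * θ →
      2 + (l : ℝ) + ∑ i, bV3 (N' i) ≤ 2 * θ + 480000) ∧
  (∀ (θ x : ℝ) (m : ℕ) (N' : Fin m → ℝ) (l g : ℕ), 200 ≤ θ → 1 ≤ x → x ≤ 72 / 100 * θ + 1 →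
    (∀ i, Real.sqrt 3 ≤ N' i) → ∏ i, N' i ≤ x → (l : ℝ) * ∏ i, N' i + x ≤ 2 * θ →
    (g ≤ 4 ∨ Real.sqrt 3 ^ (g + 1) ≤ x) →
      2 + (g : ℝ) + l + ∑ i, bV3 (N' i) ≤ 2 * θ + 480000)

end Pool.Agent.B5
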