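import Pool.Agent.Lib.MP_b5021c_nt.IfaceD

/-!
# Board b5: statements of the rows of chapters E2, F1 - F5, Asano
-/

namespace Pool.Agent.B5

open scoped LaurentPolynomial

/-- (E2) the edges of an element of `DD`. -/
def E2S : Prop := ∀ (O : Type) [CommRing O] [IsDomain O] [IsPrincipalIdealRing O] [Coef O]
  (P L : Type) [Fintype P] [DecidableEq P] [AddCommGroup L] [Module.Free ℤ L]
  [Module.Finite ℤ L] (phi : L →+ (P → ℤ)) (D : AO O L), DD phi D → 2 ≤ Module.finrank ℤ L →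
    (∀ z : Circle, evR z (D.coeff 0) ≠ 0) ∧ Thin (supp D) ∧ Wdep D ∧ Prim D ∧
    rk {b | Ray D b} = Module.finrank ℤ L ∧
    ∀ S : L, Ray D S → (∀ z : Circle, ‖evR z (D.coeff S)‖ ≤ ‖evR z (D.coeff 0)‖) ∧
      ∃ z : Circle, ‖evR z (D.coeff S)‖ ≠ ‖evR z (D.coeff 0)‖

/-! ## Asano contraction -/

/-- Merging two ports. -/
def Asano1S : Prop := ∀ a b c d : ℂ,
  (∀ x y : ℂ, ‖x‖ < 1 → ‖y‖ < 1 → a + b * x + c * y + d * (x * y) ≠ 0) →
    ∀ x : ℂ, ‖x‖ < 1 → a + d * x ≠ 0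

/-- Contraction to disjoint blocks. -/
def AsanoS : Prop := ∀ (P : Type) [Fintype P] [DecidableEq P] (p : Finset P → ℂ),
  (∀ w : P → ℂ, (∀ i, ‖w i‖ < 1) → mae p w ≠ 0) →
    ∀ (n : ℕ) (B : Fin n → Finset P), (∀ i j, i ≠ j → Disjoint (B i) (B j)) →
      (∀ i, (B i).Nonempty) → ∀ y : Fin n → ℂ, (∀ i, ‖y i‖ < 1) →
        ∑ I : Finset (Fin n), p (I.biUnion B) * ∏ i ∈ I, y i ≠ 0

/-- An element of `DD` is zero-free on the polydisc of the ports. -/
def PolyS : Prop := ∀ (O : Type) [CommRing O] [IsDomain O] [IsPrincipalIdealRing O] [Coef O]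
  (P L : Type) [Fintype P] [DecidableEq P] [AddCommGroup L] [Module.Free ℤ L]
  [Module.Finite ℤ L] (phi : L →+ (P → ℤ)) (D : AO O L), Function.Injective phi →
    (∀ a ∈ supp D, Bin phi a) → Stable D → ∀ z : Circle, evR z (D.coeff 0) ≠ 0 →
      (∀ w : P → ℂ, (∀ i, ‖w i‖ < 1) → mae (cfz phi z D) w ≠ 0) ∧
      (∀ (T : Finset P) (a : L), (∀ i, phi a i = if i ∈ T then 1 else 0) →
        cfz phi z D T = evR z (D.coeff a))

/-! ## Chapter F -/

/-- The saturation of a sublattice. -/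
def satur {L : Type} [AddCommGroup L] (K : Submodule ℤ L) : Submodule ℤ L where
  carrier := {a | ∃ n : ℤ, n ≠ 0 ∧ n • a ∈ K}
  zero_mem' := ⟨1, one_ne_zero, by simp⟩
  add_mem' := by
    rintro a b ⟨m, hm, ha⟩ ⟨n, hn, hb⟩
    refine ⟨m * n, mul_ne_zero hm hn, ?_⟩
    rw [smul_add, mul_comm m n, mul_smul, mul_comm n m, mul_smul]
    exact K.add_mem (K.smul_mem _ ha) (K.smul_mem _ hb)
  smul_mem' := by
    rintro c a ⟨n, hn, ha⟩
    refine ⟨n, hn, ?_⟩
    rw [smul_comm]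
    exact K.smul_mem _ ha

open Classical in
/-- The coefficient, at the representative `a`, of the class of `a` modulo `S` after the closing
`w^S = eta`: the sum of `D_(a + k S) eta^k`. -/
noncomputable def vco {O : Type} [CommRing O] {L : Type} [AddCommGroup L] (eta : (RO O)ˣ) (S : L) (D : AO O L) (a : L) : RO O :=
  D.coeff.sum fun b q => if h : ∃ k : ℤ, b = a + k • S then q * ((eta ^ h.choose : (RO O)ˣ) : RO O) else 0

/-- `U_S`: the saturation of the span of `S` and of the exponents of `V_S`. -/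
def US {O : Type} [CommRing O] {L : Type} [AddCommGroup L] (eta : (RO O)ˣ) (S : L) (D : AO O L) : Submodule ℤ L :=
  satur (Submodule.span ℤ (insert S {a : L | vco eta S D a ≠ 0}))

/-- Basic formulas for `vco`. -/
def VcoS : Prop := ∀ (O : Type) [CommRing O] [IsDomain O] [IsPrincipalIdealRing O] [Coef O]
  (P L : Type) [Fintype P] [DecidableEq P] [AddCommGroup L] [Module.Free ℤ L]
  [Module.Finite ℤ L] (phi : L →+ (P → ℤ)) (D : AO O L) (S : L) (eta : (RO O)ˣ), Function.Injective phi →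
    (∀ a ∈ supp D, Bin phi a) → Bin phi S → S ≠ 0 →
      (∀ (a : L) (k : ℤ), vco eta S D (a + k • S) = ((eta ^ (-k) : (RO O)ˣ) : RO O) * vco eta S D a) ∧
      (∀ a : L, vco eta S D a ≠ 0 → ∃ k : ℤ, D.coeff (a + k • S) ≠ 0) ∧
      (∀ a : L, (∀ i, phi a i = 0 ∨ phi S i = 0) →
        vco eta S D a = D.coeff a + (eta : RO O) * D.coeff (a + S)) ∧
      (∀ a : L, Bin phi a → (∃ i, phi a i = 1 ∧ phi S i = 1) → (∃ i, phi a i = 0 ∧ phi S i = 1) →
        vco eta S D a = D.coeff a) ∧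
      (∀ (i0 : P) (h : co phi i0 S = 1) (a : Ker (co phi i0)),
        (cl (co phi i0) S h eta D).coeff a = vco eta S D (a : L))

/-- (F1) -/
def F1S : Prop := ∀ (O : Type) [CommRing O] [IsDomain O] [IsPrincipalIdealRing O] [Coef O]
  (P L : Type) [Fintype P] [DecidableEq P] [AddCommGroup L] [Module.Free ℤ L]
  [Module.Finite ℤ L] (phi : L →+ (P → ℤ)) (D : AO O L) (S : L) (eta : (RO O)ˣ), Function.Injective phi →
    (∀ a ∈ supp D, Bin phi a) → Bin phi S → S ≠ 0 → ∀ a : L, a ∉ US eta S D →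
      ((∃ i, phi a i = 1 ∧ phi S i = 1) → (∃ i, phi a i = 0 ∧ phi S i = 1) → D.coeff a = 0) ∧
      ((∀ i, phi a i = 0 ∨ phi S i = 0) → D.coeff a + (eta : RO O) * D.coeff (a + S) = 0)

/-- (F2) -/
def F2S : Prop := ∀ (O : Type) [CommRing O] [IsDomain O] [IsPrincipalIdealRing O] [Coef O]
  (P L : Type) [Fintype P] [DecidableEq P] [AddCommGroup L] [Module.Free ℤ L]
  [Module.Finite ℤ L] (phi : L →+ (P → ℤ)) (D : AO O L) (S S' : L) (eta : (RO O)ˣ),
    Function.Injective phi → (∀ a ∈ supp D, Bin phi a) → Ray D S → Ray D S' →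
      S ∉ US eta S' D → ∀ i, phi S i = 0 ∨ phi S' i = 0

/-- (F3) -/
def F3S : Prop := ∀ (O : Type) [CommRing O] [IsDomain O] [IsPrincipalIdealRing O] [Coef O]
  (P L : Type) [Fintype P] [DecidableEq P] [AddCommGroup L] [Module.Free ℤ L]
  [Module.Finite ℤ L] (phi : L →+ (P → ℤ)) (D : AO O L) (S S' : L) (eta eta' : (RO O)ˣ),
    Function.Injective phi → (∀ a ∈ supp D, Bin phi a) → Ray D S → Ray D S' →
      S' ∉ US eta S D → US eta S D ≤ satur (US eta' S' D ⊔ Submodule.span ℤ {S})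

/-- (F4, F5) the system of disjoint rays. -/
def F5S : Prop := ∀ (O : Type) [CommRing O] [IsDomain O] [IsPrincipalIdealRing O] [Coef O]
  (P L : Type) [Fintype P] [DecidableEq P] [AddCommGroup L] [Module.Free ℤ L]
  [Module.Finite ℤ L] (phi : L →+ (P → ℤ)) (D : AO O L) (eta : L → (RO O)ˣ),
    Function.Injective phi → (∀ a ∈ supp D, Bin phi a) → (∃ b, Ray D b) →
    rk {b | Ray D b} = Module.finrank ℤ L →
      ∃ (g : ℕ) (S : Fin (g + 1) → L), (∀ i, Ray D (S i)) ∧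
        (∀ i j, i ≠ j → ∀ p, phi (S i) p = 0 ∨ phi (S j) p = 0) ∧
        (∀ i j, i ≠ j → S j ∉ US (eta (S i)) (S i) D) ∧
        Module.finrank ℤ (US (eta (S 0)) (S 0) D) + g = Module.finrank ℤ L ∧
        ∀ I : Finset (Fin (g + 1)), I.Nonempty →
          (∏ i ∈ I, (eta (S i) : RO O)) * D.coeff (∑ i ∈ I, S i) =
            (-1) ^ (I.card + 1) * ((eta (S 0) : RO O) * D.coeff (S 0))

/-- The rank of `U_S` and of the support of the closed element. -/
def RkUSS : Prop := ∀ (O : Type) [CommRing O] [IsDomain O] [IsPrincipalIdealRing O] [Coef O]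
  (P L : Type) [Fintype P] [DecidableEq P] [AddCommGroup L] [Module.Free ℤ L]
  [Module.Finite ℤ L] (phi : L →+ (P → ℤ)) (D : AO O L) (S : L) (i0 : P) (h : co phi i0 S = 1)
  (eta : (RO O)ˣ), Function.Injective phi → (∀ a ∈ supp D, Bin phi a) → Bin phi S →
    Module.finrank ℤ (US eta S D) = rk (supp (cl (co phi i0) S h eta D)) + 1


end Pool.Agent.B5
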