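import Pool.Agent.Lib.MP_b5021c_nt.E.H61.FacetDraft

/-!
# Board b5, stage 3, chapter E0: facet ports (statements, first half: the reduction)

Text: PaperE0.md.  The structure `FP` (facet ports), the marking `phO` and the statements
`FspS`, `Inj1S`, `TwfS`, `Inj2S`, `ClpS` of the second half are in `E/H61/FacetDraft.lean`.
-/

namespace Pool.Agent.B5

open scoped LaurentPolynomial

/-- A facet functional of a set of exponents. -/
def FacF {L : Type} [AddCommGroup L] (S : Set L) (lam : L →+ ℤ) : Prop :=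
  lam ≠ 0 ∧ (∀ a ∈ S, 0 ≤ lam a) ∧ rk {a | a ∈ S ∧ lam a = 0} + 1 = Module.finrank ℤ L

/-- `lam` takes only the values `0` and `m > 0` on `S`. -/
def TwoL {L : Type} [AddCommGroup L] (S : Set L) (lam : L →+ ℤ) (m : ℤ) : Prop :=
  0 < m ∧ ∀ a ∈ S, lam a = 0 ∨ lam a = m

/-- (E0_CPL) completion at a facet. [uses FacetS ComplS ComplIrrS RkS] -/
def CplS : Prop := ∀ (O : Type) [CommRing O] [IsDomain O] [IsPrincipalIdealRing O] [Coef O]
  (P L : Type) [Fintype P] [DecidableEq P] [AddCommGroup L] [Module.Free ℤ L]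
  [Module.Finite ℤ L] (phi : L →+ (P → ℤ)) (D : AO O L) (lam : L →+ ℤ), DD phi D →
    2 ≤ Module.finrank ℤ L → FacF (supp D) lam →
    ((∃ N, ClassV N (D.coeff 0)) ∨ (∃ θ, ClassP θ (D.coeff 0))) →
      ∃ (P' L' : Type) (_ : Fintype P') (_ : DecidableEq P') (_ : AddCommGroup L')
        (_ : Module.Free ℤ L') (_ : Module.Finite ℤ L') (phi' : L' →+ (P' → ℤ)) (D' : AO O L'),
        DD phi' D' ∧ Module.finrank ℤ L' = Module.finrank ℤ L ∧ ClsLe (D.coeff 0) (D'.coeff 0) ∧
        (supp D').ncard = 2 * {a | a ∈ supp D ∧ lam a = 0}.ncard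

/-- (E0_SYM) the levels of a functional on the (symmetric) support. [uses UnitAS RkS] -/
def SymLS : Prop := ∀ (O : Type) [CommRing O] [IsDomain O] [IsPrincipalIdealRing O] [Coef O]
  (P L : Type) [Fintype P] [DecidableEq P] [AddCommGroup L] [Module.Free ℤ L]
  [Module.Finite ℤ L] (phi : L →+ (P → ℤ)) (D : AO O L) (lam : L →+ ℤ), DD phi D → lam ≠ 0 →
    (∀ a ∈ supp D, 0 ≤ lam a) →
      (supp D).ncard ≤ 2 * {a | a ∈ supp D ∧ lam a = 0}.ncard → ∃ m : ℤ, TwoL (supp D) lam m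

/-- (E0_TWO) reduction to elements all of whose facets are two-level. [uses CplS SymLS] -/
def TwoRedS : Prop := ∀ (O : Type) [CommRing O] [IsDomain O] [IsPrincipalIdealRing O] [Coef O]
  (P L : Type) [Fintype P] [DecidableEq P] [AddCommGroup L] [Module.Free ℤ L]
  [Module.Finite ℤ L] (phi : L →+ (P → ℤ)) (D : AO O L), DD phi D →
    2 ≤ Module.finrank ℤ L →
    ((∃ N, ClassV N (D.coeff 0)) ∨ (∃ θ, ClassP θ (D.coeff 0))) →
      ∃ (P' L' : Type) (_ : Fintype P') (_ : DecidableEq P') (_ : AddCommGroup L')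
        (_ : Module.Free ℤ L') (_ : Module.Finite ℤ L') (phi' : L' →+ (P' → ℤ)) (D' : AO O L'),
        DD phi' D' ∧ Module.finrank ℤ L' = Module.finrank ℤ L ∧ ClsLe (D.coeff 0) (D'.coeff 0) ∧
        ∀ lam : L' →+ ℤ, FacF (supp D') lam → ∃ m : ℤ, TwoL (supp D') lam m

/-- (E0_LAT) restriction to the lattice generated by the support. [uses UnitAS] -/
def LatResS : Prop := ∀ (O : Type) [CommRing O] [IsDomain O] [IsPrincipalIdealRing O] [Coef O]
  (L : Type) [AddCommGroup L] [Module.Free ℤ L] [Module.Finite ℤ L] (G : AO O L)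
  (K : Submodule ℤ L), K = Submodule.span ℤ (supp G) → G.coeff 0 ≠ 0 →
    (Irreducible G → Irreducible (res K G)) ∧ (Unitary G → Unitary (res K G)) ∧
    (Stable G → Stable (res K G)) ∧ Submodule.span ℤ (supp (res K G)) = ⊤ ∧
    rk (supp (res K G)) = rk (supp G) ∧ Module.finrank ℤ K = rk (supp G)

/-- (E0_FPT) facet ports for an element all of whose facets are two-level.
[uses LatResS D3S RkS] -/
def FptS : Prop := ∀ (O : Type) [CommRing O] [IsDomain O] [IsPrincipalIdealRing O] [Coef O]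
  (P L : Type) [Fintype P] [DecidableEq P] [AddCommGroup L] [Module.Free ℤ L]
  [Module.Finite ℤ L] (phi : L →+ (P → ℤ)) (D : AO O L), DD phi D →
    2 ≤ Module.finrank ℤ L →
    (∀ lam : L →+ ℤ, FacF (supp D) lam → ∃ m : ℤ, TwoL (supp D) lam m) →
      ∃ (P' : Type) (_ : Fintype P') (_ : DecidableEq P')
        (phi' : (Submodule.span ℤ (supp D)) →+ (P' → ℤ)),
        FP phi' (res (Submodule.span ℤ (supp D)) D)

/-- (E0_RED) REDUCTION to facet ports: same rank, no larger class. [uses TwoRedS FptS LatResS] -/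
def FpRedS : Prop := ∀ (O : Type) [CommRing O] [IsDomain O] [IsPrincipalIdealRing O] [Coef O]
  (P L : Type) [Fintype P] [DecidableEq P] [AddCommGroup L] [Module.Free ℤ L]
  [Module.Finite ℤ L] (phi : L →+ (P → ℤ)) (D : AO O L), DD phi D →
    2 ≤ Module.finrank ℤ L →
    ((∃ N, ClassV N (D.coeff 0)) ∨ (∃ θ, ClassP θ (D.coeff 0))) →
      ∃ (P' L' : Type) (_ : Fintype P') (_ : DecidableEq P') (_ : AddCommGroup L')
        (_ : Module.Free ℤ L') (_ : Module.Finite ℤ L') (phi' : L' →+ (P' → ℤ)) (D' : AO O L'),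
        FP phi' D' ∧ Module.finrank ℤ L' = Module.finrank ℤ L ∧ ClsLe (D.coeff 0) (D'.coeff 0) ∧
        Submodule.span ℤ (supp D') = ⊤

/-- (E0_NP2) no pure factors in a second closing: `G` is an element of `DD` for the ports outside
`S0` (a factor of the closed element) and `S1` is the second ray. [uses Inj2S] -/
def NoPure2S : Prop := ∀ (O : Type) [CommRing O] [IsDomain O] [IsPrincipalIdealRing O] [Coef O]
  (P L : Type) [Fintype P] [DecidableEq P] [AddCommGroup L] [Module.Free ℤ L]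
  [Module.Finite ℤ L] (phi : L →+ (P → ℤ)) (D : AO O L) (S0 S1 : L) (e0 e1 : (RO O)ˣ) (i0 : P)
  (_ : co phi i0 S0 = 1), FP phi D → Ray D S0 → Ray D S1 → S1 ∉ US e0 S0 D → S0 ∉ US e1 S1 D →
    ∀ (T : Ker (co phi i0)) (i1 : P) (h1 : co (phO phi S0 i0) i1 T = 1) (eta : (RO O)ˣ)
      (E : AO O (Ker (co phi i0))) (c : RO O) (n : ℕ)
      (G : Fin n → AO O (Ker (co (phO phi S0 i0) i1))), (T : L) = S1 →
        FD (phO phi S0 i0) E T i1 eta h1 c n G → ∀ i, ¬ Pure (phO phi S0 i0) T i1 (G i)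

end Pool.Agent.B5
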