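import Pool.Agent.Lib.MP_b5021c_nt.IfaceS1
import Pool.Agent.Lib.MP_b5021c_nt.IfaceK1

/-!
# Board b5, stage 3, chapter E3: small non-pure factors at a load of type B (PaperE3.md)

If the closing `w^S = eta` of an element of class `P` is again of class `P` with a large measure
and has a small non-pure factor then `D` has the form `(1 - x y) U + (1 - x) (1 - y) H`; the swapped
element `D' = (1 - x y) H + (1 - x) (1 - y) U` is in the class `DD`, has the same constant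
coefficient, and its closing at `x = 1` has the constant coefficient `H_0 = - eta D_S`.
-/

namespace Pool.Agent.B5

open scoped LaurentPolynomial
open Polynomial
open Pool.Agent.MP_b5021c_nt (nz)

/-! ## Complex polynomials in one variable -/

/-- (RC3, PC3) homotopy and the number of zeros: `q` has one zero in the disc and none on the circle,
`Re (F conj q) ≥ 0` on the circle. Then `q + F` has one zero in the disc and none on the circle, and
`F` has at most one zero in the disc. -/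
def Pc3S : Prop := ∀ (q F : ℂ[X]), nz q = 1 → (∀ z : ℂ, ‖z‖ = 1 → q.eval z ≠ 0) →
  (∀ z : ℂ, ‖z‖ = 1 → 0 ≤ (F.eval z * (starRingEnd ℂ) (q.eval z)).re) →
    nz (q + F) = 1 ∧ (∀ z : ℂ, ‖z‖ = 1 → (q + F).eval z ≠ 0) ∧ (F ≠ 0 → nz F ≤ 1)

/-- (HP3) positive real part on the circle, bounded from below in the disc. -/
def Hp3S : Prop := ∀ (v W : ℂ[X]) (C : ℝ), ZF v →
  (∀ s : ℂ, ‖s‖ < 1 → -(C * ‖v.eval s‖ ^ 2) ≤ (W.eval s * (starRingEnd ℂ) (v.eval s)).re) →
  (∀ s : ℂ, ‖s‖ = 1 → 0 ≤ (W.eval s * (starRingEnd ℂ) (v.eval s)).re) →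
    0 ≤ (W.eval 0 * (starRingEnd ℂ) (v.eval 0)).re

/-- (DB3) a zero on the circle of a function which is real and nonnegative there is double. -/
def Db3S : Prop := ∀ (a b : ℂ[X]) (n : ℤ) (z0 : ℂ), ‖z0‖ = 1 →
  (∀ z : ℂ, ‖z‖ = 1 → (a.eval z * (starRingEnd ℂ) (b.eval z) * z ^ n).im = 0 ∧
    0 ≤ (a.eval z * (starRingEnd ℂ) (b.eval z) * z ^ n).re) →
  b.eval z0 = 0 → a.eval z0 ≠ 0 → (X - C z0) ^ 2 ∣ b

/-- (ND3) no double zero on the circle. -/
def Nd3S : Prop := ∀ (q v : ℂ[X]) (z0 : ℂ), nz q = 1 → (∀ z : ℂ, ‖z‖ = 1 → q.eval z ≠ 0) →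
  (∀ z : ℂ, ‖z‖ = 1 → 0 ≤ (v.eval z * (starRingEnd ℂ) (q.eval z)).re) → v ≠ 0 →
  (∃ s : ℂ, ‖s‖ < 1 ∧ v.eval s = 0) → ‖z0‖ = 1 → ¬ (X - C z0) ^ 2 ∣ v

/-- (UM3) `Re (q conj v) ≥ |v|^2`, `v = q + X f`: `f` is zero-free in the disc. -/
def Um3S : Prop := ∀ (q f : ℂ[X]), nz q = 1 → (∀ z : ℂ, ‖z‖ = 1 → q.eval z ≠ 0) → f ≠ 0 →
  (∀ z : ℂ, ‖z‖ = 1 → ‖(q + X * f).eval z‖ ^ 2 ≤
    (q.eval z * (starRingEnd ℂ) ((q + X * f).eval z)).re) → ZF f

/-! ## Nonnegative trigonometric polynomials -/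

/-- The values on the torus are real and nonnegative. -/
def NnT {O : Type} [CommRing O] [Coef O] {L : Type} [AddCommGroup L] (F : AO O L) : Prop :=
  ∀ (z : Circle) (u : AddChar L Circle), (ev z u F).im = 0 ∧ 0 ≤ (ev z u F).re

/-- The values on the circle are real and nonnegative. -/
def NnR {O : Type} [CommRing O] [Coef O] (t : RO O) : Prop :=
  ∀ z : Circle, (evR z t).im = 0 ∧ 0 ≤ (evR z t).re

/-- (NN3) coefficients of a nonnegative trigonometric polynomial. -/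
def Nn3S : Prop := ∀ (L : Type) [AddCommGroup L] [Module.Free ℤ L] [Module.Finite ℤ L]
  (p : CA L), p ≠ 0 → (∀ u : AddChar L Circle, (evC u p).im = 0 ∧ 0 ≤ (evC u p).re) →
    0 < (p.coeff 0).re ∧ ∀ a : L, a ≠ 0 → ‖p.coeff a‖ < (p.coeff 0).re

/-- (NR3) the same for the coefficients in `z`. -/
def Nr3S : Prop := ∀ (O : Type) [CommRing O] [IsDomain O] [IsPrincipalIdealRing O] [Coef O]
  (t : RO O), t ≠ 0 → NnR t →
    (Coef.emb (t.coeff 0) : ℂ).im = 0 ∧ (∀ k : ℤ, k ≠ 0 →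
      ‖(Coef.emb (t.coeff k) : ℂ)‖ < (Coef.emb (t.coeff 0) : ℂ).re ∧
      (Coef.emb (t.coeff (-k)) : ℂ) = (starRingEnd ℂ) (Coef.emb (t.coeff k))) ∧
    (t = 1 ∨ 2 ≤ (Coef.emb (t.coeff 0) : ℂ).re)

/-- (TA3) constant coefficient one. -/
def Ta3S : Prop := ∀ (O : Type) [CommRing O] [IsDomain O] [IsPrincipalIdealRing O] [Coef O]
  (L : Type) [AddCommGroup L] [Module.Free ℤ L] [Module.Finite ℤ L]
  (F : AO O L), NnT F → F.coeff 0 = 1 → F = 1

/-- (T03) the constant coefficient of `tau` is one. -/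
def T03S : Prop := ∀ (O : Type) [CommRing O] [IsDomain O] [IsPrincipalIdealRing O] [Coef O]
  (t : RO O) (m : ℤ) (q f : O[X]), t ≠ 0 → NnR t → ‖(Coef.emb (q.coeff 0) : ℂ)‖ = 1 →
    nz (q.map Coef.emb) = 1 → (∀ z : ℂ, ‖z‖ = 1 → (q.map Coef.emb).eval z ≠ 0) →
    (∀ z : Circle, (evR z t).re * ‖evR z (LaurentPolynomial.T m * toLaurent (q + X * f))‖ ^ 2 ≤
      2 * (evR z (LaurentPolynomial.T m * toLaurent q) *
        (starRingEnd ℂ) (evR z (LaurentPolynomial.T m * toLaurent (q + X * f)))).re -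
        ‖evR z (LaurentPolynomial.T m * toLaurent (q + X * f))‖ ^ 2) →
    2 * ‖(Coef.emb (f.coeff 0) : ℂ)‖ + 4 <
      M (LaurentPolynomial.T m * toLaurent (q + X * f) : RO O) → t = 1

/-! ## The quotient `q` -/

section

variable {O : Type} [CommRing O] [Coef O] {P : Type} [Fintype P] [DecidableEq P] {L : Type}
  [AddCommGroup L]

/-- The part of `D` without the ports `i0` and `j`. -/
noncomputable def Xo (phi : L →+ (P → ℤ)) (D : AO O L) (i0 j : P) :
    AO O (Ker (co (phK phi (co phi i0)) j)) :=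
  res (Ker (co (phK phi (co phi i0)) j)) (res (Ker (co phi i0)) D)

/-- The product of the factors different from `G l`. -/
noncomputable def Uo (phi : L →+ (P → ℤ)) (i0 j : P) {n : ℕ} (G : Fin n → AO O (Ker (co phi i0)))
    (l : Fin n) : AO O (Ker (co (phK phi (co phi i0)) j)) :=
  ∏ i ∈ Finset.univ.erase l, res (Ker (co (phK phi (co phi i0)) j)) (G i)

/-- The context: a small non-pure factor `G l = g (1 - w^b / e)` and the quotient `q`. -/
structure QC (phi : L →+ (P → ℤ)) (D : AO O L) (S : L) (i0 : P) (eta : (RO O)ˣ)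
    (h : co phi i0 S = 1) (c : RO O) (n : ℕ) (G : Fin n → AO O (Ker (co phi i0))) (l : Fin n)
    (b : Ker (co phi i0)) (j : P) (e : (RO O)ˣ) (hj : co (phK phi (co phi i0)) j b = 1)
    (q : AO O (Ker (co (phK phi (co phi i0)) j))) : Prop where
  fd : FD phi D S i0 eta h c n G
  sp : Spt phi S i0 G l b j e
  q0 : q ≠ 0
  xe : Xl phi D i0 b j hj e = q * Uo phi i0 j G l
  rq : q * cst (rsh (c * (G l).coeff 0)) = sharp q * cst (c * (G l).coeff 0)

/-- The normal form `D = (1 - x y) U + (1 - x) (1 - y) H`, `x = w^b / e`, `y = w^S / eta`. -/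
structure PairF (phi : L →+ (P → ℤ)) (D : AO O L) (S b : L) (eta e : (RO O)ˣ) (U H : AO O L) :
    Prop where
  eq : D = (1 - AddMonoidAlgebra.single (b + S) (((e⁻¹ * eta⁻¹ : (RO O)ˣ)) : RO O)) * U +
    (1 - AddMonoidAlgebra.single b ((e⁻¹ : (RO O)ˣ) : RO O)) *
      (1 - AddMonoidAlgebra.single S ((eta⁻¹ : (RO O)ˣ) : RO O)) * H
  bS : Bin phi S
  bb : Bin phi b
  S0 : S ≠ 0
  b0 : b ≠ 0
  dis : ∀ i, phi S i = 0 ∨ phi b i = 0
  sU : ∀ a ∈ supp U, Bin phi a ∧ ∀ i, phi a i = 0 ∨ (phi S i = 0 ∧ phi b i = 0)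
  sH : ∀ a ∈ supp H, Bin phi a ∧ ∀ i, phi a i = 0 ∨ (phi S i = 0 ∧ phi b i = 0)
  U0 : U.coeff 0 ≠ 0
  H0 : H.coeff 0 ≠ 0

/-- The swapped element. -/
noncomputable def swp (S b : L) (eta e : (RO O)ˣ) (U H : AO O L) : AO O L :=
  (1 - AddMonoidAlgebra.single (b + S) (((e⁻¹ * eta⁻¹ : (RO O)ˣ)) : RO O)) * H +
    (1 - AddMonoidAlgebra.single b ((e⁻¹ : (RO O)ˣ) : RO O)) *
      (1 - AddMonoidAlgebra.single S ((eta⁻¹ : (RO O)ˣ) : RO O)) * U

end

/-- (QC3) existence of the context. -/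
def Qc3S : Prop := ∀ (O : Type) [CommRing O] [IsDomain O] [IsPrincipalIdealRing O] [Coef O]
  (P L : Type) [Fintype P] [DecidableEq P] [AddCommGroup L] [Module.Free ℤ L]
  [Module.Finite ℤ L] (phi : L →+ (P → ℤ)) (D : AO O L) (S : L) (i0 : P) (eta : (RO O)ˣ)
  (h : co phi i0 S = 1) (c : RO O) (n : ℕ) (G : Fin n → AO O (Ker (co phi i0))),
    FD phi D S i0 eta h c n G → (snp phi S i0 G).Nonempty →
      ∃ (l : Fin n) (b : Ker (co phi i0)) (j : P) (e : (RO O)ˣ)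
        (hj : co (phK phi (co phi i0)) j b = 1)
        (q : AO O (Ker (co (phK phi (co phi i0)) j))), QC phi D S i0 eta h c n G l b j e hj q

/-- (QU3) unitarity: `X V^# + X^# V - V V^# = q g^# U U^#`. -/
def Qu3S : Prop := ∀ (O : Type) [CommRing O] [IsDomain O] [IsPrincipalIdealRing O] [Coef O]
  (P L : Type) [Fintype P] [DecidableEq P] [AddCommGroup L] [Module.Free ℤ L]
  [Module.Finite ℤ L] (phi : L →+ (P → ℤ)) (D : AO O L) (S : L) (i0 : P) (eta : (RO O)ˣ)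
  (h : co phi i0 S = 1) (c : RO O) (n : ℕ) (G : Fin n → AO O (Ker (co phi i0))) (l : Fin n)
  (b : Ker (co phi i0)) (j : P) (e : (RO O)ˣ) (hj : co (phK phi (co phi i0)) j b = 1)
  (q : AO O (Ker (co (phK phi (co phi i0)) j))), QC phi D S i0 eta h c n G l b j e hj q →
    Xo phi D i0 j * sharp (cst (c * (G l).coeff 0) * Uo phi i0 j G l) +
      sharp (Xo phi D i0 j) * (cst (c * (G l).coeff 0) * Uo phi i0 j G l) -
      (cst (c * (G l).coeff 0) * Uo phi i0 j G l) *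
        sharp (cst (c * (G l).coeff 0) * Uo phi i0 j G l) =
    q * cst (rsh (c * (G l).coeff 0)) * (Uo phi i0 j G l * sharp (Uo phi i0 j G l))

/-- (QV3) stability of the part without the port `j`: in the disc, with `V = g U`,
`2 Re (X conj V) ≥ |V|^2`; `V` is zero-free in the disc. Slices in the lattice without the ports
`i0`, `j`. -/
def Qv3S : Prop := ∀ (O : Type) [CommRing O] [IsDomain O] [IsPrincipalIdealRing O] [Coef O]
  (P L : Type) [Fintype P] [DecidableEq P] [AddCommGroup L] [Module.Free ℤ L]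
  [Module.Finite ℤ L] (phi : L →+ (P → ℤ)) (D : AO O L) (S : L) (i0 : P) (eta : (RO O)ˣ)
  (h : co phi i0 S = 1) (c : RO O) (n : ℕ) (G : Fin n → AO O (Ker (co phi i0))) (l : Fin n)
  (b : Ker (co phi i0)) (j : P) (e : (RO O)ˣ) (hj : co (phK phi (co phi i0)) j b = 1)
  (q : AO O (Ker (co (phK phi (co phi i0)) j))), QC phi D S i0 eta h c n G l b j e hj q →
    (∃ lam : Ker (co (phK phi (co phi i0)) j) →+ ℤ, Pos lam (Xo phi D i0 j) ∧
      Pos lam (Uo phi i0 j G l)) ∧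
    (∀ z : Circle, evR z ((Uo phi i0 j G l).coeff 0) ≠ 0) ∧
    ∀ lam : Ker (co (phK phi (co phi i0)) j) →+ ℤ, Pos lam (Xo phi D i0 j) →
      Pos lam (Uo phi i0 j G l) → ∀ z : Circle, ∀ (u : AddChar (Ker (co (phK phi (co phi i0)) j)) Circle)
        (s : ℂ), ‖s‖ < 1 →
        (sl u lam (spec z (Uo phi i0 j G l))).eval s ≠ 0 ∧
        ‖evR z (c * (G l).coeff 0) * (sl u lam (spec z (Uo phi i0 j G l))).eval s‖ ^ 2 ≤
          2 * ((sl u lam (spec z (Xo phi D i0 j))).eval s * (starRingEnd ℂ)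
            (evR z (c * (G l).coeff 0) * (sl u lam (spec z (Uo phi i0 j G l))).eval s)).re

/-- (QP3) `q g^#` is nonnegative on the torus. -/
def Qp3S : Prop := ∀ (O : Type) [CommRing O] [IsDomain O] [IsPrincipalIdealRing O] [Coef O]
  (P L : Type) [Fintype P] [DecidableEq P] [AddCommGroup L] [Module.Free ℤ L]
  [Module.Finite ℤ L] (phi : L →+ (P → ℤ)) (D : AO O L) (S : L) (i0 : P) (eta : (RO O)ˣ)
  (h : co phi i0 S = 1) (c : RO O) (n : ℕ) (G : Fin n → AO O (Ker (co phi i0))) (l : Fin n)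
  (b : Ker (co phi i0)) (j : P) (e : (RO O)ˣ) (hj : co (phK phi (co phi i0)) j b = 1)
  (q : AO O (Ker (co (phK phi (co phi i0)) j))), QC phi D S i0 eta h c n G l b j e hj q →
    NnT (q * cst (rsh (c * (G l).coeff 0)))

/-- (QM3) the inequality for the constant coefficients. -/
def Qm3S : Prop := ∀ (O : Type) [CommRing O] [IsDomain O] [IsPrincipalIdealRing O] [Coef O]
  (P L : Type) [Fintype P] [DecidableEq P] [AddCommGroup L] [Module.Free ℤ L]
  [Module.Finite ℤ L] (phi : L →+ (P → ℤ)) (D : AO O L) (S : L) (i0 : P) (eta : (RO O)ˣ)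
  (h : co phi i0 S = 1) (c : RO O) (n : ℕ) (G : Fin n → AO O (Ker (co phi i0))) (l : Fin n)
  (b : Ker (co phi i0)) (j : P) (e : (RO O)ˣ) (hj : co (phK phi (co phi i0)) j b = 1)
  (q : AO O (Ker (co (phK phi (co phi i0)) j))), QC phi D S i0 eta h c n G l b j e hj q →
    ∀ z : Circle, (evR z (q.coeff 0) * (starRingEnd ℂ) (evR z (c * (G l).coeff 0))).re *
        ‖evR z (D.coeff 0 + (eta : RO O) * D.coeff S)‖ ^ 2 ≤
      (2 * (evR z (D.coeff 0) *
          (starRingEnd ℂ) (evR z (D.coeff 0 + (eta : RO O) * D.coeff S))).re -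
        ‖evR z (D.coeff 0 + (eta : RO O) * D.coeff S)‖ ^ 2) *
        ‖evR z (c * (G l).coeff 0)‖ ^ 2

/-- (DV3) `g` divides `q`. -/
def Dv3S : Prop := ∀ (O : Type) [CommRing O] [IsDomain O] [IsPrincipalIdealRing O] [Coef O]
  (P L : Type) [Fintype P] [DecidableEq P] [AddCommGroup L] [Module.Free ℤ L]
  [Module.Finite ℤ L] (phi : L →+ (P → ℤ)) (D : AO O L) (S : L) (i0 : P) (eta : (RO O)ˣ)
  (h : co phi i0 S = 1) (c : RO O) (n : ℕ) (G : Fin n → AO O (Ker (co phi i0))) (l : Fin n)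
  (b : Ker (co phi i0)) (j : P) (e : (RO O)ˣ) (hj : co (phK phi (co phi i0)) j b = 1)
  (q : AO O (Ker (co (phK phi (co phi i0)) j))), QC phi D S i0 eta h c n G l b j e hj q →
    M c = 1 → ∀ (m : ℤ) (v : O[X]),
      D.coeff 0 + (eta : RO O) * D.coeff S = LaurentPolynomial.T m * toLaurent v →
      (∀ z0 : ℂ, ‖z0‖ = 1 → ¬ (X - C z0) ^ 2 ∣ v.map Coef.emb) →
      ∃ F : AO O (Ker (co (phK phi (co phi i0)) j)), q = cst (c * (G l).coeff 0) * F ∧ NnT F

/-- (ST3) the normal form. -/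
def St3S : Prop := ∀ (O : Type) [CommRing O] [IsDomain O] [IsPrincipalIdealRing O] [Coef O]
  (P L : Type) [Fintype P] [DecidableEq P] [AddCommGroup L] [Module.Free ℤ L]
  [Module.Finite ℤ L] (phi : L →+ (P → ℤ)) (D : AO O L) (S : L) (i0 : P) (eta : (RO O)ˣ)
  (h : co phi i0 S = 1) (c : RO O) (n : ℕ) (G : Fin n → AO O (Ker (co phi i0))) (l : Fin n)
  (b : Ker (co phi i0)) (j : P) (e : (RO O)ˣ) (hj : co (phK phi (co phi i0)) j b = 1)
  (q : AO O (Ker (co (phK phi (co phi i0)) j))), QC phi D S i0 eta h c n G l b j e hj q →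
    q = cst (c * (G l).coeff 0) → D.coeff 0 + 2 * ((eta : RO O) * D.coeff S) ≠ 0 →
      ∃ U H : AO O L, PairF phi D S (b : L) eta e U H ∧
        U.coeff 0 = D.coeff 0 + (eta : RO O) * D.coeff S ∧
        H.coeff 0 = -((eta : RO O) * D.coeff S)

/-- (SW3) the swap. -/
def Sw3S : Prop := ∀ (O : Type) [CommRing O] [IsDomain O] [IsPrincipalIdealRing O] [Coef O]
  (P L : Type) [Fintype P] [DecidableEq P] [AddCommGroup L] [Module.Free ℤ L]
  [Module.Finite ℤ L] (phi : L →+ (P → ℤ)) (D : AO O L) (S b : L) (eta e : (RO O)ˣ)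
  (U H : AO O L), DD phi D → PairF phi D S b eta e U H →
    (∀ z : Circle, evR z (D.coeff 0) ≠ 0) →
    DD phi (swp S b eta e U H) ∧ Ray (swp S b eta e U H) b ∧ Ray (swp S b eta e U H) S ∧
    (swp S b eta e U H).coeff 0 = D.coeff 0 ∧
    (e : RO O) * (swp S b eta e U H).coeff b = -(U.coeff 0) ∧
    (eta : RO O) * (swp S b eta e U H).coeff S = -(U.coeff 0)

/-- (E3M) RESULT of chapter E3. -/
def E3mS : Prop := ∀ (O : Type) [CommRing O] [IsDomain O] [IsPrincipalIdealRing O] [Coef O]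
  (P L : Type) [Fintype P] [DecidableEq P] [AddCommGroup L] [Module.Free ℤ L]
  [Module.Finite ℤ L] (phi : L →+ (P → ℤ)) (D : AO O L) (S : L) (i0 : P) (eta : (RO O)ˣ)
  (h : co phi i0 S = 1) (c : RO O) (n : ℕ) (G : Fin n → AO O (Ker (co phi i0))),
    FD phi D S i0 eta h c n G → M c = 1 → (snp phi S i0 G).Nonempty →
    ∀ (m : ℤ) (q f : O[X]), D.coeff 0 = LaurentPolynomial.T m * toLaurent q →
      (eta : RO O) * D.coeff S = LaurentPolynomial.T m * toLaurent (X * f) →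
      ‖(Coef.emb (q.coeff 0) : ℂ)‖ = 1 → nz (q.map Coef.emb) = 1 →
      2 * ‖(Coef.emb (f.coeff 0) : ℂ)‖ + 4 < M (D.coeff 0 + (eta : RO O) * D.coeff S) →
        ZF (f.map Coef.emb) ∧ ∃ (D' : AO O L) (b : L) (e : (RO O)ˣ), DD phi D' ∧ Ray D' b ∧
          D'.coeff 0 = D.coeff 0 ∧
          (e : RO O) * D'.coeff b = -(D.coeff 0 + (eta : RO O) * D.coeff S) ∧
          D'.coeff 0 + (e : RO O) * D'.coeff b = -((eta : RO O) * D.coeff S)

end Pool.Agent.B5
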