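import Pool.Agent.Lib.MP_b5021c_nt.IfaceE2
import Pool.Agent.Lib.MP_b5021c_nt.IfaceE3

/-!
# Board b5, stage 3, chapter E3V: terminal case for elements of class V (PaperE3V.md)

`D` of class `V` with a closing whose constant coefficient is of class `V(1)`:
`rank ≤ 2 Re (D_0/V_0)(a)` for all `|a| ≤ 1/15`.
-/

namespace Pool.Agent.B5

open scoped LaurentPolynomial Topology
open Polynomial

/-- (PAI) integrability: `2q/v - 1` has a nonnegative real part on the circle. -/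
def PaiS : Prop := ∀ q v : ℂ[X], (∀ z : ℂ, ‖z‖ ≤ 1 → q.eval z ≠ 0) →
  (∀ z : ℂ, ‖z‖ < 1 → v.eval z ≠ 0) →
  (∀ z : ℂ, ‖z‖ = 1 → ‖v.eval z - q.eval z‖ ≤ ‖q.eval z‖) →
    CircleIntegrable (fun z => (q.eval z / v.eval z).re) 0 1

/-- (PAV) the Poisson inequality for `2q/v - 1`, at the point `a`. -/
def PavS : Prop := ∀ (q v r : ℂ[X]) (a : ℂ), (∀ z : ℂ, ‖z‖ ≤ 1 → q.eval z ≠ 0) →
  (∀ z : ℂ, ‖z‖ < 1 → v.eval z ≠ 0) →
  (∀ z : ℂ, ‖z‖ = 1 → ‖v.eval z - q.eval z‖ ≤ ‖q.eval z‖) → ‖a‖ < 1 →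
  (∀ z : ℂ, ‖z‖ = 1 → v.eval z ≠ 0 → (r.eval z).re = 2 * (q.eval z / v.eval z).re - 1) →
    (r.eval a).re ≤ 2 * (q.eval a / v.eval a).re - 1

/-- (TRG) masses for any load into class `V(1)` with integrable quotient (TRM without the
hypothesis on the class of `D`). -/
def TrgS : Prop := ∀ (O : Type) [CommRing O] [IsDomain O] [IsPrincipalIdealRing O] [Coef O]
  (P L : Type) [Fintype P] [DecidableEq P] [AddCommGroup L] [Module.Free ℤ L]
  [Module.Finite ℤ L] (phi : L →+ (P → ℤ)) (D : AO O L) (S : L) (eta : (RO O)ˣ),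
    DD phi D → 2 ≤ Module.finrank ℤ L → Ray D S →
    ClassV 1 (D.coeff 0 + (eta : RO O) * D.coeff S) →
    CircleIntegrable (fun z => (evL z (D.coeff 0) /
      evL z (D.coeff 0 + (eta : RO O) * D.coeff S)).re) 0 1 →
      ∃ (i0 : P) (n : ℕ) (f : Fin n → (Ker (co phi i0) →+ ℤ)) (T : ∀ i, AO O (Ker (f i))),
        (∀ i, T i ≠ 0) ∧ (∀ i, Npos (T i)) ∧
        Module.finrank ℤ L ≤ 1 + ∑ i, (1 + rk (supp (T i))) ∧
        ∀ z : Circle, evR z (D.coeff 0 + (eta : RO O) * D.coeff S) ≠ 0 →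
          (evR z (∑ i, (T i).coeff 0)).re =
            2 * (evR z (D.coeff 0) / evR z (D.coeff 0 + (eta : RO O) * D.coeff S)).re - 1

/-- (TRV) TERMINAL CASE in class V: a load into class `V(1)`. -/
def TrvS : Prop := ∀ (O : Type) [CommRing O] [IsDomain O] [IsPrincipalIdealRing O] [Coef O]
  (P L : Type) [Fintype P] [DecidableEq P] [AddCommGroup L] [Module.Free ℤ L]
  [Module.Finite ℤ L] (phi : L →+ (P → ℤ)) (D : AO O L) (S : L) (eta : (RO O)ˣ) (m : ℤ)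
  (q v : O[X]),
    DD phi D → 2 ≤ Module.finrank ℤ L → Ray D S →
    D.coeff 0 = LaurentPolynomial.T m * toLaurent q →
    D.coeff 0 + (eta : RO O) * D.coeff S = LaurentPolynomial.T m * toLaurent v →
    ZF (q.map Coef.emb) → ZF (v.map Coef.emb) → ‖(Coef.emb (v.coeff 0) : ℂ)‖ = 1 →
      ∀ a : ℂ, ‖a‖ ≤ 1 / 15 →
        (Module.finrank ℤ L : ℝ) ≤
          2 * ((q.map Coef.emb).eval a / (v.map Coef.emb).eval a).re

/-! ## Part (A): small non-pure factors at a load of class `V` -/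

/-- (ND3V) no double zero on the circle, `q` zero-free. -/
def Nd3vS : Prop := ∀ (q v : ℂ[X]) (z0 : ℂ), (∀ z : ℂ, ‖z‖ ≤ 1 → q.eval z ≠ 0) →
  (∀ z : ℂ, ‖z‖ = 1 → 0 ≤ (v.eval z * (starRingEnd ℂ) (q.eval z)).re) → v ≠ 0 →
  ‖z0‖ = 1 → ¬ (X - C z0) ^ 2 ∣ v

/-- (UM3V) `Re (q conj v) ≥ |v|^2`, `v = q + b`, `q` zero-free: `b` is zero-free in the disc. -/
def Um3vS : Prop := ∀ (q b : ℂ[X]), (∀ z : ℂ, ‖z‖ ≤ 1 → q.eval z ≠ 0) → b ≠ 0 →
  (∀ z : ℂ, ‖z‖ = 1 → ‖(q + b).eval z‖ ^ 2 ≤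
    (q.eval z * (starRingEnd ℂ) ((q + b).eval z)).re) → ZF b

/-- (T03V) the constant coefficient of `tau` is one, class `V`. -/
def T03vS : Prop := ∀ (O : Type) [CommRing O] [IsDomain O] [IsPrincipalIdealRing O] [Coef O]
  (t : RO O) (q b : O[X]), t ≠ 0 → NnR t →
    (∀ z : ℂ, ‖z‖ ≤ 1 → (q.map Coef.emb).eval z ≠ 0) → ZF ((q + b).map Coef.emb) →
    (∀ z : ℂ, ‖z‖ = 1 → ‖(b.map Coef.emb).eval z‖ ≤ ‖(q.map Coef.emb).eval z‖) →
    (∀ z : Circle, (evR z t).re * ‖((q + b).map Coef.emb).eval (z : ℂ)‖ ^ 2 ≤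
      2 * ((q.map Coef.emb).eval (z : ℂ) *
        (starRingEnd ℂ) (((q + b).map Coef.emb).eval (z : ℂ))).re -
        ‖((q + b).map Coef.emb).eval (z : ℂ)‖ ^ 2) →
    2 * ‖(Coef.emb (b.coeff 0) : ℂ)‖ < ‖(Coef.emb ((q + b).coeff 0) : ℂ)‖ → t = 1

/-- (E3VA) E3 for class `V`: a load between elements of class `V` with `2 |b(0)| < |v(0)|`. -/
def E3vaS : Prop := ∀ (O : Type) [CommRing O] [IsDomain O] [IsPrincipalIdealRing O] [Coef O]
  (P L : Type) [Fintype P] [DecidableEq P] [AddCommGroup L] [Module.Free ℤ L]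
  [Module.Finite ℤ L] (phi : L →+ (P → ℤ)) (D : AO O L) (S : L) (i0 : P) (eta : (RO O)ˣ)
  (h : co phi i0 S = 1) (c : RO O) (n : ℕ) (G : Fin n → AO O (Ker (co phi i0))),
    FD phi D S i0 eta h c n G → M c = 1 → (snp phi S i0 G).Nonempty →
    ∀ (m : ℤ) (q b : O[X]), D.coeff 0 = LaurentPolynomial.T m * toLaurent q →
      (eta : RO O) * D.coeff S = LaurentPolynomial.T m * toLaurent b →
      ZF (q.map Coef.emb) → ZF ((q + b).map Coef.emb) →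
      2 * ‖(Coef.emb (b.coeff 0) : ℂ)‖ < ‖(Coef.emb ((q + b).coeff 0) : ℂ)‖ →
        ZF (b.map Coef.emb) ∧ ∃ (D' : AO O L) (b' : L) (e : (RO O)ˣ), DD phi D' ∧ Ray D' b' ∧
          D'.coeff 0 = D.coeff 0 ∧
          (e : RO O) * D'.coeff b' = -(D.coeff 0 + (eta : RO O) * D.coeff S) ∧
          D'.coeff 0 + (e : RO O) * D'.coeff b' = -((eta : RO O) * D.coeff S)

/-- (E3V) RESULT of chapter E3V: a small non-pure factor at a class `V` load with `|b(0)| = 1`. -/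
def E3vS : Prop := ∀ (O : Type) [CommRing O] [IsDomain O] [IsPrincipalIdealRing O] [Coef O]
  (P L : Type) [Fintype P] [DecidableEq P] [AddCommGroup L] [Module.Free ℤ L]
  [Module.Finite ℤ L] (phi : L →+ (P → ℤ)) (D : AO O L) (S : L) (i0 : P) (eta : (RO O)ˣ)
  (h : co phi i0 S = 1) (c : RO O) (n : ℕ) (G : Fin n → AO O (Ker (co phi i0))),
    FD phi D S i0 eta h c n G → M c = 1 → (snp phi S i0 G).Nonempty →
    ∀ (m : ℤ) (q b : O[X]), D.coeff 0 = LaurentPolynomial.T m * toLaurent q →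
      (eta : RO O) * D.coeff S = LaurentPolynomial.T m * toLaurent b →
      ZF (q.map Coef.emb) → ZF ((q + b).map Coef.emb) → ‖(Coef.emb (b.coeff 0) : ℂ)‖ = 1 →
      2 < ‖(Coef.emb ((q + b).coeff 0) : ℂ)‖ →
        ZF (b.map Coef.emb) ∧ ∀ a : ℂ, ‖a‖ ≤ 1 / 15 →
          (Module.finrank ℤ L : ℝ) ≤
            -(2 * ((q.map Coef.emb).eval a / (b.map Coef.emb).eval a).re)

end Pool.Agent.B5
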