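import Pool.Agent.Lib.MP_b5021c_nt.IfaceS2
import Pool.Agent.Lib.MP_b5021c_nt.IfaceE0
import Pool.Agent.Lib.MP_b5021c_nt.IfaceE3V
import Pool.Agent.Lib.MP_b5021c_nt.B.H40.LoadBase

/-!
# Board b5, stage 3, chapter EV: class V over the Eisenstein integers (PaperEV.md)

RESULT: an element of `DD` over `Eis` whose constant coefficient is of class `V(|α|)`, `α` in `Eis`,
has rank at most `Bev (norm α)`: `1` for a unit, `7` for norm `12`, `⌊2 |α|⌋` otherwise.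
-/

namespace Pool.Agent.B5

open scoped LaurentPolynomial
open Polynomial
open Pool.Agent.MP_b5021c_nt (Eis)
open Pool.Agent.B5.H40 (uT)

/-- The bound, as a function of the norm. -/
def Bev (n : ℕ) : ℕ := if n = 1 then 1 else if n = 12 then 7 else Nat.sqrt (4 * n)

/-- The contribution of the big factors, `n` the product of their norms (`1`: no big factor). -/
def Bbg (n : ℕ) : ℕ := if n = 1 then 0 else Bev n

/-- The norm of an Eisenstein integer, as a natural number. -/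
def nE (x : Eis) : ℕ := x.norm.natAbs

/-- `al` and `de` enclose an angle of at most 60 degrees:
`2 Re (conj al de) = norm al + norm de - norm (al - de) ≥ |al| |de|`. -/
def Cone60 (al de : Eis) : Prop :=
  0 ≤ al.norm + de.norm - (al - de).norm ∧
    al.norm * de.norm ≤ (al.norm + de.norm - (al - de).norm) ^ 2

/-! ## Numbers -/

/-- (EV_MON) monotonicity and superadditivity. -/
def EvmS : Prop := Monotone Bev ∧ (∀ n : ℕ, 1 ≤ n → n ≠ 12 → (Bev n : ℝ) ≤ 2 * Real.sqrt n) ∧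
  (∀ n : ℕ, (Bev n : ℝ) ≤ 2 * Real.sqrt n + 1) ∧
  ∀ (ι : Type) (s : Finset ι) (x : ι → ℕ), (∀ i ∈ s, 3 ≤ x i) →
    ∑ i ∈ s, Bev (x i) ≤ Bbg (∏ i ∈ s, x i)

/-- (EV_POT) potential lemma. -/
def EvpS : Prop := ∀ al de : Eis, de ≠ 0 → nE de < nE al → Cone60 al de →
  nE (al - de) < nE al ∧ 1 + Bev (nE (al - de)) ≤ Bev (nE al)

/-- (EV_TAB) a drop at one of the two best loads, small factors at the other one. -/
def EvtS : Prop := ∀ al de : Eis, de ≠ 0 → nE de < nE al → Cone60 al de → nE al ≤ 3 * nE de →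
  ∀ cn nb t : ℕ, (nb = 1 ∨ 3 ≤ nb) → cn * nb = nE (al - de) →
    (t : ℝ) * Real.sqrt nb * Real.sqrt (nE (al - de)) + nE de ≤ nE al →
      1 + t + Bbg nb ≤ Bev (nE al) ∨ (nE al = 7 ∧ nE de = 3)

/-- (EV_SEV) norms 7 and 3. -/
def Ev7S : Prop := ∀ al m : Eis, nE al = 7 → nE m = 3 → ∃ v : Eisˣ, nE (al + v * m) = 1

/-- (EV_BST) the two best loads. [uses BstS] -/
def EvbS : Prop := ∀ al m : Eis, ∃ v₁ v₂ : Eisˣ, (∀ k : ℤ, Adj (uT v₁ k) (uT v₂ k)) ∧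
  ∀ v : Eisˣ, (v = v₁ ∨ v = v₂) → Cone60 al (-(v * m))

/-! ## Loads -/

/-- (EV_LOD) the six loads in class `V`. [uses VZS MevS A6S EvRS; parts of B/H16/Lsv.lean] -/
def EvlS : Prop := ∀ (N : ℝ) (Q F : RO Eis), ClassV N Q → F ≠ 0 → (∀ z : Circle, evR z Q ≠ 0) →
  (∀ z : Circle, ‖evR z F‖ ≤ ‖evR z Q‖) → (∃ z : Circle, ‖evR z F‖ ≠ ‖evR z Q‖) →
    ∃ (n m : ℤ) (q f : Eis[X]), Q = LaurentPolynomial.T n * toLaurent q ∧
      F = LaurentPolynomial.T m * toLaurent f ∧ ZF (q.map Coef.emb) ∧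
      ‖(Coef.emb (q.coeff 0) : ℂ)‖ = N ∧ f.coeff 0 ≠ 0 ∧ nE (f.coeff 0) < nE (q.coeff 0) ∧
      (nE (f.coeff 0) : ℝ) ≤ M F ^ 2 ∧
      ∀ v : Eisˣ,
        Q + ((uT v (n - m) : (RO Eis)ˣ) : RO Eis) * F =
          LaurentPolynomial.T n * toLaurent (q + C (v : Eis) * f) ∧
        ZF ((q + C (v : Eis) * f).map Coef.emb) ∧
        ClassV ‖(Coef.emb (q.coeff 0 + v * f.coeff 0) : ℂ)‖
          (Q + ((uT v (n - m) : (RO Eis)ˣ) : RO Eis) * F) ∧
        ‖mn (((uT v (n - m) : (RO Eis)ˣ) : RO Eis) * F) Q‖ ^ 2 =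
          (nE (f.coeff 0) : ℝ) / nE (q.coeff 0)

/-! ## Drops and small factors -/

/-- (EV_ONE) there is an extreme ray at which at most one load has a drop.
[uses Fl2S E2S RkUSS UnitRS] -/
def EvoS : Prop := ∀ (O : Type) [CommRing O] [IsDomain O] [IsPrincipalIdealRing O] [Coef O]
  (P L : Type) [Fintype P] [DecidableEq P] [AddCommGroup L] [Module.Free ℤ L]
  [Module.Finite ℤ L] (phi : L →+ (P → ℤ)) (D : AO O L), DD phi D → 2 ≤ Module.finrank ℤ L →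
    ∃ S : L, Ray D S ∧ ∀ (i0 : P) (h : co phi i0 S = 1) (e e' : (RO O)ˣ), e ≠ e' →
      Module.finrank ℤ L = rk (supp (cl (co phi i0) S h e D)) + 1 ∨
      Module.finrank ℤ L = rk (supp (cl (co phi i0) S h e' D)) + 1

/-- (EV_BPS) strong form of (B'): small non-pure factors at two different loads are impossible.
[uses SmallS SpjS BpeS QstS QraS ComS RkS, helper78's B/H78/Bpd.lean] -/
def EvsS : Prop := ∀ (O : Type) [CommRing O] [IsDomain O] [IsPrincipalIdealRing O] [Coef O]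
  (P L : Type) [Fintype P] [DecidableEq P] [AddCommGroup L] [Module.Free ℤ L]
  [Module.Finite ℤ L] (phi : L →+ (P → ℤ)) (D : AO O L) (S : L) (i0 : P) (eta₁ eta₂ : (RO O)ˣ)
  (h : co phi i0 S = 1) (c₁ c₂ : RO O) (n₁ n₂ : ℕ) (G₁ : Fin n₁ → AO O (Ker (co phi i0)))
  (G₂ : Fin n₂ → AO O (Ker (co phi i0))),
    FD phi D S i0 eta₁ h c₁ n₁ G₁ → FD phi D S i0 eta₂ h c₂ n₂ G₂ → eta₁ ≠ eta₂ →
    3 ≤ Module.finrank ℤ L →
    rk (supp (cl (co phi i0) S h eta₁ D)) = Module.finrank ℤ (Ker (co phi i0)) →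
    rk (supp (cl (co phi i0) S h eta₂ D)) = Module.finrank ℤ (Ker (co phi i0)) →
      snp phi S i0 G₁ = ∅ ∨ snp phi S i0 G₂ = ∅

/-- (EV_APG) as `ApfS`, for a mean of modulus less than `1/√3`. [uses EvRS] -/
def ApgS : Prop := ∀ (O : Type) [CommRing O] [IsDomain O] [IsPrincipalIdealRing O] [Coef O]
  (D0 DS g q0 U0 : RO O) (e₁ e₂ : (RO O)ˣ), Adj e₁ e₂ → (∀ z : Circle, evR z D0 ≠ 0) →
    3 * ‖mn ((e₂ : RO O) * DS) D0‖ ^ 2 < 1 →
    D0 + (e₁ : RO O) * DS = (1 - (e₁ : RO O) * ((e₂⁻¹ : (RO O)ˣ) : RO O)) * (q0 * U0) →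
    D0 + (e₂ : RO O) * DS = g * U0 → rsh g * q0 = g * rsh q0 → False

/-- (EV_APH) as `AprS`, for a mean of modulus less than `1/√3`. [uses SmallS KmuS ApaS ApgS E2S] -/
def AphS : Prop := ∀ (O : Type) [CommRing O] [IsDomain O] [IsPrincipalIdealRing O] [Coef O]
  (P L : Type) [Fintype P] [DecidableEq P] [AddCommGroup L] [Module.Free ℤ L]
  [Module.Finite ℤ L] (phi : L →+ (P → ℤ)) (D : AO O L) (S : L) (i0 : P) (eta : (RO O)ˣ)
  (h : co phi i0 S = 1) (c : RO O) (n : ℕ) (G : Fin n → AO O (Ker (co phi i0))),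
    FD phi D S i0 eta h c n G →
      rk (supp (cl (co phi i0) S h eta D)) = Module.finrank ℤ (Ker (co phi i0)) →
      ∀ eta' : (RO O)ˣ, Adj eta' eta → D.coeff 0 + (eta' : RO O) * D.coeff S ≠ 0 →
        3 * ‖mn ((eta : RO O) * D.coeff S) (D.coeff 0)‖ ^ 2 < 1 →
        rk (supp (cl (co phi i0) S h eta' D)) < Module.finrank ℤ (Ker (co phi i0)) →
          snp phi S i0 G = ∅

/-- (EV_LSB) pointwise inequality, with the term of `D_S`. [as `LsaS`: B/H40/Lsa.lean] -/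
def LsbS : Prop := ∀ (O : Type) [CommRing O] [IsDomain O] [IsPrincipalIdealRing O] [Coef O]
  (P L : Type) [Fintype P] [DecidableEq P] [AddCommGroup L] [Module.Free ℤ L]
  [Module.Finite ℤ L] (phi : L →+ (P → ℤ)) (D : AO O L) (S : L) (i0 : P) (eta : (RO O)ˣ)
  (h : co phi i0 S = 1) (c : RO O) (n : ℕ) (G : Fin n → AO O (Ker (co phi i0))),
    FD phi D S i0 eta h c n G → ∃ q : Fin n → RO O, (∀ l, q l ≠ 0) ∧
      ∀ z : Circle, (∑ l ∈ snp phi S i0 G, ‖evR z (q l)‖ * ∏ i ∈ big G, ‖evR z ((G i).coeff 0)‖) *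
        ‖evR z (D.coeff 0 + (eta : RO O) * D.coeff S)‖ + ‖evR z (D.coeff S)‖ ^ 2 ≤
          ‖evR z (D.coeff 0)‖ ^ 2

/-- (EV_LSN) number of small non-pure factors, third bound. [uses LsbS A2S MmulS] -/
def LsnS : Prop := ∀ (O : Type) [CommRing O] [IsDomain O] [IsPrincipalIdealRing O] [Coef O]
  (P L : Type) [Fintype P] [DecidableEq P] [AddCommGroup L] [Module.Free ℤ L]
  [Module.Finite ℤ L] (phi : L →+ (P → ℤ)) (D : AO O L) (S : L) (i0 : P) (eta : (RO O)ˣ)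
  (h : co phi i0 S = 1) (c : RO O) (n : ℕ) (G : Fin n → AO O (Ker (co phi i0))),
    FD phi D S i0 eta h c n G →
      ((snp phi S i0 G).card : ℝ) * (∏ i ∈ big G, M ((G i).coeff 0)) *
        M (D.coeff 0 + (eta : RO O) * D.coeff S) + M (D.coeff S) ^ 2 ≤ M (D.coeff 0) ^ 2

/-! ## Recursion -/

/-- (EV_CEV) one closing, with facet ports. [uses ClpS G1pS LsnS MVS E1S MmulS EvmS] -/
def CevS : Prop := ∀ (P L : Type) [Fintype P] [DecidableEq P] [AddCommGroup L] [Module.Free ℤ L]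
  [Module.Finite ℤ L] (phi : L →+ (P → ℤ)) (D : AO Eis L) (S : L) (i0 : P) (eta : (RO Eis)ˣ)
  (h : co phi i0 S = 1) (c : RO Eis) (n : ℕ) (G : Fin n → AO Eis (Ker (co phi i0))) (al be m : Eis),
    FP phi D → FD phi D S i0 eta h c n G → ClassV ‖(Coef.emb al : ℂ)‖ (D.coeff 0) →
    ClassV ‖(Coef.emb be : ℂ)‖ (D.coeff 0 + (eta : RO Eis) * D.coeff S) →
    (nE m : ℝ) ≤ M (D.coeff S) ^ 2 → nE be < nE al →
    (∀ ga : Eis, nE ga < nE al → BdV Eis ‖(Coef.emb ga : ℂ)‖ (Bev (nE ga))) →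
      ∃ cn nb : ℕ, (nb = 1 ∨ 3 ≤ nb) ∧ cn * nb = nE be ∧
        rk (supp (cl (co phi i0) S h eta D)) ≤ (snp phi S i0 G).card + Bbg nb ∧
        ((snp phi S i0 G).card : ℝ) * Real.sqrt nb * Real.sqrt (nE be) + nE m ≤ nE al

/-- (EV_JEV) the induction step, with facet ports.
[uses EvoS EvlS EvbS EvpS EvtS Ev7S EvmS EvsS AphS CevS TrvS FDS E2S RkS AdjSyS MVS] -/
def JevS : Prop := ∀ (P L : Type) [Fintype P] [DecidableEq P] [AddCommGroup L] [Module.Free ℤ L]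
  [Module.Finite ℤ L] (phi : L →+ (P → ℤ)) (D : AO Eis L) (al : Eis), FP phi D →
    3 ≤ Module.finrank ℤ L → ClassV ‖(Coef.emb al : ℂ)‖ (D.coeff 0) →
    (∀ ga : Eis, nE ga < nE al → BdV Eis ‖(Coef.emb ga : ℂ)‖ (Bev (nE ga))) →
      Module.finrank ℤ L ≤ Bev (nE al)

/-- (EV_FIN) CLASS V. [uses JevS FpRedS E2S EvlS EvmS] -/
def EvS : Prop := ∀ al : Eis, BdV Eis ‖(Coef.emb al : ℂ)‖ (Bev (nE al))

/-- (EV_FNR) the form used later. [uses EvS EvmS] -/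
def EvrS : Prop := BdV Eis 1 1 ∧ (∀ N : ℝ, BdV Eis N (2 * N + 1)) ∧
  (∀ N : ℝ, N ^ 2 ≠ 12 → BdV Eis N (2 * N)) ∧ (∀ N : ℝ, 4 ≤ N → BdV Eis N (2 * N))

end Pool.Agent.B5
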