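import Pool.Agent.Lib.MP_b5021c_nt.IfaceE0
import Pool.Agent.Lib.MP_b5021c_nt.IfaceL2

/-!
# Board b5, stage 3, chapter E4: mutual rays, normal form, double closings (PaperE4.md)

`S0`, `S1` mutual rays with the loads `e0`, `e1` (loads with a drop); `x = w^S0 / e0`,
`y = w^S1 / e1`, `A = e0 D_S0 = e1 D_S1`.  The class of `a` modulo `S0`, `S1` is
`w^a (p x^i y^j + r (1 - x) (1 - y))`.  A double closing is `x = t0`, `y = t1`, that is
`w^S0 = e0 t0`, `w^S1 = e1 t1`.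
-/

namespace Pool.Agent.B5

open scoped LaurentPolynomial

section

variable {O : Type} [CommRing O] [Coef O] {P : Type} [Fintype P] [DecidableEq P] {L : Type}
  [AddCommGroup L]

/-- Mutual rays `S0`, `S1` with the loads `e0`, `e1`. -/
structure Mut {O : Type} [CommRing O] {L : Type} [AddCommGroup L] (D : AO O L) (S0 S1 : L)
    (e0 e1 : (RO O)ˣ) : Prop where
  r0 : Ray D S0
  r1 : Ray D S1
  m0 : S1 ∉ US e0 S0 D
  m1 : S0 ∉ US e1 S1 D

/-- `a` is disjoint from `S0` and from `S1`. -/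
def Out (phi : L →+ (P → ℤ)) (S0 S1 a : L) : Prop := ∀ i, phi a i = 0 ∨ (phi S0 i = 0 ∧ phi S1 i = 0)

/-- `b` meets `S` in a proper part of `S`. -/
def Part (phi : L →+ (P → ℤ)) (S b : L) : Prop :=
  (∃ i, phi b i = 1 ∧ phi S i = 1) ∧ ∃ i, phi b i = 0 ∧ phi S i = 1

/-- Real coefficients. -/
def RlR {O : Type} [CommRing O] [Coef O] (p : RO O) : Prop :=
  ∀ k : ℤ, Coef.conj (p.coeff k) = p.coeff k

/-- The class of `a` modulo `S0`, `S1` is `w^a (p x^i y^j + r (1 - x) (1 - y))`,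
`x = w^S0 / e0`, `y = w^S1 / e1`. -/
structure Nf {O : Type} [CommRing O] {L : Type} [AddCommGroup L] (D : AO O L) (S0 S1 : L)
    (e0 e1 : (RO O)ˣ) (a : L) (i j : ℕ) (p r : RO O) : Prop where
  i1 : i ≤ 1
  j1 : j ≤ 1
  c00 : D.coeff a = (if i = 0 ∧ j = 0 then p else 0) + r
  c10 : (e0 : RO O) * D.coeff (a + S0) = (if i = 1 ∧ j = 0 then p else 0) - r
  c01 : (e1 : RO O) * D.coeff (a + S1) = (if i = 0 ∧ j = 1 then p else 0) - r
  c11 : (e0 : RO O) * (e1 : RO O) * D.coeff (a + S0 + S1) = (if i = 1 ∧ j = 1 then p else 0) + r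

/-- The data of a double closing: a port `i0` in `S0`; `T` is `S1` as an element of the first
kernel; `k1` is the functional of a port `i1` in `S1` on the first kernel (for instance
`co (phK phi (co phi i0)) i1`, or `co (phO phi S0 i0) i1` for `i1` outside `S0`). -/
structure Dp (phi : L →+ (P → ℤ)) (S0 S1 : L) where
  i0 : P
  h0 : co phi i0 S0 = 1
  T : Ker (co phi i0)
  eT : (T : L) = S1
  i1 : P
  k1 : Ker (co phi i0) →+ ℤ
  hk : ∀ a : Ker (co phi i0), k1 a = phi (a : L) i1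
  h1 : k1 T = 1

/-- The double closing `w^S0 = u0`, `w^S1 = u1`. -/
noncomputable def dc {phi : L →+ (P → ℤ)} {S0 S1 : L} (X : Dp phi S0 S1) (u0 u1 : (RO O)ˣ)
    (D : AO O L) : AO O (Ker X.k1) :=
  cl X.k1 X.T X.h1 u1 (cl (co phi X.i0) S0 X.h0 u0 D)

/-- `mu` vanishes on `S0`, `S1` and on the exponents of the double closing `w^S0 = u0`,
`w^S1 = u1`. -/
structure Kil (phi : L →+ (P → ℤ)) (D : AO O L) (S0 S1 : L) (u0 u1 : (RO O)ˣ) (mu : L →+ ℤ) :
    Prop where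
  s0 : mu S0 = 0
  s1 : mu S1 = 0
  free : ∀ a : L, Out phi S0 S1 a → mu a ≠ 0 →
    D.coeff a + (u0 : RO O) * D.coeff (a + S0) + (u1 : RO O) * D.coeff (a + S1) +
      (u0 : RO O) * (u1 : RO O) * D.coeff (a + S0 + S1) = 0
  part : ∀ b ∈ supp D, Part phi S0 b ∨ Part phi S1 b → mu b = 0

end

/-! ## Mutual rays -/

/-- (E4_MXU) a ray with the smallest drop (for the loads `eta`) is mutual with every ray outside
`U_S`, which has the same drop. [uses F3S] -/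
def MxuS : Prop := ∀ (O : Type) [CommRing O] [IsDomain O] [IsPrincipalIdealRing O] [Coef O]
  (P L : Type) [Fintype P] [DecidableEq P] [AddCommGroup L] [Module.Free ℤ L]
  [Module.Finite ℤ L] (phi : L →+ (P → ℤ)) (D : AO O L) (eta : L → (RO O)ˣ) (S : L),
    Function.Injective phi → (∀ a ∈ supp D, Bin phi a) → Ray D S →
    (∀ T, Ray D T →
      Module.finrank ℤ (US (eta T) T D) ≤ Module.finrank ℤ (US (eta S) S D)) →
      ∀ T, Ray D T → T ∉ US (eta S) S D →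
        S ∉ US (eta T) T D ∧
        Module.finrank ℤ (US (eta T) T D) = Module.finrank ℤ (US (eta S) S D) ∧
        satur (US (eta T) T D ⊔ Submodule.span ℤ {S}) =
          satur (US (eta S) S D ⊔ Submodule.span ℤ {T})

/-- (E4_F5M) the system of disjoint rays of `F5S`, with the maximality of `U_(S 0)` and the
independence. [uses F1S F2S F3S; copy of B/H63/F5c.lean] -/
def F5mS : Prop := ∀ (O : Type) [CommRing O] [IsDomain O] [IsPrincipalIdealRing O] [Coef O]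
  (P L : Type) [Fintype P] [DecidableEq P] [AddCommGroup L] [Module.Free ℤ L]
  [Module.Finite ℤ L] (phi : L →+ (P → ℤ)) (D : AO O L) (eta : L → (RO O)ˣ),
    Function.Injective phi → (∀ a ∈ supp D, Bin phi a) → (∃ b, Ray D b) →
    rk {b | Ray D b} = Module.finrank ℤ L →
      ∃ (g : ℕ) (S : Fin (g + 1) → L), (∀ i, Ray D (S i)) ∧
        (∀ i j, i ≠ j → ∀ p, phi (S i) p = 0 ∨ phi (S j) p = 0) ∧
        (∀ i j, i ≠ j → S j ∉ US (eta (S i)) (S i) D) ∧
        Module.finrank ℤ (US (eta (S 0)) (S 0) D) + g = Module.finrank ℤ L ∧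
        (∀ I : Finset (Fin (g + 1)), I.Nonempty →
          (∏ i ∈ I, (eta (S i) : RO O)) * D.coeff (∑ i ∈ I, S i) =
            (-1) ^ (I.card + 1) * ((eta (S 0) : RO O) * D.coeff (S 0))) ∧
        (∀ T, Ray D T → Module.finrank ℤ (US (eta T) T D) ≤
          Module.finrank ℤ (US (eta (S 0)) (S 0) D)) ∧
        ∀ j k : Fin (g + 1), j ≠ 0 → k ≠ 0 → j ≠ k →
          S k ∉ satur (US (eta (S 0)) (S 0) D ⊔ Submodule.span ℤ {S j})

/-- (E4_SL4) THE CHOICE OF THE RAY: `Fl2S` with the mutual partners. [uses E2S F5mS MxuS LMNS DRBS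
Dr7S RkUSS; as B/H84/Fl2.lean] -/
def Sl4S : Prop := ∀ (O : Type) [CommRing O] [IsDomain O] [IsPrincipalIdealRing O] [Coef O]
  (P L : Type) [Fintype P] [DecidableEq P] [AddCommGroup L] [Module.Free ℤ L]
  [Module.Finite ℤ L] (phi : L →+ (P → ℤ)) (D : AO O L) (eta : L → (RO O)ˣ), DD phi D →
    2 ≤ Module.finrank ℤ L →
    (∀ S, Ray D S → D.coeff 0 + (eta S : RO O) * D.coeff S ≠ 0) →
      ∃ (S : L) (g : ℕ), Ray D S ∧
        Module.finrank ℤ (US (eta S) S D) + g = Module.finrank ℤ L ∧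
        (∀ (i0 : P) (h : co phi i0 S = 1),
          Module.finrank ℤ L = rk (supp (cl (co phi i0) S h (eta S) D)) + 1 + g) ∧
        ((g : ℝ) - 1) * M (D.coeff S) ≤ M (D.coeff 0) ∧
        (g ≤ 4 ∨ Real.sqrt 3 ^ (g + 1) ≤ M (D.coeff 0 + (eta S : RO O) * D.coeff S)) ∧
        (1 ≤ g → ∀ e : (RO O)ˣ, e ≠ eta S → ∀ (i0 : P) (h : co phi i0 S = 1),
          Module.finrank ℤ L = rk (supp (cl (co phi i0) S h e D)) + 1) ∧
        (1 ≤ g → ∃ S1, Mut D S S1 (eta S) (eta S1)) ∧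
        (2 ≤ g → ∃ S1 S2, Mut D S S1 (eta S) (eta S1) ∧ Mut D S S2 (eta S) (eta S2) ∧
          S2 ∉ satur (US (eta S1) S1 D ⊔ Submodule.span ℤ {S}) ∧
          S1 ∉ satur (US (eta S2) S2 D ⊔ Submodule.span ℤ {S})) ∧
        ∀ T, Ray D T → T ∉ US (eta S) S D → Mut D S T (eta S) (eta T) ∧
          Module.finrank ℤ (US (eta T) T D) + g = Module.finrank ℤ L ∧
          ∀ T', Ray D T' → T' ∉ US (eta T) T D → Mut D T T' (eta T) (eta T')

/-- (E4_MCO) mutual rays are disjoint and have the same coefficient up to a unit.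
[uses F1S F2S] -/
def McoS : Prop := ∀ (O : Type) [CommRing O] [IsDomain O] [IsPrincipalIdealRing O] [Coef O]
  (P L : Type) [Fintype P] [DecidableEq P] [AddCommGroup L] [Module.Free ℤ L]
  [Module.Finite ℤ L] (phi : L →+ (P → ℤ)) (D : AO O L) (S0 S1 : L) (e0 e1 : (RO O)ˣ),
    Function.Injective phi → (∀ a ∈ supp D, Bin phi a) → Mut D S0 S1 e0 e1 →
      (∀ i, phi S0 i = 0 ∨ phi S1 i = 0) ∧
      (e1 : RO O) * D.coeff S1 = (e0 : RO O) * D.coeff S0 ∧
      (e0 : RO O) * (e1 : RO O) * D.coeff (S0 + S1) = -((e0 : RO O) * D.coeff S0) ∧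
      Nonempty (Dp phi S0 S1)

/-- (E4_MFC) the two-dimensional face of mutual rays is zero-free on the bidisc.
[uses E2S PolyS AsanoS McoS] -/
def MfcS : Prop := ∀ (O : Type) [CommRing O] [IsDomain O] [IsPrincipalIdealRing O] [Coef O]
  (P L : Type) [Fintype P] [DecidableEq P] [AddCommGroup L] [Module.Free ℤ L]
  [Module.Finite ℤ L] (phi : L →+ (P → ℤ)) (D : AO O L) (S0 S1 : L) (e0 e1 : (RO O)ˣ),
    DD phi D → 2 ≤ Module.finrank ℤ L → Mut D S0 S1 e0 e1 →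
      ∀ (z : Circle) (x y : ℂ), ‖x‖ < 1 → ‖y‖ < 1 →
        evR z (D.coeff 0) + evR z ((e0 : RO O) * D.coeff S0) * (x + y - x * y) ≠ 0

/-! ## Classes modulo two mutual rays -/

/-- (E4_MPA) the exponents: either a class with one member (it meets `S0` or `S1` properly), or
`a + p S0 + q S1` with `a` disjoint from `S0` and `S1`. [uses F1S McoS; H47/Mut.lean, part] -/
def MpaS : Prop := ∀ (O : Type) [CommRing O] [IsDomain O] [IsPrincipalIdealRing O] [Coef O]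
  (P L : Type) [Fintype P] [DecidableEq P] [AddCommGroup L] [Module.Free ℤ L]
  [Module.Finite ℤ L] (phi : L →+ (P → ℤ)) (D : AO O L) (S0 S1 : L) (e0 e1 : (RO O)ˣ),
    Function.Injective phi → (∀ a ∈ supp D, Bin phi a) → Mut D S0 S1 e0 e1 → ∀ b ∈ supp D,
      ((Part phi S0 b ∨ Part phi S1 b) ∧
        ∀ k l : ℤ, D.coeff (b + k • S0 + l • S1) ≠ 0 → k = 0 ∧ l = 0) ∨
      (¬ (Part phi S0 b ∨ Part phi S1 b) ∧
        ∃ (a : L) (p q : ℕ), p ≤ 1 ∧ q ≤ 1 ∧ Out phi S0 S1 a ∧ b = a + p • S0 + q • S1)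

/-- (E4_MNF) THE NORMAL FORM. [uses F1S McoS; H47/Mut.lean, nf] -/
def MnfS : Prop := ∀ (O : Type) [CommRing O] [IsDomain O] [IsPrincipalIdealRing O] [Coef O]
  (P L : Type) [Fintype P] [DecidableEq P] [AddCommGroup L] [Module.Free ℤ L]
  [Module.Finite ℤ L] (phi : L →+ (P → ℤ)) (D : AO O L) (S0 S1 : L) (e0 e1 : (RO O)ˣ),
    Function.Injective phi → (∀ a ∈ supp D, Bin phi a) → Mut D S0 S1 e0 e1 →
      ∀ a : L, Out phi S0 S1 a → ∃ (i j : ℕ) (p r : RO O), Nf D S0 S1 e0 e1 a i j p r ∧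
        (p ≠ 0 → a + i • S0 + j • S1 ∈ US e0 S0 D ∧ a + i • S0 + j • S1 ∈ US e1 S1 D)

/-- (E4_MDC) the coefficients of a double closing. [H47/Mut.lean, ccl_coeff] -/
def MdcS : Prop := ∀ (O : Type) [CommRing O] [IsDomain O] [IsPrincipalIdealRing O] [Coef O]
  (P L : Type) [Fintype P] [DecidableEq P] [AddCommGroup L] [Module.Free ℤ L]
  [Module.Finite ℤ L] (phi : L →+ (P → ℤ)) (D : AO O L) (S0 S1 : L),
    Function.Injective phi → (∀ a ∈ supp D, Bin phi a) → Bin phi S0 → Bin phi S1 →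
    (∀ i, phi S0 i = 0 ∨ phi S1 i = 0) → ∀ (X : Dp phi S0 S1) (u0 u1 : (RO O)ˣ),
      (∀ a : L, Out phi S0 S1 a →
        ∃ x : Ker X.k1, ((x : Ker (co phi X.i0)) : L) = a ∧
          (dc X u0 u1 D).coeff x = D.coeff a + (u0 : RO O) * D.coeff (a + S0) +
            (u1 : RO O) * D.coeff (a + S1) + (u0 : RO O) * (u1 : RO O) * D.coeff (a + S0 + S1)) ∧
      (dc X u0 u1 D).coeff 0 = D.coeff 0 + (u0 : RO O) * D.coeff S0 +
        (u1 : RO O) * D.coeff S1 + (u0 : RO O) * (u1 : RO O) * D.coeff (S0 + S1)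

/-- (E4_RNK) the rank of a double closing. [uses RkS MpaS MdcS; H47/Mut.lean, kill] -/
def RnkS : Prop := ∀ (O : Type) [CommRing O] [IsDomain O] [IsPrincipalIdealRing O] [Coef O]
  (P L : Type) [Fintype P] [DecidableEq P] [AddCommGroup L] [Module.Free ℤ L]
  [Module.Finite ℤ L] (phi : L →+ (P → ℤ)) (D : AO O L) (S0 S1 : L) (e0 e1 : (RO O)ˣ),
    Function.Injective phi → (∀ a ∈ supp D, Bin phi a) → Mut D S0 S1 e0 e1 →
      ∀ (X : Dp phi S0 S1) (u0 u1 : (RO O)ˣ),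
        (rk (supp (dc X u0 u1 D)) + 2 = Module.finrank ℤ L ↔
          ∀ mu : L →+ ℤ, Kil phi D S0 S1 u0 u1 mu → mu = 0)

/-! ## Drop at least two -/

/-- (E4_T2F) three mutual rays: every double closing with `t0 ≠ 1`, `t1 ≠ 1` has full rank.
[uses F1S McoS RnkS VcoS] -/
def T2fS : Prop := ∀ (O : Type) [CommRing O] [IsDomain O] [IsPrincipalIdealRing O] [Coef O]
  (P L : Type) [Fintype P] [DecidableEq P] [AddCommGroup L] [Module.Free ℤ L]
  [Module.Finite ℤ L] (phi : L →+ (P → ℤ)) (D : AO O L) (S0 S1 S2 : L)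
  (e0 e1 e2 t0 t1 : (RO O)ˣ), DD phi D → Mut D S0 S1 e0 e1 → Mut D S0 S2 e0 e2 →
    S2 ∉ satur (US e1 S1 D ⊔ Submodule.span ℤ {S0}) →
    S1 ∉ satur (US e2 S2 D ⊔ Submodule.span ℤ {S0}) → t0 ≠ 1 → t1 ≠ 1 →
      ∀ X : Dp phi S0 S1, rk (supp (dc X (e0 * t0) (e1 * t1) D)) + 2 = Module.finrank ℤ L

/-! ## Real elements: drop exactly one, and the double closing `(w, w)` has a drop -/

/-- (E4_VP2) THE DOUBLE CLOSING `(-1/z, z)`: full rank, and `A` is a coefficient up to a unit.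
[uses E2S McoS MdcS RnkS MnfS MpaS; H47/Mut.lean, vfr] -/
def Vp2S : Prop := ∀ (O : Type) [CommRing O] [IsDomain O] [IsPrincipalIdealRing O] [Coef O]
  (P L : Type) [Fintype P] [DecidableEq P] [AddCommGroup L] [Module.Free ℤ L]
  [Module.Finite ℤ L] (phi : L →+ (P → ℤ)) (D : AO O L) (eta : L → (RO O)ˣ) (S0 S1 : L)
  (w t0 t1 : (RO O)ˣ), DD phi D → 2 ≤ Module.finrank ℤ L →
    (∀ a, RlR (D.coeff a)) → (∀ S, RlR (eta S : RO O)) → Mut D S0 S1 (eta S0) (eta S1) →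
    (∀ T, Ray D T → T ∉ US (eta S0) S0 D → Mut D S0 T (eta S0) (eta T)) →
    (∀ T, Ray D T → T ∉ US (eta S1) S1 D → Mut D S1 T (eta S1) (eta T)) →
    (w : RO O) * (w : RO O) + 1 = (w : RO O) → (t0 : RO O) = -LaurentPolynomial.T (-1) →
    (t1 : RO O) = LaurentPolynomial.T 1 → ∀ X : Dp phi S0 S1,
      rk (supp (dc X (eta S0 * w) (eta S1 * w) D)) + 2 ≠ Module.finrank ℤ L →
        rk (supp (dc X (eta S0 * t0) (eta S1 * t1) D)) + 2 = Module.finrank ℤ L ∧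
        (∃ x, x ≠ 0 ∧ ∃ u : (RO O)ˣ,
          (dc X (eta S0 * t0) (eta S1 * t1) D).coeff x = (u : RO O) * D.coeff S0) ∧
        (dc X (eta S0 * t0) (eta S1 * t1) D).coeff 0 = D.coeff 0 +
          (eta S0 : RO O) * D.coeff S0 *
            (1 + LaurentPolynomial.T 1 - LaurentPolynomial.T (-1))

/-- (E4_VS2) `Vp2S` with a sign: `x = -sg/z`, `y = sg z`, `sg = ±1`. [as VP2] -/
def Vs2S : Prop := ∀ (O : Type) [CommRing O] [IsDomain O] [IsPrincipalIdealRing O] [Coef O]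
  (P L : Type) [Fintype P] [DecidableEq P] [AddCommGroup L] [Module.Free ℤ L]
  [Module.Finite ℤ L] (phi : L →+ (P → ℤ)) (D : AO O L) (eta : L → (RO O)ˣ) (S0 S1 : L)
  (w t0 t1 : (RO O)ˣ) (sg : O), DD phi D → 2 ≤ Module.finrank ℤ L →
    (∀ a, RlR (D.coeff a)) → (∀ S, RlR (eta S : RO O)) → Mut D S0 S1 (eta S0) (eta S1) →
    (∀ T, Ray D T → T ∉ US (eta S0) S0 D → Mut D S0 T (eta S0) (eta T)) →
    (∀ T, Ray D T → T ∉ US (eta S1) S1 D → Mut D S1 T (eta S1) (eta T)) →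
    (w : RO O) * (w : RO O) + 1 = (w : RO O) → sg * sg = 1 →
    (t0 : RO O) = -(LaurentPolynomial.C sg * LaurentPolynomial.T (-1)) →
    (t1 : RO O) = LaurentPolynomial.C sg * LaurentPolynomial.T 1 → ∀ X : Dp phi S0 S1,
      rk (supp (dc X (eta S0 * w) (eta S1 * w) D)) + 2 ≠ Module.finrank ℤ L →
        rk (supp (dc X (eta S0 * t0) (eta S1 * t1) D)) + 2 = Module.finrank ℤ L ∧
        (∃ x, x ≠ 0 ∧ ∃ u : (RO O)ˣ,
          (dc X (eta S0 * t0) (eta S1 * t1) D).coeff x = (u : RO O) * D.coeff S0) ∧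
        (dc X (eta S0 * t0) (eta S1 * t1) D).coeff 0 = D.coeff 0 +
          (eta S0 : RO O) * D.coeff S0 *
            (1 + LaurentPolynomial.C sg * LaurentPolynomial.T 1 -
              LaurentPolynomial.C sg * LaurentPolynomial.T (-1))

end Pool.Agent.B5
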