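import Pool.Agent.Lib.MP_b5021c_nt.IfaceG
import Pool.Agent.Lib.MP_b5021c_nt.B.H71.Com

/-!
# Board b5, stage 3, chapter E2: TERMINAL CASES (PaperE2.md)

A load of type A1 whose closed element has only small factors gives the exact bound
`rank ≤ 2 (θ - 1/θ)` (all drops and pure factors included), and `θ ≥ (rank + 1)/2` for odd rank
over `ℤ`.
-/

namespace Pool.Agent.B5

open scoped LaurentPolynomial Topology
open Polynomial
open Pool.Agent.B5.H71 (em)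

example {L : Type} [AddCommGroup L] [Module.Free ℤ L] [Module.Finite ℤ L] (k : L →+ ℤ)
    (f : Ker k →+ ℤ) : Module.Free ℤ (Ker f) ∧ Module.Finite ℤ (Ker f) :=
  ⟨inferInstance, inferInstance⟩

section

variable {O : Type} [CommRing O] [Coef O] {L : Type} [AddCommGroup L]

/-- The factor `1 - e⁻¹ w^b`. -/
noncomputable def sfa (b : L) (e : (RO O)ˣ) : AO O L :=
  1 - AddMonoidAlgebra.single b ((e⁻¹ : (RO O)ˣ) : RO O)

/-- The denominator `c ∏ (1 - e_i⁻¹ w^(b_i))`. -/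
noncomputable def den (c : RO O) {n : ℕ} (b : Fin n → L) (e : Fin n → (RO O)ˣ) : AO O L :=
  cst c * ∏ i, sfa (b i) (e i)

/-- The Poisson mean at `a` of the real part of `p`. -/
noncomputable def pmn (a : ℂ) (p : RO O) : ℝ :=
  Real.circleAverage (fun z => (1 - ‖a‖ ^ 2) / ‖z - a‖ ^ 2 * (evL z p).re) 0 1

/-- Non-negative (self-adjoint) elements. -/
def Npos (T : AO O L) : Prop :=
  sharp T = T ∧ ∀ (z : Circle) (u : AddChar L Circle), 0 ≤ (ev z u T).re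

/-- A terminal pair: numerator `B`, denominator `H = c ∏ (1 - x_i)` with independent `x_i`
(dual functionals `f_i`), `B/H + (B/H)^# = r`, `Re (B/H) ≥ 0` inside. -/
structure TPair (r : ℕ) (lam : L →+ ℤ) (B : AO O L) (c : RO O) (n : ℕ) (b : Fin n → L)
    (f : Fin n → (L →+ ℤ)) (e : Fin n → (RO O)ˣ) : Prop where
  c0 : c ≠ 0
  dual : ∀ i j, f i (b j) = if i = j then 1 else 0
  pb : ∀ i, 0 < lam (b i)
  pB : Pos lam B
  un : B * sharp (den c b e) + sharp B * den c b e = (r : AO O L) * (den c b e * sharp (den c b e))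
  pos : ∀ z : Circle, evR z c ≠ 0 → ∀ (u : AddChar L Circle) (s : ℂ), ‖s‖ < 1 →
    0 ≤ ((sl u lam (spec z B)).eval s *
      (starRingEnd ℂ) ((sl u lam (spec z (den c b e))).eval s)).re
  cop : ∀ (i : Fin n) (h : f i (b i) = 1), cl (f i) (b i) h (e i) B ≠ 0

/-- The residues of a terminal pair. -/
def Residues (B : AO O L) {n : ℕ} (b : Fin n → L) (f : Fin n → (L →+ ℤ))
    (e : Fin n → (RO O)ˣ) (q : ∀ i, AO O (Ker (f i))) : Prop :=
  ∀ (i : Fin n) (h : f i (b i) = 1),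
    cl (f i) (b i) h (e i) B =
      q i * ∏ j ∈ Finset.univ.erase i, cl (f i) (b i) h (e i) (sfa (b j) (e j))

/-- Reciprocity of the residues. -/
def Recip (c : RO O) {n : ℕ} (f : Fin n → (L →+ ℤ)) (q : ∀ i, AO O (Ker (f i))) : Prop :=
  ∀ i, q i * cst (rsh c) = sharp (q i) * cst c

/-- `V` arises from `Q` by a load of type A: the lowest exponent goes up by one, `V/z` is
zero-free in the disc and has a lowest coefficient of modulus `N'`. -/
def TypA (N' : ℝ) (Q V : RO O) : Prop :=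
  ∃ (n : ℤ) (q e : O[X]), Q = LaurentPolynomial.T n * toLaurent q ∧
    V = LaurentPolynomial.T (n + 1) * toLaurent e ∧ ‖(Coef.emb (q.coeff 0) : ℂ)‖ = 1 ∧
    ‖(Coef.emb (e.coeff 0) : ℂ)‖ = N' ∧ ∀ z : ℂ, ‖z‖ < 1 → (e.map Coef.emb).eval z ≠ 0

end

/-! ## The strong form of Lemma NT (results of chapter E1) -/

/-- (SNT) -/
def SntS : Prop := ∀ (O : Type) [CommRing O] [IsDomain O] [IsPrincipalIdealRing O] [Coef O]
  (L : Type) [AddCommGroup L] [Module.Free ℤ L] [Module.Finite ℤ L] (T : AO O L), T ≠ 0 → Npos T →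
    ∀ a : ℂ, ‖a‖ ≤ 1 / 15 → 1 + (rk (supp T) : ℝ) ≤ pmn a (T.coeff 0)

/-- (SNO) sharp form over `ℤ`. -/
def SnoS : Prop := ∀ (L : Type) [AddCommGroup L] [Module.Free ℤ L] [Module.Finite ℤ L]
  (T : AO ℤ L), T ≠ 0 → Npos T → ∀ a : ℂ, ‖a‖ ≤ 1 / 30 →
    2 + (rk (supp T) : ℤ) ≤ (T.coeff 0).coeff 0 →
      2 + (rk (supp T) : ℝ) - 2 * ‖a‖ ≤ pmn a (T.coeff 0)

/-! ## Dual system (E2.1) -/

/-- (DUS) if all factors are small, their exponents are independent. -/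
def DusS : Prop := ∀ (O : Type) [CommRing O] [IsDomain O] [IsPrincipalIdealRing O] [Coef O]
  (P L : Type) [Fintype P] [DecidableEq P] [AddCommGroup L] [Module.Free ℤ L]
  [Module.Finite ℤ L] (phi : L →+ (P → ℤ)) (D : AO O L) (S : L) (i0 : P) (eta : (RO O)ˣ)
  (h : co phi i0 S = 1) (c : RO O) (n : ℕ) (G : Fin n → AO O (Ker (co phi i0))),
    FD phi D S i0 eta h c n G → (∀ i, ¬ 1 < M ((G i).coeff 0)) →
      ∃ (b : Fin n → Ker (co phi i0)) (f : Fin n → (Ker (co phi i0) →+ ℤ)) (e : Fin n → (RO O)ˣ),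
        (∀ i, IsUnit ((G i).coeff 0)) ∧ (∀ i, G i = cst ((G i).coeff 0) * sfa (b i) (e i)) ∧
        ∀ i j, f i (b j) = if i = j then 1 else 0

/-- (TPU) unitarity: `X V^# + X^# V = V V^#`. -/
def TpuS : Prop := ∀ (O : Type) [CommRing O] [IsDomain O] [IsPrincipalIdealRing O] [Coef O]
  (P L : Type) [Fintype P] [DecidableEq P] [AddCommGroup L] [Module.Free ℤ L]
  [Module.Finite ℤ L] (phi : L →+ (P → ℤ)) (D : AO O L) (S : L) (i0 : P) (eta : (RO O)ˣ)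
  (h : co phi i0 S = 1), CC phi D S i0 eta →
    res (Ker (co phi i0)) D * sharp (cl (co phi i0) S h eta D) +
      sharp (res (Ker (co phi i0)) D) * cl (co phi i0) S h eta D =
    cl (co phi i0) S h eta D * sharp (cl (co phi i0) S h eta D)

/-- (TPV) positivity in the disc. -/
def TpvS : Prop := ∀ (O : Type) [CommRing O] [IsDomain O] [IsPrincipalIdealRing O] [Coef O]
  (P L : Type) [Fintype P] [DecidableEq P] [AddCommGroup L] [Module.Free ℤ L]
  [Module.Finite ℤ L] (phi : L →+ (P → ℤ)) (D : AO O L) (S : L) (i0 : P) (eta : (RO O)ˣ)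
  (h : co phi i0 S = 1), CC phi D S i0 eta → ∀ lam : L →+ ℤ, lam S = 0 →
    (∀ a ∈ supp D, a ≠ 0 → a ≠ S → 0 < lam a) →
    ∀ z : Circle, evR z (D.coeff 0) ≠ 0 →
      ∀ (u : AddChar (Ker (co phi i0)) Circle) (s : ℂ), ‖s‖ < 1 →
        0 ≤ ((sl u (lam.comp (incl (Ker (co phi i0))))
            (spec z (res (Ker (co phi i0)) D))).eval s *
          (starRingEnd ℂ) ((sl u (lam.comp (incl (Ker (co phi i0))))
            (spec z (cl (co phi i0) S h eta D))).eval s)).re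

/-- (TPF) a closed element with small factors only gives a terminal pair. -/
def TpfS : Prop := ∀ (O : Type) [CommRing O] [IsDomain O] [IsPrincipalIdealRing O] [Coef O]
  (P L : Type) [Fintype P] [DecidableEq P] [AddCommGroup L] [Module.Free ℤ L]
  [Module.Finite ℤ L] (phi : L →+ (P → ℤ)) (D : AO O L) (S : L) (i0 : P) (eta : (RO O)ˣ)
  (h : co phi i0 S = 1) (c : RO O) (n : ℕ) (G : Fin n → AO O (Ker (co phi i0))),
    FD phi D S i0 eta h c n G → ∀ (b : Fin n → Ker (co phi i0))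
      (f : Fin n → (Ker (co phi i0) →+ ℤ)) (e : Fin n → (RO O)ˣ),
      (∀ i, IsUnit ((G i).coeff 0)) → (∀ i, G i = cst ((G i).coeff 0) * sfa (b i) (e i)) →
      (∀ i j, f i (b j) = if i = j then 1 else 0) →
      ∃ lam : Ker (co phi i0) →+ ℤ,
        TPair 1 lam (res (Ker (co phi i0)) D) (D.coeff 0 + (eta : RO O) * D.coeff S) n b f e ∧
        Module.finrank ℤ L ≤ 1 + rk (supp (res (Ker (co phi i0)) D) ∪ Set.range b)

/-! ## Terminal pairs (E2.2) -/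

/-- (TP1) divisibility: the residues exist. -/
def Tp1S : Prop := ∀ (O : Type) [CommRing O] [IsDomain O] [IsPrincipalIdealRing O] [Coef O]
  (L : Type) [AddCommGroup L] [Module.Free ℤ L] [Module.Finite ℤ L] (r : ℕ) (lam : L →+ ℤ)
  (B : AO O L) (c : RO O) (n : ℕ) (b : Fin n → L) (f : Fin n → (L →+ ℤ)) (e : Fin n → (RO O)ˣ),
    TPair r lam B c n b f e →
      ∃ q : ∀ i, AO O (Ker (f i)), Residues B b f e q ∧ ∀ i, q i ≠ 0

/-- (TP2) reciprocity. -/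
def Tp2S : Prop := ∀ (O : Type) [CommRing O] [IsDomain O] [IsPrincipalIdealRing O] [Coef O]
  (L : Type) [AddCommGroup L] [Module.Free ℤ L] [Module.Finite ℤ L] (r : ℕ) (lam : L →+ ℤ)
  (B : AO O L) (c : RO O) (n : ℕ) (b : Fin n → L) (f : Fin n → (L →+ ℤ)) (e : Fin n → (RO O)ˣ)
  (q : ∀ i, AO O (Ker (f i))), TPair r lam B c n b f e → Residues B b f e q → Recip c f q

/-- (TP3) positivity of the residues. -/
def Tp3S : Prop := ∀ (O : Type) [CommRing O] [IsDomain O] [IsPrincipalIdealRing O] [Coef O]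
  (L : Type) [AddCommGroup L] [Module.Free ℤ L] [Module.Finite ℤ L] (r : ℕ) (lam : L →+ ℤ)
  (B : AO O L) (c : RO O) (n : ℕ) (b : Fin n → L) (f : Fin n → (L →+ ℤ)) (e : Fin n → (RO O)ˣ)
  (q : ∀ i, AO O (Ker (f i))), TPair r lam B c n b f e → Residues B b f e q →
    ∀ (i : Fin n) (z : Circle) (u : AddChar (Ker (f i)) Circle), evR z c ≠ 0 →
      0 ≤ (ev z u (q i) / evR z c).re

/-- (TPX) the polynomial remainder `R`. -/
def TpxS : Prop := ∀ (O : Type) [CommRing O] [IsDomain O] [IsPrincipalIdealRing O] [Coef O]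
  (L : Type) [AddCommGroup L] [Module.Free ℤ L] [Module.Finite ℤ L] (r : ℕ) (lam : L →+ ℤ)
  (B : AO O L) (c : RO O) (n : ℕ) (b : Fin n → L) (f : Fin n → (L →+ ℤ)) (e : Fin n → (RO O)ˣ)
  (q : ∀ i, AO O (Ker (f i))), TPair r lam B c n b f e → Residues B b f e q → Recip c f q →
    ∃ R : AO O L,
      B = ∑ i, em (Ker (f i)) (q i) * ∏ j ∈ Finset.univ.erase i, sfa (b j) (e j) +
        (∏ j, sfa (b j) (e j)) * R ∧
      (∑ i, em (Ker (f i)) (q i)) * cst (rsh c) + R * cst (rsh c) + sharp R * cst c =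
        (r : AO O L) * cst (c * rsh c)

/-- (TPC) constant terms. -/
def TpcS : Prop := ∀ (O : Type) [CommRing O] [IsDomain O] [IsPrincipalIdealRing O] [Coef O]
  (L : Type) [AddCommGroup L] [Module.Free ℤ L] [Module.Finite ℤ L] (lam : L →+ ℤ)
  (B R : AO O L) (n : ℕ) (b : Fin n → L) (f : Fin n → (L →+ ℤ)) (e : Fin n → (RO O)ˣ)
  (q : ∀ i, AO O (Ker (f i))), (∀ i j, f i (b j) = if i = j then 1 else 0) →
    (∀ i, 0 < lam (b i)) → Pos lam B →
    B = ∑ i, em (Ker (f i)) (q i) * ∏ j ∈ Finset.univ.erase i, sfa (b j) (e j) +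
        (∏ j, sfa (b j) (e j)) * R →
    B.coeff 0 = ∑ i, (q i).coeff 0 + R.coeff 0

/-- (TPI) the sum of the masses. -/
def TpiS : Prop := ∀ (O : Type) [CommRing O] [IsDomain O] [IsPrincipalIdealRing O] [Coef O]
  (L : Type) [AddCommGroup L] [Module.Free ℤ L] [Module.Finite ℤ L] (r : ℕ) (lam : L →+ ℤ)
  (B : AO O L) (c : RO O) (n : ℕ) (b : Fin n → L) (f : Fin n → (L →+ ℤ)) (e : Fin n → (RO O)ˣ)
  (q : ∀ i, AO O (Ker (f i))), TPair r lam B c n b f e → Residues B b f e q → Recip c f q →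
    ∀ z : Circle, evR z c ≠ 0 →
      ∑ i, (evR z ((q i).coeff 0) / evR z c).re + r = 2 * (evR z (B.coeff 0) / evR z c).re

/-- (TPR) the rank. -/
def TprS : Prop := ∀ (O : Type) [CommRing O] [IsDomain O] [IsPrincipalIdealRing O] [Coef O]
  (L : Type) [AddCommGroup L] [Module.Free ℤ L] [Module.Finite ℤ L] (r : ℕ) (lam : L →+ ℤ)
  (B : AO O L) (c : RO O) (n : ℕ) (b : Fin n → L) (f : Fin n → (L →+ ℤ)) (e : Fin n → (RO O)ˣ)
  (q : ∀ i, AO O (Ker (f i))), TPair r lam B c n b f e → Residues B b f e q → Recip c f q →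
    rk (supp B ∪ Set.range b) ≤ ∑ i, (1 + rk (supp (q i)))

/-! ## Integrality (E2.3) -/

/-- (DVC) a quotient which is integrable on the circle is integral. -/
def DvcS : Prop := ∀ (O : Type) [CommRing O] [IsDomain O] [IsPrincipalIdealRing O] [Coef O]
  (c p : RO O), ClassV 1 c → CircleIntegrable (fun z => evL z p / evL z c) 0 1 → c ∣ p

/-- (NNW) coefficients of a nonnegative trigonometric polynomial (weak form of NN3). -/
def NnwS : Prop := ∀ (L : Type) [AddCommGroup L] [Module.Free ℤ L] [Module.Finite ℤ L]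
  (p : CA L), (∀ u : AddChar L Circle, (evC u p).im = 0 ∧ 0 ≤ (evC u p).re) →
    ∀ a : L, ‖p.coeff a‖ ≤ (p.coeff 0).re

/-- (TPM) the masses are non-negative integral trigonometric polynomials. -/
def TpmS : Prop := ∀ (O : Type) [CommRing O] [IsDomain O] [IsPrincipalIdealRing O] [Coef O]
  (L : Type) [AddCommGroup L] [Module.Free ℤ L] [Module.Finite ℤ L] (r : ℕ) (lam : L →+ ℤ)
  (B : AO O L) (c : RO O) (n : ℕ) (b : Fin n → L) (f : Fin n → (L →+ ℤ)) (e : Fin n → (RO O)ˣ),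
    TPair r lam B c n b f e → ClassV 1 c →
    CircleIntegrable (fun z => (evL z (B.coeff 0) / evL z c).re) 0 1 →
      ∃ T : ∀ i, AO O (Ker (f i)), (∀ i, T i ≠ 0) ∧ (∀ i, Npos (T i)) ∧
        (∀ z : Circle, evR z c ≠ 0 →
          (evR z (∑ i, (T i).coeff 0)).re + r = 2 * (evR z (B.coeff 0) / evR z c).re) ∧
        rk (supp B ∪ Set.range b) ≤ ∑ i, (1 + rk (supp (T i)))

/-! ## The Poisson inequality (E2.4) -/

/-- (FAT) boundary values of a function with nonnegative real part. -/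
def FatS : Prop := ∀ (C : ℂ → ℂ) (g : ℂ → ℝ) (E : Set ℂ), E.Finite →
  DifferentiableOn ℂ C (Metric.ball 0 1) → (∀ z : ℂ, ‖z‖ < 1 → 0 ≤ (C z).re) →
  (∀ z : ℂ, ‖z‖ = 1 → z ∉ E →
    Filter.Tendsto (fun t : ℝ => (C (t * z)).re) (𝓝[<] 1) (𝓝 (g z))) →
    CircleIntegrable g 0 1 ∧ Real.circleAverage g 0 1 ≤ (C 0).re

/-- (HAR) Harnack's inequality. -/
def HarS : Prop := ∀ (C : ℂ → ℂ) (a : ℂ), DifferentiableOn ℂ C (Metric.ball 0 1) →
  (∀ z : ℂ, ‖z‖ < 1 → 0 ≤ (C z).re) → ‖a‖ < 1 →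
    (1 - ‖a‖) / (1 + ‖a‖) * (C 0).re ≤ (C a).re

/-- The hypotheses of the rows PSC, PSN, PSO: `F = p/(z e)` has real part `≥ 0` on the circle, a
simple pole at `0` and no other pole in the disc, and `F + v` has exactly one zero `a` in the
disc. -/
structure PHyp (p e : ℂ[X]) (a : ℂ) (v : ℝ) : Prop where
  v0 : 0 < v
  a0 : a ≠ 0
  a1 : ‖a‖ < 1
  e0 : ∀ z : ℂ, ‖z‖ < 1 → e.eval z ≠ 0
  re : ∀ z : ℂ, ‖z‖ = 1 → 0 ≤ (p.eval z * (starRingEnd ℂ) (z * e.eval z)).re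
  nz : ∀ z : ℂ, ‖z‖ = 1 → (p + C (v : ℂ) * X * e).eval z ≠ 0
  one : (p + C (v : ℂ) * X * e).roots.filter (fun z => ‖z‖ < 1) = {a}

/-- (PSC) the function `C` (case `v = 1`). -/
def PscS : Prop := ∀ (p e : ℂ[X]) (a : ℂ), PHyp p e a 1 →
  ∃ C : ℂ → ℂ, DifferentiableOn ℂ C (Metric.ball 0 1) ∧ (∀ z : ℂ, ‖z‖ < 1 → 0 ≤ (C z).re) ∧
    C 0 = -1 - p.eval 0 / e.eval 0 * (1 / a - (starRingEnd ℂ) a) ∧
    ∀ z : ℂ, ‖z‖ < 1 → z ≠ 0 → z ≠ a →
      C z = ((1 - ‖a‖ ^ 2) * (p.eval z / (z * e.eval z)) + a / z - (starRingEnd ℂ) a * z) /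
        ((1 - a / z) * (1 - (starRingEnd ℂ) a * z))

/-- (PSN) the Poisson inequality. -/
def PsnS : Prop := ∀ (p e : ℂ[X]) (a : ℂ) (v : ℝ), PHyp p e a v →
  CircleIntegrable (fun z => (p.eval z / (z * e.eval z)).re) 0 1 ∧
  v + Real.circleAverage
      (fun z => (1 - ‖a‖ ^ 2) / ‖z - a‖ ^ 2 * (p.eval z / (z * e.eval z)).re) 0 1 ≤
    -(p.eval 0 / e.eval 0 * (1 / a - (starRingEnd ℂ) a)).re

/-- (PSO) the same with the singular part (`r` is the analytic completion of `Re F`). -/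
def PsoS : Prop := ∀ (p e r : ℂ[X]) (a : ℂ) (v : ℝ), PHyp p e a v →
  (∀ z : ℂ, ‖z‖ = 1 → e.eval z ≠ 0 → (p.eval z / (z * e.eval z)).re = (r.eval z).re) →
    (r.eval 0).re ≤ ((p.coeff 1 * e.coeff 0 - p.coeff 0 * e.coeff 1) / e.coeff 0 ^ 2).re ∧
    v + (r.eval a).re + (1 - ‖a‖) / (1 + ‖a‖) *
        (((p.coeff 1 * e.coeff 0 - p.coeff 0 * e.coeff 1) / e.coeff 0 ^ 2).re - (r.eval 0).re) ≤
      -(p.eval 0 / e.eval 0 * (1 / a - (starRingEnd ℂ) a)).re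

/-- (PSR) the Poisson inequality for a load of type A. -/
def PsrS : Prop := ∀ (O : Type) [CommRing O] [IsDomain O] [IsPrincipalIdealRing O] [Coef O]
  (θ N' : ℝ) (Q V : RO O), ClassP θ Q → (∀ z : Circle, evR z Q ≠ 0) → 1 ≤ N' → TypA N' Q V →
    (∀ z : Circle, ‖evR z (V - Q)‖ ≤ ‖evR z Q‖) → ∃ a : ℂ, ‖a‖ = θ⁻¹ ∧
      CircleIntegrable (fun z => (evL z Q / evL z V).re) 0 1 ∧
      N' * (1 + Real.circleAverage
        (fun z => (1 - ‖a‖ ^ 2) / ‖z - a‖ ^ 2 * (2 * (evL z Q / evL z V).re - 1)) 0 1) ≤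
          2 * (θ - θ⁻¹)

/-- (PMF) the Poisson mean of a Laurent polynomial. -/
def PmfS : Prop := ∀ (O : Type) [CommRing O] [IsDomain O] [IsPrincipalIdealRing O] [Coef O]
  (p : RO O) (a : ℂ), ‖a‖ < 1 → rsh p = p → ∃ r : ℂ[X], r.coeff 0 = Coef.emb (p.coeff 0) ∧
    (∀ z : Circle, (evR z p).re = (r.eval (z : ℂ)).re) ∧ pmn a p = (r.eval a).re ∧
    ∀ n : ℕ, r.coeff (n + 1) = 2 * Coef.emb (p.coeff ((n : ℤ) + 1))

/-- (PSZ) over `ℤ`: parity. -/
def PszS : Prop := ∀ (θ : ℝ) (Q V r : RO ℤ), ClassP θ Q → (∀ z : Circle, evR z Q ≠ 0) →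
  TypA 1 Q V → (∀ z : Circle, ‖evR z (V - Q)‖ ≤ ‖evR z Q‖) → rsh r = r →
    (∀ z : Circle, evR z V ≠ 0 → (evR z r).re = 2 * (evR z Q / evR z V).re - 1) →
      ∃ (a : ℂ) (m : ℕ) (t : ℤ), ‖a‖ = θ⁻¹ ∧ r.coeff 0 + m = 2 * t - 1 ∧
        1 + pmn a r + (1 - ‖a‖) / (1 + ‖a‖) * m ≤ 2 * (θ - θ⁻¹)

/-! ## Conclusions (E2.5) -/

/-- (TRM) masses for a load of type A into class `V(1)`. -/
def TrmS : Prop := ∀ (O : Type) [CommRing O] [IsDomain O] [IsPrincipalIdealRing O] [Coef O]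
  (P L : Type) [Fintype P] [DecidableEq P] [AddCommGroup L] [Module.Free ℤ L]
  [Module.Finite ℤ L] (phi : L →+ (P → ℤ)) (D : AO O L) (S : L) (eta : (RO O)ˣ) (θ : ℝ),
    DD phi D → 2 ≤ Module.finrank ℤ L → Ray D S → ClassP θ (D.coeff 0) →
    TypA 1 (D.coeff 0) (D.coeff 0 + (eta : RO O) * D.coeff S) →
      ∃ (i0 : P) (n : ℕ) (f : Fin n → (Ker (co phi i0) →+ ℤ)) (T : ∀ i, AO O (Ker (f i))),
        (∀ i, T i ≠ 0) ∧ (∀ i, Npos (T i)) ∧
        Module.finrank ℤ L ≤ 1 + ∑ i, (1 + rk (supp (T i))) ∧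
        ∀ z : Circle, evR z (D.coeff 0 + (eta : RO O) * D.coeff S) ≠ 0 →
          (evR z (∑ i, (T i).coeff 0)).re =
            2 * (evR z (D.coeff 0) / evR z (D.coeff 0 + (eta : RO O) * D.coeff S)).re - 1

/-- (TRE) TERMINAL CASE: a load of type A1 into class `V(1)`. -/
def TreS : Prop := ∀ (O : Type) [CommRing O] [IsDomain O] [IsPrincipalIdealRing O] [Coef O]
  (P L : Type) [Fintype P] [DecidableEq P] [AddCommGroup L] [Module.Free ℤ L]
  [Module.Finite ℤ L] (phi : L →+ (P → ℤ)) (D : AO O L) (S : L) (eta : (RO O)ˣ) (θ : ℝ),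
    DD phi D → 2 ≤ Module.finrank ℤ L → Ray D S → 15 ≤ θ → ClassP θ (D.coeff 0) →
    TypA 1 (D.coeff 0) (D.coeff 0 + (eta : RO O) * D.coeff S) →
      (Module.finrank ℤ L : ℝ) ≤ 2 * (θ - θ⁻¹)

/-- (TRO) TERMINAL CASE for odd rank over `ℤ`. -/
def TroS : Prop := ∀ (P L : Type) [Fintype P] [DecidableEq P] [AddCommGroup L] [Module.Free ℤ L]
  [Module.Finite ℤ L] (phi : L →+ (P → ℤ)) (D : AO ℤ L) (S : L) (eta : (RO ℤ)ˣ) (θ : ℝ),
    DD phi D → 2 ≤ Module.finrank ℤ L → Ray D S → 30 ≤ θ → ClassP θ (D.coeff 0) →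
    TypA 1 (D.coeff 0) (D.coeff 0 + (eta : RO ℤ) * D.coeff S) → Odd (Module.finrank ℤ L) →
      (Module.finrank ℤ L : ℝ) + 1 ≤ 2 * θ

end Pool.Agent.B5
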