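import Pool.Agent.Lib.MP_b5021c_nt.IfaceS4
import Pool.Agent.Lib.MP_b5021c_nt.IfaceE2
import Pool.Agent.Lib.MP_b5021c_nt.IfaceE3

/-!
# Board b5, stage 3, chapter E5: LOADS in class `P(θ)`, `θ ≥ 10^6` (PaperE5.md)

The unit of the load is contained in `f`: type A is `V = q + f` (with `q(0) + f(0) = 0`), type B is
`V = q + z f`, type C is `V = q + z² f`.  The double closing T2 is in IfaceE5T.lean.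
-/

namespace Pool.Agent.B5

open scoped LaurentPolynomial
open Polynomial
open Pool.Agent.MP_b5021c_nt (Eis nz)

/-! ## Numbers (E5.1) -/

/-- (CA5) a mutual pair: the cardioid. -/
def Ca5S : Prop := ∀ q a : ℂ,
  (∀ x y : ℂ, ‖x‖ < 1 → ‖y‖ < 1 → q + a - a * ((1 - x) * (1 - y)) ≠ 0) →
    2 * ‖a‖ * ‖q + a‖ ≤ ‖q‖ ^ 2 - ‖a‖ ^ 2 ∧
    3 * ‖a‖ ^ 2 + 2 * (a * (starRingEnd ℂ) q).re ≤ ‖q‖ ^ 2

/-- (NB5) the zero after a load of type B, fine expansion. -/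
def Nb5S : Prop := ∀ (T T' c h h0 : ℂ) (x y : ℝ), 1000000 ≤ ‖T‖ → ‖T‖ / 3 ≤ ‖T'‖ →
  ‖h‖ ≤ 3 → ‖h0‖ ≤ 1 → ‖h - h0‖ ≤ 7 / ‖T'‖ → ‖c‖ ≤ 12 / 10 →
  (T - T') * (T' + h) = c * T' →
  c * (starRingEnd ℂ) T = (‖T‖ : ℂ) * ((x : ℂ) + (y : ℂ) * Complex.I) →
    ‖T'‖ ≤ ‖T‖ - x + 2 / ‖T‖ ∧
    (‖c + h0‖ = 1 →
      ‖T'‖ ≤ ‖T‖ - x + (‖c‖ * (1 - ‖c‖) + 5 / 2 * y ^ 2) / ‖T‖ + 100 / ‖T‖ ^ 2)

/-- (NR5) the zero after a load of type B, rough estimates. -/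
def Nr5S : Prop := ∀ T T' c h : ℂ, 1000000 ≤ ‖T‖ → ‖T‖ / 3 ≤ ‖T'‖ → ‖h‖ ≤ 3 →
  (T - T') * (T' + h) = c * T' →
    (12 / 10 ≤ ‖c‖ → ‖c‖ ≤ ‖T‖ / 10 → ∀ t : ℝ, 1 / 2 ≤ t → t ≤ 1 →
      t * (‖c‖ * ‖T‖) ≤ (c * (starRingEnd ℂ) T).re → ‖T'‖ ≤ ‖T‖ - t * min ‖c‖ 2 + 1 / 10000) ∧
    (‖T‖ / 10 ≤ ‖c‖ → ‖c‖ ≤ 6 / 10 * ‖T‖ →
      Real.sqrt 3 / 2 * (‖c‖ * ‖T‖) ≤ (c * (starRingEnd ℂ) T).re →
        ‖T'‖ ≤ 23 / 25 * ‖T‖ + 7)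

/-- (NC5) the zero after a load of type C. -/
def Nc5S : Prop := ∀ T T' c h : ℂ, 1000000 ≤ ‖T‖ → ‖T‖ / 3 ≤ ‖T'‖ → ‖h‖ ≤ 3 →
  6 / 10 * ‖T‖ ≤ ‖c‖ → ‖c‖ ≤ ‖T‖ →
  Real.sqrt 3 / 2 * (‖c‖ * ‖T‖ ^ 2) ≤ (c * (starRingEnd ℂ) T ^ 2).re →
  (T - T') * (T' ^ 2 + h) = c * T' → ‖T'‖ ≤ ‖T‖ - 51 / 100

/-- (NW5) the window: `|c| θ` is at most `θ + τ + 1/10000` if neither the best nor the second best
load of type B gains enough. -/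
def Nw5S : Prop := ∀ θ C x y : ℝ, 1000000 ≤ θ → 0 ≤ C → C ^ 2 = x ^ 2 + y ^ 2 →
  Real.sqrt 3 * |y| ≤ x → 72 / 100 ≤ C → x + Real.sqrt 3 * |y| ≤ 1 + 7 / θ →
    62 / 100 ≤ x ∧ C ≤ 11 / 10 ∧
    ∀ τ : ℝ, 0 ≤ τ → τ ≤ 1 / 10 → x ≤ 1 + (3 * y ^ 2 + τ) / θ → C * θ ≤ θ + τ + 1 / 10000

/-! ## Means over the circle (E5.2) -/

/-- (MQ5) the means of `g = c/(1 - T z) + r/s`. -/
def Mq5S : Prop := ∀ (r s : ℂ[X]) (T c : ℂ) (g : ℂ → ℂ), 1 < ‖T‖ →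
  (∀ z : ℂ, ‖z‖ ≤ 1 → s.eval z ≠ 0) →
  (∀ z : ℂ, g z = c / (1 - T * z) + r.eval z / s.eval z) →
    Real.circleAverage g 0 1 = r.eval 0 / s.eval 0 ∧
    Real.circleAverage (fun z => z⁻¹ * g z) 0 1 =
      ((derivative r).eval 0 * s.eval 0 - r.eval 0 * (derivative s).eval 0) / s.eval 0 ^ 2 ∧
    Real.circleAverage (fun z => z * g z) 0 1 = -(c / T) ∧
    Real.circleAverage (fun z => z ^ 2 * g z) 0 1 = -(c / T ^ 2) ∧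
    Real.circleAverage (fun z => g z ^ 2) 0 1 = (r.eval 0 / s.eval 0) ^ 2 +
      2 * c * (r.eval 0 / s.eval 0 - r.eval T⁻¹ / s.eval T⁻¹) ∧
    Real.circleAverage (fun z => z * g z ^ 2) 0 1 = -(2 * c * (r.eval T⁻¹ / s.eval T⁻¹) / T)

/-- (BE5) Bessel's inequality for three coefficients. -/
def Be5S : Prop := ∀ g : ℂ → ℂ, ContinuousOn g (Metric.sphere 0 1) →
  ‖Real.circleAverage g 0 1‖ ^ 2 + ‖Real.circleAverage (fun z => z * g z) 0 1‖ ^ 2 +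
    ‖Real.circleAverage (fun z => z⁻¹ * g z) 0 1‖ ^ 2 ≤
      Real.circleAverage (fun z => ‖g z‖ ^ 2) 0 1

/-- (KB5) a mutual pair at a load of type B: the first coefficients of the analytic part. -/
def Kb5S : Prop := ∀ (θ : ℝ) (q f : Eis[X]) (s r : ℂ[X]) (T c : ℂ), 1000000 ≤ θ →
  PDat θ q f s r T c → ‖c‖ ≤ 11 / 10 →
  (∀ z : ℂ, ‖z‖ = 1 → 2 * ‖(f.map Eis.emb).eval z‖ * ‖((q + X * f).map Eis.emb).eval z‖ ≤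
    ‖(q.map Eis.emb).eval z‖ ^ 2 - ‖(f.map Eis.emb).eval z‖ ^ 2) →
    ‖r.eval 0‖ ≤ 42 / 100 * ‖s.eval 0‖ ∧
    ‖(derivative r).eval 0 * s.eval 0 - r.eval 0 * (derivative s).eval 0‖ ≤
      477 / 1000 * ‖s.eval 0‖ ^ 2 ∧
    IsUnit (f.coeff 0)

/-- (KC5) a mutual pair at a load of type C: the residue is not very large. -/
def Kc5S : Prop := ∀ (θ : ℝ) (q f : Eis[X]) (s r : ℂ[X]) (T c : ℂ), 1000000 ≤ θ →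
  PDat θ q f s r T c →
  (∀ z : ℂ, ‖z‖ = 1 → 3 * ‖(f.map Eis.emb).eval z‖ ^ 2 +
      2 * (z ^ 2 * (f.map Eis.emb).eval z * (starRingEnd ℂ) ((q.map Eis.emb).eval z)).re ≤
    ‖(q.map Eis.emb).eval z‖ ^ 2) →
    ‖c‖ ≤ 58 / 100 * θ

/-- (KS5) the closed coefficient is bounded by `q` (E3M, swapped element): `h(0)` is small. -/
def Ks5S : Prop := ∀ (θ : ℝ) (q f : Eis[X]) (s r : ℂ[X]) (T c : ℂ), 1000000 ≤ θ →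
  PDat θ q f s r T c →
  (∀ z : ℂ, ‖z‖ = 1 → ‖((q + X * f).map Eis.emb).eval z‖ ≤ ‖(q.map Eis.emb).eval z‖) →
    ‖r.eval 0‖ ^ 2 ≤ 2 * ‖c‖ / θ * ‖s.eval 0‖ ^ 2 ∧
    (‖c‖ ≤ 17 / 10 → IsUnit (f.coeff 0))

/-- (CU5) cusp: the closed coefficient of a mutual pair has no zero on the circle. -/
def Cu5S : Prop := ∀ q a : ℂ[X], nz q = 1 → (∀ z : ℂ, ‖z‖ = 1 → q.eval z ≠ 0) →
  (∀ z : ℂ, ‖z‖ = 1 → 2 * ‖a.eval z‖ * ‖(q + a).eval z‖ ≤ ‖q.eval z‖ ^ 2 - ‖a.eval z‖ ^ 2) →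
  q + a ≠ 0 → (∃ b : ℂ, ‖b‖ < 1 ∧ (q + a).eval b = 0) →
    ∀ z : ℂ, ‖z‖ = 1 → (q + a).eval z ≠ 0

/-! ## The loads (E5.3) -/

/-- (PV5) the unit of the load. -/
def Pv5S : Prop := ∀ (θ : ℝ) (q f : Eis[X]) (s r : ℂ[X]) (T c : ℂ) (v : Eisˣ),
  PDat θ q f s r T c →
    PDat θ q (C (v : Eis) * f) s (C (Eis.emb (v : Eis)) * r) T (Eis.emb (v : Eis) * c)

/-- (RT5) loads of type B (`k = 1`, `|c| ≤ 61/100 θ`) and of type C (`k = 2`): exactly one zero. -/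
def Rt5S : Prop := ∀ (θ : ℝ) (q f : Eis[X]) (s r : ℂ[X]) (T c : ℂ) (k : ℕ),
  1000000 ≤ θ → PDat θ q f s r T c → (k = 1 ∧ ‖c‖ ≤ 61 / 100 * θ ∨ k = 2) →
    ∃ T' h : ℂ, θ / 3 ≤ ‖T'‖ ∧ ‖h‖ ≤ 3 ∧ ‖h - r.eval 0 / s.eval 0‖ ≤ 7 / ‖T'‖ ∧
      (T - T') * (T' ^ k + h) = c * T' ∧ ClassP ‖T'‖ (toLaurent (q + X ^ k * f))

/-- (LB5) loads of type B. -/
def Lb5S : Prop := ∀ (θ : ℝ) (q f : Eis[X]) (s r : ℂ[X]) (T c : ℂ) (x y : ℝ),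
  1000000 ≤ θ → PDat θ q f s r T c →
  c * (starRingEnd ℂ) T = (θ : ℂ) * ((x : ℂ) + (y : ℂ) * Complex.I) →
    (‖c‖ ≤ 12 / 10 → ∃ θ' : ℝ, θ / 3 ≤ θ' ∧ θ' ≤ θ - x + 2 / θ ∧
      (IsUnit (f.coeff 0) →
        θ' ≤ θ - x + (‖c‖ * (1 - ‖c‖) + 5 / 2 * y ^ 2) / θ + 100 / θ ^ 2) ∧
      ClassP θ' (toLaurent (q + X * f))) ∧
    (12 / 10 ≤ ‖c‖ → ‖c‖ ≤ θ / 10 → ∃ θ' : ℝ, θ / 3 ≤ θ' ∧
      (∀ t : ℝ, 1 / 2 ≤ t → t ≤ 1 → t * ‖c‖ ≤ x → θ' ≤ θ - t * min ‖c‖ 2 + 1 / 10000) ∧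
      ClassP θ' (toLaurent (q + X * f))) ∧
    (θ / 10 ≤ ‖c‖ → ‖c‖ ≤ 6 / 10 * θ → Real.sqrt 3 / 2 * ‖c‖ ≤ x →
      ∃ θ' : ℝ, θ / 3 ≤ θ' ∧ θ' ≤ 23 / 25 * θ + 7 ∧ ClassP θ' (toLaurent (q + X * f)))

/-- (LC5) loads of type C on very heavy rays. -/
def Lc5S : Prop := ∀ (θ : ℝ) (q f : Eis[X]) (s r : ℂ[X]) (T c : ℂ),
  1000000 ≤ θ → PDat θ q f s r T c → 6 / 10 * θ ≤ ‖c‖ →
  Real.sqrt 3 / 2 * (‖c‖ * θ ^ 2) ≤ (c * (starRingEnd ℂ) T ^ 2).re →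
    ∃ θ' : ℝ, θ / 3 ≤ θ' ∧ θ' ≤ θ - 51 / 100 ∧ ClassP θ' (toLaurent (q + X ^ 2 * f))

/-- (LA5) loads of type A. -/
def La5S : Prop := ∀ (θ : ℝ) (q f : Eis[X]) (s r : ℂ[X]) (T c : ℂ),
  1000000 ≤ θ → PDat θ q f s r T c → q.coeff 0 + f.coeff 0 = 0 →
    ∃ N' : ℝ, 1 ≤ N' ∧
      N' * ‖s.eval 0‖ ^ 2 ≤ ‖c‖ * θ * ‖s.eval 0‖ ^ 2 +
        ‖(derivative r).eval 0 * s.eval 0 - r.eval 0 * (derivative s).eval 0‖ ∧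
      TypA N' (toLaurent q) (toLaurent (q + f))

/-- (LA6) loads of type A, upper and lower bound of `N'`. -/
def La6S : Prop := ∀ (θ : ℝ) (q f : Eis[X]) (s r : ℂ[X]) (T c : ℂ),
  1000000 ≤ θ → PDat θ q f s r T c → q.coeff 0 + f.coeff 0 = 0 →
    ∃ N' : ℝ, 1 ≤ N' ∧
      N' * ‖s.eval 0‖ ^ 2 ≤ ‖c‖ * θ * ‖s.eval 0‖ ^ 2 +
        ‖(derivative r).eval 0 * s.eval 0 - r.eval 0 * (derivative s).eval 0‖ ∧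
      ‖c‖ * θ * ‖s.eval 0‖ ^ 2 ≤ N' * ‖s.eval 0‖ ^ 2 +
        ‖(derivative r).eval 0 * s.eval 0 - r.eval 0 * (derivative s).eval 0‖ ∧
      TypA N' (toLaurent q) (toLaurent (q + f))

/-! ## Summary for complex elements (E5.4) -/

section

variable {O : Type} [CommRing O] [Coef O]

/-- The cardioid condition of a mutual pair of rays; `A` is the common coefficient. -/
def Car (Q A : RO O) : Prop :=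
  ∀ (z : Circle) (x y : ℂ), ‖x‖ < 1 → ‖y‖ < 1 →
    evR z (Q + A) - evR z A * ((1 - x) * (1 - y)) ≠ 0

/-- A load which leads to class `P(θ')`, `θ/3 ≤ θ' ≤ t`. -/
def Gp (θ t : ℝ) (Q F : RO O) (e : (RO O)ˣ) : Prop :=
  ∃ θ' : ℝ, θ / 3 ≤ θ' ∧ θ' ≤ t ∧ ClassP θ' (Q + (e : RO O) * F)

/-- A load of type B in the form needed for chapter E3; `a` bounds the lowest coefficient. -/
def TyB (a : ℝ) (Q F : RO O) (e : (RO O)ˣ) : Prop :=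
  ∃ (m : ℤ) (q f : O[X]), Q = LaurentPolynomial.T m * toLaurent q ∧
    (e : RO O) * F = LaurentPolynomial.T m * toLaurent (X * f) ∧
    ‖(Coef.emb (q.coeff 0) : ℂ)‖ = 1 ∧ nz (q.map Coef.emb) = 1 ∧
    ‖(Coef.emb (f.coeff 0) : ℂ)‖ ≤ a

end

/-- The window; `e` is the best load of type B, `c conj T = θ (x + i y)`. -/
def Wn (θ : ℝ) (Q F : RO Eis) (e : (RO Eis)ˣ) (x y : ℝ) (n : ℤ) (q f : Eis[X]) (s r : ℂ[X])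
    (T c : ℂ) : Prop :=
  Q = LaurentPolynomial.T n * toLaurent q ∧
  (e : RO Eis) * F = LaurentPolynomial.T n * toLaurent (X * f) ∧
  PDat θ q f s r T c ∧
  c * (starRingEnd ℂ) T = (θ : ℂ) * ((x : ℂ) + (y : ℂ) * Complex.I) ∧
  Real.sqrt 3 * |y| ≤ x ∧ 72 / 100 ≤ ‖c‖ ∧ x + Real.sqrt 3 * |y| ≤ 1 + 7 / θ

/-- (LP5) the loads in class `P(θ)`. -/
def Lp5S : Prop := ∀ (θ : ℝ) (Q F : RO Eis), 1000000 ≤ θ → ClassP θ Q → F ≠ 0 →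
  (∀ z : Circle, evR z Q ≠ 0) →
  (∀ z : Circle, ‖evR z F‖ ≤ ‖evR z Q‖) → (∃ z : Circle, ‖evR z F‖ ≠ ‖evR z Q‖) →
    -- very heavy: type C
    (∃ e : (RO Eis)ˣ, Gp θ (θ - 51 / 100) Q F e ∧ ¬ Car Q ((e : RO Eis) * F) ∧ TyB 0 Q F e) ∨
    -- heavy: type B
    (θ / 11 < M F ∧ ∃ e : (RO Eis)ˣ, Gp θ (23 / 25 * θ + 7) Q F e) ∨
    -- a pair of loads of type B
    (∃ e₁ e₂ : (RO Eis)ˣ, Adj e₁ e₂ ∧ ‖mn ((e₁ : RO Eis) * F) Q‖ ≤ 1 / 4 ∧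
      Gp θ (θ - 1 / 2 - 1 / θ) Q F e₁ ∧ Gp θ (θ - 1 / 2 - 1 / θ) Q F e₂) ∨
    -- window
    (∃ (e : (RO Eis)ˣ) (x y : ℝ) (n : ℤ) (q f : Eis[X]) (s r : ℂ[X]) (T c : ℂ),
      Wn θ Q F e x y n q f s r T c) ∨
    -- type A
    (∃ (e : (RO Eis)ˣ) (N' : ℝ), N' ≤ 72 / 100 * θ + 1 ∧ TypA N' Q (Q + (e : RO Eis) * F))

/-- (WB5) the window: load of type B without a drop; small factor at the load of type B. -/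
def Wb5S : Prop := ∀ (θ : ℝ) (Q F : RO Eis) (e : (RO Eis)ˣ) (x y : ℝ) (n : ℤ) (q f : Eis[X])
  (s r : ℂ[X]) (T c : ℂ), 1000000 ≤ θ → Wn θ Q F e x y n q f s r T c →
    62 / 100 ≤ x ∧ ‖c‖ ≤ 11 / 10 ∧ Gp θ (θ - 6 / 10) Q F e ∧ TyB 3 Q F e ∧
    ((∀ z : Circle, ‖evR z (Q + (e : RO Eis) * F)‖ ≤ ‖evR z Q‖) → TyB 1 Q F e)

/-- (WC5) the window, mutual pair: either the load of type B pays for a drop one, or the load of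
type A leads to class `V(N')`, `72/100 θ - 1 ≤ N' ≤ θ + 482/1000`. -/
def Wc5S : Prop := ∀ (θ : ℝ) (Q F : RO Eis) (e : (RO Eis)ˣ) (x y : ℝ) (n : ℤ) (q f : Eis[X])
  (s r : ℂ[X]) (T c : ℂ), 1000000 ≤ θ → Wn θ Q F e x y n q f s r T c →
  Car Q ((e : RO Eis) * F) →
    IsUnit (f.coeff 0) ∧ (∀ z : Circle, evR z (Q + (e : RO Eis) * F) ≠ 0) ∧
    ((1 ≤ x ∧ Gp θ (θ - 1 - 1 / (500 * θ)) Q F e) ∨
      ∃ (eA : (RO Eis)ˣ) (w : Eisˣ) (N' : ℝ),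
        (eA : RO Eis) = LaurentPolynomial.C (w : Eis) * LaurentPolynomial.T (-1) * (e : RO Eis) ∧
        Cross Q F eA e ∧ 72 / 100 * θ - 1 ≤ N' ∧ N' ≤ θ + 482 / 1000 ∧
        TypA N' Q (Q + (eA : RO Eis) * F))

/-! ## Summary for real elements (E5.5) -/

/-- A medium ray of a real element; `e` is the best real load of type B, `x = |c|`. -/
def Md (θ : ℝ) (Q F : RO ℤ) (e : (RO ℤ)ˣ) (x : ℝ) (n : ℤ) (q f : ℤ[X]) (s r : ℂ[X])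
    (T c : ℂ) : Prop :=
  Q = LaurentPolynomial.T n * toLaurent q ∧
  (e : RO ℤ) * F = LaurentPolynomial.T n * toLaurent (X * f) ∧
  PDat θ (q.map (Int.castRingHom Eis)) (f.map (Int.castRingHom Eis)) s r T c ∧
  c * (starRingEnd ℂ) T = (θ : ℂ) * (x : ℂ) ∧ T.im = 0 ∧ c.im = 0 ∧ 98 / 100 ≤ x ∧ x ≤ θ / 10

/-- (LR5) the loads in class `P(θ)` for real elements. -/
def Lr5S : Prop := ∀ (θ : ℝ) (Q F : RO ℤ), 1000000 ≤ θ → ClassP θ Q → F ≠ 0 →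
  (∀ z : Circle, evR z Q ≠ 0) →
  (∀ z : Circle, ‖evR z F‖ ≤ ‖evR z Q‖) → (∃ z : Circle, ‖evR z F‖ ≠ ‖evR z Q‖) →
    -- very heavy: type C
    (∃ e : (RO ℤ)ˣ, Gp θ (θ - 51 / 100) Q F e ∧ ¬ Car Q ((e : RO ℤ) * F) ∧ TyB 0 Q F e) ∨
    -- heavy: type B
    (θ / 11 < M F ∧ ∃ e : (RO ℤ)ˣ, Gp θ (23 / 25 * θ + 7) Q F e) ∨
    -- medium
    (∃ (e : (RO ℤ)ˣ) (x : ℝ) (n : ℤ) (q f : ℤ[X]) (s r : ℂ[X]) (T c : ℂ),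
      Md θ Q F e x n q f s r T c) ∨
    -- type A
    (∃ (e : (RO ℤ)ˣ) (N' : ℝ), N' ≤ 98 / 100 * θ + 1 ∧ TypA N' Q (Q + (e : RO ℤ) * F))

/-- (ZB5) medium rays: load of type B without a drop; the second best load (over the Eisenstein
integers) gains `988/1000` for `x ≥ 99/50`; small factor at the load of type B: the lowest
coefficient is a unit, or the second best load gains `997/1000`. -/
def Zb5S : Prop := ∀ (θ : ℝ) (Q F : RO ℤ) (e : (RO ℤ)ˣ) (x : ℝ) (n : ℤ) (q f : ℤ[X])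
  (s r : ℂ[X]) (T c : ℂ), 1000000 ≤ θ → Md θ Q F e x n q f s r T c →
    Gp θ (θ - 97 / 100) Q F e ∧ TyB (θ / 10 + 1) Q F e ∧
    (99 / 50 ≤ x →
      ∀ bc : RO ℤ →+* RO Eis, bc = AddMonoidAlgebra.mapRingHom ℤ (Int.castRingHom Eis) →
        ∃ e₂ : (RO Eis)ˣ, Adj (Units.map (bc : RO ℤ →* RO Eis) e) e₂ ∧
          ‖mn ((e₂ : RO Eis) * bc F) (bc Q)‖ ≤ 1 / 4 ∧
          Gp θ (θ - 988 / 1000) (bc Q) (bc F) e₂) ∧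
    ((∀ z : Circle, ‖evR z (Q + (e : RO ℤ) * F)‖ ≤ ‖evR z Q‖) →
      TyB 1 Q F e ∨
      ∀ bc : RO ℤ →+* RO Eis, bc = AddMonoidAlgebra.mapRingHom ℤ (Int.castRingHom Eis) →
        ∃ e₂ : (RO Eis)ˣ, Adj (Units.map (bc : RO ℤ →* RO Eis) e) e₂ ∧
          ‖mn ((e₂ : RO Eis) * bc F) (bc Q)‖ ≤ 1 / 4 ∧ Gp θ (θ - 997 / 1000) (bc Q) (bc F) e₂)

/-- (ZC5) medium rays, mutual pair: either the load of type B pays for a drop one, or the load of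
type A leads to class `V(N)`, `N ≤ θ + 49/100`; then `T = ± θ`, and the double closing `x₀ = -sg/z`,
`x₁ = sg z` is of class `V(N - 1)`. -/
def Zc5S : Prop := ∀ (θ : ℝ) (Q F : RO ℤ) (e : (RO ℤ)ˣ) (x : ℝ) (n : ℤ) (q f : ℤ[X])
  (s r : ℂ[X]) (T c : ℂ), 1000000 ≤ θ → Md θ Q F e x n q f s r T c →
  Car Q ((e : RO ℤ) * F) →
    (x ≤ 11 / 10 → IsUnit (f.coeff 0)) ∧
    (∀ z : Circle, evR z (Q + (e : RO ℤ) * F) ≠ 0) ∧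
    ((1 ≤ x ∧ Gp θ (θ - 1 - 9 / (1000 * θ)) Q F e) ∨
      (x ≤ 11 / 10 ∧ ∃ (sg : ℤˣ) (u : ℤ[X]) (N : ℕ), T = ((sg : ℤ) : ℂ) * (θ : ℂ) ∧
        f.coeff 0 = (sg : ℤ) * q.coeff 0 ∧ q - C (sg : ℤ) * f = X * u ∧
        u.coeff 0 = -((sg : ℤ) * q.coeff 0 * N) ∧
        (∀ z : ℂ, ‖z‖ < 1 → (u.map (Int.castRingHom ℂ)).eval z ≠ 0) ∧
        (N : ℝ) ≤ θ + 49 / 100 ∧ |(N : ℝ) - x * θ| ≤ 477 / 1000 ∧
        (∀ eA : (RO ℤ)ˣ, (eA : RO ℤ) =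
            -(LaurentPolynomial.C (sg : ℤ) * LaurentPolynomial.T (-1) * (e : RO ℤ)) →
          Cross Q F eA e ∧ TypA N Q (Q + (eA : RO ℤ) * F)) ∧
        (2 ≤ N → ∀ z : ℂ, ‖z‖ < 1 →
          ((u + f + C (sg : ℤ) * X * f).map (Int.castRingHom ℂ)).eval z ≠ 0)))

/-! ## No big factor (E5.6) -/

/-- (NBF) no big factor; all drops and pure factors included. -/
def NbfS : Prop := ∀ (O : Type) [CommRing O] [IsDomain O] [IsPrincipalIdealRing O] [Coef O]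
  (P L : Type) [Fintype P] [DecidableEq P] [AddCommGroup L] [Module.Free ℤ L]
  [Module.Finite ℤ L] (phi : L →+ (P → ℤ)) (D : AO O L) (S : L) (i0 : P) (eta : (RO O)ˣ)
  (h : co phi i0 S = 1) (c : RO O) (n : ℕ) (G : Fin n → AO O (Ker (co phi i0))),
    FD phi D S i0 eta h c n G → (∀ i, ¬ 1 < M ((G i).coeff 0)) →
      (Module.finrank ℤ L : ℝ) + M (D.coeff 0 + (eta : RO O) * D.coeff S) ≤
        2 * M (D.coeff 0) + 1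

end Pool.Agent.B5
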