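import Pool.Agent.Lib.MP_b5021c_nt.IfaceS2
import Pool.Agent.Lib.MP_b5021c_nt.IfaceS4a
import Pool.Agent.Lib.MP_b5021c_nt.IfaceK2

/-!
# Board b5, stage 2, FINAL FORM `k + 1 ≤ 2 θ + 480000`: structure, loads, recursion (PaperS4.md)
-/

namespace Pool.Agent.B5

open scoped LaurentPolynomial
open Polynomial
open Pool.Agent.MP_b5021c_nt (Eis)

/-! ## Structure (chapter W1) -/

/-- (LSD) number of small non-pure factors, third bound. -/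
def LsdS : Prop := ∀ (O : Type) [CommRing O] [IsDomain O] [IsPrincipalIdealRing O] [Coef O]
  (P L : Type) [Fintype P] [DecidableEq P] [AddCommGroup L] [Module.Free ℤ L]
  [Module.Finite ℤ L] (phi : L →+ (P → ℤ)) (D : AO O L) (S : L) (i0 : P) (eta : (RO O)ˣ)
  (h : co phi i0 S = 1) (c : RO O) (n : ℕ) (G : Fin n → AO O (Ker (co phi i0))),
    FD phi D S i0 eta h c n G →
      ((snp phi S i0 G).card : ℝ) * (∏ i ∈ big G, M ((G i).coeff 0)) +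
        M (D.coeff 0 + (eta : RO O) * D.coeff S) ≤ 2 * M (D.coeff 0)

/-- A load of class `V` and a load with unit lowest coefficient, which differ by a power of `z`. -/
def Cross {O : Type} [CommRing O] [Coef O] (Q F : RO O) (e₁ e₂ : (RO O)ˣ) : Prop :=
  (∃ N' : ℝ, ClassV N' (Q + (e₁ : RO O) * F)) ∧
  (ClassV 1 (Q + (e₂ : RO O) * F) ∨ ∃ θ' : ℝ, ClassP θ' (Q + (e₂ : RO O) * F)) ∧
  ∃ (w : O) (k : ℤ), k ≠ 0 ∧
    (e₂ : RO O) = LaurentPolynomial.C w * LaurentPolynomial.T k * (e₁ : RO O)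

/-- The pairs of loads of one ray for which the selection works. -/
def Pr2 {O : Type} [CommRing O] [Coef O] (Q F : RO O) (e₁ e₂ : (RO O)ˣ) : Prop :=
  (Adj e₁ e₂ ∧ ‖mn ((e₁ : RO O) * F) Q‖ ≤ 1 / 4) ∨ Cross Q F e₁ e₂

/-- The pointwise identity of a pure factor. -/
def PwI {O : Type} [CommRing O] [Coef O] (Q F : RO O) (e : (RO O)ˣ) : Prop :=
  ∀ z : Circle, ‖evR z (Q + (e : RO O) * F)‖ + ‖evR z F‖ = ‖evR z Q‖

/-- (RKB) summary for a closed element without small non-pure factors. -/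
def RkbS : Prop := ∀ (O : Type) [CommRing O] [IsDomain O] [IsPrincipalIdealRing O] [Coef O]
  (P L : Type) [Fintype P] [DecidableEq P] [AddCommGroup L] [Module.Free ℤ L]
  [Module.Finite ℤ L] (phi : L →+ (P → ℤ)) (D : AO O L) (S : L) (i0 : P) (eta : (RO O)ˣ)
  (h : co phi i0 S = 1) (c : RO O) (n : ℕ) (G : Fin n → AO O (Ker (co phi i0))),
    FD phi D S i0 eta h c n G → snp phi S i0 G = ∅ →
      rk (supp (cl (co phi i0) S h eta D)) ≤ ∑ i ∈ big G, rk (supp (G i)) ∨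
      (rk (supp (cl (co phi i0) S h eta D)) ≤ ∑ i ∈ big G, rk (supp (G i)) + 1 ∧
        PwI (D.coeff 0) (D.coeff S) eta)

/-- (CRO) cross lemma: a drop at one load of a cross pair, full rank and simple at the other. -/
def CroS : Prop := ∀ (O : Type) [CommRing O] [IsDomain O] [IsPrincipalIdealRing O] [Coef O]
  (P L : Type) [Fintype P] [DecidableEq P] [AddCommGroup L] [Module.Free ℤ L]
  [Module.Finite ℤ L] (phi : L →+ (P → ℤ)) (D : AO O L) (S : L) (i0 : P) (eta : (RO O)ˣ)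
  (h : co phi i0 S = 1) (c : RO O) (n : ℕ) (G : Fin n → AO O (Ker (co phi i0))),
    FD phi D S i0 eta h c n G →
      rk (supp (cl (co phi i0) S h eta D)) = Module.finrank ℤ (Ker (co phi i0)) →
      Simple (D.coeff 0) (D.coeff 0 + (eta : RO O) * D.coeff S) c G →
      ∀ eta' : (RO O)ˣ, D.coeff 0 + (eta' : RO O) * D.coeff S ≠ 0 →
        (Cross (D.coeff 0) (D.coeff S) eta eta' ∨ Cross (D.coeff 0) (D.coeff S) eta' eta) →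
        rk (supp (cl (co phi i0) S h eta' D)) < Module.finrank ℤ (Ker (co phi i0)) →
          snp phi S i0 G = ∅

/-- (SLX) SELECTION at one ray with a pair of loads. -/
def SlxS : Prop := ∀ (O : Type) [CommRing O] [IsDomain O] [IsPrincipalIdealRing O] [Coef O]
  (P L : Type) [Fintype P] [DecidableEq P] [AddCommGroup L] [Module.Free ℤ L]
  [Module.Finite ℤ L] (phi : L →+ (P → ℤ)) (D : AO O L) (S : L) (i0 : P) (e₁ e₂ : (RO O)ˣ)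
  (h : co phi i0 S = 1), DD phi D → 3 ≤ Module.finrank ℤ L → Ray D S →
    D.coeff 0 + (e₁ : RO O) * D.coeff S ≠ 0 → D.coeff 0 + (e₂ : RO O) * D.coeff S ≠ 0 →
    Pr2 (D.coeff 0) (D.coeff S) e₁ e₂ →
    (Module.finrank ℤ L = rk (supp (cl (co phi i0) S h e₁ D)) + 1 ∨
      Module.finrank ℤ L = rk (supp (cl (co phi i0) S h e₂ D)) + 1) →
    ∃ e : (RO O)ˣ, (e = e₁ ∨ e = e₂) ∧
      Module.finrank ℤ L = rk (supp (cl (co phi i0) S h e D)) + 1 ∧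
      ∃ (c : RO O) (n : ℕ) (G : Fin n → AO O (Ker (co phi i0))),
        FD phi D S i0 e h c n G ∧
        (snp phi S i0 G = ∅ ∨
          ¬ Simple (D.coeff 0) (D.coeff 0 + (e : RO O) * D.coeff S) c G)

/-- (CL3) ONE CLOSING with a pair of loads. -/
def Cl3S : Prop := ∀ (O : Type) [CommRing O] [IsDomain O] [IsPrincipalIdealRing O] [Coef O]
  (P L : Type) [Fintype P] [DecidableEq P] [AddCommGroup L] [Module.Free ℤ L]
  [Module.Finite ℤ L] (phi : L →+ (P → ℤ)) (D : AO O L) (S : L) (i0 : P) (e₁ e₂ : (RO O)ˣ)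
  (h : co phi i0 S = 1), DD phi D → 3 ≤ Module.finrank ℤ L → Ray D S →
    D.coeff 0 + (e₁ : RO O) * D.coeff S ≠ 0 → D.coeff 0 + (e₂ : RO O) * D.coeff S ≠ 0 →
    Pr2 (D.coeff 0) (D.coeff S) e₁ e₂ →
    (Module.finrank ℤ L = rk (supp (cl (co phi i0) S h e₁ D)) + 1 ∨
      Module.finrank ℤ L = rk (supp (cl (co phi i0) S h e₂ D)) + 1) →
    ∃ (e : (RO O)ˣ) (c : RO O) (n : ℕ) (G : Fin n → AO O (Ker (co phi i0))), (e = e₁ ∨ e = e₂) ∧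
      FD phi D S i0 e h c n G ∧
      ( -- one big factor, no small non-pure factor, no pure extreme ray
        ((big G).card = 1 ∧ M c = 1 ∧
          Module.finrank ℤ L ≤ 1 + ∑ i ∈ big G, rk (supp (G i))) ∨
       -- one big factor, no small non-pure factor, a pure extreme ray
        ((big G).card = 1 ∧ M c = 1 ∧
          Module.finrank ℤ L ≤ 2 + ∑ i ∈ big G, rk (supp (G i)) ∧
          PwI (D.coeff 0) (D.coeff S) e) ∨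
       -- rich
        (((big G).card = 1 → M c = 1 →
            2 * M (D.coeff 0 + (e : RO O) * D.coeff S) ^ 2 ≤ M (D.coeff 0) ^ 2) ∧
          Module.finrank ℤ L ≤ 2 + (snp phi S i0 G).card + ∑ i ∈ big G, rk (supp (G i)) ∧
          ((snp phi S i0 G).card : ℝ) * ∏ i ∈ big G, M ((G i).coeff 0) ≤ 2 * M (D.coeff 0)))

/-! ## Loads (chapters W2, W3) -/

/-- (LV2) the loads in class `V(N)`, `N ≥ 200`: two adjacent loads (light), one load (heavy). -/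
def Lv2S : Prop := ∀ (N : ℝ) (Q F : RO Eis), 200 ≤ N → ClassV N Q → F ≠ 0 →
  (∀ z : Circle, evR z Q ≠ 0) →
  (∀ z : Circle, ‖evR z F‖ ≤ ‖evR z Q‖) → (∃ z : Circle, ‖evR z F‖ ≠ ‖evR z Q‖) →
    (∃ e₁ e₂ : (RO Eis)ˣ, Adj e₁ e₂ ∧ 1 / N ≤ ‖mn ((e₁ : RO Eis) * F) Q‖ ∧
      ‖mn ((e₁ : RO Eis) * F) Q‖ ≤ 1 / 4 ∧
      ∀ e : (RO Eis)ˣ, (e = e₁ ∨ e = e₂) →
        ∃ N' : ℝ, N' ≤ N - 1 / 5 ∧ (⌊2 * N'⌋ : ℝ) + 1 ≤ 2 * N ∧
          ClassV N' (Q + (e : RO Eis) * F)) ∨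
    (N / 10 < M F ∧
      ∃ (e₁ : (RO Eis)ˣ) (N' : ℝ), N' ≤ 23 / 25 * N ∧ ClassV N' (Q + (e₁ : RO Eis) * F))

/-- The load `e` leads to class `V(1)` or to class `P(θ')` with `θ' ≤ x`. -/
def ToP (x : ℝ) (Q F : RO Eis) (e : (RO Eis)ˣ) : Prop :=
  ClassV 1 (Q + (e : RO Eis) * F) ∨ ∃ θ' : ℝ, θ' ≤ x ∧ ClassP θ' (Q + (e : RO Eis) * F)

/-- (LB2) loads of type B. -/
def Lb2S : Prop := ∀ (θ : ℝ) (q f : Eis[X]) (s r : ℂ[X]) (T c : ℂ), 200 ≤ θ → PDat θ q f s r T c →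
  ∀ v : Eisˣ,
    (1 + 20 / θ ≤ ‖c‖ → ‖c‖ ≤ θ / 10 →
      1 / 2 * (‖c‖ * θ) ≤ (Eis.emb (v : Eis) * (c * (starRingEnd ℂ) T)).re →
      ClassV 1 (toLaurent (q + C (v : Eis) * X * f)) ∨
      ∃ θ' : ℝ, θ' ≤ θ - 1 / 2 ∧ ClassP θ' (toLaurent (q + C (v : Eis) * X * f))) ∧
    (72 / 100 ≤ ‖c‖ → ‖c‖ ≤ 1 + 20 / θ →
      Real.sqrt 3 / 2 * (‖c‖ * θ) ≤ (Eis.emb (v : Eis) * (c * (starRingEnd ℂ) T)).re →
      ClassV 1 (toLaurent (q + C (v : Eis) * X * f)) ∨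
      ∃ θ' : ℝ, θ' ≤ θ - 1 / 2 ∧ ClassP θ' (toLaurent (q + C (v : Eis) * X * f))) ∧
    (θ / 10 ≤ ‖c‖ →
      Real.sqrt 3 / 2 * (‖c‖ * θ) ≤ (Eis.emb (v : Eis) * (c * (starRingEnd ℂ) T)).re →
      ClassV 1 (toLaurent (q + C (v : Eis) * X * f)) ∨
      ∃ θ' : ℝ, θ' ≤ 23 / 25 * θ + 7 ∧ ClassP θ' (toLaurent (q + C (v : Eis) * X * f)))

/-- (LA2) loads of type A: `A2` (the constant coefficient of `f` is not a unit), `A1` (unit). -/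
def La2S : Prop := ∀ (θ : ℝ) (q f : Eis[X]) (s r : ℂ[X]) (T c : ℂ), 200 ≤ θ → PDat θ q f s r T c →
  ‖c‖ ≤ 1 + 20 / θ →
    (¬ IsUnit (f.coeff 0) → ∃ v : Eisˣ, ClassV 1 (toLaurent (q + C (v : Eis) * f)) ∨
      ∃ θ' : ℝ, θ' ≤ 6 / 10 * θ + 21 ∧ ClassP θ' (toLaurent (q + C (v : Eis) * f))) ∧
    (IsUnit (f.coeff 0) → ∃ (v : Eisˣ) (N' : ℝ), N' ≤ ‖c‖ * θ + 1 ∧
      ClassV N' (toLaurent (q + C (v : Eis) * f)))

/-- (LP3) the loads in class `P(θ)`, `θ ≥ 200`. -/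
def Lp3S : Prop := ∀ (θ : ℝ) (Q F : RO Eis), 200 ≤ θ → ClassP θ Q → F ≠ 0 →
  (∀ z : Circle, evR z Q ≠ 0) →
  (∀ z : Circle, ‖evR z F‖ ≤ ‖evR z Q‖) → (∃ z : Circle, ‖evR z F‖ ≠ ‖evR z Q‖) →
    -- two adjacent loads of type B
    (∃ e₁ e₂ : (RO Eis)ˣ, Adj e₁ e₂ ∧ 1 / θ ≤ ‖mn ((e₁ : RO Eis) * F) Q‖ ∧
      ‖mn ((e₁ : RO Eis) * F) Q‖ ≤ 1 / 4 ∧ ToP (θ - 1 / 2) Q F e₁ ∧ ToP (θ - 1 / 2) Q F e₂) ∨
    -- window: a load of type A1 and a load of type B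
    (∃ e₁ e₂ : (RO Eis)ˣ, Cross Q F e₁ e₂ ∧
      (∃ N' : ℝ, N' ≤ θ + 21 ∧ ClassV N' (Q + (e₁ : RO Eis) * F)) ∧
      ToP (θ - 1 / 2) Q F e₂ ∧ (PwI Q F e₂ → 1 / θ ≤ ‖mn ((e₂ : RO Eis) * F) Q‖)) ∨
    -- heavy
    (θ / 11 < M F ∧ ∃ e₁ : (RO Eis)ˣ, ToP (23 / 25 * θ + 7) Q F e₁) ∨
    -- single loads of type A
    (∃ e₁ : (RO Eis)ˣ, ToP (6 / 10 * θ + 21) Q F e₁ ∨
      ∃ N' : ℝ, N' ≤ 72 / 100 * θ + 1 ∧ ClassV N' (Q + (e₁ : RO Eis) * F))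

/-! ## The recursion (chapter W4) -/

/-- (CLX) one closing with a pair of loads, summary in terms of the classes. -/
def ClxS : Prop := ∀ (O : Type) [CommRing O] [IsDomain O] [IsPrincipalIdealRing O] [Coef O]
  (P L : Type) [Fintype P] [DecidableEq P] [AddCommGroup L] [Module.Free ℤ L]
  [Module.Finite ℤ L] (phi : L →+ (P → ℤ)) (D : AO O L) (S : L) (i0 : P) (e₁ e₂ : (RO O)ˣ)
  (h : co phi i0 S = 1), DD phi D → 3 ≤ Module.finrank ℤ L → Ray D S →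
    D.coeff 0 + (e₁ : RO O) * D.coeff S ≠ 0 → D.coeff 0 + (e₂ : RO O) * D.coeff S ≠ 0 →
    Pr2 (D.coeff 0) (D.coeff S) e₁ e₂ →
    (Module.finrank ℤ L = rk (supp (cl (co phi i0) S h e₁ D)) + 1 ∨
      Module.finrank ℤ L = rk (supp (cl (co phi i0) S h e₂ D)) + 1) →
    ∃ e : (RO O)ˣ, (e = e₁ ∨ e = e₂) ∧
      (∀ N : ℝ, ClassV N (D.coeff 0 + (e : RO O) * D.coeff S) →
        ∀ B : ℝ → ℝ, Monotone B → (∀ x, 1 ≤ B x) → (∀ x, x ≤ N → BdV O x (B x)) →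
          (Module.finrank ℤ L : ℝ) ≤ 1 + B N ∨
          (PwI (D.coeff 0) (D.coeff S) e ∧ (Module.finrank ℤ L : ℝ) ≤ 2 + B N) ∨
          ∃ (m : ℕ) (N' : Fin m → ℝ) (N₀ : ℝ) (l : ℕ),
            (∀ i, 1 < N' i ∧ ∃ Q' : RO O, ClassV (N' i) Q') ∧ (∃ Q' : RO O, ClassV N₀ Q') ∧
            N₀ * ∏ i, N' i = N ∧ (m = 1 → N₀ = 1 → 2 * N ^ 2 ≤ M (D.coeff 0) ^ 2) ∧
            (l : ℝ) * ∏ i, N' i ≤ 2 * M (D.coeff 0) ∧
            (Module.finrank ℤ L : ℝ) ≤ 2 + l + ∑ i, B (N' i)) ∧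
      (∀ θ' : ℝ, ClassP θ' (D.coeff 0 + (e : RO O) * D.coeff S) → ∀ C : ℝ, 1 ≤ C → BdP O θ' C →
          (Module.finrank ℤ L : ℝ) ≤ 1 + C ∨
          (PwI (D.coeff 0) (D.coeff S) e ∧ (Module.finrank ℤ L : ℝ) ≤ 2 + C) ∨
          ∃ l : ℕ, ((l : ℝ) ≤ 2 * M (D.coeff 0) ∧ (Module.finrank ℤ L : ℝ) ≤ 2 + l) ∨
            (2 * θ' ^ 2 ≤ M (D.coeff 0) ^ 2 ∧ (l : ℝ) * θ' ≤ 2 * M (D.coeff 0) ∧
              (Module.finrank ℤ L : ℝ) ≤ 2 + l + C))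

/-- (CL4) one closing with a single load (as `CLOS`, with the bound of `LsdS`). -/
def Cl4S : Prop := ∀ (O : Type) [CommRing O] [IsDomain O] [IsPrincipalIdealRing O] [Coef O]
  (P L : Type) [Fintype P] [DecidableEq P] [AddCommGroup L] [Module.Free ℤ L]
  [Module.Finite ℤ L] (phi : L →+ (P → ℤ)) (D : AO O L) (S : L) (i0 : P) (eta : (RO O)ˣ)
  (h : co phi i0 S = 1), CC phi D S i0 eta →
    (∀ N : ℝ, ClassV N (D.coeff 0 + (eta : RO O) * D.coeff S) →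
      ∀ B : ℝ → ℝ, Monotone B → (∀ x, 1 ≤ B x) → (∀ x, x ≤ N → BdV O x (B x)) →
        ∃ (m : ℕ) (N' : Fin m → ℝ) (l : ℕ),
          (∀ i, 1 < N' i ∧ ∃ Q' : RO O, ClassV (N' i) Q') ∧ ∏ i, N' i ≤ N ∧
          (l : ℝ) * ∏ i, N' i + N ≤ 2 * M (D.coeff 0) ∧
          (rk (supp (cl (co phi i0) S h eta D)) : ℝ) ≤ 1 + l + ∑ i, B (N' i)) ∧
    (∀ θ' : ℝ, ClassP θ' (D.coeff 0 + (eta : RO O) * D.coeff S) →
      ∀ C : ℝ, 1 ≤ C → BdP O θ' C → ∃ l : ℕ,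
        ((l : ℝ) + θ' ≤ 2 * M (D.coeff 0) ∧
          (rk (supp (cl (co phi i0) S h eta D)) : ℝ) ≤ 1 + l) ∨
        ((l : ℝ) * θ' + θ' ≤ 2 * M (D.coeff 0) ∧
          (rk (supp (cl (co phi i0) S h eta D)) : ℝ) ≤ 1 + l + C))

/-- (JV3) the induction step in class `V`. -/
def Jv3S : Prop := ∀ (P L : Type) [Fintype P] [DecidableEq P] [AddCommGroup L] [Module.Free ℤ L]
  [Module.Finite ℤ L] (phi : L →+ (P → ℤ)) (D : AO Eis L) (N : ℝ), 200 ≤ N → DD phi D →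
    ClassV N (D.coeff 0) → 3 ≤ Module.finrank ℤ L →
    (∀ x : ℝ, x ≤ N - 1 / 5 → BdV Eis x (bV3 x)) → (Module.finrank ℤ L : ℝ) ≤ 2 * N + 4800

/-- (JW3) class `V`. -/
def Jw3S : Prop := ∀ N : ℝ, BdV Eis N (bV3 N)

/-- (JP3) the induction step in class `P`. -/
def Jp3S : Prop := ∀ (P L : Type) [Fintype P] [DecidableEq P] [AddCommGroup L] [Module.Free ℤ L]
  [Module.Finite ℤ L] (phi : L →+ (P → ℤ)) (D : AO Eis L) (θ : ℝ), 200 ≤ θ → DD phi D →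
    ClassP θ (D.coeff 0) → 3 ≤ Module.finrank ℤ L → (∀ x : ℝ, BdV Eis x (bV3 x)) →
    (∀ x : ℝ, x ≤ θ - 1 / 4 → BdP Eis x (bP3 x)) → (Module.finrank ℤ L : ℝ) ≤ 2 * θ + 480000

/-- (JQ3) class `P`: CONCLUSION of stage 2. -/
def Jq3S : Prop := ∀ θ : ℝ, BdP Eis θ (2 * θ + 480000)

/-- (MA3) THE THEOREM: every element of the `k`-th derived set of the Pisot numbers is at least
`k/2 - 240000`. -/
def Ma3S : Prop := ∀ (k : ℕ) (θ : ℝ), 1 ≤ k → θ ∈ Pool.Agent.MP_b5021c_nt.PSk k →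
  (k : ℝ) + 1 ≤ 2 * θ + 480000

end Pool.Agent.B5
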