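import Pool.Agent.Lib.MP_b5021c_nt.IfaceE0
import Pool.Agent.Lib.MP_b5021c_nt.IfaceE2
import Pool.Agent.Lib.MP_b5021c_nt.IfaceE3
import Pool.Agent.Lib.MP_b5021c_nt.IfaceS4

/-!
# Board b5, stage 3, chapter E5, part T2: two closings with the loads `w^(S₀) = η e₀`,
`w^(S₁) = η e₁` of a mutual pair (PaperE5T.md)
-/

namespace Pool.Agent.B5

open scoped LaurentPolynomial
open Polynomial
open Pool.Agent.MP_b5021c_nt (Eis nz)

/-- The ports outside `S` are injective modulo `S`. -/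
def ImS {P L : Type} [Fintype P] [DecidableEq P] [AddCommGroup L] (phi : L →+ (P → ℤ)) (S : L) :
    Prop :=
  ∀ b : L, (∀ i, phi S i = 0 → phi b i = 0) → ∃ k : ℤ, b = k • S

/-- (T2E) the zero of `q + κ z f`, `|κ| ≤ 2`, `|c| ≤ 2`. -/
def T2eS : Prop := ∀ (θ : ℝ) (q f : Eis[X]) (s r : ℂ[X]) (T c κ : ℂ), 200 ≤ θ →
  PDat θ q f s r T c → ‖c‖ ≤ 2 → ‖κ‖ ≤ 2 →
  nz (q.map Eis.emb + C κ * X * f.map Eis.emb) ≤ 1 →
    ∃ T' : ℂ, (q.map Eis.emb + C κ * X * f.map Eis.emb).roots.filter (fun x => ‖x‖ < 1) = {T'⁻¹} ∧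
      θ - 5 ≤ ‖T'‖ ∧ ‖T'‖ ≤ θ - (κ * (c * (starRingEnd ℂ) T)).re / θ + 35 / θ

/-- (T2H) `|q + κ z f| ≤ |q|` on the circle: the number `r(0)/s(0)` is small. -/
def T2hS : Prop := ∀ (q f r s : ℂ[X]) (T c κ : ℂ), 1 < ‖T‖ → ‖κ‖ = 1 →
  (∀ z : ℂ, ‖z‖ ≤ 1 → s.eval z ≠ 0) → q = (1 - C T * X) * s → f = C c * s + (1 - C T * X) * r →
  (∀ z : ℂ, ‖z‖ = 1 → ‖(q + C κ * X * f).eval z‖ ≤ ‖q.eval z‖) →
    ‖r.eval 0‖ ^ 2 ≤ 2 * ‖c‖ / ‖T‖ * ‖s.eval 0‖ ^ 2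

/-- (TRS) TERMINAL CASE (row TRE of chapter E2) for an element `D` which arose by closings with
multiples of the coefficient `c V = c (D_0 + eta D_S)`: `c D_0 = Q - g c V`.  The bound is that of
the original zero. -/
def TrsS : Prop := ∀ (O : Type) [CommRing O] [IsDomain O] [IsPrincipalIdealRing O] [Coef O]
  (P L : Type) [Fintype P] [DecidableEq P] [AddCommGroup L] [Module.Free ℤ L]
  [Module.Finite ℤ L] (phi : L →+ (P → ℤ)) (D : AO O L) (S : L) (eta : (RO O)ˣ) (θ θ' : ℝ)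
  (Q c : RO O) (g : O),
    DD phi D → 2 ≤ Module.finrank ℤ L → Ray D S → 15 ≤ θ → ClassP θ Q →
    (∀ z : Circle, evR z Q ≠ 0) → ClassP θ' (D.coeff 0) →
    TypA 1 (D.coeff 0) (D.coeff 0 + (eta : RO O) * D.coeff S) →
    0 ≤ (Coef.emb g : ℂ).re →
    c * D.coeff 0 = Q - LaurentPolynomial.C g * (c * (D.coeff 0 + (eta : RO O) * D.coeff S)) →
    TypA 1 Q (c * (D.coeff 0 + (eta : RO O) * D.coeff S)) →
      (Module.finrank ℤ L : ℝ) ≤ 2 * (θ - θ⁻¹) - 2 * (Coef.emb g : ℂ).re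

/-- (T2O) ONE closing of an element of class `P(θ)` with a load of type B (any drop), when the ports
outside `S` are injective modulo `S`. -/
def T2oS : Prop := ∀ (O : Type) [CommRing O] [IsDomain O] [IsPrincipalIdealRing O] [Coef O]
  (P L : Type) [Fintype P] [DecidableEq P] [AddCommGroup L] [Module.Free ℤ L]
  [Module.Finite ℤ L] (phi : L →+ (P → ℤ)) (D : AO O L) (S : L) (i0 : P) (eta : (RO O)ˣ)
  (h : co phi i0 S = 1) (θ θ' : ℝ) (m : ℤ) (q f : O[X]),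
    DD phi D → 2 ≤ Module.finrank ℤ L → Ray D S → ImS phi S → ClassP θ (D.coeff 0) →
    D.coeff 0 = LaurentPolynomial.T m * toLaurent q →
    (eta : RO O) * D.coeff S = LaurentPolynomial.T m * toLaurent (X * f) →
    ‖(Coef.emb (q.coeff 0) : ℂ)‖ = 1 →
    ClassP θ' (D.coeff 0 + (eta : RO O) * D.coeff S) →
    2 * ‖(Coef.emb (f.coeff 0) : ℂ)‖ + 4 < θ' →
      -- no big factor
      (rk (supp (cl (co phi i0) S h eta D)) : ℝ) ≤ 2 * θ - θ' ∨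
      -- a small factor and a big factor: chapter E3
      (ZF (f.map Coef.emb) ∧ ∃ (D' : AO O L) (b : L) (e : (RO O)ˣ), DD phi D' ∧ Ray D' b ∧
        D'.coeff 0 = D.coeff 0 ∧
        (e : RO O) * D'.coeff b = -(D.coeff 0 + (eta : RO O) * D.coeff S) ∧
        D'.coeff 0 + (e : RO O) * D'.coeff b = -((eta : RO O) * D.coeff S)) ∨
      -- one big factor
      ∃ (c : RO O) (G : AO O (Ker (co phi i0))), ClassV 1 c ∧
        cl (co phi i0) S h eta D = cst c * G ∧ ClassP θ' (G.coeff 0) ∧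
        (∀ B : ℝ, 1 ≤ B → BdP O θ' B → (rk (supp (cl (co phi i0) S h eta D)) : ℝ) ≤ B) ∧
        (Module.finrank ℤ L = rk (supp (cl (co phi i0) S h eta D)) + 1 → DD (phO phi S i0) G)

/-- (T2C) THE DOUBLE CLOSING T2 of a mutual pair with facet ports. -/
def T2cS : Prop := ∀ (P L : Type) [Fintype P] [DecidableEq P] [AddCommGroup L] [Module.Free ℤ L]
  [Module.Finite ℤ L] (phi : L →+ (P → ℤ)) (D : AO Eis L) (θ : ℝ) (S0 S1 : L)
  (e0 e1 e0' e1' : (RO Eis)ˣ) (w : Eis) (m : ℤ) (q f : Eis[X]) (s r : ℂ[X]) (T c : ℂ) (i0 i1 : P)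
  (h0 : co phi i0 S0 = 1) (S1' : Ker (co phi i0)) (k1 : Ker (co phi i0) →+ ℤ) (h1 : k1 S1' = 1),
    FP phi D → 4 ≤ Module.finrank ℤ L → 10 ^ 6 ≤ θ → Ray D S0 → Ray D S1 →
    S1 ∉ US e0 S0 D → S0 ∉ US e1 S1 D → (S1' : L) = S1 → k1 = co (phO phi S0 i0) i1 →
    (e0' : RO Eis) = LaurentPolynomial.C w * (e0 : RO Eis) →
    (e1' : RO Eis) = LaurentPolynomial.C w * (e1 : RO Eis) →
    ‖Eis.emb w‖ = 1 → (Eis.emb w).re = 1 / 2 →
    D.coeff 0 = LaurentPolynomial.T m * toLaurent q →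
    (e0 : RO Eis) * D.coeff S0 = LaurentPolynomial.T m * toLaurent (X * f) →
    PDat θ q f s r T c → ‖c‖ ≤ 99 / 50 →
    (‖Eis.emb (f.coeff 0)‖ = 1 ∨ 2 ≤ ‖Eis.emb (f.coeff 0)‖) →
    Module.finrank ℤ L = rk (supp (cl k1 S1' h1 e1' (cl (co phi i0) S0 h0 e0' D))) + 2 →
      (Module.finrank ℤ L : ℝ) ≤ 2 * (θ - θ⁻¹) ∨
      ∃ θ'' : ℝ, θ'' ≤ θ - ((1 + Eis.emb w) * (c * (starRingEnd ℂ) T)).re / θ + 35 / θ ∧
        ∀ B : ℝ, BdP Eis θ'' B → (Module.finrank ℤ L : ℝ) ≤ 2 + B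

end Pool.Agent.B5
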