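import Pool.Agent.Lib.MP_b5021c_nt.IfaceE0
import Pool.Agent.Lib.MP_b5021c_nt.IfaceS4

/-!
# Board b5, stage 3, chapter E6C: the induction for complex elements (PaperE6C.md)
-/

namespace Pool.Agent.B5

open Pool.Agent.MP_b5021c_nt (Eis)

noncomputable section

/-- The slack of the complex induction. -/
def sC (θ : ℝ) : ℝ := max (97 / 100) (480001 - Real.log θ / 400)

/-- The bound of the complex induction. -/
def bC (θ : ℝ) : ℝ := 2 * θ + sC θ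

/-- (E6C_NCS) numerical properties of the bound. -/
def NcsS : Prop :=
  (∀ x y : ℝ, 1 ≤ x → x ≤ y → bC x ≤ bC y) ∧
  (∀ x : ℝ, 1 ≤ x → x ≤ Real.exp 400 → 2 * x + 480000 ≤ bC x) ∧
  (∀ x : ℝ, 1 ≤ x → bC x ≤ 2 * x + 480001 ∧ 2 * x + 97 / 100 ≤ bC x) ∧
  (∀ θ x : ℝ, 401 ≤ θ → 1 ≤ x →
    (x ≤ θ - 1 / 2 - 1 / θ → 1 + bC x ≤ bC θ) ∧
    (x ≤ θ - 1 - 1 / (500 * θ) → 2 + bC x ≤ bC θ)) ∧
  (∃ t : ℝ, ∀ θ : ℝ, t ≤ θ → bC θ = 2 * θ + 97 / 100)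

/-- (E6C_CST) the induction step for an element with facet ports. -/
def CstS : Prop := ∀ (P L : Type) [Fintype P] [DecidableEq P] [AddCommGroup L] [Module.Free ℤ L]
  [Module.Finite ℤ L] (phi : L →+ (P → ℤ)) (D : AO Eis L) (θ : ℝ), Real.exp 400 ≤ θ → FP phi D →
    ClassP θ (D.coeff 0) → 4 ≤ Module.finrank ℤ L →
    (∀ x : ℝ, x ≤ θ - 1 / 2 → BdP Eis x (bC x)) → (Module.finrank ℤ L : ℝ) ≤ bC θ

/-- (E6C_CCS) class `P` over `ℤ[ω]`, all `θ`. [uses CstS FpRedS Jq3S NcsS] -/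
def CcS : Prop := ∀ θ : ℝ, BdP Eis θ (bC θ)

/-- (E6C_CCF) CONCLUSION. [uses CcS NcsS] -/
def CcfS : Prop := ∃ t : ℝ, ∀ θ : ℝ, t ≤ θ → BdP Eis θ (2 * θ + 97 / 100)

end

end Pool.Agent.B5
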