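import Pool.Agent.Lib.MP_b5021c_nt.IfaceJ

/-!
# Board b5, stage 3, chapter EF: completion of a non z-free element of class V (PaperEF.md)

The term `z^k w^a` has the weight `q k - l a`.
-/

namespace Pool.Agent.B5

open scoped LaurentPolynomial
open Polynomial

section EF

variable {O : Type} [CommRing O] {L : Type} [AddCommGroup L]

/-- The part of `D` of weight `j`. -/
noncomputable def wp (q : ℕ) (l : L →+ ℤ) (j : ℤ) (D : AO O L) : AO O L :=
  AddMonoidAlgebra.ofCoeff (Finsupp.onFinset D.coeff.support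
    (fun a => AddMonoidAlgebra.ofCoeff ((D.coeff a).coeff.filter fun k => (q : ℤ) * k - l a = j))
    (fun a ha => by
      rw [Finsupp.mem_support_iff]
      intro h
      apply ha
      rw [h]
      have h0 : AddMonoidAlgebra.coeff (0 : RO O) = 0 := rfl
      rw [h0, Finsupp.filter_zero]
      rfl))

/-- Every coefficient is a monomial in `z`, with exponents given by an affine function. -/
def ZFree (D : AO O L) : Prop :=
  ∃ (q : ℕ) (l : L →+ ℤ) (n : ℤ), 0 < q ∧
    ∀ (a : L) (k : ℤ), (D.coeff a).coeff k ≠ 0 → (q : ℤ) * k = l a + (q : ℤ) * n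

theorem wp_coeff (q : ℕ) (l : L →+ ℤ) (j : ℤ) (D : AO O L) (a : L) (k : ℤ) :
    ((wp q l j D).coeff a).coeff k =
      if (q : ℤ) * k - l a = j then (D.coeff a).coeff k else 0 := by
  change ((D.coeff a).coeff.filter fun k => (q : ℤ) * k - l a = j) k = _
  rw [Finsupp.filter_apply]

variable [Coef O]

/-- The data of chapter EF: `D` is stable and primitive, `D_0 = q0` is a polynomial without zeros in
the open disc, all weights are nonnegative. -/
structure EFD (D : AO O L) (q0 : Polynomial O) (q : ℕ) (l : L →+ ℤ) : Prop where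
  st : Stable D
  prim : Prim D
  c0 : D.coeff 0 = Polynomial.toLaurent q0
  zf : ∀ z : ℂ, ‖z‖ < 1 → (q0.map Coef.emb).eval z ≠ 0
  qpos : 0 < q
  nn : ∀ (a : L) (k : ℤ), (D.coeff a).coeff k ≠ 0 → l a ≤ (q : ℤ) * k

/-- The ports of the completion: `(a, n)` has the ports of `a + n c` and the new port `n`. -/
def phC {P : Type} (phi : L →+ (P → ℤ)) (c : L) : L × ℤ →+ (Option P → ℤ) where
  toFun x o := o.elim x.2 fun p => phi (x.1 + x.2 • c) p
  map_zero' := by
    funext o
    cases o <;> simp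
  map_add' x y := by
    funext o
    cases o with
    | none => simp
    | some p =>
      simp only [Option.elim_some, Prod.fst_add, Prod.snd_add, add_smul, map_add, Pi.add_apply]
      ring

end EF

/-- (EF.1) VERTEX. A gauge in which the terms of weight zero span. -/
def VtxS : Prop := ∀ (L : Type) [AddCommGroup L] [Module.Free ℤ L] [Module.Finite ℤ L]
  (S : Finset L) (m : L → ℤ) (lam : L →+ ℤ), (∀ a ∈ S, a ≠ 0 → 0 < lam a) → 0 ≤ m 0 →
    rk (S : Set L) = Module.finrank ℤ L →
      ∃ (q : ℕ) (l : L →+ ℤ), 0 < q ∧ (∀ a ∈ S, l a ≤ (q : ℤ) * m a) ∧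
        rk {a : L | a ∈ S ∧ l a = (q : ℤ) * m a} = Module.finrank ℤ L

/-- (EF.2a) The parts: sum, and values at `(z t^q, u t^(-l))`. -/
def WpsS : Prop := ∀ (O : Type) [CommRing O] [IsDomain O] [IsPrincipalIdealRing O] [Coef O]
  (L : Type) [AddCommGroup L] [Module.Free ℤ L] [Module.Finite ℤ L]
  (D : AO O L) (q0 : Polynomial O) (q : ℕ) (l : L →+ ℤ), EFD D q0 q l →
    ∃ m : ℕ, D = ∑ j ∈ Finset.range m, wp q l (j : ℤ) D ∧
      (∀ j : ℤ, j < 0 ∨ (m : ℤ) ≤ j → wp q l j D = 0) ∧
      ∀ lam : L →+ ℤ, Pos lam D → ∀ (z : Circle) (u : AddChar L Circle),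
        (∀ t : Circle, ∃ (z' : Circle) (u' : AddChar L Circle), ∀ s : ℂ,
          ∑ j ∈ Finset.range m, (t : ℂ) ^ j * (sl u lam (spec z (wp q l (j : ℤ) D))).eval s =
            (sl u' lam (spec z' D)).eval s) ∧
        ∀ t : ℂ, ∑ j ∈ Finset.range m, t ^ j * (sl u lam (spec z (wp q l (j : ℤ) D))).eval 0 =
          (q0.map Coef.emb).eval ((z : ℂ) * t ^ q)

/-- (EF.2) The part of weight zero is stable and dominates all parts on the torus. -/
def WstS : Prop := ∀ (O : Type) [CommRing O] [IsDomain O] [IsPrincipalIdealRing O] [Coef O]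
  (L : Type) [AddCommGroup L] [Module.Free ℤ L] [Module.Finite ℤ L]
  (D : AO O L) (q0 : Polynomial O) (q : ℕ) (l : L →+ ℤ), EFD D q0 q l →
    Stable (wp q l 0 D) ∧ ∀ j : ℤ, ∃ C : ℝ, ∀ (z : Circle) (u : AddChar L Circle),
      ‖ev z u (wp q l j D)‖ ≤ C * ‖ev z u (wp q l 0 D)‖

/-- (EF.3a) A factor of a stable element whose `#` is also a factor is full. -/
def FulS : Prop := ∀ (O : Type) [CommRing O] [IsDomain O] [IsPrincipalIdealRing O] [Coef O]
  (L : Type) [AddCommGroup L] [Module.Free ℤ L] [Module.Finite ℤ L]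
  (G h : AO O L), Stable G → h ∣ G → h ∣ sharp G → ∀ lam : L →+ ℤ, Pos lam G →
    ∃ b : L, FullAt lam (mon b * h)

/-- (EF.3) A common factor of the primitive part of the part of weight zero and of its `#` divides
all parts. -/
def WdvS : Prop := ∀ (O : Type) [CommRing O] [IsDomain O] [IsPrincipalIdealRing O] [Coef O]
  (L : Type) [AddCommGroup L] [Module.Free ℤ L] [Module.Finite ℤ L]
  (D : AO O L) (q0 : Polynomial O) (q : ℕ) (l : L →+ ℤ) (c : RO O) (G h : AO O L), EFD D q0 q l →
    c ≠ 0 → wp q l 0 D = cst c * G → Prim G → Irreducible h → h ∣ G → h ∣ sharp G →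
      ∀ j : ℤ, h ∣ wp q l j D

/-- (EF.4) If `D` divides its part of weight zero then it is equal to it. -/
def WhoS : Prop := ∀ (O : Type) [CommRing O] [IsDomain O] [IsPrincipalIdealRing O] [Coef O]
  (L : Type) [AddCommGroup L] [Module.Free ℤ L] [Module.Finite ℤ L]
  (D : AO O L) (q0 : Polynomial O) (q : ℕ) (l : L →+ ℤ), EFD D q0 q l → Unitary D →
    D ∣ wp q l 0 D → D = wp q l 0 D

/-- (EF.5) The completion of the primitive part of the part of weight zero. -/
def WcmS : Prop := ∀ (O : Type) [CommRing O] [IsDomain O] [IsPrincipalIdealRing O] [Coef O]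
  (P L : Type) [Fintype P] [DecidableEq P] [AddCommGroup L] [Module.Free ℤ L]
  [Module.Finite ℤ L] (phi : L →+ (P → ℤ)) (D : AO O L) (q0 : Polynomial O) (q : ℕ) (l : L →+ ℤ)
  (c : RO O) (G : AO O L), DD phi D → EFD D q0 q l → c ≠ 0 → wp q l 0 D = cst c * G → Prim G →
    rk (supp G) = Module.finrank ℤ L →
    (∀ h : AO O L, Irreducible h → h ∣ G → h ∣ sharp G → False) →
      ∃ b : L, DD (phC phi b) (compl G) ∧
        ∃ N : ℝ, N ≤ ‖(Coef.emb (q0.coeff 0) : ℂ)‖ ∧ ClassV N ((compl G).coeff 0)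

/-- (EF.6) THEOREM Z. An element of class `V(N)` is z-free up to gauge, or there is an element of
class `V(N')`, `N' ≤ N`, whose rank is larger by one. -/
def FclS : Prop := ∀ (O : Type) [CommRing O] [IsDomain O] [IsPrincipalIdealRing O] [Coef O]
  (P L : Type) [Fintype P] [DecidableEq P] [AddCommGroup L] [Module.Free ℤ L]
  [Module.Finite ℤ L] (phi : L →+ (P → ℤ)) (D : AO O L) (N : ℝ), DD phi D → ClassV N (D.coeff 0) →
    1 ≤ Module.finrank ℤ L →
      ZFree D ∨ ∃ (N' : ℝ) (b : L) (D' : AO O (L × ℤ)), N' ≤ N ∧ DD (phC phi b) D' ∧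
        ClassV N' (D'.coeff 0) ∧ Module.finrank ℤ (L × ℤ) = Module.finrank ℤ L + 1

end Pool.Agent.B5
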