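import Pool.Agent.Lib.MP_b5021c_nt.IfaceE4
import Pool.Agent.Lib.MP_b5021c_nt.IfaceE5
import Pool.Agent.Lib.MP_b5021c_nt.IfaceE5T
import Pool.Agent.Lib.MP_b5021c_nt.IfaceE6C
import Pool.Agent.Lib.MP_b5021c_nt.IfaceEF

/-!
# Board b5, stage 3, chapter E6C: the closings in the complex induction (PaperE6C.md)

`K` is the rank of the lattice `L`, `V = D_0 + eta D_S` the closed constant coefficient.
-/

namespace Pool.Agent.B5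

open scoped LaurentPolynomial
open Polynomial
open Pool.Agent.MP_b5021c_nt (Eis)

/-- (E6C_NUM) numbers: the linear slack. [uses Su3S] -/
def Num6S : Prop := ∀ (θ : ℝ) (m l g : ℕ) (N : Fin m → ℝ), Real.exp 400 ≤ θ → 1 ≤ m →
  (∀ i, Real.sqrt 3 ≤ N i) → ∏ i, N i ≤ θ + 1 / 2 → (m = 1 → ∏ i, N i ≤ 73 / 100 * θ) →
  (l : ℝ) * ∏ i, N i ≤ 2 * θ → (g ≤ 11 ∨ Real.sqrt 3 ^ (g + 1) ≤ θ + 1 / 2) →
    2 + (g : ℝ) + l + ∑ i, bV3 (N i) ≤ 2 * θ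

/-- (E6C_BIG) the factors of a closed element of class `V(N)`, facet ports.
[uses G1pS LsdS G4S E1S MVS MmulS ClpS; as B/H31/Cl4.lean] -/
def Big6S : Prop := ∀ (O : Type) [CommRing O] [IsDomain O] [IsPrincipalIdealRing O] [Coef O]
  (P L : Type) [Fintype P] [DecidableEq P] [AddCommGroup L] [Module.Free ℤ L]
  [Module.Finite ℤ L] (phi : L →+ (P → ℤ)) (D : AO O L) (S : L) (i0 : P) (eta : (RO O)ˣ)
  (h : co phi i0 S = 1) (c : RO O) (n : ℕ) (G : Fin n → AO O (Ker (co phi i0))) (N : ℝ)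
  (B : ℝ → ℝ), FP phi D → FD phi D S i0 eta h c n G →
    ClassV N (D.coeff 0 + (eta : RO O) * D.coeff S) →
    Monotone B → (∀ x, 1 ≤ B x) → (∀ x, x ≤ N → BdV O x (B x)) →
      ClassV (M c) c ∧ ∃ N' : Fin (big G).card → ℝ,
        (∀ i, 1 < N' i ∧ ∃ Q' : RO O, ClassV (N' i) Q') ∧ M c * ∏ i, N' i = N ∧
        ((snp phi S i0 G).card : ℝ) * ∏ i, N' i + N ≤ 2 * M (D.coeff 0) ∧
        (rk (supp (cl (co phi i0) S h eta D)) : ℝ) ≤ (snp phi S i0 G).card + ∑ i, B (N' i)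

/-- (E6C_ONE) one closing with a load of type B or C, drop `g`.
[uses T2oS Inj1S TreS E2S EvRS MVS] -/
def One6S : Prop := ∀ (O : Type) [CommRing O] [IsDomain O] [IsPrincipalIdealRing O] [Coef O]
  (P L : Type) [Fintype P] [DecidableEq P] [AddCommGroup L] [Module.Free ℤ L]
  [Module.Finite ℤ L] (phi : L →+ (P → ℤ)) (D : AO O L) (S : L) (i0 : P) (eta : (RO O)ˣ)
  (h : co phi i0 S = 1) (θ t : ℝ) (g : ℕ), FP phi D → 2 ≤ Module.finrank ℤ L → Ray D S →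
    1000000 ≤ θ → ClassP θ (D.coeff 0) → Gp θ t (D.coeff 0) (D.coeff S) eta →
    TyB (θ / 10 + 1) (D.coeff 0) (D.coeff S) eta →
    ((∀ z : Circle, ‖evR z (D.coeff 0 + (eta : RO O) * D.coeff S)‖ ≤ ‖evR z (D.coeff 0)‖) →
      TyB 1 (D.coeff 0) (D.coeff S) eta) →
    Module.finrank ℤ L = rk (supp (cl (co phi i0) S h eta D)) + 1 + g →
      ∃ θ' : ℝ, θ / 3 ≤ θ' ∧ θ' ≤ t ∧ 1 < θ' ∧
        ((Module.finrank ℤ L : ℝ) + θ' ≤ 2 * θ + 1 + g ∨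
          (Module.finrank ℤ L : ℝ) ≤ 2 * (θ - θ⁻¹) ∨
          ∀ B : ℝ, 1 ≤ B → BdP O θ' B → (Module.finrank ℤ L : ℝ) ≤ 1 + g + B)

/-- (E6C_PAI) a pair of loads of type B. [uses SlxS ClpS NbfS LsdS G1pS G4S E1S MVS MmulS] -/
def Pai6S : Prop := ∀ (O : Type) [CommRing O] [IsDomain O] [IsPrincipalIdealRing O] [Coef O]
  (P L : Type) [Fintype P] [DecidableEq P] [AddCommGroup L] [Module.Free ℤ L]
  [Module.Finite ℤ L] (phi : L →+ (P → ℤ)) (D : AO O L) (S : L) (i0 : P) (e₁ e₂ : (RO O)ˣ)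
  (h : co phi i0 S = 1) (θ t : ℝ), FP phi D → 3 ≤ Module.finrank ℤ L → Ray D S →
    1000000 ≤ θ → ClassP θ (D.coeff 0) → Adj e₁ e₂ →
    ‖mn ((e₁ : RO O) * D.coeff S) (D.coeff 0)‖ ≤ 1 / 4 →
    Gp θ t (D.coeff 0) (D.coeff S) e₁ → Gp θ t (D.coeff 0) (D.coeff S) e₂ →
    (Module.finrank ℤ L = rk (supp (cl (co phi i0) S h e₁ D)) + 1 ∨
      Module.finrank ℤ L = rk (supp (cl (co phi i0) S h e₂ D)) + 1) →
      ∃ θ' : ℝ, θ / 3 ≤ θ' ∧ θ' ≤ t ∧ 1 < θ' ∧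
        ((Module.finrank ℤ L : ℝ) + θ' ≤ 2 * θ + 1 ∨
          (∀ B : ℝ, 1 ≤ B → BdP O θ' B → (Module.finrank ℤ L : ℝ) ≤ 1 + B) ∨
          (2 * θ' ^ 2 ≤ θ ^ 2 ∧
            ∀ B : ℝ, 1 ≤ B → BdP O θ' B → (Module.finrank ℤ L : ℝ) ≤ 6 + B))

/-- (E6C_SNG) a single load of type A. [uses FDS NVES TreS NbfS Big6S Jw3S Num6S MVS] -/
def Sng6S : Prop := ∀ (P L : Type) [Fintype P] [DecidableEq P] [AddCommGroup L] [Module.Free ℤ L]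
  [Module.Finite ℤ L] (phi : L →+ (P → ℤ)) (D : AO Eis L) (S : L) (i0 : P) (eta : (RO Eis)ˣ)
  (h : co phi i0 S = 1) (θ N' : ℝ) (g : ℕ), FP phi D → 2 ≤ Module.finrank ℤ L → Ray D S →
    Real.exp 400 ≤ θ → ClassP θ (D.coeff 0) →
    TypA N' (D.coeff 0) (D.coeff 0 + (eta : RO Eis) * D.coeff S) → N' ≤ 72 / 100 * θ + 1 →
    Module.finrank ℤ L = rk (supp (cl (co phi i0) S h eta D)) + 1 + g →
    (g ≤ 4 ∨ Real.sqrt 3 ^ (g + 1) ≤ M (D.coeff 0 + (eta : RO Eis) * D.coeff S)) →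
      (Module.finrank ℤ L : ℝ) ≤ 2 * θ

/-- The exact bound in class `V` (chapter EV). -/
def Vx6S : Prop := ∀ N : ℝ, 4 ≤ N → BdV Eis N (2 * N)

/-- (E6C_ALO) the window: the load `eA` of type A, when the load `eB` of type B has a drop.
[uses FDS ClpS Inj1S CroS NbfS Big6S Num6S FclS Vx6S Jw3S NVES MVS RkUSS, B/H58/Azf.lean] -/
def Alo6S : Prop := ∀ (P L : Type) [Fintype P] [DecidableEq P] [AddCommGroup L] [Module.Free ℤ L]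
  [Module.Finite ℤ L] (phi : L →+ (P → ℤ)) (D : AO Eis L) (S : L) (i0 : P) (eA eB : (RO Eis)ˣ)
  (h : co phi i0 S = 1) (w : Eisˣ) (θ N' : ℝ), FP phi D → 3 ≤ Module.finrank ℤ L → Ray D S →
    Real.exp 400 ≤ θ → ClassP θ (D.coeff 0) →
    (eA : RO Eis) = LaurentPolynomial.C (w : Eis) * LaurentPolynomial.T (-1) * (eB : RO Eis) →
    Cross (D.coeff 0) (D.coeff S) eA eB → N' ≤ θ + 482 / 1000 →
    TypA N' (D.coeff 0) (D.coeff 0 + (eA : RO Eis) * D.coeff S) →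
    (∀ z : Circle, evR z (D.coeff 0 + (eB : RO Eis) * D.coeff S) ≠ 0) →
    Module.finrank ℤ L = rk (supp (cl (co phi i0) S h eA D)) + 1 →
    Module.finrank ℤ L ≠ rk (supp (cl (co phi i0) S h eB D)) + 1 →
      (Module.finrank ℤ L : ℝ) ≤ 2 * θ + 97 / 100

/-- (E6C_TTW) the window: the double closing when the drop is at least two.
[uses T2cS T2fS McoS] -/
def Ttw6S : Prop := ∀ (P L : Type) [Fintype P] [DecidableEq P] [AddCommGroup L] [Module.Free ℤ L]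
  [Module.Finite ℤ L] (phi : L →+ (P → ℤ)) (D : AO Eis L) (S0 S1 S2 : L)
  (e0 e1 e2 : (RO Eis)ˣ) (θ x y : ℝ) (n : ℤ) (q f : Eis[X]) (s r : ℂ[X]) (T c : ℂ),
    FP phi D → 4 ≤ Module.finrank ℤ L → 1000000 ≤ θ → Mut D S0 S1 e0 e1 → Mut D S0 S2 e0 e2 →
    S2 ∉ satur (US e1 S1 D ⊔ Submodule.span ℤ {S0}) →
    S1 ∉ satur (US e2 S2 D ⊔ Submodule.span ℤ {S0}) →
    Wn θ (D.coeff 0) (D.coeff S0) e0 x y n q f s r T c → 1 ≤ x → ‖c‖ ≤ 11 / 10 →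
    IsUnit (f.coeff 0) →
      (Module.finrank ℤ L : ℝ) ≤ 2 * (θ - θ⁻¹) ∨
      ∃ θ'' : ℝ, θ'' ≤ θ - 3 / 2 + 35 / θ ∧
        ∀ B : ℝ, BdP Eis θ'' B → (Module.finrank ℤ L : ℝ) ≤ 2 + B

end Pool.Agent.B5
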