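import Pool.Agent.Lib.MP_b5021c_nt.IfaceK1

/-!
# MP_b5021c_nt, the upper bound: `n ∈ S^(2n-2)` for every integer `n ≥ 2` (known: Bertin, Boyd-Mauldin)

Needed for the two-sided statement `m_k = k/2 + O(log k)`.
-/

namespace Pool.Agent.MP_b5021c_nt

open Polynomial Filter Topology

noncomputable section

/-- The family of Pisot numbers: `t = n + Σ_{N ∈ l} 1/(t^N - 1)`, `t > 1`. -/
def Fam (n : ℕ) (l : List ℕ) (t : ℝ) : Prop :=
  1 < t ∧ t = n + (l.map fun N => 1 / (t ^ N - 1)).sum

/-- UPA. The numbers of the family are Pisot numbers if `l` has at most `2n-2` entries.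

Proof. Multiply by the product of the `x^N - 1`: `t` is a zero of the monic integral polynomial
`P(x) = (x - n) ∏ (x^N - 1) - Σ_i ∏_{j ≠ i} (x^{N_j} - 1)`, so `t` is an algebraic integer. Let `γ ≠ t` be a zero of
the minimal polynomial of `t`.
(a) `γ^N = 1` for some `N ∈ l` is impossible: the minimal polynomial of `t` would divide `x^N - 1`.
So `γ = n + Σ 1/(γ^N - 1)`.
(b) If `|γ| = 1` then `Re 1/(γ^N - 1) = -1/2`, so `Re γ = n - (length l)/2 ≥ 1`, `γ = 1`, impossible by (a)
(if `l` is empty then `γ = n`).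
(c) `|γ| > 1`: for `0 ≤ s ≤ 1` let `P_s(z) = (1 - n z) ∏ (1 - s z^N) - z Σ_i s z^{N_i} ∏_{j ≠ i} (1 - s z^{N_j})`
(`= z^deg P(1/z)` for `s = 1`). For `s < 1`, `|z| = 1`: `P_s(z) = 0` would give
`1/z = n + Σ s z^N/(1 - s z^N)` with real part `> n - (length l)/2 ≥ 1` (for `l` nonempty). So the number of zeros of
`P_s` in `|z| < 1` is the same for all `0 ≤ s < 1` (theorem ZCO, compiled: H67/Zco.lean), namely one (`P_0 = 1 - n z`),
and for `s → 1` at most one zero remains in `|z| < 1` (if `1/t`, `1/γ` were two zeros of `P_1`, then by ZCO on a circle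
`|z| = ρ < 1` around both without zeros of `P_1`, `P_s` would have two zeros for `s` near `1`). Contradiction. -/
def UpaS : Prop := ∀ (n : ℕ) (l : List ℕ) (t : ℝ), 2 ≤ n → l.length ≤ 2 * n - 2 → (∀ N ∈ l, 1 ≤ N) →
  Fam n l t → t ∈ PS

/-- UPL. `n` lies in the derived set of order `2n-2`.

Proof. For every `l` (positive entries) there is exactly one `t = t(l)` with `Fam n l t` (the right side minus `t` is
strictly decreasing on `(1, ∞)`, it is `≥ 0` at `t = n` and `≤ 0` at `n + length l`). `t(r :: l) > t(l)` and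
`t(r :: l) → t(l)` for `r → ∞`. Induction on `j`: `length l + j = 2n-2` gives `t(l) ∈ S^(j)`
(`j = 0` is UPA; `t(l)` is the limit of the `t(r :: l) ∈ S^(j-1)`, different from `t(l)`). `l = []`: `t = n`. -/
def UplS : Prop := ∀ n : ℕ, 2 ≤ n → (n : ℝ) ∈ PSk (2 * n - 2)

end

end Pool.Agent.MP_b5021c_nt
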