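import Pool.Agent.Lib.MP_b5021c_nt.IfaceK3
import Pool.Agent.Lib.MP_b5021c_nt.IfaceU
import Pool.Agent.Lib.MP_b5021c_nt.IfaceS4

/-!
# Board b5, stage 3, chapter E7: the exact values of `m_k` from the exact bounds of the rank

`EeS t`: the rank of an element of `DD` over `ℤ`, class `P(θ)`, `θ ≥ t`, is at most `2 (θ - 1/θ)`.
`EoS t`: for odd rank it is at most `2 θ - 1`.
-/

namespace Pool.Agent.B5

open Pool.Agent.MP_b5021c_nt Polynomial

/-- GDZ. The polynomials of the structure theorem belong to the class `DD` over `ℤ`. -/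
def GdzS : Prop := ∀ (ι : Type) [Fintype ι] [Nonempty ι] [DecidableEq ι] (D : Finset ι → ℤ[X]) (θ : ℝ),
  Good D θ → DD (AddMonoidHom.id (ι → ℤ)) (toA D) ∧ ClassP θ ((toA D).coeff 0)

/-- (EE) above `t`: the rank is at most `2 (θ - 1/θ)`. -/
def EeS (t : ℝ) : Prop := ∀ θ : ℝ, t ≤ θ → BdP ℤ θ (2 * (θ - 1 / θ))

/-- (EO) above `t`: an odd rank is at most `2 θ - 1`. -/
def EoS (t : ℝ) : Prop := ∀ θ : ℝ, t ≤ θ → ∀ (P L : Type) [Fintype P] [DecidableEq P] [AddCommGroup L]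
  [Module.Free ℤ L] [Module.Finite ℤ L] (phi : L →+ (P → ℤ)) (D : AO ℤ L), DD phi D →
    ClassP θ (D.coeff 0) → Odd (Module.finrank ℤ L) → (Module.finrank ℤ L : ℝ) ≤ 2 * θ - 1

/-- The upper bound for odd `k` (Bertin): `(c + √(c² + 4))/2` lies in the `(2c-1)`-st derived set. -/
def UpqS : Prop := ∀ c : ℕ, 1 ≤ c → (((c : ℝ) + Real.sqrt ((c : ℝ) ^ 2 + 4)) / 2) ∈ PSk (2 * c - 1)

/-- The value for odd `k`: above `2 t + 480000`. -/
def MexS : Prop := ∀ t : ℝ, EeS t → ∀ k : ℕ, Odd k → 2 * t + 480000 ≤ k →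
  IsLeast (PSk k) ((((k : ℝ) + 1) + Real.sqrt (((k : ℝ) + 1) ^ 2 + 16)) / 4)

/-- The value for even `k`: above `2 t + 480000`. -/
def MoxS : Prop := ∀ t : ℝ, EoS t → ∀ k : ℕ, Even k → 1 ≤ k → 2 * t + 480000 ≤ k →
  IsLeast (PSk k) ((k : ℝ) / 2 + 1)

/-- The value for odd `k`, without a restriction (from a bound for all `θ`). -/
def MeaS : Prop := (∀ θ : ℝ, BdP ℤ θ (2 * (θ - 1 / θ))) → ∀ k : ℕ, Odd k →
  IsLeast (PSk k) ((((k : ℝ) + 1) + Real.sqrt (((k : ℝ) + 1) ^ 2 + 16)) / 4)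

end Pool.Agent.B5
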