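import Pool.Agent.Lib.MP_b5021c_nt.IfaceE3V
import Pool.Agent.Lib.MP_b5021c_nt.IfaceE4
import Pool.Agent.Lib.MP_b5021c_nt.IfaceE5
import Pool.Agent.Lib.MP_b5021c_nt.IfaceE5T
import Pool.Agent.Lib.MP_b5021c_nt.IfaceE6Cr
import Pool.Agent.Lib.MP_b5021c_nt.IfaceE7
import Pool.Agent.Lib.MP_b5021c_nt.IfaceEF
import Pool.Agent.Lib.MP_b5021c_nt.K.H25.Bch

/-!
# Board b5, stage 3, chapter E6 (real induction): `rank ≤ 2 (θ - 1/θ)` for large `θ` (PaperE6.md)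

In the rows of this file `K` is the rank `Module.finrank ℤ L` of `D`, the target is
`K ≤ 2 (θ - 1/θ) + E`.  `Full rank at e` means `K = rk (supp (cl .. e D)) + 1`.
-/

namespace Pool.Agent.B5

open scoped LaurentPolynomial
open Polynomial
open Pool.Agent.MP_b5021c_nt (Eis nz)
open Pool.Agent.MP_b5021c_nt.Ire (bc)
open Pool.Agent.B5.H25.Bch (bcR)

/-! ## The claims -/

/-- RESULT of the complex induction (chapter E6C), above the threshold `t`. -/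
def CctS (t : ℝ) : Prop := ∀ θ : ℝ, t ≤ θ → BdP Eis θ (2 * θ + 97 / 100)

/-- The slack of the real induction. -/
noncomputable def eR (t x : ℝ) : ℝ := max 0 (1 - (Real.log x - Real.log t) / 100)

/-- The claim of the real induction. -/
def RcS (t : ℝ) : Prop := ∀ θ : ℝ, t ≤ θ → BdP ℤ θ (2 * (θ - 1 / θ) + eR t θ)

/-- The hypotheses of the induction step. -/
structure HypR (θ E : ℝ) : Prop where
  big : 10 ^ 13 ≤ θ
  E0 : 0 ≤ E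
  rl : ∀ x : ℝ, θ / 3 ≤ x → x ≤ θ - 1 / 4 →
    BdP ℤ x (2 * (x - 1 / x) + E + Real.log (θ / x) / 100)
  cx : ∀ x : ℝ, θ / 3 ≤ x → BdP Eis x (2 * x + 97 / 100)
  p3 : ∀ x : ℝ, BdP ℤ x (2 * x + 480000)
  c3 : ∀ x : ℝ, BdP Eis x (2 * x + 480000)
  v2 : ∀ N : ℝ, 4 ≤ N → BdV ℤ N (2 * N)
  v3 : ∀ N : ℝ, BdV ℤ N (2 * max 1 N + 4800)

/-- (E6_STP) the induction step. [uses all rows below except IND, EEF] -/
def StpS : Prop := ∀ (P L : Type) [Fintype P] [DecidableEq P] [AddCommGroup L]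
  [Module.Free ℤ L] [Module.Finite ℤ L] (phi : L →+ (P → ℤ)) (D : AO ℤ L) (θ E : ℝ),
    HypR θ E → FP phi D → 4 ≤ Module.finrank ℤ L → ClassP θ (D.coeff 0) →
      (Module.finrank ℤ L : ℝ) ≤ 2 * (θ - 1 / θ) + E

/-- (E6_IND) the induction. [uses FpRedS] -/
def IndS : Prop := ∀ t : ℝ, 10 ^ 13 ≤ t → CctS t → (∀ x : ℝ, BdP ℤ x (2 * x + 480000)) →
  (∀ x : ℝ, BdP Eis x (2 * x + 480000)) → (∀ N : ℝ, 4 ≤ N → BdV ℤ N (2 * N)) →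
  (∀ N : ℝ, BdV ℤ N (2 * max 1 N + 4800)) → StpS → RcS t

/-- (E6_EEF) -/
def EefS : Prop := ∀ t : ℝ, 1 ≤ t → RcS t → EeS (t * Real.exp 100)

/-! ## Numbers -/

/-- (E6_NRL) the numerical rule for one step of cost `a = 1, 2, 3`. -/
def NrlS : Prop := ∀ (θ E x : ℝ) (K : ℝ), 10 ^ 12 ≤ θ → 0 ≤ E → θ / 3 ≤ x →
  (x ≤ θ - 51 / 100 → K ≤ 1 + (2 * (x - 1 / x) + E + Real.log (θ / x) / 100) →
    K ≤ 2 * (θ - 1 / θ) + E) ∧
  (x ≤ θ - 1 - 1 / (150 * θ) → K ≤ 2 + (2 * (x - 1 / x) + E + Real.log (θ / x) / 100) →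
    K ≤ 2 * (θ - 1 / θ) + E) ∧
  (x ≤ θ - 151 / 100 → K ≤ 3 + (2 * (x - 1 / x) + E + Real.log (θ / x) / 100) →
    K ≤ 2 * (θ - 1 / θ) + E)

/-- (E6_NUR) numbers: the linear slack for real elements. [compare E6C_NUM] -/
def NurS : Prop := ∀ (θ : ℝ) (m l g : ℕ) (N : Fin m → ℝ), 10 ^ 12 ≤ θ → 1 ≤ m →
  (∀ i, 2 ≤ N i) → ∏ i, N i ≤ θ + 1 / 2 → (m = 1 → ∏ i, N i ≤ 997 / 1000 * θ) →
  (l : ℝ) * ∏ i, N i ≤ 2 * θ → (g ≤ 11 ∨ Real.sqrt 3 ^ (g + 1) ≤ θ + 1 / 2) →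
    2 + (g : ℝ) + l + ∑ i, (2 * max 1 (N i) + 4800) ≤ 2 * θ - 1

/-! ## Base change -/

/-- The base change of a unit. -/
noncomputable def bcU (e : (RO ℤ)ˣ) : (RO Eis)ˣ := Units.map (bcR : RO ℤ →* RO Eis) e

/-- (E6_BCD) base change of rays, closings, mutual pairs, facet ports. -/
def BcdS : Prop := ∀ (P L : Type) [Fintype P] [DecidableEq P] [AddCommGroup L]
  [Module.Free ℤ L] [Module.Finite ℤ L] (phi : L →+ (P → ℤ)) (D : AO ℤ L),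
    (∀ S, Ray (bc D) S ↔ Ray D S) ∧
    (FP phi D → 1 ≤ Module.finrank ℤ L → FP phi (bc D)) ∧
    (∀ (e : (RO ℤ)ˣ) (S a : L), vco (bcU e) S (bc D) a = bcR (vco e S D a)) ∧
    (∀ (e : (RO ℤ)ˣ) (S : L), US (bcU e) S (bc D) = US e S D) ∧
    (∀ (S0 S1 : L) (e0 e1 : (RO ℤ)ˣ), Mut (bc D) S0 S1 (bcU e0) (bcU e1) ↔ Mut D S0 S1 e0 e1) ∧
    (∀ (k : L →+ ℤ) (S : L) (h : k S = 1) (e : (RO ℤ)ˣ),
      cl k S h (bcU e) (bc D) = bc (cl k S h e D)) ∧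
    (∀ (S0 S1 : L) (X : Dp phi S0 S1) (u0 u1 : (RO ℤ)ˣ),
      dc X (bcU u0) (bcU u1) (bc D) = bc (dc X u0 u1 D)) ∧
    (∀ a, M ((bc D).coeff a) = M (D.coeff a)) ∧ (∀ a, RlR ((bc D).coeff a)) ∧
    (∀ e : (RO ℤ)ˣ, RlR (bcU e : RO Eis)) ∧ rk (supp (bc D)) = rk (supp D)

/-! ## Two closings at a mutual pair -/

/-- (E6_MUG) the first closing at a mutual pair, one factor. [uses F1S VcoS E2S TwfS Inj1S Inj2S] -/
def MugS : Prop := ∀ (O : Type) [CommRing O] [IsDomain O] [IsPrincipalIdealRing O] [Coef O]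
  (P L : Type) [Fintype P] [DecidableEq P] [AddCommGroup L] [Module.Free ℤ L]
  [Module.Finite ℤ L] (phi : L →+ (P → ℤ)) (D : AO O L) (S0 S1 : L) (e0 e1 kap : (RO O)ˣ) (i0 : P)
  (h0 : co phi i0 S0 = 1) (S1' : Ker (co phi i0)) (c : RO O) (G : AO O (Ker (co phi i0))),
    FP phi D → Ray D S0 → Ray D S1 → S1 ∉ US e0 S0 D → S0 ∉ US e1 S1 D → (S1' : L) = S1 →
    kap ≠ 1 → D.coeff 0 + ((kap * e0 : (RO O)ˣ) : RO O) * D.coeff S0 ≠ 0 →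
    cl (co phi i0) S0 h0 (kap * e0) D = cst c * G →
      Ray G S1' ∧
      c * G.coeff 0 = D.coeff 0 + ((kap * e0 : (RO O)ˣ) : RO O) * D.coeff S0 ∧
      (e1 : RO O) * (c * G.coeff S1') = (1 - (kap : RO O)) * ((e0 : RO O) * D.coeff S0) ∧
      (e0 : RO O) * D.coeff S0 = (e1 : RO O) * D.coeff S1 ∧
      ImS phi S0 ∧ ImS (phO phi S0 i0) S1' ∧ ∃ i1, co (phO phi S0 i0) i1 S1' = 1

/-! ## The cases of the induction step (E6.3 - E6.5) -/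

/-- (E6_VHV) very heavy rays, load of type C. [uses MfcS One6S NrlS] -/
def VhvS : Prop := ∀ (P L : Type) [Fintype P] [DecidableEq P] [AddCommGroup L]
  [Module.Free ℤ L] [Module.Finite ℤ L] (phi : L →+ (P → ℤ)) (D : AO ℤ L) (S : L) (θ E : ℝ)
  (e : (RO ℤ)ˣ) (g : ℕ), HypR θ E → FP phi D → 4 ≤ Module.finrank ℤ L → ClassP θ (D.coeff 0) →
    Ray D S → Gp θ (θ - 51 / 100) (D.coeff 0) (D.coeff S) e →
    ¬ Car (D.coeff 0) ((e : RO ℤ) * D.coeff S) → TyB 0 (D.coeff 0) (D.coeff S) e →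
    (∀ (i0 : P) (h : co phi i0 S = 1),
      Module.finrank ℤ L = rk (supp (cl (co phi i0) S h e D)) + 1 + g) →
    (1 ≤ g → ∃ (S1 : L) (e1 : (RO ℤ)ˣ), Mut D S S1 e e1) →
      (Module.finrank ℤ L : ℝ) ≤ 2 * (θ - 1 / θ) + E

/-- (E6_HVY) heavy rays, load of type B. [uses Cl4S; p3] -/
def HvyS : Prop := ∀ (P L : Type) [Fintype P] [DecidableEq P] [AddCommGroup L]
  [Module.Free ℤ L] [Module.Finite ℤ L] (phi : L →+ (P → ℤ)) (D : AO ℤ L) (S : L) (θ E : ℝ)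
  (e : (RO ℤ)ˣ) (g : ℕ), HypR θ E → FP phi D → 4 ≤ Module.finrank ℤ L → ClassP θ (D.coeff 0) →
    Ray D S → θ / 11 < M (D.coeff S) → Gp θ (23 / 25 * θ + 7) (D.coeff 0) (D.coeff S) e →
    (∀ (i0 : P) (h : co phi i0 S = 1),
      Module.finrank ℤ L = rk (supp (cl (co phi i0) S h e D)) + 1 + g) →
    ((g : ℝ) - 1) * M (D.coeff S) ≤ M (D.coeff 0) →
      (Module.finrank ℤ L : ℝ) ≤ 2 * (θ - 1 / θ) + E

/-- (E6_TYA) loads of type A, `N'` small against `θ`. [uses TreS FDS NbfS Big6S NurS E2S; v3] -/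
def TyaS : Prop := ∀ (P L : Type) [Fintype P] [DecidableEq P] [AddCommGroup L]
  [Module.Free ℤ L] [Module.Finite ℤ L] (phi : L →+ (P → ℤ)) (D : AO ℤ L) (S : L) (θ E : ℝ)
  (e : (RO ℤ)ˣ) (g : ℕ) (N' : ℝ), HypR θ E → FP phi D → 4 ≤ Module.finrank ℤ L →
    ClassP θ (D.coeff 0) → Ray D S → N' ≤ 996 / 1000 * θ + 1 →
    TypA N' (D.coeff 0) (D.coeff 0 + (e : RO ℤ) * D.coeff S) →
    (∀ (i0 : P) (h : co phi i0 S = 1),
      Module.finrank ℤ L = rk (supp (cl (co phi i0) S h e D)) + 1 + g) →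
    (g ≤ 4 ∨ Real.sqrt 3 ^ (g + 1) ≤ M (D.coeff 0 + (e : RO ℤ) * D.coeff S)) →
      (Module.finrank ℤ L : ℝ) ≤ 2 * (θ - 1 / θ) + E

/-- (E6_PAE) two adjacent loads of type B with gain `988/1000`. [uses Pai6S] -/
def PaeS : Prop := ∀ (P L : Type) [Fintype P] [DecidableEq P] [AddCommGroup L]
  [Module.Free ℤ L] [Module.Finite ℤ L] (phi : L →+ (P → ℤ)) (D : AO Eis L) (S : L) (i0 : P)
  (h : co phi i0 S = 1) (e1 e2 : (RO Eis)ˣ) (θ : ℝ),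
    FP phi D → 4 ≤ Module.finrank ℤ L → Ray D S → 10 ^ 10 ≤ θ →
    ClassP θ (D.coeff 0) → Adj e1 e2 → ‖mn ((e2 : RO Eis) * D.coeff S) (D.coeff 0)‖ ≤ 1 / 4 →
    Gp θ (θ - 988 / 1000) (D.coeff 0) (D.coeff S) e1 →
    Gp θ (θ - 988 / 1000) (D.coeff 0) (D.coeff S) e2 →
    (Module.finrank ℤ L = rk (supp (cl (co phi i0) S h e1 D)) + 1 ∨
      Module.finrank ℤ L = rk (supp (cl (co phi i0) S h e2 D)) + 1) →
    (∀ x : ℝ, θ / 3 ≤ x → BdP Eis x (2 * x + 97 / 100)) →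
      (Module.finrank ℤ L : ℝ) ≤ 2 * θ - 6 / 1000

/-- (E6_ALP) medium rays, the aligned load pays for the drop `g ≤ 1`.
[uses One6S Zb5S PaeS BcdS NrlS; rl cx] -/
def AlpS : Prop := ∀ (P L : Type) [Fintype P] [DecidableEq P] [AddCommGroup L]
  [Module.Free ℤ L] [Module.Finite ℤ L] (phi : L →+ (P → ℤ)) (D : AO ℤ L) (S : L) (θ E : ℝ)
  (e : (RO ℤ)ˣ) (g : ℕ) (x : ℝ) (n : ℤ) (q f : ℤ[X]) (s r : ℂ[X]) (T c : ℂ),
    HypR θ E → FP phi D → 4 ≤ Module.finrank ℤ L → ClassP θ (D.coeff 0) → Ray D S →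
    Md θ (D.coeff 0) (D.coeff S) e x n q f s r T c →
    (∀ (i0 : P) (h : co phi i0 S = 1),
      Module.finrank ℤ L = rk (supp (cl (co phi i0) S h e D)) + 1 + g) →
    g ≤ 1 → (g = 1 → Gp θ (θ - 1 - 9 / (1000 * θ)) (D.coeff 0) (D.coeff S) e) →
    (1 ≤ g → ∀ e' : (RO Eis)ˣ, e' ≠ bcU e → ∀ (i0 : P) (h : co phi i0 S = 1),
      Module.finrank ℤ L = rk (supp (cl (co phi i0) S h e' (bc D))) + 1) →
      (Module.finrank ℤ L : ℝ) ≤ 2 * (θ - 1 / θ) + E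

/-- (E6_ONA) a drop-free load of class `V(N)`, `N` near `θ`, which crosses a load with a drop.
[uses FDS Big6S NbfS ClpS CroS Inj1S NurS E1S; as E6C_ALO] -/
def OnaS : Prop := ∀ (P L : Type) [Fintype P] [DecidableEq P] [AddCommGroup L]
  [Module.Free ℤ L] [Module.Finite ℤ L] (phi : L →+ (P → ℤ)) (D : AO ℤ L) (S : L) (i0 : P)
  (h : co phi i0 S = 1) (eta eta' : (RO ℤ)ˣ) (θ N : ℝ),
    FP phi D → 4 ≤ Module.finrank ℤ L → Ray D S → 10 ^ 13 ≤ θ →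
    ClassP θ (D.coeff 0) → ClassV N (D.coeff 0 + (eta : RO ℤ) * D.coeff S) →
    9 / 10 * θ ≤ N → N ≤ θ + 1 / 2 →
    Module.finrank ℤ L = rk (supp (cl (co phi i0) S h eta D)) + 1 →
    D.coeff 0 + (eta' : RO ℤ) * D.coeff S ≠ 0 → Cross (D.coeff 0) (D.coeff S) eta eta' →
    rk (supp (cl (co phi i0) S h eta' D)) < Module.finrank ℤ (Ker (co phi i0)) →
    (∀ x : ℝ, BdV ℤ x (2 * max 1 x + 4800)) →
      (Module.finrank ℤ L : ℝ) ≤ 2 * θ - 1 ∨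
      ∃ (c : RO ℤ) (G : AO ℤ (Ker (co phi i0))), ClassV 1 c ∧
        cl (co phi i0) S h eta D = cst c * G ∧ DD (phO phi S i0) G ∧ ClassV N (G.coeff 0)

/-- (E6_SCV) a closing in class `V(N)` with the constant coefficient of class `V(N - 1)` and rank
at least `2 (N - 1)`. [uses FDS E1S MVS MmulS LsdS G1pS G4S RkS E2S NurS; as E5_T2O] -/
def ScvS : Prop := ∀ (P L : Type) [Fintype P] [DecidableEq P] [AddCommGroup L]
  [Module.Free ℤ L] [Module.Finite ℤ L] (phi : L →+ (P → ℤ)) (D : AO ℤ L) (S : L) (i0 : P)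
  (h : co phi i0 S = 1) (eta : (RO ℤ)ˣ) (N : ℝ),
    DD phi D → 3 ≤ Module.finrank ℤ L → Ray D S → ImS phi S → 10 ^ 12 ≤ N →
    ClassV N (D.coeff 0) → ClassV (N - 1) (D.coeff 0 + (eta : RO ℤ) * D.coeff S) →
    2 * (N - 1) ≤ rk (supp (cl (co phi i0) S h eta D)) →
    Module.finrank ℤ L = rk (supp (cl (co phi i0) S h eta D)) + 1 →
    (∀ x : ℝ, BdV ℤ x (2 * max 1 x + 4800)) →
      (∃ (c : RO ℤ) (n : ℕ) (G : Fin n → AO ℤ (Ker (co phi i0))),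
        FD phi D S i0 eta h c n G ∧ M c = 1 ∧ (snp phi S i0 G).Nonempty) ∨
      ∃ (c : RO ℤ) (G : AO ℤ (Ker (co phi i0))), ClassV 1 c ∧
        cl (co phi i0) S h eta D = cst c * G ∧ DD (phO phi S i0) G ∧ ClassV (N - 1) (G.coeff 0)

/-! ## z-free elements -/

/-- The polynomials of the window: `Q = T^m q`, `e D_S = T^m X f`, `f(0) = sg q(0)`, `sg = ±1` the
sign of the zero `sg/θ` of `q`. -/
structure WPol (θ : ℝ) (q f : ℤ[X]) (sg : ℤ) : Prop where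
  th : 1 < θ
  sg2 : sg = 1 ∨ sg = -1
  q0 : q.coeff 0 = 1 ∨ q.coeff 0 = -1
  f0 : f.coeff 0 = sg * q.coeff 0
  nz : ∀ z : ℂ, ‖z‖ = 1 → (q.map (Int.castRingHom ℂ)).eval z ≠ 0
  root : (q.map (Int.castRingHom ℂ)).eval ((sg : ℂ) / (θ : ℂ)) = 0

/-- (E6_ZFA) the closing at the load of type A is not z-free, or `n (θ + 1) = θ²`.
Proof: `G_0 = ± n z^i`, `G_S = a z^j` (ZFree, ClassV), `c = ± z^k c~`. `(X + sg) f ~ a c~`, constant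
coefficient `± 1`: `a = ± 1`, `c~ = ± (X + sg) f`. `q - sg f = ± n X^l (X + sg) f`, `l = 1` and the sign
is `- sg` by the coefficient of `X`. So `f ∣ q`; the zeros of `c~` are on the circle, `q` has none
there: `f = ± 1`. Evaluate at `sg/θ`. -/
def ZfaS : Prop := ∀ (L : Type) [AddCommGroup L] [Module.Free ℤ L] [Module.Finite ℤ L]
  (G : AO ℤ L) (S : L) (c : RO ℤ) (m : ℤ) (q f : ℤ[X]) (sg : ℤ) (θ : ℝ) (n : ℕ) (e : (RO ℤ)ˣ),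
    WPol θ q f sg → ZFree G → ClassV 1 c → ClassV (n : ℝ) (G.coeff 0) →
    (q - C sg * f).coeff 1 = -(sg * q.coeff 0 * n) →
    c * G.coeff 0 = LaurentPolynomial.T m * toLaurent (q - C sg * f) →
    (e : RO ℤ) * (c * G.coeff S) = toLaurent ((X + C sg) * f) →
      (n : ℝ) * (θ + 1) = θ ^ 2

/-- (E6_ZFB) the double closing is z-free: `(n + 1) θ = θ² - 1`.
Proof: as ZFA: `f ~ c~`, `q + (X + sg X² - sg) f = - sg n X f`, so `f ∣ q`, `f = ± 1`,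
`q = q(0) (1 - sg (n + 1) X - X²)`. -/
def ZfbS : Prop := ∀ (L : Type) [AddCommGroup L] [Module.Free ℤ L] [Module.Finite ℤ L]
  (G : AO ℤ L) (b : L) (c : RO ℤ) (m : ℤ) (q f : ℤ[X]) (sg : ℤ) (θ : ℝ) (n : ℕ) (e : (RO ℤ)ˣ),
    WPol θ q f sg → ZFree G → ClassV 1 c → ClassV (n : ℝ) (G.coeff 0) →
    (q - C sg * f).coeff 1 = -(sg * q.coeff 0 * (n + 1)) →
    c * G.coeff 0 = LaurentPolynomial.T m * toLaurent (q + (X + C sg * X ^ 2 - C sg) * f) →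
    (e : RO ℤ) * (c * G.coeff b) = toLaurent f →
      ((n : ℝ) + 1) * θ = θ ^ 2 - 1

/-! ## The window (E6.6) -/

/-- The window: mutual pair, class `V(N)` at the load `eA` of type A. -/
structure WinD {P L : Type} [Fintype P] [DecidableEq P] [AddCommGroup L] [Module.Free ℤ L]
    [Module.Finite ℤ L] (phi : L →+ (P → ℤ)) (D : AO ℤ L) (S0 S1 : L) (e0 e1 : (RO ℤ)ˣ)
    (θ E : ℝ) (n : ℤ) (q f u : ℤ[X]) (sg : ℤˣ) (N : ℕ) (eA : (RO ℤ)ˣ) : Prop where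
  hyp : HypR θ E
  fp : FP phi D
  rk4 : 4 ≤ Module.finrank ℤ L
  cls : ClassP θ (D.coeff 0)
  mt : Mut D S0 S1 e0 e1
  D0 : D.coeff 0 = LaurentPolynomial.T n * toLaurent q
  DS : (e0 : RO ℤ) * D.coeff S0 = LaurentPolynomial.T n * toLaurent (X * f)
  pol : WPol θ q f (sg : ℤ)
  c1 : (q - C (sg : ℤ) * f).coeff 1 = -((sg : ℤ) * q.coeff 0 * N)
  qu : q - C (sg : ℤ) * f = X * u
  uz : ∀ z : ℂ, ‖z‖ < 1 → (u.map (Int.castRingHom ℂ)).eval z ≠ 0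
  vz : ∀ z : ℂ, ‖z‖ < 1 → ((u + f + C (sg : ℤ) * X * f).map (Int.castRingHom ℂ)).eval z ≠ 0
  Nhi : (N : ℝ) ≤ θ + 49 / 100
  Nlo : 9 / 10 * θ ≤ N
  eAd : (eA : RO ℤ) = -(LaurentPolynomial.C (sg : ℤ) * LaurentPolynomial.T (-1) * (e0 : RO ℤ))
  cross : Cross (D.coeff 0) (D.coeff S0) eA e0
  v0 : D.coeff 0 + (e0 : RO ℤ) * D.coeff S0 ≠ 0
  full : ∀ (i0 : P) (h : co phi i0 S0 = 1),
    Module.finrank ℤ L = rk (supp (cl (co phi i0) S0 h eA D)) + 1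
  drop : ∀ (i0 : P) (h : co phi i0 S0 = 1),
    rk (supp (cl (co phi i0) S0 h e0 D)) < Module.finrank ℤ (Ker (co phi i0))

/-- (E6_WN1) THE WINDOW, first closing: `K ≤ 2 (θ - 1/θ)`, or one factor `G` and `K ≤ 2 N`.
[uses OnaS MugS FclS ZfaS McoS; v2 v3] -/
def Wn1S : Prop := ∀ (P L : Type) [Fintype P] [DecidableEq P] [AddCommGroup L]
  [Module.Free ℤ L] [Module.Finite ℤ L] (phi : L →+ (P → ℤ)) (D : AO ℤ L) (S0 S1 : L)
  (e0 e1 : (RO ℤ)ˣ) (θ E : ℝ) (n : ℤ) (q f u : ℤ[X]) (sg : ℤˣ) (N : ℕ) (eA : (RO ℤ)ˣ),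
    WinD phi D S0 S1 e0 e1 θ E n q f u sg N eA → ∀ Y : Dp phi S0 S1,
      (Module.finrank ℤ L : ℝ) ≤ 2 * (θ - 1 / θ) ∨
      (Module.finrank ℤ L ≤ 2 * N ∧ ∃ (c : RO ℤ) (G : AO ℤ (Ker (co phi Y.i0))), ClassV 1 c ∧
        cl (co phi Y.i0) S0 Y.h0 eA D = cst c * G ∧ DD (phO phi S0 Y.i0) G ∧
        ClassV (N : ℝ) (G.coeff 0) ∧ Ray G Y.T ∧
        c * G.coeff 0 = LaurentPolynomial.T n * toLaurent (q - C (sg : ℤ) * f) ∧
        (e1 : RO ℤ) * (c * G.coeff Y.T) =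
          LaurentPolynomial.T n * toLaurent ((X + C (sg : ℤ)) * f) ∧
        ImS (phO phi S0 Y.i0) Y.T ∧ co (phO phi S0 Y.i0) Y.i1 = Y.k1)

/-- (E6_WN2) THE WINDOW, second closing: if the double closing has full rank and the coefficient
`unit * D_S0` then `K ≤ 2 (θ - 1/θ)`. [uses Wn1S ScvS FclS ZfbS E3vS McoS MdcS; v2 v3] -/
def Wn2S : Prop := ∀ (P L : Type) [Fintype P] [DecidableEq P] [AddCommGroup L]
  [Module.Free ℤ L] [Module.Finite ℤ L] (phi : L →+ (P → ℤ)) (D : AO ℤ L) (S0 S1 : L)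
  (e0 e1 : (RO ℤ)ˣ) (θ E : ℝ) (n : ℤ) (q f u : ℤ[X]) (sg : ℤˣ) (N : ℕ) (eA e1' : (RO ℤ)ˣ),
    WinD phi D S0 S1 e0 e1 θ E n q f u sg N eA →
    (e1' : RO ℤ) = LaurentPolynomial.C (sg : ℤ) * LaurentPolynomial.T 1 * (e1 : RO ℤ) →
    ∀ Y : Dp phi S0 S1, rk (supp (dc Y eA e1' D)) + 2 = Module.finrank ℤ L →
      (∃ x, ∃ v : (RO ℤ)ˣ, (dc Y eA e1' D).coeff x = (v : RO ℤ) * D.coeff S0) →
        (Module.finrank ℤ L : ℝ) ≤ 2 * (θ - 1 / θ)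

/-- (E6_MED) medium rays with a drop. [uses Zb5S Zc5S AlpS T2fS T2cS PaeS Vp2S OnaS Wn2S MfcS McoS
BcdS] -/
def MedS : Prop := ∀ (P L : Type) [Fintype P] [DecidableEq P] [AddCommGroup L]
  [Module.Free ℤ L] [Module.Finite ℤ L] (phi : L →+ (P → ℤ)) (D : AO ℤ L) (eta : L → (RO ℤ)ˣ)
  (S : L) (θ E : ℝ) (g : ℕ) (x : ℝ) (n : ℤ) (q f : ℤ[X]) (s r : ℂ[X]) (T c : ℂ),
    HypR θ E → FP phi D → 4 ≤ Module.finrank ℤ L → ClassP θ (D.coeff 0) → Ray D S →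
    Md θ (D.coeff 0) (D.coeff S) (eta S) x n q f s r T c →
    (∀ (i0 : P) (h : co phi i0 S = 1),
      Module.finrank ℤ L = rk (supp (cl (co phi i0) S h (eta S) D)) + 1 + g) → 1 ≤ g →
    (∀ e' : (RO Eis)ˣ, e' ≠ bcU (eta S) → ∀ (i0 : P) (h : co phi i0 S = 1),
      Module.finrank ℤ L = rk (supp (cl (co phi i0) S h e' (bc D))) + 1) →
    (∃ S1, Mut D S S1 (eta S) (eta S1)) →
    (2 ≤ g → ∃ S1 S2, Mut D S S1 (eta S) (eta S1) ∧ Mut D S S2 (eta S) (eta S2) ∧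
      S2 ∉ satur (US (eta S1) S1 D ⊔ Submodule.span ℤ {S}) ∧
      S1 ∉ satur (US (eta S2) S2 D ⊔ Submodule.span ℤ {S})) →
    (∀ T, Ray D T → T ∉ US (eta S) S D → Mut D S T (eta S) (eta T) ∧
      ∀ T', Ray D T' → T' ∉ US (eta T) T D → Mut D T T' (eta T) (eta T')) →
      (Module.finrank ℤ L : ℝ) ≤ 2 * (θ - 1 / θ) + E

end Pool.Agent.B5
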