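import Pool.Agent.Lib.MP_b5021c_nt.B.H02.G1p
import Pool.Agent.Lib.MP_b5021c_nt.B.H02.Rb2
import Pool.Agent.Lib.MP_b5021c_nt.B.H02.Uni
import Pool.Agent.Lib.MP_b5021c_nt.B.H03.B4c
import Pool.Agent.Lib.MP_b5021c_nt.B.H03.Una
import Pool.Agent.Lib.MP_b5021c_nt.B.H05.Pmf
import Pool.Agent.Lib.MP_b5021c_nt.B.H06.B2f
import Pool.Agent.Lib.MP_b5021c_nt.B.H06.Sel
import Pool.Agent.Lib.MP_b5021c_nt.B.H06.Slx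
import Pool.Agent.Lib.MP_b5021c_nt.B.H06.Tpc
import Pool.Agent.Lib.MP_b5021c_nt.B.H07.Cro
import Pool.Agent.Lib.MP_b5021c_nt.B.H07.Hcc
import Pool.Agent.Lib.MP_b5021c_nt.B.H07.Lsm
import Pool.Agent.Lib.MP_b5021c_nt.B.H07.Pda
import Pool.Agent.Lib.MP_b5021c_nt.B.H07.Zfi
import Pool.Agent.Lib.MP_b5021c_nt.B.H09.E2Tpm
import Pool.Agent.Lib.MP_b5021c_nt.B.H09.Sha
import Pool.Agent.Lib.MP_b5021c_nt.B.H14.Pri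
import Pool.Agent.Lib.MP_b5021c_nt.B.H14.Psc
import Pool.Agent.Lib.MP_b5021c_nt.B.H14.Rkb
import Pool.Agent.Lib.MP_b5021c_nt.B.H15.Qu3
import Pool.Agent.Lib.MP_b5021c_nt.B.H15.Wwf
import Pool.Agent.Lib.MP_b5021c_nt.B.H16.C3c
import Pool.Agent.Lib.MP_b5021c_nt.B.H16.H2c
import Pool.Agent.Lib.MP_b5021c_nt.B.H16.Lv2
import Pool.Agent.Lib.MP_b5021c_nt.B.H16.Tpi
import Pool.Agent.Lib.MP_b5021c_nt.B.H17.As1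
import Pool.Agent.Lib.MP_b5021c_nt.B.H17.E1c
import Pool.Agent.Lib.MP_b5021c_nt.B.H17.F2c
import Pool.Agent.Lib.MP_b5021c_nt.B.H17.Nr3
import Pool.Agent.Lib.MP_b5021c_nt.B.H17.Ply
import Pool.Agent.Lib.MP_b5021c_nt.B.H17.Um3
import Pool.Agent.Lib.MP_b5021c_nt.B.H17.Vco
import Pool.Agent.Lib.MP_b5021c_nt.B.H18.A5C
import Pool.Agent.Lib.MP_b5021c_nt.B.H18.CLX
import Pool.Agent.Lib.MP_b5021c_nt.B.H18.DVC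
import Pool.Agent.Lib.MP_b5021c_nt.B.H18.STE
import Pool.Agent.Lib.MP_b5021c_nt.B.H18.STS
import Pool.Agent.Lib.MP_b5021c_nt.B.H18.UNE
import Pool.Agent.Lib.MP_b5021c_nt.B.H19.A2c
import Pool.Agent.Lib.MP_b5021c_nt.B.H19.E2Tpu
import Pool.Agent.Lib.MP_b5021c_nt.B.H19.Mep
import Pool.Agent.Lib.MP_b5021c_nt.B.H19.Puc
import Pool.Agent.Lib.MP_b5021c_nt.B.H20.E2Tpx
import Pool.Agent.Lib.MP_b5021c_nt.B.H20.E3Dv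
import Pool.Agent.Lib.MP_b5021c_nt.B.H20.Nv3
import Pool.Agent.Lib.MP_b5021c_nt.B.H23.Nq3
import Pool.Agent.Lib.MP_b5021c_nt.B.H24.A6c
import Pool.Agent.Lib.MP_b5021c_nt.B.H24.B5u
import Pool.Agent.Lib.MP_b5021c_nt.B.H24.Lp3
import Pool.Agent.Lib.MP_b5021c_nt.B.H24.Mu1
import Pool.Agent.Lib.MP_b5021c_nt.B.H31.Cl4
import Pool.Agent.Lib.MP_b5021c_nt.B.H32.C1c
import Pool.Agent.Lib.MP_b5021c_nt.B.H35.Adj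
import Pool.Agent.Lib.MP_b5021c_nt.B.H35.H3b
import Pool.Agent.Lib.MP_b5021c_nt.B.H35.Qst
import Pool.Agent.Lib.MP_b5021c_nt.B.H36.Evr
import Pool.Agent.Lib.MP_b5021c_nt.B.H36.H1c
import Pool.Agent.Lib.MP_b5021c_nt.B.H36.Jp3
import Pool.Agent.Lib.MP_b5021c_nt.B.H37.MIN
import Pool.Agent.Lib.MP_b5021c_nt.B.H38.B5c
import Pool.Agent.Lib.MP_b5021c_nt.B.H38.Bpe
import Pool.Agent.Lib.MP_b5021c_nt.B.H40.A4c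
import Pool.Agent.Lib.MP_b5021c_nt.B.H40.Jpl
import Pool.Agent.Lib.MP_b5021c_nt.B.H40.Lop
import Pool.Agent.Lib.MP_b5021c_nt.B.H40.Lov
import Pool.Agent.Lib.MP_b5021c_nt.B.H40.Lsa
import Pool.Agent.Lib.MP_b5021c_nt.B.H42.Bs2
import Pool.Agent.Lib.MP_b5021c_nt.B.H42.Bst
import Pool.Agent.Lib.MP_b5021c_nt.B.H42.F1c
import Pool.Agent.Lib.MP_b5021c_nt.B.H42.G3c
import Pool.Agent.Lib.MP_b5021c_nt.B.H42.Lmn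
import Pool.Agent.Lib.MP_b5021c_nt.B.H42.Sbpr
import Pool.Agent.Lib.MP_b5021c_nt.B.H42.Sle
import Pool.Agent.Lib.MP_b5021c_nt.B.H43.C1a
import Pool.Agent.Lib.MP_b5021c_nt.B.H44.E2C
import Pool.Agent.Lib.MP_b5021c_nt.B.H45.Jvl
import Pool.Agent.Lib.MP_b5021c_nt.B.H47.Apr
import Pool.Agent.Lib.MP_b5021c_nt.B.H47.Qv3
import Pool.Agent.Lib.MP_b5021c_nt.B.H49.Drb
import Pool.Agent.Lib.MP_b5021c_nt.B.H49.Jpt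
import Pool.Agent.Lib.MP_b5021c_nt.B.H50.G1c
import Pool.Agent.Lib.MP_b5021c_nt.B.H50.Sec
import Pool.Agent.Lib.MP_b5021c_nt.B.H50.Su3
import Pool.Agent.Lib.MP_b5021c_nt.B.H56.Gen
import Pool.Agent.Lib.MP_b5021c_nt.B.H57.Dus
import Pool.Agent.Lib.MP_b5021c_nt.B.H58.Alo
import Pool.Agent.Lib.MP_b5021c_nt.B.H58.Ccs
import Pool.Agent.Lib.MP_b5021c_nt.B.H58.Cst
import Pool.Agent.Lib.MP_b5021c_nt.B.H58.L2c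
import Pool.Agent.Lib.MP_b5021c_nt.B.H58.Ncs
import Pool.Agent.Lib.MP_b5021c_nt.B.H58.Rku
import Pool.Agent.Lib.MP_b5021c_nt.B.H59.Cst
import Pool.Agent.Lib.MP_b5021c_nt.B.H59.D1e
import Pool.Agent.Lib.MP_b5021c_nt.B.H59.Lb2
import Pool.Agent.Lib.MP_b5021c_nt.B.H59.Thi
import Pool.Agent.Lib.MP_b5021c_nt.B.H61.TA3
import Pool.Agent.Lib.MP_b5021c_nt.B.H62.Ext
import Pool.Agent.Lib.MP_b5021c_nt.B.H63.Asa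
import Pool.Agent.Lib.MP_b5021c_nt.B.H63.F5c
import Pool.Agent.Lib.MP_b5021c_nt.B.H63.Mvc
import Pool.Agent.Lib.MP_b5021c_nt.B.H63.Rsp
import Pool.Agent.Lib.MP_b5021c_nt.B.H65.B5a
import Pool.Agent.Lib.MP_b5021c_nt.B.H65.Sapf
import Pool.Agent.Lib.MP_b5021c_nt.B.H65.Skmu
import Pool.Agent.Lib.MP_b5021c_nt.B.H69.I3C
import Pool.Agent.Lib.MP_b5021c_nt.B.H70.Mm
import Pool.Agent.Lib.MP_b5021c_nt.B.H71.I1c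
import Pool.Agent.Lib.MP_b5021c_nt.B.H71.I2c
import Pool.Agent.Lib.MP_b5021c_nt.B.H76.E2Tp1
import Pool.Agent.Lib.MP_b5021c_nt.B.H76.E2Tp2
import Pool.Agent.Lib.MP_b5021c_nt.B.H78.Bpd
import Pool.Agent.Lib.MP_b5021c_nt.B.H78.Den
import Pool.Agent.Lib.MP_b5021c_nt.B.H78.Fct
import Pool.Agent.Lib.MP_b5021c_nt.B.H79.C0D
import Pool.Agent.Lib.MP_b5021c_nt.B.H79.Com
import Pool.Agent.Lib.MP_b5021c_nt.B.H79.Mev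
import Pool.Agent.Lib.MP_b5021c_nt.B.H79.Np3
import Pool.Agent.Lib.MP_b5021c_nt.B.H79.Qc3
import Pool.Agent.Lib.MP_b5021c_nt.B.H82.B3c
import Pool.Agent.Lib.MP_b5021c_nt.B.H82.Jv3
import Pool.Agent.Lib.MP_b5021c_nt.B.H82.Rst
import Pool.Agent.Lib.MP_b5021c_nt.B.H83.F3C
import Pool.Agent.Lib.MP_b5021c_nt.B.H83.I1A
import Pool.Agent.Lib.MP_b5021c_nt.B.H83.L2A
import Pool.Agent.Lib.MP_b5021c_nt.B.H84.Fl2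
import Pool.Agent.Lib.MP_b5021c_nt.B.H87.Fll
import Pool.Agent.Lib.MP_b5021c_nt.B.H87.Jvt
import Pool.Agent.Lib.MP_b5021c_nt.B.H87.La6
import Pool.Agent.Lib.MP_b5021c_nt.B.H87.Lb5
import Pool.Agent.Lib.MP_b5021c_nt.B.H87.Pv5
import Pool.Agent.Lib.MP_b5021c_nt.B.H88.D2G
import Pool.Agent.Lib.MP_b5021c_nt.B.H88.La2
import Pool.Agent.Lib.MP_b5021c_nt.B.H88.NVE
import Pool.Agent.Lib.MP_b5021c_nt.B.H88.Wb5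
import Pool.Agent.Lib.MP_b5021c_nt.B.H91.A1r
import Pool.Agent.Lib.MP_b5021c_nt.B.H91.Ls1
import Pool.Agent.Lib.MP_b5021c_nt.B.H93.A2R
import Pool.Agent.Lib.MP_b5021c_nt.B.H93.Ma3
import Pool.Agent.Lib.MP_b5021c_nt.B.H93.Nd3
import Pool.Agent.Lib.MP_b5021c_nt.B.H93.Tp3
import Pool.Agent.Lib.MP_b5021c_nt.B.H94.Co0
import Pool.Agent.Lib.MP_b5021c_nt.B.H94.Tpr
import Pool.Agent.Lib.MP_b5021c_nt.B.H96.E2Nnw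
import Pool.Agent.Lib.MP_b5021c_nt.B.H96.E3Em
import Pool.Agent.Lib.MP_b5021c_nt.B.H96.E3Pc
import Pool.Agent.Lib.MP_b5021c_nt.B.H96.E3St
import Pool.Agent.Lib.MP_b5021c_nt.B.H96.E3Sw
import Pool.Agent.Lib.MP_b5021c_nt.B.H96.Spj
import Pool.Agent.Lib.MP_b5021c_nt.B.H97.Jq3
import Pool.Agent.Lib.MP_b5021c_nt.B.H98.E2Tpv
import Pool.Agent.Lib.MP_b5021c_nt.B.H98.E3Hp
import Pool.Agent.Lib.MP_b5021c_nt.B.H98.E6Wn1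
import Pool.Agent.Lib.MP_b5021c_nt.E.AllE0
import Pool.Agent.Lib.MP_b5021c_nt.E.AllEV
import Pool.Agent.Lib.MP_b5021c_nt.E.H02.Num6
import Pool.Agent.Lib.MP_b5021c_nt.E.H02.Nur
import Pool.Agent.Lib.MP_b5021c_nt.E.H03.T03
import Pool.Agent.Lib.MP_b5021c_nt.E.H07.Mxu
import Pool.Agent.Lib.MP_b5021c_nt.E.H07.Sl4
import Pool.Agent.Lib.MP_b5021c_nt.E.H09.Bcd
import Pool.Agent.Lib.MP_b5021c_nt.E.H14.Ona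
import Pool.Agent.Lib.MP_b5021c_nt.E.H23.Db3
import Pool.Agent.Lib.MP_b5021c_nt.E.H23.Nrl
import Pool.Agent.Lib.MP_b5021c_nt.E.H24.Qm3
import Pool.Agent.Lib.MP_b5021c_nt.E.H24.Vhv
import Pool.Agent.Lib.MP_b5021c_nt.E.H25.Alp
import Pool.Agent.Lib.MP_b5021c_nt.E.H29.Pav
import Pool.Agent.Lib.MP_b5021c_nt.E.H29.Trv
import Pool.Agent.Lib.MP_b5021c_nt.E.H29.Va
import Pool.Agent.Lib.MP_b5021c_nt.E.H29.Vb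
import Pool.Agent.Lib.MP_b5021c_nt.E.H29.Zc5
import Pool.Agent.Lib.MP_b5021c_nt.E.H31.Zb5
import Pool.Agent.Lib.MP_b5021c_nt.E.H32.Nbf
import Pool.Agent.Lib.MP_b5021c_nt.E.H32.Pai
import Pool.Agent.Lib.MP_b5021c_nt.E.H38.Tpf
import Pool.Agent.Lib.MP_b5021c_nt.E.H39.Nr5
import Pool.Agent.Lib.MP_b5021c_nt.E.H40.Ca5
import Pool.Agent.Lib.MP_b5021c_nt.E.H42.Big
import Pool.Agent.Lib.MP_b5021c_nt.E.H42.One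
import Pool.Agent.Lib.MP_b5021c_nt.E.H42.T2e
import Pool.Agent.Lib.MP_b5021c_nt.E.H42.T2h
import Pool.Agent.Lib.MP_b5021c_nt.E.H42.Trs
import Pool.Agent.Lib.MP_b5021c_nt.E.H45.Nw5
import Pool.Agent.Lib.MP_b5021c_nt.E.H47.E4
import Pool.Agent.Lib.MP_b5021c_nt.E.H47.Vs2
import Pool.Agent.Lib.MP_b5021c_nt.E.H52.Fat
import Pool.Agent.Lib.MP_b5021c_nt.E.H52.Lp5
import Pool.Agent.Lib.MP_b5021c_nt.E.H56.T2o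
import Pool.Agent.Lib.MP_b5021c_nt.E.H63.Cu5
import Pool.Agent.Lib.MP_b5021c_nt.E.H66.Wn2
import Pool.Agent.Lib.MP_b5021c_nt.E.H71.Ee
import Pool.Agent.Lib.MP_b5021c_nt.E.H71.Ind6
import Pool.Agent.Lib.MP_b5021c_nt.E.H71.Stp6
import Pool.Agent.Lib.MP_b5021c_nt.E.H78.EfAll
import Pool.Agent.Lib.MP_b5021c_nt.E.H78.Mug
import Pool.Agent.Lib.MP_b5021c_nt.E.H78.Nc5
import Pool.Agent.Lib.MP_b5021c_nt.E.H78.Zfa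
import Pool.Agent.Lib.MP_b5021c_nt.E.H79.Kb5
import Pool.Agent.Lib.MP_b5021c_nt.E.H79.Mfc
import Pool.Agent.Lib.MP_b5021c_nt.E.H82.Lr5
import Pool.Agent.Lib.MP_b5021c_nt.E.H82.Pae
import Pool.Agent.Lib.MP_b5021c_nt.E.H82.Wc5
import Pool.Agent.Lib.MP_b5021c_nt.E.H91.Scv
import Pool.Agent.Lib.MP_b5021c_nt.E.H94.Hvy
import Pool.Agent.Lib.MP_b5021c_nt.E.H94.La5
import Pool.Agent.Lib.MP_b5021c_nt.E.H94.Rt5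
import Pool.Agent.Lib.MP_b5021c_nt.E.H97.Nb5
import Pool.Agent.Lib.MP_b5021c_nt.E1.Snt
import Pool.Agent.Lib.MP_b5021c_nt.E2.H27.Tre
import Pool.Agent.Lib.MP_b5021c_nt.E2.H53.Psr
import Pool.Agent.Lib.MP_b5021c_nt.E2.H65.Trm
import Pool.Agent.Lib.MP_b5021c_nt.E5.H18.Mq5
import Pool.Agent.Lib.MP_b5021c_nt.E6.H64.Med
import Pool.Agent.Lib.MP_b5021c_nt.H03.Kro
import Pool.Agent.Lib.MP_b5021c_nt.H05.G0c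
import Pool.Agent.Lib.MP_b5021c_nt.H05.Rfa
import Pool.Agent.Lib.MP_b5021c_nt.H05.Rwd
import Pool.Agent.Lib.MP_b5021c_nt.H15.Qps
import Pool.Agent.Lib.MP_b5021c_nt.H16.Vz
import Pool.Agent.Lib.MP_b5021c_nt.H20.C1b
import Pool.Agent.Lib.MP_b5021c_nt.H23.Mul
import Pool.Agent.Lib.MP_b5021c_nt.H41.D3f
import Pool.Agent.Lib.MP_b5021c_nt.H41.Rks
import Pool.Agent.Lib.MP_b5021c_nt.H45.Mmu
import Pool.Agent.Lib.MP_b5021c_nt.H50.B2c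
import Pool.Agent.Lib.MP_b5021c_nt.H51.H3A
import Pool.Agent.Lib.MP_b5021c_nt.H57.Pcz
import Pool.Agent.Lib.MP_b5021c_nt.H57.Psq
import Pool.Agent.Lib.MP_b5021c_nt.H57.Tco
import Pool.Agent.Lib.MP_b5021c_nt.H61.C2c
import Pool.Agent.Lib.MP_b5021c_nt.H61.Ful
import Pool.Agent.Lib.MP_b5021c_nt.H67.A7c
import Pool.Agent.Lib.MP_b5021c_nt.H67.Hun
import Pool.Agent.Lib.MP_b5021c_nt.H67.Jw3
import Pool.Agent.Lib.MP_b5021c_nt.H67.Pun2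
import Pool.Agent.Lib.MP_b5021c_nt.H67.Zco
import Pool.Agent.Lib.MP_b5021c_nt.H74.Apa
import Pool.Agent.Lib.MP_b5021c_nt.H74.Hur
import Pool.Agent.Lib.MP_b5021c_nt.H74.Ra2
import Pool.Agent.Lib.MP_b5021c_nt.H75.Dr7
import Pool.Agent.Lib.MP_b5021c_nt.H75.Nn3
import Pool.Agent.Lib.MP_b5021c_nt.H75.Pur
import Pool.Agent.Lib.MP_b5021c_nt.H75.Sng
import Pool.Agent.Lib.MP_b5021c_nt.H75.T2c
import Pool.Agent.Lib.MP_b5021c_nt.H76.Iso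
import Pool.Agent.Lib.MP_b5021c_nt.H76.Za
import Pool.Agent.Lib.MP_b5021c_nt.H84.Be5
import Pool.Agent.Lib.MP_b5021c_nt.H84.Fac
import Pool.Agent.Lib.MP_b5021c_nt.H84.Ttw
import Pool.Agent.Lib.MP_b5021c_nt.H84.Tya
import Pool.Agent.Lib.MP_b5021c_nt.H96.Fce2
import Pool.Agent.Lib.MP_b5021c_nt.H96.Slm
import Pool.Agent.Lib.MP_b5021c_nt.K.H02.Par
import Pool.Agent.Lib.MP_b5021c_nt.K.H05.Dec
import Pool.Agent.Lib.MP_b5021c_nt.K.H05.Rec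
import Pool.Agent.Lib.MP_b5021c_nt.K.H06.Sal
import Pool.Agent.Lib.MP_b5021c_nt.K.H07.Sub
import Pool.Agent.Lib.MP_b5021c_nt.K.H14.Lir
import Pool.Agent.Lib.MP_b5021c_nt.K.H17.Fat
import Pool.Agent.Lib.MP_b5021c_nt.K.H18.Thk
import Pool.Agent.Lib.MP_b5021c_nt.K.H19.Hpf
import Pool.Agent.Lib.MP_b5021c_nt.K.H19.Tce
import Pool.Agent.Lib.MP_b5021c_nt.K.H22.Coe
import Pool.Agent.Lib.MP_b5021c_nt.K.H23.Low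
import Pool.Agent.Lib.MP_b5021c_nt.K.H25.Exa
import Pool.Agent.Lib.MP_b5021c_nt.K.H25.Gdz
import Pool.Agent.Lib.MP_b5021c_nt.K.H25.Glue
import Pool.Agent.Lib.MP_b5021c_nt.K.H25.Sma
import Pool.Agent.Lib.MP_b5021c_nt.K.H25.Upq
import Pool.Agent.Lib.MP_b5021c_nt.K.H29.Fdc
import Pool.Agent.Lib.MP_b5021c_nt.K.H29.G4c
import Pool.Agent.Lib.MP_b5021c_nt.K.H30.C4c
import Pool.Agent.Lib.MP_b5021c_nt.K.H30.Pol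
import Pool.Agent.Lib.MP_b5021c_nt.K.H31.Clo
import Pool.Agent.Lib.MP_b5021c_nt.K.H31.Kev
import Pool.Agent.Lib.MP_b5021c_nt.K.H31.Stk
import Pool.Agent.Lib.MP_b5021c_nt.K.H31.Zpo
import Pool.Agent.Lib.MP_b5021c_nt.K.H32.Hir
import Pool.Agent.Lib.MP_b5021c_nt.K.H36.Hat
import Pool.Agent.Lib.MP_b5021c_nt.K.H37.BPO
import Pool.Agent.Lib.MP_b5021c_nt.K.H38.Bou
import Pool.Agent.Lib.MP_b5021c_nt.K.H40.Lpf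
import Pool.Agent.Lib.MP_b5021c_nt.K.H42.Han
import Pool.Agent.Lib.MP_b5021c_nt.K.H45.Sta
import Pool.Agent.Lib.MP_b5021c_nt.K.H47.Lnu
import Pool.Agent.Lib.MP_b5021c_nt.K.H47.Tra
import Pool.Agent.Lib.MP_b5021c_nt.K.H48.Lre
import Pool.Agent.Lib.MP_b5021c_nt.K.H50.Ire
import Pool.Agent.Lib.MP_b5021c_nt.K.H50.Unk
import Pool.Agent.Lib.MP_b5021c_nt.K.H54.Gde
import Pool.Agent.Lib.MP_b5021c_nt.K.H61.Lim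
import Pool.Agent.Lib.MP_b5021c_nt.K.H61.Pis
import Pool.Agent.Lib.MP_b5021c_nt.K.H62.Lid
import Pool.Agent.Lib.MP_b5021c_nt.K.H65.Stp
import Pool.Agent.Lib.MP_b5021c_nt.K.H70.Lfa
import Pool.Agent.Lib.MP_b5021c_nt.K.H70.Qex
import Pool.Agent.Lib.MP_b5021c_nt.K.H70.Unr
import Pool.Agent.Lib.MP_b5021c_nt.K.H78.Buo
import Pool.Agent.Lib.MP_b5021c_nt.K.H79.Bpl
import Pool.Agent.Lib.MP_b5021c_nt.K.H79.Jpn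
import Pool.Agent.Lib.MP_b5021c_nt.K.H79.Lik
import Pool.Agent.Lib.MP_b5021c_nt.K.H82.Lsp
import Pool.Agent.Lib.MP_b5021c_nt.K.H91.Bas
import Pool.Agent.Lib.MP_b5021c_nt.K.H91.Bla
import Pool.Agent.Lib.MP_b5021c_nt.K.H96.Hsp
import Pool.Agent.Lib.MP_b5021c_nt.K.H97.Cir
import Pool.Agent.Lib.MP_b5021c_nt.K.H98.H2a
import Pool.Agent.Lib.MP_b5021c_nt.L.H32.Jvn
import Pool.Agent.Lib.MP_b5021c_nt.S.H22.Cl3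
import Pool.Agent.Lib.MP_b5021c_nt.S.H25.Lsd
import Pool.Agent.Lib.MP_b5021c_nt.S.H25.Swz
import Pool.Agent.Lib.MP_b5021c_nt.S.H31.Pch
import Pool.Agent.Lib.MP_b5021c_nt.S.H31.Psn
import Pool.Agent.Lib.MP_b5021c_nt.S.H31.Qp3
import Pool.Agent.Lib.MP_b5021c_nt.S.H94.Auv

/-!
# MP_b5021c_nt: assembly of the rows of the board
-/

namespace Pool.Agent.MP_b5021c_nt.AllE

theorem r_NcsS : Pool.Agent.B5.NcsS :=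
  @Pool.Agent.B5.H58.ncs

theorem r_HurS : Pool.Agent.B5.HurS :=
  @Pool.Agent.B5.H74.hur

theorem r_Multi1S : Pool.Agent.B5.Multi1S :=
  @Pool.Agent.B5.H24.mu1 r_HurS

theorem r_A3bS : Pool.Agent.B5.A3bS :=
  @Pool.Agent.MP_b5021c_nt.H76.a3b

theorem r_MultiS : Pool.Agent.B5.MultiS :=
  @Pool.Agent.B5.H23.mul r_Multi1S r_A3bS

theorem r_A3aS : Pool.Agent.B5.A3aS :=
  @Pool.Agent.MP_b5021c_nt.H76.a3a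

theorem r_StSpecS : Pool.Agent.B5.StSpecS :=
  @Pool.Agent.B5.H18.sts r_MultiS

theorem r_ZfinS : Pool.Agent.B5.ZfinS :=
  @Pool.Agent.B5.H07.zfi

theorem r_B2S : Pool.Agent.B5.B2S :=
  @Pool.Agent.B5.H06.b2f r_MultiS r_A3aS r_StSpecS r_ZfinS

theorem r_GenS : Pool.Agent.B5.GenS :=
  @Pool.Agent.B5.H56.gen

theorem r_B2cS : Pool.Agent.B5.B2cS :=
  @Pool.Agent.B5.H50.b2c r_B2S r_MultiS r_GenS

theorem r_KerEvS : Pool.Agent.B5.KerEvS :=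
  @Pool.Agent.B5.Kev.kev

theorem r_B3S : Pool.Agent.B5.B3S :=
  @Pool.Agent.B5.H82.b3c r_B2cS r_KerEvS

theorem r_C0S : Pool.Agent.B5.C0S :=
  @Pool.Agent.B5.H79.c0d

theorem r_DensS : Pool.Agent.B5.DensS :=
  @Pool.Agent.B5.H78.den

theorem r_C1aS : Pool.Agent.B5.C1aS :=
  @Pool.Agent.B5.H43.c1a r_DensS

theorem r_C1bS : Pool.Agent.B5.C1bS :=
  @Pool.Agent.B5.H20.c1b

theorem r_SlEvalS : Pool.Agent.B5.SlEvalS :=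
  @Pool.Agent.B5.H42.sle

theorem r_C1S : Pool.Agent.B5.C1S :=
  @Pool.Agent.B5.H32.c1c r_C0S r_C1aS r_C1bS r_SlEvalS r_ZfinS

theorem r_MinS : Pool.Agent.B5.MinS :=
  @Pool.Agent.B5.MIN.min

theorem r_B4S : Pool.Agent.B5.B4S :=
  @Pool.Agent.B5.H03.b4c r_MinS r_StSpecS

theorem r_UnitAS : Pool.Agent.B5.UnitAS :=
  @Pool.Agent.B5.H03.una

theorem r_ExtS : Pool.Agent.B5.ExtS :=
  @Pool.Agent.B5.H62.ext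

theorem r_FaceS : Pool.Agent.B5.FaceS :=
  @Pool.Agent.B5.H84.fac r_MultiS r_StSpecS r_ExtS

theorem r_C3S : Pool.Agent.B5.C3S :=
  @Pool.Agent.B5.H16.c3 r_B2S r_C1S r_B4S r_UnitAS r_FaceS

theorem r_PrimS : Pool.Agent.B5.PrimS :=
  @Pool.Agent.B5.H14.pri r_UnitAS

theorem r_D2S : Pool.Agent.B5.D2S :=
  @Pool.Agent.B5.H88.d2g

theorem r_D1S : Pool.Agent.B5.D1S :=
  @Pool.Agent.B5.H59.d1e r_D2S

theorem r_RkS : Pool.Agent.B5.RkS :=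
  @Pool.Agent.B5.H41.rks

theorem r_RaySpanS : Pool.Agent.B5.RaySpanS :=
  @Pool.Agent.B5.H63.rsp r_D1S r_RkS

theorem r_E2S : Pool.Agent.B5.E2S :=
  @Pool.Agent.B5.H44.e2c r_B2cS r_B3S r_C3S r_PrimS r_RaySpanS

theorem r_MVS : Pool.Agent.B5.MVS :=
  @Pool.Agent.B5.H63.mvc

theorem r_PchS : Pool.Agent.B5.PchS :=
  @Pool.Agent.B5.H31.pch

theorem r_PdaS : Pool.Agent.B5.PdaS :=
  @Pool.Agent.B5.H07.pda r_PchS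

theorem r_Pv5S : Pool.Agent.B5.Pv5S :=
  @Pool.Agent.B5.H87.pv5

theorem rk_ZcoS : Pool.Agent.MP_b5021c_nt.ZcoS :=
  @Pool.Agent.MP_b5021c_nt.H67.zco

theorem r_PCZS : Pool.Agent.B5.PCZS :=
  @Pool.Agent.B5.H57.pcz

theorem r_SwzS : Pool.Agent.B5.SwzS :=
  @Pool.Agent.B5.H25.swz

theorem r_Rt5S : Pool.Agent.B5.Rt5S :=
  @Pool.Agent.B5.E.H94.rt5 rk_ZcoS r_PCZS r_SwzS

theorem r_Nb5S : Pool.Agent.B5.Nb5S :=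
  @Pool.Agent.B5.H97.nb5

theorem r_Nr5S : Pool.Agent.B5.Nr5S :=
  @Pool.Agent.B5.H39.nr5

theorem r_Lb5S : Pool.Agent.B5.Lb5S :=
  @Pool.Agent.B5.H87.lb5 r_Rt5S r_Nb5S r_Nr5S

theorem r_Nc5S : Pool.Agent.B5.Nc5S :=
  @Pool.Agent.B5.H78.nc5

theorem r_Lc5S : Pool.Agent.B5.Lc5S :=
  @Pool.Agent.B5.H87.lc5 r_Rt5S r_Nc5S

theorem r_La5S : Pool.Agent.B5.La5S :=
  @Pool.Agent.B5.E.H94.la5 r_PCZS

theorem r_Mq5S : Pool.Agent.B5.Mq5S :=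
  @Pool.Agent.B5.E5.H18.mq5

theorem r_Be5S : Pool.Agent.B5.Be5S :=
  @Pool.Agent.B5.H84.Be5.be5

theorem r_Kc5S : Pool.Agent.B5.Kc5S :=
  @Pool.Agent.B5.H79.kc5 r_Mq5S r_Be5S

theorem r_Ca5S : Pool.Agent.B5.Ca5S :=
  @Pool.Agent.B5.E.H40.ca5

theorem r_BstS : Pool.Agent.B5.BstS :=
  @Pool.Agent.B5.H42.t_bst

theorem r_MepS : Pool.Agent.B5.MepS :=
  @Pool.Agent.B5.H19.mep

theorem r_EvRS : Pool.Agent.B5.EvRS :=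
  @Pool.Agent.B5.H36.evrs

theorem r_A6S : Pool.Agent.B5.A6S :=
  @Pool.Agent.B5.H24.a6c

theorem r_Lp5S : Pool.Agent.B5.Lp5S :=
  @Pool.Agent.B5.H52.lp5 r_PdaS r_Pv5S r_Lb5S r_Lc5S r_La5S r_Kc5S r_Ca5S r_BstS r_MepS r_EvRS r_A6S

theorem r_Nw5S : Pool.Agent.B5.Nw5S :=
  @Pool.Agent.B5.H45.nw5

theorem r_Ks5S : Pool.Agent.B5.Ks5S :=
  @Pool.Agent.B5.H79.ks5 r_Mq5S r_Be5S

theorem r_Wb5S : Pool.Agent.B5.Wb5S :=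
  @Pool.Agent.B5.H88.wb5 r_Nw5S r_Lb5S r_Ks5S

theorem r_Kb5S : Pool.Agent.B5.Kb5S :=
  @Pool.Agent.B5.H79.kb5 r_Mq5S r_Be5S r_SwzS

theorem r_Pc3S : Pool.Agent.B5.Pc3S :=
  @Pool.Agent.B5.H96.e3pc rk_ZcoS r_PCZS

theorem r_Nd3S : Pool.Agent.B5.Nd3S :=
  @Pool.Agent.B5.H93.nd3 r_Pc3S

theorem r_Cu5S : Pool.Agent.B5.Cu5S :=
  @Pool.Agent.B5.H63.Cu5.cu5 r_Nd3S

theorem r_La6S : Pool.Agent.B5.La6S :=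
  @Pool.Agent.B5.H87.la6 r_PCZS

theorem r_Wc5S : Pool.Agent.B5.Wc5S :=
  @Pool.Agent.B5.E.H82.wc5 r_Ca5S r_Kb5S r_Cu5S r_Lb5S r_La6S r_Nw5S r_Pv5S

theorem r_VcoS : Pool.Agent.B5.VcoS :=
  @Pool.Agent.B5.H17.vco

theorem r_F1S : Pool.Agent.B5.F1S :=
  @Pool.Agent.B5.H42.f1c r_VcoS

theorem r_F2S : Pool.Agent.B5.F2S :=
  @Pool.Agent.B5.H17.f2c r_F1S

theorem r_F3S : Pool.Agent.B5.F3S :=
  @Pool.Agent.B5.H83.f3c r_F1S r_F2S r_VcoS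

theorem r_F5mS : Pool.Agent.B5.F5mS :=
  @Pool.Agent.B5.H07.f5m r_F1S r_F2S r_F3S

theorem r_MxuS : Pool.Agent.B5.MxuS :=
  @Pool.Agent.B5.H07.mxu r_F3S

theorem r_LMNS : Pool.Agent.B5.LMNS :=
  @Pool.Agent.B5.H42.lmn r_F1S r_F2S r_VcoS

theorem r_A4S : Pool.Agent.B5.A4S :=
  @Pool.Agent.B5.H40.a4c

theorem r_SPKS : Pool.Agent.B5.SPKS :=
  @Pool.Agent.B5.H25.spk r_A4S

theorem r_Asano1S : Pool.Agent.B5.Asano1S :=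
  @Pool.Agent.B5.H17.as1

theorem r_AsanoS : Pool.Agent.B5.AsanoS :=
  @Pool.Agent.B5.H63.asa r_Asano1S

theorem r_PolyS : Pool.Agent.B5.PolyS :=
  @Pool.Agent.B5.H17.ply r_MultiS r_StSpecS

theorem r_MmonoS : Pool.Agent.B5.MmonoS :=
  @Pool.Agent.B5.H70.mmo

theorem r_DRBS : Pool.Agent.B5.DRBS :=
  @Pool.Agent.B5.H49.drb r_SPKS r_AsanoS r_PolyS r_EvRS r_ZfinS r_MmonoS

theorem r_SecS : Pool.Agent.B5.SecS :=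
  @Pool.Agent.B5.H50.sec

theorem r_MmulS : Pool.Agent.B5.MmulS :=
  @Pool.Agent.B5.H45.mmul

theorem r_Dr7S : Pool.Agent.B5.Dr7S :=
  @Pool.Agent.B5.H75.dr7 r_SecS r_AsanoS r_PolyS r_EvRS r_ZfinS r_MmonoS r_MmulS

theorem r_RkUSS : Pool.Agent.B5.RkUSS :=
  @Pool.Agent.B5.H58.rku r_VcoS r_RkS

theorem r_Sl4S : Pool.Agent.B5.Sl4S :=
  @Pool.Agent.B5.H07.sl4 r_E2S r_F5mS r_MxuS r_LMNS r_DRBS r_Dr7S r_RkUSS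

theorem r_McoS : Pool.Agent.B5.McoS :=
  @Pool.Agent.B5.H07.mco r_F1S r_F2S

theorem r_MfcS : Pool.Agent.B5.MfcS :=
  @Pool.Agent.B5.H79.mfc r_E2S r_PolyS r_AsanoS r_McoS r_EvRS

theorem r_B5aS : Pool.Agent.B5.B5aS :=
  @Pool.Agent.B5.H65.b5a

theorem r_B5S : Pool.Agent.B5.B5S :=
  @Pool.Agent.B5.H38.b5c r_MultiS r_B5aS r_StSpecS

theorem r_B5uS : Pool.Agent.B5.B5uS :=
  @Pool.Agent.B5.H24.b5u

theorem r_G0S : Pool.Agent.B5.G0S :=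
  @Pool.Agent.B5.H05.g0 r_B5S r_B5aS r_B5uS

theorem r_SharpS : Pool.Agent.B5.SharpS :=
  @Pool.Agent.B5.H09.sha

theorem r_C2S : Pool.Agent.B5.C2S :=
  @Pool.Agent.B5.H61.C2.c2c r_B4S r_C1S r_SharpS r_PrimS r_B2cS r_StSpecS

theorem r_Coeff0S : Pool.Agent.B5.Coeff0S :=
  @Pool.Agent.B5.H94.co0

theorem r_FactS : Pool.Agent.B5.FactS :=
  @Pool.Agent.B5.H78.fct r_B4S r_C2S r_UnitAS r_Coeff0S

theorem r_WWfS : Pool.Agent.B5.WWfS :=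
  @Pool.Agent.B5.H15.wwf r_MinS

theorem r_FDS : Pool.Agent.B5.FDS :=
  @Pool.Agent.B5.H29.fdc r_G0S r_FactS r_WWfS r_Coeff0S

theorem r_ThinS : Pool.Agent.B5.ThinS :=
  @Pool.Agent.B5.H59.thi

theorem r_RayFacS : Pool.Agent.B5.RayFacS :=
  @Pool.Agent.B5.H05.rfa r_ThinS

theorem r_H1S : Pool.Agent.B5.H1S :=
  @Pool.Agent.B5.H36.h1c r_G0S r_MinS

theorem r_H3aS : Pool.Agent.B5.H3aS :=
  @Pool.Agent.B5.H51.h3a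

theorem r_H3bS : Pool.Agent.B5.H3bS :=
  @Pool.Agent.B5.H35.h3b

theorem r_H2aS : Pool.Agent.B5.H2aS :=
  @Pool.Agent.MP_b5021c_nt.H98.h2a

theorem r_H2S : Pool.Agent.B5.H2S :=
  @Pool.Agent.B5.H16.h2 r_H3aS r_H3bS r_H2aS r_AsanoS r_PolyS r_ZfinS

theorem r_A1S : Pool.Agent.B5.A1S :=
  @Pool.Agent.B5.H91.a1r

theorem r_M1S : Pool.Agent.B5.M1S :=
  @Pool.Agent.B5.H70.m1r

theorem r_C4S : Pool.Agent.B5.C4S :=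
  @Pool.Agent.B5.C4C.c4 r_C3S r_B2cS r_B3S r_A1S r_M1S r_RaySpanS

theorem r_SmallS : Pool.Agent.B5.SmallS :=
  @Pool.Agent.B5.H25.sma r_MmulS r_C4S r_ThinS r_WWfS r_Coeff0S r_G0S

theorem r_HS : Pool.Agent.B5.HS :=
  @Pool.Agent.B5.H07.hcc r_H1S r_H2S r_SmallS

theorem r_G1S : Pool.Agent.B5.G1S :=
  @Pool.Agent.B5.H50.G1c.g1c' r_RayFacS r_RaySpanS r_RkS r_HS r_SmallS r_G0S r_ThinS

theorem r_A2cS : Pool.Agent.B5.A2cS :=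
  @Pool.Agent.B5.H19.a2c

theorem r_A7S : Pool.Agent.B5.A7S :=
  @Pool.Agent.B5.H67.a7c

theorem r_A5S : Pool.Agent.B5.A5S :=
  @Pool.Agent.B5.H18.a5c

theorem r_I1aS : Pool.Agent.B5.I1aS :=
  @Pool.Agent.B5.H83.i1a r_A5S r_MultiS r_StSpecS r_B2cS r_G0S r_EvRS

theorem r_SlMulS : Pool.Agent.B5.SlMulS :=
  @Pool.Agent.B5.H96.slm

theorem r_FullS : Pool.Agent.B5.FullS :=
  @Pool.Agent.B5.H61.ful r_SlMulS r_Coeff0S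

theorem r_I1S : Pool.Agent.B5.I1S :=
  @Pool.Agent.B5.H71.i1c r_I1aS r_C1S r_FullS r_PrimS r_EvRS r_ZfinS r_SlMulS r_UnitAS

theorem r_I2S : Pool.Agent.B5.I2S :=
  @Pool.Agent.B5.H71.i2c r_MinS r_I1S r_FullS r_EvRS r_ZfinS r_UnitAS

theorem r_A2S : Pool.Agent.B5.A2S :=
  @Pool.Agent.B5.H93.a2r r_A2cS r_EvRS

theorem r_LsdS : Pool.Agent.B5.LsdS :=
  @Pool.Agent.B5.H25.lsd r_A4S r_A2cS r_A6S r_A7S r_I1S r_I2S r_GenS r_MultiS r_SmallS r_EvRS r_ZfinS r_StSpecS r_G0S r_A2S r_MmulS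

theorem r_D3S : Pool.Agent.B5.D3S :=
  @Pool.Agent.B5.H41.d3f r_RkS

theorem r_E1S : Pool.Agent.B5.E1S :=
  @Pool.Agent.B5.H17.e1c

theorem r_FacetS : Pool.Agent.B5.FacetS :=
  @Pool.Agent.B5.H96.fce r_EvRS r_A1S r_M1S r_SlMulS r_SharpS r_ExtS r_StSpecS r_FaceS r_B2cS r_B3S r_Coeff0S r_B4S r_PrimS r_C2S r_C3S r_RaySpanS r_RkS r_MVS r_E1S r_ThinS

theorem r_ComplIrrS : Pool.Agent.B5.ComplIrrS :=
  @Pool.Agent.B5.K.H97.cir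

theorem r_ComplS : Pool.Agent.B5.ComplS :=
  @Pool.Agent.B5.H59.cst r_StSpecS r_SharpS

theorem r_L2stepS : Pool.Agent.B5.L2stepS :=
  @Pool.Agent.B5.H83.l2a r_D3S r_FacetS r_ComplIrrS r_ComplS r_RkS

theorem r_L2S : Pool.Agent.B5.L2S :=
  @Pool.Agent.B5.H58.l2c r_L2stepS

theorem r_ResWDS : Pool.Agent.B5.ResWDS :=
  @Pool.Agent.B5.H05.rwd r_UnitAS r_RkS

theorem r_ResStS : Pool.Agent.B5.ResStS :=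
  @Pool.Agent.B5.H82.rst r_StSpecS r_ExtS

theorem r_G4S : Pool.Agent.B5.G4S :=
  @Pool.Agent.B5.H29.g4c r_L2S r_ResWDS r_ResStS

theorem r_Cl4S : Pool.Agent.B5.Cl4S :=
  @Pool.Agent.B5.H31.cl4 r_FDS r_G1S r_LsdS r_G4S r_E1S r_MVS r_MmulS

theorem r_QstS : Pool.Agent.B5.QstS :=
  @Pool.Agent.B5.H35.qst r_I1S r_I2S r_FullS r_EvRS r_ZfinS r_UnitAS

theorem r_Qc3S : Pool.Agent.B5.Qc3S :=
  @Pool.Agent.B5.H79.qc3 r_SmallS r_QstS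

theorem r_Qu3S : Pool.Agent.B5.Qu3S :=
  @Pool.Agent.B5.H15.qu3 r_UnitAS r_EvRS r_ZfinS

theorem r_Qv3S : Pool.Agent.B5.Qv3S :=
  @Pool.Agent.B5.H47.qv3 r_E2S r_PrimS r_B3S r_FaceS r_StSpecS r_MultiS r_EvRS r_FullS

theorem r_Qp3S : Pool.Agent.B5.Qp3S :=
  @Pool.Agent.B5.H31.Qp.qp3 r_Qu3S r_Qv3S r_EvRS r_SharpS r_SlEvalS

theorem r_Nn3S : Pool.Agent.B5.Nn3S :=
  @Pool.Agent.B5.H75.nn3 r_GenS

theorem r_Db3S : Pool.Agent.B5.Db3S :=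
  @Pool.Agent.B5.db3

theorem r_Dv3S : Pool.Agent.B5.Dv3S :=
  @Pool.Agent.B5.H20.dv3 r_Qp3S r_Nn3S r_KerEvS r_M1S r_MmulS r_Db3S r_EvRS r_ZfinS

theorem r_Hp3S : Pool.Agent.B5.Hp3S :=
  @Pool.Agent.B5.H98.e3hp

theorem r_Qm3S : Pool.Agent.B5.Qm3S :=
  @Pool.Agent.B5.H24qm.qm3 r_Qu3S r_Qv3S r_Hp3S r_GenS r_SlEvalS r_EvRS r_SharpS r_Coeff0S r_B5aS

theorem r_Nr3S : Pool.Agent.B5.Nr3S :=
  @Pool.Agent.B5.H17.nr3 r_Nn3S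

theorem r_T03S : Pool.Agent.B5.T03S :=
  @Pool.Agent.B5.H03.t03 r_Nr3S r_Pc3S r_A7S r_A2cS

theorem r_Ta3S : Pool.Agent.B5.Ta3S :=
  @Pool.Agent.B5.H61.ta3 r_Nn3S r_A1S r_EvRS

theorem r_Um3S : Pool.Agent.B5.Um3S :=
  @Pool.Agent.B5.H17.um3 r_Pc3S

theorem r_St3S : Pool.Agent.B5.St3S :=
  @Pool.Agent.B5.H96.e3st r_UnitAS r_EvRS r_ZfinS

theorem r_Sw3S : Pool.Agent.B5.Sw3S :=
  @Pool.Agent.B5.H96.e3sw r_MultiS r_StSpecS r_UnitAS r_B4S r_EvRS r_ZfinS r_WWfS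

theorem r_E3mS : Pool.Agent.B5.E3mS :=
  @Pool.Agent.B5.H96.e3em r_Qc3S r_E2S r_Nd3S r_Dv3S r_Qm3S r_T03S r_Ta3S r_Um3S r_St3S r_Sw3S r_MmulS r_A7S r_EvRS r_ZfinS r_Nn3S

theorem r_G1pS : Pool.Agent.B5.G1pS :=
  @Pool.Agent.B5.H02.g1p r_RayFacS r_RaySpanS r_RkS r_SmallS r_G0S r_ThinS

theorem r_T2oS : Pool.Agent.B5.T2oS :=
  @Pool.Agent.B5.H56.t2o r_FDS r_E1S r_MVS r_MmulS r_E3mS r_LsdS r_G1pS r_G4S r_RkS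

theorem r_Inj1S : Pool.Agent.B5.Inj1S :=
  @Pool.Agent.B5.AllE0.inj1S

theorem r_DusS : Pool.Agent.B5.DusS :=
  @Pool.Agent.B5.H57.Dus.dus' r_SmallS r_G0S r_RayFacS r_RaySpanS r_ThinS r_HS r_MinS

theorem r_TpuS : Pool.Agent.B5.TpuS :=
  @Pool.Agent.B5.H19.tpu r_UnitAS r_EvRS r_ZfinS

theorem r_TpvS : Pool.Agent.B5.TpvS :=
  @Pool.Agent.B5.H98.e2tpv r_MultiS r_StSpecS r_G0S r_EvRS

theorem r_TpfS : Pool.Agent.B5.TpfS :=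
  @Pool.Agent.B5.H38.Tpf.tpf r_TpuS r_TpvS r_G0S r_E2S r_RkS r_UnitAS

theorem r_Tp1S : Pool.Agent.B5.Tp1S :=
  @Pool.Agent.B5.H76.e2_tp1 r_A5S r_EvRS r_ZfinS r_SlMulS r_DensS

theorem r_Tp2S : Pool.Agent.B5.Tp2S :=
  @Pool.Agent.B5.H76.e2_tp2 r_EvRS r_ZfinS

theorem r_Tp3S : Pool.Agent.B5.Tp3S :=
  @Pool.Agent.B5.H93.tp3 r_SlMulS r_EvRS

theorem r_TpxS : Pool.Agent.B5.TpxS :=
  @Pool.Agent.B5.H20.tpx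

theorem r_TpcS : Pool.Agent.B5.TpcS :=
  @Pool.Agent.B5.H06.tpc

theorem r_TpiS : Pool.Agent.B5.TpiS :=
  @Pool.Agent.B5.H16.tpi r_TpxS r_TpcS r_EvRS

theorem r_TprS : Pool.Agent.B5.TprS :=
  @Pool.Agent.B5.H94.tpr r_TpxS r_MinS r_RkS

theorem r_DvcS : Pool.Agent.B5.DvcS :=
  @Pool.Agent.B5.H18.dvc

theorem r_NnwS : Pool.Agent.B5.NnwS :=
  @Pool.Agent.B5.H96.e2nnw r_GenS

theorem r_TpmS : Pool.Agent.B5.TpmS :=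
  @Pool.Agent.B5.H09.e2_tpm r_Tp1S r_Tp2S r_Tp3S r_TpiS r_TprS r_DvcS r_NnwS r_EvRS r_ZfinS r_SharpS

theorem r_PscS : Pool.Agent.B5.PscS :=
  @Pool.Agent.B5.H14.psc

theorem r_FatS : Pool.Agent.B5.FatS :=
  @Pool.Agent.B5.H52.fat

theorem r_PsnS : Pool.Agent.B5.PsnS :=
  @Pool.Agent.B5.H31.Psn.psn r_PscS r_FatS

theorem r_PsrS : Pool.Agent.B5.PsrS :=
  @Pool.Agent.B5.H53.e2_psr r_PsnS

theorem r_TrmS : Pool.Agent.B5.TrmS :=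
  @Pool.Agent.B5.H65.trm r_FDS r_E2S r_MmulS r_MVS r_DusS r_TpfS r_TpmS r_PsrS r_EvRS

theorem r_SntS : Pool.Agent.B5.SntS :=
  @Pool.Agent.B5.E1.snt

theorem r_TreS : Pool.Agent.B5.TreS :=
  @Pool.Agent.B5.H27.tre r_TrmS r_PsrS r_SntS r_E2S r_EvRS r_ZfinS

theorem r_One6S : Pool.Agent.B5.One6S :=
  @Pool.Agent.B5.H42.One.one r_T2oS r_Inj1S r_TreS r_E2S r_EvRS

theorem r_LsaS : Pool.Agent.B5.LsaS :=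
  @Pool.Agent.B5.H40.lsa r_A4S r_A2cS r_A6S r_A7S r_I1S r_I2S r_GenS r_MultiS r_SmallS r_EvRS r_ZfinS r_StSpecS r_G0S

theorem r_LsmS : Pool.Agent.B5.LsmS :=
  @Pool.Agent.B5.H07.lsm r_LsaS r_A2S r_MmulS

theorem r_Ls1S : Pool.Agent.B5.Ls1S :=
  @Pool.Agent.B5.H91.ls1 r_LsmS r_MmulS

theorem r_KmuS : Pool.Agent.B5.KmuS :=
  @Pool.Agent.B5.H65.s_kmu

theorem r_QraS : Pool.Agent.B5.QraS :=
  @Pool.Agent.B5.H35.qra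

theorem r_ApaS : Pool.Agent.B5.ApaS :=
  @Pool.Agent.B5.H74.apa r_QstS r_QraS r_MinS r_Coeff0S r_B5aS r_RkS

theorem r_ApfS : Pool.Agent.B5.ApfS :=
  @Pool.Agent.B5.H65.s_apf r_EvRS

theorem r_AprS : Pool.Agent.B5.AprS :=
  @Pool.Agent.B5.H47.apr r_SmallS r_KmuS r_ApaS r_ApfS r_E2S

theorem r_SpjS : Pool.Agent.B5.SpjS :=
  @Pool.Agent.B5.H96.s_spj r_WWfS r_MinS r_Coeff0S r_G0S

theorem r_BpdS : Pool.Agent.B5.BpdS :=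
  @Pool.Agent.B5.H78.bpd r_QstS r_QraS r_UnitAS r_MmulS r_SmallS

theorem r_ComS : Pool.Agent.B5.ComS :=
  @Pool.Agent.B5.H79.com r_C1bS r_PrimS r_UnitAS r_E2S

theorem r_BpeS : Pool.Agent.B5.BpeS :=
  @Pool.Agent.B5.H38.bpe r_QstS r_QraS r_GenS r_MinS r_C1bS r_PrimS r_ComS r_FullS r_RkS

theorem r_BprS : Pool.Agent.B5.BprS :=
  @Pool.Agent.B5.H42.s_bpr r_SmallS r_SpjS r_BpdS r_BpeS r_RkS

theorem r_AdjSyS : Pool.Agent.B5.AdjSyS :=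
  @Pool.Agent.B5.H35.adjsy

theorem r_SelS : Pool.Agent.B5.SelS :=
  @Pool.Agent.B5.H06.sel r_FDS r_Ls1S r_AprS r_BprS r_AdjSyS r_RkS

theorem r_UnitRS : Pool.Agent.B5.UnitRS :=
  @Pool.Agent.B5.H02.uni

theorem r_CroS : Pool.Agent.B5.CroS :=
  @Pool.Agent.B5.H07.cro r_SmallS r_KmuS r_ApaS r_UnitRS r_MmulS r_MVS r_A6S

theorem r_SlxS : Pool.Agent.B5.SlxS :=
  @Pool.Agent.B5.H06.slx r_SelS r_FDS r_Ls1S r_CroS r_BprS r_RkS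

theorem r_ClpS : Pool.Agent.B5.ClpS :=
  @Pool.Agent.B5.AllE0.clpS

theorem r_NbfS : Pool.Agent.B5.NbfS :=
  @Pool.Agent.B5.H32.nbf r_DusS r_TpfS r_Tp1S r_Tp2S r_Tp3S r_TpiS r_TprS r_A2S r_MmulS r_EvRS r_ZfinS

theorem r_Pai6S : Pool.Agent.B5.Pai6S :=
  @Pool.Agent.B5.H32.pai r_SlxS r_ClpS r_NbfS r_LsdS r_G1pS r_G4S r_E1S r_MVS r_MmulS

theorem r_NVES : Pool.Agent.B5.NVES :=
  @Pool.Agent.B5.H88.nve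

theorem r_Big6S : Pool.Agent.B5.Big6S :=
  @Pool.Agent.B5.H42.Big.bigr r_G1pS r_LsdS r_G4S r_E1S r_MVS r_MmulS r_ClpS

theorem r_VZS : Pool.Agent.B5.VZS :=
  @Pool.Agent.B5.H16.vz

theorem r_LOVS : Pool.Agent.B5.LOVS :=
  @Pool.Agent.B5.H40.lov r_VZS

theorem r_F5S : Pool.Agent.B5.F5S :=
  @Pool.Agent.B5.H63.f5c r_F1S r_F2S r_F3S r_RkS

theorem r_FLS : Pool.Agent.B5.FLS :=
  @Pool.Agent.B5.H87.fll r_E2S r_F5S r_LMNS r_DRBS r_RkUSS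

theorem r_I3S : Pool.Agent.B5.I3S :=
  @Pool.Agent.B5.H69.i3c r_A4S r_A2cS r_A6S r_A7S r_I1S r_I2S r_GenS r_MultiS r_SmallS r_EvRS r_ZfinS r_StSpecS r_G0S

theorem r_G3S : Pool.Agent.B5.G3S :=
  @Pool.Agent.B5.H42.g3c r_I3S r_A2S r_MmulS

theorem r_CLOS : Pool.Agent.B5.CLOS :=
  @Pool.Agent.B5.Clo.clo r_FDS r_G1S r_G3S r_G4S r_E1S r_MVS r_MmulS

theorem r_JVNS : Pool.Agent.B5.JVNS :=
  @Pool.Agent.B5.H32.jvn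

theorem r_JVTS : Pool.Agent.B5.JVTS :=
  @Pool.Agent.B5.H87.jvt r_E2S r_LOVS r_FLS r_CLOS r_JVNS r_NVES r_MVS r_MmulS

theorem r_JVLS : Pool.Agent.B5.JVLS :=
  @Pool.Agent.B5.H45.jvl r_JVTS

theorem r_Fl2S : Pool.Agent.B5.Fl2S :=
  @Pool.Agent.B5.H84.fl2 r_E2S r_F5S r_LMNS r_DRBS r_Dr7S r_RkUSS

theorem r_Bs2S : Pool.Agent.B5.Bs2S :=
  @Pool.Agent.B5.H42.u_bs2

theorem r_MevS : Pool.Agent.B5.MevS :=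
  @Pool.Agent.B5.H79.mev

theorem r_Lv2S : Pool.Agent.B5.Lv2S :=
  @Pool.Agent.B5.H16.lv2 r_VZS r_Bs2S r_MevS r_A6S r_EvRS

theorem r_PurS : Pool.Agent.B5.PurS :=
  @Pool.Agent.B5.H75.pur r_SmallS r_G0S r_MinS r_PolyS r_AsanoS r_E2S

theorem r_RkbS : Pool.Agent.B5.RkbS :=
  @Pool.Agent.B5.H14.rkb r_PurS r_G1pS r_G1S

theorem r_Cl3S : Pool.Agent.B5.Cl3S :=
  @Pool.Agent.MP_b5021c_nt.H22.cl3 r_SlxS r_RkbS r_G1S r_G3S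

theorem r_ClxS : Pool.Agent.B5.ClxS :=
  @Pool.Agent.B5.H18.clx r_Cl3S r_E1S r_MVS r_MmulS r_G4S

theorem r_PunS2 : Pool.Agent.B5.H67.PunS2 :=
  @Pool.Agent.B5.H67.pun2 r_EvRS r_ZfinS

theorem r_Su3S : Pool.Agent.B5.Su3S :=
  @Pool.Agent.B5.H50.su3

theorem r_Nv3S : Pool.Agent.B5.Nv3S :=
  @Pool.Agent.B5.H20.nv3 r_Su3S

theorem r_Jv3S : Pool.Agent.B5.Jv3S :=
  @Pool.Agent.B5.H82.jv3 r_E2S r_NVES r_Fl2S r_Lv2S r_ClxS r_CLOS r_MVS r_PunS2 r_AdjSyS r_EvRS r_Nv3S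

theorem r_Jw3S : Pool.Agent.B5.Jw3S :=
  @Pool.Agent.B5.H67.jw3 r_JVLS r_Jv3S

theorem r_Num6S : Pool.Agent.B5.Num6S :=
  @Pool.Agent.B5.H02.Num6.num6 r_Su3S

theorem r_Sng6S : Pool.Agent.B5.Sng6S :=
  @Pool.Agent.B5.H75.e6c_sng r_FDS r_NVES r_TreS r_NbfS r_Big6S r_Jw3S r_Num6S r_MVS

theorem r_FclS : Pool.Agent.B5.FclS :=
  @Pool.Agent.B5.H78.ef_all r_HurS r_A3aS r_B3S r_C1S r_C2S r_B4S r_SharpS r_StSpecS r_Coeff0S r_SlMulS r_PrimS r_ComplIrrS r_ComplS r_UnitAS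

theorem r_TrgS : Pool.Agent.B5.TrgS :=
  @Pool.Agent.B5.H29.trg r_FDS r_MmulS r_MVS r_DusS r_TpfS r_TpmS

theorem r_PaiS : Pool.Agent.B5.PaiS :=
  @Pool.Agent.B5.H29.pai r_FatS

theorem r_PavS : Pool.Agent.B5.PavS :=
  @Pool.Agent.B5.H29.pav r_FatS

theorem r_PmfS : Pool.Agent.B5.PmfS :=
  @Pool.Agent.B5.H05.pmf

theorem r_TrvS : Pool.Agent.B5.TrvS :=
  @Pool.Agent.B5.H29.trv r_TrgS r_PaiS r_PavS r_PmfS r_SntS r_E2S r_EvRS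

theorem r_EvtS : Pool.Agent.B5.EvtS :=
  @Pool.Agent.B5.AllEV.evtS

theorem r_EvrS : Pool.Agent.B5.EvrS :=
  @Pool.Agent.B5.AllEV.evrS r_TrvS r_EvtS

theorem r_Vx6S : Pool.Agent.B5.Vx6S :=
  @Pool.Agent.B5.H71.Ee.vx6 r_EvrS

theorem r_Alo6S : Pool.Agent.B5.Alo6S :=
  @Pool.Agent.B5.H58.alo r_FDS r_ClpS r_Inj1S r_CroS r_NbfS r_Big6S r_Num6S r_FclS r_Vx6S r_Jw3S r_NVES r_MVS r_RkUSS r_RkS r_E1S r_F1S r_VcoS r_EvRS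

theorem r_T2eS : Pool.Agent.B5.T2eS :=
  @Pool.Agent.B5.H42.t2e rk_ZcoS

theorem r_T2hS : Pool.Agent.B5.T2hS :=
  @Pool.Agent.B5.H42.t2h r_MevS r_MepS

theorem r_TrsS : Pool.Agent.B5.TrsS :=
  @Pool.Agent.B5.H42.trs r_TrmS r_PsnS r_SntS r_E2S r_EvRS

theorem r_TwfS : Pool.Agent.B5.TwfS :=
  @Pool.Agent.B5.AllE0.twfS

theorem r_Inj2S : Pool.Agent.B5.Inj2S :=
  @Pool.Agent.B5.AllE0.inj2S

theorem r_T2cS : Pool.Agent.B5.T2cS :=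
  @Pool.Agent.B5.H75.T2C.t2c r_T2eS r_T2hS r_T2oS r_TrsS r_TreS r_PCZS r_E2S r_EvRS r_VcoS r_F1S r_Inj1S r_TwfS r_Inj2S r_RkS

theorem r_T2fS : Pool.Agent.B5.T2fS :=
  @Pool.Agent.B5.E4.t2f r_F1S r_F2S r_F3S r_E2S r_KmuS r_RkS r_McoS

theorem r_Ttw6S : Pool.Agent.B5.Ttw6S :=
  @Pool.Agent.B5.H84.Ttw.ttw r_T2cS r_T2fS r_McoS

theorem r_CstS : Pool.Agent.B5.CstS :=
  @Pool.Agent.B5.H58.e6c_cst r_NcsS r_E2S r_MVS r_Lp5S r_Wb5S r_Wc5S r_Sl4S r_MfcS r_Cl4S r_One6S r_Pai6S r_Sng6S r_Alo6S r_Ttw6S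

theorem r_FpRedS : Pool.Agent.B5.FpRedS :=
  @Pool.Agent.B5.AllE0.fpRedS

theorem r_LOPS : Pool.Agent.B5.LOPS :=
  @Pool.Agent.B5.H40.lop r_PCZS

theorem r_JPNS : Pool.Agent.B5.JPNS :=
  @Pool.Agent.B5.K.H79.jpn

theorem r_JPTS : Pool.Agent.B5.JPTS :=
  @Pool.Agent.B5.H49.jpt r_E2S r_LOPS r_FLS r_CLOS r_JPNS r_NVES r_MVS r_MmulS

theorem r_JPLS : Pool.Agent.B5.JPLS :=
  @Pool.Agent.B5.H40.jpl r_JPTS r_JVLS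

theorem r_Rb2S : Pool.Agent.B5.Rb2S :=
  @Pool.Agent.B5.H02.rb2

theorem r_Lb2S : Pool.Agent.B5.Lb2S :=
  @Pool.Agent.B5.H59.u_lb2 r_PCZS r_Rb2S

theorem r_Ra2S : Pool.Agent.B5.Ra2S :=
  @Pool.Agent.B5.H74.ra2

theorem r_AuvS : Pool.Agent.B5.AuvS :=
  @Pool.Agent.B5.H94.u_auv

theorem r_La2S : Pool.Agent.B5.La2S :=
  @Pool.Agent.B5.H88.la2 r_PCZS r_SwzS r_Ra2S r_AuvS

theorem r_PucS : Pool.Agent.B5.PucS :=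
  @Pool.Agent.B5.H19.puc r_MevS r_MepS

theorem r_Lp3S : Pool.Agent.B5.Lp3S :=
  @Pool.Agent.B5.H24.lp3 r_PdaS r_Lb2S r_La2S r_BstS r_MepS r_PucS r_EvRS r_A6S

theorem r_Np3S : Pool.Agent.B5.Np3S :=
  @Pool.Agent.B5.H79.np3

theorem r_Nq3S : Pool.Agent.B5.Nq3S :=
  @Pool.Agent.B5.H23.nq3 r_Su3S

theorem r_Jp3S : Pool.Agent.B5.Jp3S :=
  @Pool.Agent.B5.H36.jp3 r_E2S r_NVES r_Fl2S r_Lp3S r_ClxS r_Cl4S r_MVS r_PunS2 r_AdjSyS r_EvRS r_Np3S r_Nq3S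

theorem r_Jq3S : Pool.Agent.B5.Jq3S :=
  @Pool.Agent.B5.H97.jq3 r_JPLS r_Jp3S r_Jw3S

theorem r_CcS : Pool.Agent.B5.CcS :=
  @Pool.Agent.B5.H58.ccs r_CstS r_FpRedS r_Jq3S

theorem r_CcfS : Pool.Agent.B5.CcfS :=
  @Pool.Agent.B5.H58.ccf r_CcS

theorem r_IndS : Pool.Agent.B5.IndS :=
  @Pool.Agent.B5.H71.Ind6.ind r_FpRedS

theorem r_Lr5S : Pool.Agent.B5.Lr5S :=
  @Pool.Agent.B5.E.H82.lr5 r_PdaS r_Pv5S r_Lb5S r_Lc5S r_La5S r_Kc5S r_Ca5S r_A6S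

theorem r_Zb5S : Pool.Agent.B5.Zb5S :=
  @Pool.Agent.B5.H31.Zb.zb5 r_Lb5S r_Ks5S r_Pv5S r_MepS r_EvRS

theorem r_BcdS : Pool.Agent.B5.BcdS :=
  @Pool.Agent.B5.H09.BcdS_st

theorem r_NrlS : Pool.Agent.B5.NrlS :=
  @Pool.Agent.B5.H23.nrl

theorem r_VhvS : Pool.Agent.B5.VhvS :=
  @Pool.Agent.B5.H24vhv.vhv r_MfcS r_One6S r_NrlS

theorem r_HvyS : Pool.Agent.B5.HvyS :=
  @Pool.Agent.B5.E.H94.hvy r_Cl4S r_MVS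

theorem r_NurS : Pool.Agent.B5.NurS :=
  @Pool.Agent.B5.H02.nur

theorem r_TyaS : Pool.Agent.B5.TyaS :=
  @Pool.Agent.B5.H84.Tya.tya r_TreS r_FDS r_NbfS r_Big6S r_NurS r_MVS

theorem r_Zb5xS : Pool.Agent.B5.H31.Zb.Zb5xS :=
  @Pool.Agent.B5.H31.Zb.zb5x r_Lb5S r_Ks5S r_Pv5S r_MepS r_EvRS

theorem r_PaeS : Pool.Agent.B5.PaeS :=
  @Pool.Agent.B5.H82.pae r_Pai6S

theorem r_AlpS : Pool.Agent.B5.AlpS :=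
  @Pool.Agent.B5.H25.Alp.Alp.alp r_One6S r_Zb5xS r_PaeS r_BcdS r_NrlS

theorem r_Zc5S : Pool.Agent.B5.Zc5S :=
  @Pool.Agent.B5.H29.zc5 r_Ca5S r_Kb5S r_Cu5S r_Lb5S r_PCZS

theorem r_Vs2S : Pool.Agent.B5.Vs2S :=
  @Pool.Agent.B5.E4.vs2 r_F1S r_E2S r_KmuS r_RkS r_McoS

theorem r_OnaS : Pool.Agent.B5.OnaS :=
  @Pool.Agent.B5.H14.Ona.ona r_FDS r_ClpS r_Inj1S r_CroS r_NbfS r_Big6S r_NurS r_MVS r_RkS r_E1S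

theorem r_MugS : Pool.Agent.B5.MugS :=
  @Pool.Agent.B5.H78.mug r_TwfS r_Inj1S r_Inj2S r_McoS

theorem r_ZfaS : Pool.Agent.B5.ZfaS :=
  @Pool.Agent.B5.H78.zfa

theorem r_Wn1S : Pool.Agent.B5.Wn1S :=
  @Pool.Agent.B5.H98.e6wn1 r_OnaS r_MugS r_FclS r_ZfaS r_McoS

theorem r_ScvS : Pool.Agent.B5.ScvS :=
  @Pool.Agent.B5.H91.scv r_FDS r_E1S r_MVS r_MmulS r_LsdS r_G1pS r_G4S r_RkS r_NurS

theorem r_ZfbS : Pool.Agent.B5.ZfbS :=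
  @Pool.Agent.B5.H78.zfb

theorem r_Nd3vS : Pool.Agent.B5.Nd3vS :=
  @Pool.Agent.B5.H29.nd3v

theorem r_T03vS : Pool.Agent.B5.T03vS :=
  @Pool.Agent.B5.H29.t03v r_Nr3S r_Hp3S

theorem r_Um3vS : Pool.Agent.B5.Um3vS :=
  @Pool.Agent.B5.H29.um3v

theorem r_E3vaS : Pool.Agent.B5.E3vaS :=
  @Pool.Agent.B5.H29.e3va r_Qc3S r_E2S r_Nd3vS r_Dv3S r_Qm3S r_T03vS r_Ta3S r_Um3vS r_St3S r_Sw3S r_EvRS r_ZfinS r_Nn3S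

theorem r_E3vS : Pool.Agent.B5.E3vS :=
  @Pool.Agent.B5.H29.e3v r_E3vaS r_TrvS

theorem r_MdcS : Pool.Agent.B5.MdcS :=
  @Pool.Agent.B5.E4.mdc

theorem r_Wn2S : Pool.Agent.B5.Wn2S :=
  @Pool.Agent.B5.H66.wn2 r_Wn1S r_ScvS r_FclS r_ZfbS r_E3vS r_McoS r_MdcS

theorem r_MedS : Pool.Agent.B5.MedS :=
  @Pool.Agent.B5.E664.med r_Zb5S r_Zc5S r_AlpS r_T2fS r_T2cS r_PaeS r_Vs2S r_OnaS r_Wn2S r_MfcS r_McoS r_BcdS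

theorem r_StpS : Pool.Agent.B5.StpS :=
  @Pool.Agent.B5.H71.Stp6.stp r_E2S r_MVS r_Lr5S r_Zb5S r_Sl4S r_BcdS r_VhvS r_HvyS r_TyaS r_AlpS r_MedS

theorem r_EefS : Pool.Agent.B5.EefS :=
  @Pool.Agent.B5.H71.Ind6.eef

theorem rk_PsqS : Pool.Agent.MP_b5021c_nt.PsqS :=
  @Pool.Agent.MP_b5021c_nt.psq

theorem rk_CoeS : Pool.Agent.MP_b5021c_nt.CoeS :=
  @Pool.Agent.MP_b5021c_nt.H22.coe

theorem rk_DecS : Pool.Agent.MP_b5021c_nt.DecS :=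
  @Pool.Agent.MP_b5021c_nt.H05.decS

theorem rk_ParS : Pool.Agent.MP_b5021c_nt.ParS :=
  @Pool.Agent.MP_b5021c_nt.Par.par

theorem rk_BpoS : Pool.Agent.MP_b5021c_nt.BpoS :=
  @Pool.Agent.MP_b5021c_nt.BPO.bpo rk_DecS rk_ParS

theorem rk_BouS : Pool.Agent.MP_b5021c_nt.BouS :=
  @Pool.Agent.MP_b5021c_nt.H38.bou

theorem rk_SubS : Pool.Agent.MP_b5021c_nt.SubS :=
  @Pool.Agent.MP_b5021c_nt.H07.sub

theorem rk_BplS : Pool.Agent.MP_b5021c_nt.BplS :=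
  @Pool.Agent.MP_b5021c_nt.Bpl.bpl

theorem rk_PolS : Pool.Agent.MP_b5021c_nt.PolS :=
  @Pool.Agent.MP_b5021c_nt.POL.pol

theorem rk_LowS : Pool.Agent.MP_b5021c_nt.LowS :=
  @Pool.Agent.MP_b5021c_nt.K.H23.low

theorem rk_ZpoS : Pool.Agent.MP_b5021c_nt.ZpoS :=
  @Pool.Agent.MP_b5021c_nt.Zpo.zpo rk_ZcoS

theorem rk_BlaS : Pool.Agent.MP_b5021c_nt.BlaS :=
  @Pool.Agent.MP_b5021c_nt.Bla.bla

theorem rk_LimS : Pool.Agent.MP_b5021c_nt.LimS :=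
  @Pool.Agent.MP_b5021c_nt.H61.lim rk_BlaS

theorem rk_LpfS : Pool.Agent.MP_b5021c_nt.LpfS :=
  @Pool.Agent.MP_b5021c_nt.Lpf.lpf rk_LowS rk_ZpoS rk_LimS

theorem rk_QexS : Pool.Agent.MP_b5021c_nt.QexS :=
  @Pool.Agent.MP_b5021c_nt.Qex.qex

theorem rk_LidS : Pool.Agent.MP_b5021c_nt.LidS :=
  @Pool.Agent.MP_b5021c_nt.H62.lid rk_PsqS rk_CoeS rk_BpoS rk_BouS rk_SubS rk_BplS rk_PolS rk_LpfS rk_QexS

theorem rk_LspS : Pool.Agent.MP_b5021c_nt.LspS :=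
  @Pool.Agent.MP_b5021c_nt.K.H82.lsp

theorem rk_BuoS : Pool.Agent.MP_b5021c_nt.BuoS :=
  @Pool.Agent.MP_b5021c_nt.H78.buo rk_DecS rk_ParS

theorem rk_IsoS : Pool.Agent.MP_b5021c_nt.IsoS :=
  @Pool.Agent.MP_b5021c_nt.H76.iso

theorem rk_LnuS : Pool.Agent.MP_b5021c_nt.LnuS :=
  @Pool.Agent.MP_b5021c_nt.H47.lnu rk_BuoS rk_IsoS

theorem rk_TcoS : Pool.Agent.MP_b5021c_nt.TcoS :=
  @Pool.Agent.MP_b5021c_nt.tco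

theorem rk_LfaS : Pool.Agent.MP_b5021c_nt.LfaS :=
  @Pool.Agent.MP_b5021c_nt.Lfa.lfa rk_TcoS rk_CoeS

theorem rk_LreS : Pool.Agent.MP_b5021c_nt.LreS :=
  @Pool.Agent.MP_b5021c_nt.Lre.lre

theorem rk_LirS : Pool.Agent.MP_b5021c_nt.LirS :=
  @Pool.Agent.MP_b5021c_nt.H14.lir rk_LfaS rk_LreS rk_BuoS rk_IsoS

theorem rk_StaS : Pool.Agent.MP_b5021c_nt.StaS :=
  @Pool.Agent.MP_b5021c_nt.H45.sta

theorem rk_HpfS : Pool.Agent.MP_b5021c_nt.HpfS :=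
  @Pool.Agent.MP_b5021c_nt.H19.hpf rk_StaS

theorem rk_LikS : Pool.Agent.MP_b5021c_nt.LikS :=
  @Pool.Agent.MP_b5021c_nt.Lik.lik rk_TcoS

theorem rk_UnrS : Pool.Agent.MP_b5021c_nt.UnrS :=
  @Pool.Agent.MP_b5021c_nt.Unr.unr rk_TcoS

theorem rk_HirS : Pool.Agent.MP_b5021c_nt.HirS :=
  @Pool.Agent.MP_b5021c_nt.H32.hir rk_LikS rk_UnrS

theorem rk_HunS : Pool.Agent.MP_b5021c_nt.HunS :=
  @Pool.Agent.MP_b5021c_nt.H67.hun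

theorem rk_HspS : Pool.Agent.MP_b5021c_nt.HspS :=
  @Pool.Agent.MP_b5021c_nt.H96.hsp

theorem rk_HatS : Pool.Agent.MP_b5021c_nt.HatS :=
  @Pool.Agent.MP_b5021c_nt.H36.hat rk_HpfS rk_HirS rk_HunS rk_HspS

theorem rk_StpS : Pool.Agent.MP_b5021c_nt.StpS :=
  @Pool.Agent.MP_b5021c_nt.H65.stp rk_LidS rk_LspS rk_LnuS rk_LirS rk_HatS

theorem rk_BasS : Pool.Agent.MP_b5021c_nt.BasS :=
  @Pool.Agent.MP_b5021c_nt.Bas.bas rk_PsqS rk_HatS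

theorem rk_RecS : Pool.Agent.MP_b5021c_nt.RecS :=
  @Pool.Agent.MP_b5021c_nt.H05.recS

theorem rk_Bp1S : Pool.Agent.MP_b5021c_nt.Bp1S :=
  @Pool.Agent.MP_b5021c_nt.H76.bp1

theorem rk_HanS : Pool.Agent.MP_b5021c_nt.HanS :=
  @Pool.Agent.MP_b5021c_nt.Han.han

theorem rk_KroS : Pool.Agent.MP_b5021c_nt.KroS :=
  @Pool.Agent.MP_b5021c_nt.H03.kro

theorem rk_FatS : Pool.Agent.MP_b5021c_nt.FatS :=
  @Pool.Agent.MP_b5021c_nt.H17.fat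

theorem rk_PisS : Pool.Agent.MP_b5021c_nt.PisS :=
  @Pool.Agent.MP_b5021c_nt.H61.pis rk_HanS rk_KroS rk_FatS

theorem rk_SalS : Pool.Agent.MP_b5021c_nt.SalS :=
  @Pool.Agent.MP_b5021c_nt.H06.sal rk_PsqS rk_RecS rk_BuoS rk_BouS rk_BplS rk_Bp1S rk_IsoS rk_SubS rk_PisS

theorem rk_QpsS : Pool.Agent.MP_b5021c_nt.QpsS :=
  @Pool.Agent.MP_b5021c_nt.H15.qps

theorem rk_TraS : Pool.Agent.MP_b5021c_nt.TraS :=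
  @Pool.Agent.MP_b5021c_nt.H47.tra

theorem rk_ThkS : Pool.Agent.MP_b5021c_nt.ThkS :=
  @Pool.Agent.MP_b5021c_nt.H18.thk rk_StpS rk_BasS rk_SalS rk_RecS rk_QpsS rk_TraS

theorem rk_StkS : Pool.Agent.MP_b5021c_nt.StkS :=
  @Pool.Agent.MP_b5021c_nt.Stk.stk rk_TcoS

theorem rk_UnkS : Pool.Agent.MP_b5021c_nt.UnkS :=
  @Pool.Agent.MP_b5021c_nt.H50.unk

theorem r_GdzS : Pool.Agent.B5.GdzS :=
  @Pool.Agent.B5.H25.gdz rk_TcoS rk_StkS rk_UnkS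

theorem rk_TceS : Pool.Agent.MP_b5021c_nt.TceS :=
  @Pool.Agent.MP_b5021c_nt.H19.tce

theorem rk_SteS : Pool.Agent.MP_b5021c_nt.SteS :=
  @Pool.Agent.B5.H18.Ste.ste rk_TceS

theorem rk_UneS : Pool.Agent.MP_b5021c_nt.UneS :=
  @Pool.Agent.B5.H18.Une.une

theorem rk_IreS : Pool.Agent.MP_b5021c_nt.IreS :=
  @Pool.Agent.MP_b5021c_nt.Ire.ire rk_TceS

theorem rk_GdeS : Pool.Agent.MP_b5021c_nt.GdeS :=
  @Pool.Agent.MP_b5021c_nt.H54.gde rk_TceS rk_SteS rk_UneS rk_IreS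

theorem r_Ma3S : Pool.Agent.B5.Ma3S :=
  @Pool.Agent.B5.H93.ma3 rk_ThkS rk_GdeS r_Jq3S

theorem r_UpqS : Pool.Agent.B5.UpqS :=
  @Pool.Agent.B5.H25.upq

theorem r_MexS : Pool.Agent.B5.MexS :=
  @Pool.Agent.B5.H25.mex rk_ThkS r_GdzS r_Ma3S r_UpqS

theorem rk_UplS : Pool.Agent.MP_b5021c_nt.UplS :=
  @Pool.Agent.B5.H25.upn

end Pool.Agent.MP_b5021c_nt.AllE
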