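import Pool.Agent.Lib.MP_b5021c_nt.IfaceSF
import Pool.Agent.Lib.MP_b5021c_nt.IfaceEF
import Pool.Agent.Lib.MP_b5021c_nt.IfaceE5T
import Pool.Agent.Lib.MP_b5021c_nt.B.H40.LoadBase
import Pool.Agent.Lib.MP_b5021c_nt.W.H80.Win

/-!
# Board b5, stage 3, ALL `θ`, K EVEN: assembly of PaperALL.md, section 6

Everything over `ℤ`.  `D` has facet ports, `D_0 = q`, `q(0) = 1`, `q` has exactly one zero `a` in
the open disc, `0 < a`; for a ray `S` the unit `e` is chosen with `e D_S = f`, `f(0) ≥ 1`.  The load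
of type B is `T e`, of type C `T² e`, of type A `-e`.
-/

namespace Pool.Agent.B5

open scoped LaurentPolynomial
open Polynomial
open Pool.Agent.B5.H40 (uT)
open Pool.Agent.B5.Nr.Sch (Loc)

/-- The claim for the rank `K` over `ℤ`. -/
def Bnk (K : ℕ) : Prop := ∀ (θ : ℝ) (P L : Type) [Fintype P] [DecidableEq P] [AddCommGroup L]
  [Module.Free ℤ L] [Module.Finite ℤ L] (phi : L →+ (P → ℤ)) (D : AO ℤ L), DD phi D →
    ClassP θ (D.coeff 0) → Module.finrank ℤ L = K →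
      (Even K → (K : ℝ) ≤ 2 * (θ - 1 / θ)) ∧ (Odd K → (K : ℝ) + 1 ≤ 2 * θ)

/-- The normalised constant coefficient: the part of `Loc` without `f`. -/
structure Qn (q : ℤ[X]) (a : ℝ) : Prop where
  a0 : 0 < a
  a1 : a < 1
  q0 : q.coeff 0 = 1
  s : ∃ s : ℝ[X], q.map (Int.castRingHom ℝ) = (X - C a) * s ∧ ∀ z : ℂ, ‖z‖ ≤ 1 → aeval z s ≠ 0

/-- A normalised ray. -/
structure RN {L : Type} [AddCommGroup L] (D : AO ℤ L) (S : L) (q f : ℤ[X]) (e : (RO ℤ)ˣ) (a : ℝ) :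
    Prop where
  loc : Loc q f a
  ne : ∃ z : ℂ, ‖z‖ = 1 ∧ ‖aeval z f‖ ≠ ‖aeval z q‖
  u : 1 ≤ f.coeff 0
  D0 : D.coeff 0 = toLaurent q
  DS : (e : RO ℤ) * D.coeff S = toLaurent f

/-- The load `T^k e`. -/
noncomputable def ld (e : (RO ℤ)ˣ) (k : ℤ) : (RO ℤ)ˣ := uT (1 : ℤˣ) k * e

/-! ## Leaves -/

/-- (KE_WU) window, `u ≥ 2`. -/
def WuS : Prop := ∀ (q f : ℤ[X]) (a : ℝ) (j : ℕ), Loc q f a → 2 ≤ f.coeff 0 → 2 ≤ j →
  a ≤ 1 / j → a⁻¹ - a < j →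
  (aeval (1 / (j : ℝ)) q : ℝ) + 1 / (j : ℝ) * aeval (1 / (j : ℝ)) f ≤ 0 → False

/-- (KE_WE) window, `u = 1`. -/
def WeS : Prop := ∀ (q f : ℤ[X]) (a : ℝ) (j : ℕ), Loc q f a → f.coeff 0 = 1 → 2 ≤ j →
  a ≤ 1 / j → a⁻¹ - a < j → 1 ≤ f.coeff 1 - q.coeff 1 →
  (aeval (1 / (j : ℝ)) q : ℝ) + 1 / (j : ℝ) * aeval (1 / (j : ℝ)) f ≤ 0 →
    f.coeff 1 - q.coeff 1 = 1

/-- (KE_CE) the load C. -/
def CeS : Prop := ∀ (q f : ℤ[X]) (a : ℝ) (j : ℕ), Loc q f a → 1 ≤ f.coeff 0 → 2 ≤ j →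
  a ≤ 1 / j → a⁻¹ - a < j →
  (aeval (1 / (j : ℝ)) q : ℝ) + (1 / (j : ℝ)) ^ 2 * aeval (1 / (j : ℝ)) f ≤ 0 →
    f.coeff 0 = 1 ∧ f.coeff 1 - q.coeff 1 ≤ j

/-- (KE_TSB) a small factor at the load B of a normalised ray, `u ≥ 2`: C is drop free. -/
def TsbS : Prop := ∀ (P L : Type) [Fintype P] [DecidableEq P] [AddCommGroup L]
  [Module.Free ℤ L] [Module.Finite ℤ L] (phi : L →+ (P → ℤ)) (D : AO ℤ L) (S : L) (i0 : P)
  (h : co phi i0 S = 1) (c : RO ℤ) (n : ℕ) (G : Fin n → AO ℤ (Ker (co phi i0)))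
  (q f : ℤ[X]) (e : (RO ℤ)ˣ) (a : ℝ),
    FP phi D → 4 ≤ Module.finrank ℤ L → Ray D S → RN D S q f e a → 2 ≤ f.coeff 0 →
    FD phi D S i0 (ld e 1) h c n G →
    Module.finrank ℤ L = rk (supp (cl (co phi i0) S h (ld e 1) D)) + 1 →
    (snp phi S i0 G).Nonempty →
      Module.finrank ℤ L = rk (supp (cl (co phi i0) S h (ld e 2) D)) + 1

/-- (KE_TSA) a small factor at the load A, `u = 1`, `n ≥ 2`: B is drop free. -/
def TsaS : Prop := ∀ (P L : Type) [Fintype P] [DecidableEq P] [AddCommGroup L]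
  [Module.Free ℤ L] [Module.Finite ℤ L] (phi : L →+ (P → ℤ)) (D : AO ℤ L) (S : L) (i0 : P)
  (h : co phi i0 S = 1) (c : RO ℤ) (n : ℕ) (G : Fin n → AO ℤ (Ker (co phi i0)))
  (q f : ℤ[X]) (e : (RO ℤ)ˣ) (a : ℝ),
    FP phi D → 4 ≤ Module.finrank ℤ L → Ray D S → RN D S q f e a → f.coeff 0 = 1 →
    2 ≤ f.coeff 1 - q.coeff 1 → FD phi D S i0 (-e) h c n G →
    Module.finrank ℤ L = rk (supp (cl (co phi i0) S h (-e) D)) + 1 →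
    (snp phi S i0 G).Nonempty →
      Module.finrank ℤ L = rk (supp (cl (co phi i0) S h (ld e 1) D)) + 1

/-- (KE_EVZ) class `V` over `ℤ`. -/
def EvzS : Prop := ∀ N : ℕ, 2 ≤ N → BdV ℤ N (2 * N)

/-- (KE_SE) `w`-extremal elements of class `V(N)` of rank `2N - 1`. -/
def SexS : Prop := ∀ (P L : Type) [Fintype P] [DecidableEq P] [AddCommGroup L]
  [Module.Free ℤ L] [Module.Finite ℤ L] (phi : L →+ (P → ℤ)) (G : AO ℤ L) (N : ℕ), 2 ≤ N →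
    DD phi G → ClassV N (G.coeff 0) → Module.finrank ℤ L + 1 = 2 * N →
      ZFree G ∨ ∃ (t k : ℕ) (ep : ℤ) (w : (RO ℤ)ˣ), (ep = 1 ∨ ep = -1) ∧ 1 ≤ k ∧ 1 ≤ t ∧
        t + 1 ≤ N ∧ G.coeff 0 = (w : RO ℤ) * toLaurent (C (N : ℤ) + C (t * ep) * X ^ k) ∧
        ∀ S, Ray G S → ∀ (w1 : (RO ℤ)ˣ) (g : ℤ[X]), g.coeff 0 = 1 →
          (w1 : RO ℤ) * G.coeff S = toLaurent g →
            g = 1 ∨ g = 1 + C ep * X ^ k ∨ (t = 1 ∧ g = 1 - C (ep * (N - 2)) * X ^ k)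

/-- (KE_SW) the weak form of `SexS` (levels only). -/
def SewS : Prop := ∀ (P L : Type) [Fintype P] [DecidableEq P] [AddCommGroup L]
  [Module.Free ℤ L] [Module.Finite ℤ L] (phi : L →+ (P → ℤ)) (G : AO ℤ L) (N : ℕ), 2 ≤ N →
    DD phi G → ClassV N (G.coeff 0) → Module.finrank ℤ L + 1 = 2 * N →
      ZFree G ∨ ∃ (k : ℕ) (t : ℤ) (w : (RO ℤ)ˣ), 1 ≤ k ∧
        G.coeff 0 = (w : RO ℤ) * toLaurent (C (N : ℤ) + C t * X ^ k) ∧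
        ∀ S, Ray G S → ∀ (w1 : (RO ℤ)ˣ) (g : ℤ[X]), g.coeff 0 = 1 →
          (w1 : RO ℤ) * G.coeff S = toLaurent g → ∃ r : ℤ, g = 1 + C r * X ^ k

/-- (KE_FA1) THE CLOSING A at a mutual pair of loads B: one factor, of class `V(n)`. -/
def FA1S : Prop := ∀ (P L : Type) [Fintype P] [DecidableEq P] [AddCommGroup L]
  [Module.Free ℤ L] [Module.Finite ℤ L] (phi : L →+ (P → ℤ)) (D : AO ℤ L) (S0 S1 : L)
  (q f : ℤ[X]) (e e1 : (RO ℤ)ˣ) (a : ℝ) (nu : ℕ) (Y : Dp phi S0 S1),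
    FP phi D → 2 ≤ Module.finrank ℤ L → RN D S0 q f e a → f.coeff 0 = 1 →
    (nu : ℤ) = f.coeff 1 - q.coeff 1 → Mut D S0 S1 (ld e 1) e1 →
    Module.finrank ℤ L = rk (supp (cl (co phi Y.i0) S0 Y.h0 (-e) D)) + 1 →
    (∀ (c : RO ℤ) (n : ℕ) (G : Fin n → AO ℤ (Ker (co phi Y.i0))),
      FD phi D S0 Y.i0 (-e) Y.h0 c n G → snp phi S0 Y.i0 G = ∅) →
      ∃ (c : RO ℤ) (G : AO ℤ (Ker (co phi Y.i0))), ClassV 1 c ∧
        cl (co phi Y.i0) S0 Y.h0 (-e) D = cst c * G ∧ DD (phO phi S0 Y.i0) G ∧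
        ClassV nu (G.coeff 0) ∧ Ray G Y.T ∧ c * G.coeff 0 = toLaurent (q - f) ∧
        (∃ w : (RO ℤ)ˣ, (w : RO ℤ) * (c * G.coeff Y.T) = toLaurent ((1 + X) * f)) ∧
        ImS (phO phi S0 Y.i0) Y.T ∧ co (phO phi S0 Y.i0) Y.i1 = Y.k1

/-- (KE) THE RESULT for normalised elements: K EVEN. -/
def KevS : Prop := ∀ (P L : Type) [Fintype P] [DecidableEq P] [AddCommGroup L]
  [Module.Free ℤ L] [Module.Finite ℤ L] (phi : L →+ (P → ℤ)) (D : AO ℤ L) (q : ℤ[X]) (a : ℝ)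
  (j : ℕ), FP phi D → D.coeff 0 = toLaurent q → Qn q a → a ≤ 1 / 2 → 2 ≤ j →
    Module.finrank ℤ L = 2 * j → (∀ K < 2 * j, Bnk K) → (j : ℝ) ≤ a⁻¹ - a

end Pool.Agent.B5
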