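import Pool.Agent.Lib.MP_b5021c_nt.IfaceUF
import Pool.Agent.Lib.MP_b5021c_nt.IfaceKE

/-!
# Board b5, stage 3, ALL `θ`: one unit ray of an element of class `V(N)`, rank `2N - 1`
(finding 3603, Theorem B' of helper23, in the weak form which all uses need)
-/

namespace Pool.Agent.B5

open scoped LaurentPolynomial
open Polynomial

/-- The pair (constant coefficient `p`, coefficient `g` of a unit ray): two binomials with the same
exponent, or the form of LEMMA UF shifted `s` times (`N_s = N - s ≥ 3`, `x = 1/mu_(N_s - 1)`). -/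
def Bpf (N : ℕ) (p g : ℤ[X]) : Prop :=
  (∃ (k : ℕ) (t r : ℤ), 1 ≤ k ∧ p = C (N : ℤ) + C t * X ^ k ∧ g = 1 + C r * X ^ k) ∨
  ∃ (s : ℕ) (F : ℤ[X]) (x : ℝ), s + 3 ≤ N ∧ p = C (N : ℤ) + C ((s : ℤ) + 1) * F ∧ g = 1 + F ∧
    F.coeff 0 = 0 ∧ (∀ k, |F.coeff k| ≤ 1) ∧ 0 < x ∧ x⁻¹ - x = (N : ℝ) - s - 1 ∧
    (aeval x F : ℝ) ≤ x

/-- (BP) THEOREM B', weak form. Nothing is claimed for `g = 1`. -/
def BpS : Prop := ∀ (P L : Type) [Fintype P] [DecidableEq P] [AddCommGroup L]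
  [Module.Free ℤ L] [Module.Finite ℤ L] (phi : L →+ (P → ℤ)) (G : AO ℤ L) (N : ℕ) (S : L)
  (w w1 : (RO ℤ)ˣ) (p g : ℤ[X]), 2 ≤ N → DD phi G → ClassV N (G.coeff 0) →
    Module.finrank ℤ L + 1 = 2 * N → (∀ K < 2 * N, Bnk K) → Ray G S →
    (w : RO ℤ) * G.coeff 0 = toLaurent p → p.coeff 0 = N →
    (w1 : RO ℤ) * G.coeff S = toLaurent g → g.coeff 0 = 1 → g ≠ 1 → Bpf N p g


/-! ## Strong form: all truncations, and the case `g = 1` -/

/-- The polynomials of LEMMA UF at the level `M` (`x = 1/mu_(M-1)`). -/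
def Bff (M : ℕ) (F : ℤ[X]) : Prop :=
  3 ≤ M ∧ F.coeff 0 = 0 ∧ (∀ k, |F.coeff k| ≤ 1) ∧ ∃ x : ℝ, 0 < x ∧ x⁻¹ - x = (M : ℝ) - 1 ∧
    ∀ (m : ℕ) (G : ℤ[X]), 1 ≤ m → (∀ j, G.coeff j = F.coeff (m * j)) →
      (aeval x G : ℝ) ≤ x ∧ (aeval (-x) G : ℝ) ≤ x

/-- The pair (constant coefficient `p`, coefficient `g` of a unit ray), strong form. -/
def Bpx (N : ℕ) (p g : ℤ[X]) : Prop :=
  (∃ (k : ℕ) (t r : ℤ), 1 ≤ k ∧ p = C (N : ℤ) + C t * X ^ k ∧ g = 1 + C r * X ^ k) ∨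
  ∃ (s M : ℕ) (F : ℤ[X]), M + s = N ∧ Bff M F ∧ p = C (N : ℤ) + C ((s : ℤ) + 1) * F ∧ g = 1 + F

/-- The constant coefficient `p` in the case `g = 1`. -/
def Bqx (N : ℕ) (p : ℤ[X]) : Prop :=
  (∃ (k : ℕ) (t : ℤ), 1 ≤ k ∧ p = C (N : ℤ) + C t * X ^ k) ∨
  ∃ (s M : ℕ) (F : ℤ[X]), M + s ≤ N ∧ Bff M F ∧ p = C (N : ℤ) + C ((s : ℤ) + 1) * F

/-- (BPX) THEOREM B', strong form. -/
def BpxS : Prop := ∀ (P L : Type) [Fintype P] [DecidableEq P] [AddCommGroup L]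
  [Module.Free ℤ L] [Module.Finite ℤ L] (phi : L →+ (P → ℤ)) (G : AO ℤ L) (N : ℕ) (S : L)
  (w w1 : (RO ℤ)ˣ) (p g : ℤ[X]), 2 ≤ N → DD phi G → ClassV N (G.coeff 0) →
    Module.finrank ℤ L + 1 = 2 * N → (∀ K < 2 * N, Bnk K) → Ray G S →
    (w : RO ℤ) * G.coeff 0 = toLaurent p → p.coeff 0 = N →
    (w1 : RO ℤ) * G.coeff S = toLaurent g → g.coeff 0 = 1 →
      (g ≠ 1 → Bpx N p g) ∧ (g = 1 → Bqx N p)

theorem bpf_of_bpx {N : ℕ} {p g : ℤ[X]} (h : Bpx N p g) : Bpf N p g := by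
  rcases h with h | ⟨s, M, F, h1, ⟨h2, h3, h4, x, hx, hx2, h5⟩, h6, h7⟩
  · exact Or.inl h
  · refine Or.inr ⟨s, F, x, by omega, h6, h7, h3, h4, hx, ?_, ?_⟩
    · rw [hx2, ← h1]
      push_cast
      ring
    · exact (h5 1 F le_rfl (fun j => by rw [one_mul])).1

theorem bpS_of_bpxS (h : BpxS) : BpS := by
  intro P L _ _ _ _ _ phi G N S w w1 p g h1 h2 h3 h4 h5 h6 h7 h8 h9 h10 h11
  exact bpf_of_bpx ((h P L phi G N S w w1 p g h1 h2 h3 h4 h5 h6 h7 h8 h9 h10).1 h11)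

/-- Induction step: the pair `(p - g, g)` at the level `N - 1`. -/
theorem bpx_succ {N : ℕ} {p g : ℤ[X]} (h : Bpx N (p - g) g) : Bpx (N + 1) p g := by
  rcases h with ⟨k, t, r, h1, h2, h3⟩ | ⟨s, M, F, h1, h2, h3, h4⟩
  · refine Or.inl ⟨k, t + r, r, h1, ?_, h3⟩
    have : p = (p - g) + g := by ring
    rw [this, h2, h3]
    push_cast
    simp only [map_add, map_one]
    ring
  · refine Or.inr ⟨s + 1, M, F, by omega, h2, ?_, h4⟩
    have : p = (p - g) + g := by ring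
    rw [this, h3, h4]
    push_cast
    simp only [map_add, map_one]
    ring

/-- Induction step in the case `g = 1`. -/
theorem bqx_succ {N : ℕ} {p : ℤ[X]} (h : Bqx N (p - 1)) : Bqx (N + 1) p := by
  rcases h with ⟨k, t, h1, h2⟩ | ⟨s, M, F, h1, h2, h3⟩
  · refine Or.inl ⟨k, t, h1, ?_⟩
    have : p = (p - 1) + 1 := by ring
    rw [this, h2]
    push_cast
    simp only [map_add, map_one]
    ring
  · refine Or.inr ⟨s, M, F, by omega, h2, ?_⟩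
    have : p = (p - 1) + 1 := by ring
    rw [this, h3]
    push_cast
    simp only [map_add, map_one]
    ring

end Pool.Agent.B5
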