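import Pool.Agent.Lib.MP_b5021c_nt.IfaceKE
import Pool.Agent.Lib.MP_b5021c_nt.E.H78.Sel

/-!
# Board b5, stage 3, ALL `θ`, K ODD: leaf (O-f), `u = f(0) ≥ 2` (PaperOF.md; findings 3524, 3542)

`X := T' + 1/T'`, `1/T'` the zero of `v = q + z f`; `a = 1/T` the zero of `q`.
-/

namespace Pool.Agent.B5

open scoped LaurentPolynomial
open Polynomial
open Pool.Agent.MP_b5021c_nt (nz)

/-! ## One variable -/

/-- (OF_ONE) the two inequalities from `C₁`. [uses CzmS PmfS Nr3S] -/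
def On1S : Prop := ∀ (q f : ℤ[X]) (a T' : ℝ) (s W : ℂ[X]) (t : RO ℤ) (k : ℕ), LDz q f →
  C1D q f T' s W → 0 < a → a < 1 → (cpz q).eval (a : ℂ) = 0 → q.coeff 0 = 1 → 1 ≤ f.coeff 0 →
  NnR t → Mass t q f → (k : ℤ) ≤ t.coeff 0 + t.coeff 1 →
    1 ≤ T' ∧ ((t.coeff 0 : ℝ) - 1) * (T' + T'⁻¹) ≤ 2 * (f.coeff 0 + t.coeff 1) ∧
    T' + T'⁻¹ + f.coeff 0 * (1 - a) + k * (a / (1 - a) * (T' + T'⁻¹ - 2)) ≤ a⁻¹ + 1

/-- (OF_TWO) two Fejér kernels. [uses CzmS] -/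
def On2S : Prop := ∀ (q f : ℤ[X]) (a T' : ℝ) (s W : ℂ[X]) (m n : ℕ), LDz q f →
  C1D q f T' s W → 0 < a → a < 1 → (cpz q).eval (a : ℂ) = 0 → q.coeff 0 = 1 → 1 ≤ f.coeff 0 →
  1 ≤ m → 1 ≤ n → Mass (fej 1 m + fej 1 n) q f →
    T' + T'⁻¹ + f.coeff 0 * (1 - a) + 2 * (a * (T' + T'⁻¹ - 1 - a)) ≤ a⁻¹ + 1

/-- (OF_NUM) the numbers for a drop free load: `l` small factors, a big factor of rank `r`. -/
def OnuS : Prop := ∀ (j l r : ℕ) (u t0 t1 : ℤ) (a T' : ℝ), 2 ≤ j → 0 < a → a < 1 →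
  a⁻¹ < j + 1 → 1 < T' → 2 ≤ u → 2 * j ≤ r + l → 1 ≤ r →
  (Even r → (r : ℝ) ≤ 2 * (T' - 1 / T')) → (Odd r → (r : ℝ) + 1 ≤ 2 * T') →
  (l : ℤ) ≤ t0 → t1 + l ≤ t0 → ((t0 : ℝ) - 1) * (T' + T'⁻¹) ≤ 2 * (u + t1) →
  T' + T'⁻¹ + u * (1 - a) + l * (a / (1 - a) * (T' + T'⁻¹ - 2)) ≤ a⁻¹ + 1 →
  (l = 2 → t1 + 2 = t0 →
    T' + T'⁻¹ + u * (1 - a) + 2 * (a * (T' + T'⁻¹ - 1 - a)) ≤ a⁻¹ + 1) → False

/-- (OF_REC) `v conj(z f)` is real on the circle: `q = d (1 - h z + z²)`,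
`v = d (1 - (h - u) z + z²)`, `v = q + z f`, `u = f(0)`. -/
def RecS : Prop := ∀ (q f : ℤ[X]) (a T' : ℝ), LDz q f → 0 < a → a < 1 →
  (cpz q).eval (a : ℂ) = 0 → q.coeff 0 = 1 → 1 ≤ f.coeff 0 → 1 < T' →
  (cpz (q + X * f)).eval ((T'⁻¹ : ℝ) : ℂ) = 0 →
  (∀ z : ℂ, ‖z‖ = 1 →
    ((cpz (q + X * f)).eval z * (starRingEnd ℂ) ((cpz (X * f)).eval z)).im = 0) →
    ∃ h : ℤ, (h : ℝ) = a⁻¹ + a ∧ (h : ℝ) - f.coeff 0 = T' + T'⁻¹ ∧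
      ∀ k : ℕ, Mass ((k : ℕ) : RO ℤ) q f → (1 + (k : ℝ)) * (T' + T'⁻¹ + 2) ≤ 2 * (h + 2)

/-- (OF_NU2) the numbers for a load with drop one. -/
def OndS : Prop := ∀ (j l r : ℕ) (u h : ℤ) (a T' : ℝ), 2 ≤ j → 0 < a → a < 1 →
  a⁻¹ < j + 1 → 1 < T' → 2 ≤ u → 1 ≤ l → 2 * j ≤ r + l + 1 → 1 ≤ r →
  (Even r → (r : ℝ) ≤ 2 * (T' - 1 / T')) → (Odd r → (r : ℝ) + 1 ≤ 2 * T') →
  (h : ℝ) = a⁻¹ + a → (h : ℝ) - u = T' + T'⁻¹ →
  (1 + (l : ℝ)) * (T' + T'⁻¹ + 2) ≤ 2 * (h + 2) → False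

/-! ## Faces -/

/-- (OF_FCM) a family of disjoint exponents: Asano contraction. [uses E2S PolyS AsanoS; copy of
MFC] -/
def FcmS : Prop := ∀ (O : Type) [CommRing O] [IsDomain O] [IsPrincipalIdealRing O] [Coef O]
  (P L : Type) [Fintype P] [DecidableEq P] [AddCommGroup L] [Module.Free ℤ L]
  [Module.Finite ℤ L] (phi : L →+ (P → ℤ)) (D : AO O L) (m : ℕ) (E : Fin m → L),
    DD phi D → 2 ≤ Module.finrank ℤ L → (∀ i, Bin phi (E i)) → (∀ i, E i ≠ 0) →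
    (∀ i j, i ≠ j → ∀ p, phi (E i) p = 0 ∨ phi (E j) p = 0) →
      ∀ (z : Circle) (y : Fin m → ℂ), (∀ i, ‖y i‖ < 1) →
        ∑ I : Finset (Fin m), evR z (D.coeff (∑ i ∈ I, E i)) * ∏ i ∈ I, y i ≠ 0

/-- (OF_FC3) the face of `S`, `S1`, `b`: `v (1 - x y) ≠ A (1 - x)(1 - y)(1 - y_1)`. [uses FcmS] -/
def Fc3S : Prop := ∀ (O : Type) [CommRing O] [IsDomain O] [IsPrincipalIdealRing O] [Coef O]
  (P L : Type) [Fintype P] [DecidableEq P] [AddCommGroup L] [Module.Free ℤ L]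
  [Module.Finite ℤ L] (phi : L →+ (P → ℤ)) (D : AO O L) (E : Fin 3 → L) (e : Fin 3 → (RO O)ˣ)
  (A : RO O), DD phi D → 2 ≤ Module.finrank ℤ L → (∀ i, Bin phi (E i)) → (∀ i, E i ≠ 0) →
    (∀ i j, i ≠ j → ∀ p, phi (E i) p = 0 ∨ phi (E j) p = 0) →
    (e 0 : RO O) * D.coeff (E 0) = A → (e 1 : RO O) * D.coeff (E 1) = A →
    (e 2 : RO O) * D.coeff (E 2) = A →
    (e 0 : RO O) * (e 1 : RO O) * D.coeff (E 0 + E 1) = -A →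
    (e 2 : RO O) * (e 1 : RO O) * D.coeff (E 2 + E 1) = -A →
    (e 0 : RO O) * (e 2 : RO O) * D.coeff (E 0 + E 2) = -(D.coeff 0 + 2 * A) →
    (e 0 : RO O) * (e 1 : RO O) * (e 2 : RO O) * D.coeff (E 0 + E 1 + E 2) = A →
      ∀ z : Circle, (evR z (D.coeff 0 + A) * (starRingEnd ℂ) (evR z A)).im = 0

/-- (OF_FC4) the face of `S`, `S1`, `S2`, `b`: impossible. `E 0 = S`, `E 3 = b`; `I` runs through
the subsets which contain `1` or `2`. [uses FcmS ZfinS] -/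
def Fc4S : Prop := ∀ (O : Type) [CommRing O] [IsDomain O] [IsPrincipalIdealRing O] [Coef O]
  (P L : Type) [Fintype P] [DecidableEq P] [AddCommGroup L] [Module.Free ℤ L]
  [Module.Finite ℤ L] (phi : L →+ (P → ℤ)) (D : AO O L) (E : Fin 4 → L) (e : Fin 4 → (RO O)ˣ)
  (A : RO O), DD phi D → 2 ≤ Module.finrank ℤ L → (∀ i, Bin phi (E i)) → (∀ i, E i ≠ 0) →
    (∀ i j, i ≠ j → ∀ p, phi (E i) p = 0 ∨ phi (E j) p = 0) →
    (e 0 : RO O) * D.coeff (E 0) = A → (e 3 : RO O) * D.coeff (E 3) = A →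
    (e 0 : RO O) * (e 3 : RO O) * D.coeff (E 0 + E 3) = -(D.coeff 0 + 2 * A) →
    (∀ I : Finset (Fin 4), (1 ∈ I ∨ 2 ∈ I) →
      (∏ i ∈ I, (e i : RO O)) * D.coeff (∑ i ∈ I, E i) = (-1) ^ (I.card + 1) * A) →
      D.coeff 0 + A = 0 ∨ A = 0

/-! ## The masses -/

/-- (OF_NDW) a small factor at a load with a mutual partner: the mass is one (extends NDZ).
[uses I2S Inj1S RaySpanS F1S McoS E2S; three of E/H36/Ndz.lean] -/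
def NdwS : Prop := ∀ (O : Type) [CommRing O] [IsDomain O] [IsPrincipalIdealRing O] [Coef O]
  (P L : Type) [Fintype P] [DecidableEq P] [AddCommGroup L] [Module.Free ℤ L]
  [Module.Finite ℤ L] (phi : L →+ (P → ℤ)) (D : AO O L) (S : L) (i0 : P) (eta : (RO O)ˣ)
  (h : co phi i0 S = 1) (c : RO O) (n : ℕ) (G : Fin n → AO O (Ker (co phi i0))) (l : Fin n)
  (b : Ker (co phi i0)) (j : P) (e : (RO O)ˣ) (hj : co (phK phi (co phi i0)) j b = 1)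
  (q F : AO O (Ker (co (phK phi (co phi i0)) j))) (S1 : L) (e1 : (RO O)ˣ),
    FP phi D → QC phi D S i0 eta h c n G l b j e hj q → q = cst (c * (G l).coeff 0) * F →
    F.coeff 0 ≠ 0 → Mut D S S1 eta e1 →
    (∀ R, Ray D R → R ∉ US eta S D → ∃ e2 : (RO O)ˣ, Mut D S R eta e2) →
      (D.coeff 0 + (eta : RO O) * D.coeff S) ∣ D.coeff S ∨
      D.coeff 0 = F.coeff 0 * (D.coeff 0 + (eta : RO O) * D.coeff S) ∨
      D.coeff 0 = (1 + F.coeff 0) * (D.coeff 0 + (eta : RO O) * D.coeff S) ∨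
      (F.coeff 0 = 1 ∧ Bin phi (b : L) ∧ (∀ i, phi (b : L) i = 0 ∨ phi S i = 0) ∧
        (e : RO O) * D.coeff (b : L) = (eta : RO O) * D.coeff S ∧
        (eta : RO O) * (e : RO O) * D.coeff (S + (b : L)) =
          -(D.coeff 0 + 2 * ((eta : RO O) * D.coeff S)) ∧
        (∀ a : L, (∀ i, phi a i = 0 ∨ (phi S i = 0 ∧ phi (b : L) i = 0)) → a ∉ US eta S D →
          D.coeff a + (eta : RO O) * D.coeff (a + S) = 0 ∧
          D.coeff a + (e : RO O) * D.coeff (a + (b : L)) = 0 ∧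
          D.coeff (a + (b : L)) + (eta : RO O) * D.coeff (a + (b : L) + S) = 0) ∧
        ∀ (S2 : L) (e2 : (RO O)ˣ), Mut D S S2 eta e2 → ∀ i, phi (b : L) i = 0 ∨ phi S2 i = 0)

/-! ## The big factor -/

/-- (OF_BGR) a load of class `P` with a big factor: `M c = 1`, one big factor, which is in `DD` and
of the same class. [uses ClpS E1S G1pS MmulS MVS RkS; SF/H27/Big.lean, big_factor] -/
def BgrS : Prop := ∀ (P L : Type) [Fintype P] [DecidableEq P] [AddCommGroup L]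
  [Module.Free ℤ L] [Module.Finite ℤ L] (phi : L →+ (P → ℤ)) (D : AO ℤ L) (S : L) (i0 : P)
  (eta : (RO ℤ)ˣ) (h : co phi i0 S = 1) (c : RO ℤ) (n : ℕ)
  (G : Fin n → AO ℤ (Ker (co phi i0))) (θ' : ℝ),
    FP phi D → FD phi D S i0 eta h c n G → ClassP θ' (D.coeff 0 + (eta : RO ℤ) * D.coeff S) →
    (∃ i, 1 < M ((G i).coeff 0)) →
      M c = 1 ∧ ∃ (P' L' : Type) (_ : Fintype P') (_ : DecidableEq P') (_ : AddCommGroup L')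
        (_ : Module.Free ℤ L') (_ : Module.Finite ℤ L') (phi' : L' →+ (P' → ℤ)) (D' : AO ℤ L'),
        DD phi' D' ∧ ClassP θ' (D'.coeff 0) ∧ 1 ≤ Module.finrank ℤ L' ∧
        Module.finrank ℤ L' < Module.finrank ℤ L ∧
        rk (supp (cl (co phi i0) S h eta D)) ≤
          Module.finrank ℤ L' + (snp phi S i0 G).card

/-- (OF_DAT) the data of the load of type B of a normalised ray. [uses CzaS] -/
def OdtS : Prop := ∀ (P L : Type) [Fintype P] [DecidableEq P] [AddCommGroup L]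
  [Module.Free ℤ L] [Module.Finite ℤ L] (phi : L →+ (P → ℤ)) (D : AO ℤ L) (S : L) (q f : ℤ[X])
  (e : (RO ℤ)ˣ) (a : ℝ), DD phi D → Ray D S → RN D S q f e a →
    LDz q f ∧ q.coeff 0 = 1 ∧ (cpz q).eval (a : ℂ) = 0 ∧ ClassP a⁻¹ (D.coeff 0) ∧
    D.coeff 0 = LaurentPolynomial.T 0 * toLaurent q ∧
    (ld e 1 : RO ℤ) * D.coeff S = LaurentPolynomial.T 0 * toLaurent (X * f) ∧
    D.coeff 0 + (ld e 1 : RO ℤ) * D.coeff S ≠ 0 ∧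
    ∃ (T' : ℝ) (s W : ℂ[X]), C1D q f T' s W ∧
      (1 < |T'| → ClassP |T'| (D.coeff 0 + (ld e 1 : RO ℤ) * D.coeff S)) ∧
      (|T'| = 1 → M (D.coeff 0 + (ld e 1 : RO ℤ) * D.coeff S) = 1)

/-! ## Results -/

/-- (OF_1) `u ≥ 2` at a drop free load of type B.
[uses On1S On2S OnuS BgrS OdtS NbzS QsgS Nd3S FjtS Nr3S FDS] -/
def Of1S : Prop := ∀ (P L : Type) [Fintype P] [DecidableEq P] [AddCommGroup L]
  [Module.Free ℤ L] [Module.Finite ℤ L] (phi : L →+ (P → ℤ)) (D : AO ℤ L) (S : L) (q f : ℤ[X])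
  (e : (RO ℤ)ˣ) (a : ℝ) (j : ℕ), FP phi D → Ray D S → RN D S q f e a → a ≤ 1 / 2 →
    2 ≤ f.coeff 0 → 2 ≤ j → Module.finrank ℤ L = 2 * j + 1 → (∀ K < 2 * j + 1, Bnk K) →
    Dgr phi D S (ld e 1) 0 → (j : ℝ) + 1 ≤ a⁻¹

/-- (OF_2) `u ≥ 2` at a load of type B with a drop and a small factor (the data are those of
`SllS`). [uses OndS RecS Fc3S Fc4S NdwS BgrS OdtS NbzS QsgS Qc3S Ta3S Nd3S McoS F3S On1S] -/
def Of2S : Prop := ∀ (P L : Type) [Fintype P] [DecidableEq P] [AddCommGroup L]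
  [Module.Free ℤ L] [Module.Finite ℤ L] (phi : L →+ (P → ℤ)) (D : AO ℤ L) (S : L) (q f : ℤ[X])
  (e : (RO ℤ)ˣ) (a : ℝ) (j g : ℕ), FP phi D → Ray D S → RN D S q f e a → a ≤ 1 / 2 →
    2 ≤ f.coeff 0 → 2 ≤ j → Module.finrank ℤ L = 2 * j + 1 → (∀ K < 2 * j + 1, Bnk K) →
    1 ≤ g → Dgr phi D S (ld e 1) g →
    (∃ (S1 : L) (e1 : (RO ℤ)ˣ), Mut D S S1 (ld e 1) e1) →
    (2 ≤ g → ∃ (S1 S2 : L) (e1 e2 : (RO ℤ)ˣ), Mut D S S1 (ld e 1) e1 ∧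
      Mut D S S2 (ld e 1) e2 ∧ S2 ∉ satur (US e1 S1 D ⊔ Submodule.span ℤ {S}) ∧
      S1 ∉ satur (US e2 S2 D ⊔ Submodule.span ℤ {S})) →
    (∀ R, Ray D R → R ∉ US (ld e 1) S D → ∃ e2 : (RO ℤ)ˣ, Mut D S R (ld e 1) e2) →
    (∃ (i0 : P) (h : co phi i0 S = 1) (c : RO ℤ) (n : ℕ) (G : Fin n → AO ℤ (Ker (co phi i0))),
      FD phi D S i0 (ld e 1) h c n G ∧
        ((snp phi S i0 G).Nonempty ∨ ∀ i, ¬ 1 < M ((G i).coeff 0))) →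
      (j : ℝ) + 1 ≤ a⁻¹

end Pool.Agent.B5
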