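import Pool.Agent.Lib.MP_b5021c_nt.IfaceO1
import Pool.Agent.Lib.MP_b5021c_nt.IfaceOF
import Pool.Agent.Lib.MP_b5021c_nt.IfaceBP
import Pool.Agent.Lib.MP_b5021c_nt.KO.H67.Ivz

/-!
# Board b5, stage 3, ALL `θ`, K ODD: leaf (O1-iv) = `Oo4S` (`u = 1`, a drop at the A-load)
(H21/PaperO1.md, sections 2 - 5, with the proof of (4.4) without LEV and without B')

Notation: `S0`, `S1` in `C` mutual at the A-loads `-e0`, `-e1`; `f - q = X E`, so the A-closing has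
the constant coefficient `q - f = - z E`; `x = w^S0 / (-e0)`, `y = w^S1 / (-e1)`: the face of `S0`,
`S1` is `- z E + f (1 - x) (1 - y)`.  `V_B = D(x = -z)`, `V'' = D(x = y = -z)`,
`V''_0 = (1 + z)² f - z E`.
-/

namespace Pool.Agent.B5

open scoped LaurentPolynomial
open Polynomial
open Pool.Agent.B5.Nr.Sch (Loc)
open Pool.Agent.B5.OOne (IvD)

section

variable {P : Type} [Fintype P] [DecidableEq P] {L : Type} [AddCommGroup L] [Module.Free ℤ L]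
  [Module.Finite ℤ L]

/-- The data of (O1-iv): a mutual pair of the A-loads; everything in one variable. -/
structure K4 (phi : L →+ (P → ℤ)) (D : AO ℤ L) (q f E : ℤ[X]) (a p : ℝ) (j : ℕ)
    (eta : L → (RO ℤ)ˣ) (g : ℕ) (C : Set L) (S0 S1 : L) (e0 e1 : (RO ℤ)ˣ) : Prop where
  kc : KcA phi D q f a j eta g C
  o : O1d q f a p j
  eq : f - q = X * E
  n2 : 2 ≤ E.coeff 0
  nj : E.coeff 0 ≤ j
  ez : ∀ z : ℂ, ‖z‖ ≤ 1 → (aeval z E : ℂ) ≠ 0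
  m0 : S0 ∈ C
  m1 : S1 ∈ C
  t0 : eta S0 = -e0
  t1 : eta S1 = -e1
  r0 : RN D S0 q f e0 a
  r1 : RN D S1 q f e1 a
  mt : Mut D S0 S1 (-e0) (-e1)

/-- `V_B`: the closing `w^S0 = T e0`. -/
noncomputable abbrev vB (phi : L →+ (P → ℤ)) (D : AO ℤ L) (S0 : L) (e0 : (RO ℤ)ˣ) (i0 : P)
    (h0 : co phi i0 S0 = 1) : AO ℤ (Ker (co phi i0)) :=
  cl (co phi i0) S0 h0 (ld e0 1) D

/-- `V''`: the closing `w^S1 = T e1` of `V_B` (`T = S1`). -/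
noncomputable abbrev vV (phi : L →+ (P → ℤ)) (D : AO ℤ L) (S0 : L) (e0 e1 : (RO ℤ)ˣ) (i0 : P)
    (h0 : co phi i0 S0 = 1) (T : Ker (co phi i0)) (i1 : P)
    (h1 : co (phO phi S0 i0) i1 T = 1) : AO ℤ (Ker (co (phO phi S0 i0) i1)) :=
  cl (co (phO phi S0 i0) i1) T h1 (ld e1 1) (vB phi D S0 e0 i0 h0)

/-- `V_B` is in `DD`, of rank `2j` and class `P(1/x)`, `1/x - x ≥ j`, and `S1` is a normalised ray
of it. -/
structure KvB (phi : L →+ (P → ℤ)) (D : AO ℤ L) (q f E : ℤ[X]) (a p : ℝ) (j : ℕ)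
    (eta : L → (RO ℤ)ˣ) (g : ℕ) (C : Set L) (S0 S1 : L) (e0 e1 : (RO ℤ)ˣ) (i0 : P)
    (h0 : co phi i0 S0 = 1) (T : Ker (co phi i0)) (x : ℝ) : Prop where
  k : K4 phi D q f E a p j eta g C S0 S1 e0 e1
  n : E.coeff 0 = j
  hT : (T : L) = S1
  dd : DD (phO phi S0 i0) (vB phi D S0 e0 i0 h0)
  rk : Module.finrank ℤ (Ker (co phi i0)) = 2 * j
  ray : Ray (vB phi D S0 e0 i0 h0) T
  rn : RN (vB phi D S0 e0 i0 h0) T (q + X * f) ((1 + X) * f) e1 x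
  im : ImS (phO phi S0 i0) T
  ax : a < x
  th : (j : ℝ) ≤ x⁻¹ - x

/-- `V''` has full rank `2j - 1`. -/
def FrV (phi : L →+ (P → ℤ)) (D : AO ℤ L) (S0 : L) (e0 e1 : (RO ℤ)ˣ) (i0 : P)
    (h0 : co phi i0 S0 = 1) (T : Ker (co phi i0)) (i1 : P)
    (h1 : co (phO phi S0 i0) i1 T = 1) : Prop :=
  Module.finrank ℤ (Ker (co phi i0)) = rk (supp (vV phi D S0 e0 e1 i0 h0 T i1 h1)) + 1

/-- The shape of `E` for `j = 2`. -/
def Sh2 (j : ℕ) (E : ℤ[X]) : Prop :=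
  j = 2 → ∃ (k : ℕ) (t : ℤ), 1 ≤ k ∧ |t| ≤ 1 ∧ E = Polynomial.C 2 + Polynomial.C t * X ^ k

/-- A small factor `1 - w^b / e` of `V''` with the mass `fej 1 m`; the class of `b` modulo `S0`,
`S1` is `w^b (p x^i y^k + r (1 - x) (1 - y))`. `eA`: the A-closing of `V_B` on `w^b = e`; `eB`: `V''`
itself; `rt`: `V''_0` has a zero in the disc. -/
structure Typ (phi : L →+ (P → ℤ)) (D : AO ℤ L) (f E : ℤ[X]) (S0 S1 : L) (e0 e1 : (RO ℤ)ˣ)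
    (b : L) (e : (RO ℤ)ˣ) (m i k : ℕ) (p r : RO ℤ) : Prop where
  m1 : 1 ≤ m
  bin : Bin phi b
  b0 : b ≠ 0
  out : Out phi S0 S1 b
  nf : Nf D S0 S1 (-e0) (-e1) b i k p r
  eA : -(LaurentPolynomial.T 1 * toLaurent E) + (e : RO ℤ) * p * (-LaurentPolynomial.T 1) ^ i =
    (1 + LaurentPolynomial.T (-1)) * (fej 1 m * toLaurent ((1 + X) ^ 2 * f - X * E))
  eB : toLaurent ((1 + X) ^ 2 * f - X * E) + (e : RO ℤ) * p * (-LaurentPolynomial.T 1) ^ (i + k) +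
    (e : RO ℤ) * r * (1 + LaurentPolynomial.T 1) ^ 2 = 0
  rt : ∃ w : ℂ, ‖w‖ < 1 ∧ (aeval w ((1 + X) ^ 2 * f - X * E) : ℂ) = 0

end

/-! ## Preliminaries -/

/-- (O4_PRE) the data exist at every `S0 ∈ C`. [uses O1bS TrezS WooS CuspS McoS; KO67.n_ne_one_o,
KE.typa] -/
def O4preS : Prop := ∀ (P L : Type) [Fintype P] [DecidableEq P] [AddCommGroup L]
  [Module.Free ℤ L] [Module.Finite ℤ L] (phi : L →+ (P → ℤ)) (D : AO ℤ L) (q f : ℤ[X]) (a : ℝ)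
  (j : ℕ) (eta : L → (RO ℤ)ˣ) (g : ℕ) (C : Set L), KcA phi D q f a j eta g C →
    f.coeff 0 = 1 → ∀ S0 ∈ C, ∃ (E : ℤ[X]) (p : ℝ) (S1 : L) (e0 e1 : (RO ℤ)ˣ),
      K4 phi D q f E a p j eta g C S0 S1 e0 e1

/-! ## (4.1) the A-load: `n = j` -/

/-- (O4_NA) there is a big factor at the A-load. If all factors are small: `c` is a unit times an
integer `d = n ≥ 2` (`ez`, unitarity), `2j ≤ ∑ (1 + rk T_i) ≤ 2(1/a - a) - d`.
[uses DusS TpfS TpwS(W = d) DvcS SnrS PsrS MulS; helper12 mas_le, classV_nat] -/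
def O4naS : Prop := ∀ (P L : Type) [Fintype P] [DecidableEq P] [AddCommGroup L]
  [Module.Free ℤ L] [Module.Finite ℤ L] (phi : L →+ (P → ℤ)) (D : AO ℤ L) (q f E : ℤ[X])
  (a p : ℝ) (j : ℕ) (eta : L → (RO ℤ)ˣ) (g : ℕ) (C : Set L) (S0 S1 : L) (e0 e1 : (RO ℤ)ˣ)
  (i0 : P) (h : co phi i0 S0 = 1) (c : RO ℤ) (n : ℕ) (G : Fin n → AO ℤ (Ker (co phi i0))),
    K4 phi D q f E a p j eta g C S0 S1 e0 e1 → FD phi D S0 i0 (-e0) h c n G →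
      ∃ i, 1 < M ((G i).coeff 0)

/-- (O4_A) `g = 1`: `n = j`, unit content, all factors big, of rank at least three (one factor of
rank `2j - 1`, or `j = 4`, classes `(2,2)`, ranks `(4,3)`).
`c = unit * d`: `(L + d) N' ≤ 2j + 1` (l_bound) and `2j - 1 ≤ L + 2N'`, `d N' = n`: `d = 1`.  A small
factor: ndwd (the first three alternatives are impossible: `n ≥ 2`), Fc3S: `V_0 conj f` is real on
the circle: `q = 1 - (n-h) z + z²`, `f = 1 + h z + z²`, `E = n`; `q(p) + p f(p) ≤ 0` and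
`1 < (j+1) a` give `h ≤ -3`, `n ≤ j - 2`; the masses are one: `L n ≤ n - 2h - 4 ≤ 2j - 2 - n`,
against `2j - 1 ≤ L + 2n`. [uses O4naS BgrS E1S ClpS QsgS Nd3S Ta3S EvzS EvRS UnitRS; OF/H29/Ndwd,
O1/H12/Cnt, O1/H12/Mas] -/
def O4aS : Prop := ∀ (P L : Type) [Fintype P] [DecidableEq P] [AddCommGroup L]
  [Module.Free ℤ L] [Module.Finite ℤ L] (phi : L →+ (P → ℤ)) (D : AO ℤ L) (q f E : ℤ[X])
  (a p : ℝ) (j : ℕ) (eta : L → (RO ℤ)ˣ) (C : Set L) (S0 S1 : L) (e0 e1 : (RO ℤ)ˣ)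
  (i0 : P) (h : co phi i0 S0 = 1) (c : RO ℤ) (n : ℕ) (G : Fin n → AO ℤ (Ker (co phi i0))),
    K4 phi D q f E a p j eta 1 C S0 S1 e0 e1 → FD phi D S0 i0 (-e0) h c n G →
      E.coeff 0 = j ∧ IsUnit c ∧ (∀ i, 1 < M ((G i).coeff 0)) ∧ ∀ i, 3 ≤ rk (supp (G i))

/-- (O4_AF) `g = 1`: a ray of `V_A` with a unit lowest coefficient is a ray of the only factor, in
the form for BpS. [uses O4aS FDS ClpS E1S MVS MmulS EvzS Coeff0S G0S] -/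
def O4afS : Prop := ∀ (P L : Type) [Fintype P] [DecidableEq P] [AddCommGroup L]
  [Module.Free ℤ L] [Module.Finite ℤ L] (phi : L →+ (P → ℤ)) (D : AO ℤ L) (q f E : ℤ[X])
  (a p : ℝ) (j : ℕ) (eta : L → (RO ℤ)ˣ) (C : Set L) (S0 S1 : L) (e0 e1 : (RO ℤ)ˣ)
  (i0 : P) (h : co phi i0 S0 = 1) (x : Ker (co phi i0)) (w1 : (RO ℤ)ˣ) (gg : ℤ[X]),
    K4 phi D q f E a p j eta 1 C S0 S1 e0 e1 → Ray (cl (co phi i0) S0 h (-e0) D) x →
    (w1 : RO ℤ) * (cl (co phi i0) S0 h (-e0) D).coeff x = toLaurent gg → gg.coeff 0 = 1 →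
      ∃ (Q K : Type) (_ : Fintype Q) (_ : DecidableEq Q) (_ : AddCommGroup K)
        (_ : Module.Free ℤ K) (_ : Module.Finite ℤ K) (psi : K →+ (Q → ℤ)) (G : AO ℤ K) (x' : K)
        (w w1' : (RO ℤ)ˣ), DD psi G ∧ ClassV j (G.coeff 0) ∧ Module.finrank ℤ K + 1 = 2 * j ∧
        Ray G x' ∧ (w : RO ℤ) * G.coeff 0 = toLaurent E ∧
        (w1' : RO ℤ) * G.coeff x' = toLaurent gg

/-- (O4_A2) `g ≥ 2`: `n = j`, and an element of rank `2j - 1` with the constant coefficient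
`q - f`. A small factor: ndwd, Fc4S (`kc.two`): impossible; so `NoSm` (with O4naS: no big factor is
impossible), GlcS: `g = 2`, FouS, DtiS, EvzS. [uses O4naS GlcS FouS DtiS EvzS Fc4S ClpS E1S MVS F3S
McoS; KO/H67/O2.lean] -/
def O4a2S : Prop := ∀ (P L : Type) [Fintype P] [DecidableEq P] [AddCommGroup L]
  [Module.Free ℤ L] [Module.Finite ℤ L] (phi : L →+ (P → ℤ)) (D : AO ℤ L) (q f E : ℤ[X])
  (a p : ℝ) (j : ℕ) (eta : L → (RO ℤ)ˣ) (g : ℕ) (C : Set L) (S0 S1 : L) (e0 e1 : (RO ℤ)ˣ),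
    K4 phi D q f E a p j eta g C S0 S1 e0 e1 → 2 ≤ g → E.coeff 0 = j ∧
      ∃ (P' L' : Type) (_ : Fintype P') (_ : DecidableEq P') (_ : AddCommGroup L')
        (_ : Module.Free ℤ L') (_ : Module.Finite ℤ L') (phi' : L' →+ (P' → ℤ)) (D' : AO ℤ L'),
        DD phi' D' ∧ Module.finrank ℤ L' + 1 = 2 * j ∧ D'.coeff 0 = toLaurent (q - f)

/-! ## `j = 2`: the shape of `E` -/

/-- (BP_V2) class `V(2)`, rank three: the constant coefficient is a binomial (base of B'). -/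
def Bv2S : Prop := ∀ (P L : Type) [Fintype P] [DecidableEq P] [AddCommGroup L]
  [Module.Free ℤ L] [Module.Finite ℤ L] (phi : L →+ (P → ℤ)) (G : AO ℤ L) (w : (RO ℤ)ˣ)
  (p : ℤ[X]), DD phi G → ClassV 2 (G.coeff 0) → Module.finrank ℤ L = 3 →
    (∀ K < 4, Bnk K) → (w : RO ℤ) * G.coeff 0 = toLaurent p → p.coeff 0 = 2 →
      ∃ (k : ℕ) (t : ℤ), 1 ≤ k ∧ p = Polynomial.C 2 + Polynomial.C t * X ^ k

/-- (O4_E2) [uses Bv2S O4aS O4a2S FDS ClpS] -/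
def O4e2S : Prop := ∀ (P L : Type) [Fintype P] [DecidableEq P] [AddCommGroup L]
  [Module.Free ℤ L] [Module.Finite ℤ L] (phi : L →+ (P → ℤ)) (D : AO ℤ L) (q f E : ℤ[X])
  (a p : ℝ) (j : ℕ) (eta : L → (RO ℤ)ˣ) (g : ℕ) (C : Set L) (S0 S1 : L) (e0 e1 : (RO ℤ)ˣ),
    K4 phi D q f E a p j eta g C S0 S1 e0 e1 → Sh2 j E

/-! ## The closing `V_B` -/

/-- (O4_VB) `V_B` is one factor with unit content: good (O1b), no content (a zero of the content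
is on the circle, it would be a zero of `q + z f` and of `(1 + z) f`; at `-1`: `E(-1) ≠ 0`).
[uses O1bS MugS FDS SfzS ClpS E1S MVS MmulS PCZS UnitRS M1S CziS; KE/H96/Ray.lean dd_full,
KE/H96/Fa1.lean, KO/H67/Bas.lean good_g] -/
def O4vbS : Prop := ∀ (P L : Type) [Fintype P] [DecidableEq P] [AddCommGroup L]
  [Module.Free ℤ L] [Module.Finite ℤ L] (phi : L →+ (P → ℤ)) (D : AO ℤ L) (q f E : ℤ[X])
  (a p : ℝ) (j : ℕ) (eta : L → (RO ℤ)ˣ) (g : ℕ) (C : Set L) (S0 S1 : L) (e0 e1 : (RO ℤ)ˣ)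
  (i0 : P) (h0 : co phi i0 S0 = 1) (T : Ker (co phi i0)),
    K4 phi D q f E a p j eta g C S0 S1 e0 e1 → E.coeff 0 = j → (T : L) = S1 →
      ∃ x : ℝ, KvB phi D q f E a p j eta g C S0 S1 e0 e1 i0 h0 T x

/-! ## (4.3) `V''` has full rank -/

/-- (O4_FR1) `g = 1`. [helper40: CLOS OfbS O4afS BpS; IvD.bp43] -/
def O4fr1S : Prop := ∀ (P L : Type) [Fintype P] [DecidableEq P] [AddCommGroup L]
  [Module.Free ℤ L] [Module.Finite ℤ L] (phi : L →+ (P → ℤ)) (D : AO ℤ L) (q f E : ℤ[X])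
  (a p : ℝ) (j : ℕ) (eta : L → (RO ℤ)ˣ) (C : Set L) (S0 S1 : L) (e0 e1 : (RO ℤ)ˣ)
  (i0 : P) (h0 : co phi i0 S0 = 1) (T : Ker (co phi i0)) (x : ℝ) (i1 : P)
  (h1 : co (phO phi S0 i0) i1 T = 1),
    KvB phi D q f E a p j eta 1 C S0 S1 e0 e1 i0 h0 T x → FrV phi D S0 e0 e1 i0 h0 T i1 h1

/-- (O4_FR2) `g ≥ 2`. [uses T2fS McoS; the third ray from `kc.two`, `ind_of` of KO/H67/Tri.lean] -/
def O4fr2S : Prop := ∀ (P L : Type) [Fintype P] [DecidableEq P] [AddCommGroup L]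
  [Module.Free ℤ L] [Module.Finite ℤ L] (phi : L →+ (P → ℤ)) (D : AO ℤ L) (q f E : ℤ[X])
  (a p : ℝ) (j : ℕ) (eta : L → (RO ℤ)ˣ) (g : ℕ) (C : Set L) (S0 S1 : L) (e0 e1 : (RO ℤ)ˣ)
  (i0 : P) (h0 : co phi i0 S0 = 1) (T : Ker (co phi i0)) (i1 : P)
  (h1 : co (phO phi S0 i0) i1 T = 1),
    K4 phi D q f E a p j eta g C S0 S1 e0 e1 → 2 ≤ g → (T : L) = S1 →
      FrV phi D S0 e0 e1 i0 h0 T i1 h1

/-! ## (4.4) `V''` has no small factor -/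

/-- (O4_NB) `V''` has a big factor: NbzS on `V_B` gives `1/x ≥ j + 1/2`. [uses NbzS; IvD.nbw,
IvD.nbw2] -/
def O4nbS : Prop := ∀ (P L : Type) [Fintype P] [DecidableEq P] [AddCommGroup L]
  [Module.Free ℤ L] [Module.Finite ℤ L] (phi : L →+ (P → ℤ)) (D : AO ℤ L) (q f E : ℤ[X])
  (a p : ℝ) (j : ℕ) (eta : L → (RO ℤ)ˣ) (g : ℕ) (C : Set L) (S0 S1 : L) (e0 e1 : (RO ℤ)ˣ)
  (i0 : P) (h0 : co phi i0 S0 = 1) (T : Ker (co phi i0)) (x : ℝ) (i1 : P)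
  (h1 : co (phO phi S0 i0) i1 T = 1) (c : RO ℤ) (n : ℕ)
  (G : Fin n → AO ℤ (Ker (co (phO phi S0 i0) i1))),
    KvB phi D q f E a p j eta g C S0 S1 e0 e1 i0 h0 T x → Sh2 j E →
    FD (phO phi S0 i0) (vB phi D S0 e0 i0 h0) T i1 (ld e1 1) h1 c n G →
      ∃ i, 1 < M ((G i).coeff 0)

/-- (O4_SF2) `g ≥ 2`: no small factor. The A-load of `S1` in `V_B` has a drop (its rank is at most
that of the closing `w^S1 = -e1` of `D`, `2j - g < 2j - 1`); ApaS with `eta' = -e1`: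
`- z E = (1 + 1/z) q0 U0`, against `E(-1) ≠ 0`. [uses ApaS KmuS VcoS RkUSS MdcS MpaS] -/
def O4sf2S : Prop := ∀ (P L : Type) [Fintype P] [DecidableEq P] [AddCommGroup L]
  [Module.Free ℤ L] [Module.Finite ℤ L] (phi : L →+ (P → ℤ)) (D : AO ℤ L) (q f E : ℤ[X])
  (a p : ℝ) (j : ℕ) (eta : L → (RO ℤ)ˣ) (g : ℕ) (C : Set L) (S0 S1 : L) (e0 e1 : (RO ℤ)ˣ)
  (i0 : P) (h0 : co phi i0 S0 = 1) (T : Ker (co phi i0)) (x : ℝ) (i1 : P)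
  (h1 : co (phO phi S0 i0) i1 T = 1) (c : RO ℤ) (n : ℕ)
  (G : Fin n → AO ℤ (Ker (co (phO phi S0 i0) i1))),
    KvB phi D q f E a p j eta g C S0 S1 e0 e1 i0 h0 T x → 2 ≤ g →
    FrV phi D S0 e0 e1 i0 h0 T i1 h1 →
    FD (phO phi S0 i0) (vB phi D S0 e0 i0 h0) T i1 (ld e1 1) h1 c n G →
    (∃ i, 1 < M ((G i).coeff 0)) → snp (phO phi S0 i0) T i1 G = ∅

/-- (O4_TYP) the type of a small factor. [uses QsgS Nd3S CzaS TzaS FjtS Ta3S QraS E1S E2S MmulS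
MpaS MnfS VcoS] -/
def O4typS : Prop := ∀ (P L : Type) [Fintype P] [DecidableEq P] [AddCommGroup L]
  [Module.Free ℤ L] [Module.Finite ℤ L] (phi : L →+ (P → ℤ)) (D : AO ℤ L) (q f E : ℤ[X])
  (a p : ℝ) (j : ℕ) (eta : L → (RO ℤ)ˣ) (g : ℕ) (C : Set L) (S0 S1 : L) (e0 e1 : (RO ℤ)ˣ)
  (i0 : P) (h0 : co phi i0 S0 = 1) (T : Ker (co phi i0)) (x : ℝ) (i1 : P)
  (h1 : co (phO phi S0 i0) i1 T = 1) (c : RO ℤ) (n : ℕ)
  (G : Fin n → AO ℤ (Ker (co (phO phi S0 i0) i1))) (l : Fin n)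
  (b : Ker (co (phO phi S0 i0) i1)) (jj : P) (e : (RO ℤ)ˣ),
    KvB phi D q f E a p j eta g C S0 S1 e0 e1 i0 h0 T x →
    FD (phO phi S0 i0) (vB phi D S0 e0 i0 h0) T i1 (ld e1 1) h1 c n G →
    (∃ i, 1 < M ((G i).coeff 0)) → Spt (phO phi S0 i0) T i1 G l b jj e →
      ∃ (m i k : ℕ) (p r : RO ℤ),
        Typ phi D f E S0 S1 e0 e1 ((b : Ker (co phi i0)) : L) e m i k p r

/-- (O4_RAY) the ports of `b` outside `S0`, `S1` are equal modulo `S0`, `S1`: the ports outside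
`b`, `S0`, `S1` are injective modulo `b`, `S0`, `S1`. [uses SpjS Inj2S ClpS RkS McoS] -/
def O4rayS : Prop := ∀ (P L : Type) [Fintype P] [DecidableEq P] [AddCommGroup L]
  [Module.Free ℤ L] [Module.Finite ℤ L] (phi : L →+ (P → ℤ)) (D : AO ℤ L) (q f E : ℤ[X])
  (a p : ℝ) (j : ℕ) (eta : L → (RO ℤ)ˣ) (g : ℕ) (C : Set L) (S0 S1 : L) (e0 e1 : (RO ℤ)ˣ)
  (i0 : P) (h0 : co phi i0 S0 = 1) (T : Ker (co phi i0)) (x : ℝ) (i1 : P)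
  (h1 : co (phO phi S0 i0) i1 T = 1) (c : RO ℤ) (n : ℕ)
  (G : Fin n → AO ℤ (Ker (co (phO phi S0 i0) i1))) (l : Fin n)
  (b : Ker (co (phO phi S0 i0) i1)) (jj : P) (e : (RO ℤ)ˣ),
    KvB phi D q f E a p j eta g C S0 S1 e0 e1 i0 h0 T x → FrV phi D S0 e0 e1 i0 h0 T i1 h1 →
    FD (phO phi S0 i0) (vB phi D S0 e0 i0 h0) T i1 (ld e1 1) h1 c n G →
    Spt (phO phi S0 i0) T i1 G l b jj e →
      ∀ y : L, (∀ i, phi S0 i = 0 → phi S1 i = 0 → phi ((b : Ker (co phi i0)) : L) i = 0 →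
        phi y i = 0) →
        ∃ k l m : ℤ, y = k • ((b : Ker (co phi i0)) : L) + l • S0 + m • S1

/-- (O4_T00) type `(0,0)`: impossible. With `pi = e p`, `rho = e r`, `V = V''_0`, `M = fej 1 m`:
`pi = - V - rho (1+z)²`, `M V = - z (1+z)(f + rho)`, so `M(-1) = 0`, `m` even.  FcmS for `S0`, `S1`,
`b`: `Φ = (1-t)(f P - z E) + t (f + rho)(P - (1+z)²) ≠ 0` for `|x|, |y|, |t| < 1`,
`P = (1-x)(1-y)`; `P = i` is allowed (`x = y = 1 - exp(i pi/4)`): `|α|² - |β|² ≥ 0`,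
`α = f P - z E`, `β = (f + rho)(P - (1+z)²) - α`; at `z = -1` it is `0` with the derivative
`- 2 (m/2)² E(-1)² ≠ 0` along the circle. [uses FcmS] -/
def O4t00S : Prop := ∀ (P L : Type) [Fintype P] [DecidableEq P] [AddCommGroup L]
  [Module.Free ℤ L] [Module.Finite ℤ L] (phi : L →+ (P → ℤ)) (D : AO ℤ L) (q f E : ℤ[X])
  (a p : ℝ) (j : ℕ) (eta : L → (RO ℤ)ˣ) (g : ℕ) (C : Set L) (S0 S1 : L) (e0 e1 : (RO ℤ)ˣ)
  (i0 : P) (h0 : co phi i0 S0 = 1) (T : Ker (co phi i0)) (x : ℝ) (b : L) (e : (RO ℤ)ˣ)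
  (m : ℕ) (pp r : RO ℤ),
    KvB phi D q f E a p j eta g C S0 S1 e0 e1 i0 h0 T x →
    Typ phi D f E S0 S1 e0 e1 b e m 0 0 pp r → False

/-- (O4_T10) type `(1,0)`: `M V = - z (1+z)(f + rho)`, `rho = unit * f`: at the zero `w` of `V` in
the disc `f(w) = 0`, `E(w) = 0`. -/
def O4t10S : Prop := ∀ (P L : Type) [Fintype P] [DecidableEq P] [AddCommGroup L]
  [Module.Free ℤ L] [Module.Finite ℤ L] (phi : L →+ (P → ℤ)) (D : AO ℤ L) (q f E : ℤ[X])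
  (a p : ℝ) (j : ℕ) (eta : L → (RO ℤ)ˣ) (g : ℕ) (C : Set L) (S0 S1 : L) (e0 e1 : (RO ℤ)ˣ)
  (i0 : P) (h0 : co phi i0 S0 = 1) (T : Ker (co phi i0)) (x : ℝ) (b : L) (e u : (RO ℤ)ˣ)
  (m : ℕ) (pp r : RO ℤ),
    KvB phi D q f E a p j eta g C S0 S1 e0 e1 i0 h0 T x →
    Typ phi D f E S0 S1 e0 e1 b e m 1 0 pp r → r = (u : RO ℤ) * toLaurent f → False

/-- (O4_TN) types `(i,1)`, `m ≥ 2`: `M V + z E = (1+z)(f + rho)`: `m` is odd,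
`rho = z^(1-m) f`, `E(0) = 3`; at `p`: `1 ≤ p S(p)² < p/(1-p)²`. -/
def O4tnS : Prop := ∀ (P L : Type) [Fintype P] [DecidableEq P] [AddCommGroup L]
  [Module.Free ℤ L] [Module.Finite ℤ L] (phi : L →+ (P → ℤ)) (D : AO ℤ L) (q f E : ℤ[X])
  (a p : ℝ) (j : ℕ) (eta : L → (RO ℤ)ˣ) (g : ℕ) (C : Set L) (S0 S1 : L) (e0 e1 : (RO ℤ)ˣ)
  (i0 : P) (h0 : co phi i0 S0 = 1) (T : Ker (co phi i0)) (x : ℝ) (b : L) (e u : (RO ℤ)ˣ)
  (m i : ℕ) (pp r : RO ℤ),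
    KvB phi D q f E a p j eta g C S0 S1 e0 e1 i0 h0 T x →
    Typ phi D f E S0 S1 e0 e1 b e m i 1 pp r → r = (u : RO ℤ) * toLaurent f → 2 ≤ m → False

/-- (O4_T01) type `(0,1)`, `m = 1`: `rho = z f`, `Φ(0, -z, 1) = - z (1+z)² f` against the
coefficient of `t` in `Φ(0, -z, t)`: double zero at `-1`. [uses FcmS Nd3S] -/
def O4t01S : Prop := ∀ (P L : Type) [Fintype P] [DecidableEq P] [AddCommGroup L]
  [Module.Free ℤ L] [Module.Finite ℤ L] (phi : L →+ (P → ℤ)) (D : AO ℤ L) (q f E : ℤ[X])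
  (a p : ℝ) (j : ℕ) (eta : L → (RO ℤ)ˣ) (g : ℕ) (C : Set L) (S0 S1 : L) (e0 e1 : (RO ℤ)ˣ)
  (i0 : P) (h0 : co phi i0 S0 = 1) (T : Ker (co phi i0)) (x : ℝ) (b : L) (e u : (RO ℤ)ˣ)
  (pp r : RO ℤ),
    KvB phi D q f E a p j eta g C S0 S1 e0 e1 i0 h0 T x →
    Typ phi D f E S0 S1 e0 e1 b e 1 0 1 pp r → r = (u : RO ℤ) * toLaurent f → False

/-- (O4_T11) type `(1,1)`, `m = 1` (`g = 1`): the diagonal `x = y = -z sg`, `t = sg`: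
`q + (q + 3 z f) sg + (q + 3 z (1+z) f) sg²` is zero-free, Schur-Cohn: `|psi| = |E|` on the circle for
the coefficient `psi` of the ray `b + S1` of `V_A(S0)`; contradiction to E2S for its factor.
[uses FcmS O4aS E2S ClpS FDS McoS] -/
def O4t11S : Prop := ∀ (P L : Type) [Fintype P] [DecidableEq P] [AddCommGroup L]
  [Module.Free ℤ L] [Module.Finite ℤ L] (phi : L →+ (P → ℤ)) (D : AO ℤ L) (q f E : ℤ[X])
  (a p : ℝ) (j : ℕ) (eta : L → (RO ℤ)ˣ) (C : Set L) (S0 S1 : L) (e0 e1 : (RO ℤ)ˣ)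
  (i0 : P) (h0 : co phi i0 S0 = 1) (T : Ker (co phi i0)) (x : ℝ) (b : L) (e u : (RO ℤ)ˣ)
  (pp r : RO ℤ),
    KvB phi D q f E a p j eta 1 C S0 S1 e0 e1 i0 h0 T x →
    Typ phi D f E S0 S1 e0 e1 b e 1 1 1 pp r → r = (u : RO ℤ) * toLaurent f →
    (∀ y : L, (∀ i, phi S0 i = 0 → phi S1 i = 0 → phi b i = 0 → phi y i = 0) →
      ∃ k l m : ℤ, y = k • b + l • S0 + m • S1) → False

/-- (O4_SF1) `g = 1`: no small factor. [uses O4typS O4rayS O4t00S O4t10S O4tnS O4t01S O4t11S McoS] -/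
def O4sf1S : Prop := ∀ (P L : Type) [Fintype P] [DecidableEq P] [AddCommGroup L]
  [Module.Free ℤ L] [Module.Finite ℤ L] (phi : L →+ (P → ℤ)) (D : AO ℤ L) (q f E : ℤ[X])
  (a p : ℝ) (j : ℕ) (eta : L → (RO ℤ)ˣ) (C : Set L) (S0 S1 : L) (e0 e1 : (RO ℤ)ˣ)
  (i0 : P) (h0 : co phi i0 S0 = 1) (T : Ker (co phi i0)) (x : ℝ) (i1 : P)
  (h1 : co (phO phi S0 i0) i1 T = 1) (c : RO ℤ) (n : ℕ)
  (G : Fin n → AO ℤ (Ker (co (phO phi S0 i0) i1))),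
    KvB phi D q f E a p j eta 1 C S0 S1 e0 e1 i0 h0 T x → FrV phi D S0 e0 e1 i0 h0 T i1 h1 →
    FD (phO phi S0 i0) (vB phi D S0 e0 i0 h0) T i1 (ld e1 1) h1 c n G →
    (∃ i, 1 < M ((G i).coeff 0)) → snp (phO phi S0 i0) T i1 G = ∅

/-! ## (4.5) the end -/

/-- (O4_END) `V''` is one factor of rank `2j - 1`: `Bnk (2j-1)`, `V''_0(1/j) ≤ 0`, IvD.ive, ive2.
[uses NoPure2S E1S MVS MmulS PCZS FactS(C5) ..; KO/H67/Sec.lean second] -/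
def O4endS : Prop := ∀ (P L : Type) [Fintype P] [DecidableEq P] [AddCommGroup L]
  [Module.Free ℤ L] [Module.Finite ℤ L] (phi : L →+ (P → ℤ)) (D : AO ℤ L) (q f E : ℤ[X])
  (a p : ℝ) (j : ℕ) (eta : L → (RO ℤ)ˣ) (g : ℕ) (C : Set L) (S0 S1 : L) (e0 e1 : (RO ℤ)ˣ)
  (i0 : P) (h0 : co phi i0 S0 = 1) (T : Ker (co phi i0)) (x : ℝ) (i1 : P)
  (h1 : co (phO phi S0 i0) i1 T = 1) (c : RO ℤ) (n : ℕ)
  (G : Fin n → AO ℤ (Ker (co (phO phi S0 i0) i1))),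
    KvB phi D q f E a p j eta g C S0 S1 e0 e1 i0 h0 T x → Sh2 j E →
    FrV phi D S0 e0 e1 i0 h0 T i1 h1 →
    FD (phO phi S0 i0) (vB phi D S0 e0 i0 h0) T i1 (ld e1 1) h1 c n G →
    (∃ i, 1 < M ((G i).coeff 0)) → snp (phO phi S0 i0) T i1 G = ∅ → False

/-- ASSEMBLY: `Oo4S` from O4preS O4aS O4a2S O4e2S O4vbS O4fr1S O4fr2S O4nbS O4sf1S O4sf2S O4endS
FDS NoPure2S. -/
def O4asmS : Prop := Oo4S

end Pool.Agent.B5
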