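import Pool.Agent.Lib.MP_b5021c_nt.IfaceE0
import Pool.Agent.Lib.MP_b5021c_nt.IfaceE2
import Pool.Agent.Lib.MP_b5021c_nt.IfaceE3
import Pool.Agent.Lib.MP_b5021c_nt.IfaceE4

/-!
# Board b5, stage 3, ALL `θ`, chapter SF: small factors over `ℤ` for every `θ ≥ 2` (PaperSF.md)

A load of delay at least one (`D_0 = T^m q`, `eta D_S = T^m X f`, `|f(0)| ≤ 1`; `f(0) = 0` is the
case of delay `≥ 2`) of an element of rank `≥ 4`: a small non-pure factor, or no big factor, gives the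
exact bound, or `rank ≤ 2 θ - 1`, or an element of rank `≥ rank - 2` of class `P(θ')`,
`θ' + 1 ≤ θ`.
-/

namespace Pool.Agent.B5

open scoped LaurentPolynomial Topology
open Polynomial
open Pool.Agent.B5.H71 (em)
open Pool.Agent.MP_b5021c_nt (nz)

/-- An integral polynomial as a complex polynomial. -/
noncomputable def cpz (p : ℤ[X]) : ℂ[X] := p.map (Coef.emb : ℤ →+* ℂ)

/-- Data of a load of delay at least one: the constant coefficients are `q` and `q + X f` (up to a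
common power of `z`). -/
structure LDz (q f : ℤ[X]) : Prop where
  q0 : |q.coeff 0| = 1
  nzq : nz (cpz q) = 1
  qc : ∀ z : ℂ, ‖z‖ = 1 → (cpz q).eval z ≠ 0
  le : ∀ z : ℂ, ‖z‖ = 1 → ‖(cpz f).eval z‖ ≤ ‖(cpz q).eval z‖

/-- The function `C₁ = F (z - a') (1 - a' z) / z + a' / z - a' z = a' W / s`, where
`F = (q - z f) / (q + z f)`, `q + z f = (1 - T' z) s`, `a' = 1 / T'`. -/
structure C1D (q f : ℤ[X]) (T' : ℝ) (s W : ℂ[X]) : Prop where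
  one : 1 ≤ |T'|
  v : cpz (q + X * f) = (1 - C (T' : ℂ) * X) * s
  zf : ZF s
  w : X * W = (1 - X ^ 2) * s - cpz (q - X * f) * (1 - C ((T'⁻¹ : ℝ) : ℂ) * X)
  re : ∀ z : ℂ, ‖z‖ < 1 →
    0 ≤ (((T'⁻¹ : ℝ) : ℂ) * W.eval z * (starRingEnd ℂ) (s.eval z)).re

/-- The Fejér kernel `|1 + σ z + .. + (σ z)^(m-1)|²`. -/
noncomputable def fej (sg : ℤ) (m : ℕ) : RO ℤ :=
  (∑ k ∈ Finset.range m, LaurentPolynomial.C (sg ^ k) * LaurentPolynomial.T (k : ℤ)) *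
    ∑ k ∈ Finset.range m, LaurentPolynomial.C (sg ^ k) * LaurentPolynomial.T (-(k : ℤ))

/-- `t |v|² ≤ Re ((q - z f) conj v)` on the circle, `v = q + z f`. -/
def Mass (t : RO ℤ) (q f : ℤ[X]) : Prop := ∀ z : Circle,
  (evR z t).re * ‖(cpz (q + X * f)).eval (z : ℂ)‖ ^ 2 ≤
    ((cpz (q - X * f)).eval (z : ℂ) * (starRingEnd ℂ) ((cpz (q + X * f)).eval (z : ℂ))).re

/-! ## One variable: the function `C₁` -/

/-- (SF_HPG) positive real part on the circle, bounded from below in the disc (Hp3S at every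
point). -/
def HpgS : Prop := ∀ (v W : ℂ[X]) (K : ℝ), ZF v →
  (∀ s : ℂ, ‖s‖ < 1 → -(K * ‖v.eval s‖ ^ 2) ≤ (W.eval s * (starRingEnd ℂ) (v.eval s)).re) →
  (∀ s : ℂ, ‖s‖ = 1 → 0 ≤ (W.eval s * (starRingEnd ℂ) (v.eval s)).re) →
    ∀ s : ℂ, ‖s‖ < 1 → 0 ≤ (W.eval s * (starRingEnd ℂ) (v.eval s)).re

/-- (SF_CZA) existence of `C₁`: `v = q + z f` has a real zero `1/T'`, `|T'| ≥ 1`, no other zero in
the open disc, and `Re C₁ ≥ 0` in the disc. -/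
def CzaS : Prop := ∀ q f : ℤ[X], LDz q f → ∃ (T' : ℝ) (s W : ℂ[X]), C1D q f T' s W

/-- (SF_CZM) the two inequalities for `C₁ - r`. [uses HpgS HarS] -/
def CzmS : Prop := ∀ (q f : ℤ[X]) (T T' : ℝ) (s W r : ℂ[X]), LDz q f → C1D q f T' s W →
  1 < |T| → (cpz q).eval ((T⁻¹ : ℝ) : ℂ) = 0 →
  (∀ z : ℂ, ‖z‖ = 1 → (r.eval z).re * ‖(cpz (q + X * f)).eval z‖ ^ 2 ≤
    ‖z - ((T'⁻¹ : ℝ) : ℂ)‖ ^ 2 *
      ((cpz (q - X * f)).eval z * (starRingEnd ℂ) ((cpz (q + X * f)).eval z)).re) →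
    (r.coeff 0).re ≤ 1 + T'⁻¹ ^ 2 + 2 * T'⁻¹ * (f.coeff 0 * q.coeff 0 : ℤ) ∧
    (r.eval ((T⁻¹ : ℝ) : ℂ)).re + (1 - |T⁻¹|) / (1 + |T⁻¹|) *
      (1 + T'⁻¹ ^ 2 + 2 * T'⁻¹ * (f.coeff 0 * q.coeff 0 : ℤ) - (r.coeff 0).re) ≤
        2 * T'⁻¹ * T - 1 - T'⁻¹ ^ 2

/-- (SF_CZI) integrability of `|z - a'|² Re (q/v)`, and of `Re (q/v)` if `|T'| > 1`. [uses FatS] -/
def CziS : Prop := ∀ (q f : ℤ[X]) (T' : ℝ) (s W : ℂ[X]), LDz q f → C1D q f T' s W →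
  CircleIntegrable (fun z => ‖z - ((T'⁻¹ : ℝ) : ℂ)‖ ^ 2 *
    ((cpz q).eval z / (cpz (q + X * f)).eval z).re) 0 1 ∧
  (1 < |T'| → CircleIntegrable (fun z => ((cpz q).eval z / (cpz (q + X * f)).eval z).re) 0 1)

/-! ## One variable: the masses -/

/-- (SF_TZA) the masses at a load of class `P`: `t = 1`, or `t_1 = ± (t_0 - 1)`.
[uses CzmS Nr3S PmfS] -/
def TzaS : Prop := ∀ (t : RO ℤ) (q f : ℤ[X]) (T T' : ℝ) (s W : ℂ[X]), LDz q f →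
  C1D q f T' s W → 1 < |T| → (cpz q).eval ((T⁻¹ : ℝ) : ℂ) = 0 → 1 < |T'| → |f.coeff 0| ≤ 1 →
  t ≠ 0 → NnR t → Mass t q f →
    t = 1 ∨ (|f.coeff 0| = 1 ∧ 2 ≤ t.coeff 0 ∧ 0 < T * T' ∧
      ∃ sg : ℤ, (sg = 1 ∨ sg = -1) ∧ 0 < sg * T' ∧ t.coeff 1 = sg * (t.coeff 0 - 1))

/-- (SF_FJT) then the mass is a Fejér kernel (no `w`). [uses GenS, CON of E/H82/Ov.lean] -/
def FjtS : Prop := ∀ (L : Type) [AddCommGroup L] [Module.Free ℤ L] [Module.Finite ℤ L]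
  (F : AO ℤ L) (m : ℕ) (sg : ℤ), NnT F → 2 ≤ m → (sg = 1 ∨ sg = -1) →
    (F.coeff 0).coeff 0 = m → (F.coeff 0).coeff 1 = sg * (m - 1) → F = cst (fej sg m)

/-- (SF_GAI) THE GAIN: for a Fejér kernel `T ≥ T' + 1`. [uses CzmS] -/
def GaiS : Prop := ∀ (q f : ℤ[X]) (T T' : ℝ) (s W : ℂ[X]) (m : ℕ) (sg : ℤ), LDz q f →
  C1D q f T' s W → 2 ≤ |T| → (cpz q).eval ((T⁻¹ : ℝ) : ℂ) = 0 → 1 < |T'| → |f.coeff 0| ≤ 1 →
  2 ≤ m → (sg = 1 ∨ sg = -1) → 0 < sg * T' → Mass (fej sg m) q f → |T'| + 1 ≤ |T|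

/-! ## Several variables -/

/-- (SF_QSG) THE SUM OF THE MASSES of all small non-pure factors (sum form of Qm3S and Dv3S).
[uses QC3 QU3 QV3 DV3 rows, HP3] -/
def QsgS : Prop := ∀ (O : Type) [CommRing O] [IsDomain O] [IsPrincipalIdealRing O] [Coef O]
  (P L : Type) [Fintype P] [DecidableEq P] [AddCommGroup L] [Module.Free ℤ L]
  [Module.Finite ℤ L] (phi : L →+ (P → ℤ)) (D : AO O L) (S : L) (i0 : P) (eta : (RO O)ˣ)
  (h : co phi i0 S = 1) (c : RO O) (n : ℕ) (G : Fin n → AO O (Ker (co phi i0))),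
    FD phi D S i0 eta h c n G → M c = 1 → ∀ (m : ℤ) (v : O[X]),
      D.coeff 0 + (eta : RO O) * D.coeff S = LaurentPolynomial.T m * toLaurent v →
      (∀ z0 : ℂ, ‖z0‖ = 1 → ¬ (X - C z0) ^ 2 ∣ v.map Coef.emb) →
      ∃ t : Fin n → RO O,
        (∀ l ∈ snp phi S i0 G, ∃ (b : Ker (co phi i0)) (j : P) (e : (RO O)ˣ)
          (hj : co (phK phi (co phi i0)) j b = 1)
          (q F : AO O (Ker (co (phK phi (co phi i0)) j))),
            QC phi D S i0 eta h c n G l b j e hj q ∧ q = cst (c * (G l).coeff 0) * F ∧ NnT F ∧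
            F.coeff 0 = t l ∧ t l ≠ 0 ∧ NnR (t l)) ∧
        ∀ z : Circle, (∑ l ∈ snp phi S i0 G, (evR z (t l)).re) *
            ‖evR z (D.coeff 0 + (eta : RO O) * D.coeff S)‖ ^ 2 ≤
          2 * (evR z (D.coeff 0) *
              (starRingEnd ℂ) (evR z (D.coeff 0 + (eta : RO O) * D.coeff S))).re -
            ‖evR z (D.coeff 0 + (eta : RO O) * D.coeff S)‖ ^ 2

/-- (SF_NDZ) a mass without `w` and a mutual partner: the mass is one. [uses F1S F2S VcoS McoS] -/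
def NdzS : Prop := ∀ (O : Type) [CommRing O] [IsDomain O] [IsPrincipalIdealRing O] [Coef O]
  (P L : Type) [Fintype P] [DecidableEq P] [AddCommGroup L] [Module.Free ℤ L]
  [Module.Finite ℤ L] (phi : L →+ (P → ℤ)) (D : AO O L) (S : L) (i0 : P) (eta : (RO O)ˣ)
  (h : co phi i0 S = 1) (c : RO O) (n : ℕ) (G : Fin n → AO O (Ker (co phi i0))) (l : Fin n)
  (b : Ker (co phi i0)) (j : P) (e : (RO O)ˣ) (hj : co (phK phi (co phi i0)) j b = 1)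
  (q : AO O (Ker (co (phK phi (co phi i0)) j))) (t : RO O) (S1 : L) (e1 : (RO O)ˣ),
    QC phi D S i0 eta h c n G l b j e hj q → q = cst (c * (G l).coeff 0 * t) →
    Mut D S S1 eta e1 →
      t = 1 ∨ D.coeff 0 = t * (D.coeff 0 + (eta : RO O) * D.coeff S) ∨
        D.coeff 0 = (1 + t) * (D.coeff 0 + (eta : RO O) * D.coeff S)

/-- Terminal exact bound. -/
def ExB (K : ℕ) (θ : ℝ) : Prop :=
  (K : ℝ) ≤ 2 * (θ - θ⁻¹) ∧ (Odd K → (K : ℝ) + 1 ≤ 2 * θ)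

/-- An element of class `P(θ')` with `θ' + 1 ≤ θ` and rank at least `K - 2`, less than `K`. -/
def LowG (K : ℕ) (θ : ℝ) : Prop := ∃ θ' : ℝ, θ' + 1 ≤ θ ∧
  ∃ (P' L' : Type) (_ : Fintype P') (_ : DecidableEq P') (_ : AddCommGroup L')
    (_ : Module.Free ℤ L') (_ : Module.Finite ℤ L') (phi' : L' →+ (P' → ℤ)) (D' : AO ℤ L'),
    DD phi' D' ∧ ClassP θ' (D'.coeff 0) ∧ K ≤ Module.finrank ℤ L' + 2 ∧ Module.finrank ℤ L' < K

/-- (SF_BIG) a small non-pure factor and a big factor.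
[uses QsgS CzaS TzaS FjtS GaiS NdzS Nd3S Ta3S Um3S St3S Sw3S ClpS E1S E2S TrezS] -/
def BigzS : Prop := ∀ (P L : Type) [Fintype P] [DecidableEq P] [AddCommGroup L]
  [Module.Free ℤ L] [Module.Finite ℤ L] (phi : L →+ (P → ℤ)) (D : AO ℤ L) (S : L) (i0 : P)
  (eta : (RO ℤ)ˣ) (h : co phi i0 S = 1) (c : RO ℤ) (n : ℕ)
  (G : Fin n → AO ℤ (Ker (co phi i0))) (θ θ' : ℝ) (m : ℤ) (q f : ℤ[X]),
    FP phi D → FD phi D S i0 eta h c n G → 4 ≤ Module.finrank ℤ L → 2 ≤ θ →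
    ClassP θ (D.coeff 0) → D.coeff 0 = LaurentPolynomial.T m * toLaurent q →
    (eta : RO ℤ) * D.coeff S = LaurentPolynomial.T m * toLaurent (X * f) → LDz q f →
    |f.coeff 0| ≤ 1 → M c = 1 → ClassP θ' (D.coeff 0 + (eta : RO ℤ) * D.coeff S) →
    (snp phi S i0 G).Nonempty →
    (Module.finrank ℤ L = rk (supp (cl (co phi i0) S h eta D)) + 1 ∨
      ∃ (S1 : L) (e1 : (RO ℤ)ˣ), Mut D S S1 eta e1) →
      ExB (Module.finrank ℤ L) θ ∨ LowG (Module.finrank ℤ L) θ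

/-! ## No big factor -/

/-- (SF_DIC) dichotomy for `V = T^m v` of class `P`: either `1 - h z + z²` divides `v`, or `V` divides
every reciprocal numerator without poles on the circle. -/
def DicS : Prop := ∀ (v : ℤ[X]) (m : ℤ) (T' : ℝ) (s : ℂ[X]), |v.coeff 0| = 1 → 1 < |T'| →
  cpz v = (1 - C (T' : ℂ) * X) * s → ZF s →
    (∃ h : ℤ, (h : ℝ) = T' + T'⁻¹ ∧ (1 - C h * X + X ^ 2) ∣ v) ∨
    ∀ p p' : RO ℤ, p * rsh (LaurentPolynomial.T m * toLaurent v) =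
        rsh p' * (LaurentPolynomial.T m * toLaurent v) →
      CircleIntegrable (fun z => evL z p / evL z (LaurentPolynomial.T m * toLaurent v : RO ℤ)) 0 1 →
        (LaurentPolynomial.T m * toLaurent v) ∣ p

/-- (SF_TPW) weighted masses of a terminal pair (`TpmS` with a weight `W`).
[uses Tp1S Tp2S Tp3S TpiS TprS NnwS, copy of TPM] -/
def TpwS : Prop := ∀ (L : Type) [AddCommGroup L] [Module.Free ℤ L] [Module.Finite ℤ L] (r : ℕ)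
  (lam : L →+ ℤ) (B : AO ℤ L) (c W : RO ℤ) (n : ℕ) (b : Fin n → L) (f : Fin n → (L →+ ℤ))
  (e : Fin n → (RO ℤ)ˣ), TPair r lam B c n b f e → W ≠ 0 → NnR W →
    (∀ p p' : RO ℤ, p * rsh c = rsh p' * c →
      CircleIntegrable (fun z => evL z (W * p) / evL z c) 0 1 → c ∣ W * p) →
    CircleIntegrable (fun z => (evL z (W * B.coeff 0) / evL z c).re) 0 1 →
      ∃ T : ∀ i, AO ℤ (Ker (f i)), (∀ i, T i ≠ 0) ∧ (∀ i, Npos (T i)) ∧
        (∀ z : Circle, evR z c ≠ 0 → (evR z (∑ i, (T i).coeff 0)).re + r * (evR z W).re =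
          2 * (evR z (W * B.coeff 0) / evR z c).re) ∧
        rk (supp B ∪ Set.range b) ≤ ∑ i, (1 + rk (supp (T i)))

/-- (SF_NBZ) all factors are small (any `f(0)`). [uses DusS TpfS TpwS DicS DvcS CzaS CzmS CziS
PmfS SnrS] -/
def NbzS : Prop := ∀ (P L : Type) [Fintype P] [DecidableEq P] [AddCommGroup L]
  [Module.Free ℤ L] [Module.Finite ℤ L] (phi : L →+ (P → ℤ)) (D : AO ℤ L) (S : L) (i0 : P)
  (eta : (RO ℤ)ˣ) (h : co phi i0 S = 1) (c : RO ℤ) (n : ℕ)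
  (G : Fin n → AO ℤ (Ker (co phi i0))) (θ : ℝ) (m : ℤ) (q f : ℤ[X]),
    FD phi D S i0 eta h c n G → 2 ≤ θ → ClassP θ (D.coeff 0) →
    D.coeff 0 = LaurentPolynomial.T m * toLaurent q →
    (eta : RO ℤ) * D.coeff S = LaurentPolynomial.T m * toLaurent (X * f) → LDz q f →
    (∀ i, ¬ 1 < M ((G i).coeff 0)) → (Module.finrank ℤ L : ℝ) ≤ 2 * θ - 1

/-! ## Result -/

/-- (SF_DAT) the data of a load of delay at least one. [uses E2S] -/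
def LdzS : Prop := ∀ (P L : Type) [Fintype P] [DecidableEq P] [AddCommGroup L]
  [Module.Free ℤ L] [Module.Finite ℤ L] (phi : L →+ (P → ℤ)) (D : AO ℤ L) (S : L)
  (eta : (RO ℤ)ˣ) (θ : ℝ) (m : ℤ) (q f : ℤ[X]), DD phi D → 2 ≤ Module.finrank ℤ L → Ray D S →
    ClassP θ (D.coeff 0) → D.coeff 0 = LaurentPolynomial.T m * toLaurent q →
    |q.coeff 0| = 1 →
    (eta : RO ℤ) * D.coeff S = LaurentPolynomial.T m * toLaurent (X * f) →
      LDz q f ∧ ∃ T : ℝ, |T| = θ ∧ (cpz q).eval ((T⁻¹ : ℝ) : ℂ) = 0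

/-- (SFZ) RESULT of the chapter. [uses BigzS NbzS LdzS CzaS E1S MVS MmulS] -/
def SfzS : Prop := ∀ (P L : Type) [Fintype P] [DecidableEq P] [AddCommGroup L]
  [Module.Free ℤ L] [Module.Finite ℤ L] (phi : L →+ (P → ℤ)) (D : AO ℤ L) (S : L) (i0 : P)
  (eta : (RO ℤ)ˣ) (h : co phi i0 S = 1) (c : RO ℤ) (n : ℕ)
  (G : Fin n → AO ℤ (Ker (co phi i0))) (θ : ℝ) (m : ℤ) (q f : ℤ[X]),
    FP phi D → FD phi D S i0 eta h c n G → 4 ≤ Module.finrank ℤ L → 2 ≤ θ →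
    ClassP θ (D.coeff 0) → D.coeff 0 = LaurentPolynomial.T m * toLaurent q →
    |q.coeff 0| = 1 →
    (eta : RO ℤ) * D.coeff S = LaurentPolynomial.T m * toLaurent (X * f) →
    |f.coeff 0| ≤ 1 → ((snp phi S i0 G).Nonempty ∨ big G = ∅) →
    (Module.finrank ℤ L = rk (supp (cl (co phi i0) S h eta D)) + 1 ∨
      ∃ (S1 : L) (e1 : (RO ℤ)ˣ), Mut D S S1 eta e1) →
      ExB (Module.finrank ℤ L) θ ∨ (Module.finrank ℤ L : ℝ) ≤ 2 * θ - 1 ∨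
        LowG (Module.finrank ℤ L) θ

end Pool.Agent.B5
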