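import Pool.Agent.Lib.MP_b5021c_nt.IfaceE7
import Pool.Agent.Lib.MP_b5021c_nt.IfaceKE

/-!
# Board b5, ALL THETA: the exact bound for every rank (PaperALL.md)

`Bnk K` (IfaceKE): the theorem for the rank `K`.  `tauK`: the exact value, `tauK (2 j) = (j + √(j² + 4))/2`,
`tauK (2 j - 1) = j`.
-/

namespace Pool.Agent.B5

open Pool.Agent.MP_b5021c_nt Polynomial

/-- The exact value for the rank `K`. -/
noncomputable def tauK (K : ℕ) : ℝ :=
  if Even K then ((K : ℝ) + Real.sqrt ((K : ℝ) ^ 2 + 16)) / 4 else ((K : ℝ) + 1) / 2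

/-- (ALL_B1) rank 1: trivial. -/
def Bn1S : Prop := Bnk 1

/-- (ALL_B2) rank 2 (Siegel's value). -/
def Bn2S : Prop := Bnk 2

/-- (ALL_B3) rank 3. -/
def Bn3S : Prop := Bnk 2 → Bnk 3

/-- (ALL_KEV) the induction step for even rank. -/
def KeStS : Prop := ∀ j : ℕ, 2 ≤ j → (∀ K : ℕ, K < 2 * j → Bnk K) → Bnk (2 * j)

/-- (ALL_KOD) the induction step for odd rank. -/
def KoStS : Prop := ∀ j : ℕ, 2 ≤ j → (∀ K : ℕ, K < 2 * j + 1 → Bnk K) → Bnk (2 * j + 1)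

/-- (ALL_IND) the theorem for all ranks. -/
def BallS : Prop := ∀ K : ℕ, Bnk K

/-- (ALL_TAU) `Bnk K` in terms of `tauK`. -/
def TauS : Prop := ∀ (K : ℕ) (θ : ℝ) (P L : Type) [Fintype P] [DecidableEq P] [AddCommGroup L]
  [Module.Free ℤ L] [Module.Finite ℤ L] (phi : L →+ (P → ℤ)) (D : AO ℤ L), Bnk K → DD phi D →
    ClassP θ (D.coeff 0) → Module.finrank ℤ L = K → tauK K ≤ θ

/-- (ALL_MK) THE EXACT VALUES OF ALL `m_k`: the least element of the `k`-th derived set of the set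
of the Pisot numbers is `(k + 1 + √((k + 1)² + 16))/4` for odd `k` and `k/2 + 1` for even `k`. -/
def MallS : Prop := (∀ K : ℕ, 2 ≤ K → Bnk K) → ∀ k : ℕ, 1 ≤ k → IsLeast (PSk k) (tauK (k + 1))

end Pool.Agent.B5
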