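import Pool.Agent.Lib.MP_b5021c_nt.IfaceUF
import Pool.Agent.Lib.MP_b5021c_nt.IfaceALL
import Pool.Agent.Lib.MP_b5021c_nt.KE.H96.Core

/-!
# Board b5, stage 3, ALL `θ`, K EVEN without levels (finding 3598; PaperKV.md)

Everything over `ℤ`.  `D` is a counterexample of rank `2 j`; for every ray `S` the load B is
`bl e S = ld (e S) 1`, the load A is `bl e S * tA = -(e S)`, the load C is `bl e S * tC = ld (e S) 2`
(`tA = -1/z`, `tC = z`).  `(S, S1)` is a mutual pair at the loads B.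
-/

namespace Pool.Agent.B5

open scoped LaurentPolynomial
open Polynomial
open Pool.Agent.B5.H40 (uT)
open Pool.Agent.B5.Nr.Sch (Loc)
open Pool.Agent.B5.KE (Cex MutPkg)

/-- `-1/z`. -/
noncomputable def tA : (RO ℤ)ˣ := uT (-1 : ℤˣ) (-1)

/-- `z`. -/
noncomputable def tC : (RO ℤ)ˣ := uT (1 : ℤˣ) 1

/-- The loads B. -/
noncomputable def bl {L : Type} (e : L → (RO ℤ)ˣ) (S : L) : (RO ℤ)ˣ := ld (e S) 1

section

variable {P : Type} [Fintype P] [DecidableEq P] {L : Type} [AddCommGroup L] [Module.Free ℤ L]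
  [Module.Finite ℤ L]

/-- A counterexample with minimal support, all rays normalised, all mutual pairs treated
(`KE/H96/Core.lean`): every ray has a drop at its load B. -/
structure Kd (phi : L →+ (P → ℤ)) (D : AO ℤ L) (q : ℤ[X]) (a : ℝ) (j : ℕ) (F : L → ℤ[X])
    (e : L → (RO ℤ)ˣ) : Prop where
  cex : Cex phi D q a j
  min : MinD a⁻¹ phi D
  rn : ∀ S, Ray D S → RN D S q (F S) (e S) a
  bad : ∀ S, Ray D S → ∃ T, Ray D T ∧ T ∉ US (bl e S) S D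
  pkg : ∀ S S1, Mut D S S1 (bl e S) (bl e S1) → MutPkg phi D q (F S) a j S S1 (e S) (bl e S1)

/-- A mutual pair of rays with the largest `U`, with the functionals of the neighbours. -/
structure Kpr (D : AO ℤ L) (eta : L → (RO ℤ)ˣ) (S S1 : L) : Prop where
  mt : Mut D S S1 (eta S) (eta S1)
  m0 : ∀ T, Ray D T → T ∉ US (eta S) S D → Mut D S T (eta S) (eta T)
  m1 : ∀ T, Ray D T → T ∉ US (eta S1) S1 D → Mut D S1 T (eta S1) (eta T)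
  n0 : ∃ nu : L →+ ℤ, (∀ a ∈ US (eta S) S D, nu a = 0) ∧ nu S1 = -1 ∧
    ∀ T, Ray D T → T ≠ S1 → 0 ≤ nu T
  n1 : ∃ nu : L →+ ℤ, (∀ a ∈ US (eta S1) S1 D, nu a = 0) ∧ nu S = -1 ∧
    ∀ T, Ray D T → T ≠ S → 0 ≤ nu T

/-- The class sum of `b` modulo `S`, `R` at the loads `u0`, `u1`. -/
noncomputable def csm {L : Type} [AddCommGroup L] (D : AO ℤ L) (S R : L) (u0 u1 : (RO ℤ)ˣ) (b : L) :
    RO ℤ :=
  D.coeff b + (u0 : RO ℤ) * D.coeff (b + S) + (u1 : RO ℤ) * D.coeff (b + R) +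
    (u0 : RO ℤ) * (u1 : RO ℤ) * D.coeff (b + S + R)

/-- A ray `T` in `U_S` and `U_(S1)` whose class is killed by `w^S = eta S * tA`,
`w^(S1) = eta S1 * tC`: type (0,0), `r` is its `r`. -/
structure T00 (phi : L →+ (P → ℤ)) (D : AO ℤ L) (eta : L → (RO ℤ)ˣ) (S S1 T : L) (r : RO ℤ) :
    Prop where
  ray : Ray D T
  out : Out phi S S1 T
  us0 : T ∈ US (eta S) S D
  us1 : T ∈ US (eta S1) S1 D
  r0 : r ≠ 0
  c00 : D.coeff T = (1 + LaurentPolynomial.T 1 - LaurentPolynomial.T (-1)) * r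
  c10 : (eta S : RO ℤ) * D.coeff (T + S) = -r
  c01 : (eta S1 : RO ℤ) * D.coeff (T + S1) = -r
  c11 : (eta S : RO ℤ) * (eta S1 : RO ℤ) * D.coeff (T + S + S1) = r

/-- The closing A as an element `G` of class `V(j)`, rank `2 j - 1`, with the ray `T = S1` at the
load `eta` (load C): the closing is drop free. -/
structure Kg (phi : L →+ (P → ℤ)) (G : AO ℤ L) (T : L) (eta u : (RO ℤ)ˣ) (q f E : ℤ[X]) (a : ℝ)
    (j : ℕ) : Prop where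
  dd : DD phi G
  ray : Ray G T
  im : ImS phi T
  fr : Module.finrank ℤ L + 1 = 2 * j
  j2 : 2 ≤ j
  loc : Loc q f a
  f0 : f.coeff 0 = 1
  lt : a⁻¹ - a < j
  aj : a < 1 / j
  eE : f - q = X * E
  E0 : E.coeff 0 = j
  Ez : ∀ z : ℂ, ‖z‖ ≤ 1 → aeval z E ≠ 0
  cusp : ∀ z : ℂ, ‖z‖ = 1 → aeval z (q + X * f) ≠ 0
  g0 : (u : RO ℤ) * G.coeff 0 = toLaurent E
  gT : (u : RO ℤ) * ((eta : RO ℤ) * G.coeff T) = -toLaurent ((1 + X) * f)
  dr : ∀ (i1 : P) (h1 : co phi i1 T = 1),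
    Module.finrank ℤ L = rk (supp (cl (co phi i1) T h1 eta G)) + 1
  ih : ∀ K < 2 * j, Bnk K

/-- The closing A as an element `G` of class `V(j)`, rank `2 j - 1`, with the ray `R` (of type (0,0)
with a mutual partner) at the load `er` (`y_R = -1/z`): drop free; `y_R = 1` has a drop. -/
structure Kh (phi : L →+ (P → ℤ)) (G : AO ℤ L) (R : L) (er u : (RO ℤ)ˣ) (f E rho : ℤ[X])
    (j : ℕ) : Prop where
  dd : DD phi G
  ray : Ray G R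
  im : ImS phi R
  fr : Module.finrank ℤ L + 1 = 2 * j
  j2 : 2 ≤ j
  f0 : f.coeff 0 = 1
  E0 : E.coeff 0 = j
  Ez : ∀ z : ℂ, ‖z‖ ≤ 1 → aeval z E ≠ 0
  rho0 : rho.coeff 0 = 1
  rho1 : rho.coeff 1 = f.coeff 1 + 1
  g0 : (u : RO ℤ) * G.coeff 0 = toLaurent E
  gR : (u : RO ℤ) * ((er : RO ℤ) * G.coeff R) = -toLaurent ((1 + X) * rho)
  dr : ∀ (i1 : P) (h1 : co phi i1 R = 1),
    Module.finrank ℤ L = rk (supp (cl (co phi i1) R h1 er G)) + 1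
  bad : ∀ (i1 : P) (h1 : co phi i1 R = 1),
    Module.finrank ℤ L ≠ rk (supp (cl (co phi i1) R h1 (er * tA⁻¹) G)) + 1
  x : ∀ (i1 : P) (h1 : co phi i1 R = 1), ∃ (x : Ker (co phi i1)) (w : (RO ℤ)ˣ),
    (w : RO ℤ) * (cl (co phi i1) R h1 er G).coeff x = toLaurent ((1 + X) * (rho - f))

end

/-! ## The component -/

/-- (KV_STR) the component of a ray with the largest `U`: a cycle or four rays.
[uses MxuS GlcS CycS FouS SfzS ClpS FDS; u = 1 from `pkg`; `KE/H96/Ray.lean` sf_kill, all_big] -/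
def KvsS : Prop := ∀ (P L : Type) [Fintype P] [DecidableEq P] [AddCommGroup L]
  [Module.Free ℤ L] [Module.Finite ℤ L] (phi : L →+ (P → ℤ)) (D : AO ℤ L) (q : ℤ[X]) (a : ℝ)
  (j : ℕ) (F : L → ℤ[X]) (e : L → (RO ℤ)ˣ), Kd phi D q a j F e →
    (∃ (k : ℕ) (C : ZMod (k + 3) → L) (mu : ZMod (k + 3) → L →+ ℤ), Cyc phi D (bl e) k C mu) ∨
    ∃ (C : Fin 4 → L) (dl : Fin 4 → Fin 4 → L →+ ℤ), Fou phi D (bl e) C dl

/-- (KV_PR) neighbours of a cycle and pairs of four rays are `Kpr`. -/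
def KvrS : Prop := ∀ (P L : Type) [Fintype P] [DecidableEq P] [AddCommGroup L]
  [Module.Free ℤ L] [Module.Finite ℤ L] (phi : L →+ (P → ℤ)) (D : AO ℤ L) (eta : L → (RO ℤ)ˣ),
  (∀ (k : ℕ) (C : ZMod (k + 3) → L) (mu : ZMod (k + 3) → L →+ ℤ), Cyc phi D eta k C mu →
    ∀ i, Kpr D eta (C i) (C (i + 1)) ∧ Kpr D eta (C (i + 1)) (C i)) ∧
  (∀ (C : Fin 4 → L) (dl : Fin 4 → Fin 4 → L →+ ℤ), Fou phi D eta C dl →
    ∀ i l, i ≠ l → Kpr D eta (C i) (C l))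

/-! ## Classes killed by the double closing `(-1/z, z)` -/

/-- (KV_PAT) a ray whose class is killed: `R` is disjoint from `S`, `S1`, and the four types.
[uses MnfS; PaperKV 3] -/
def KvpS : Prop := ∀ (P L : Type) [Fintype P] [DecidableEq P] [AddCommGroup L]
  [Module.Free ℤ L] [Module.Finite ℤ L] (phi : L →+ (P → ℤ)) (D : AO ℤ L) (eta : L → (RO ℤ)ˣ)
  (S S1 R x : L) (p l : ℕ), DD phi D → Mut D S S1 (eta S) (eta S1) → Ray D R →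
    R ≠ S → R ≠ S1 → Out phi S S1 x → R = x + p • S + l • S1 → p ≤ 1 → l ≤ 1 →
    csm D S S1 (eta S * tA) (eta S1 * tC) x = 0 →
      x = R ∧
      ((∃ r, T00 phi D eta S S1 R r) ∨
      (R ∈ US (eta S) S D ∧ R ∉ US (eta S1) S1 D ∧
        (eta S : RO ℤ) * D.coeff (R + S) = -(LaurentPolynomial.T 2 * D.coeff R)) ∨
      (R ∉ US (eta S) S D ∧ R ∈ US (eta S1) S1 D ∧
        (eta S1 : RO ℤ) * D.coeff (R + S1) = -(LaurentPolynomial.T (-2) * D.coeff R)) ∨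
      (R ∉ US (eta S) S D ∧ R ∉ US (eta S1) S1 D ∧
        (eta S : RO ℤ) * (eta S1 : RO ℤ) * D.coeff (R + S + S1) =
          (1 - LaurentPolynomial.T 1 + LaurentPolynomial.T (-1)) * D.coeff R))

/-- (KV_PNU) the same for a ray on which a killing functional does not vanish.
[uses KvpS MpaS] -/
def KvnuS : Prop := ∀ (P L : Type) [Fintype P] [DecidableEq P] [AddCommGroup L]
  [Module.Free ℤ L] [Module.Finite ℤ L] (phi : L →+ (P → ℤ)) (D : AO ℤ L) (eta : L → (RO ℤ)ˣ)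
  (S S1 R : L) (nu : L →+ ℤ), DD phi D → Mut D S S1 (eta S) (eta S1) →
    Kil phi D S S1 (eta S * tA) (eta S1 * tC) nu → Ray D R → nu R ≠ 0 →
      Out phi S S1 R ∧
      ((∃ r, T00 phi D eta S S1 R r) ∨
      (R ∈ US (eta S) S D ∧ R ∉ US (eta S1) S1 D ∧
        (eta S : RO ℤ) * D.coeff (R + S) = -(LaurentPolynomial.T 2 * D.coeff R)) ∨
      (R ∉ US (eta S) S D ∧ R ∈ US (eta S1) S1 D ∧
        (eta S1 : RO ℤ) * D.coeff (R + S1) = -(LaurentPolynomial.T (-2) * D.coeff R)) ∨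
      (R ∉ US (eta S) S D ∧ R ∉ US (eta S1) S1 D ∧
        (eta S : RO ℤ) * (eta S1 : RO ℤ) * D.coeff (R + S + S1) =
          (1 - LaurentPolynomial.T 1 + LaurentPolynomial.T (-1)) * D.coeff R))

/-- (KV_P4) a ray of type (0,0): `S`, `S1` are in `U_T`; a ray outside `U_T` is in `U_S` and
`U_(S1)`, or mutual with `T`. [uses F1S F2S McoS MnfS; PaperKV 4] -/
def Kv4S : Prop := ∀ (P L : Type) [Fintype P] [DecidableEq P] [AddCommGroup L]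
  [Module.Free ℤ L] [Module.Finite ℤ L] (phi : L →+ (P → ℤ)) (D : AO ℤ L) (q : ℤ[X]) (a : ℝ)
  (j : ℕ) (F : L → ℤ[X]) (e : L → (RO ℤ)ˣ) (S S1 T : L) (r : RO ℤ), Kd phi D q a j F e →
    Kpr D (bl e) S S1 → T00 phi D (bl e) S S1 T r →
      S ∈ US (bl e T) T D ∧ S1 ∈ US (bl e T) T D ∧
      ∀ T', Ray D T' → T' ∉ US (bl e T) T D →
        (T' ∈ US (bl e S) S D ∧ T' ∈ US (bl e S1) S1 D) ∨ Mut D T T' (bl e T) (bl e T')

/-- (KV_PAR) if a killing functional does not vanish on some ray of type (0,0) then some ray of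
type (0,0) has a mutual partner. [uses Kv4S KvpS KvnuS F1S F2S F3S MpaS; PaperKV 5] -/
def Kv5S : Prop := ∀ (P L : Type) [Fintype P] [DecidableEq P] [AddCommGroup L]
  [Module.Free ℤ L] [Module.Finite ℤ L] (phi : L →+ (P → ℤ)) (D : AO ℤ L) (q : ℤ[X]) (a : ℝ)
  (j : ℕ) (F : L → ℤ[X]) (e : L → (RO ℤ)ˣ) (S S1 T : L) (nu : L →+ ℤ), Kd phi D q a j F e →
    Kpr D (bl e) S S1 → Kil phi D S S1 (bl e S * tA) (bl e S1 * tC) nu →
    Ray D T → T ∈ US (bl e S) S D → T ∈ US (bl e S1) S1 D → nu T ≠ 0 →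
      ∃ (R R1 : L) (r : RO ℤ), T00 phi D (bl e) S S1 R r ∧ Mut D R R1 (bl e R) (bl e R1)

/-! ## A ray of type (0,0) with a mutual partner is impossible -/

/-- (KV_FSR) `{S, R}` is a face. [uses RaySpanS E2S; PaperKV 6.1] -/
def KvfS : Prop := ∀ (P L : Type) [Fintype P] [DecidableEq P] [AddCommGroup L]
  [Module.Free ℤ L] [Module.Finite ℤ L] (phi : L →+ (P → ℤ)) (D : AO ℤ L) (eta : L → (RO ℤ)ˣ)
  (S S1 R : L), DD phi D → 2 ≤ Module.finrank ℤ L → Kpr D eta S S1 → Ray D R → R ≠ S →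
    Out phi S S1 R → R ∈ US (eta S1) S1 D →
      ∃ lam : L →+ ℤ, lam S = 0 ∧ lam R = 0 ∧
        ∀ x ∈ supp D, x ≠ 0 → x ≠ S → x ≠ R → x ≠ S + R → 0 < lam x

/-- (KV_VSR) `V# = D(w^S = eta S tA, w^R = eta R tA)` is drop free. [uses MnfS MpaS VcoS F1S LMNS;
PaperKV 6.2] -/
def KvvS : Prop := ∀ (P L : Type) [Fintype P] [DecidableEq P] [AddCommGroup L]
  [Module.Free ℤ L] [Module.Finite ℤ L] (phi : L →+ (P → ℤ)) (D : AO ℤ L) (eta : L → (RO ℤ)ˣ)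
  (S S1 R R1 : L) (r : RO ℤ) (i0 i2 : P) (nu : L →+ ℤ), DD phi D → 2 ≤ Module.finrank ℤ L →
    Mut D S S1 (eta S) (eta S1) → T00 phi D eta S S1 R r → Mut D R R1 (eta R) (eta R1) →
    (eta S : RO ℤ) * D.coeff S ≠ (tA : RO ℤ) * ((eta R : RO ℤ) * r) →
    phi S i0 = 1 → phi R i2 = 1 → nu S = 0 → nu R = 0 →
    (∀ b : L, phi b i0 = 0 → phi b i2 = 0 → csm D S R (eta S * tA) (eta R * tA) b ≠ 0 →
      nu b = 0) → nu = 0

/-- (KV_KH) the closing A with the ray `R`. [uses KvfS KvvS FspS RkUSS RnkS; PaperKV 6.3] -/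
def KvhS : Prop := ∀ (P L : Type) [Fintype P] [DecidableEq P] [AddCommGroup L]
  [Module.Free ℤ L] [Module.Finite ℤ L] (phi : L →+ (P → ℤ)) (D : AO ℤ L) (q : ℤ[X]) (a : ℝ)
  (j : ℕ) (F : L → ℤ[X]) (e : L → (RO ℤ)ˣ) (S S1 R R1 : L) (r : RO ℤ), Kd phi D q a j F e →
    Kpr D (bl e) S S1 → T00 phi D (bl e) S S1 R r → Mut D R R1 (bl e R) (bl e R1) →
      ∃ (Q K : Type) (_ : Fintype Q) (_ : DecidableEq Q) (_ : AddCommGroup K)
        (_ : Module.Free ℤ K) (_ : Module.Finite ℤ K) (psi : K →+ (Q → ℤ)) (G : AO ℤ K) (R' : K)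
        (er u : (RO ℤ)ˣ) (E rho : ℤ[X]), Kh psi G R' er u (F S) E rho j

/-- (KV_TSG) (T-s) in general: a small non-pure factor at the load `eta`, a drop at `eta'`.
[`E/H19/Tsf.lean` star, `E/H19/Tss.lean` tsb; uses SmallS QstS QraS Dv3S Qc3S] -/
def TsgS : Prop := ∀ (P L : Type) [Fintype P] [DecidableEq P] [AddCommGroup L]
  [Module.Free ℤ L] [Module.Finite ℤ L] (phi : L →+ (P → ℤ)) (D : AO ℤ L) (S : L) (i0 : P)
  (eta eta' : (RO ℤ)ˣ) (h : co phi i0 S = 1) (c : RO ℤ) (n : ℕ)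
  (G : Fin n → AO ℤ (Ker (co phi i0))) (m : ℤ) (v : ℤ[X]),
    FD phi D S i0 eta h c n G → M c = 1 → (snp phi S i0 G).Nonempty →
    Module.finrank ℤ L = rk (supp (cl (co phi i0) S h eta D)) + 1 → eta' ≠ eta →
    Module.finrank ℤ L ≠ rk (supp (cl (co phi i0) S h eta' D)) + 1 →
    D.coeff 0 + (eta : RO ℤ) * D.coeff S = LaurentPolynomial.T m * toLaurent v →
    (∀ z0 : ℂ, ‖z0‖ = 1 → ¬ (X - C z0) ^ 2 ∣ v.map (Coef.emb : ℤ →+* ℂ)) →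
      ∃ t : RO ℤ, t ≠ 0 ∧ NnR t ∧ D.coeff 0 + (eta' : RO ℤ) * D.coeff S =
        (1 - (eta' : RO ℤ) * ((eta⁻¹ : (RO ℤ)ˣ) : RO ℤ)) *
          (t * (D.coeff 0 + (eta : RO ℤ) * D.coeff S))

/-- (KV_EXT) an extremal closing of class `V(N)` without small factors: content of measure one,
the product of the factors is z-free. [uses EvzS FclS MmulS E1S MVS; O1_CNT (helper12)] -/
def KvxS : Prop := ∀ (P L : Type) [Fintype P] [DecidableEq P] [AddCommGroup L]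
  [Module.Free ℤ L] [Module.Finite ℤ L] (phi : L →+ (P → ℤ)) (D : AO ℤ L) (S : L) (i0 : P)
  (eta : (RO ℤ)ˣ) (h : co phi i0 S = 1) (c : RO ℤ) (n : ℕ)
  (G : Fin n → AO ℤ (Ker (co phi i0))) (N : ℕ),
    FD phi D S i0 eta h c n G → ImS phi S → 1 ≤ N →
    ClassV N (D.coeff 0 + (eta : RO ℤ) * D.coeff S) →
    rk (supp (cl (co phi i0) S h eta D)) = 2 * N → (∀ i, 1 < M ((G i).coeff 0)) →
      2 ≤ N ∧ ClassV 1 c ∧ ZFree (∏ i, G i)

/-- (KV_VSE) a ray of type (0,0) with a mutual partner is impossible. [uses TsgS KvxS FDS SmallS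
Nd3vS; PaperKV 6.4] -/
def KveS : Prop := ∀ (P L : Type) [Fintype P] [DecidableEq P] [AddCommGroup L]
  [Module.Free ℤ L] [Module.Finite ℤ L] (phi : L →+ (P → ℤ)) (G : AO ℤ L) (R : L)
  (er u : (RO ℤ)ˣ) (f E rho : ℤ[X]) (j : ℕ), ¬ Kh phi G R er u f E rho j

/-! ## The double closing `(-1/z, z)` is drop free -/

/-- (KV_SGN) a killing functional takes both signs on the rays. [uses TopS RaySpanS E2S;
PaperKV 7.1] -/
def KvgS : Prop := ∀ (P L : Type) [Fintype P] [DecidableEq P] [AddCommGroup L]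
  [Module.Free ℤ L] [Module.Finite ℤ L] (phi : L →+ (P → ℤ)) (D : AO ℤ L) (S S1 : L)
  (u0 u1 : (RO ℤ)ˣ) (nu : L →+ ℤ), FP phi D → 2 ≤ Module.finrank ℤ L →
    Bin phi S → Bin phi S1 → S ≠ 0 → S1 ≠ 0 → (∀ i, phi S i = 0 ∨ phi S1 i = 0) →
    csm D S S1 u0 u1 0 ≠ 0 → Kil phi D S S1 u0 u1 nu → nu ≠ 0 →
      (∃ R, Ray D R ∧ 0 < nu R) ∧ ∃ R, Ray D R ∧ nu R < 0

/-- (KV_VDF) a maximal mutual pair with drop free `V''`. [uses KvsS KvrS KvnuS Kv5S KvhS KveS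
KvgS CnfS FnfS; PaperKV 7.2] -/
def KvdS : Prop := ∀ (P L : Type) [Fintype P] [DecidableEq P] [AddCommGroup L]
  [Module.Free ℤ L] [Module.Finite ℤ L] (phi : L →+ (P → ℤ)) (D : AO ℤ L) (q : ℤ[X]) (a : ℝ)
  (j : ℕ) (F : L → ℤ[X]) (e : L → (RO ℤ)ˣ), Kd phi D q a j F e →
    ∃ S S1 : L, Mut D S S1 (bl e S) (bl e S1) ∧
      ∀ nu : L →+ ℤ, Kil phi D S S1 (bl e S * tA) (bl e S1 * tC) nu → nu = 0

/-- (KV_KG) the closing A with the ray `S1`; its constant coefficient has no zero on the circle.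
[uses MfcS RnkS M1S MutPkg; PaperKV 8] -/
def KvkS : Prop := ∀ (P L : Type) [Fintype P] [DecidableEq P] [AddCommGroup L]
  [Module.Free ℤ L] [Module.Finite ℤ L] (phi : L →+ (P → ℤ)) (D : AO ℤ L) (q : ℤ[X]) (a : ℝ)
  (j : ℕ) (F : L → ℤ[X]) (e : L → (RO ℤ)ˣ) (S S1 : L), Kd phi D q a j F e →
    Mut D S S1 (bl e S) (bl e S1) →
    (∀ nu : L →+ ℤ, Kil phi D S S1 (bl e S * tA) (bl e S1 * tC) nu → nu = 0) →
      ∃ (Q K : Type) (_ : Fintype Q) (_ : DecidableEq Q) (_ : AddCommGroup K)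
        (_ : Module.Free ℤ K) (_ : Module.Finite ℤ K) (psi : K →+ (Q → ℤ)) (G : AO ℤ K) (T : K)
        (eta u : (RO ℤ)ˣ) (E : ℤ[X]), Kg psi G T eta u q (F S) E a j

/-! ## The end -/

/-- (KV_NS) no small factor, `j ≥ 3`. [uses E3vgS TrvoS t03n QSGK EvzS; PaperKV 9] -/
def KvnS : Prop := ∀ (P L : Type) [Fintype P] [DecidableEq P] [AddCommGroup L]
  [Module.Free ℤ L] [Module.Finite ℤ L] (phi : L →+ (P → ℤ)) (G : AO ℤ L) (T : L)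
  (eta u : (RO ℤ)ˣ) (q f E : ℤ[X]) (a : ℝ) (j : ℕ) (i1 : P) (h1 : co phi i1 T = 1) (c : RO ℤ)
  (n : ℕ) (H : Fin n → AO ℤ (Ker (co phi i1))), Kg phi G T eta u q f E a j → 3 ≤ j →
    FD phi G T i1 eta h1 c n H → ∀ i, 1 < M ((H i).coeff 0)

/-- (KV_J2) `j = 2`. [uses FDS DusS TpfS TpmS PaiS PmfS; PaperKV 9.4] -/
def KvjS : Prop := ∀ (P L : Type) [Fintype P] [DecidableEq P] [AddCommGroup L]
  [Module.Free ℤ L] [Module.Finite ℤ L] (phi : L →+ (P → ℤ)) (G : AO ℤ L) (T : L)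
  (eta u : (RO ℤ)ˣ) (q f E : ℤ[X]) (a : ℝ), ¬ Kg phi G T eta u q f E a 2

/-- (KV_UFX) LEMMA UF with the value at `x`. [uses UavS UfwS UffS UfcS] -/
def UfxS : Prop := ∀ (P L : Type) [Fintype P] [DecidableEq P] [AddCommGroup L]
  [Module.Free ℤ L] [Module.Finite ℤ L] (phi : L →+ (P → ℤ)) (E : AO ℤ L) (S : L) (i0 : P)
  (h : co phi i0 S = 1) (eta : (RO ℤ)ˣ) (c : RO ℤ) (n0 : ℕ)
  (G : Fin n0 → AO ℤ (Ker (co phi i0))) (N : ℕ) (p0 p1 : ℤ[X]) (u0 : (RO ℤ)ˣ),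
    DD phi E → Ray E S → Zfd phi E S i0 h eta c n0 G → 3 ≤ N → ClassV N (E.coeff 0) →
    Module.finrank ℤ L + 1 = 2 * N → Bnk (2 * N - 2) →
    (u0 : RO ℤ) * E.coeff 0 = toLaurent p0 →
    (u0 : RO ℤ) * ((eta : RO ℤ) * E.coeff S) = -toLaurent p1 → p0.coeff 0 = N →
    p1.coeff 0 = 1 →
      (∃ F : ℤ[X], p0 = C (N : ℤ) + F ∧ p1 = 1 + F ∧ F.coeff 0 = 0 ∧ (∀ k, |F.coeff k| ≤ 1) ∧
        ∀ x : ℝ, 0 < x → x⁻¹ - x = N - 1 → (aeval x F : ℝ) ≤ x) ∨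
      ∃ (k : ℕ) (ep : ℤ), 1 ≤ k ∧ (ep = 1 ∨ ep = -1) ∧ p0 = C (N : ℤ) - C ep * X ^ k ∧
        p1 = 1 + C ((N - 2) * ep) * X ^ k

/-- (KV_E5) one variable. [PaperKV 10] -/
def KvyS : Prop := ∀ (q f E : ℤ[X]) (a : ℝ) (j : ℕ), Loc q f a → 3 ≤ j → a < 1 / j →
  a⁻¹ - a < j → f - q = X * E → (∀ z : ℂ, ‖z‖ = 1 → aeval z (q + X * f) ≠ 0) →
  ((∃ F : ℤ[X], E = C (j : ℤ) + F ∧ (1 + X) * f = 1 + F ∧ F.coeff 0 = 0 ∧
      (∀ k, |F.coeff k| ≤ 1) ∧ ∀ x : ℝ, 0 < x → x⁻¹ - x = j - 1 → (aeval x F : ℝ) ≤ x) ∨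
    ∃ (k : ℕ) (ep : ℤ), 1 ≤ k ∧ (ep = 1 ∨ ep = -1) ∧ E = C (j : ℤ) - C ep * X ^ k ∧
      (1 + X) * f = 1 + C ((j - 2) * ep) * X ^ k) → False

/-- (KV_END) [uses KvnS KvxS KvjS UfxS KvyS FDS] -/
def KvzS : Prop := ∀ (P L : Type) [Fintype P] [DecidableEq P] [AddCommGroup L]
  [Module.Free ℤ L] [Module.Finite ℤ L] (phi : L →+ (P → ℤ)) (G : AO ℤ L) (T : L)
  (eta u : (RO ℤ)ˣ) (q f E : ℤ[X]) (a : ℝ) (j : ℕ), ¬ Kg phi G T eta u q f E a j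

/-- (KV_ASM) [uses KvdS KvkS KvzS] -/
def KvaS : Prop := ∀ (P L : Type) [Fintype P] [DecidableEq P] [AddCommGroup L]
  [Module.Free ℤ L] [Module.Finite ℤ L] (phi : L →+ (P → ℤ)) (D : AO ℤ L) (q : ℤ[X]) (a : ℝ)
  (j : ℕ), Cex phi D q a j → ¬ MinD a⁻¹ phi D

end Pool.Agent.B5
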