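import Pool.Agent.Lib.MP_b5021c_nt.IfaceBP
import Pool.Agent.Lib.MP_b5021c_nt.BP.H12.Red
import Pool.Agent.Lib.MP_b5021c_nt.BP.H12.Kap
import Pool.Agent.Lib.MP_b5021c_nt.BP.H71.Tot
import Pool.Agent.Lib.MP_b5021c_nt.UF.H83.Gen

/-!
# Board b5, stage 3, ALL `θ`: rows of the proof of (BPX) (helper80), w-level

`E` over `ℤ`, class `V(N)`, rank `2N - 1`, `N ≥ 3`, normalised: `E_0 = p`, `p(0) = N`.
For a ray `R` the good load is the unit `e` with `e * E_R = -f`, `f(0) ≥ 1`.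
`Kw`: the functionals of `L` which kill the closing of `R` (at the load `e`).
-/

namespace Pool.Agent.B5.BPR

open scoped LaurentPolynomial
open Polynomial
open Pool.Agent.B5
open Pool.Agent.B5.BP12 (Gray KRw)

/-- The conclusion for the pair `(p, g)`. -/
def Cn (N : ℕ) (p g : ℤ[X]) : Prop := (g ≠ 1 → Bpx N p g) ∧ (g = 1 → Bqx N p)

/-- (BPX) at the level `N`. -/
def BpA (N : ℕ) : Prop := ∀ (P L : Type) [Fintype P] [DecidableEq P] [AddCommGroup L]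
  [Module.Free ℤ L] [Module.Finite ℤ L] (phi : L →+ (P → ℤ)) (G : AO ℤ L) (S : L)
  (w w1 : (RO ℤ)ˣ) (p g : ℤ[X]), DD phi G → ClassV N (G.coeff 0) →
    Module.finrank ℤ L + 1 = 2 * N → (∀ K < 2 * N, Bnk K) → Ray G S →
    (w : RO ℤ) * G.coeff 0 = toLaurent p → p.coeff 0 = N →
    (w1 : RO ℤ) * G.coeff S = toLaurent g → g.coeff 0 = 1 → Cn N p g

/-- (BPX) at the level `N`, the case `g ≠ 1`. -/
def BpN (N : ℕ) : Prop := ∀ (P L : Type) [Fintype P] [DecidableEq P] [AddCommGroup L]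
  [Module.Free ℤ L] [Module.Finite ℤ L] (phi : L →+ (P → ℤ)) (G : AO ℤ L) (S : L)
  (w w1 : (RO ℤ)ˣ) (p g : ℤ[X]), DD phi G → ClassV N (G.coeff 0) →
    Module.finrank ℤ L + 1 = 2 * N → (∀ K < 2 * N, Bnk K) → Ray G S →
    (w : RO ℤ) * G.coeff 0 = toLaurent p → p.coeff 0 = N →
    (w1 : RO ℤ) * G.coeff S = toLaurent g → g.coeff 0 = 1 → g ≠ 1 → Bpx N p g

section

variable {P : Type} [Fintype P] [DecidableEq P] {L : Type} [AddCommGroup L] [Module.Free ℤ L]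
  [Module.Finite ℤ L]

/-- The element. -/
structure Xt (N : ℕ) (p : ℤ[X]) (phi : L →+ (P → ℤ)) (E : AO ℤ L) : Prop where
  dd : DD phi E
  cv : ClassV N (E.coeff 0)
  rkL : Module.finrank ℤ L + 1 = 2 * N
  n3 : 3 ≤ N
  e0 : E.coeff 0 = toLaurent p
  p0 : p.coeff 0 = N
  nz : ¬ ZFree E

/-- The reduced element (`BP12.red`), the induction hypothesis, and (for `g = 1`) the case
`g ≠ 1` of the same level. -/
structure Rdc (N : ℕ) (p g : ℤ[X]) (phi : L →+ (P → ℤ)) (E : AO ℤ L) : Prop extends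
    Xt N p phi E where
  g0 : g.coeff 0 = 1
  top : Submodule.span ℤ (supp E) = ⊤
  ims : ∀ R, Gray g E R → ImS phi R
  fct : ∀ (lam : L →+ ℤ) (R : L), FacF (supp E) lam → Gray g E R → lam R = 0 →
    ∃ (i : P) (m : ℤ), 0 < m ∧ ∀ a, lam a = m * phi a i
  bnk : ∀ K < 2 * N, Bnk K
  ih : BpA (N - 1)
  a1 : g = 1 → BpN N

/-- The ray `R` with the port `i` and its good load `e`. -/
structure Gl (phi : L →+ (P → ℤ)) (E : AO ℤ L) (R : L) (i : P) (e : (RO ℤ)ˣ) (f : ℤ[X]) :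
    Prop where
  ray : Ray E R
  po : co phi i R = 1
  eq : (e : RO ℤ) * E.coeff R = -toLaurent f
  pos : 1 ≤ f.coeff 0

/-- `mu` kills the closing of `R` at the load `e`. -/
def Kw (phi : L →+ (P → ℤ)) (E : AO ℤ L) (R : L) (i : P) (e : (RO ℤ)ˣ) (mu : L →+ ℤ) : Prop :=
  Tot.KT (co phi i) R (e : RO ℤ) (fun a => E.coeff a) mu

/-- The closing of `R` has no binomial divisor. -/
def Nb (phi : L →+ (P → ℤ)) (E : AO ℤ L) (R : L) (i : P) (e : (RO ℤ)ˣ) : Prop :=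
  ∀ (h : co phi i R = 1) (b : Ker (co phi i)) (e' : (RO ℤ)ˣ), b ≠ 0 →
    ¬ (1 - AddMonoidAlgebra.single b (e' : RO ℤ)) ∣ cl (co phi i) R h e E

/-- `{b, T}` is an exposed face. -/
def Adj (E : AO ℤ L) (b T : L) : Prop :=
  ∃ l : L →+ ℤ, l b = 0 ∧ l T = 0 ∧ ∀ a ∈ supp E, a ≠ 0 → a ≠ b → a ≠ T → a ≠ b + T → 0 < l a

/-- `b` sees `T`: `T` is outside `U_b`. -/
def Ou (phi : L →+ (P → ℤ)) (E : AO ℤ L) (b : L) (i : P) (e : (RO ℤ)ˣ) (T : L) : Prop :=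
  ∃ mu, Kw phi E b i e mu ∧ mu T ≠ 0

/-- All coefficients are binomials with the same exponent. -/
def AllB (E : AO ℤ L) : Prop :=
  ∃ d : ℕ, 1 ≤ d ∧ ∀ a : L, ∃ (n : ℤ) (al be : ℤ),
    E.coeff a = LaurentPolynomial.T n * toLaurent (C al + C be * X ^ d)

/-- `T2(b, T)` is full: no functional kills the double closing at the loads `e^(i pi/3)`. -/
def T2f (phi : L →+ (P → ℤ)) (E : AO ℤ L) (b T : L) (eb eT : (RO ℤ)ˣ) : Prop :=
  ∀ nu : L →+ ℤ, KRw phi E b T eb eT nu → nu = 0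

end

/-- TYPE S. -/
def TyC (N : ℕ) (p f : ℤ[X]) : Prop :=
  (f = 1 ∧ p = C (N : ℤ)) ∨
  (∃ (d : ℕ) (u : ℤ), 1 ≤ d ∧ (u = 1 ∨ u = -1) ∧ f = 1 ∧ p = C (N : ℤ) + C u * X ^ d) ∨
  (∃ (d : ℕ) (u : ℤ), 1 ≤ d ∧ (u = 1 ∨ u = -1) ∧ f = 1 - C u * X ^ d ∧
    p = C (N : ℤ) - C (((N : ℤ) - 1) * u) * X ^ d) ∨
  (N = 3 ∧ ∃ (d : ℕ) (r : ℤ), 1 ≤ d ∧ p = 3 + C (2 * r) * X ^ d ∧ f = 1 + C (2 * r) * X ^ d)

/-- (BPR_K1) the integer content of the closing of a ray `S` with `ImS phi S` is one.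
[`phi' =` ports outside `S` and `i`; `E' = (1 - y)(X - α V') + y V'` over `Eis`,
`α = (k-1)/2` or `(k-2)/2 + η`, value `< N`.] Owner: helper23 (helper42). -/
def K1S : Prop := ∀ (P L : Type) [Fintype P] [DecidableEq P] [AddCommGroup L]
  [Module.Free ℤ L] [Module.Finite ℤ L] (phi : L →+ (P → ℤ)) (E : AO ℤ L) (N : ℕ) (p f : ℤ[X])
  (S : L) (i : P) (e : (RO ℤ)ˣ) (h : co phi i S = 1) (k : ℤ) (V' : AO ℤ (Ker (co phi i))),
    Xt N p phi E → Gl phi E S i e f → ImS phi S →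
    cl (co phi i) S h e E = cst (LaurentPolynomial.C k) * V' → k = 1 ∨ k = -1

/-- (BPR_TS) a binomial divisor at the good load of a unit ray. [`type_s` with `M c = 1` replaced
by `K1S` and `O1.H12.dvK`.] Owner: helper90. -/
def TysS : Prop := ∀ (P L : Type) [Fintype P] [DecidableEq P] [AddCommGroup L]
  [Module.Free ℤ L] [Module.Finite ℤ L] (phi : L →+ (P → ℤ)) (E : AO ℤ L) (N : ℕ) (p f : ℤ[X])
  (S : L) (i : P) (e : (RO ℤ)ˣ), Xt N p phi E → Gl phi E S i e f → f.coeff 0 = 1 →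
    ImS phi S → ¬ Nb phi E S i e → TyC N p f

/-- (BPR_LV) levels: `b` has a functional `mu`, `mu T ≠ 0`, and no binomial divisor: then `T` has
no binomial divisor. [K1S, CresS, DecS in the case of a divisor `1 - u y_b`] Owner: helper80. -/
def LevS : Prop := ∀ (P L : Type) [Fintype P] [DecidableEq P] [AddCommGroup L]
  [Module.Free ℤ L] [Module.Finite ℤ L] (phi : L →+ (P → ℤ)) (E : AO ℤ L) (N : ℕ) (p g f : ℤ[X])
  (b : L) (i : P) (e : (RO ℤ)ˣ) (T : L) (iT : P) (eT : (RO ℤ)ˣ) (mu : L →+ ℤ),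
    Rdc N p g phi E → Gl phi E b i e g → Gl phi E T iT eT f → Adj E b T →
    Kw phi E b i e mu → mu T ≠ 0 → Nb phi E b i e → Cn N p g ∨ Nb phi E T iT eT

/-- (BPR_DC) decoupling: the closing has the content `1 - ep z^k` and the part without the port is
congruent to `G` modulo it: then `G` is z-free. Owner: helper83. -/
def DecS : Prop := ∀ (P L : Type) [Fintype P] [DecidableEq P] [AddCommGroup L]
  [Module.Free ℤ L] [Module.Finite ℤ L] (phi : L →+ (P → ℤ)) (E : AO ℤ L) (N : ℕ) (p f : ℤ[X])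
  (S : L) (i : P) (e : (RO ℤ)ˣ) (h : co phi i S = 1) (G R : AO ℤ (Ker (co phi i))) (k : ℕ)
  (ep : ℤ), Xt N p phi E → Gl phi E S i e f → f.coeff 0 = 1 → 1 ≤ k → (ep = 1 ∨ ep = -1) →
    cl (co phi i) S h e E = cst (toLaurent (1 - C ep * X ^ k)) * G →
    (∀ a : Ker (co phi i), E.coeff (a : L) =
      G.coeff a + toLaurent (1 - C ep * X ^ k) * R.coeff a) → ZFree G ∧ AllB E

/-- (BPR_CN) the count: a full closing without binomial divisor. Owner: helper80. -/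
def CntS : Prop := ∀ (P L : Type) [Fintype P] [DecidableEq P] [AddCommGroup L]
  [Module.Free ℤ L] [Module.Finite ℤ L] (phi : L →+ (P → ℤ)) (E : AO ℤ L) (N : ℕ) (p f : ℤ[X])
  (S : L) (i : P) (e : (RO ℤ)ˣ) (h : co phi i S = 1), Xt N p phi E → Gl phi E S i e f →
    ImS phi S → Nb phi E S i e → (∀ mu : L →+ ℤ, Kw phi E S i e mu → mu = 0) →
      f.coeff 0 = 1 ∧ ∃ (c : RO ℤ) (n : ℕ) (G : Fin n → AO ℤ (Ker (co phi i))),
        Zfg phi E S i h e c n G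

/-- (BPR_CB) the closing of a unit ray is z-free up to a content which is not a unit: all
coefficients are binomials. [`CcngS`, `DecS`] Owner: helper83. -/
def CtbS : Prop := ∀ (P L : Type) [Fintype P] [DecidableEq P] [AddCommGroup L]
  [Module.Free ℤ L] [Module.Finite ℤ L] (phi : L →+ (P → ℤ)) (E : AO ℤ L) (N : ℕ) (p f : ℤ[X])
  (S : L) (i : P) (e : (RO ℤ)ˣ) (h : co phi i S = 1) (c : RO ℤ) (n : ℕ)
  (G : Fin n → AO ℤ (Ker (co phi i))), Xt N p phi E → Gl phi E S i e f → f.coeff 0 = 1 →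
    Zfg phi E S i h e c n G → ¬ IsUnit c → AllB E

/-- (BPR_PZ) a partner whose closing is full and z-free. Owner: helper57. -/
def PzS : Prop := ∀ (P L : Type) [Fintype P] [DecidableEq P] [AddCommGroup L]
  [Module.Free ℤ L] [Module.Finite ℤ L] (phi : L →+ (P → ℤ)) (E : AO ℤ L) (N : ℕ) (p g f : ℤ[X])
  (b : L) (i : P) (e : (RO ℤ)ˣ) (T : L) (iT : P) (eT : (RO ℤ)ˣ) (mu : L →+ ℤ)
  (hT : co phi iT T = 1) (c : RO ℤ) (n : ℕ) (G : Fin n → AO ℤ (Ker (co phi iT))),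
    Rdc N p g phi E → Gl phi E b i e g → Gl phi E T iT eT f → Adj E b T →
    Kw phi E b i e mu → mu T ≠ 0 → Nb phi E b i e → Nb phi E T iT eT → f.coeff 0 = 1 →
    (∀ nu : L →+ ℤ, Kw phi E T iT eT nu → nu = 0) → Zfg phi E T iT hT eT c n G → IsUnit c →
      Cn N p g

/-- (BPR_PB) an adjacent ray outside `U_b` has a killing functional. [LevS CntS CtbS PzS]
Owner: helper80. -/
def PbS : Prop := ∀ (P L : Type) [Fintype P] [DecidableEq P] [AddCommGroup L]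
  [Module.Free ℤ L] [Module.Finite ℤ L] (phi : L →+ (P → ℤ)) (E : AO ℤ L) (N : ℕ) (p g f : ℤ[X])
  (b : L) (i : P) (e : (RO ℤ)ˣ) (T : L) (iT : P) (eT : (RO ℤ)ˣ) (mu : L →+ ℤ),
    Rdc N p g phi E → Gl phi E b i e g → Gl phi E T iT eT f → Adj E b T →
    Kw phi E b i e mu → mu T ≠ 0 → Nb phi E b i e →
      Cn N p g ∨ (Nb phi E T iT eT ∧ ∃ nu, nu ≠ 0 ∧ Kw phi E T iT eT nu)

/-- (BPR_AD) a ray outside `U_b` adjacent to `b`, for every killing functional; `ImS` for adjacent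
rays outside `U_b`. Owner: helper12. -/
def AdjS : Prop := ∀ (P L : Type) [Fintype P] [DecidableEq P] [AddCommGroup L]
  [Module.Free ℤ L] [Module.Finite ℤ L] (phi : L →+ (P → ℤ)) (E : AO ℤ L) (N : ℕ) (p g : ℤ[X])
  (b : L) (i : P) (e : (RO ℤ)ˣ) (mu : L →+ ℤ), Rdc N p g phi E → Gl phi E b i e g →
    Kw phi E b i e mu →
    (mu ≠ 0 → ∃ T, Ray E T ∧ Adj E b T ∧ mu T ≠ 0) ∧
    ∀ T, Ray E T → mu T ≠ 0 → (∀ q, phi T q = 0 ∨ phi b q = 0) ∧ (Adj E b T → ImS phi T)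

/-- (BPR_T2) `b ~ T` mutual (so both have the coefficient `g`), `dim N_b = 1`, `T2(b,T)`
full. [`eta_mut`, `t2s`, `t2n`, `t2s1`; `M c = 1` for the closing `T2` when it has a small factor:
count] Owners: helper57, helper90, helper52. -/
def T2mS : Prop := ∀ (P L : Type) [Fintype P] [DecidableEq P] [AddCommGroup L]
  [Module.Free ℤ L] [Module.Finite ℤ L] (phi : L →+ (P → ℤ)) (E : AO ℤ L) (N : ℕ) (p g : ℤ[X])
  (b : L) (i : P) (e : (RO ℤ)ˣ) (T : L) (iT : P) (eT : (RO ℤ)ˣ), Rdc N p g phi E →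
    Gl phi E b i e g → Gl phi E T iT eT g → Nb phi E b i e → Nb phi E T iT eT →
    Ou phi E b i e T → Ou phi E T iT eT b → Adj E b T →
    (∀ nu : L →+ ℤ, Kw phi E b i e nu → nu T = 0 → nu = 0) →
    T2f phi E b T e eT → Cn N p g

/-- (BPR_ST) the structure at `b`: all adjacent rays which `b` sees are mutual with `b` and have the
coefficient `g`; `dim N_b = 1`. [STRUCT', BAD, (B1), (B2), (B3), (G)] Owner: helper71
(B1: helper12, B2: helper83). -/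
def StrS : Prop := ∀ (P L : Type) [Fintype P] [DecidableEq P] [AddCommGroup L]
  [Module.Free ℤ L] [Module.Finite ℤ L] (phi : L →+ (P → ℤ)) (E : AO ℤ L) (N : ℕ) (p g : ℤ[X])
  (i : L → P) (e : L → (RO ℤ)ˣ) (f : L → ℤ[X]) (b : L), Rdc N p g phi E →
    (∀ R, Ray E R → Gl phi E R (i R) (e R) (f R)) → Ray E b → f b = g →
    Nb phi E b (i b) (e b) →
    (∀ T, Ray E T → Adj E b T → Ou phi E b (i b) (e b) T →
      Nb phi E T (i T) (e T) ∧ ∃ nu, nu ≠ 0 ∧ Kw phi E T (i T) (e T) nu) →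
      Cn N p g ∨
      ∀ T, Ray E T → Adj E b T → Ou phi E b (i b) (e b) T →
        f T = g ∧ Ou phi E T (i T) (e T) b ∧
        ∀ nu, Kw phi E b (i b) (e b) nu → nu T = 0 → nu = 0

/-- (BPR_IN) the induction step: `x` is a ray of the closing of the ray `T`, both have the
coefficient `g`, `dim N_T = 1`. [`ind_dd`] Owner: helper57. -/
def InS : Prop := ∀ (P L : Type) [Fintype P] [DecidableEq P] [AddCommGroup L]
  [Module.Free ℤ L] [Module.Finite ℤ L] (phi : L →+ (P → ℤ)) (E : AO ℤ L) (N : ℕ) (p g : ℤ[X])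
  (T : L) (i : P) (e : (RO ℤ)ˣ) (h : co phi i T = 1) (x : Ker (co phi i)) (w : (RO ℤ)ˣ)
  (mu : L →+ ℤ) (b : L), Rdc N p g phi E → Gl phi E T i e g → Nb phi E T i e →
    Ray (cl (co phi i) T h e E) x →
    (w : RO ℤ) * (cl (co phi i) T h e E).coeff x = toLaurent g →
    mu ≠ 0 → Kw phi E T i e mu →
    (∀ nu : L →+ ℤ, Kw phi E T i e nu → nu b = 0 → nu = 0) → Cn N p g

end Pool.Agent.B5.BPR
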