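import Pool.Agent.Lib.MP_b5021c_nt.IfaceKO
import Mathlib.Algebra.Polynomial.Expand
import Mathlib.RingTheory.PowerSeries.Basic

/-!
# Board b5, stage 3, ALL `θ`, K ODD: leaf (O1), `u = 1`, A-load and B-load drop free
(PaperALL.md section 7; findings 3521, 3558)

`n = f_1 - q_1`, `V_A = q - f = - z E_0`.  (O1-i): no small factor at the A-load, (O1-ii): one,
(O1-iii): two.
-/

namespace Pool.Agent.B5

open scoped LaurentPolynomial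
open Polynomial
open Pool.Agent.B5.Nr.Sch (Loc)

section

variable {P : Type} [Fintype P] [DecidableEq P] {L : Type} [AddCommGroup L] [Module.Free ℤ L]
  [Module.Finite ℤ L]

/-- The closing of `D` at the load `eta` of `S` is drop free and equals `c ∏ G_i`, `M(c) = 1`, all
`G_i` irreducible and big, `∏ G_i` z-free. -/
structure Zfd (phi : L →+ (P → ℤ)) (D : AO ℤ L) (S : L) (i0 : P) (h : co phi i0 S = 1)
    (eta : (RO ℤ)ˣ) (c : RO ℤ) (n : ℕ) (G : Fin n → AO ℤ (Ker (co phi i0))) : Prop where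
  cc : ClassV 1 c
  eq : cl (co phi i0) S h eta D = cst c * ∏ i, G i
  irr : ∀ i, Irreducible (G i)
  wd : ∀ i, Wdep (G i)
  big : ∀ i, 1 < M ((G i).coeff 0)
  zf : ZFree (∏ i, G i)
  dr : Module.finrank ℤ L = rk (supp (cl (co phi i0) S h eta D)) + 1

/-- The one-variable data of (O1): `u = 1`, B good (`θ_B ≥ mu_j = 1/p`), `θ < j + 1`. -/
structure O1d (q f : ℤ[X]) (a p : ℝ) (j : ℕ) : Prop where
  loc : Loc q f a
  ne : ∃ z : ℂ, ‖z‖ = 1 ∧ ‖aeval z f‖ ≠ ‖aeval z q‖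
  f0 : f.coeff 0 = 1
  j2 : 2 ≤ j
  p0 : 0 < p
  pj : p⁻¹ - p = j
  ap : a ≤ p
  lt : 1 < ((j : ℝ) + 1) * a
  B : (aeval p q : ℝ) + p * aeval p f ≤ 0

end

/-! ## Reduction -/

/-- (O1_BG) the B-load is drop free, so it is good: `θ_B ≥ mu_j`. [uses FDS SfzS ClpS E1S MVS MmulS
PCZS; see KE/H96/Ray.lean good_of, neg_of, sf_kill] -/
def O1bS : Prop := ∀ (P L : Type) [Fintype P] [DecidableEq P] [AddCommGroup L]
  [Module.Free ℤ L] [Module.Finite ℤ L] (phi : L →+ (P → ℤ)) (D : AO ℤ L) (S : L)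
  (q f : ℤ[X]) (e : (RO ℤ)ˣ) (a : ℝ) (j : ℕ), Ko phi D q a j → Ray D S → RN D S q f e a →
    f.coeff 0 = 1 → Dfr phi D S (ld e 1) → ∃ p : ℝ, O1d q f a p j

/-- (O1_CNT) the count at the A-load: no small factor (`Zfd`) and `n = j`, or a small factor and
`n = j`, or two small factors and one big factor, which is z-free, `(j, n) = (3, 2), (4, 3)`. -/
def O1cS : Prop := ∀ (P L : Type) [Fintype P] [DecidableEq P] [AddCommGroup L]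
  [Module.Free ℤ L] [Module.Finite ℤ L] (phi : L →+ (P → ℤ)) (D : AO ℤ L) (S : L) (i0 : P)
  (h : co phi i0 S = 1) (c : RO ℤ) (n : ℕ) (G : Fin n → AO ℤ (Ker (co phi i0)))
  (q f : ℤ[X]) (e : (RO ℤ)ˣ) (a p : ℝ) (j : ℕ), Ko phi D q a j → RN D S q f e a →
    O1d q f a p j → 2 ≤ f.coeff 1 - q.coeff 1 → f.coeff 1 - q.coeff 1 ≤ j →
    FD phi D S i0 (-e) h c n G →
    Module.finrank ℤ L = rk (supp (cl (co phi i0) S h (-e) D)) + 1 →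
      ClassV 1 c ∧
      ((f.coeff 1 - q.coeff 1 = j ∧ Zfd phi D S i0 h (-e) c n G) ∨
      (f.coeff 1 - q.coeff 1 = j ∧ (snp phi S i0 G).Nonempty) ∨
      ((snp phi S i0 G).card = 2 ∧ (∃ i, big G = {i} ∧ ZFree (G i)) ∧
        ((j = 3 ∧ f.coeff 1 - q.coeff 1 = 2) ∨ (j = 4 ∧ f.coeff 1 - q.coeff 1 = 3))))

/-! ## (O1-i) -/

/-- (O1_DCV) DECIMATION at a load whose closing is z-free. `g = f / C1`. -/
def DcvS : Prop := ∀ (P L : Type) [Fintype P] [DecidableEq P] [AddCommGroup L]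
  [Module.Free ℤ L] [Module.Finite ℤ L] (phi : L →+ (P → ℤ)) (D : AO ℤ L) (S : L) (i0 : P)
  (h : co phi i0 S = 1) (q f C1 : ℤ[X]) (e w : (RO ℤ)ˣ) (a : ℝ) (c : RO ℤ) (n0 : ℕ)
  (G : Fin n0 → AO ℤ (Ker (co phi i0))) (n m : ℕ) (g : ℕ → ℤ),
    DD phi D → 2 ≤ Module.finrank ℤ L → Ray D S → RN D S q f e a → f.coeff 0 = 1 →
    Zfd phi D S i0 h (-e) c n0 G → C1.coeff 0 = 1 → c = (w : RO ℤ) * toLaurent C1 → 1 ≤ n →
    f - q = C (n : ℤ) * X * C1 →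
    (C1 : PowerSeries ℤ) * PowerSeries.mk g = (f : PowerSeries ℤ) → 2 ≤ m →
      ∃ (e0 e1 cm : ℤ[X]) (D' : AO ℤ L) (u0 w' : (RO ℤ)ˣ),
        e0 - e1 = C (n : ℤ) * cm ∧ cm.coeff 0 = 1 ∧
        (cm : PowerSeries ℤ) * PowerSeries.mk (fun k => g (m * k + 1)) = -(e1 : PowerSeries ℤ) ∧
        Stable D' ∧ Unitary D' ∧ Irreducible D' ∧ supp D' ⊆ supp D ∧
        (u0 : RO ℤ) * D'.coeff 0 = toLaurent (expand ℤ m e0) ∧
        (u0 : RO ℤ) * (((-e : (RO ℤ)ˣ) : RO ℤ) * D'.coeff S) = -toLaurent (expand ℤ m e1) ∧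
        ClassV ((n : ℝ) - g 1) (D'.coeff 0) ∧
        ClassV 1 ((w' : RO ℤ) * toLaurent (expand ℤ m cm)) ∧
        cl (co phi i0) S h (-e) D' = cst ((w' : RO ℤ) * toLaurent (expand ℤ m cm)) * ∏ i, G i ∧
        Module.finrank ℤ L ≤ rk (supp D') + 1 ∧ (e1 ≠ 0 → rk (supp D') = Module.finrank ℤ L)

/-- (O1_UF) LEMMA UF (3558, helper83): an element of class `V(N)` and rank `2N - 1` with a drop free
z-free closing. -/
def UfrS : Prop := ∀ (P L : Type) [Fintype P] [DecidableEq P] [AddCommGroup L]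
  [Module.Free ℤ L] [Module.Finite ℤ L] (phi : L →+ (P → ℤ)) (E : AO ℤ L) (S : L) (i0 : P)
  (h : co phi i0 S = 1) (eta : (RO ℤ)ˣ) (c : RO ℤ) (n0 : ℕ)
  (G : Fin n0 → AO ℤ (Ker (co phi i0))) (N : ℕ) (p0 p1 : ℤ[X]) (u0 : (RO ℤ)ˣ),
    DD phi E → Ray E S → Zfd phi E S i0 h eta c n0 G → 3 ≤ N → ClassV N (E.coeff 0) →
    Module.finrank ℤ L + 1 = 2 * N → Bnk (2 * N - 2) →
    (u0 : RO ℤ) * E.coeff 0 = toLaurent p0 →
    (u0 : RO ℤ) * ((eta : RO ℤ) * E.coeff S) = -toLaurent p1 → p0.coeff 0 = N →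
    p1.coeff 0 = 1 →
      (∃ F : ℤ[X], p0 = C (N : ℤ) + F ∧ p1 = 1 + F ∧ F.coeff 0 = 0 ∧ ∀ k, |F.coeff k| ≤ 1) ∨
      ∃ (k : ℕ) (ep : ℤ), 1 ≤ k ∧ (ep = 1 ∨ ep = -1) ∧ p0 = C (N : ℤ) - C ep * X ^ k ∧
        p1 = 1 + C ((N - 2) * ep) * X ^ k

/-- (O1_EXT) one variable: `T_0 = j - 2 g_1` is `j` or `j + 2`. [helper1, PaperO1.md 2] -/
def O1exS : Prop := ∀ (q f C1 : ℤ[X]) (a p : ℝ) (j : ℕ), O1d q f a p j → C1.coeff 0 = 1 →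
  (∀ z : ℂ, ‖z‖ < 1 → aeval z C1 ≠ 0) → f - q = C (j : ℤ) * X * C1 →
    f.coeff 1 - C1.coeff 1 = 0 ∨ f.coeff 1 - C1.coeff 1 = -1

/-- (O1_T0J) one variable, `g_1 = 0` (`T_0 = j`), `T_k = 0` for `k ≥ 2`. [helper1] -/
def O1tjS : Prop := ∀ (q f C1 : ℤ[X]) (a p : ℝ) (j : ℕ) (g : ℕ → ℤ), O1d q f a p j →
  C1.coeff 0 = 1 → (∀ z : ℂ, ‖z‖ < 1 → aeval z C1 ≠ 0) → f - q = C (j : ℤ) * X * C1 →
    (C1 : PowerSeries ℤ) * PowerSeries.mk g = (f : PowerSeries ℤ) → g 1 = 0 →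
    (∀ m : ℕ, 2 ≤ m → ∀ k, 1 ≤ k → g (m * k + 1) = 0) → False

/-- (O1_UFV) one variable, `g_1 = -1` (`T_0 = j + 2`), `-T_k = g_(k+1)` as given by (O1_UF).
[helper1] -/
def O1ufS : Prop := ∀ (q f C1 : ℤ[X]) (a p : ℝ) (j : ℕ) (g : ℕ → ℤ), O1d q f a p j →
  C1.coeff 0 = 1 → (∀ z : ℂ, ‖z‖ < 1 → aeval z C1 ≠ 0) → f - q = C (j : ℤ) * X * C1 →
    (C1 : PowerSeries ℤ) * PowerSeries.mk g = (f : PowerSeries ℤ) → g 1 = -1 →
    (∀ m : ℕ, 2 ≤ m → (∀ k, 1 ≤ k → |g (m * k + 1)| ≤ 1) ∨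
      ∃ (k : ℕ) (ep : ℤ), 1 ≤ k ∧ (ep = 1 ∨ ep = -1) ∧
        (∀ l, 1 ≤ l → g (m * (k * l) + 1) = -j * ep ^ l) ∧
        ∀ i, 1 ≤ i → ¬ k ∣ i → g (m * i + 1) = 0) → False

/-- (O1-i) [uses DcvS UfrS EvzS FclS O1exS O1ufS O1tjS] -/
def O1iS : Prop := ∀ (P L : Type) [Fintype P] [DecidableEq P] [AddCommGroup L]
  [Module.Free ℤ L] [Module.Finite ℤ L] (phi : L →+ (P → ℤ)) (D : AO ℤ L) (S : L) (i0 : P)
  (h : co phi i0 S = 1) (c : RO ℤ) (n : ℕ) (G : Fin n → AO ℤ (Ker (co phi i0)))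
  (q f : ℤ[X]) (e : (RO ℤ)ˣ) (a p : ℝ) (j : ℕ), Ko phi D q a j → Ray D S → RN D S q f e a →
    O1d q f a p j → f.coeff 1 - q.coeff 1 = j → Zfd phi D S i0 h (-e) c n G → False

/-! ## (O1-ii), (O1-iii) -/

/-- `t` is a mass at the A-load: `t |q - f|² ≤ |q|² - |f|²` on the circle. -/
def MasA (t : RO ℤ) (q f : ℤ[X]) : Prop := ∀ z : Circle,
  (evR z t).re * ‖aeval (z : ℂ) (q - f)‖ ^ 2 ≤
    ‖aeval (z : ℂ) q‖ ^ 2 - ‖aeval (z : ℂ) f‖ ^ 2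

/-- (O2_M) one variable, `n = j`: the mass is one. [finding 3590 (4); PscS, Nr3S, PmfS; `j = 2`
uses `B`] -/
def O2mS : Prop := ∀ (q f : ℤ[X]) (a p : ℝ) (j : ℕ) (t : RO ℤ), O1d q f a p j →
  f.coeff 1 - q.coeff 1 = j → t ≠ 0 → NnR t → MasA t q f → t = 1

/-- (O2_C) one variable, `n = j`: the C-load of the swapped element. [finding 3590 (3); Win.lean] -/
def O2cS : Prop := ∀ (q f : ℤ[X]) (a p : ℝ) (j : ℕ), O1d q f a p j →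
  f.coeff 1 - q.coeff 1 = j → MasA 1 q f → (1 - p) * (aeval p q : ℝ) + p * aeval p f ≤ 0 → False

/-- (O1-ii) a small factor at the A-load, `n = j`. [uses O2mS O2cS QsgS Nd3S Ta3S St3S Sw3S FpRedS SfzS] -/
def O1iiS : Prop := ∀ (P L : Type) [Fintype P] [DecidableEq P] [AddCommGroup L]
  [Module.Free ℤ L] [Module.Finite ℤ L] (phi : L →+ (P → ℤ)) (D : AO ℤ L) (S : L) (i0 : P)
  (h : co phi i0 S = 1) (c : RO ℤ) (n : ℕ) (G : Fin n → AO ℤ (Ker (co phi i0)))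
  (q f : ℤ[X]) (e : (RO ℤ)ˣ) (a p : ℝ) (j : ℕ), Ko phi D q a j → Ray D S → RN D S q f e a →
    O1d q f a p j → f.coeff 1 - q.coeff 1 = j → FD phi D S i0 (-e) h c n G → ClassV 1 c →
    (snp phi S i0 G).Nonempty → False

/-- (O1_43) one variable, `(j, n) = (4, 3)`. [helper1, PaperO1.md 3] -/
def O43S : Prop := ∀ (q f C1 : ℤ[X]) (a p : ℝ) (t1 t2 : RO ℤ), O1d q f a p 4 → C1.coeff 0 = 1 →
  (∀ z : ℂ, ‖z‖ < 1 → aeval z C1 ≠ 0) → f - q = C 3 * X * C1 → t1 ≠ 0 → NnR t1 → t2 ≠ 0 →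
    NnR t2 → MasA (t1 + t2) q f → False

/-- (O1_32A) one variable, `(j, n) = (3, 2)`: both masses are one. [helper1] -/
def O32aS : Prop := ∀ (q f C1 : ℤ[X]) (a p : ℝ) (t1 t2 : RO ℤ), O1d q f a p 3 →
  C1.coeff 0 = 1 → (∀ z : ℂ, ‖z‖ < 1 → aeval z C1 ≠ 0) → f - q = C 2 * X * C1 → t1 ≠ 0 →
    NnR t1 → t2 ≠ 0 → NnR t2 → MasA (t1 + t2) q f → t1 = 1 ∧ t2 = 1

/-- (O1-iii) two small factors at the A-load. [uses QsgS Nd3S Ta3S O43S O32aS St3S Sw3S FpRedS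
Of1S] -/
def O1iiiS : Prop := ∀ (P L : Type) [Fintype P] [DecidableEq P] [AddCommGroup L]
  [Module.Free ℤ L] [Module.Finite ℤ L] (phi : L →+ (P → ℤ)) (D : AO ℤ L) (S : L) (i0 : P)
  (h : co phi i0 S = 1) (c : RO ℤ) (n : ℕ) (G : Fin n → AO ℤ (Ker (co phi i0)))
  (q f : ℤ[X]) (e : (RO ℤ)ˣ) (a p : ℝ) (j : ℕ), Ko phi D q a j → Ray D S → RN D S q f e a →
    O1d q f a p j → ((j = 3 ∧ f.coeff 1 - q.coeff 1 = 2) ∨ (j = 4 ∧ f.coeff 1 - q.coeff 1 = 3)) →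
    FD phi D S i0 (-e) h c n G → ClassV 1 c →
    Module.finrank ℤ L = rk (supp (cl (co phi i0) S h (-e) D)) + 1 →
    (snp phi S i0 G).card = 2 → (∃ i, big G = {i} ∧ ZFree (G i)) → False

end Pool.Agent.B5
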