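import Pool.Agent.Lib.MP_b5021c_nt.IfaceKV
import Pool.Agent.Lib.MP_b5021c_nt.IfaceBPR
import Pool.Agent.Lib.MP_b5021c_nt.KO.H96.Clos
import Pool.Agent.Lib.MP_b5021c_nt.KO.H13.Ubx
import Pool.Agent.Lib.MP_b5021c_nt.KO.H62.Split
import Pool.Agent.Lib.MP_b5021c_nt.KO.H67.Imd

/-!
# Board b5, stage 3, ALL `θ`, K ODD, leaf (O4): length `l = k + 3 ≥ 5` (`Ob45S`), and length four
with a killer (`K4S`, input of `Ob44S`)  (PaperOC.md; helper35)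

`y_i = w^(Z i) / eta (Z i)` (loads B), so the value of `y_i` at the load A is `-1/z = tA`, at the
load C it is `z = tC`.  `A := X f`; arcs: `D_T = (-1)^|T| c_(arcs of T)`, `c_0 = q`, `c_1 = - X f`,
`c_2 = psi`.  `f - q = X E`, `V := E - (1 + X) f`, `V'' := D(y_0 = -1/z, y_1 = z)`, `V''_0 = - z V`.
-/

namespace Pool.Agent.B5.OC

open scoped LaurentPolynomial
open Polynomial
open Pool.Agent.B5
open Pool.Agent.B5.H40 (uT)

/-! ## Exports of THEOREM B' (helper80); `BxdS` = `KO.H40.BpdqS`, `BxfS` = `BP80.BpfS` -/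

/-- Two binomials with the same exponent. -/
def Bnm (N : ℕ) (p g : ℤ[X]) : Prop :=
  ∃ (k : ℕ) (t r : ℤ), 1 ≤ k ∧ p = C (N : ℤ) + C t * X ^ k ∧ g = 1 + C r * X ^ k

/-- (OC_BXD) the closing at the good load has a drop. Owner: helper80. -/
def BxdS : Prop := ∀ (P L : Type) [Fintype P] [DecidableEq P] [AddCommGroup L]
  [Module.Free ℤ L] [Module.Finite ℤ L] (phi : L →+ (P → ℤ)) (G : AO ℤ L) (N : ℕ) (S : L)
  (w e : (RO ℤ)ˣ) (p g : ℤ[X]) (nu : L →+ ℤ), 2 ≤ N → DD phi G → ClassV N (G.coeff 0) →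
    Module.finrank ℤ L + 1 = 2 * N → (∀ K < 2 * N, Bnk K) → Ray G S →
    (w : RO ℤ) * G.coeff 0 = toLaurent p → p.coeff 0 = N →
    (w : RO ℤ) * ((e : RO ℤ) * G.coeff S) = -toLaurent g → g.coeff 0 = 1 → g ≠ 1 →
    nu ≠ 0 → (∀ a ∈ US e S G, nu a = 0) → Bnm N p g ∨ Bpx (N - 1) (p - g) g

/-- (OC_BXF) the closing at the good load is full: it is z-free. Owner: helper80 (done). -/
def BxfS : Prop := ∀ (P L : Type) [Fintype P] [DecidableEq P] [AddCommGroup L]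
  [Module.Free ℤ L] [Module.Finite ℤ L] (phi : L →+ (P → ℤ)) (G : AO ℤ L) (N : ℕ) (S : L) (i : P)
  (h : co phi i S = 1) (w e : (RO ℤ)ˣ) (p g : ℤ[X]), 2 ≤ N → DD phi G → ClassV N (G.coeff 0) →
    Module.finrank ℤ L + 1 = 2 * N → (∀ K < 2 * N, Bnk K) → Ray G S →
    (w : RO ℤ) * G.coeff 0 = toLaurent p → p.coeff 0 = N →
    (w : RO ℤ) * ((e : RO ℤ) * G.coeff S) = -toLaurent g → g.coeff 0 = 1 → g ≠ 1 →
    ImS phi S → (∀ mu : L →+ ℤ, BPR.Kw phi G S i e mu → mu = 0) →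
      Bnm N p g ∨ (p - g = C ((N : ℤ) - 1) ∧ ZFree (cl (co phi i) S h e G))

section

variable {P : Type} [Fintype P] [DecidableEq P] {L : Type} [AddCommGroup L] [Module.Free ℤ L]
  [Module.Finite ℤ L]

/-! ## The data at a cycle -/

/-- The data at a cycle of length `k + 3 ≥ 4`. -/
structure Oc (phi : L →+ (P → ℤ)) (D : AO ℤ L) (q f E : ℤ[X]) (a : ℝ) (j : ℕ)
    (eta : L → (RO ℤ)ˣ) (C : Set L) (k : ℕ) (Z : ZMod (k + 3) → L)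
    (mu : ZMod (k + 3) → L →+ ℤ) : Prop where
  k1 : 1 ≤ k
  kb : KcB phi D q f a j eta 1 C
  f0 : f.coeff 0 = 1
  n : f.coeff 1 - q.coeff 1 = j + 1
  eE : f - q = X * E
  E0 : E.coeff 0 = j + 1
  Ez : ∀ z : ℂ, ‖z‖ ≤ 1 → (aeval z E : ℂ) ≠ 0
  cusp : ∀ z : ℂ, ‖z‖ = 1 → (aeval z (q + X * f) : ℂ) ≠ 0
  tp : O4X.Tp j q f (((j : ℝ) + 1)⁻¹) ((j : ℝ)⁻¹)
  cyc : Cyc phi D eta k Z mu
  mem : ∀ i, Z i ∈ C
  co : ∀ i, (eta (Z i) : RO ℤ) * D.coeff (Z i) = toLaurent (X * f)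

/-- `T` is a killer of the cycle at the load `e`. -/
def Kl (D : AO ℤ L) {k : ℕ} (Z : ZMod (k + 3) → L) (T : L) (e : (RO ℤ)ˣ) : Prop :=
  Ray D T ∧ (∀ i, T ≠ Z i) ∧ D.coeff 0 + (e : RO ℤ) * D.coeff T ≠ 0 ∧ ∃ i, Z i ∉ US e T D

/-- The arcs inside `i, i+1, i+2`: `A = X f`, `psi` the coefficient of `Z i + Z (i+2)`. -/
structure Ar3 (D : AO ℤ L) (eta : L → (RO ℤ)ˣ) {k : ℕ} (Z : ZMod (k + 3) → L) (A psi : RO ℤ)
    (i : ZMod (k + 3)) : Prop where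
  s01 : (eta (Z i) : RO ℤ) * (eta (Z (i + 1)) : RO ℤ) * D.coeff (Z i + Z (i + 1)) = -A
  s12 : (eta (Z (i + 1)) : RO ℤ) * (eta (Z (i + 2)) : RO ℤ) *
    D.coeff (Z (i + 1) + Z (i + 2)) = -A
  s02 : (eta (Z i) : RO ℤ) * (eta (Z (i + 2)) : RO ℤ) * D.coeff (Z i + Z (i + 2)) = psi
  s012 : (eta (Z i) : RO ℤ) * (eta (Z (i + 1)) : RO ℤ) * (eta (Z (i + 2)) : RO ℤ) *
    D.coeff (Z i + Z (i + 1) + Z (i + 2)) = A

/-- The arcs inside `i, i+1, i+2, i+3` (length at least five). -/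
structure Ar4 (D : AO ℤ L) (eta : L → (RO ℤ)ˣ) {k : ℕ} (Z : ZMod (k + 3) → L) (A psi : RO ℤ)
    (i : ZMod (k + 3)) : Prop where
  a0 : Ar3 D eta Z A psi i
  a1 : Ar3 D eta Z A psi (i + 1)
  s03 : (eta (Z i) : RO ℤ) * (eta (Z (i + 3)) : RO ℤ) * D.coeff (Z i + Z (i + 3)) = psi
  s013 : (eta (Z i) : RO ℤ) * (eta (Z (i + 1)) : RO ℤ) * (eta (Z (i + 3)) : RO ℤ) *
    D.coeff (Z i + Z (i + 1) + Z (i + 3)) = -psi
  s023 : (eta (Z i) : RO ℤ) * (eta (Z (i + 2)) : RO ℤ) * (eta (Z (i + 3)) : RO ℤ) *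
    D.coeff (Z i + Z (i + 2) + Z (i + 3)) = -psi
  s0123 : (eta (Z i) : RO ℤ) * (eta (Z (i + 1)) : RO ℤ) * (eta (Z (i + 2)) : RO ℤ) *
    (eta (Z (i + 3)) : RO ℤ) * D.coeff (Z i + Z (i + 1) + Z (i + 2) + Z (i + 3)) = -A

/-- `V''` is drop free. -/
def Vfr (phi : L →+ (P → ℤ)) (D : AO ℤ L) (eta : L → (RO ℤ)ˣ) (S S1 : L) : Prop :=
  ∀ nu : L →+ ℤ, Kil phi D S S1 (eta S * tA) (eta S1 * tC) nu → nu = 0

/-- `V''` is in `DD` with the ports outside `S`, `S1`, of class `V(j)` and rank `2 j - 1` (no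
content). -/
def Vdd (phi : L →+ (P → ℤ)) (D : AO ℤ L) (eta : L → (RO ℤ)ˣ) (j : ℕ) (S S1 : L)
    (Y : Dp phi S S1) : Prop :=
  DD (KO67.psd Y) (dc Y (eta S * tA) (eta S1 * tC) D) ∧
    ClassV j ((dc Y (eta S * tA) (eta S1 * tC) D).coeff 0) ∧
    Module.finrank ℤ (Ker Y.k1) + 1 = 2 * j

end

/-! ## General rows -/

/-- (OC_PRE) the data. [uses MfcS, O2.lean, O3b.lean]
Owner: helper35. -/
def PreS : Prop := ∀ (P L : Type) [Fintype P] [DecidableEq P] [AddCommGroup L]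
  [Module.Free ℤ L] [Module.Finite ℤ L] (phi : L →+ (P → ℤ)) (D : AO ℤ L) (q f : ℤ[X]) (a : ℝ)
  (j : ℕ) (eta : L → (RO ℤ)ˣ) (C : Set L) (k : ℕ) (Z : ZMod (k + 3) → L)
  (mu : ZMod (k + 3) → L →+ ℤ), KcB phi D q f a j eta 1 C → f.coeff 0 = 1 → f.coeff 1 - q.coeff 1 = j + 1 → Cyc phi D eta k Z mu →
      (∀ i, Z i ∈ C) → 1 ≤ k → ∃ E : ℤ[X], Oc phi D q f E a j eta C k Z mu

/-- (OC_ARC) the arcs. [uses CnfS or F1S] -/
def ArcS : Prop := ∀ (P L : Type) [Fintype P] [DecidableEq P] [AddCommGroup L]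
  [Module.Free ℤ L] [Module.Finite ℤ L] (phi : L →+ (P → ℤ)) (D : AO ℤ L) (q f E : ℤ[X])
  (a : ℝ) (j : ℕ) (eta : L → (RO ℤ)ˣ) (C : Set L) (k : ℕ) (Z : ZMod (k + 3) → L)
  (mu : ZMod (k + 3) → L →+ ℤ), Oc phi D q f E a j eta C k Z mu →
    (∀ i, Ar3 D eta Z (toLaurent (X * f)) ((eta (Z i) : RO ℤ) * (eta (Z (i + 2)) : RO ℤ) *
      D.coeff (Z i + Z (i + 2))) i) ∧
    (2 ≤ k → ∃ psi : RO ℤ, ∀ i, Ar4 D eta Z (toLaurent (X * f)) psi i)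

/-- (OC_VDF) `V''` is drop free: length at least five, or length four with a killer of the cycle.
`ν(Z i) = 0` by the arcs.  ANY outside ray `R` with `ν(R) ≠ 0` (killer or not): the classes of `R`,
`R + Z 2`, `R + Z (-1)` vanish: `chi_2 = z² chi_1 = chi_1 / z²` (length four: `D_(R + Z 0 + Z 2) = 0 =
D_(R + Z 1 + Z 3)` by the functional of KIL, which is 0 on `R`), so `chi_1 = 0`, `D_R = 0`.
No PX, no TK, no unitarity. [uses F1S CnfS E2S; `KO.H40.cyc_kil`] -/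
def VdfS : Prop := ∀ (P L : Type) [Fintype P] [DecidableEq P] [AddCommGroup L]
  [Module.Free ℤ L] [Module.Finite ℤ L] (phi : L →+ (P → ℤ)) (D : AO ℤ L) (q f E : ℤ[X])
  (a : ℝ) (j : ℕ) (eta : L → (RO ℤ)ˣ) (C : Set L) (k : ℕ) (Z : ZMod (k + 3) → L)
  (mu : ZMod (k + 3) → L →+ ℤ), Oc phi D q f E a j eta C k Z mu →
    (2 ≤ k ∨ ∃ T e, Kl D Z T e) → Vfr phi D eta (Z 0) (Z 1)

/-- (OC_RAY) the rays `Z 2`, `Z (-1)`, `Z 3` of `V''`, with injective ports. Not a ray: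
`N Z_2 = ∑ n_k x_k`, `x_k` inside the ports, `x_k = a_k - p_k Z 0 - l_k Z 1`, all `mu i (a_k) = 0`
(CnfS); apply the `mu i` (length four: the functional of KIL).
[uses CnfS Inj1S RaySpanS FspS, `cyc_kil`] -/
def RayS : Prop := ∀ (P L : Type) [Fintype P] [DecidableEq P] [AddCommGroup L]
  [Module.Free ℤ L] [Module.Finite ℤ L] (phi : L →+ (P → ℤ)) (D : AO ℤ L) (q f E : ℤ[X])
  (a : ℝ) (j : ℕ) (eta : L → (RO ℤ)ˣ) (C : Set L) (k : ℕ) (Z : ZMod (k + 3) → L)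
  (mu : ZMod (k + 3) → L →+ ℤ), Oc phi D q f E a j eta C k Z mu →
    (2 ≤ k ∨ ∃ T e, Kl D Z T e) → ∀ (i : ZMod (k + 3)), i ≠ 0 → i ≠ 1 →
    ∀ (Y : Dp phi (Z 0) (Z 1)) (u0 u1 : (RO ℤ)ˣ) (x : Ker Y.k1),
      ((x : Ker (co phi Y.i0)) : L) = Z i → (dc Y u0 u1 D).coeff x ≠ 0 →
        Ray (dc Y u0 u1 D) x ∧ ImS (KO67.psd Y) x

/-- (OC_VDD) `V''` is in `DD`: `KO67.double2`, and the content is a unit (it divides the coefficients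
of `Z 2` and `Z (-1)`; only `z = ±i` is left, there the face `{Z 0, Z 2}` of `D` has a zero).
`V''_(-1) = f + z psi` is assumed to have the lowest coefficient one. [uses VdfS ArcS RayS] -/
def VddS : Prop := ∀ (P L : Type) [Fintype P] [DecidableEq P] [AddCommGroup L]
  [Module.Free ℤ L] [Module.Finite ℤ L] (phi : L →+ (P → ℤ)) (D : AO ℤ L) (q f E : ℤ[X])
  (a : ℝ) (j : ℕ) (eta : L → (RO ℤ)ˣ) (C : Set L) (k : ℕ) (Z : ZMod (k + 3) → L)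
  (mu : ZMod (k + 3) → L →+ ℤ) (g1 : ℤ[X]), Oc phi D q f E a j eta C k Z mu →
    (2 ≤ k ∨ ∃ T e, Kl D Z T e) → g1.coeff 0 = 1 →
    toLaurent f + LaurentPolynomial.T 1 * ((eta (Z (-1)) : RO ℤ) * (eta (Z 1) : RO ℤ) *
      D.coeff (Z (-1) + Z 1)) = toLaurent g1 →
      ∀ (Y : Dp phi (Z 0) (Z 1)), Vdd phi D eta j (Z 0) (Z 1) Y

/-! ## Length at least five, `psi = 0` -/

/-- (OC_P5) `Z 3` is a ray of `V''` with the coefficient `z f` and a drop at its good load 1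
(functional `mu 3`): BxdS for `(V, f)`: `Bnm` (`ko_br`) or `Bpx (j-1) (V - f) f`; `bpf_fin` leaves
`j = 3`, `V = f + 2`: `Bpx 2 2 f` is binomial. [uses VddS ArcS RayS BxdS] -/
def P5S : Prop := ∀ (P L : Type) [Fintype P] [DecidableEq P] [AddCommGroup L]
  [Module.Free ℤ L] [Module.Finite ℤ L] (phi : L →+ (P → ℤ)) (D : AO ℤ L) (q f E : ℤ[X])
  (a : ℝ) (j : ℕ) (eta : L → (RO ℤ)ˣ) (C : Set L) (k : ℕ) (Z : ZMod (k + 3) → L)
  (mu : ZMod (k + 3) → L →+ ℤ), Oc phi D q f E a j eta C k Z mu → 2 ≤ k →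
    (∀ i, Ar4 D eta Z (toLaurent (X * f)) 0 i) → False

/-! ## Length at least five, `psi ≠ 0`

`G` = the closing A at `Z 0` (class `V(j+1)`, rank `2 j`, `G_0 = - z E`);
`G_2 = G_3 = z f - psi / z`, `(Z 2, Z 3)` mutual in `G` at the loads `y = 1`. -/

/-- (OC_S5A) `G_2 = z γ / ε`, `ε ≠ 1`: `γ(0) = 1` and the closing `y_2 = ε` of `G` is
`cst cc * U`, `U` in `DD` of class `V(j)`, rank `2 j - 1`.  The conclusion in one variable: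
`E = cc p + γ`; `Z 1`: `(1+z)(1-ε) f = cc g1`, `Z 3`: `(1-ε) γ = cc g3`,
`Z (-1)`: `(1+z)(f + psi ε / z) = cc gm` (up to units; `ε = -1`: `cc = 1`).
Small factors: TsgS with `eta' = 1`: `t` is a constant, `t ≤ 1` (face of the mutual pair), so
`t = 1`, `E = (2-ε) γ`, then `D(-1/z, y_2 = ε, y_3 = ε) = 0` and the class of `Z 1` is not zero.
[uses ArcS TsgS FDS KvxS first; H67.one_fac] -/
def S5aS : Prop := ∀ (P L : Type) [Fintype P] [DecidableEq P] [AddCommGroup L]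
  [Module.Free ℤ L] [Module.Finite ℤ L] (phi : L →+ (P → ℤ)) (D : AO ℤ L) (q f E γ : ℤ[X])
  (a : ℝ) (j : ℕ) (eta : L → (RO ℤ)ˣ) (C : Set L) (k : ℕ) (Z : ZMod (k + 3) → L)
  (mu : ZMod (k + 3) → L →+ ℤ) (psi : RO ℤ) (s n : ℤ), Oc phi D q f E a j eta C k Z mu →
    2 ≤ k → (∀ i, Ar4 D eta Z (toLaurent (X * f)) psi i) →
    (s = 1 ∨ s = -1) → (s ≠ 1 ∨ n ≠ 0) → 1 ≤ γ.coeff 0 →
    (LaurentPolynomial.C s * LaurentPolynomial.T n) *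
      (LaurentPolynomial.T 1 * toLaurent f - LaurentPolynomial.T (-1) * psi) =
      LaurentPolynomial.T 1 * toLaurent γ →
      γ.coeff 0 = 1 ∧ ∃ cc p : ℤ[X], (cc = 1 ∨ (cc = 1 + X ∧ n ≠ 0)) ∧ E = cc * p + γ ∧
        (∀ z : ℂ, ‖z‖ < 1 → (aeval z p : ℂ) ≠ 0) ∧
        (n ≠ 0 → (∃ g1 : ℤ[X], cc * g1 = (1 + X) * (1 - Polynomial.C s * X ^ n.natAbs) * f ∧
            (∀ z : ℂ, ‖z‖ = 1 → ‖(aeval z g1 : ℂ)‖ ≤ ‖(aeval z p : ℂ)‖) ∧ BPR.Cn j p g1) ∧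
          ∃ g3 : ℤ[X], cc * g3 = (1 - Polynomial.C s * X ^ n.natAbs) * γ ∧
            (∀ z : ℂ, ‖z‖ = 1 → ‖(aeval z g3 : ℂ)‖ ≤ ‖(aeval z p : ℂ)‖) ∧ BPR.Cn j p g3) ∧
        (n = 0 → BPR.Cn j p ((1 + X) * (f - X * (f + γ))))

/-- (OC_W1) one variable, `ε = s z^(±n)`, `n ≥ 1`: impossible by the two points.  UF: the same `F`
for `g1`, `g3`, then (A), and for `n = 1`, `s = 1` both points; binomials: `|r1| = 1`. -/
def W1S : Prop := ∀ (q f E γ cc p g1 g3 : ℤ[X]) (j n : ℕ) (s : ℤ) (x y : ℝ),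
  O4X.Tp j q f x y → f.coeff 0 = 1 → f - q = X * E → E.coeff 0 = j + 1 → γ.coeff 0 = 1 →
    1 ≤ n → (s = 1 ∨ s = -1) → (cc = 1 ∨ cc = 1 + X) → E = cc * p + γ →
    (∀ z : ℂ, ‖z‖ < 1 → (aeval z p : ℂ) ≠ 0) →
    (∀ z : ℂ, ‖z‖ = 1 → ‖(aeval z g1 : ℂ)‖ ≤ ‖(aeval z p : ℂ)‖) →
    (∀ z : ℂ, ‖z‖ = 1 → ‖(aeval z g3 : ℂ)‖ ≤ ‖(aeval z p : ℂ)‖) →
    cc * g1 = (1 + X) * (1 - Polynomial.C s * X ^ n) * f →
    cc * g3 = (1 - Polynomial.C s * X ^ n) * γ → BPR.Cn j p g1 → BPR.Cn j p g3 → False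

/-- (OC_VR) the unit rays of `V''` for `psi = z² r`, `r` a polynomial, `V := E - (1 + z) f`:
`Z (-1)` with `g1 = f + z³ r`; `Z 3` with `± (f - A r)`, `A = 1 - z - z²`, if its lowest coefficient is
`±1`; if it is `+1` the good load is `y_3 = 1` and `mu 3` kills the closing; `Z 2` with `± (r + z f)` if
its lowest coefficient is `±1`; the last one: `y_2 = -1/z` has the constant coefficient
`- z (V - f - r')` of class `V(1)`, so the closing is a product of small factors and its coefficient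
`- r (1+z)² (1-z)` at `Z 3` is zero or a unit times it. [uses VddS RayS BpxS BxdS FDS SmallS] -/
def VrS : Prop := ∀ (P L : Type) [Fintype P] [DecidableEq P] [AddCommGroup L]
  [Module.Free ℤ L] [Module.Finite ℤ L] (phi : L →+ (P → ℤ)) (D : AO ℤ L) (q f E r : ℤ[X])
  (a : ℝ) (j : ℕ) (eta : L → (RO ℤ)ˣ) (C : Set L) (k : ℕ) (Z : ZMod (k + 3) → L)
  (mu : ZMod (k + 3) → L →+ ℤ), Oc phi D q f E a j eta C k Z mu → 2 ≤ k →
    (∀ i, Ar4 D eta Z (toLaurent (X * f)) (toLaurent (X ^ 2 * r)) i) →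
      (∀ g, g = f + X ^ 3 * r → BPR.Cn j (E - (1 + X) * f) g) ∧
      (∀ g, g = f - (1 - X - X ^ 2) * r → g.coeff 0 = 1 →
        BPR.Cn j (E - (1 + X) * f) g ∧ (g ≠ 1 → Bnm j (E - (1 + X) * f) g ∨
          Bpx (j - 1) (E - (1 + X) * f - g) g)) ∧
      (∀ g, g = (1 - X - X ^ 2) * r - f → g.coeff 0 = 1 → BPR.Cn j (E - (1 + X) * f) g) ∧
      (∀ g, g = r + X * f ∨ g = -(r + X * f) → g.coeff 0 = 1 →
        BPR.Cn j (E - (1 + X) * f) g) ∧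
      (∀ r', r = X * r' → (E - (1 + X) * f - f - r').coeff 0 = 1 → r = 0 ∨
        ∃ s n : ℤ, (s = 1 ∨ s = -1) ∧ toLaurent (r * (1 + X) ^ 2 * (1 - X)) =
          LaurentPolynomial.C s * LaurentPolynomial.T n *
            toLaurent (E - (1 + X) * f - f - r'))

/-- (OC_W2) one variable, `ε = -1`: `psi = z² (f + γ)`: orders at most two, and the double zero of
`g1 + g3` at one. -/
def W2S : Prop := ∀ (q f E γ p g1 g3 gm : ℤ[X]) (j : ℕ) (x y : ℝ),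
  O4X.Tp j q f x y → f.coeff 0 = 1 → f - q = X * E → E.coeff 0 = j + 1 → γ.coeff 0 = 1 →
    (∀ z : ℂ, ‖z‖ ≤ 1 → (aeval z E : ℂ) ≠ 0) →
    (∀ z : ℂ, ‖z‖ = 1 → (aeval z (q + X * f) : ℂ) ≠ 0) →
    E = p + γ → g1 = f + X ^ 3 * (f + γ) → g3 = (1 - X - X ^ 2) * (f + γ) - f →
    gm = (1 + X) * (f - X * (f + γ)) →
    BPR.Cn j (E - (1 + X) * f) g1 → BPR.Cn j (E - (1 + X) * f) g3 → BPR.Cn j p gm → False

/-- (OC_S5C) `ε = 1`, `γ(0) ≥ 2`: impossible.  `H` = the closing B at `Z 2` (one factor, class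
`P`, rank `2 j - 1`); its ray `Z 0` has the partner `Z (-1)` at the load B, so the load A is drop
free: `D(-1/z, y_2 = 1)` has rank `2 j - 2` and class `V(j + 1 - γ(0))`: extremal and z-free,
`γ(0) = 2`, `E - γ = (j-1)(1+z) f_H`, `q + z f = f_H (1 - (j-1) z - (j-1) z²)`, `f_H = 1` (cusp),
against `(q + z f)(1/j) ≤ 0`.  Small factors: TsgS with `eta' = 1`: `γ(0) = j`, all factors small,
the coefficient of `Z (-1)` gives a contradiction. [uses ArcS SfzS TsgS KvxS FDS] -/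
def S5cS : Prop := ∀ (P L : Type) [Fintype P] [DecidableEq P] [AddCommGroup L]
  [Module.Free ℤ L] [Module.Finite ℤ L] (phi : L →+ (P → ℤ)) (D : AO ℤ L) (q f E γ : ℤ[X])
  (a : ℝ) (j : ℕ) (eta : L → (RO ℤ)ˣ) (C : Set L) (k : ℕ) (Z : ZMod (k + 3) → L)
  (mu : ZMod (k + 3) → L →+ ℤ), Oc phi D q f E a j eta C k Z mu → 2 ≤ k →
    (∀ i, Ar4 D eta Z (toLaurent (X * f)) (toLaurent (X ^ 2 * (f - γ))) i) →
    2 ≤ γ.coeff 0 → False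

/-- (OC_W3) one variable, `ε = 1`, `γ(0) = 1`: `psi = z² (f - γ)`, `g1 - g3 = (1-z)² (1+z) (f - γ)`:
`f = γ`. -/
def W3S : Prop := ∀ (q f E γ g1 g3 : ℤ[X]) (j : ℕ) (x y : ℝ),
  O4X.Tp j q f x y → f.coeff 0 = 1 → f - q = X * E → E.coeff 0 = j + 1 → γ.coeff 0 = 1 →
    g1 = f + X ^ 3 * (f - γ) → g3 = f - (1 - X - X ^ 2) * (f - γ) →
    BPR.Cn j (E - (1 + X) * f) g1 → BPR.Cn j (E - (1 + X) * f) g3 →
    (g3 ≠ 1 → Bnm j (E - (1 + X) * f) g3 ∨ Bpx (j - 1) (E - (1 + X) * f - g3) g3) →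
    (∀ r', f - γ = X * r' → (E - (1 + X) * f - f - r').coeff 0 = 1 → f - γ = 0 ∨
      ∃ s n : ℤ, (s = 1 ∨ s = -1) ∧ toLaurent ((f - γ) * (1 + X) ^ 2 * (1 - X)) =
        LaurentPolynomial.C s * LaurentPolynomial.T n *
          toLaurent (E - (1 + X) * f - f - r')) →
    f = γ

/-- (OC_W4) one variable, `G_2 = 0`: `psi = z² f`, `g1 = (1 + z³) f`, `g2 = (1 + z) f`. -/
def W4S : Prop := ∀ (q f E g1 g2 : ℤ[X]) (j : ℕ) (x y : ℝ),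
  O4X.Tp j q f x y → f.coeff 0 = 1 → f - q = X * E → E.coeff 0 = j + 1 →
    g1 = (1 + X ^ 3) * f → g2 = (1 + X) * f →
    BPR.Cn j (E - (1 + X) * f) g1 → BPR.Cn j (E - (1 + X) * f) g2 → False

/-- (OC_S5) length at least five: impossible. [uses ArcS P5S S5aS W1S VrS W2S S5cS W3S W4S] -/
def S5S : Prop := ∀ (P L : Type) [Fintype P] [DecidableEq P] [AddCommGroup L]
  [Module.Free ℤ L] [Module.Finite ℤ L] (phi : L →+ (P → ℤ)) (D : AO ℤ L) (q f E : ℤ[X])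
  (a : ℝ) (j : ℕ) (eta : L → (RO ℤ)ˣ) (C : Set L) (k : ℕ) (Z : ZMod (k + 3) → L)
  (mu : ZMod (k + 3) → L →+ ℤ), Oc phi D q f E a j eta C k Z mu → 2 ≤ k → False

/-! ## Length four with a killer -/

/-- (OC_K4A) structure: `psi = 0` for both pairs; `V''` is in `DD`, `Z 2` with `f` at the good load
`-1/z`, `Z 3` with `f` at the good load `z`; `(V, f)`: `ko_br` or `j = 3`, `V = f + 2` (`bpf_fin`); a
drop at the good load of `Z 2`: BxdS, impossible; full: BxfS: `W = V''(y_2 = -1/z)` is z-free; the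
class of a killer `T`: `e_T W_T = e_T D_T + f (1 - 2z - z²)`, `e_T V''_T = e_T D_T + (1 - z - z²) f`.
Conclusion: the one-variable data of `T` at its designated load: load B (`e_T D_T = z h`) or load A
(`e_T D_T = - h`, `h(0) = 1`, `h - q = X E_T`, `E_T(0) ≥ 2` by TrezS), `|h| ≤ |q|`.
[uses ArcS VddS RayS BpxS BxdS BxfS TrezS; KO/H13, KO/H67] -/
def K4aS : Prop := ∀ (P L : Type) [Fintype P] [DecidableEq P] [AddCommGroup L]
  [Module.Free ℤ L] [Module.Finite ℤ L] (phi : L →+ (P → ℤ)) (D : AO ℤ L) (q f E : ℤ[X])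
  (a : ℝ) (j : ℕ) (eta : L → (RO ℤ)ˣ) (C : Set L) (Z : ZMod (1 + 3) → L)
  (mu : ZMod (1 + 3) → L →+ ℤ) (T : L), Oc phi D q f E a j eta C 1 Z mu →
    KO.Des phi D q a eta → Kl D Z T (eta T) →
    j = 3 ∧ E - (1 + X) * f = f + 2 ∧ (∀ k, 1 ≤ k → |f.coeff k| ≤ 1) ∧
    Bpx 3 (f + 2) f ∧ ¬ Bnm 3 (f + 2) f ∧ ∃ (h : ℤ[X]) (n m : ℤ), 1 ≤ h.coeff 0 ∧
      (∀ z : ℂ, ‖z‖ = 1 → ‖(aeval z h : ℂ)‖ ≤ ‖(aeval z q : ℂ)‖) ∧
      ((toLaurent (X * h) + toLaurent (f * (1 - 2 * X - X ^ 2)) =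
          LaurentPolynomial.C n * LaurentPolynomial.T m ∧
        (∀ g : ℤ[X], (g = X * h + (1 - X - X ^ 2) * f) → g.coeff 0 = 1 →
          BPR.Cn 3 (f + 2) g)) ∨
      (h.coeff 0 = 1 ∧ 2 ≤ h.coeff 1 - q.coeff 1 ∧
        -toLaurent h + toLaurent (f * (1 - 2 * X - X ^ 2)) =
          LaurentPolynomial.C n * LaurentPolynomial.T m ∧
        ∀ (g : ℤ[X]) (s : ℤ) (i : ℕ), (s = 1 ∨ s = -1) → g.coeff 0 = 1 →
          Polynomial.C s * X ^ i * g = (1 - X - X ^ 2) * f - h → BPR.Cn 3 (f + 2) g))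

/-- (OC_K4B) one variable. Load B: `h = (1 - f (1 - 2z - z²))/z`, `V''_T = 1 + z f`: not allowed.
Load A: `h = f (1 - 2z - z²) - n z^m`; `m ≥ 2`: `V''_T = z (f + n z^(m-1))`: `n = 0`; `m = 1`:
`n ≤ 0` (`TrezS`), `n = -1`: `V''_T = z (f - 1)`; `n = -2`: `V''_T = - z (2 - f)`; the others:
`Re (f (1 + i sin)) ≥ - (2 + n)/4` by `|h| ≤ |q|`, `q = f (1 - 2z - z²) - 2z`; Fejer: `n ≥ -1`;
`n = 0`: the test function `|1 - (3/2) z + z²|²`. [PaperOC 5] -/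
def K4bS : Prop := ∀ (q f h : ℤ[X]) (n m : ℤ) (x y : ℝ), O4X.Tp 3 q f x y → f.coeff 0 = 1 →
  q = (1 - X - X ^ 2) * f - X * (f + 2) → (∀ k, 1 ≤ k → |f.coeff k| ≤ 1) →
  Bpx 3 (f + 2) f → ¬ Bnm 3 (f + 2) f → 1 ≤ h.coeff 0 →
  (∀ z : ℂ, ‖z‖ = 1 → ‖(aeval z h : ℂ)‖ ≤ ‖(aeval z q : ℂ)‖) →
  ((toLaurent (X * h) + toLaurent (f * (1 - 2 * X - X ^ 2)) =
      LaurentPolynomial.C n * LaurentPolynomial.T m ∧
    (∀ g : ℤ[X], (g = X * h + (1 - X - X ^ 2) * f) → g.coeff 0 = 1 → BPR.Cn 3 (f + 2) g)) ∨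
  (h.coeff 0 = 1 ∧ 2 ≤ h.coeff 1 - q.coeff 1 ∧
    -toLaurent h + toLaurent (f * (1 - 2 * X - X ^ 2)) =
      LaurentPolynomial.C n * LaurentPolynomial.T m ∧
    ∀ (g : ℤ[X]) (s : ℤ) (i : ℕ), (s = 1 ∨ s = -1) → g.coeff 0 = 1 →
      Polynomial.C s * X ^ i * g = (1 - X - X ^ 2) * f - h → BPR.Cn 3 (f + 2) g)) → False

/-! ## Assembly -/

/-- Length at least five. -/
theorem ob45 (hPre : PreS) (h5 : S5S) : Ob45S := by
  intro P L _ _ _ _ _ phi D q f a j eta C k Z mu W hu hn hc hZ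
  obtain ⟨E, H⟩ := hPre P L phi D q f a j eta C (k + 2) Z mu W hu hn hc hZ (by omega)
  exact h5 P L phi D q f E a j eta C (k + 2) Z mu H (by omega)

/-- A 4-cycle has no killer at the designated loads. -/
theorem k4 (hPre : PreS) (hKa : K4aS) (hKb : K4bS) {P L : Type} [Fintype P] [DecidableEq P]
    [AddCommGroup L] [Module.Free ℤ L] [Module.Finite ℤ L] {phi : L →+ (P → ℤ)} {D : AO ℤ L}
    {q f : ℤ[X]} {a : ℝ} {j : ℕ} {eta : L → (RO ℤ)ˣ} {C : Set L} {Z : ZMod (1 + 3) → L}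
    {mu : ZMod (1 + 3) → L →+ ℤ} (W : KcB phi D q f a j eta 1 C) (hdes : KO.Des phi D q a eta)
    (hu : f.coeff 0 = 1) (hn : f.coeff 1 - q.coeff 1 = j + 1) (hc : Cyc phi D eta 1 Z mu)
    (hZ : ∀ i, Z i ∈ C) (T : L) : ¬ Kl D Z T (eta T) := by
  intro hT
  obtain ⟨E, H⟩ := hPre P L phi D q f a j eta C 1 Z mu W hu hn hc hZ le_rfl
  obtain ⟨h1, h2, h3, h4, h5', h, n, m, h6, h7, h8⟩ :=
    hKa P L phi D q f E a j eta C Z mu T H hdes hT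
  subst h1
  refine hKb q f h n m _ _ H.tp H.f0 ?_ h3 h4 h5' h6 h7 h8
  have h9 : q = f - X * E := by rw [← H.eE]; ring
  have h10 : E = (1 + X) * f + (f + 2) := by rw [← h2]; ring
  rw [h9, h10]
  ring

end Pool.Agent.B5.OC
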