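import Mathlib

/-!
# MP_b5021c_nt, board b5: definitions (chapters 0, B - J of H83/Paper.md)

`RO O = O[z,1/z]`, `AO O L = (RO O)[L]` (group algebra of a lattice `L`), `R = RO ℤ`,
`A L = AO ℤ L`, points of the torus:
`z : Circle`, `u : AddChar L Circle`.  Everything else in this file is a definition or a basic
formula for it.
-/

namespace Pool.Agent.B5

open scoped LaurentPolynomial

/-- Rings of coefficients: embedded in `ℂ`, with conjugation, every non-zero element has modulus
at least one (used for `ℤ` and for the Eisenstein integers). -/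
class Coef (O : Type) [CommRing O] where
  emb : O →+* ℂ
  conj : O ≃+* O
  emb_conj : ∀ x, emb (conj x) = (starRingEnd ℂ) (emb x)
  one_le : ∀ x, x ≠ 0 → 1 ≤ ‖emb x‖

instance instCoefInt : Coef ℤ where
  emb := Int.castRingHom ℂ
  conj := RingEquiv.refl ℤ
  emb_conj x := by simp
  one_le x hx := by
    rw [eq_intCast, Complex.norm_intCast]
    exact_mod_cast Int.one_le_abs hx

/-- The coefficient ring `O[z, 1/z]`. -/
abbrev RO (O : Type) [CommRing O] : Type := LaurentPolynomial O

/-- The group algebra of the lattice `L` over `O[z, 1/z]`. -/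
abbrev AO (O : Type) [CommRing O] (L : Type) [AddCommGroup L] : Type := AddMonoidAlgebra (RO O) L

/-- The coefficient ring `ℤ[z, 1/z]`. -/
abbrev R : Type := RO ℤ

/-- The group algebra of the lattice `L` over `R`. -/
abbrev A (L : Type) [AddCommGroup L] : Type := AO ℤ L

/-- The complex group algebra of `L`. -/
abbrev CA (L : Type) [AddCommGroup L] : Type := AddMonoidAlgebra ℂ L

section Inst

variable (L : Type) [AddCommGroup L] [Module.Free ℤ L] [Module.Finite ℤ L]

instance instTF : IsAddTorsionFree L where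
  nsmul_right_injective n hn a b h := by
    have h2 : (n : ℤ) • (a - b) = 0 := by
      have h3 : n • a = n • b := h
      rw [smul_sub, natCast_zsmul, natCast_zsmul, h3, sub_self]
    have h4 := (smul_eq_zero.mp h2).resolve_left (by exact_mod_cast hn)
    exact sub_eq_zero.mp h4

instance instFG : AddMonoid.FG L :=
  (AddGroup.fg_iff_addMonoid_fg).mp (Module.Finite.iff_addGroup_fg.mp inferInstance)

variable (O : Type) [CommRing O] [IsDomain O] [IsPrincipalIdealRing O]

instance instNoethR : IsNoetherianRing (RO O) := by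
  have : Algebra.FiniteType O (RO O) := inferInstance
  exact Algebra.FiniteType.isNoetherianRing O (RO O)

instance instUFDR : UniqueFactorizationMonoid (RO O) :=
  UniqueFactorizationMonoid.of_isLocalization (Submonoid.powers (Polynomial.X : Polynomial O)) (RO O)

instance instNoethA : IsNoetherianRing (AO O L) := by
  have : Algebra.FiniteType (RO O) (AO O L) := inferInstance
  exact Algebra.FiniteType.isNoetherianRing (RO O) (AO O L)

example : IsDomain (AO O L) := inferInstance
example : IsDomain (CA L) := inferInstance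
example : IsDomain (A L) := inferInstance
example : UniqueFactorizationMonoid R := inferInstance

end Inst

section Basic

variable {O : Type} [CommRing O] [Coef O] {L : Type} [AddCommGroup L]

/-! ## Points and evaluations -/

/-- Evaluation of a coefficient at `z` on the unit circle. -/
noncomputable def evR (z : Circle) : RO O →+* ℂ :=
  LaurentPolynomial.eval₂ (Coef.emb : O →+* ℂ) (Circle.toUnits z)

/-- Evaluation of a coefficient at a complex number (meaningful for `z ≠ 0`). -/
noncomputable def evL (z : ℂ) (Q : RO O) : ℂ := Q.coeff.sum fun n c => Coef.emb c * z ^ n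

/-- `q^#(z) = conj q(1/z)`. -/
noncomputable def rsh : RO O →+* RO O :=
  (LaurentPolynomial.invert (R := O)).toRingEquiv.toRingHom.comp
    (AddMonoidAlgebra.mapRingHom ℤ (Coef.conj : O ≃+* O).toRingHom)

/-- Specialisation of the coefficients at `z`. -/
noncomputable def spec (z : Circle) : AO O L →+* CA L := AddMonoidAlgebra.mapRingHom L (evR z)

/-- Evaluation of an element of `ℂ[L]` at a point of the torus. -/
noncomputable def evC (u : AddChar L Circle) : CA L →+* ℂ :=
  AddMonoidAlgebra.liftNCRingHom (RingHom.id ℂ) (Circle.coeHom.comp u.toMonoidHom)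
    (fun _ _ => Commute.all _ _)

/-- Evaluation of an element of `R[L]` at `(z, u)`. -/
noncomputable def ev (z : Circle) (u : AddChar L Circle) : AO O L →+* ℂ := (evC u).comp (spec z)

/-- `u s^lam`, for `s` on the circle. -/
noncomputable def twist (u : AddChar L Circle) (lam : L →+ ℤ) (s : Circle) : AddChar L Circle where
  toFun a := u a * s ^ (lam a)
  map_zero_eq_one' := by simp
  map_add_eq_mul' a b := by
    rw [AddChar.map_add_eq_mul, map_add, zpow_add]; exact mul_mul_mul_comm _ _ _ _

/-- The polynomial `s ↦ p(u s^lam)` (the exponents are the natural numbers `lam a`; used for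
`lam ≥ 0` on the support of `p`). -/
noncomputable def sl (u : AddChar L Circle) (lam : L →+ ℤ) (p : CA L) : Polynomial ℂ :=
  p.coeff.sum fun a c => Polynomial.monomial (lam a).toNat (c * (u a : ℂ))

/-- `p(u ∏ t_i^(mu_i))` (used for `mu_i ≥ 0` on the support of `p`). -/
noncomputable def mev {ι : Type} [Fintype ι] (u : AddChar L Circle) (mu : ι → L →+ ℤ) (t : ι → ℂ)
    (p : CA L) : ℂ :=
  p.coeff.sum fun a c => c * (u a : ℂ) * ∏ i, t i ^ (mu i a).toNat

/-! ## Supports, gradings, faces -/

/-- `lam > 0` on the support minus `0`. -/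
def Pos {K : Type} [Semiring K] (lam : L →+ ℤ) (G : AddMonoidAlgebra K L) : Prop :=
  ∀ a ∈ G.coeff.support, a ≠ 0 → 0 < lam a

/-- `lam ≥ 0` on the support. -/
def Nn {K : Type} [Semiring K] (lam : L →+ ℤ) (G : AddMonoidAlgebra K L) : Prop :=
  ∀ a ∈ G.coeff.support, 0 ≤ lam a

/-- The part of `G` of `lam`-degree `c`. -/
noncomputable def gpart {K : Type} [Semiring K] (lam : L →+ ℤ) (c : ℤ) (G : AddMonoidAlgebra K L) :
    AddMonoidAlgebra K L :=
  AddMonoidAlgebra.ofCoeff (G.coeff.filter fun a => lam a = c)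

/-- The rank of the group generated by a set. -/
noncomputable def rk (S : Set L) : ℕ := Module.finrank ℤ (Submodule.span ℤ S)

/-- The support as a set. -/
def supp {K : Type} [Semiring K] (G : AddMonoidAlgebra K L) : Set L := {a | G.coeff a ≠ 0}

/-- No two elements of the set are positively proportional. -/
def Thin (S : Set L) : Prop :=
  ∀ a ∈ S, ∀ b ∈ S, ∀ m n : ℕ, 0 < m → 0 < n → m • a = n • b → a = b

/-- `b` spans an (exposed) extreme ray of the cone of `G`, and is the only exponent on it. -/
def Ray {K : Type} [Semiring K] (G : AddMonoidAlgebra K L) (b : L) : Prop :=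
  b ∈ supp G ∧ b ≠ 0 ∧ ∃ lam : L →+ ℤ, lam b = 0 ∧ ∀ a ∈ supp G, a ≠ 0 → a ≠ b → 0 < lam a

/-! ## Stability -/

/-- Stable elements of `ℂ[L]`. -/
def StableC (p : CA L) : Prop :=
  p.coeff 0 ≠ 0 ∧ ∃ lam : L →+ ℤ, Pos lam p ∧
    ∀ (u : AddChar L Circle) (s : ℂ), ‖s‖ < 1 → (sl u lam p).eval s ≠ 0

/-- Stable elements of `R[L]`. -/
def Stable (G : AO O L) : Prop :=
  G.coeff 0 ≠ 0 ∧ ∃ lam : L →+ ℤ, Pos lam G ∧
    ∀ z : Circle, evR z (G.coeff 0) ≠ 0 →
      ∀ (u : AddChar L Circle) (s : ℂ), ‖s‖ < 1 → (sl u lam (spec z G)).eval s ≠ 0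

/-- Full with respect to `lam`: all zeros of `s ↦ G(z, u s^lam)` are unimodular. -/
def FullAt (lam : L →+ ℤ) (G : AO O L) : Prop :=
  G.coeff 0 ≠ 0 ∧ Pos lam G ∧ ∀ z : Circle, evR z (G.coeff 0) ≠ 0 →
      ∀ (u : AddChar L Circle) (s : ℂ), (sl u lam (spec z G)).eval s = 0 → ‖s‖ = 1

/-! ## Algebra -/

/-- The constant `c`. -/
noncomputable def cst {O : Type} [CommRing O] {L : Type} [AddCommGroup L] (c : RO O) : AO O L := AddMonoidAlgebra.single 0 c

/-- The monomial `w^a`. -/
noncomputable def mon {O : Type} [CommRing O] {L : Type} [AddCommGroup L] (a : L) : AO O L := AddMonoidAlgebra.single a 1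

/-- `G^#(z,w) = G(1/z, 1/w)`. -/
noncomputable def sharp : AO O L →+* AO O L :=
  (AddMonoidAlgebra.mapDomainRingHom (RO O) (negAddMonoidHom : L →+ L)).comp
    (AddMonoidAlgebra.mapRingHom L rsh)

/-- Unitary: `G^# ~ G`. -/
def Unitary (G : AO O L) : Prop := Associated (sharp G) G

/-- `G` really depends on `w`. -/
def Wdep {O : Type} [CommRing O] {L : Type} [AddCommGroup L] (G : AO O L) : Prop := ∃ a ∈ supp G, ∃ b ∈ supp G, a ≠ b

/-- No non-unit of `R` divides `G`. -/
def Prim {O : Type} [CommRing O] {L : Type} [AddCommGroup L] (G : AO O L) : Prop := ∀ c : RO O, cst c ∣ G → IsUnit c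

/-! ## Mahler measure and the two classes -/

/-- The Mahler measure (of a non-zero `Q`; by convention `M 0 = 1`). -/
noncomputable def M (Q : RO O) : ℝ :=
  Real.exp (Real.circleAverage (fun z => Real.log ‖evL z Q‖) 0 1)

/-- Class `V(N)`: `T^n q`, `|q(0)| = N`, `q` zero-free in the open disc. -/
def ClassV (N : ℝ) (Q : RO O) : Prop :=
  1 ≤ N ∧ ∃ (n : ℤ) (q : Polynomial O), Q = LaurentPolynomial.T n * Polynomial.toLaurent q ∧
    ‖(Coef.emb (q.coeff 0) : ℂ)‖ = N ∧ ∀ z : ℂ, ‖z‖ < 1 → (q.map Coef.emb).eval z ≠ 0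

/-- Class `P(θ)`: `T^n q`, `|q(0)| = 1`, `q` has exactly one zero `w` in the open disc, `|w| = 1/θ`. -/
def ClassP (θ : ℝ) (Q : RO O) : Prop :=
  1 < θ ∧ ∃ (n : ℤ) (q : Polynomial O), Q = LaurentPolynomial.T n * Polynomial.toLaurent q ∧
    ‖(Coef.emb (q.coeff 0) : ℂ)‖ = 1 ∧ ∃ w : ℂ, ‖w‖ = θ⁻¹ ∧
    (q.map Coef.emb).roots.filter (fun x => ‖x‖ < 1) = {w}

/-! ## Kernels, closings -/

/-- The kernel of a functional, as a sublattice. -/
def Ker (k : L →+ ℤ) : Submodule ℤ L := LinearMap.ker k.toIntLinearMap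

theorem mem_Ker {k : L →+ ℤ} {a : L} : a ∈ Ker k ↔ k a = 0 := Iff.rfl

/-- The inclusion of a sublattice. -/
def incl (K : Submodule ℤ L) : K →+ L := K.subtype.toAddMonoidHom

/-- The part of `G` with exponents in the sublattice `K`, as an element of its group algebra. -/
noncomputable def res {k : Type} [Semiring k] (K : Submodule ℤ L) (G : AddMonoidAlgebra k L) :
    AddMonoidAlgebra k K :=
  AddMonoidAlgebra.ofCoeff (G.coeff.comapDomain (fun a : K => (a : L))
    (fun _ _ _ _ h => Subtype.ext h))

/-- `K` is saturated in `L`. -/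
def Sat (K : Submodule ℤ L) : Prop := ∀ (n : ℤ) (a : L), n ≠ 0 → n • a ∈ K → a ∈ K

/-- The projection `a ↦ a - k(a) S` onto `Ker k` along `S`, where `k S = 1`. -/
def prj (k : L →+ ℤ) (S : L) (h : k S = 1) : L →+ Ker k where
  toFun a := ⟨a - k a • S, by rw [mem_Ker, map_sub, map_zsmul, h]; simp⟩
  map_zero' := by
    apply Subtype.ext
    change (0 : L) - k 0 • S = 0
    rw [map_zero, zero_smul, sub_zero]
  map_add' a b := by
    apply Subtype.ext
    change a + b - k (a + b) • S = (a - k a • S) + (b - k b • S)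
    rw [map_add, add_smul]; abel

/-- Closing `w^S = eta`: the ring homomorphism `R[L] → R[Ker k]`, `w^a ↦ eta^(k a) w^(a - k(a) S)`,
where `k S = 1`. -/
noncomputable def cl {O : Type} [CommRing O] {L : Type} [AddCommGroup L] (k : L →+ ℤ) (S : L)
    (h : k S = 1) (eta : (RO O)ˣ) : AO O L →+* AO O (Ker k) :=
  AddMonoidAlgebra.liftNCRingHom
    (AddMonoidAlgebra.singleZeroRingHom (R := RO O) (M := Ker k))
    { toFun := fun a => AddMonoidAlgebra.single (prj k S h a.toAdd) ((eta ^ (k a.toAdd) : (RO O)ˣ) : RO O)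
      map_one' := by
        rw [toAdd_one, map_zero (prj k S h), map_zero k, zpow_zero, Units.val_one]
        rfl
      map_mul' := fun a b => by
        rw [AddMonoidAlgebra.single_mul_single, toAdd_mul, map_add (prj k S h), map_add k, zpow_add,
          Units.val_mul] }
    (fun _ _ => Commute.all _ _)

/-- The completion `G + y G^#` in one more variable. -/
noncomputable def compl (G : AO O L) : AO O (L × ℤ) :=
  AddMonoidAlgebra.mapDomainRingHom (RO O) (AddMonoidHom.inl L ℤ) G +
    mon ((0 : L), (1 : ℤ)) * AddMonoidAlgebra.mapDomainRingHom (RO O) (AddMonoidHom.inl L ℤ) (sharp G)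

/-! ## Basic formulas -/

theorem evC_apply (u : AddChar L Circle) (p : CA L) :
    evC u p = p.coeff.sum fun a c => c * (u a : ℂ) := by
  rfl

theorem spec_coeff (z : Circle) (G : AO O L) (a : L) :
    (spec z G).coeff a = evR z (G.coeff a) := by
  simp [spec]

theorem prj_coe (k : L →+ ℤ) (S : L) (h : k S = 1) (a : L) :
    ((prj k S h a : Ker k) : L) = a - k a • S := rfl

theorem res_coeff {k : Type} [Semiring k] (K : Submodule ℤ L) (G : AddMonoidAlgebra k L) (a : K) :
    (res K G).coeff a = G.coeff (a : L) := rfl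

theorem incl_apply (K : Submodule ℤ L) (a : K) : incl K a = (a : L) := rfl

theorem sharp_coeff' (G : AO O L) (a : L) :
    (sharp G).coeff a = rsh (G.coeff (-a)) := by
  have h : Function.Injective (negAddMonoidHom : L →+ L) := neg_injective
  have h2 := Finsupp.mapDomain_apply h (AddMonoidAlgebra.mapRingHom L rsh G).coeff (-a)
  simp only [negAddMonoidHom_apply, neg_neg] at h2
  exact h2.trans (by simp)

theorem rsh_int (q : R) : rsh q = LaurentPolynomial.invert q := by
  have h : AddMonoidAlgebra.mapRingHom ℤ (Coef.conj : ℤ ≃+* ℤ).toRingHom q = q := by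
    apply AddMonoidAlgebra.ext
    apply Finsupp.ext
    intro a
    simp [Coef.conj]
  change LaurentPolynomial.invert (AddMonoidAlgebra.mapRingHom ℤ (Coef.conj : ℤ ≃+* ℤ).toRingHom q) = _
  rw [h]

theorem sharp_coeff (G : A L) (a : L) :
    (sharp G).coeff a = LaurentPolynomial.invert (G.coeff (-a)) := by
  rw [sharp_coeff', rsh_int]

theorem emb_inj : Function.Injective (Coef.emb : O →+* ℂ) := by
  rw [injective_iff_map_eq_zero]
  intro x hx
  by_contra h
  have := Coef.one_le x h
  rw [hx, norm_zero] at this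
  linarith

theorem cl_single {O : Type} [CommRing O] {L : Type} [AddCommGroup L] (k : L →+ ℤ) (S : L)
    (h : k S = 1) (eta : (RO O)ˣ) (a : L) (q : RO O) :
    cl k S h eta (AddMonoidAlgebra.single a q) =
      AddMonoidAlgebra.single (prj k S h a) (q * ((eta ^ (k a) : (RO O)ˣ) : RO O)) := by
  simp [cl, AddMonoidAlgebra.single_mul_single]

end Basic

/-! ## Port systems -/

section Ports

variable {O : Type} [CommRing O] [Coef O] {P : Type} [Fintype P] [DecidableEq P] {L : Type}
  [AddCommGroup L]

/-- The coordinate functional of the port `i`. -/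
def co (phi : L →+ (P → ℤ)) (i : P) : L →+ ℤ := (Pi.evalAddMonoidHom (fun _ : P => ℤ) i).comp phi

/-- `a` is a subset of the ports. -/
def Bin (phi : L →+ (P → ℤ)) (a : L) : Prop := ∀ i, phi a i = 0 ∨ phi a i = 1

/-- The class `DD` of the paper: multi-affine, stable, unitary, irreducible, full-dimensional. -/
structure DD (phi : L →+ (P → ℤ)) (D : AO O L) : Prop where
  inj : Function.Injective phi
  bin : ∀ a ∈ supp D, Bin phi a
  st : Stable D
  un : Unitary D
  irr : Irreducible D
  spn : rk (supp D) = Module.finrank ℤ L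

/-- Exponents which are subsets of `I ∪ O` up to a shift by `1_I` : the set `W(I,O)`. -/
def WW (phi : L →+ (P → ℤ)) (I O : Finset P) (a : L) : Prop :=
  (∀ j ∈ O, phi a j = 0 ∨ phi a j = 1) ∧
  ((∀ i ∈ I, phi a i = 0 ∨ phi a i = 1) ∨ (∀ i ∈ I, phi a i = 0 ∨ phi a i = -1)) ∧
  (∀ j, j ∉ I → j ∉ O → phi a j = 0)

/-- Multi-affine polynomials as functions on subsets. -/
noncomputable def mae (p : Finset P → ℂ) (w : P → ℂ) : ℂ := ∑ T : Finset P, p T * ∏ i ∈ T, w i

/-- The coefficient of `w^T` of a multi-affine `D`, at `z`. -/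
noncomputable def cfz (phi : L →+ (P → ℤ)) (z : Circle) (D : AO O L) (T : Finset P) : ℂ :=
  D.coeff.sum fun a q => if phi a = (fun i => if i ∈ T then 1 else 0) then evR z q else 0

end Ports

end Pool.Agent.B5
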