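import Pool.Agent.Lib.MP_b5021c_nt.Defs

/-!
# Board b5: statements of the rows of chapters A (Mahler measure), B (stability), C (division)
-/

namespace Pool.Agent.B5

open scoped LaurentPolynomial
open Polynomial

/-! ## Chapter A: complex polynomials in one variable -/

/-- Zero-free in the open unit disc. -/
def ZF (p : ℂ[X]) : Prop := ∀ s : ℂ, ‖s‖ < 1 → p.eval s ≠ 0

/-- (A3) coefficients of a zero-free polynomial. -/
def A3aS : Prop := ∀ (p : ℂ[X]) (m : ℕ), p.natDegree ≤ m → ZF p →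
  ∀ c, ‖p.coeff c‖ ≤ (m.choose c : ℝ) * ‖p.coeff 0‖

/-- (A3) lower bound for a zero-free polynomial. -/
def A3bS : Prop := ∀ (p : ℂ[X]) (m : ℕ), p.natDegree ≤ m → ZF p →
  ∀ s : ℂ, ‖s‖ ≤ 1 → ‖p.coeff 0‖ * (1 - ‖s‖) ^ m ≤ ‖p.eval s‖

/-- (A2) for complex polynomials (concavity of log). -/
def A2cS : Prop := ∀ (ι : Type) [Fintype ι] (p : ι → ℂ[X]) (q : ℂ[X]) (c : ℝ), q ≠ 0 → 0 < c →
  (∀ z : ℂ, ‖z‖ = 1 → ∑ i, ‖(p i).eval z‖ ≤ c * ‖q.eval z‖) →
    ∑ i, (p i).mahlerMeasure ≤ c * q.mahlerMeasure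

/-- (A6) the Mahler measure is at least the modulus of the lowest coefficient. -/
def A6S : Prop := ∀ p : ℂ[X], ‖p.trailingCoeff‖ ≤ p.mahlerMeasure

/-- (A7) Mahler measure of a zero-free polynomial. -/
def A7S : Prop := ∀ p : ℂ[X], ZF p → p.mahlerMeasure = ‖p.coeff 0‖

/-- (A4) Schwarz-Pick at the origin, for a quotient of polynomials. -/
def A4S : Prop := ∀ x y : ℂ[X], (∀ s : ℂ, ‖s‖ < 1 → ‖y.eval s‖ ≤ ‖x.eval s‖) →
  ‖x.coeff 0 * y.coeff 1 - y.coeff 0 * x.coeff 1‖ ≤ ‖x.coeff 0‖ ^ 2 - ‖y.coeff 0‖ ^ 2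

/-- (A5) growth of a function with real part at least `1/2`. -/
def A5S : Prop := ∀ (x y : ℂ[X]) (e : ℂ), ‖e‖ = 1 →
  (∀ s : ℂ, ‖s‖ < 1 → ‖y.eval s‖ ≤ ‖x.eval s‖) →
  (∀ s : ℂ, ‖s‖ < 1 → x.eval s + e * y.eval s ≠ 0) →
  ∀ s : ℂ, ‖s‖ < 1 → ‖x.eval s‖ * (1 - ‖s‖) ≤
    (2 * (‖x.coeff 0‖ / ‖x.coeff 0 + e * y.coeff 0‖) + 2) * ‖x.eval s + e * y.eval s‖

/-- (C0) division of polynomials in one variable, all zeros of `u` unimodular. -/
def C0S : Prop := ∀ u h : ℂ[X], u ≠ 0 → (∀ s : ℂ, u.eval s = 0 → ‖s‖ = 1) →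
  (∃ C : ℝ, ∀ s : ℂ, ‖s‖ = 1 → ‖h.eval s‖ ≤ C * ‖u.eval s‖) → u ∣ h

/-! ## Chapter A: the ring `RO O = O[z, 1/z]` -/

/-- Units of `R`. -/
def UnitRS : Prop := ∀ (O : Type) [CommRing O] [IsDomain O] [IsPrincipalIdealRing O] [Coef O] (c : RO O),
  IsUnit c ↔ ∃ (n : ℤ) (u : O), IsUnit u ∧ c = LaurentPolynomial.C u * LaurentPolynomial.T n

/-- Values on the circle: `evL` and `evR` agree; a unit has modulus one. -/
def EvRS : Prop := ∀ (O : Type) [CommRing O] [IsDomain O] [IsPrincipalIdealRing O] [Coef O],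
  (∀ (z : Circle) (p : RO O), evL (z : ℂ) p = evR z p) ∧
  (∀ (z : Circle) (c : RO O), IsUnit c → ‖evR z c‖ = 1) ∧
  (∀ (z : Circle) (p : RO O), evR z (rsh p) = (starRingEnd ℂ) (evR z p)) ∧
  (∀ p : RO O, Continuous fun z : Circle => evR z p)

/-- A non-zero element of `R` has finitely many zeros on the circle. -/
def ZfinS : Prop := ∀ (O : Type) [CommRing O] [IsDomain O] [IsPrincipalIdealRing O] [Coef O],
  ∀ p : RO O, p ≠ 0 → {z : Circle | evR z p = 0}.Finite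

/-- `M` is multiplicative, at least one, one for units. -/
def MmulS : Prop := ∀ (O : Type) [CommRing O] [IsDomain O] [IsPrincipalIdealRing O] [Coef O],
  (∀ p q : RO O, p ≠ 0 → q ≠ 0 → M (p * q) = M p * M q) ∧ (∀ p : RO O, 1 ≤ M p) ∧
  (∀ c : RO O, IsUnit c → M c = 1)

/-- (A1) -/
def A1S : Prop := ∀ (O : Type) [CommRing O] [IsDomain O] [IsPrincipalIdealRing O] [Coef O],
  ∀ p : RO O, p ≠ 0 → (∀ z : Circle, ‖evR z p‖ ≤ 1) → IsUnit p

/-- `M = 1` and no zero on the circle: unit. -/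
def M1S : Prop := ∀ (O : Type) [CommRing O] [IsDomain O] [IsPrincipalIdealRing O] [Coef O],
  ∀ p : RO O, p ≠ 0 → M p = 1 → (∀ z : Circle, evR z p ≠ 0) → IsUnit p

/-- (A2) for `R`. -/
def A2S : Prop := ∀ (O : Type) [CommRing O] [IsDomain O] [IsPrincipalIdealRing O] [Coef O]
  (ι : Type) [Fintype ι] (p : ι → RO O) (q : RO O) (c : ℝ), q ≠ 0 → (∀ i, p i ≠ 0) →
  0 < c → (∀ z : Circle, ∑ i, ‖evR z (p i)‖ ≤ c * ‖evR z q‖) → ∑ i, M (p i) ≤ c * M q

/-- If `‖p‖ ≥ c ‖q‖` on the circle then `M p ≥ c M q`. -/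
def MmonoS : Prop := ∀ (O : Type) [CommRing O] [IsDomain O] [IsPrincipalIdealRing O] [Coef O]
  (p q : RO O) (c : ℝ), p ≠ 0 → q ≠ 0 → 0 < c →
  (∀ z : Circle, c * ‖evR z q‖ ≤ ‖evR z p‖) → c * M q ≤ M p

/-- Elements vanishing at a common point of the circle have a common non-unit divisor. -/
def KerEvS : Prop := ∀ (O : Type) [CommRing O] [IsDomain O] [IsPrincipalIdealRing O] [Coef O]
  (z : Circle) (s : Finset (RO O)), (∃ q ∈ s, q ≠ 0) → (∀ q ∈ s, evR z q = 0) →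
  ∃ c : RO O, ¬ IsUnit c ∧ ∀ q ∈ s, c ∣ q

/-! ## Chapter B: slices -/

/-- Slices are multiplicative. -/
def SlMulS : Prop := ∀ (L : Type) [AddCommGroup L] [Module.Free ℤ L] [Module.Finite ℤ L]
  (u : AddChar L Circle) (lam : L →+ ℤ) (p q : CA L), Nn lam p → Nn lam q →
    sl u lam (p * q) = sl u lam p * sl u lam q ∧ Nn lam (p * q)

/-- Values of slices on the circle, coefficients of slices. -/
def SlEvalS : Prop := ∀ (L : Type) [AddCommGroup L] [Module.Free ℤ L] [Module.Finite ℤ L]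
  (u : AddChar L Circle) (lam : L →+ ℤ) (p : CA L), Nn lam p →
    (∀ s : Circle, (sl u lam p).eval (s : ℂ) = evC (twist u lam s) p) ∧
    (∀ n : ℕ, (sl u lam p).coeff n = evC u (gpart lam n p)) ∧
    (∀ s : ℂ, (sl u lam p).eval s = mev (ι := Unit) u (fun _ => lam) (fun _ => s) p)

/-- A Laurent polynomial which vanishes on the torus (outside finitely many `z`) is zero. -/
def DensS : Prop := ∀ (O : Type) [CommRing O] [IsDomain O] [IsPrincipalIdealRing O] [Coef O]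
  (L : Type) [AddCommGroup L] [Module.Free ℤ L] [Module.Finite ℤ L],
  (∀ p : CA L, (∀ u : AddChar L Circle, evC u p = 0) → p = 0) ∧
  (∀ H : AO O L, {z : Circle | ¬ ∀ u : AddChar L Circle, ev z u H = 0}.Finite → H = 0)

/-- `G^#` is the complex conjugate on the torus; `#` is an involution. -/
def SharpS : Prop := ∀ (O : Type) [CommRing O] [IsDomain O] [IsPrincipalIdealRing O] [Coef O]
  (L : Type) [AddCommGroup L] [Module.Free ℤ L] [Module.Finite ℤ L] (G : AO O L),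
  (∀ (z : Circle) (u : AddChar L Circle), ev z u (sharp G) = (starRingEnd ℂ) (ev z u G)) ∧
  sharp (sharp G) = G ∧ (Irreducible G → Irreducible (sharp G)) ∧ (Prim G → Prim (sharp G))

/-- Characters and functionals extend from saturated sublattices. -/
def ExtS : Prop := ∀ (L : Type) [AddCommGroup L] [Module.Free ℤ L] [Module.Finite ℤ L]
  (K : Submodule ℤ L), Sat K →
    (∀ u : AddChar K Circle, ∃ u' : AddChar L Circle, ∀ a : K, u' (a : L) = u a) ∧
    (∀ k : K →+ ℤ, ∃ k' : L →+ ℤ, ∀ a : K, k' (a : L) = k a)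

/-! ## Chapter B: stability -/

/-- Two-parameter principle (continuity of zeros through the maximum principle). -/
def HurS : Prop := ∀ F : Polynomial (Polynomial ℂ),
  (∀ s t : ℂ, ‖s‖ < 1 → ‖t‖ = 1 → (F.eval (C t)).eval s ≠ 0) →
  (∀ t : ℂ, ‖t‖ ≤ 1 → (F.eval (C t)).eval 0 ≠ 0) →
  ∀ s t : ℂ, ‖s‖ < 1 → ‖t‖ ≤ 1 → (F.eval (C t)).eval s ≠ 0

/-- (B1, first half) the multi-parameter lemma with the extra parameter `s`. -/
def Multi1S : Prop := ∀ (L : Type) [AddCommGroup L] [Module.Free ℤ L] [Module.Finite ℤ L]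
  (p : CA L) (lam : L →+ ℤ), p.coeff 0 ≠ 0 → Pos lam p →
    (∀ (u : AddChar L Circle) (s : ℂ), ‖s‖ < 1 → (sl u lam p).eval s ≠ 0) →
    ∀ (ι : Type) [Fintype ι] (mu : ι → L →+ ℤ), (∀ i, Nn (mu i) p) →
      ∀ (u : AddChar L Circle) (s : ℂ) (t : ι → ℂ), ‖s‖ < 1 → (∀ i, ‖t i‖ ≤ 1) →
        mev (ι := Option ι) u (fun o => o.elim lam mu) (fun o => o.elim s t) p ≠ 0

/-- (B1) THE MULTI-PARAMETER LEMMA. -/
def MultiS : Prop := ∀ (L : Type) [AddCommGroup L] [Module.Free ℤ L] [Module.Finite ℤ L]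
  (p : CA L), StableC p → ∀ (ι : Type) [Fintype ι] (mu : ι → L →+ ℤ), (∀ i, Nn (mu i) p) →
    (∀ a ∈ p.coeff.support, a ≠ 0 → 0 < ∑ i, mu i a) →
      ∀ (u : AddChar L Circle) (t : ι → ℂ), (∀ i, ‖t i‖ < 1) → mev u mu t p ≠ 0

/-- Relation between `Stable` and `StableC`. -/
def StSpecS : Prop := ∀ (O : Type) [CommRing O] [IsDomain O] [IsPrincipalIdealRing O] [Coef O]
  (L : Type) [AddCommGroup L] [Module.Free ℤ L] [Module.Finite ℤ L] (G : AO O L),
  (Stable G → ∀ z : Circle, evR z (G.coeff 0) ≠ 0 → StableC (spec z G)) ∧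
  (G.coeff 0 ≠ 0 → (∃ lam : L →+ ℤ, Pos lam G) →
    (∀ z : Circle, evR z (G.coeff 0) ≠ 0 → StableC (spec z G)) → Stable G) ∧
  (Stable G → ∀ lam : L →+ ℤ, Pos lam G → ∀ z : Circle, evR z (G.coeff 0) ≠ 0 →
      ∀ (u : AddChar L Circle) (s : ℂ), ‖s‖ < 1 → (sl u lam (spec z G)).eval s ≠ 0)

/-- Faces and restrictions of stable elements are stable. -/
def FaceS : Prop := ∀ (O : Type) [CommRing O] [IsDomain O] [IsPrincipalIdealRing O] [Coef O]
  (L : Type) [AddCommGroup L] [Module.Free ℤ L] [Module.Finite ℤ L] (G : AO O L)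
  (lam : L →+ ℤ), Stable G → Nn lam G → Stable (gpart lam 0 G) ∧ Stable (res (Ker lam) G)

/-- Restriction of a stable element to a saturated sublattice containing its support. -/
def ResStS : Prop := ∀ (O : Type) [CommRing O] [IsDomain O] [IsPrincipalIdealRing O] [Coef O]
  (L : Type) [AddCommGroup L] [Module.Free ℤ L] [Module.Finite ℤ L] (G : AO O L)
  (K : Submodule ℤ L), Sat K → (∀ a ∈ supp G, a ∈ K) → (Stable G ↔ Stable (res K G))

/-- (B2) graded parts are bounded by the face. -/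
def B2S : Prop := ∀ (O : Type) [CommRing O] [IsDomain O] [IsPrincipalIdealRing O] [Coef O]
  (L : Type) [AddCommGroup L] [Module.Free ℤ L] [Module.Finite ℤ L] (G : AO O L)
  (lam : L →+ ℤ), Stable G → Nn lam G → ∃ C : ℝ, 0 < C ∧ ∀ (c : ℤ) (z : Circle) (u : AddChar L Circle),
    ‖ev z u (gpart lam c G)‖ ≤ C * ‖ev z u (gpart lam 0 G)‖

/-- (B2) coefficients are bounded by the constant coefficient, with constant 1 on the rays. -/
def B2cS : Prop := ∀ (O : Type) [CommRing O] [IsDomain O] [IsPrincipalIdealRing O] [Coef O]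
  (L : Type) [AddCommGroup L] [Module.Free ℤ L] [Module.Finite ℤ L] (G : AO O L),
  Stable G → (∀ a : L, ∃ C : ℝ, ∀ z : Circle, ‖evR z (G.coeff a)‖ ≤ C * ‖evR z (G.coeff 0)‖) ∧
    (∀ b : L, Ray G b → ∀ z : Circle, ‖evR z (G.coeff b)‖ ≤ ‖evR z (G.coeff 0)‖)

/-- (B3) -/
def B3S : Prop := ∀ (O : Type) [CommRing O] [IsDomain O] [IsPrincipalIdealRing O] [Coef O]
  (L : Type) [AddCommGroup L] [Module.Free ℤ L] [Module.Finite ℤ L] (G : AO O L),
  Stable G → Prim G → ∀ z : Circle, evR z (G.coeff 0) ≠ 0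

/-- The constant coefficient of a product (pointed supports). -/
def Coeff0S : Prop := ∀ (O : Type) [CommRing O] [IsDomain O] [IsPrincipalIdealRing O] [Coef O]
  (L : Type) [AddCommGroup L] [Module.Free ℤ L] [Module.Finite ℤ L]
  (G H : AO O L) (lam : L →+ ℤ), Pos lam G → Pos lam H →
    (G * H).coeff 0 = G.coeff 0 * H.coeff 0 ∧ Pos lam (G * H)

/-- Minimal degrees: a bound for `G H` is a bound for `G` if `0` is in the support of `H`. -/
def MinS : Prop := ∀ (O : Type) [CommRing O] [IsDomain O] [IsPrincipalIdealRing O] [Coef O]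
  (L : Type) [AddCommGroup L] [Module.Free ℤ L] [Module.Finite ℤ L]
  (G H : AO O L), G ≠ 0 → H.coeff 0 ≠ 0 → ∀ (k : L →+ ℤ) (m : ℤ), (∀ a ∈ supp (G * H), m ≤ k a) →
    ∀ a ∈ supp G, m ≤ k a

/-- Units of `AO O L`. -/
def UnitAS : Prop := ∀ (O : Type) [CommRing O] [IsDomain O] [IsPrincipalIdealRing O] [Coef O]
  (L : Type) [AddCommGroup L] [Module.Free ℤ L] [Module.Finite ℤ L] (G : AO O L),
  IsUnit G ↔ ∃ (a : L) (c : RO O), IsUnit c ∧ G = AddMonoidAlgebra.single a c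

/-- (B4) factors of stable elements. -/
def B4S : Prop := ∀ (O : Type) [CommRing O] [IsDomain O] [IsPrincipalIdealRing O] [Coef O]
  (L : Type) [AddCommGroup L] [Module.Free ℤ L] [Module.Finite ℤ L]
  (V G H : AO O L), Stable V → V = G * H → ∃ b : L, Stable (mon b * G) ∧ Stable (mon (-b) * H) ∧
    ∀ lam : L →+ ℤ, (Nn lam V → Nn lam (mon b * G) ∧ Nn lam (mon (-b) * H)) ∧
      (Pos lam V → Pos lam (mon b * G) ∧ Pos lam (mon (-b) * H))

/-- (B5a) the constant coefficient after closing an extreme ray. -/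
def B5aS : Prop := ∀ (O : Type) [CommRing O] [IsDomain O] [IsPrincipalIdealRing O] [Coef O]
  (L : Type) [AddCommGroup L] [Module.Free ℤ L] [Module.Finite ℤ L]
  (D : AO O L) (k : L →+ ℤ) (S : L) (h : k S = 1) (eta : (RO O)ˣ) (lam : L →+ ℤ),
    lam S = 0 → (∀ a ∈ supp D, a ≠ 0 → a ≠ S → 0 < lam a) →
      (cl k S h eta D).coeff 0 = D.coeff 0 + (eta : RO O) * D.coeff S ∧
      Pos (lam.comp (incl (Ker k))) (cl k S h eta D)

/-- (B5) closing an extreme ray. -/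
def B5S : Prop := ∀ (O : Type) [CommRing O] [IsDomain O] [IsPrincipalIdealRing O] [Coef O]
  (L : Type) [AddCommGroup L] [Module.Free ℤ L] [Module.Finite ℤ L]
  (D : AO O L) (k : L →+ ℤ) (S : L) (h : k S = 1) (eta : (RO O)ˣ) (lam : L →+ ℤ),
    Stable D → Nn k D → lam S = 0 → (∀ a ∈ supp D, a ≠ 0 → a ≠ S → 0 < lam a) →
      D.coeff 0 + (eta : RO O) * D.coeff S ≠ 0 → Stable (cl k S h eta D)

/-- (B5u) closing preserves unitarity. -/
def B5uS : Prop := ∀ (O : Type) [CommRing O] [IsDomain O] [IsPrincipalIdealRing O] [Coef O]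
  (L : Type) [AddCommGroup L] [Module.Free ℤ L] [Module.Finite ℤ L]
  (D : AO O L) (k : L →+ ℤ) (S : L) (h : k S = 1) (eta : (RO O)ˣ), Unitary D → Unitary (cl k S h eta D)

/-! ## Chapter C: division -/

/-- (C1a) pseudo-division. -/
def C1aS : Prop := ∀ (O : Type) [CommRing O] [IsDomain O] [IsPrincipalIdealRing O] [Coef O]
  (L : Type) [AddCommGroup L] [Module.Free ℤ L] [Module.Finite ℤ L]
  (G H : AO O L) (lam : L →+ ℤ), G.coeff 0 ≠ 0 → Pos lam G → Nn lam H →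
    {z : Circle | ¬ ∀ u : AddChar L Circle, sl u lam (spec z G) ∣ sl u lam (spec z H)}.Finite →
      ∃ n : ℕ, G ∣ cst (G.coeff 0 ^ n) * H

/-- (C1b) Gauss. -/
def C1bS : Prop := ∀ (O : Type) [CommRing O] [IsDomain O] [IsPrincipalIdealRing O] [Coef O]
  (L : Type) [AddCommGroup L] [Module.Free ℤ L] [Module.Finite ℤ L]
  (G H : AO O L) (c : RO O), Prim G → c ≠ 0 → G ∣ cst c * H → G ∣ H

/-- Products of primitive elements are primitive; irreducible and `w`-dependent implies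
primitive. -/
def PrimS : Prop := ∀ (O : Type) [CommRing O] [IsDomain O] [IsPrincipalIdealRing O] [Coef O]
  (L : Type) [AddCommGroup L] [Module.Free ℤ L] [Module.Finite ℤ L]
  (G H : AO O L), (Prim G → Prim H → Prim (G * H)) ∧ (Irreducible G → Wdep G → Prim G) ∧
    (G ≠ 0 → ∃ (c : RO O) (G' : AO O L), c ≠ 0 ∧ G = cst c * G' ∧ Prim G')

/-- (C1) DIVISION LEMMA. -/
def C1S : Prop := ∀ (O : Type) [CommRing O] [IsDomain O] [IsPrincipalIdealRing O] [Coef O]
  (L : Type) [AddCommGroup L] [Module.Free ℤ L] [Module.Finite ℤ L]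
  (G H : AO O L) (lam : L →+ ℤ), FullAt lam G → Prim G →
    {z : Circle | ¬ ∃ C : ℝ, ∀ u : AddChar L Circle, ‖ev z u H‖ ≤ C * ‖ev z u G‖}.Finite → G ∣ H

/-- (C2) factors of stable unitary elements are full and unitary. -/
def C2S : Prop := ∀ (O : Type) [CommRing O] [IsDomain O] [IsPrincipalIdealRing O] [Coef O]
  (L : Type) [AddCommGroup L] [Module.Free ℤ L] [Module.Finite ℤ L]
  (V G H : AO O L) (lam : L →+ ℤ), Stable V → Unitary V → Pos lam V → V = G * H → Nn lam G →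
    G.coeff 0 ≠ 0 → FullAt lam G ∧ (Irreducible G → Wdep G → Unitary G)

/-- Full elements: products, stability. -/
def FullS : Prop := ∀ (O : Type) [CommRing O] [IsDomain O] [IsPrincipalIdealRing O] [Coef O]
  (L : Type) [AddCommGroup L] [Module.Free ℤ L] [Module.Finite ℤ L]
  (G H : AO O L) (lam : L →+ ℤ), (FullAt lam G → Stable G) ∧
    (FullAt lam G → FullAt lam H → FullAt lam (G * H)) ∧ FullAt lam (1 : AO O L)

/-- (C3) HURWITZ PRINCIPLE. -/
def C3S : Prop := ∀ (O : Type) [CommRing O] [IsDomain O] [IsPrincipalIdealRing O] [Coef O]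
  (L : Type) [AddCommGroup L] [Module.Free ℤ L] [Module.Finite ℤ L]
  (G h : AO O L) (lam mu : L →+ ℤ), Irreducible G → Stable G → Nn lam G → FullAt mu h → Prim h →
    Wdep h → h ∣ gpart lam 0 G → Associated G h ∧ ∀ a ∈ supp G, lam a = 0

/-- (C4) UNIT APEX. -/
def C4S : Prop := ∀ (O : Type) [CommRing O] [IsDomain O] [IsPrincipalIdealRing O] [Coef O]
  (L : Type) [AddCommGroup L] [Module.Free ℤ L] [Module.Finite ℤ L]
  (G : AO O L), Irreducible G → Stable G → Wdep G → Thin (supp G) → M (G.coeff 0) = 1 →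
    IsUnit (G.coeff 0) ∧ ∃ b : L, b ≠ 0 ∧ IsUnit (G.coeff b) ∧ supp G = {0, b}

/-- (C5) factorisation of a stable unitary element. -/
def FactS : Prop := ∀ (O : Type) [CommRing O] [IsDomain O] [IsPrincipalIdealRing O] [Coef O]
  (L : Type) [AddCommGroup L] [Module.Free ℤ L] [Module.Finite ℤ L]
  (V : AO O L), Stable V → Unitary V → ∃ (c : RO O) (n : ℕ) (G : Fin n → AO O L), c ≠ 0 ∧
    V = cst c * ∏ i, G i ∧ ∀ i, Irreducible (G i) ∧ Wdep (G i) ∧ Stable (G i) ∧ Unitary (G i) ∧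
      ∀ lam : L →+ ℤ, (Nn lam V → Nn lam (G i)) ∧ (Pos lam V → FullAt lam (G i))

end Pool.Agent.B5
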