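import Pool.Agent.Lib.MP_b5021c_nt.IfaceG

/-!
# Board b5: statements of the rows of chapter L2 (back to multi-affine), G4
-/

namespace Pool.Agent.B5

open scoped LaurentPolynomial

/-! ## Chapter L2 -/

/-- The class of generalised elements: exponents in `W(I,J)`. -/
structure WD {O : Type} [CommRing O] [Coef O] {P : Type} [Fintype P] [DecidableEq P] {L : Type} [AddCommGroup L]
    (phi : L →+ (P → ℤ)) (I J : Finset P) (G : AO O L) : Prop where
  inj : Function.Injective phi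
  dis : Disjoint I J
  ww : ∀ a ∈ supp G, WW phi I J a
  st : Stable G
  un : Unitary G
  irr : Irreducible G
  spn : rk (supp G) = Module.finrank ℤ L

/-- The class of the constant coefficient does not increase. -/
def ClsLe {O : Type} [CommRing O] [Coef O] (p q : RO O) : Prop :=
  (∀ N : ℝ, ClassV N p → ∃ N' : ℝ, N' ≤ N ∧ ClassV N' q) ∧ (∀ θ : ℝ, ClassP θ p → ClassP θ q)

/-- Restriction to a saturated sublattice containing the support preserves everything. -/
def ResWDS : Prop := ∀ (O : Type) [CommRing O] [IsDomain O] [IsPrincipalIdealRing O] [Coef O]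
  (L : Type) [AddCommGroup L] [Module.Free ℤ L] [Module.Finite ℤ L]
  (G : AO O L), G ≠ 0 →
    ∃ K : Submodule ℤ L, Sat K ∧ (∀ a ∈ supp G, a ∈ K) ∧ Module.finrank ℤ K = rk (supp G) ∧
      (Irreducible G → Irreducible (res K G)) ∧ (Unitary G → Unitary (res K G)) ∧
      rk (supp (res K G)) = rk (supp G)

/-- Irreducibility of the completion. -/
def ComplIrrS : Prop := ∀ (O : Type) [CommRing O] [IsDomain O] [IsPrincipalIdealRing O] [Coef O]
  (L : Type) [AddCommGroup L] [Module.Free ℤ L] [Module.Finite ℤ L]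
  (G : AO O L), G ≠ 0 → (∀ h : AO O L, Irreducible h → h ∣ G → h ∣ sharp G → False) →
    Irreducible (compl G)

/-- Stability, unitarity, support of the completion. -/
def ComplS : Prop := ∀ (O : Type) [CommRing O] [IsDomain O] [IsPrincipalIdealRing O] [Coef O]
  (L : Type) [AddCommGroup L] [Module.Free ℤ L] [Module.Finite ℤ L]
  (G : AO O L), Stable G → Stable (compl G) ∧ Unitary (compl G) ∧
    (compl G).coeff 0 = G.coeff 0 ∧
    (∀ x ∈ supp (compl G), (x.2 = 0 ∧ x.1 ∈ supp G) ∨ (x.2 = 1 ∧ -x.1 ∈ supp G)) ∧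
    rk (supp (compl G)) = rk (supp G) + 1

/-- The face on a facet: primitive part `B`, coprime to `B^#`, of the same class. -/
def FacetS : Prop := ∀ (O : Type) [CommRing O] [IsDomain O] [IsPrincipalIdealRing O] [Coef O]
  (P L : Type) [Fintype P] [DecidableEq P] [AddCommGroup L] [Module.Free ℤ L]
  [Module.Finite ℤ L] (phi : L →+ (P → ℤ)) (I J : Finset P) (G : AO O L) (lam : L →+ ℤ),
    WD phi I J G → Nn lam G → lam ≠ 0 → rk {a | a ∈ supp G ∧ lam a = 0} + 1 = Module.finrank ℤ L →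
      2 ≤ Module.finrank ℤ L →
      ((∃ N, ClassV N (G.coeff 0)) ∨ (∃ θ, ClassP θ (G.coeff 0))) →
      ∃ (c : RO O) (B : AO O (Ker lam)), c ≠ 0 ∧ res (Ker lam) G = cst c * B ∧ Prim B ∧ Stable B ∧
        (∀ h : AO O (Ker lam), Irreducible h → h ∣ B → h ∣ sharp B → False) ∧
        (∀ a ∈ supp B, WW phi I J (a : L)) ∧ rk (supp B) + 1 = Module.finrank ℤ L ∧
        ClsLe (G.coeff 0) (B.coeff 0)

/-- (L2 step) one port of `I` is removed. -/
def L2stepS : Prop := ∀ (O : Type) [CommRing O] [IsDomain O] [IsPrincipalIdealRing O] [Coef O]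
  (P L : Type) [Fintype P] [DecidableEq P] [AddCommGroup L] [Module.Free ℤ L]
  [Module.Finite ℤ L] (phi : L →+ (P → ℤ)) (I J : Finset P) (G : AO O L) (i : P), i ∈ I →
    WD phi I J G → 2 ≤ Module.finrank ℤ L →
      ((∃ N, ClassV N (G.coeff 0)) ∨ (∃ θ, ClassP θ (G.coeff 0))) →
      ∃ (L' : Type) (_ : AddCommGroup L') (_ : Module.Free ℤ L') (_ : Module.Finite ℤ L')
        (phi' : L' →+ (Option P → ℤ)) (G' : AO O L'),
        WD phi' ((I.erase i).map Function.Embedding.some)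
          (insert none (J.map Function.Embedding.some)) G' ∧
        Module.finrank ℤ L' = Module.finrank ℤ L ∧ ClsLe (G.coeff 0) (G'.coeff 0)

/-- (L2) back to `DD`. -/
def L2S : Prop := ∀ (O : Type) [CommRing O] [IsDomain O] [IsPrincipalIdealRing O] [Coef O]
  (P L : Type) [Fintype P] [DecidableEq P] [AddCommGroup L] [Module.Free ℤ L]
  [Module.Finite ℤ L] (phi : L →+ (P → ℤ)) (I J : Finset P) (G : AO O L),
    WD phi I J G → 2 ≤ Module.finrank ℤ L →
      ((∃ N, ClassV N (G.coeff 0)) ∨ (∃ θ, ClassP θ (G.coeff 0))) →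
      ∃ (P' L' : Type) (_ : Fintype P') (_ : DecidableEq P') (_ : AddCommGroup L')
        (_ : Module.Free ℤ L') (_ : Module.Finite ℤ L') (phi' : L' →+ (P' → ℤ)) (G' : AO O L'),
        DD phi' G' ∧ Module.finrank ℤ L' = Module.finrank ℤ L ∧ ClsLe (G.coeff 0) (G'.coeff 0)

/-! ## The bounds -/

/-- `B` bounds the dimension in class `V(N)`. -/
def BdV (O : Type) [CommRing O] [Coef O] (N : ℝ) (B : ℝ) : Prop :=
  ∀ (P L : Type) [Fintype P] [DecidableEq P] [AddCommGroup L]
  [Module.Free ℤ L] [Module.Finite ℤ L] (phi : L →+ (P → ℤ)) (D : AO O L), DD phi D →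
    ClassV N (D.coeff 0) → (Module.finrank ℤ L : ℝ) ≤ B

/-- `B` bounds the dimension in the class `P(θ)`. -/
def BdP (O : Type) [CommRing O] [Coef O] (θ : ℝ) (B : ℝ) : Prop :=
  ∀ (P L : Type) [Fintype P] [DecidableEq P] [AddCommGroup L]
  [Module.Free ℤ L] [Module.Finite ℤ L] (phi : L →+ (P → ℤ)) (D : AO O L), DD phi D →
    ClassP θ (D.coeff 0) → (Module.finrank ℤ L : ℝ) ≤ B

/-- (G4) big factors have rank at most the bound of their class. -/
def G4S : Prop := ∀ (O : Type) [CommRing O] [IsDomain O] [IsPrincipalIdealRing O] [Coef O]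
  (P L : Type) [Fintype P] [DecidableEq P] [AddCommGroup L] [Module.Free ℤ L]
  [Module.Finite ℤ L] (phi : L →+ (P → ℤ)) (D : AO O L) (S : L) (i0 : P) (eta : (RO O)ˣ)
  (h : co phi i0 S = 1) (c : RO O) (n : ℕ) (G : Fin n → AO O (Ker (co phi i0))),
    FD phi D S i0 eta h c n G → ∀ (i : Fin n),
      (∀ (N : ℝ) (B : ℝ), ClassV N ((G i).coeff 0) → 1 ≤ B → (∀ N' ≤ N, BdV O N' B) →
        (rk (supp (G i)) : ℝ) ≤ B) ∧
      (∀ (θ : ℝ) (B : ℝ), ClassP θ ((G i).coeff 0) → 1 ≤ B → BdP O θ B →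
        (rk (supp (G i)) : ℝ) ≤ B)

end Pool.Agent.B5
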