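import Pool.Agent.Lib.MP_b5021c_nt.IfaceG

/-!
# Board b5, stage 3, chapter DCM: DECIMATION (helper1, finding 3521 (1); Lean: helper61)

`Q` a finite commutative group; `z^n w^a` has the degree `n g + l a`.  If the closed element `V` at
the load `w^S = eta` becomes homogeneous after multiplication with `p`, then the homogeneous part
of `p D` of this degree is `c1 D'` with `D'` in `DD` (for the lattice of its exponents).
-/

namespace Pool.Agent.B5

open scoped LaurentPolynomial

section

variable {O : Type} [CommRing O] {L : Type} [AddCommGroup L] {Q : Type} [AddCommGroup Q]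

open Classical in
/-- The part of `q` with the exponents `n`, `n g = r`. -/
noncomputable def pm (g r : Q) (q : RO O) : RO O :=
  AddMonoidAlgebra.ofCoeff (q.coeff.filter fun n : ℤ => n • g = r)

open Classical in
theorem pm_coeff (g r : Q) (q : RO O) (n : ℤ) :
    (pm g r q).coeff n = if n • g = r then q.coeff n else 0 := by
  change (q.coeff.filter fun n : ℤ => n • g = r) n = _
  rw [Finsupp.filter_apply]

/-- The part of `D` of degree `r`, `deg (z^n w^a) = n g + l a`. -/
noncomputable def dcm (g : Q) (l : L →+ Q) (r : Q) (D : AO O L) : AO O L :=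
  AddMonoidAlgebra.ofCoeff (Finsupp.onFinset D.coeff.support
    (fun a => pm g (r - l a) (D.coeff a))
    (fun a ha => by
      rw [Finsupp.mem_support_iff]
      intro h
      apply ha
      rw [h]
      have h0 : AddMonoidAlgebra.coeff (0 : RO O) = 0 := rfl
      unfold pm
      rw [h0, Finsupp.filter_zero]
      rfl))

theorem dcm_coeff (g : Q) (l : L →+ Q) (r : Q) (D : AO O L) (a : L) :
    (dcm g l r D).coeff a = pm g (r - l a) (D.coeff a) := rfl

/-- `D` is homogeneous of degree `r`. -/
def Hmg (g : Q) (l : L →+ Q) (r : Q) (D : AO O L) : Prop :=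
  ∀ (a : L) (n : ℤ), (D.coeff a).coeff n ≠ 0 → n • g + l a = r

end

/-- (DCM) DECIMATION. -/
def DcmS : Prop := ∀ (O : Type) [CommRing O] [IsDomain O] [IsPrincipalIdealRing O] [Coef O]
  (P L : Type) [Fintype P] [DecidableEq P] [AddCommGroup L] [Module.Free ℤ L]
  [Module.Finite ℤ L] (phi : L →+ (P → ℤ)) (D : AO O L) (S : L) (i0 : P) (eta : (RO O)ˣ)
  (h : co phi i0 S = 1) (Q : Type) [AddCommGroup Q] [Finite Q] (g : Q) (l : L →+ Q) (r : Q)
  (p : RO O), CC phi D S i0 eta → p ≠ 0 → Associated (rsh p) p →
    (∀ n : ℤ, (eta : RO O).coeff n ≠ 0 → n • g = l S) →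
    Hmg g (l.comp (incl (Ker (co phi i0)))) r (cst p * cl (co phi i0) S h eta D) →
      ∃ (c1 : RO O) (D' : AO O L), c1 ≠ 0 ∧ dcm g l r (cst p * D) = cst c1 * D' ∧
        cst p * cl (co phi i0) S h eta D = cst c1 * cl (co phi i0) S h eta D' ∧
        (∀ a ∈ supp D', a ∈ supp D) ∧ Stable D' ∧ Unitary D' ∧ Irreducible D' ∧
        rk (supp (cl (co phi i0) S h eta D)) ≤ rk (supp D') ∧
        (S ∈ supp D' → rk (supp (cl (co phi i0) S h eta D)) + 1 ≤ rk (supp D')) ∧
        DD (phi.comp (incl (Submodule.span ℤ (supp D')))) (res (Submodule.span ℤ (supp D')) D') ∧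
        Module.finrank ℤ (Submodule.span ℤ (supp D')) = rk (supp D')

end Pool.Agent.B5
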