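import Pool.Agent.Lib.MP_b5021c_nt.IfaceO1
import Pool.Agent.Lib.MP_b5021c_nt.IfaceDcm
import Pool.Agent.Lib.MP_b5021c_nt.E.H78.Mono

/-!
# Board b5, stage 3: LEMMA UF (helper83, finding 3558), rows of (O1_UF)

`E` of class `V(N)`, rank `2N - 1`, `S` a ray, `w^S = eta` a drop free load whose closing is
`c ∏ G_i`, `∏ G_i` z-free.  `p0` = `E_0`, `-p1` = `eta E_S` (up to one unit).
Averages: the parts of level `0` modulo `m`, with `z^m` replaced by a new `z` and the gauge removed,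
are elements of the same kind with a CONSTANT closing (`UavS`, uses `DcmS`, `SubzS`).
-/

namespace Pool.Agent.B5

open scoped LaurentPolynomial
open Polynomial

section

variable {P : Type} [Fintype P] [DecidableEq P] {L : Type} [AddCommGroup L] [Module.Free ℤ L]
  [Module.Finite ℤ L]

/-- An element of class `V(N)`, rank `2N - 1`; the closing at the load `eta` of the ray `S` is drop
free, without small factor, and all its coefficients are constants. -/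
structure Ufd (phi : L →+ (P → ℤ)) (E : AO ℤ L) (S : L) (i0 : P) (h : co phi i0 S = 1)
    (eta : (RO ℤ)ˣ) (N : ℕ) (p0 p1 : ℤ[X]) (u0 : (RO ℤ)ˣ) : Prop where
  dd : DD phi E
  ray : Ray E S
  N3 : 3 ≤ N
  rkL : Module.finrank ℤ L + 1 = 2 * N
  cst : ∃ n : ℤ, ∀ a k, ((cl (co phi i0) S h eta E).coeff a).coeff k ≠ 0 → k = n
  ns : ∀ (b : Ker (co phi i0)) (e : (RO ℤ)ˣ), b ≠ 0 →
    ¬ (1 - AddMonoidAlgebra.single b (e : RO ℤ)) ∣ cl (co phi i0) S h eta E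
  dr : Module.finrank ℤ L = rk (supp (cl (co phi i0) S h eta E)) + 1
  e0 : (u0 : RO ℤ) * E.coeff 0 = toLaurent p0
  e1 : (u0 : RO ℤ) * ((eta : RO ℤ) * E.coeff S) = -toLaurent p1
  p00 : p0.coeff 0 = N
  p10 : p1.coeff 0 = 1
  zf : ∀ z : ℂ, ‖z‖ < 1 → aeval z p0 ≠ 0

end

/-- (UF_SUB) removing a gauge and replacing `z^m` by `z`: all exponents `(k, a)` of `D` satisfy
`k = gam a + n + m j`; the new coefficient of `w^a` is `∑_j D_(a, gam a + n + m j) z^j`. -/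
def SubzS : Prop := ∀ (P L : Type) [Fintype P] [DecidableEq P] [AddCommGroup L]
  [Module.Free ℤ L] [Module.Finite ℤ L] (phi : L →+ (P → ℤ)) (D : AO ℤ L) (gam : L →+ ℤ)
  (n : ℤ) (m : ℕ), DD phi D → 1 ≤ m →
    (∀ a k, (D.coeff a).coeff k ≠ 0 → ∃ j : ℤ, k = gam a + n + m * j) →
      ∃ D' : AO ℤ L, DD phi D' ∧
        (∀ a j, (D'.coeff a).coeff j = (D.coeff a).coeff (gam a + n + m * j)) ∧
        ∀ (k0 : L →+ ℤ) (S : L) (h : k0 S = 1) (s : ℤˣ) (a : Ker k0) (j : ℤ),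
          ((cl k0 S h (H40.uT s 0) D').coeff a).coeff j =
            ((cl k0 S h (H40.uT s (-gam S)) D).coeff a).coeff (gam a + n + m * j)

/-- (UF_AV) averages of `E` (`c` a unit). [uses DcmS SubzS FDS G4S-count EvzS] -/
def UavS : Prop := ∀ (P L : Type) [Fintype P] [DecidableEq P] [AddCommGroup L]
  [Module.Free ℤ L] [Module.Finite ℤ L] (phi : L →+ (P → ℤ)) (E : AO ℤ L) (S : L) (i0 : P)
  (h : co phi i0 S = 1) (eta : (RO ℤ)ˣ) (c : RO ℤ) (n0 : ℕ)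
  (G : Fin n0 → AO ℤ (Ker (co phi i0))) (N : ℕ) (p0 p1 : ℤ[X]) (u0 : (RO ℤ)ˣ) (m : ℕ),
    DD phi E → Ray E S → Zfd phi E S i0 h eta c n0 G → 3 ≤ N → ClassV N (E.coeff 0) →
    Module.finrank ℤ L + 1 = 2 * N →
    (u0 : RO ℤ) * E.coeff 0 = toLaurent p0 →
    (u0 : RO ℤ) * ((eta : RO ℤ) * E.coeff S) = -toLaurent p1 → p0.coeff 0 = N →
    p1.coeff 0 = 1 → IsUnit c → 1 ≤ m →
      ∃ (K : Submodule ℤ L) (E' : AO ℤ K) (S' : K) (h' : co (phi.comp (incl K)) i0 S' = 1)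
        (eta' u0' : (RO ℤ)ˣ) (q0 q1 : ℤ[X]),
        Ufd (phi.comp (incl K)) E' S' i0 h' eta' N q0 q1 u0' ∧
        (∀ j, q0.coeff j = p0.coeff (m * j)) ∧ ∀ j, q1.coeff j = p1.coeff (m * j)

/-- (UF_W) the closings at the loads `eta u / z`, `u = 1, -1`: full rank, no small factor, class
`P(θ')`, `θ' ≥ 1 / x` by the induction hypothesis. [uses FDS SmallS G4S MonoS E1S MVS RkS] -/
def UfwS : Prop := ∀ (P L : Type) [Fintype P] [DecidableEq P] [AddCommGroup L]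
  [Module.Free ℤ L] [Module.Finite ℤ L] (phi : L →+ (P → ℤ)) (E : AO ℤ L) (S : L) (i0 : P)
  (h : co phi i0 S = 1) (eta : (RO ℤ)ˣ) (N : ℕ) (p0 p1 : ℤ[X]) (u0 : (RO ℤ)ˣ) (x : ℝ),
    Ufd phi E S i0 h eta N p0 p1 u0 → Bnk (2 * N - 2) → 0 < x → x⁻¹ - x = N - 1 →
      p0 = C ((N : ℤ) - 1) + p1 ∧ (aeval x p0 : ℝ) ≤ N + x ∧ (aeval (-x) p0 : ℝ) ≤ N + x

/-- (UF_F) one variable: `|F_k| ≤ 1`. -/
def UffS : Prop := ∀ (N : ℕ) (F : ℤ[X]) (x : ℝ), 3 ≤ N → 0 < x → x⁻¹ - x = N - 1 →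
  F.coeff 0 = 0 → (∀ (m : ℕ) (G : ℤ[X]), 1 ≤ m → (∀ j, G.coeff j = F.coeff (m * j)) →
    (aeval x G : ℝ) ≤ x ∧ (aeval (-x) G : ℝ) ≤ x) → ∀ k, |F.coeff k| ≤ 1

/-- (UF_C) the closing has a content `c` which is not a unit. -/
def UfcS : Prop := ∀ (P L : Type) [Fintype P] [DecidableEq P] [AddCommGroup L]
  [Module.Free ℤ L] [Module.Finite ℤ L] (phi : L →+ (P → ℤ)) (E : AO ℤ L) (S : L) (i0 : P)
  (h : co phi i0 S = 1) (eta : (RO ℤ)ˣ) (c : RO ℤ) (n0 : ℕ)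
  (G : Fin n0 → AO ℤ (Ker (co phi i0))) (N : ℕ) (p0 p1 : ℤ[X]) (u0 : (RO ℤ)ˣ),
    DD phi E → Ray E S → Zfd phi E S i0 h eta c n0 G → 3 ≤ N → ClassV N (E.coeff 0) →
    Module.finrank ℤ L + 1 = 2 * N →
    (u0 : RO ℤ) * E.coeff 0 = toLaurent p0 →
    (u0 : RO ℤ) * ((eta : RO ℤ) * E.coeff S) = -toLaurent p1 → p0.coeff 0 = N →
    p1.coeff 0 = 1 → ¬ IsUnit c →
      ∃ (k : ℕ) (ep : ℤ), 1 ≤ k ∧ (ep = 1 ∨ ep = -1) ∧ p0 = C (N : ℤ) - C ep * X ^ k ∧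
        p1 = 1 + C ((N - 2) * ep) * X ^ k

/-- (UF_C1) the content, structure: at a zero `z0` of the content (`|z0| = 1`) the part of `E`
without the port `i0` is a constant multiple of `V / c`. [uses E2S PolyS] -/
def CresS : Prop := ∀ (P L : Type) [Fintype P] [DecidableEq P] [AddCommGroup L]
  [Module.Free ℤ L] [Module.Finite ℤ L] (phi : L →+ (P → ℤ)) (E : AO ℤ L) (S : L) (i0 : P)
  (h : co phi i0 S = 1) (eta : (RO ℤ)ˣ) (c : RO ℤ) (G : AO ℤ (Ker (co phi i0))) (z0 : Circle),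
    CC phi E S i0 eta → cl (co phi i0) S h eta E = cst c * G → evR z0 c = 0 →
    evR z0 (G.coeff 0) ≠ 0 →
      ∃ ka : ℂ, ∀ a : Ker (co phi i0),
        evR z0 (E.coeff (a : L)) = ka * evR z0 (G.coeff a)

/-- (UF_C2) the content is `1 - ep z^k` and the part of `E` without the port `i0` is congruent to
`G'` modulo it. [uses CresS, one variable] -/
def CcnS : Prop := ∀ (P L : Type) [Fintype P] [DecidableEq P] [AddCommGroup L]
  [Module.Free ℤ L] [Module.Finite ℤ L] (phi : L →+ (P → ℤ)) (E : AO ℤ L) (S : L) (i0 : P)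
  (h : co phi i0 S = 1) (eta : (RO ℤ)ˣ) (c : RO ℤ) (n0 : ℕ)
  (G : Fin n0 → AO ℤ (Ker (co phi i0))) (N : ℕ) (p0 p1 : ℤ[X]) (u0 : (RO ℤ)ˣ),
    DD phi E → Ray E S → Zfd phi E S i0 h eta c n0 G → 3 ≤ N → ClassV N (E.coeff 0) →
    Module.finrank ℤ L + 1 = 2 * N →
    (u0 : RO ℤ) * E.coeff 0 = toLaurent p0 →
    (u0 : RO ℤ) * ((eta : RO ℤ) * E.coeff S) = -toLaurent p1 → p0.coeff 0 = N →
    p1.coeff 0 = 1 → ¬ IsUnit c →
      ∃ (k : ℕ) (ep : ℤ) (G' R : AO ℤ (Ker (co phi i0))), 1 ≤ k ∧ (ep = 1 ∨ ep = -1) ∧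
        cl (co phi i0) S h eta E = cst (toLaurent (1 - C ep * X ^ k)) * G' ∧ ZFree G' ∧
        (u0 : RO ℤ) * G'.coeff 0 = toLaurent (C ((N : ℤ) - 1)) ∧
        ∀ a : Ker (co phi i0), E.coeff (a : L) =
          G'.coeff a + toLaurent (1 - C ep * X ^ k) * R.coeff a

/-- (UF_C3) decoupling: replacing `ep z^k` by a new port gives an element of `DD` of class `V(N)`
and rank `2N`, so it is z-free and `R_0 = 1`. [uses FclS EvzS RkS] -/
def DcpS : Prop := ∀ (P L : Type) [Fintype P] [DecidableEq P] [AddCommGroup L]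
  [Module.Free ℤ L] [Module.Finite ℤ L] (phi : L →+ (P → ℤ)) (E : AO ℤ L) (S : L) (i0 : P)
  (h : co phi i0 S = 1) (eta : (RO ℤ)ˣ) (G' R : AO ℤ (Ker (co phi i0))) (N k : ℕ) (ep : ℤ)
  (p0 : ℤ[X]) (u0 : (RO ℤ)ˣ),
    DD phi E → Ray E S → 3 ≤ N → ClassV N (E.coeff 0) → Module.finrank ℤ L + 1 = 2 * N →
    Module.finrank ℤ L = rk (supp (cl (co phi i0) S h eta E)) + 1 →
    (u0 : RO ℤ) * E.coeff 0 = toLaurent p0 → p0.coeff 0 = N → 1 ≤ k → (ep = 1 ∨ ep = -1) →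
    cl (co phi i0) S h eta E = cst (toLaurent (1 - C ep * X ^ k)) * G' → ZFree G' →
    (u0 : RO ℤ) * G'.coeff 0 = toLaurent (C ((N : ℤ) - 1)) →
    (∀ a : Ker (co phi i0), E.coeff (a : L) =
      G'.coeff a + toLaurent (1 - C ep * X ^ k) * R.coeff a) →
      (u0 : RO ℤ) * R.coeff 0 = 1

end Pool.Agent.B5
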