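import Pool.Agent.Lib.MP_b5021c_nt.IfaceE4

/-!
# Board b5, stage 3, chapter AM: minimal support, unimodularity, cycles, the form (3,4)
(PaperAM.md)

Every `θ`, every coefficient ring.  `D` is an element of `DD` of class `P(θ)` with facet ports, whose
exponents generate `L`, with the smallest number of exponents among all elements of `DD` of the
same rank and class.  `C` is a set of rays which have the drop `g` at their loads `eta`.
-/

namespace Pool.Agent.B5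

open scoped LaurentPolynomial

section

variable {O : Type} [CommRing O] [Coef O] {P : Type} [Fintype P] [DecidableEq P] {L : Type}
  [AddCommGroup L]

/-- The lattice of `S` and of the exponents of `V_S` (so `US eta S D = satur (LamS eta S D)`). -/
def LamS {O : Type} [CommRing O] {L : Type} [AddCommGroup L] (eta : (RO O)ˣ) (S : L) (D : AO O L) :
    Submodule ℤ L :=
  Submodule.span ℤ (insert S {a : L | vco eta S D a ≠ 0})

/-- The closed element `w^S = eta` has no factor with `M = 1` (with facet ports there are no pure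
factors, so this is `snp = ∅`). -/
def NoSm (phi : L →+ (P → ℤ)) (D : AO O L) (S : L) (eta : (RO O)ˣ) : Prop :=
  ∀ (i0 : P) (h : co phi i0 S = 1) (c : RO O) (n : ℕ) (G : Fin n → AO O (Ker (co phi i0))),
    FD phi D S i0 eta h c n G → ∀ i, 1 < M ((G i).coeff 0)

/-- Class `P(θ)`, facet ports, the exponents generate `L`, and the number of exponents is minimal
among the elements of `DD` of the same rank and the same class `P(θ)`. -/
structure MinD (θ : ℝ) (phi : L →+ (P → ℤ)) (D : AO O L) : Prop where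
  fp : FP phi D
  cls : ClassP θ (D.coeff 0)
  top : Submodule.span ℤ (supp D) = ⊤
  min : ∀ (P' L' : Type) [Fintype P'] [DecidableEq P'] [AddCommGroup L'] [Module.Free ℤ L']
    [Module.Finite ℤ L'] (phi' : L' →+ (P' → ℤ)) (D' : AO O L'), DD phi' D' →
      Module.finrank ℤ L' = Module.finrank ℤ L → ClassP θ (D'.coeff 0) →
        (supp D).ncard ≤ (supp D').ncard

/-- `C` is a set of rays with the drop `g` at the loads `eta`, closed under `T ∉ U_S`, without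
small factors. -/
structure ASet (phi : L →+ (P → ℤ)) (D : AO O L) (eta : L → (RO O)ˣ) (g : ℕ) (C : Set L) :
    Prop where
  ray : ∀ S ∈ C, Ray D S
  v0 : ∀ S ∈ C, D.coeff 0 + (eta S : RO O) * D.coeff S ≠ 0
  ns : ∀ S ∈ C, NoSm phi D S (eta S)
  dr : ∀ S ∈ C, Module.finrank ℤ (US (eta S) S D) + g = Module.finrank ℤ L
  mtl : ∀ S ∈ C, ∀ T, Ray D T → T ∉ US (eta S) S D → T ∈ C ∧ Mut D S T (eta S) (eta T)

/-- A cycle of mutual rays with drop one. `mu i` is the drop functional of `C i`. -/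
structure Cyc (phi : L →+ (P → ℤ)) (D : AO O L) (eta : L → (RO O)ˣ) (k : ℕ)
    (C : ZMod (k + 3) → L) (mu : ZMod (k + 3) → L →+ ℤ) : Prop where
  inj : Function.Injective C
  mtl : ∀ i, Mut D (C i) (C (i + 1)) (eta (C i)) (eta (C (i + 1)))
  dis : ∀ i j, i ≠ j → ∀ p, phi (C i) p = 0 ∨ phi (C j) p = 0
  coe : ∀ i j, (eta (C i) : RO O) * D.coeff (C i) = (eta (C j) : RO O) * D.coeff (C j)
  ker : ∀ i a, a ∈ US (eta (C i)) (C i) D ↔ mu i a = 0
  nxt : ∀ i, mu i (C (i + 1)) = 1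
  prv : ∀ i, mu i (C (i - 1)) = -1
  oth : ∀ i T, Ray D T → T ≠ C (i + 1) → T ≠ C (i - 1) → mu i T = 0
  val : ∀ i, ∀ a ∈ supp D, mu i a = 0 ∨ mu i a = 1 ∨ mu i a = -1

/-- `u` is disjoint from all `C i` and is killed by all `mu i`. -/
def Fre {ι κ : Type} (phi : L →+ (P → ℤ)) (C : ι → L) (mu : κ → L →+ ℤ) (u : L) : Prop :=
  (∀ i p, phi u p = 0 ∨ phi (C i) p = 0) ∧ ∀ i, mu i u = 0

/-- Four mutual rays with drop two; `dl i j` is the difference of the multiplicities of `C i` and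
`C j`. -/
structure Fou (phi : L →+ (P → ℤ)) (D : AO O L) (eta : L → (RO O)ˣ) (C : Fin 4 → L)
    (dl : Fin 4 → Fin 4 → L →+ ℤ) : Prop where
  inj : Function.Injective C
  mtl : ∀ i j, i ≠ j → Mut D (C i) (C j) (eta (C i)) (eta (C j))
  dis : ∀ i j, i ≠ j → ∀ p, phi (C i) p = 0 ∨ phi (C j) p = 0
  coe : ∀ i j, (eta (C i) : RO O) * D.coeff (C i) = (eta (C j) : RO O) * D.coeff (C j)
  us : ∀ i a, a ∈ US (eta (C i)) (C i) D ↔ ∀ j k, j ≠ i → k ≠ i → dl j k a = 0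
  pos : ∀ i j, i ≠ j → dl i j (C i) = 1
  neg : ∀ i j, i ≠ j → dl i j (C j) = -1
  oth : ∀ i j T, Ray D T → T ≠ C i → T ≠ C j → dl i j T = 0
  dia : ∀ i, dl i i = 0
  val : ∀ i j, ∀ a ∈ supp D, dl i j a = 0 ∨ dl i j a = 1 ∨ dl i j a = -1

end

/-! ## Minimal support and restriction -/

/-- (AM_MIN) reduction to minimal support. [uses CplS SymLS LatResS FptS] -/
def MinSS : Prop := ∀ (O : Type) [CommRing O] [IsDomain O] [IsPrincipalIdealRing O] [Coef O]
  (P L : Type) [Fintype P] [DecidableEq P] [AddCommGroup L] [Module.Free ℤ L]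
  [Module.Finite ℤ L] (phi : L →+ (P → ℤ)) (D : AO O L) (θ : ℝ), DD phi D →
    2 ≤ Module.finrank ℤ L → ClassP θ (D.coeff 0) →
      ∃ (P' L' : Type) (_ : Fintype P') (_ : DecidableEq P') (_ : AddCommGroup L')
        (_ : Module.Free ℤ L') (_ : Module.Finite ℤ L') (phi' : L' →+ (P' → ℤ)) (D' : AO O L'),
        MinD θ phi' D' ∧ Module.finrank ℤ L' = Module.finrank ℤ L

/-- (AM_TOP) the largest exponent `t`: reversal, `t` contains every port (facet ports), `t` is in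
the lattice of every ray. [uses UnitAS VcoS RkS] -/
def TopS : Prop := ∀ (O : Type) [CommRing O] [IsDomain O] [IsPrincipalIdealRing O] [Coef O]
  (P L : Type) [Fintype P] [DecidableEq P] [AddCommGroup L] [Module.Free ℤ L]
  [Module.Finite ℤ L] (phi : L →+ (P → ℤ)) (D : AO O L), DD phi D → 2 ≤ Module.finrank ℤ L →
    ∃ (t : L) (u : (RO O)ˣ), (∀ a : L, D.coeff (t - a) = (u : RO O) * rsh (D.coeff a)) ∧
      (∀ i, co phi i ≠ 0 → phi t i = 1) ∧
      ∀ (S : L) (eta : (RO O)ˣ), Ray D S → D.coeff 0 + (eta : RO O) * D.coeff S ≠ 0 →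
        t ∈ LamS eta S D

/-- (AM_RES) THE RESTRICTION LEMMA: `K` of finite index, containing `S` and the exponents of `V_S`.
[uses E2S G0S MultiS StSpecS B5S A3bS TopS VcoS LatResS(extension of characters)] -/
def ResKS : Prop := ∀ (O : Type) [CommRing O] [IsDomain O] [IsPrincipalIdealRing O] [Coef O]
  (P L : Type) [Fintype P] [DecidableEq P] [AddCommGroup L] [Module.Free ℤ L]
  [Module.Finite ℤ L] (phi : L →+ (P → ℤ)) (D : AO O L) (S : L) (eta : (RO O)ˣ)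
  (K : Submodule ℤ L), DD phi D → 2 ≤ Module.finrank ℤ L → Ray D S →
    D.coeff 0 + (eta : RO O) * D.coeff S ≠ 0 → LamS eta S D ≤ K →
    (∀ a : L, ∃ n : ℤ, n ≠ 0 ∧ n • a ∈ K) → Stable (res K D) ∧ Unitary (res K D)

/-- (AM_IRR) the restriction to `Λ_S + span T`, `T` a set of exponents, is in `DD`.
[uses ResKS FactS E1S M1S C4S E2S FDS SmallS PrimS] -/
def IrrKS : Prop := ∀ (O : Type) [CommRing O] [IsDomain O] [IsPrincipalIdealRing O] [Coef O]
  (P L : Type) [Fintype P] [DecidableEq P] [AddCommGroup L] [Module.Free ℤ L]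
  [Module.Finite ℤ L] (phi : L →+ (P → ℤ)) (D : AO O L) (S : L) (eta : (RO O)ˣ) (θ : ℝ)
  (T : Set L) (K : Submodule ℤ L), DD phi D → 2 ≤ Module.finrank ℤ L → Ray D S →
    D.coeff 0 + (eta : RO O) * D.coeff S ≠ 0 → NoSm phi D S eta → ClassP θ (D.coeff 0) →
    T ⊆ supp D → K = LamS eta S D ⊔ Submodule.span ℤ T →
    Module.finrank ℤ K = Module.finrank ℤ L →
      DD (phi.comp (incl K)) (res K D)

/-- (AM_UNI) UNIMODULARITY. [uses IrrKS] -/
def UniKS : Prop := ∀ (O : Type) [CommRing O] [IsDomain O] [IsPrincipalIdealRing O] [Coef O]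
  (P L : Type) [Fintype P] [DecidableEq P] [AddCommGroup L] [Module.Free ℤ L]
  [Module.Finite ℤ L] (phi : L →+ (P → ℤ)) (D : AO O L) (S : L) (eta : (RO O)ˣ) (θ : ℝ)
  (T : Set L), MinD θ phi D → 2 ≤ Module.finrank ℤ L → Ray D S →
    D.coeff 0 + (eta : RO O) * D.coeff S ≠ 0 → NoSm phi D S eta →
    T ⊆ supp D → Module.finrank ℤ (US eta S D ⊔ Submodule.span ℤ T : Submodule ℤ L) =
      Module.finrank ℤ L → LamS eta S D ⊔ Submodule.span ℤ T = ⊤

/-- (AM_DUA) dual functionals (lattices only). -/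
def DuaS : Prop := ∀ (L : Type) [AddCommGroup L] [Module.Free ℤ L] [Module.Finite ℤ L]
  (K : Submodule ℤ L) (g : ℕ) (v : Fin g → L), Module.finrank ℤ K + g = Module.finrank ℤ L →
    K ⊔ Submodule.span ℤ (Set.range v) = ⊤ →
      Sat K ∧ ∃ mu : Fin g → L →+ ℤ, (∀ i j, mu i (v j) = if i = j then 1 else 0) ∧
        ∀ a, a ∈ K ↔ ∀ i, mu i a = 0

/-- (AM_ONE) drop one: the drop functional has the values `0, 1, -1`, and both signs occur at
rays. [uses UniKS DuaS TopS RaySpanS E2S] -/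
def OneKS : Prop := ∀ (O : Type) [CommRing O] [IsDomain O] [IsPrincipalIdealRing O] [Coef O]
  (P L : Type) [Fintype P] [DecidableEq P] [AddCommGroup L] [Module.Free ℤ L]
  [Module.Finite ℤ L] (phi : L →+ (P → ℤ)) (D : AO O L) (S : L) (eta : (RO O)ˣ) (θ : ℝ),
    MinD θ phi D → 2 ≤ Module.finrank ℤ L → Ray D S →
    D.coeff 0 + (eta : RO O) * D.coeff S ≠ 0 → NoSm phi D S eta →
    Module.finrank ℤ (US eta S D) + 1 = Module.finrank ℤ L →
      ∃ mu : L →+ ℤ, (∀ a, a ∈ US eta S D ↔ mu a = 0) ∧ (∃ T, Ray D T ∧ mu T = 1) ∧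
        (∃ T, Ray D T ∧ mu T = -1) ∧ ∀ a ∈ supp D, mu a = 0 ∨ mu a = 1 ∨ mu a = -1

/-- (AM_GL2) THE DROP IS AT MOST TWO. [uses UniKS DuaS F3S McoS E2S] -/
def GlcS : Prop := ∀ (O : Type) [CommRing O] [IsDomain O] [IsPrincipalIdealRing O] [Coef O]
  (P L : Type) [Fintype P] [DecidableEq P] [AddCommGroup L] [Module.Free ℤ L]
  [Module.Finite ℤ L] (phi : L →+ (P → ℤ)) (D : AO O L) (eta : L → (RO O)ˣ) (g : ℕ) (θ : ℝ)
  (C : Set L), MinD θ phi D → 2 ≤ Module.finrank ℤ L → ASet phi D eta g C → C.Nonempty → g ≤ 2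

/-! ## Drop one: cycles -/

/-- (AM_NBR) drop one: every ray of `C` has exactly two neighbours (rays outside `U_S`), of
opposite signs. [uses OneKS F1S F2S McoS Inj1S TopS RaySpanS] -/
def NbrS : Prop := ∀ (O : Type) [CommRing O] [IsDomain O] [IsPrincipalIdealRing O] [Coef O]
  (P L : Type) [Fintype P] [DecidableEq P] [AddCommGroup L] [Module.Free ℤ L]
  [Module.Finite ℤ L] (phi : L →+ (P → ℤ)) (D : AO O L) (eta : L → (RO O)ˣ) (θ : ℝ)
  (C : Set L), MinD θ phi D → 2 ≤ Module.finrank ℤ L → ASet phi D eta 1 C → ∀ S ∈ C,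
    ∃ (mu : L →+ ℤ) (R T : L), (∀ a, a ∈ US (eta S) S D ↔ mu a = 0) ∧ R ∈ C ∧ T ∈ C ∧
      mu R = 1 ∧ mu T = -1 ∧ (∀ T', Ray D T' → T' ≠ R → T' ≠ T → mu T' = 0) ∧
      ∀ a ∈ supp D, mu a = 0 ∨ mu a = 1 ∨ mu a = -1

/-- (AM_CYC) THE CYCLE. [uses NbrS McoS F1S] -/
def CycS : Prop := ∀ (O : Type) [CommRing O] [IsDomain O] [IsPrincipalIdealRing O] [Coef O]
  (P L : Type) [Fintype P] [DecidableEq P] [AddCommGroup L] [Module.Free ℤ L]
  [Module.Finite ℤ L] (phi : L →+ (P → ℤ)) (D : AO O L) (eta : L → (RO O)ˣ) (θ : ℝ)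
  (C : Set L), MinD θ phi D → 2 ≤ Module.finrank ℤ L → ASet phi D eta 1 C → ∀ S ∈ C,
    ∃ (k : ℕ) (Z : ZMod (k + 3) → L) (mu : ZMod (k + 3) → L →+ ℤ), Cyc phi D eta k Z mu ∧
      Z 0 = S ∧ ∀ i, Z i ∈ C

/-- (AM_NF) THE NORMAL FORM AT A CYCLE: an exponent is killed by all `mu i` or it is
`∑_(i ∈ T) C i + u` with `u` free; the flip of `i` is allowed iff exactly one of `i + 1`, `i - 1`
is in `T`. [uses F1S RaySpanS E2S TopS] -/
def CnfS : Prop := ∀ (O : Type) [CommRing O] [IsDomain O] [IsPrincipalIdealRing O] [Coef O]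
  (P L : Type) [Fintype P] [DecidableEq P] [AddCommGroup L] [Module.Free ℤ L]
  [Module.Finite ℤ L] (phi : L →+ (P → ℤ)) (D : AO O L) (eta : L → (RO O)ˣ) (k : ℕ)
  (Z : ZMod (k + 3) → L) (mu : ZMod (k + 3) → L →+ ℤ), FP phi D → 2 ≤ Module.finrank ℤ L →
    Cyc phi D eta k Z mu →
    (∀ i, D.coeff 0 + (eta (Z i) : RO O) * D.coeff (Z i) ≠ 0) →
      (∀ a ∈ supp D, (∀ i, mu i a = 0) ∨ ∃ (T : Finset (ZMod (k + 3))) (u : L),
        a = ∑ i ∈ T, Z i + u ∧ Fre phi Z mu u) ∧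
      ∀ (u : L) (T : Finset (ZMod (k + 3))) (i : ZMod (k + 3)), Fre phi Z mu u → i ∉ T →
        (i + 1 ∈ T ↔ i - 1 ∉ T) →
          D.coeff (∑ j ∈ T, Z j + u) + (eta (Z i) : RO O) * D.coeff (∑ j ∈ insert i T, Z j + u) = 0

/-! ## Drop two: the form (3,4) -/

/-- (AM_FOU) FOUR RAYS. [uses UniKS DuaS F1S F3S McoS Inj1S TopS RaySpanS] -/
def FouS : Prop := ∀ (O : Type) [CommRing O] [IsDomain O] [IsPrincipalIdealRing O] [Coef O]
  (P L : Type) [Fintype P] [DecidableEq P] [AddCommGroup L] [Module.Free ℤ L]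
  [Module.Finite ℤ L] (phi : L →+ (P → ℤ)) (D : AO O L) (eta : L → (RO O)ˣ) (θ : ℝ)
  (C : Set L), MinD θ phi D → 2 ≤ Module.finrank ℤ L → ASet phi D eta 2 C → ∀ S ∈ C,
    ∃ (Z : Fin 4 → L) (dl : Fin 4 → Fin 4 → L →+ ℤ), Fou phi D eta Z dl ∧ Z 0 = S ∧
      ∀ i, Z i ∈ C

/-- (AM_FNF) the normal form: an exponent is killed by all differences or it is
`∑_(i ∈ T) C i + u` with `u` free and `T` proper and not empty; the flip of `i` is allowed iff
the other three are not all equal. [uses F1S RaySpanS E2S TopS] -/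
def FnfS : Prop := ∀ (O : Type) [CommRing O] [IsDomain O] [IsPrincipalIdealRing O] [Coef O]
  (P L : Type) [Fintype P] [DecidableEq P] [AddCommGroup L] [Module.Free ℤ L]
  [Module.Finite ℤ L] (phi : L →+ (P → ℤ)) (D : AO O L) (eta : L → (RO O)ˣ)
  (Z : Fin 4 → L) (dl : Fin 4 → Fin 4 → L →+ ℤ), FP phi D → 2 ≤ Module.finrank ℤ L →
    Fou phi D eta Z dl →
    (∀ i, D.coeff 0 + (eta (Z i) : RO O) * D.coeff (Z i) ≠ 0) →
      (∀ a ∈ supp D, (∀ i j, dl i j a = 0) ∨ ∃ (T : Finset (Fin 4)) (u : L),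
        T ≠ ∅ ∧ T ≠ Finset.univ ∧ a = ∑ i ∈ T, Z i + u ∧
          (∀ i p, phi u p = 0 ∨ phi (Z i) p = 0) ∧ ∀ i j, dl i j u = 0) ∧
      ∀ (u : L) (T : Finset (Fin 4)) (i j k : Fin 4),
        (∀ i p, phi u p = 0 ∨ phi (Z i) p = 0) → (∀ i j, dl i j u = 0) →
          i ∉ T → j ∈ T → k ∉ T → k ≠ i →
            D.coeff (∑ j ∈ T, Z j + u) +
              (eta (Z i) : RO O) * D.coeff (∑ j ∈ insert i T, Z j + u) = 0

/-- (AM_DTI) drop two: an element of `DD` with the constant coefficient `Q + A` of rank `K - 2`.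
[uses FnfS FaceS ComplS ComplIrrS C3S C4S M1S E1S PolyS] -/
def DtiS : Prop := ∀ (O : Type) [CommRing O] [IsDomain O] [IsPrincipalIdealRing O] [Coef O]
  (P L : Type) [Fintype P] [DecidableEq P] [AddCommGroup L] [Module.Free ℤ L]
  [Module.Finite ℤ L] (phi : L →+ (P → ℤ)) (D : AO O L) (eta : L → (RO O)ˣ) (θ : ℝ)
  (Z : Fin 4 → L) (dl : Fin 4 → Fin 4 → L →+ ℤ), FP phi D → 2 ≤ Module.finrank ℤ L →
    ClassP θ (D.coeff 0) → Fou phi D eta Z dl →
    (∀ i, D.coeff 0 + (eta (Z i) : RO O) * D.coeff (Z i) ≠ 0) →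
    D.coeff 0 + 2 * ((eta (Z 0) : RO O) * D.coeff (Z 0)) ≠ 0 →
      ∃ (P' L' : Type) (_ : Fintype P') (_ : DecidableEq P') (_ : AddCommGroup L')
        (_ : Module.Free ℤ L') (_ : Module.Finite ℤ L') (phi' : L' →+ (P' → ℤ)) (D' : AO O L'),
        DD phi' D' ∧ Module.finrank ℤ L' + 2 = Module.finrank ℤ L ∧
        D'.coeff 0 = D.coeff 0 + (eta (Z 0) : RO O) * D.coeff (Z 0)

end Pool.Agent.B5
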