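import Pool.Agent.Lib.MP_b5021c_nt.IfaceKO
import Pool.Agent.Lib.MP_b5021c_nt.IfaceBP

/-!
# Board b5, stage 3, ALL `θ`, K ODD, (O4), cycles of length three: PURE BETA (PaperBeta.md)

`D` has rank `2 j + 1`; `S 0`, `S 1`, `S 2` is the cycle (mutual rays, drop one, B-loads
`ld (es i) 1`, `u = 1`, `f_1 - q_1 = j + 1`), `T i`, `i < s = 2 j - 2`, are the other rays and
`lam i` is a load of `T i` with a drop which does not kill... which KILLS the cycle: some `S k` is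
not in `U_(T i)`.  Then, with `x_i = w^(T i) / lam i`, `y_k = w^(S k) / ld (es k) 1`,

  `D = G⁰(x) + G¹(x) y_0 y_1 y_2 - z f ∏ (1 - x_i) ∏ (1 - y_k)`.

`m_i = D(x_i = 1)_0` (`bm`) is `- z E_i` (type A) or `V_i` with `V_i(0) = 1` and one zero `b_i` in the
disc (type B); `m_ik = D(x_i = x_k = 1)_0` (`bmm`).  `kappa_i = E_i(0)` (A) or `1 / b_i` (B).
-/

namespace Pool.Agent.B5

open scoped LaurentPolynomial
open Polynomial
open Pool.Agent.B5.Nr.Sch (Loc)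

section

variable {P : Type} [Fintype P] [DecidableEq P] {L : Type} [AddCommGroup L] [Module.Free ℤ L]
  [Module.Finite ℤ L]

/-- Loads with a drop for all rays: the B-load if it has a drop, otherwise the A-load, and then
`u = 1` and the B-load is drop free (the same as `Des` of KO/H96/Clos.lean; `des_exists`). -/
def DesE (phi : L →+ (P → ℤ)) (D : AO ℤ L) (q : ℤ[X]) (a : ℝ) (et : L → (RO ℤ)ˣ) : Prop :=
  ∀ S, Ray D S → ∃ (f : ℤ[X]) (e : (RO ℤ)ˣ), RN D S q f e a ∧ ¬ Dfr phi D S (et S) ∧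
    (et S = ld e 1 ∨ (et S = -e ∧ f.coeff 0 = 1 ∧ Dfr phi D S (ld e 1)))

/-- PURE BETA: a cycle of length three in a `KcB` with drop one, and every ray outside the cycle
kills the cycle at its designated load. -/
structure Bet (phi : L →+ (P → ℤ)) (D : AO ℤ L) (q f : ℤ[X]) (a : ℝ) (j : ℕ) (eta : L → (RO ℤ)ˣ)
    (C : Set L) (Z : ZMod (0 + 3) → L) (mu : ZMod (0 + 3) → L →+ ℤ) (et : L → (RO ℤ)ˣ) : Prop where
  kc : KcB phi D q f a j eta 1 C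
  f0 : f.coeff 0 = 1
  n : f.coeff 1 - q.coeff 1 = j + 1
  cyc : Cyc phi D eta 0 Z mu
  mem : ∀ i, Z i ∈ C
  des : DesE phi D q a et
  kil : ∀ T, Ray D T → (∀ i, T ≠ Z i) → ∃ i, Z i ∉ US (et T) T D

/-- The sum of `S` over `A` and of `T` over `B`. -/
def sST {s : ℕ} (S : Fin 3 → L) (T : Fin s → L) (A : Finset (Fin 3)) (B : Finset (Fin s)) : L :=
  ∑ i ∈ A, S i + ∑ i ∈ B, T i

/-- THE STRUCTURE OF PURE BETA: `D` is simplicial and the part of `D` which is not killed by the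
functionals of the cycle is `- z f ∏ (1 - x_i) ∏ (1 - y_k)`. -/
structure Be (phi : L →+ (P → ℤ)) (D : AO ℤ L) (q f : ℤ[X]) (a : ℝ) (j s : ℕ) (S : Fin 3 → L)
    (es : Fin 3 → (RO ℤ)ˣ) (T : Fin s → L) (lam : Fin s → (RO ℤ)ˣ) : Prop where
  ko : Ko phi D q a j
  f0 : f.coeff 0 = 1
  n : f.coeff 1 - q.coeff 1 = j + 1
  s2 : s + 2 = 2 * j
  rS : ∀ i, Ray D (S i)
  nS : ∀ i, RN D (S i) q f (es i) a
  dS : ∀ i e, e ≠ ld (es i) 1 → Dfr phi D (S i) e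
  mt : ∀ i k, i ≠ k → Mut D (S i) (S k) (ld (es i) 1) (ld (es k) 1)
  rT : ∀ i, Ray D (T i)
  tT : ∀ i, ¬ Dfr phi D (T i) (lam i) ∧ ∃ (g : ℤ[X]) (e : (RO ℤ)ˣ), RN D (T i) q g e a ∧
    (lam i = ld e 1 ∨ (lam i = -e ∧ g.coeff 0 = 1 ∧ Dfr phi D (T i) (ld e 1)))
  ray : ∀ R, Ray D R → (∃ i, R = S i) ∨ ∃ i, R = T i
  bas : Function.Bijective fun c : (Fin 3 → ℤ) × (Fin s → ℤ) =>
    ∑ i, c.1 i • S i + ∑ i, c.2 i • T i
  dSS : ∀ i k, i ≠ k → ∀ p, phi (S i) p = 0 ∨ phi (S k) p = 0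
  dST : ∀ i k p, phi (S i) p = 0 ∨ phi (T k) p = 0
  dTT : ∀ i k, i ≠ k → ∀ p, phi (T i) p = 0 ∨ phi (T k) p = 0
  sup : ∀ a ∈ supp D, ∃ (A : Finset (Fin 3)) (B : Finset (Fin s)), a = sST S T A B
  psi : ∀ (A : Finset (Fin 3)) (B : Finset (Fin s)), A ≠ ∅ → A ≠ Finset.univ →
    (∏ i ∈ A, (ld (es i) 1 : RO ℤ)) * (∏ i ∈ B, (lam i : RO ℤ)) * D.coeff (sST S T A B) =
      -((-1) ^ (A.card + B.card) * toLaurent (X * f))

/-- `m_i = D(x_i = 1)_0`. -/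
noncomputable def bm (D : AO ℤ L) (T : L) (lam : (RO ℤ)ˣ) : RO ℤ :=
  D.coeff 0 + (lam : RO ℤ) * D.coeff T

/-- `m_ik = D(x_i = x_k = 1)_0`. -/
noncomputable def bmm (D : AO ℤ L) (T T' : L) (lam lam' : (RO ℤ)ˣ) : RO ℤ :=
  D.coeff 0 + (lam : RO ℤ) * D.coeff T + (lam' : RO ℤ) * D.coeff T' +
    (lam : RO ℤ) * (lam' : RO ℤ) * D.coeff (T + T')

/-- Type A: `m = - z E`, `E(0) ≥ 2`. -/
def TA (m : RO ℤ) (E : ℤ[X]) : Prop := m = -toLaurent (X * E) ∧ 2 ≤ E.coeff 0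

/-- Type B: `m = V`, `V(0) = 1`, exactly one zero `b` in the disc, `a < b < 1`. -/
def TB (m : RO ℤ) (V : ℤ[X]) (a b : ℝ) : Prop :=
  m = toLaurent V ∧ V.coeff 0 = 1 ∧ a < b ∧ b < 1 ∧
    ∃ t : ℝ[X], V.map (Int.castRingHom ℝ) = (X - C b) * t ∧ ∀ z : ℂ, ‖z‖ < 1 → (aeval z t : ℂ) ≠ 0

/-- Pairwise parallel: `D(x_i = x_k = 1)_0 = 0`. -/
def Ppl {s : ℕ} (D : AO ℤ L) (T : Fin s → L) (lam : Fin s → (RO ℤ)ˣ) (Q : Finset (Fin s)) : Prop :=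
  ∀ i ∈ Q, ∀ k ∈ Q, i ≠ k → bmm D (T i) (T k) (lam i) (lam k) = 0

open Classical in
/-- The rays parallel to `T i`. -/
noncomputable def Pll {s : ℕ} (D : AO ℤ L) (T : Fin s → L) (lam : Fin s → (RO ℤ)ˣ) (i : Fin s) :
    Finset (Fin s) :=
  Finset.univ.filter fun k => k ≠ i ∧ bmm D (T i) (T k) (lam i) (lam k) = 0

end

/-! ## Structure -/

/-- (BE_STR) the structure. [uses CnfS F1S McoS E2S RaySpanS; PaperBeta 1] -/
def BeStrS : Prop := ∀ (P L : Type) [Fintype P] [DecidableEq P] [AddCommGroup L]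
  [Module.Free ℤ L] [Module.Finite ℤ L] (phi : L →+ (P → ℤ)) (D : AO ℤ L) (q f : ℤ[X]) (a : ℝ)
  (j : ℕ) (eta : L → (RO ℤ)ˣ) (C : Set L) (Z : ZMod (0 + 3) → L) (mu : ZMod (0 + 3) → L →+ ℤ)
  (et : L → (RO ℤ)ˣ), Bet phi D q f a j eta C Z mu et →
    ∃ (s : ℕ) (S : Fin 3 → L) (es : Fin 3 → (RO ℤ)ˣ) (T : Fin s → L) (lam : Fin s → (RO ℤ)ˣ),
      Be phi D q f a j s S es T lam

/-- (BE_TYP) the types; `n_i ≥ 2` by KO67.n_ne_one_o. [uses TrezS; KE.typa; the zero of `q + z g`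
in the disc as in KO67.sgn_ne; PaperBeta 2] -/
def BeTypS : Prop := ∀ (P L : Type) [Fintype P] [DecidableEq P] [AddCommGroup L]
  [Module.Free ℤ L] [Module.Finite ℤ L] (phi : L →+ (P → ℤ)) (D : AO ℤ L) (q f : ℤ[X]) (a : ℝ)
  (j s : ℕ) (S : Fin 3 → L) (es : Fin 3 → (RO ℤ)ˣ) (T : Fin s → L) (lam : Fin s → (RO ℤ)ˣ),
    Be phi D q f a j s S es T lam → ∀ i, (∃ E, TA (bm D (T i) (lam i)) E) ∨
      ∃ V b, TB (bm D (T i) (lam i)) V a b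

/-! ## Analysis on the circle -/

/-- (BE_POW) all rays at `x_i = omega_i t`. `eps i` is a real polynomial with the modulus of `m_i`.
[uses FcmS; KO/H89/Pow*, KO/H42/Pwb; PaperBeta 3] -/
def BePowS : Prop := ∀ (P L : Type) [Fintype P] [DecidableEq P] [AddCommGroup L]
  [Module.Free ℤ L] [Module.Finite ℤ L] (phi : L →+ (P → ℤ)) (D : AO ℤ L) (q f : ℤ[X]) (a : ℝ)
  (j s : ℕ) (S : Fin 3 → L) (es : Fin 3 → (RO ℤ)ˣ) (T : Fin s → L) (lam : Fin s → (RO ℤ)ˣ),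
    Be phi D q f a j s S es T lam → ∀ eps : Fin s → ℝ[X],
      (∀ i, ∀ z : Circle, ‖(aeval (z : ℂ) (eps i) : ℂ)‖ = ‖evR z (bm D (T i) (lam i))‖) →
      (∀ i, 0 < (eps i).coeff 0) →
        ∑ i, (eps i).coeff 0 ≤ 2 * ((j : ℝ) + 1) * Real.log ((j : ℝ) + 1) ∧
        (j ≤ 6 → ∑ i, (eps i).coeff 0 < 4 * (j : ℝ) - 4)

/-- (BE_TRA) parallel is transitive. [uses FcmS ZfinS; PaperBeta 4] -/
def BeTraS : Prop := ∀ (P L : Type) [Fintype P] [DecidableEq P] [AddCommGroup L]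
  [Module.Free ℤ L] [Module.Finite ℤ L] (phi : L →+ (P → ℤ)) (D : AO ℤ L) (q f : ℤ[X]) (a : ℝ)
  (j s : ℕ) (S : Fin 3 → L) (es : Fin 3 → (RO ℤ)ˣ) (T : Fin s → L) (lam : Fin s → (RO ℤ)ˣ),
    Be phi D q f a j s S es T lam → ∀ i k l, i ≠ k → i ≠ l → k ≠ l →
      bmm D (T i) (T k) (lam i) (lam k) = 0 → bmm D (T i) (T l) (lam i) (lam l) = 0 →
        bmm D (T k) (T l) (lam k) (lam l) = 0

/-- (BE_PAR) a pairwise parallel set: `Q_rho + ∑ m_i t_i ≠ 0` for `Re t_i > - 1/2`, `rho` in the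
disc around `7/4` of radius `9/4`, `Q_rho = q + z f (1 - rho)`; outside finitely many `z`.
[uses FcmS ZfinS B5S(closing with constant coefficient zero is zero); PaperBeta 4] -/
def BeParS : Prop := ∀ (P L : Type) [Fintype P] [DecidableEq P] [AddCommGroup L]
  [Module.Free ℤ L] [Module.Finite ℤ L] (phi : L →+ (P → ℤ)) (D : AO ℤ L) (q f : ℤ[X]) (a : ℝ)
  (j s : ℕ) (S : Fin 3 → L) (es : Fin 3 → (RO ℤ)ˣ) (T : Fin s → L) (lam : Fin s → (RO ℤ)ˣ),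
    Be phi D q f a j s S es T lam → ∀ Q : Finset (Fin s), Q.Nonempty → Ppl D T lam Q →
      {z : Circle | ¬ ∀ (rho : ℂ) (t : Fin s → ℂ), ‖rho - 7 / 4‖ < 9 / 4 →
        (∀ i, -(1 / 2) < (t i).re) → (aeval (z : ℂ) q : ℂ) + z * aeval (z : ℂ) f * (1 - rho) +
          ∑ i ∈ Q, evR z (bm D (T i) (lam i)) * t i ≠ 0}.Finite

/-- (BE_CLS) a pairwise parallel set has at most `j` elements, `j ≥ 3`; for `j = 3` a set with three
elements contains a ray of type B with `1/b - b < 1`. One variable, from BeParS. [PaperBeta 5] -/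
def BeClsS : Prop := ∀ (P L : Type) [Fintype P] [DecidableEq P] [AddCommGroup L]
  [Module.Free ℤ L] [Module.Finite ℤ L] (phi : L →+ (P → ℤ)) (D : AO ℤ L) (q f : ℤ[X]) (a : ℝ)
  (j s : ℕ) (S : Fin 3 → L) (es : Fin 3 → (RO ℤ)ˣ) (T : Fin s → L) (lam : Fin s → (RO ℤ)ˣ),
    Be phi D q f a j s S es T lam → 3 ≤ j → ∀ Q : Finset (Fin s), Ppl D T lam Q → Q.card ≤ j ∧
      (j = 3 → Q.card = 3 → ∃ i ∈ Q, ∃ V b, TB (bm D (T i) (lam i)) V a b ∧ b⁻¹ - b < 1)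

/-! ## Ranks -/

/-- (BE_Z) LEMMA Z: the drop at the bad load of an outside ray is exactly two.
[uses ResKS + the argument of KO/H40/Kil (`Kd.no_small`, `Kd.irr`), QstS (BE_SF), MinD.min;
PaperBeta 6] -/
def BeZS : Prop := ∀ (P L : Type) [Fintype P] [DecidableEq P] [AddCommGroup L]
  [Module.Free ℤ L] [Module.Finite ℤ L] (phi : L →+ (P → ℤ)) (D : AO ℤ L) (q f : ℤ[X]) (a : ℝ)
  (j s : ℕ) (S : Fin 3 → L) (es : Fin 3 → (RO ℤ)ˣ) (T : Fin s → L) (lam : Fin s → (RO ℤ)ˣ),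
    Be phi D q f a j s S es T lam → ∀ i, Module.finrank ℤ (US (lam i) (T i) D) + 2 = 2 * j + 1

/-- (BE_SF) the small factors of the closing `x_i = 1`: `1 - x_k`, or `b` contains the `S k`, and
then all factors are small and the others are `1 - x_k`, for all `T k` outside `b`.
[uses QstS; PaperBeta 7] -/
def BeSfS : Prop := ∀ (P L : Type) [Fintype P] [DecidableEq P] [AddCommGroup L]
  [Module.Free ℤ L] [Module.Finite ℤ L] (phi : L →+ (P → ℤ)) (D : AO ℤ L) (q f : ℤ[X]) (a : ℝ)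
  (j s : ℕ) (S : Fin 3 → L) (es : Fin 3 → (RO ℤ)ˣ) (T : Fin s → L) (lam : Fin s → (RO ℤ)ˣ)
  (i : Fin s) (i0 : P) (h : co phi i0 (T i) = 1) (c : RO ℤ) (n : ℕ)
  (G : Fin n → AO ℤ (Ker (co phi i0))) (l : Fin n) (b : Ker (co phi i0)) (jj : P) (e : (RO ℤ)ˣ),
    Be phi D q f a j s S es T lam → FD phi D (T i) i0 (lam i) h c n G →
    Spt phi (T i) i0 G l b jj e →
      (∃ k, k ≠ i ∧ (b : L) = T k ∧ e = lam k) ∨
      ∃ B : Finset (Fin s), i ∉ B ∧ (b : L) = S 0 + S 1 + S 2 + ∑ k ∈ B, T k ∧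
        ∀ k, k ≠ i → k ∉ B → bmm D (T i) (T k) (lam i) (lam k) = 0

/-- (BE_CNT) the count; `r = 2 j - 2 - L_i`. [uses BeZS BeSfS FDS G1S/RkaS NoPure2S EvzS E1S MVS
MmulS; `Ko.ih`; PaperBeta 8] -/
def BeCntS : Prop := ∀ (P L : Type) [Fintype P] [DecidableEq P] [AddCommGroup L]
  [Module.Free ℤ L] [Module.Finite ℤ L] (phi : L →+ (P → ℤ)) (D : AO ℤ L) (q f : ℤ[X]) (a : ℝ)
  (j s : ℕ) (S : Fin 3 → L) (es : Fin 3 → (RO ℤ)ˣ) (T : Fin s → L) (lam : Fin s → (RO ℤ)ˣ),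
    Be phi D q f a j s S es T lam → ∀ i, s ≤ (Pll D T lam i).card + 1 ∨
      ((∀ E, TA (bm D (T i) (lam i)) E → (s : ℤ) ≤ (Pll D T lam i).card + 2 * E.coeff 0) ∧
       ∀ V b r, TB (bm D (T i) (lam i)) V a b → s = (Pll D T lam i).card + r →
         (Even r → (r : ℝ) ≤ 2 * (b⁻¹ - b)) ∧ (Odd r → (r : ℝ) + 1 ≤ 2 * b⁻¹))

/-! ## `j = 2` -/

/-- (BE_N2) `j = 2`: no ray of type B. [uses BpS WooS SfzS TsaS ClpS FDS ..; KO/H42/Rat.lean betaB,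
KO/H42/Pm.lean; PaperBeta 9] -/
def BeN2S : Prop := ∀ (P L : Type) [Fintype P] [DecidableEq P] [AddCommGroup L]
  [Module.Free ℤ L] [Module.Finite ℤ L] (phi : L →+ (P → ℤ)) (D : AO ℤ L) (q f : ℤ[X]) (a : ℝ)
  (s : ℕ) (S : Fin 3 → L) (es : Fin 3 → (RO ℤ)ˣ) (T : Fin s → L) (lam : Fin s → (RO ℤ)ˣ),
    Be phi D q f a 2 s S es T lam → ∀ i V b, ¬ TB (bm D (T i) (lam i)) V a b

/-! ## Result -/

/-- (BE) PURE BETA is impossible. [uses BeStrS BeTypS BePowS BeTraS BeClsS BeCntS BeN2S] -/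
def BetS : Prop := ∀ (P L : Type) [Fintype P] [DecidableEq P] [AddCommGroup L]
  [Module.Free ℤ L] [Module.Finite ℤ L] (phi : L →+ (P → ℤ)) (D : AO ℤ L) (q f : ℤ[X]) (a : ℝ)
  (j : ℕ) (eta : L → (RO ℤ)ˣ) (C : Set L) (Z : ZMod (0 + 3) → L) (mu : ZMod (0 + 3) → L →+ ℤ)
  (et : L → (RO ℤ)ˣ), ¬ Bet phi D q f a j eta C Z mu et

end Pool.Agent.B5
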