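import Pool.Agent.Lib.MP_b5021c_nt.IfaceF

/-!
# Board b5: statements of the rows of chapters G (factors of V), H (pure factors), I (small
non-pure factors)
-/

namespace Pool.Agent.B5

open scoped LaurentPolynomial

section

variable {O : Type} [CommRing O] [Coef O] {P : Type} [Fintype P] [DecidableEq P] {L : Type}
  [AddCommGroup L]

/-- The ports of `S` different from `i0`. -/
def II (phi : L →+ (P → ℤ)) (S : L) (i0 : P) : Finset P :=
  Finset.univ.filter fun i => phi S i = 1 ∧ i ≠ i0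

/-- The ports outside `S`. -/
def OO (phi : L →+ (P → ℤ)) (S : L) : Finset P := Finset.univ.filter fun i => phi S i = 0

/-- The marking of the kernel lattice. -/
def phK (phi : L →+ (P → ℤ)) (k : L →+ ℤ) : Ker k →+ (P → ℤ) := phi.comp (incl (Ker k))

/-- Exponents without ports outside `S`. -/
def Pure (phi : L →+ (P → ℤ)) (S : L) (i0 : P) (G : AO O (Ker (co phi i0))) : Prop :=
  ∀ a ∈ supp G, ∀ j ∈ OO phi S, phi (a : L) j = 0

/-- The closing context. -/
structure CC (phi : L →+ (P → ℤ)) (D : AO O L) (S : L) (i0 : P) (eta : (RO O)ˣ) : Prop where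
  dd : DD phi D
  two : 2 ≤ Module.finrank ℤ L
  ray : Ray D S
  piv : co phi i0 S = 1
  v0 : D.coeff 0 + (eta : RO O) * D.coeff S ≠ 0

/-- The closed element with its factorisation. -/
structure FD (phi : L →+ (P → ℤ)) (D : AO O L) (S : L) (i0 : P) (eta : (RO O)ˣ)
    (h : co phi i0 S = 1) (c : RO O) (n : ℕ) (G : Fin n → AO O (Ker (co phi i0))) : Prop where
  cc : CC phi D S i0 eta
  c0 : c ≠ 0
  eq : cl (co phi i0) S h eta D = cst c * ∏ i, G i
  irr : ∀ i, Irreducible (G i)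
  wd : ∀ i, Wdep (G i)
  st : ∀ i, Stable (G i)
  un : ∀ i, Unitary (G i)
  nn : ∀ i, ∀ lam : Ker (co phi i0) →+ ℤ, Nn lam (cl (co phi i0) S h eta D) → Nn lam (G i)
  full : ∀ i, ∀ lam : Ker (co phi i0) →+ ℤ, Pos lam (cl (co phi i0) S h eta D) → FullAt lam (G i)
  ww : ∀ i, ∀ a ∈ supp (G i), WW (phK phi (co phi i0)) (II phi S i0) (OO phi S) a
  v00 : D.coeff 0 + (eta : RO O) * D.coeff S = c * ∏ i, (G i).coeff 0

open Classical in
/-- The indices of the big factors. -/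
noncomputable def big {k : L →+ ℤ} {n : ℕ} (G : Fin n → AO O (Ker k)) : Finset (Fin n) :=
  Finset.univ.filter fun i => 1 < M ((G i).coeff 0)

open Classical in
/-- The indices of the small factors which are not pure. -/
noncomputable def snp (phi : L →+ (P → ℤ)) (S : L) (i0 : P) {n : ℕ}
    (G : Fin n → AO O (Ker (co phi i0))) : Finset (Fin n) :=
  Finset.univ.filter fun i => ¬ 1 < M ((G i).coeff 0) ∧ ¬ Pure phi S i0 (G i)

/-- A small non-pure factor `G l` with its ray `b`, its port `j` and the value `e` of `w^b`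
which kills it. -/
structure Spt (phi : L →+ (P → ℤ)) (S : L) (i0 : P) {n : ℕ}
    (G : Fin n → AO O (Ker (co phi i0))) (l : Fin n) (b : Ker (co phi i0)) (j : P) (e : (RO O)ˣ) : Prop where
  jO : j ∈ OO phi S
  bj : phi (b : L) j = 1
  eq : G l = cst ((G l).coeff 0) * (1 - AddMonoidAlgebra.single b ((e⁻¹ : (RO O)ˣ) : RO O))
  u0 : IsUnit ((G l).coeff 0)
  other : ∀ i, i ≠ l → ∀ a ∈ supp (G i), phi (a : L) j = 0

end

/-! ## Chapter G -/

/-- (G0) the closed element. -/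
def G0S : Prop := ∀ (O : Type) [CommRing O] [IsDomain O] [IsPrincipalIdealRing O] [Coef O]
  (P L : Type) [Fintype P] [DecidableEq P] [AddCommGroup L] [Module.Free ℤ L]
  [Module.Finite ℤ L] (phi : L →+ (P → ℤ)) (D : AO O L) (S : L) (i0 : P) (eta : (RO O)ˣ)
  (h : co phi i0 S = 1), CC phi D S i0 eta →
    Stable (cl (co phi i0) S h eta D) ∧ Unitary (cl (co phi i0) S h eta D) ∧
    (cl (co phi i0) S h eta D).coeff 0 = D.coeff 0 + (eta : RO O) * D.coeff S ∧
    (∀ a ∈ supp (cl (co phi i0) S h eta D),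
      WW (phK phi (co phi i0)) (II phi S i0) (OO phi S) a) ∧
    Function.Injective (phK phi (co phi i0)) ∧
    (∀ lam : L →+ ℤ, lam S = 0 → (∀ a ∈ supp D, a ≠ 0 → a ≠ S → 0 < lam a) →
      Pos (lam.comp (incl (Ker (co phi i0)))) (cl (co phi i0) S h eta D))

/-- Sets of exponents in `W(I,J)` are thin. -/
def ThinS : Prop := ∀ (P L : Type) [Fintype P] [DecidableEq P] [AddCommGroup L] [Module.Free ℤ L]
  [Module.Finite ℤ L] (phi : L →+ (P → ℤ)) (I J : Finset P) (T : Set L), Function.Injective phi →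
    (∀ a ∈ T, WW phi I J a) → Thin T

/-- Factors of elements with exponents in `W(I,J)` have exponents in `W(I,J)`; the exponents of
two factors do not meet in `J`. -/
def WWfS : Prop := ∀ (O : Type) [CommRing O] [IsDomain O] [IsPrincipalIdealRing O] [Coef O]
  (P L : Type) [Fintype P] [DecidableEq P] [AddCommGroup L] [Module.Free ℤ L]
  [Module.Finite ℤ L] (phi : L →+ (P → ℤ)) (I J : Finset P) (G H : AO O L),
    (∀ a ∈ supp (G * H), WW phi I J a) → G.coeff 0 ≠ 0 → H.coeff 0 ≠ 0 →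
      (∀ a ∈ supp G, WW phi I J a) ∧
      ∀ j ∈ J, (∀ a ∈ supp G, phi a j = 0) ∨ (∀ a ∈ supp H, phi a j = 0)

/-- The factorisation of the closed element. -/
def FDS : Prop := ∀ (O : Type) [CommRing O] [IsDomain O] [IsPrincipalIdealRing O] [Coef O]
  (P L : Type) [Fintype P] [DecidableEq P] [AddCommGroup L] [Module.Free ℤ L]
  [Module.Finite ℤ L] (phi : L →+ (P → ℤ)) (D : AO O L) (S : L) (i0 : P) (eta : (RO O)ˣ)
  (h : co phi i0 S = 1), CC phi D S i0 eta →
    ∃ (c : RO O) (n : ℕ) (G : Fin n → AO O (Ker (co phi i0))), FD phi D S i0 eta h c n G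

/-- Small factors: shape. -/
def SmallS : Prop := ∀ (O : Type) [CommRing O] [IsDomain O] [IsPrincipalIdealRing O] [Coef O]
  (P L : Type) [Fintype P] [DecidableEq P] [AddCommGroup L] [Module.Free ℤ L]
  [Module.Finite ℤ L] (phi : L →+ (P → ℤ)) (D : AO O L) (S : L) (i0 : P) (eta : (RO O)ˣ)
  (h : co phi i0 S = 1) (c : RO O) (n : ℕ) (G : Fin n → AO O (Ker (co phi i0))),
    FD phi D S i0 eta h c n G → ∀ l : Fin n, ¬ 1 < M ((G l).coeff 0) →
      IsUnit ((G l).coeff 0) ∧ (∃ b : Ker (co phi i0), b ≠ 0 ∧ supp (G l) = {0, b} ∧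
        ∃ e : (RO O)ˣ, G l = cst ((G l).coeff 0) * (1 - AddMonoidAlgebra.single b ((e⁻¹ : (RO O)ˣ) : RO O))) ∧
      (¬ Pure phi S i0 (G l) → ∃ (b : Ker (co phi i0)) (j : P) (e : (RO O)ˣ), Spt phi S i0 G l b j e)

/-- Every extreme ray of the closed element is an exponent of some factor. -/
def RayFacS : Prop := ∀ (O : Type) [CommRing O] [IsDomain O] [IsPrincipalIdealRing O] [Coef O]
  (P L : Type) [Fintype P] [DecidableEq P] [AddCommGroup L] [Module.Free ℤ L]
  [Module.Finite ℤ L] (phi : L →+ (P → ℤ)) (D : AO O L) (S : L) (i0 : P) (eta : (RO O)ˣ)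
  (h : co phi i0 S = 1) (c : RO O) (n : ℕ) (G : Fin n → AO O (Ker (co phi i0))),
    FD phi D S i0 eta h c n G → ∀ b : Ker (co phi i0), Ray (cl (co phi i0) S h eta D) b →
      ∃ i, b ∈ supp (G i)

/-- (G1) the rank of the support of the closed element. -/
def G1S : Prop := ∀ (O : Type) [CommRing O] [IsDomain O] [IsPrincipalIdealRing O] [Coef O]
  (P L : Type) [Fintype P] [DecidableEq P] [AddCommGroup L] [Module.Free ℤ L]
  [Module.Finite ℤ L] (phi : L →+ (P → ℤ)) (D : AO O L) (S : L) (i0 : P) (eta : (RO O)ˣ)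
  (h : co phi i0 S = 1) (c : RO O) (n : ℕ) (G : Fin n → AO O (Ker (co phi i0))),
    FD phi D S i0 eta h c n G →
      rk (supp (cl (co phi i0) S h eta D)) ≤
        ∑ i ∈ big G, rk (supp (G i)) + (snp phi S i0 G).card + 1

/-! ## Chapter H: at most one pure small extreme ray -/

/-- Numerical contradiction, disjoint case. -/
def H3aS : Prop := ∀ V B : ℂ, V ≠ 0 → B ≠ 0 →
  ∃ x y t : ℂ, ‖x‖ < 1 ∧ ‖y‖ < 1 ∧ ‖t‖ < 1 ∧ V * ((1 - x) * (1 - y)) - B * (1 - t) = 0

/-- Numerical contradiction, co-disjoint case. -/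
def H3bS : Prop := ∀ V B : ℂ, V ≠ 0 →
  ∃ x y : ℂ, ‖x‖ ≤ 1 ∧ ‖y‖ ≤ 1 ∧ ‖V - B‖ < ‖V * (1 - x - y) + B * (x * y)‖

/-- Enlarging the domain, disjoint case. -/
def H2aS : Prop := ∀ V B : ℂ,
  (∀ x y s : ℂ, ‖x‖ < 1 → ‖y‖ < 1 → ‖s‖ < 1 →
    V * ((1 - x) * (1 - y)) - B * (1 - s * (x * y)) ≠ 0) →
  ∀ x y t : ℂ, ‖x‖ < 1 → ‖y‖ < 1 → ‖t‖ < 1 → V * ((1 - x) * (1 - y)) - B * (1 - t) ≠ 0

/-- The data of two pure rays, disjoint case: coefficients of `D` at `z` on the four atoms. -/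
def CaseA {O : Type} [CommRing O] {P : Type} [Fintype P] [DecidableEq P] {L : Type} [AddCommGroup L]
    (phi : L →+ (P → ℤ)) (D : AO O L) (S : L) (eta : (RO O)ˣ) : Prop :=
  ∃ (a b : L) (k l : (RO O)ˣ), Bin phi a ∧ Bin phi b ∧ a ≠ 0 ∧ b ≠ 0 ∧ a + b ≠ S ∧ Bin phi (S - a - b) ∧
    D.coeff a = -((k : RO O) * (D.coeff 0 + (eta : RO O) * D.coeff S)) ∧
    D.coeff b = -((l : RO O) * (D.coeff 0 + (eta : RO O) * D.coeff S)) ∧
    D.coeff (a + b) = ((k * l : (RO O)ˣ) : RO O) * (D.coeff 0 + (eta : RO O) * D.coeff S) ∧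
    D.coeff (S - a - b) = 0 ∧ D.coeff (S - a) = 0 ∧ D.coeff (S - b) = 0

/-- The data of two pure rays, co-disjoint case (`a`, `b` are the complements in `S` of the two
sets, `S - a - b` is their intersection). -/
def CaseB {O : Type} [CommRing O] {P : Type} [Fintype P] [DecidableEq P] {L : Type} [AddCommGroup L]
    (phi : L →+ (P → ℤ)) (D : AO O L) (S : L) (eta : (RO O)ˣ) : Prop :=
  ∃ (a b : L) (k l : (RO O)ˣ), Bin phi a ∧ Bin phi b ∧ a ≠ 0 ∧ b ≠ 0 ∧ a + b ≠ S ∧ Bin phi (S - a - b) ∧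
    D.coeff (S - a) = -((k : RO O) * (D.coeff 0 + (eta : RO O) * D.coeff S)) ∧
    D.coeff (S - b) = -((l : RO O) * (D.coeff 0 + (eta : RO O) * D.coeff S)) ∧
    D.coeff (S - a - b) = ((k * l * eta : (RO O)ˣ) : RO O) * (D.coeff 0 + (eta : RO O) * D.coeff S) ∧
    D.coeff a = 0 ∧ D.coeff b = 0 ∧ D.coeff (a + b) = 0

/-- (H1) two different pure rays give case A or case B. -/
def H1S : Prop := ∀ (O : Type) [CommRing O] [IsDomain O] [IsPrincipalIdealRing O] [Coef O]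
  (P L : Type) [Fintype P] [DecidableEq P] [AddCommGroup L] [Module.Free ℤ L]
  [Module.Finite ℤ L] (phi : L →+ (P → ℤ)) (D : AO O L) (S : L) (i0 : P) (eta : (RO O)ˣ)
  (h : co phi i0 S = 1) (b₁ b₂ : Ker (co phi i0)) (c₁ c₂ : (RO O)ˣ), CC phi D S i0 eta →
    Ray (cl (co phi i0) S h eta D) b₁ → Ray (cl (co phi i0) S h eta D) b₂ →
    (∀ j ∈ OO phi S, phi (b₁ : L) j = 0) → (∀ j ∈ OO phi S, phi (b₂ : L) j = 0) → b₁ ≠ b₂ →
    (1 - AddMonoidAlgebra.single b₁ (c₁ : RO O)) * (1 - AddMonoidAlgebra.single b₂ (c₂ : RO O)) ∣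
      cl (co phi i0) S h eta D →
      CaseA phi D S eta ∨ CaseB phi D S eta

/-- (H2) case A and case B are impossible. -/
def H2S : Prop := ∀ (O : Type) [CommRing O] [IsDomain O] [IsPrincipalIdealRing O] [Coef O]
  (P L : Type) [Fintype P] [DecidableEq P] [AddCommGroup L] [Module.Free ℤ L]
  [Module.Finite ℤ L] (phi : L →+ (P → ℤ)) (D : AO O L) (S : L) (i0 : P) (eta : (RO O)ˣ),
    CC phi D S i0 eta → ¬ CaseA phi D S eta ∧ ¬ CaseB phi D S eta

/-- (H) two pure small extreme rays are equal. -/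
def HS : Prop := ∀ (O : Type) [CommRing O] [IsDomain O] [IsPrincipalIdealRing O] [Coef O]
  (P L : Type) [Fintype P] [DecidableEq P] [AddCommGroup L] [Module.Free ℤ L]
  [Module.Finite ℤ L] (phi : L →+ (P → ℤ)) (D : AO O L) (S : L) (i0 : P) (eta : (RO O)ˣ)
  (h : co phi i0 S = 1) (c : RO O) (n : ℕ) (G : Fin n → AO O (Ker (co phi i0))),
    FD phi D S i0 eta h c n G → ∀ (i j : Fin n) (b₁ b₂ : Ker (co phi i0)),
      ¬ 1 < M ((G i).coeff 0) → ¬ 1 < M ((G j).coeff 0) → Pure phi S i0 (G i) →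
      Pure phi S i0 (G j) → b₁ ∈ supp (G i) → b₂ ∈ supp (G j) →
      Ray (cl (co phi i0) S h eta D) b₁ → Ray (cl (co phi i0) S h eta D) b₂ → b₁ = b₂

/-! ## Chapter I: small non-pure factors -/

/-- `X`: the part of `D` without the pivot, with `x_l = 1` (for the ray `b`, port `j`, value `e`). -/
noncomputable def Xl {O : Type} [CommRing O] {P : Type} [Fintype P] [DecidableEq P] {L : Type} [AddCommGroup L]
    (phi : L →+ (P → ℤ)) (D : AO O L) (i0 : P) (b : Ker (co phi i0)) (j : P)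
    (hj : co (phK phi (co phi i0)) j b = 1) (e : (RO O)ˣ) :
    AO O (Ker (co (phK phi (co phi i0)) j)) :=
  cl (co (phK phi (co phi i0)) j) b hj e (res (Ker (co phi i0)) D)

/-- (I1a) pointwise estimate: `|X| (1 - |s|) ≤ C |V|` along `s ↦ u s^lam`. -/
def I1aS : Prop := ∀ (O : Type) [CommRing O] [IsDomain O] [IsPrincipalIdealRing O] [Coef O]
  (P L : Type) [Fintype P] [DecidableEq P] [AddCommGroup L] [Module.Free ℤ L]
  [Module.Finite ℤ L] (phi : L →+ (P → ℤ)) (D : AO O L) (S : L) (i0 : P) (eta : (RO O)ˣ)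
  (h : co phi i0 S = 1), CC phi D S i0 eta → ∀ lam : L →+ ℤ, lam S = 0 →
    (∀ a ∈ supp D, a ≠ 0 → a ≠ S → 0 < lam a) →
    ∀ z : Circle, evR z (D.coeff 0 + (eta : RO O) * D.coeff S) ≠ 0 → ∃ C : ℝ,
      ∀ (u : AddChar (Ker (co phi i0)) Circle) (s : ℂ), ‖s‖ < 1 →
        ‖(sl u (lam.comp (incl (Ker (co phi i0)))) (spec z (res (Ker (co phi i0)) D))).eval s‖ *
          (1 - ‖s‖) ≤
        C * ‖(sl u (lam.comp (incl (Ker (co phi i0))))
          (spec z (cl (co phi i0) S h eta D))).eval s‖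

/-- (I1) the product of the other factors divides `X` on `x_l = 1`, and `X` is not zero there. -/
def I1S : Prop := ∀ (O : Type) [CommRing O] [IsDomain O] [IsPrincipalIdealRing O] [Coef O]
  (P L : Type) [Fintype P] [DecidableEq P] [AddCommGroup L] [Module.Free ℤ L]
  [Module.Finite ℤ L] (phi : L →+ (P → ℤ)) (D : AO O L) (S : L) (i0 : P) (eta : (RO O)ˣ)
  (h : co phi i0 S = 1) (c : RO O) (n : ℕ) (G : Fin n → AO O (Ker (co phi i0))),
    FD phi D S i0 eta h c n G → ∀ (l : Fin n) (b : Ker (co phi i0)) (j : P) (e : (RO O)ˣ),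
      Spt phi S i0 G l b j e → ∀ hj : co (phK phi (co phi i0)) j b = 1,
        Xl phi D i0 b j hj e ≠ 0 ∧
        (∏ i ∈ Finset.univ.erase l, res (Ker (co (phK phi (co phi i0)) j)) (G i)) ∣
          Xl phi D i0 b j hj e

/-- (I2) the quotient has no ports outside `S` and `b`. -/
def I2S : Prop := ∀ (O : Type) [CommRing O] [IsDomain O] [IsPrincipalIdealRing O] [Coef O]
  (P L : Type) [Fintype P] [DecidableEq P] [AddCommGroup L] [Module.Free ℤ L]
  [Module.Finite ℤ L] (phi : L →+ (P → ℤ)) (D : AO O L) (S : L) (i0 : P) (eta : (RO O)ˣ)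
  (h : co phi i0 S = 1) (c : RO O) (n : ℕ) (G : Fin n → AO O (Ker (co phi i0))),
    FD phi D S i0 eta h c n G → ∀ (l : Fin n) (b : Ker (co phi i0)) (j : P) (e : (RO O)ˣ),
      Spt phi S i0 G l b j e → ∀ hj : co (phK phi (co phi i0)) j b = 1,
        ∀ q : AO O (Ker (co (phK phi (co phi i0)) j)),
          Xl phi D i0 b j hj e =
            q * ∏ i ∈ Finset.univ.erase l, res (Ker (co (phK phi (co phi i0)) j)) (G i) →
          ∀ a ∈ supp q, ∀ j' ∈ OO phi S, phi (b : L) j' = 0 → phi ((a : Ker (co phi i0)) : L) j' = 0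

/-- (I3) the pointwise inequality in `z`. -/
def I3S : Prop := ∀ (O : Type) [CommRing O] [IsDomain O] [IsPrincipalIdealRing O] [Coef O]
  (P L : Type) [Fintype P] [DecidableEq P] [AddCommGroup L] [Module.Free ℤ L]
  [Module.Finite ℤ L] (phi : L →+ (P → ℤ)) (D : AO O L) (S : L) (i0 : P) (eta : (RO O)ˣ)
  (h : co phi i0 S = 1) (c : RO O) (n : ℕ) (G : Fin n → AO O (Ker (co phi i0))),
    FD phi D S i0 eta h c n G → ∃ q : Fin n → RO O, (∀ l, q l ≠ 0) ∧
      ∀ z : Circle, ∑ l ∈ snp phi S i0 G, ‖evR z (q l)‖ * ∏ i ∈ big G, ‖evR z ((G i).coeff 0)‖ ≤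
        2 * ‖evR z (D.coeff 0)‖

/-- (G3) number of small non-pure factors. -/
def G3S : Prop := ∀ (O : Type) [CommRing O] [IsDomain O] [IsPrincipalIdealRing O] [Coef O]
  (P L : Type) [Fintype P] [DecidableEq P] [AddCommGroup L] [Module.Free ℤ L]
  [Module.Finite ℤ L] (phi : L →+ (P → ℤ)) (D : AO O L) (S : L) (i0 : P) (eta : (RO O)ˣ)
  (h : co phi i0 S = 1) (c : RO O) (n : ℕ) (G : Fin n → AO O (Ker (co phi i0))),
    FD phi D S i0 eta h c n G →
      ((snp phi S i0 G).card : ℝ) * ∏ i ∈ big G, M ((G i).coeff 0) ≤ 2 * M (D.coeff 0)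

end Pool.Agent.B5
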