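import Pool.Agent.Lib.MP_b5021c_nt.IfaceK2
import Pool.Agent.Lib.MP_b5021c_nt.EisCoef

/-!
# MP_b5021c_nt, chapter K, third part: base change to the Eisenstein integers
-/

namespace Pool.Agent.MP_b5021c_nt

open Polynomial Filter Topology Pool.Agent.B5

noncomputable section

/-- `D` as an element of the group algebra over the Eisenstein integers. -/
def toE {ι : Type} [Fintype ι] [DecidableEq ι] (D : Finset ι → ℤ[X]) : AO Eis (ι → ℤ) :=
  ∑ S : Finset ι, AddMonoidAlgebra.single (ind S)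
    (Polynomial.toLaurent ((D S).map (Int.castRingHom Eis)))

/-- TCE. Coefficients of `toE D`. -/
def TceS : Prop := ∀ (ι : Type) [Fintype ι] [DecidableEq ι] (D : Finset ι → ℤ[X]),
  (∀ S, (toE D).coeff (ind S) = Polynomial.toLaurent ((D S).map (Int.castRingHom Eis))) ∧
  (∀ a : ι → ℤ, (toE D).coeff a ≠ 0 → ∃ S, a = ind S ∧ D S ≠ 0)

/-- STE. Stability of `toE D`. -/
def SteS : Prop := ∀ (ι : Type) [Fintype ι] [DecidableEq ι] (D : Finset ι → ℤ[X]) (θ : ℝ),
  PolyFree D → OneZero (D ∅) θ → Stable (toE D)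

/-- UNE. -/
def UneS : Prop := ∀ (ι : Type) [Fintype ι] [DecidableEq ι] (D : Finset ι → ℤ[X]), UniK D → Unitary (toE D)

/-- IRE. Irreducibility over the Eisenstein integers. -/
def IreS : Prop := ∀ (ι : Type) [Fintype ι] [Nonempty ι] [DecidableEq ι] (D : Finset ι → ℤ[X]) (θ : ℝ),
  Good D θ → Irreducible (toE D)

/-- GDE. The polynomials of the structure theorem belong to the class `DD` over the Eisenstein integers. -/
def GdeS : Prop := ∀ (ι : Type) [Fintype ι] [Nonempty ι] [DecidableEq ι] (D : Finset ι → ℤ[X]) (θ : ℝ),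
  Good D θ → DD (AddMonoidHom.id (ι → ℤ)) (toE D) ∧ ClassP θ ((toE D).coeff 0)

end

end Pool.Agent.MP_b5021c_nt
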