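import Pool.Agent.Lib.MP_b5021c_nt.IfaceKE
import Pool.Agent.Lib.MP_b5021c_nt.IfaceAM

/-!
# Board b5, stage 3, ALL `θ`, K ODD: assembly of PaperALL.md, section 7

Everything over `ℤ`, notation of IfaceKE: `D_0 = q`, `q(0) = 1`, `q` has exactly one zero `a` in the
open disc, `0 < a`, `θ = 1/a`; for a ray `S` the unit `e` is chosen with `e D_S = f`, `f(0) ≥ 1`.
Loads: B = `T e` (`ld e 1`), C = `T² e` (`ld e 2`), A = `-e`.  The rank is `2 j + 1`, `j ≥ 2`, and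
`θ < j + 1`, that is `1 < (j + 1) a`.  `n = f_1 - q_1`.
-/

namespace Pool.Agent.B5

open scoped LaurentPolynomial
open Polynomial
open Pool.Agent.B5.Nr.Sch (Loc)

section

variable {P : Type} [Fintype P] [DecidableEq P] {L : Type} [AddCommGroup L] [Module.Free ℤ L]
  [Module.Finite ℤ L]

/-- The load `e` of the ray `S` is drop free. -/
def Dfr (phi : L →+ (P → ℤ)) (D : AO ℤ L) (S : L) (e : (RO ℤ)ˣ) : Prop :=
  ∀ (i0 : P) (h : co phi i0 S = 1),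
    Module.finrank ℤ L = rk (supp (cl (co phi i0) S h e D)) + 1

/-- A COUNTEREXAMPLE OF MINIMAL ODD RANK `2 j + 1`, with minimal support. `mu` comes from MonoS. -/
structure Ko (phi : L →+ (P → ℤ)) (D : AO ℤ L) (q : ℤ[X]) (a : ℝ) (j : ℕ) : Prop where
  min : MinD a⁻¹ phi D
  D0 : D.coeff 0 = toLaurent q
  qn : Qn q a
  j2 : 2 ≤ j
  rk : Module.finrank ℤ L = 2 * j + 1
  lt : 1 < ((j : ℝ) + 1) * a
  mu : (j : ℝ) ≤ a⁻¹ - a
  ih : ∀ K < 2 * j + 1, Bnk K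

/-- A non-empty set `C` of mutual rays with the drop `g ≥ 1` at the loads `eta`, all other loads
drop free, closed under `T ∉ U_S`. -/
structure Kc (phi : L →+ (P → ℤ)) (D : AO ℤ L) (eta : L → (RO ℤ)ˣ) (g : ℕ) (C : Set L) : Prop where
  g1 : 1 ≤ g
  ne : C.Nonempty
  ray : ∀ S ∈ C, Ray D S
  us : ∀ S ∈ C, Module.finrank ℤ (US (eta S) S D) + g = Module.finrank ℤ L
  dr : ∀ S ∈ C, ∀ (i0 : P) (h : co phi i0 S = 1),
    Module.finrank ℤ L = rk (supp (cl (co phi i0) S h (eta S) D)) + 1 + g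
  fr : ∀ S ∈ C, ∀ e : (RO ℤ)ˣ, e ≠ eta S → Dfr phi D S e
  mtl : ∀ S ∈ C, ∀ T, Ray D T → T ∉ US (eta S) S D → T ∈ C ∧ Mut D S T (eta S) (eta T)
  ex : ∀ S ∈ C, ∃ T ∈ C, Mut D S T (eta S) (eta T)
  two : 2 ≤ g → ∀ S ∈ C, ∃ S1 ∈ C, ∃ S2 ∈ C, Mut D S S1 (eta S) (eta S1) ∧
    Mut D S S2 (eta S) (eta S2) ∧ S2 ∉ satur (US (eta S1) S1 D ⊔ Submodule.span ℤ {S}) ∧
    S1 ∉ satur (US (eta S2) S2 D ⊔ Submodule.span ℤ {S})

/-- The loads with the drop are the B-loads (`f` is the same for all rays of `C`). -/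
structure KcB (phi : L →+ (P → ℤ)) (D : AO ℤ L) (q f : ℤ[X]) (a : ℝ) (j : ℕ) (eta : L → (RO ℤ)ˣ)
    (g : ℕ) (C : Set L) : Prop where
  ko : Ko phi D q a j
  kc : Kc phi D eta g C
  rn : ∀ S ∈ C, ∃ e : (RO ℤ)ˣ, eta S = ld e 1 ∧ RN D S q f e a

/-- The loads with the drop are the A-loads. -/
structure KcA (phi : L →+ (P → ℤ)) (D : AO ℤ L) (q f : ℤ[X]) (a : ℝ) (j : ℕ) (eta : L → (RO ℤ)ˣ)
    (g : ℕ) (C : Set L) : Prop where
  ko : Ko phi D q a j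
  kc : Kc phi D eta g C
  rn : ∀ S ∈ C, ∃ e : (RO ℤ)ˣ, eta S = -e ∧ RN D S q f e a

end

/-! ## One variable -/

/-- (KO_WU) window, `u ≥ 2`, B-load good: `θ_B ≥ mu_j = 1/p`. [helper80] -/
def WuoS : Prop := ∀ (q f : ℤ[X]) (a p : ℝ) (j : ℕ), Loc q f a → 2 ≤ f.coeff 0 → 2 ≤ j →
  0 < p → p⁻¹ - p = j → a ≤ p → 1 < ((j : ℝ) + 1) * a →
  (aeval p q : ℝ) + p * aeval p f ≤ 0 → False

/-- (KO_WO) window, `u = 1`, B-load good. [helper80] -/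
def WooS : Prop := ∀ (q f : ℤ[X]) (a p : ℝ) (j : ℕ), Loc q f a → f.coeff 0 = 1 → 2 ≤ j →
  0 < p → p⁻¹ - p = j → a ≤ p → 1 < ((j : ℝ) + 1) * a → 1 ≤ f.coeff 1 - q.coeff 1 →
  (aeval p q : ℝ) + p * aeval p f ≤ 0 → f.coeff 1 - q.coeff 1 ≤ j

/-- (KO_I2) cardioid, `u ≥ 2`. [proved: W/H63/I2.lean] -/
def Io2S : Prop := ∀ (q f : ℤ[X]) (a : ℝ), Loc q f a →
  (∀ z : ℂ, ‖z‖ = 1 → ‖aeval z (q + 3 * X * f)‖ ≤ 2 * ‖aeval z q‖) → 2 ≤ f.coeff 0 → a < 1 / 2 →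
    (0 : ℝ) ≤ aeval (a / (1 - a)) q + a / (1 - a) * aeval (a / (1 - a)) f

/-- (KO_I3) cardioid, `u = 1`, `n ≥ θ + 1`. [proved: W/H52/Car.lean] -/
def Io3S : Prop := ∀ (q f : ℤ[X]) (a : ℝ), Loc q f a →
  (∀ z : ℂ, ‖z‖ = 1 → ‖aeval z (q + 3 * X * f)‖ ≤ 2 * ‖aeval z q‖) → f.coeff 0 = 1 → a < 1 / 2 →
    a⁻¹ + 1 ≤ f.coeff 1 - q.coeff 1 →
    (0 : ℝ) ≤ aeval (a / (1 - a)) q + a / (1 - a) * aeval (a / (1 - a)) f

/-! ## The leaves -/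

/-- (KO_OFA) `u ≥ 2` and the B-load drop free (good, small factors, no big factor): impossible.
Good: WuoS.  Small factors: 3524 (C1H, QSG).  No big factor: NbzS. -/
def OfaS : Prop := ∀ (P L : Type) [Fintype P] [DecidableEq P] [AddCommGroup L]
  [Module.Free ℤ L] [Module.Finite ℤ L] (phi : L →+ (P → ℤ)) (D : AO ℤ L) (S : L)
  (q f : ℤ[X]) (e : (RO ℤ)ˣ) (a : ℝ) (j : ℕ), Ko phi D q a j → Ray D S → RN D S q f e a →
    2 ≤ f.coeff 0 → Dfr phi D S (ld e 1) → False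

/-- (KO_OFB) `u ≥ 2` and a drop at the B-load: impossible. (I2), (*), small factors. -/
def OfbS : Prop := ∀ (P L : Type) [Fintype P] [DecidableEq P] [AddCommGroup L]
  [Module.Free ℤ L] [Module.Finite ℤ L] (phi : L →+ (P → ℤ)) (D : AO ℤ L) (q f : ℤ[X]) (a : ℝ)
  (j : ℕ) (eta : L → (RO ℤ)ˣ) (g : ℕ) (C : Set L), KcB phi D q f a j eta g C →
    f.coeff 0 = 1

/-- (KO_O1) `u = 1`, the A-load and the B-load drop free: impossible. [(O1-i), (O1-ii), (O1-iii)] -/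
def Oo1S : Prop := ∀ (P L : Type) [Fintype P] [DecidableEq P] [AddCommGroup L]
  [Module.Free ℤ L] [Module.Finite ℤ L] (phi : L →+ (P → ℤ)) (D : AO ℤ L) (S : L)
  (q f : ℤ[X]) (e : (RO ℤ)ˣ) (a : ℝ) (j : ℕ), Ko phi D q a j → Ray D S → RN D S q f e a →
    f.coeff 0 = 1 → Dfr phi D S (ld e 1) → Dfr phi D S (-e) → False

/-- (KO_O1IV) `u = 1`, a drop at the A-load: impossible. -/
def Oo4S : Prop := ∀ (P L : Type) [Fintype P] [DecidableEq P] [AddCommGroup L]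
  [Module.Free ℤ L] [Module.Finite ℤ L] (phi : L →+ (P → ℤ)) (D : AO ℤ L) (q f : ℤ[X]) (a : ℝ)
  (j : ℕ) (eta : L → (RO ℤ)ˣ) (g : ℕ) (C : Set L), KcA phi D q f a j eta g C →
    f.coeff 0 = 1 → False

/-- (KO_O2) `u = 1`, a drop at the B-load: `n = j + 1`. [AM_DTI AM_GL2 SfzS TsaS Io3S TrezS EvzS
FclS CuspS] -/
def Ob2S : Prop := ∀ (P L : Type) [Fintype P] [DecidableEq P] [AddCommGroup L]
  [Module.Free ℤ L] [Module.Finite ℤ L] (phi : L →+ (P → ℤ)) (D : AO ℤ L) (q f : ℤ[X]) (a : ℝ)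
  (j : ℕ) (eta : L → (RO ℤ)ˣ) (g : ℕ) (C : Set L), KcB phi D q f a j eta g C →
    f.coeff 0 = 1 → f.coeff 1 - q.coeff 1 = j + 1 ∧ (g = 1 ∨ g = 2)

/-- (KO_O3) drop two at the B-load: impossible. [AM_FOU AM_FNF O5aS CuspS SewS FclS] -/
def Ob3S : Prop := ∀ (P L : Type) [Fintype P] [DecidableEq P] [AddCommGroup L]
  [Module.Free ℤ L] [Module.Finite ℤ L] (phi : L →+ (P → ℤ)) (D : AO ℤ L) (q f : ℤ[X]) (a : ℝ)
  (j : ℕ) (eta : L → (RO ℤ)ˣ) (C : Set L), KcB phi D q f a j eta 2 C →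
    f.coeff 0 = 1 → f.coeff 1 - q.coeff 1 = j + 1 → False

/-- (KO_O4) drop one at the B-load: impossible. [AM_CYC AM_NF, 3496 (cycles of length ≥ 5), cycles
of length 4 and 3 (helper92)] -/
def Ob4S : Prop := ∀ (P L : Type) [Fintype P] [DecidableEq P] [AddCommGroup L]
  [Module.Free ℤ L] [Module.Finite ℤ L] (phi : L →+ (P → ℤ)) (D : AO ℤ L) (q f : ℤ[X]) (a : ℝ)
  (j : ℕ) (eta : L → (RO ℤ)ˣ) (C : Set L), KcB phi D q f a j eta 1 C →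
    f.coeff 0 = 1 → f.coeff 1 - q.coeff 1 = j + 1 → False

/-! ## Results -/

/-- (KO) K ODD for normalised elements. [uses SelxS McoS OfaS OfbS Oo1S Oo4S Ob2S Ob3S Ob4S] -/
def KodnS : Prop := ∀ (P L : Type) [Fintype P] [DecidableEq P] [AddCommGroup L]
  [Module.Free ℤ L] [Module.Finite ℤ L] (phi : L →+ (P → ℤ)) (D : AO ℤ L) (q : ℤ[X]) (a : ℝ)
  (j : ℕ), ¬ Ko phi D q a j

/-- (MONO) an element of `DD` of rank one less, same class (helper78, IfaceKE / E/H78/Mono.lean). -/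
def MonoKS : Prop := ∀ (P L : Type) [Fintype P] [DecidableEq P] [AddCommGroup L]
  [Module.Free ℤ L] [Module.Finite ℤ L] (phi : L →+ (P → ℤ)) (D : AO ℤ L) (θ : ℝ), DD phi D →
    ClassP θ (D.coeff 0) → 3 ≤ Module.finrank ℤ L →
      ∃ (P' L' : Type) (_ : Fintype P') (_ : DecidableEq P') (_ : AddCommGroup L')
        (_ : Module.Free ℤ L') (_ : Module.Finite ℤ L') (phi' : L' →+ (P' → ℤ)) (D' : AO ℤ L'),
        DD phi' D' ∧ ClassP θ (D'.coeff 0) ∧ Module.finrank ℤ L' + 1 = Module.finrank ℤ L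

end Pool.Agent.B5
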